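import Mathlib

set_option autoImplicit false

/-! ## Deriv -/

/-! Derivations on Laurent series (Hahn series over the integers), used for Jacobian brackets. -/


namespace Pool.Agent.Lib.MP_2d59ee_ag

open HahnSeries Finset

/-- A map is a derivation of a commutative ring (as a plain predicate). -/
structure IsDer {A : Type*} [CommRing A] (D : A → A) : Prop where
  add : ∀ x y, D (x + y) = D x + D y
  mul : ∀ x y, D (x * y) = x * D y + y * D x

namespace IsDer

variable {A : Type*} [CommRing A] {D : A → A}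

theorem zero (h : IsDer D) : D 0 = 0 := by
  have := h.add 0 0
  simpa using this

theorem neg (h : IsDer D) (x : A) : D (-x) = -D x := by
  have := h.add x (-x)
  rw [add_neg_cancel, h.zero] at this
  exact (neg_eq_of_add_eq_zero_right this.symm).symm

theorem sub (h : IsDer D) (x y : A) : D (x - y) = D x - D y := by
  rw [sub_eq_add_neg, h.add, h.neg, sub_eq_add_neg]

theorem one (h : IsDer D) : D 1 = 0 := by
  have := h.mul 1 1
  simpa using this

theorem pow (h : IsDer D) (x : A) (n : ℕ) : D (x ^ (n + 1)) = (n + 1 : ℕ) * x ^ n * D x := by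
  induction n with
  | zero => simp
  | succ n ih =>
    rw [_root_.pow_succ x (n + 1), h.mul, ih]
    push_cast
    ring

theorem sum (h : IsDer D) {ι : Type*} (s : Finset ι) (f : ι → A) :
    D (∑ i ∈ s, f i) = ∑ i ∈ s, D (f i) := by
  classical
  induction s using Finset.induction_on with
  | empty => simp [h.zero]
  | insert a s ha ih => rw [Finset.sum_insert ha, Finset.sum_insert ha, h.add, ih]

end IsDer

theorem IsDer.inv {K : Type*} [Field K] {D : K → K} (h : IsDer D) (x : K) (hx : x ≠ 0) :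
    D x⁻¹ = -(x⁻¹ ^ 2 * D x) := by
  have h1 := h.mul x x⁻¹
  rw [mul_inv_cancel₀ hx, h.one] at h1
  have h2 : x * D x⁻¹ = -(x⁻¹ * D x) := by linear_combination -h1
  have h3 : D x⁻¹ = x⁻¹ * (x * D x⁻¹) := by
    rw [← mul_assoc, inv_mul_cancel₀ hx, one_mul]
  rw [h3, h2]; ring

theorem IsDer.zpow {K : Type*} [Field K] {D : K → K} (h : IsDer D) (x : K) (hx : x ≠ 0) (n : ℤ) :
    x * D (x ^ n) = n * x ^ n * D x := by
  induction n using Int.induction_on with
  | zero => simp [h.one]
  | succ i ih =>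
    rw [zpow_add_one₀ hx, h.mul, mul_add]
    push_cast at ih ⊢
    linear_combination x * ih
  | pred i ih =>
    rw [zpow_sub_one₀ hx, h.mul, h.inv x hx, mul_add]
    push_cast at ih ⊢
    have h1 : x * x⁻¹ = 1 := mul_inv_cancel₀ hx
    linear_combination x⁻¹ * ih - x ^ (-(i:ℤ)) * x⁻¹ * D x * h1

variable {R : Type*} [CommRing R]

/-- The Euler operator `t d/dt`: multiplies the coefficient of `t^n` by `n`. -/
def theta (x : HahnSeries ℤ R) : HahnSeries ℤ R where
  coeff n := (n : R) * x.coeff n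
  isPWO_support' := x.isPWO_support.mono (by
    intro n hn
    simp only [Function.mem_support] at hn
    simp only [mem_support]
    exact right_ne_zero_of_mul hn)

theorem theta_coeff (x : HahnSeries ℤ R) (n : ℤ) :
    (theta x).coeff n = (n : R) * x.coeff n := rfl

theorem theta_support (x : HahnSeries ℤ R) : (theta x).support ⊆ x.support := by
  intro n hn
  simp only [mem_support, theta_coeff] at hn
  simp only [mem_support]
  exact right_ne_zero_of_mul hn

theorem theta_isDer : IsDer (theta : HahnSeries ℤ R → HahnSeries ℤ R) where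
  add x y := by ext n; simp [theta_coeff, mul_add]
  mul x y := by
    ext n
    rw [theta_coeff, mul_comm y (theta x), coeff_add,
      coeff_mul_right' y.isPWO_support (theta_support y),
      coeff_mul_left' x.isPWO_support (theta_support x), coeff_mul,
      ← Finset.sum_add_distrib, Finset.mul_sum]
    refine Finset.sum_congr rfl ?_
    intro ij hij
    have h := (mem_antidiagonal.mp hij).2.2
    rw [theta_coeff, theta_coeff, ← h]
    push_cast
    ring

/-- Coefficientwise application of a derivation. -/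
def coefD (d : R → R) (hd : IsDer d) (x : HahnSeries ℤ R) : HahnSeries ℤ R where
  coeff n := d (x.coeff n)
  isPWO_support' := x.isPWO_support.mono (by
    intro n hn
    simp only [Function.mem_support] at hn
    simp only [mem_support]
    intro h
    exact hn (by rw [h, hd.zero]))

theorem coefD_coeff (d : R → R) (hd : IsDer d) (x : HahnSeries ℤ R) (n : ℤ) :
    (coefD d hd x).coeff n = d (x.coeff n) := rfl

theorem coefD_support (d : R → R) (hd : IsDer d) (x : HahnSeries ℤ R) :
    (coefD d hd x).support ⊆ x.support := by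
  intro n hn
  simp only [mem_support, coefD_coeff] at hn
  simp only [mem_support]
  intro h
  exact hn (by rw [h, hd.zero])

theorem coefD_isDer (d : R → R) (hd : IsDer d) : IsDer (coefD d hd) where
  add x y := by ext n; simp [coefD_coeff, hd.add]
  mul x y := by
    ext n
    rw [coefD_coeff, mul_comm y (coefD d hd x), coeff_add,
      coeff_mul_right' y.isPWO_support (coefD_support d hd y),
      coeff_mul_left' x.isPWO_support (coefD_support d hd x), coeff_mul,
      ← Finset.sum_add_distrib, hd.sum]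
    refine Finset.sum_congr rfl ?_
    intro ij hij
    rw [coefD_coeff, coefD_coeff, hd.mul]
    ring

/-- The Jacobian-type bracket attached to two maps (to be two derivations). -/
def br {A : Type*} [CommRing A] (S T : A → A) (x y : A) : A := S x * T y - T x * S y

theorem br_isDer {A : Type*} [CommRing A] {S T : A → A} (hS : IsDer S) (hT : IsDer T) (x : A) :
    IsDer (br S T x) where
  add y z := by simp only [br, hS.add, hT.add]; ring
  mul y z := by simp only [br, hS.mul, hT.mul]; ring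

theorem br_self {A : Type*} [CommRing A] (S T : A → A) (x : A) : br S T x x = 0 := by
  simp only [br]; ring

end Pool.Agent.Lib.MP_2d59ee_ag


/-! ## Root -/

/-! Roots of one-units in Laurent series over a field of characteristic zero. -/


namespace Pool.Agent.Lib.MP_2d59ee_ag

open PowerSeries in
theorem exists_root_powerSeries {F : Type*} [Field F] [CharZero F] (w : PowerSeries F)
    (hw : PowerSeries.constantCoeff w = 0) (A : ℕ) (hA : 0 < A) :
    ∃ u : PowerSeries F, u ^ A = 1 + w ∧ PowerSeries.constantCoeff u = 1 := by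
  have hS : PowerSeries.HasSubst w := PowerSeries.HasSubst.of_constantCoeff_zero' hw
  have hpow : ∀ (r : ℚ) (n : ℕ),
      (PowerSeries.binomialSeries F r) ^ n = PowerSeries.binomialSeries F ((n : ℚ) * r) := by
    intro r n
    induction n with
    | zero => simp
    | succ n ih =>
      rw [pow_succ, ih, ← PowerSeries.binomialSeries_add]
      congr 1
      push_cast; ring
  refine ⟨(PowerSeries.binomialSeries F (1 / (A : ℚ))).subst w, ?_, ?_⟩
  · rw [← PowerSeries.subst_pow hS, hpow]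
    have h1 : ((A : ℚ) * (1 / (A : ℚ))) = ((1 : ℕ) : ℚ) := by
      have : (A : ℚ) ≠ 0 := by exact_mod_cast hA.ne'
      field_simp
      norm_num
    rw [h1, PowerSeries.binomialSeries_nat, pow_one, PowerSeries.subst_add hS,
      PowerSeries.subst_X hS]
    congr 1
    have h2 := PowerSeries.subst_coe (R := F) hS (1 : Polynomial F)
    simpa using h2
  · have h3 := PowerSeries.binomialSeries_constantCoeff (A := F) (1 / (A : ℚ))
    have h4 : (PowerSeries.binomialSeries F (1 / (A : ℚ)) : PowerSeries F) =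
        1 + (PowerSeries.binomialSeries F (1 / (A : ℚ)) - 1) := by ring
    rw [h4, PowerSeries.subst_add hS, map_add]
    have h5 : PowerSeries.constantCoeff
        ((PowerSeries.binomialSeries F (1 / (A : ℚ)) - 1 : PowerSeries F).subst w) = 0 := by
      apply PowerSeries.constantCoeff_subst_eq_zero hw
      rw [map_sub, h3]; simp
    have h6 : ((1 : PowerSeries F).subst w : PowerSeries F) = 1 := by
      have h2 := PowerSeries.subst_coe (R := F) hS (1 : Polynomial F)
      simpa using h2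
    rw [h6]
    simp only [map_one]
    rw [show PowerSeries.constantCoeff ((PowerSeries.binomialSeries F (1 / (A : ℚ)) - 1 :
      PowerSeries F).subst w) = 0 from h5, add_zero]

theorem exists_root_laurent {F : Type*} [Field F] [CharZero F] (V : HahnSeries ℤ F)
    (h0 : V.coeff 0 = 1) (hneg : ∀ n < 0, V.coeff n = 0) (A : ℕ) (hA : 0 < A) :
    ∃ U : HahnSeries ℤ F, U ^ A = V ∧ U.coeff 0 = 1 ∧ ∀ n < 0, U.coeff n = 0 := by
  let w : PowerSeries F := PowerSeries.mk (fun n => V.coeff n)
  have hwV : (HahnSeries.ofPowerSeries ℤ F) w = V := by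
    ext n
    have := PowerSeries.coeff_coe (R := F) w n
    rw [this]
    split_ifs with h
    · rw [hneg n h]
    · simp only [w, PowerSeries.coeff_mk]
      congr 1
      omega
  obtain ⟨u, hu, hu0⟩ := exists_root_powerSeries (w - 1) (by
    rw [map_sub]
    simp only [w, ← PowerSeries.coeff_zero_eq_constantCoeff_apply, PowerSeries.coeff_mk]
    simp [h0]) A hA
  refine ⟨HahnSeries.ofPowerSeries ℤ F u, ?_, ?_, ?_⟩
  · rw [← map_pow, hu, add_sub_cancel, hwV]
  · have := PowerSeries.coeff_coe (R := F) u 0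
    rw [this]
    simp [hu0]
  · intro n hn
    have := PowerSeries.coeff_coe (R := F) u n
    rw [this, if_pos hn]

end Pool.Agent.Lib.MP_2d59ee_ag


/-! ## RatD -/

/-! The derivation of the field of rational functions extending the polynomial derivative. -/


namespace Pool.Agent.Lib.MP_2d59ee_ag

open Polynomial

variable {k : Type*} [Field k]

/-- polynomials as rational functions -/
noncomputable abbrev toR (p : k[X]) : RatFunc k := algebraMap k[X] (RatFunc k) p

theorem toR_ne_zero {p : k[X]} (hp : p ≠ 0) : toR p ≠ 0 := by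
  rw [toR, Ne, FaithfulSMul.algebraMap_eq_zero_iff]; exact hp

/-- derivative of a rational function -/
noncomputable def ratD (f : RatFunc k) : RatFunc k :=
  (toR (derivative f.num) * toR f.denom - toR f.num * toR (derivative f.denom))
    / (toR f.denom) ^ 2

theorem ratD_div (a b : k[X]) (hb : b ≠ 0) :
    ratD (toR a / toR b) = (toR (derivative a) * toR b - toR a * toR (derivative b))
      / (toR b) ^ 2 := by
  set f := toR a / toR b with hf
  have hd : f.denom ≠ 0 := f.denom_ne_zero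
  have h1 : toR f.num / toR f.denom = toR a / toR b := f.num_div_denom
  have h2 : f.num * b = a * f.denom := by
    have h3 : toR f.num * toR b = toR a * toR f.denom := by
      rwa [div_eq_div_iff (toR_ne_zero hd) (toR_ne_zero hb)] at h1
    have h4 : toR (f.num * b) = toR (a * f.denom) := by
      simpa [toR] using h3
    exact (FaithfulSMul.algebraMap_injective k[X] (RatFunc k)) h4
  have h5 : derivative f.num * b + f.num * derivative b
      = derivative a * f.denom + a * derivative f.denom := by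
    have := congrArg derivative h2
    simpa [derivative_mul] using this
  have h2' : toR f.num * toR b = toR a * toR f.denom := by
    simpa [toR] using congrArg toR h2
  have h5' : toR (derivative f.num) * toR b + toR f.num * toR (derivative b)
      = toR (derivative a) * toR f.denom + toR a * toR (derivative f.denom) := by
    simpa [toR] using congrArg toR h5
  rw [ratD, div_eq_div_iff (pow_ne_zero _ (toR_ne_zero hd)) (pow_ne_zero _ (toR_ne_zero hb))]
  linear_combination (toR b * toR f.denom) * h5' - (toR (derivative f.denom) * toR b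
    + toR (derivative b) * toR f.denom) * h2'

theorem ratD_toR (a : k[X]) : ratD (toR a) = toR (derivative a) := by
  have := ratD_div a 1 one_ne_zero
  simpa [toR] using this

theorem exists_rep (f : RatFunc k) : ∃ a b : k[X], b ≠ 0 ∧ f = toR a / toR b :=
  ⟨f.num, f.denom, f.denom_ne_zero, f.num_div_denom.symm⟩

theorem ratD_isDer : IsDer (ratD : RatFunc k → RatFunc k) where
  add x y := by
    obtain ⟨a, b, hb, rfl⟩ := exists_rep x
    obtain ⟨c, e, he, rfl⟩ := exists_rep y
    have hb' := toR_ne_zero hb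
    have he' := toR_ne_zero he
    have h1 : toR a / toR b + toR c / toR e = toR (a * e + c * b) / toR (b * e) := by
      simp only [toR, map_add, map_mul] at *
      field_simp
    rw [h1, ratD_div _ _ (mul_ne_zero hb he), ratD_div _ _ hb, ratD_div _ _ he]
    simp only [toR, derivative_add, derivative_mul, map_add, map_mul] at *
    field_simp
    ring
  mul x y := by
    obtain ⟨a, b, hb, rfl⟩ := exists_rep x
    obtain ⟨c, e, he, rfl⟩ := exists_rep y
    have hb' := toR_ne_zero hb
    have he' := toR_ne_zero he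
    have h1 : toR a / toR b * (toR c / toR e) = toR (a * c) / toR (b * e) := by
      simp only [toR, map_mul] at *
      field_simp
    rw [h1, ratD_div _ _ (mul_ne_zero hb he), ratD_div _ _ hb, ratD_div _ _ he]
    simp only [toR, derivative_mul, map_add, map_mul] at *
    field_simp
    ring

end Pool.Agent.Lib.MP_2d59ee_ag


/-! ## Lead -/

/-! The leading-form lemma for Jacobian pairs of Laurent series. -/


namespace Pool.Agent.Lib.MP_2d59ee_ag

open HahnSeries

/-- `x` has no terms of degree below `i`. -/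
def Low {R : Type*} [Zero R] (x : HahnSeries ℤ R) (i : ℤ) : Prop := ∀ n < i, x.coeff n = 0

section ring
variable {R : Type*} [CommRing R]

theorem Low.theta {x : HahnSeries ℤ R} {i : ℤ} (h : Low x i) :
    Low (Pool.Agent.Lib.MP_2d59ee_ag.theta x) i := by
  intro n hn; rw [theta_coeff, h n hn, mul_zero]

theorem Low.coefD {x : HahnSeries ℤ R} {i : ℤ} (h : Low x i) (d : R → R) (hd : IsDer d) :
    Low (Pool.Agent.Lib.MP_2d59ee_ag.coefD d hd x) i := by
  intro n hn; rw [coefD_coeff, h n hn, hd.zero]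

theorem Low.mul {x y : HahnSeries ℤ R} {i j : ℤ} (hx : Low x i) (hy : Low y j) :
    Low (x * y) (i + j) := by
  intro n hn
  rw [coeff_mul]
  apply Finset.sum_eq_zero
  intro b hb
  have h := Finset.mem_antidiagonal.mp hb
  have h1 : i ≤ b.1 := by
    by_contra hlt; exact h.1 (hx _ (not_le.mp hlt))
  have h2 : j ≤ b.2 := by
    by_contra hlt; exact h.2.1 (hy _ (not_le.mp hlt))
  have := h.2.2
  omega

theorem Low.coeff_mul {x y : HahnSeries ℤ R} {i j : ℤ} (hx : Low x i) (hy : Low y j) :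
    (x * y).coeff (i + j) = x.coeff i * y.coeff j := by
  rw [HahnSeries.coeff_mul]
  apply Finset.sum_eq_single (i, j)
  · intro b hb hne
    exfalso
    have h := Finset.mem_antidiagonal.mp hb
    have h1 : i ≤ b.1 := by
      by_contra hlt; exact h.1 (hx _ (not_le.mp hlt))
    have h2 : j ≤ b.2 := by
      by_contra hlt; exact h.2.1 (hy _ (not_le.mp hlt))
    have h3 := h.2.2
    apply hne
    ext
    · show b.1 = i
      omega
    · show b.2 = j
      omega
  · intro hnot
    by_contra hne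
    apply hnot
    rw [Finset.mem_antidiagonal]
    refine ⟨?_, ?_, rfl⟩
    · rw [mem_support]; exact left_ne_zero_of_mul hne
    · rw [mem_support]; exact right_ne_zero_of_mul hne

theorem Low.sub {x y : HahnSeries ℤ R} {i : ℤ} (hx : Low x i) (hy : Low y i) : Low (x - y) i := by
  intro n hn; rw [coeff_sub, hx n hn, hy n hn, sub_zero]

theorem Low.br {x y : HahnSeries ℤ R} {i j : ℤ} (hx : Low x i) (hy : Low y j)
    (d : R → R) (hd : IsDer d) :
    Low (Pool.Agent.Lib.MP_2d59ee_ag.br Pool.Agent.Lib.MP_2d59ee_ag.theta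
      (Pool.Agent.Lib.MP_2d59ee_ag.coefD d hd) x y) (i + j) :=
  (hx.theta.mul (hy.coefD d hd)).sub ((hx.coefD d hd).mul hy.theta)

theorem Low.br_coeff {x y : HahnSeries ℤ R} {i j : ℤ} (hx : Low x i) (hy : Low y j)
    (d : R → R) (hd : IsDer d) :
    (Pool.Agent.Lib.MP_2d59ee_ag.br Pool.Agent.Lib.MP_2d59ee_ag.theta
      (Pool.Agent.Lib.MP_2d59ee_ag.coefD d hd) x y).coeff (i + j) =
      (i : R) * x.coeff i * d (y.coeff j) - (j : R) * d (x.coeff i) * y.coeff j := by
  rw [Pool.Agent.Lib.MP_2d59ee_ag.br, coeff_sub, (hx.theta).coeff_mul (hy.coefD d hd),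
    (hx.coefD d hd).coeff_mul hy.theta]
  simp only [theta_coeff, coefD_coeff]
  ring

end ring

section field
variable {F : Type*} [Field F]

/-- One-units of the field of Laurent series. -/
def OneUnit (U : HahnSeries ℤ F) : Prop := U.coeff 0 = 1 ∧ Low U 0

theorem OneUnit.one : OneUnit (1 : HahnSeries ℤ F) := by
  refine ⟨by simp, ?_⟩
  intro n hn
  rw [HahnSeries.coeff_one, if_neg (by omega)]

theorem OneUnit.ne_zero {U : HahnSeries ℤ F} (h : OneUnit U) : U ≠ 0 := by
  rintro rfl
  have := h.1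
  simp at this

theorem OneUnit.mul {U V : HahnSeries ℤ F} (hU : OneUnit U) (hV : OneUnit V) :
    OneUnit (U * V) := by
  refine ⟨?_, ?_⟩
  · have := hU.2.coeff_mul hV.2
    rw [add_zero] at this
    rw [this, hU.1, hV.1, mul_one]
  · have := hU.2.mul hV.2
    rwa [add_zero] at this

theorem low_order (x : HahnSeries ℤ F) : Low x x.order := fun _ hn =>
  coeff_eq_zero_of_lt_order hn

theorem OneUnit.inv {U : HahnSeries ℤ F} (hU : OneUnit U) : OneUnit U⁻¹ := by
  have hne := hU.ne_zero
  have hne' : U⁻¹ ≠ 0 := inv_ne_zero hne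
  have h1 : U⁻¹ * U = 1 := inv_mul_cancel₀ hne
  have h2 := (low_order U⁻¹).coeff_mul hU.2
  rw [h1, add_zero, hU.1, mul_one, HahnSeries.coeff_one] at h2
  have h3 : U⁻¹.coeff U⁻¹.order ≠ 0 := by
    rw [Ne, coeff_order_eq_zero]; exact hne'
  have h4 : U⁻¹.order = 0 := by
    by_contra hne0
    rw [if_neg hne0] at h2
    exact h3 h2.symm
  rw [h4, if_pos rfl] at h2
  refine ⟨h2.symm, ?_⟩
  have := low_order U⁻¹
  rwa [h4] at this

theorem OneUnit.pow {U : HahnSeries ℤ F} (hU : OneUnit U) (n : ℕ) : OneUnit (U ^ n) := by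
  induction n with
  | zero => rw [pow_zero]; exact OneUnit.one
  | succ n ih => rw [pow_succ]; exact ih.mul hU

theorem OneUnit.zpow {U : HahnSeries ℤ F} (hU : OneUnit U) (n : ℤ) : OneUnit (U ^ n) := by
  cases n with
  | ofNat n => simpa using hU.pow n
  | negSucc n => rw [zpow_negSucc]; exact (hU.pow _).inv

theorem single_zpow (a : ℤ) (r : F) (hr : r ≠ 0) (n : ℤ) :
    (single a r : HahnSeries ℤ F) ^ n = single (n * a) (r ^ n) := by
  cases n with
  | ofNat n => simp [single_pow]
  | negSucc n =>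
    have h : -((n + 1) • a) = Int.negSucc n * a := by
      rw [Int.negSucc_eq, nsmul_eq_mul]; push_cast; ring
    rw [zpow_negSucc, single_pow, inv_single, zpow_negSucc, h]

/-- Factor a nonzero series as monomial times one-unit. -/
theorem exists_oneUnit (P : HahnSeries ℤ F) (i : ℤ) (h0 : P.coeff i ≠ 0) (hP : Low P i) :
    ∃ U, OneUnit U ∧ P = single i (P.coeff i) * U := by
  refine ⟨single (-i) (P.coeff i)⁻¹ * P, ⟨?_, ?_⟩, ?_⟩
  · have h1 : Low (single (-i) (P.coeff i)⁻¹ : HahnSeries ℤ F) (-i) := by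
      intro n hn; rw [coeff_single_of_ne (by omega)]
    have := h1.coeff_mul hP
    rw [neg_add_cancel] at this
    rw [this, coeff_single_same, inv_mul_cancel₀ h0]
  · have h1 : Low (single (-i) (P.coeff i)⁻¹ : HahnSeries ℤ F) (-i) := by
      intro n hn; rw [coeff_single_of_ne (by omega)]
    have := h1.mul hP
    rwa [neg_add_cancel] at this
  · rw [← mul_assoc, single_mul_single, add_neg_cancel, mul_inv_cancel₀ h0]
    simp

variable [CharZero F]

/-- Leading-form lemma: if `[P,Q]` is a monomial `c t^(-E)` then some `y` in the residue field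
satisfies the leading-form equation. -/
theorem exists_leading (d : F → F) (hd : IsDer d) (P Q : HahnSeries ℤ F) (A : ℕ) (E : ℤ)
    (hA : 0 < A) (c : F) (hc : c ≠ 0)
    (hP0 : P.coeff (-(A : ℤ)) ≠ 0) (hP : Low P (-(A : ℤ)))
    (hbr : br theta (coefD d hd) P Q = single (-E) c) :
    ∃ y : F, -(A : F) * P.coeff (-(A : ℤ)) * d y
      - ((A : F) - (E : F)) * d (P.coeff (-(A : ℤ))) * y = c := by
  set p := P.coeff (-(A : ℤ)) with hp
  have hPne : P ≠ 0 := ne_zero_of_coeff_ne_zero hP0
  let T : ℤ → Prop := fun o => ∃ X : HahnSeries ℤ F, br theta (coefD d hd) P X = single (-E) c ∧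
    X.coeff o ≠ 0 ∧ Low X o
  have hbdd : ∃ b : ℤ, ∀ z, T z → z ≤ b := by
    refine ⟨A - E, ?_⟩
    rintro o ⟨X, hX, h0, hl⟩
    by_contra hlt
    have h1 := hP.br hl d hd (-E) (by omega)
    rw [hX, coeff_single_same] at h1
    exact hc h1
  have hinh : ∃ z, T z := by
    have hQ : Q ≠ 0 := by
      rintro rfl
      rw [(br_isDer theta_isDer (coefD_isDer d hd) P).zero] at hbr
      have := congrArg (fun x => x.coeff (-E)) hbr
      simp only [coeff_single_same, coeff_zero] at this
      exact hc this.symm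
    exact ⟨Q.order, Q, hbr, by rw [Ne, coeff_order_eq_zero]; exact hQ, low_order Q⟩
  obtain ⟨o, ⟨X, hX, hX0, hXl⟩, hmax⟩ := Int.exists_greatest_of_bdd hbdd hinh
  have hle : o ≤ A - E := by
    by_contra hlt
    have h1 := hP.br hXl d hd (-E) (by omega)
    rw [hX, coeff_single_same] at h1
    exact hc h1
  rcases eq_or_lt_of_le hle with heq | hlt
  · refine ⟨X.coeff o, ?_⟩
    have h1 := hP.br_coeff hXl d hd
    rw [hX, show -(A : ℤ) + o = -E by omega, coeff_single_same] at h1
    rw [← hp] at h1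
    rw [h1, heq]
    push_cast
    ring
  · exfalso
    set y := X.coeff o with hy
    have h1 := hP.br_coeff hXl d hd
    rw [hX, coeff_single_of_ne (by omega), ← hp, ← hy] at h1
    push_cast at h1
    -- constant
    have hAF : (A : F) ≠ 0 := by exact_mod_cast hA.ne'
    set V0 : F := p ^ o * y ^ A with hV0
    have hV0ne : V0 ≠ 0 := mul_ne_zero (zpow_ne_zero _ hP0) (pow_ne_zero _ hX0)
    have hdV0 : d V0 = 0 := by
      have e1 := hd.zpow p hP0 o
      have e2 := hd.zpow y hX0 A
      simp only [zpow_natCast, Int.cast_natCast] at e2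
      have e3 : p * y * d V0 = 0 := by
        rw [hV0, hd.mul]
        linear_combination y * y ^ A * e1 + p * p ^ o * e2 + p ^ o * y ^ A * h1
      rcases mul_eq_zero.mp e3 with h | h
      · exact absurd h (mul_ne_zero hP0 hX0)
      · exact h
    obtain ⟨U, hU, hPU⟩ := exists_oneUnit P (-(A : ℤ)) hP0 hP
    rw [← hp] at hPU
    obtain ⟨W, hW, hW0, hWl⟩ := exists_root_laurent (U ^ o) (hU.zpow o).1 (hU.zpow o).2 A hA
    have hWu : OneUnit W := ⟨hW0, hWl⟩
    have hWne := hWu.ne_zero
    set Y : HahnSeries ℤ F := single o y * W⁻¹ with hY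
    have hsy : (single o y : HahnSeries ℤ F) ≠ 0 := by
      rw [Ne, single_eq_zero_iff]; exact hX0
    have hYne : Y ≠ 0 := mul_ne_zero hsy (inv_ne_zero hWne)
    have hUne : U ≠ 0 := hU.ne_zero
    have hYA : Y ^ A * P ^ o = C V0 := by
      rw [hY, mul_pow, inv_pow, hW, hPU, mul_zpow, single_zpow _ _ hP0, single_pow]
      have : (U ^ o)⁻¹ * U ^ o = 1 := inv_mul_cancel₀ (zpow_ne_zero _ hUne)
      calc single (A • o) (y ^ A) * (U ^ o)⁻¹ * (single (o * -(A : ℤ)) (p ^ o) * U ^ o)
          = (single (A • o) (y ^ A) * single (o * -(A : ℤ)) (p ^ o)) * ((U ^ o)⁻¹ * U ^ o) := by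
            ring
        _ = C V0 := by
            rw [this, mul_one, single_mul_single]
            have h0 : A • o + o * -(A : ℤ) = 0 := by simp [mul_comm]
            rw [h0, hV0, mul_comm (y ^ A)]
            rfl
    have hD := br_isDer (A := HahnSeries ℤ F) theta_isDer (coefD_isDer d hd) P
    have hPo : br theta (coefD d hd) P (P ^ o) = 0 := by
      have h2 := hD.zpow P hPne o
      rw [br_self, mul_zero] at h2
      rcases mul_eq_zero.mp h2 with h | h
      · exact absurd h hPne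
      · exact h
    have hCV : br theta (coefD d hd) P (C V0) = 0 := by
      have e1 : theta (C V0 : HahnSeries ℤ F) = 0 := by
        ext n
        rw [theta_coeff]
        by_cases hn : n = 0
        · subst hn; simp
        · have : (C V0 : HahnSeries ℤ F).coeff n = 0 := by
            change (single (0 : ℤ) V0 : HahnSeries ℤ F).coeff n = 0
            exact coeff_single_of_ne hn
          rw [this]; simp
      have e2 : coefD d hd (C V0 : HahnSeries ℤ F) = 0 := by
        ext n
        rw [coefD_coeff]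
        by_cases hn : n = 0
        · subst hn
          change d ((single (0 : ℤ) V0 : HahnSeries ℤ F).coeff 0) = _
          rw [coeff_single_same, hdV0]; simp
        · have : (C V0 : HahnSeries ℤ F).coeff n = 0 := by
            change (single (0 : ℤ) V0 : HahnSeries ℤ F).coeff n = 0
            exact coeff_single_of_ne hn
          rw [this, hd.zero]; simp
      rw [br, e1, e2]; simp
    have hYbr : br theta (coefD d hd) P Y = 0 := by
      have h3 := hD.mul (Y ^ A) (P ^ o)
      rw [hYA, hCV, hPo, mul_zero, zero_add] at h3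
      have h4 : br theta (coefD d hd) P (Y ^ A) = 0 := by
        rcases mul_eq_zero.mp h3.symm with h | h
        · exact absurd h (zpow_ne_zero _ hPne)
        · exact h
      obtain ⟨A', rfl⟩ : ∃ A', A = A' + 1 := ⟨A - 1, by omega⟩
      rw [hD.pow] at h4
      rcases mul_eq_zero.mp h4 with h | h
      · exfalso
        rcases mul_eq_zero.mp h with h' | h'
        · have h5 : ((A' + 1 : ℕ) : HahnSeries ℤ F) = C ((A' + 1 : ℕ) : F) :=
            (map_natCast (C : F →+* HahnSeries ℤ F) (A' + 1)).symm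
          rw [h5] at h'
          have h6 := congrArg (fun x => x.coeff 0) h'
          simp only [coeff_zero] at h6
          have h7 : (C ((A' + 1 : ℕ) : F) : HahnSeries ℤ F).coeff 0 = ((A' + 1 : ℕ) : F) := by
            change (single (0 : ℤ) ((A' + 1 : ℕ) : F) : HahnSeries ℤ F).coeff 0 = _
            exact coeff_single_same _ _
          rw [h7] at h6
          exact Nat.cast_ne_zero.mpr (Nat.succ_ne_zero A') h6
        · exact pow_ne_zero _ hYne h'
      · exact h
    have hYl : Low Y o := by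
      have h1 : Low (single o y : HahnSeries ℤ F) o := by
        intro n hn; rw [coeff_single_of_ne (by omega)]
      have := h1.mul hWu.inv.2
      rwa [add_zero] at this
    have hYo : Y.coeff o = y := by
      have h1 : Low (single o y : HahnSeries ℤ F) o := by
        intro n hn; rw [coeff_single_of_ne (by omega)]
      have := h1.coeff_mul hWu.inv.2
      rw [add_zero] at this
      rw [hY, this, coeff_single_same, hWu.inv.1, mul_one]
    -- new element
    have hX' : br theta (coefD d hd) P (X - Y) = single (-E) c := by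
      rw [hD.sub, hX, hYbr, sub_zero]
    have hXYne : X - Y ≠ 0 := by
      intro h0
      rw [h0, hD.zero] at hX'
      have := congrArg (fun x => x.coeff (-E)) hX'
      simp only [coeff_single_same, coeff_zero] at this
      exact hc this.symm
    have hlow' : Low (X - Y) (o + 1) := by
      intro n hn
      rw [coeff_sub]
      rcases lt_or_eq_of_le (show n ≤ o by omega) with h | h
      · rw [hXl n h, hYl n h, sub_zero]
      · rw [h, hYo, ← hy, sub_self]
    have hord : o + 1 ≤ (X - Y).order := by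
      by_contra hlt'
      have := hlow' (X - Y).order (by omega)
      rw [coeff_order_eq_zero] at this
      exact hXYne this
    have := hmax (X - Y).order ⟨X - Y, hX', by rw [Ne, coeff_order_eq_zero]; exact hXYne,
      low_order _⟩
    omega

end field

end Pool.Agent.Lib.MP_2d59ee_ag


/-! ## Ode -/

/-! Analysis of the leading-form equation: existence of a root of large multiplicity. -/


namespace Pool.Agent.Lib.MP_2d59ee_ag

open Polynomial

/-- local factorisation at a point -/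
theorem exists_fact (p : ℂ[X]) (hp : p ≠ 0) (μ : ℂ) :
    ∃ p1 : ℂ[X], p = (X - C μ) ^ (p.rootMultiplicity μ) * p1 ∧ p1.eval μ ≠ 0 := by
  obtain ⟨q, hq, hnd⟩ := exists_eq_pow_rootMultiplicity_mul_and_not_dvd p hp μ
  refine ⟨q, hq, ?_⟩
  intro h
  exact hnd (dvd_iff_isRoot.mpr h)

/-- `(X - μ) * p'` in factored form. -/
theorem mul_derivative_fact (p1 : ℂ[X]) (μ : ℂ) (n : ℕ) :
    (X - C μ) * derivative ((X - C μ) ^ n * p1) =
      (X - C μ) ^ n * ((n : ℂ[X]) * p1 + (X - C μ) * derivative p1) := by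
  cases n with
  | zero => simp
  | succ n =>
    rw [derivative_mul, derivative_X_sub_C_pow]
    simp only [Nat.add_sub_cancel, map_natCast]
    push_cast
    ring

theorem t_ne_zero (μ : ℂ) : (X - C μ : ℂ[X]) ≠ 0 := X_sub_C_ne_zero μ

theorem exists_poly_sol (p : ℂ[X]) (hp : p ≠ 0) (A E : ℕ) (hA : 0 < A)
    (c : ℂ) (y : RatFunc ℂ)
    (hy : -(A : RatFunc ℂ) * toR p * ratD y - ((A : RatFunc ℂ) - (E : RatFunc ℂ)) *
      toR (derivative p) * y = toR (C c)) :
    ∃ u : ℂ[X], -(A : ℂ[X]) * derivative u * p + (E : ℂ[X]) * derivative p * u = C c * p := by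
  have hp' : toR p ≠ 0 := toR_ne_zero hp
  set h : RatFunc ℂ := toR p * y with hh
  have hD : ratD h = toR p * ratD y + y * toR (derivative p) := by
    rw [hh, ratD_isDer.mul, ratD_toR]
  have hode : -(A : RatFunc ℂ) * ratD h * toR p + (E : RatFunc ℂ) * toR (derivative p) * h
      = toR (C c) * toR p := by
    rw [hD, ← hy, hh]; ring
  -- numerator / denominator
  obtain ⟨u, v, hvne, hcop, hm, hrep⟩ : ∃ u v : ℂ[X], v ≠ 0 ∧ IsCoprime u v ∧ v.Monic ∧
      h = toR u / toR v :=
    ⟨h.num, h.denom, h.denom_ne_zero, h.isCoprime_num_denom, h.monic_denom,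
      (h.num_div_denom).symm⟩
  have hv' : toR v ≠ 0 := toR_ne_zero hvne
  have hDh : ratD h = (toR (derivative u) * toR v - toR u * toR (derivative v)) / toR v ^ 2 := by
    rw [hrep]; exact ratD_div u v hvne
  have hpoly : -(A : ℂ[X]) * (derivative u * v - u * derivative v) * p
      + (E : ℂ[X]) * derivative p * u * v = C c * p * v ^ 2 := by
    apply FaithfulSMul.algebraMap_injective ℂ[X] (RatFunc ℂ)
    have h1 : -(A : RatFunc ℂ) * (toR (derivative u) * toR v - toR u * toR (derivative v))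
        * toR p + (E : RatFunc ℂ) * toR (derivative p) * toR u * toR v
        = toR (C c) * toR p * toR v ^ 2 := by
      have h2 := hode
      rw [hDh, hrep] at h2
      field_simp at h2
      linear_combination h2
    simpa [toR] using h1
  have hvroot : ∀ μ, v.eval μ ≠ 0 := by
    intro μ hμ
    obtain ⟨p1, hp1, hp1e⟩ := exists_fact p hp μ
    obtain ⟨v1, hv1, hv1e⟩ := exists_fact v hvne μ
    set n := p.rootMultiplicity μ with hn
    set e := v.rootMultiplicity μ with he
    have he1 : 0 < e := by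
      rw [he, rootMultiplicity_pos hvne]; exact hμ
    have hue : u.eval μ ≠ 0 := by
      intro h0
      obtain ⟨a, b, hab⟩ := hcop
      have := congrArg (eval μ) hab
      simp [h0, hμ] at this
    have e1 := mul_derivative_fact p1 μ n
    have e2 := mul_derivative_fact v1 μ e
    rw [← hp1] at e1
    rw [← hv1] at e2
    set t : ℂ[X] := X - C μ with ht
    have e3 : t ^ (e + n) * (-(A : ℂ[X]) * (derivative u * v1 * t
        - u * ((e : ℂ[X]) * v1 + t * derivative v1)) * p1
        + (E : ℂ[X]) * ((n : ℂ[X]) * p1 + t * derivative p1) * u * v1)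
        = t ^ (e + n) * (t ^ (e + 1) * (C c * p1 * v1 ^ 2)) := by
      have h4 := congrArg (fun z => t * z) hpoly
      have lhs : t * (-(A : ℂ[X]) * (derivative u * v - u * derivative v) * p
          + (E : ℂ[X]) * derivative p * u * v)
          = -(A : ℂ[X]) * (derivative u * v * t - u * (t * derivative v)) * p
          + (E : ℂ[X]) * (t * derivative p) * u * v := by ring
      rw [lhs, e1, e2] at h4
      rw [hp1, hv1] at h4
      rw [pow_add, pow_succ]
      linear_combination h4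
    have htne : t ^ (e + n) ≠ 0 := pow_ne_zero _ (t_ne_zero μ)
    have e4 := mul_left_cancel₀ htne e3
    have e5 := congrArg (eval μ) e4
    have ht0 : eval μ t = 0 := by simp [ht]
    simp only [eval_add, eval_mul, eval_sub, eval_neg, eval_pow, ht0, eval_natCast, mul_zero,
      zero_mul, add_zero, zero_sub] at e5
    rw [zero_pow (by omega), zero_mul] at e5
    have e6 : ((A : ℂ) * e + E * n) * (u.eval μ * v1.eval μ * p1.eval μ) = 0 := by
      linear_combination e5
    rcases mul_eq_zero.mp e6 with h7 | h7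
    · have : ((A * e + E * n : ℕ) : ℂ) = 0 := by push_cast; exact h7
      have h8 : A * e + E * n = 0 := by exact_mod_cast this
      have : 0 < A * e := Nat.mul_pos hA he1
      omega
    · exact (mul_ne_zero (mul_ne_zero hue hv1e) hp1e) h7
  have hv1 : v = 1 := by
    by_contra hne
    have hdeg : v.degree ≠ 0 := by
      intro h0
      exact hne (hm.natDegree_eq_zero.mp (natDegree_eq_zero_iff_degree_le_zero.mpr h0.le))
    obtain ⟨μ, hμ⟩ := IsAlgClosed.exists_root v hdeg
    exact hvroot μ hμ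
  refine ⟨u, ?_⟩
  rw [hv1] at hpoly
  simp only [derivative_one, mul_one, mul_zero, sub_zero, one_pow] at hpoly
  linear_combination hpoly

theorem exists_root_of_ode (p : ℂ[X]) (A E : ℕ) (hA : 0 < A) (hdeg : A < E * p.natDegree)
    (c : ℂ) (hc : c ≠ 0) (y : RatFunc ℂ)
    (hy : -(A : RatFunc ℂ) * toR p * ratD y - ((A : RatFunc ℂ) - (E : RatFunc ℂ)) *
      toR (derivative p) * y = toR (C c)) :
    ∃ μ : ℂ, p.IsRoot μ ∧ A < E * p.rootMultiplicity μ := by
  have hp : p ≠ 0 := by
    rintro rfl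
    simp at hdeg
  obtain ⟨u, hu⟩ := exists_poly_sol p hp A E hA c y hy
  have hu0 : u ≠ 0 := by
    rintro rfl
    simp only [derivative_zero, mul_zero, zero_mul, add_zero] at hu
    exact mul_ne_zero (C_ne_zero.mpr hc) hp hu.symm
  have hloc : ∀ μ, p.IsRoot μ → u.IsRoot μ ∧ A ≠ E * p.rootMultiplicity μ := by
    intro μ hμ
    obtain ⟨p1, hp1, hp1e⟩ := exists_fact p hp μ
    set n := p.rootMultiplicity μ with hn
    have hn1 : 0 < n := by
      rw [hn, rootMultiplicity_pos hp]; exact hμ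
    have e1 := mul_derivative_fact p1 μ n
    rw [← hp1] at e1
    set t : ℂ[X] := X - C μ with ht
    have ht0 : eval μ t = 0 := by simp [ht]
    have htne : t ≠ 0 := t_ne_zero μ
    have e3 : t ^ n * (-(A : ℂ[X]) * derivative u * p1 * t
        + (E : ℂ[X]) * ((n : ℂ[X]) * p1 + t * derivative p1) * u) = t ^ n * (C c * p1 * t) := by
      have h4 := congrArg (fun z => t * z) hu
      have lhs : t * (-(A : ℂ[X]) * derivative u * p + (E : ℂ[X]) * derivative p * u)
          = -(A : ℂ[X]) * derivative u * p * t + (E : ℂ[X]) * (t * derivative p) * u := by ring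
      rw [lhs, e1] at h4
      rw [hp1] at h4
      linear_combination h4
    have e4 := mul_left_cancel₀ (pow_ne_zero n htne) e3
    have e5 := congrArg (eval μ) e4
    simp only [eval_add, eval_mul, eval_neg, ht0, eval_natCast, mul_zero,
      zero_mul, add_zero, zero_add] at e5
    have hE : E ≠ 0 := by
      rintro rfl
      simp at hdeg
    have hroot : u.eval μ = 0 := by
      rcases mul_eq_zero.mp e5 with h | h
      · rcases mul_eq_zero.mp h with h | h
        · exact absurd h (by exact_mod_cast hE)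
        · rcases mul_eq_zero.mp h with h | h
          · exact absurd h (by exact_mod_cast hn1.ne')
          · exact absurd h hp1e
      · exact h
    refine ⟨hroot, ?_⟩
    intro hAE
    obtain ⟨u1, hu1⟩ := dvd_iff_isRoot.mpr hroot
    rw [← ht] at hu1
    have hdu : derivative u = u1 + t * derivative u1 := by
      rw [hu1, derivative_mul, ht]; simp
    have e6 : t * (-(A : ℂ[X]) * (u1 + t * derivative u1) * p1
        + (E : ℂ[X]) * ((n : ℂ[X]) * p1 + t * derivative p1) * u1) = t * (C c * p1) := by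
      rw [hdu] at e4
      rw [hu1] at e4
      linear_combination e4
    have e7 := mul_left_cancel₀ htne e6
    have e8 := congrArg (eval μ) e7
    simp only [eval_add, eval_mul, eval_neg, ht0, eval_natCast,
      zero_mul, add_zero, eval_C] at e8
    have hAE' : (A : ℂ) = E * n := by exact_mod_cast congrArg (Nat.cast : ℕ → ℂ) hAE
    have e9 : c * p1.eval μ = 0 := by
      rw [← e8, hAE']; ring
    exact mul_ne_zero hc hp1e e9
  by_contra hcon
  push Not at hcon
  have hcon' : ∀ μ, p.IsRoot μ → E * p.rootMultiplicity μ < A := by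
    intro μ hμ
    exact lt_of_le_of_ne (hcon μ hμ) (Ne.symm (hloc μ hμ).2)
  have hd0 : p.natDegree ≠ 0 := by
    intro h0; rw [h0] at hdeg; simp at hdeg
  have hcard : p.roots.card = p.natDegree :=
    splits_iff_card_roots.mp (IsAlgClosed.splits p)
  have hSsum : ∑ μ ∈ p.roots.toFinset, p.rootMultiplicity μ = p.natDegree := by
    rw [← hcard, ← Multiset.toFinset_sum_count_eq]
    exact Finset.sum_congr rfl (fun μ _ => (count_roots p).symm)
  have hSne : p.roots.toFinset.Nonempty := by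
    rw [Finset.nonempty_iff_ne_empty]
    intro h
    rw [h, Finset.sum_empty] at hSsum
    exact hd0 hSsum.symm
  have hlt : E * p.natDegree < A * p.roots.toFinset.card := by
    rw [← hSsum, Finset.mul_sum]
    calc ∑ i ∈ p.roots.toFinset, E * p.rootMultiplicity i
        < ∑ i ∈ p.roots.toFinset, A := by
          apply Finset.sum_lt_sum_of_nonempty hSne
          intro i hi
          apply hcon'
          rw [Multiset.mem_toFinset] at hi
          exact isRoot_of_mem_roots hi
      _ = A * p.roots.toFinset.card := by rw [Finset.sum_const, smul_eq_mul, mul_comm]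
  have hsub : p.roots.toFinset.card ≤ u.natDegree := by
    have h1 : p.roots.toFinset ⊆ u.roots.toFinset := by
      intro μ hμ
      rw [Multiset.mem_toFinset] at hμ ⊢
      rw [mem_roots hu0]
      exact (hloc μ (isRoot_of_mem_roots hμ)).1
    calc p.roots.toFinset.card ≤ u.roots.toFinset.card := Finset.card_le_card h1
      _ ≤ u.roots.card := Multiset.toFinset_card_le _
      _ ≤ u.natDegree := card_roots' u
  set M := u.natDegree with hM
  set D := p.natDegree with hD
  rcases Nat.lt_or_ge M 2 with hM2 | hM2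
  · have h1 : p.roots.toFinset.card ≤ 1 := by omega
    have : A * p.roots.toFinset.card ≤ A := by
      calc A * p.roots.toFinset.card ≤ A * 1 := Nat.mul_le_mul_left A h1
        _ = A := mul_one A
    omega
  · -- leading coefficients
    have h1 : (derivative u).natDegree ≤ M - 1 := natDegree_derivative_le u
    have h2 : (derivative p).natDegree ≤ D - 1 := natDegree_derivative_le p
    have h3 : (derivative u * p).coeff (M - 1 + D) = (M : ℂ) * u.leadingCoeff * p.leadingCoeff := by
      rw [coeff_mul_add_eq_of_natDegree_le h1 le_rfl, coeff_derivative,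
        show M - 1 + 1 = M by omega]
      rw [leadingCoeff, leadingCoeff, ← hM, ← hD]
      have : ((M - 1 : ℕ) : ℂ) + 1 = M := by
        rw [← Nat.cast_succ]; congr 1; omega
      rw [this]; ring
    have h4 : (derivative p * u).coeff (M - 1 + D) = (D : ℂ) * u.leadingCoeff * p.leadingCoeff := by
      rw [show M - 1 + D = D - 1 + M by omega, coeff_mul_add_eq_of_natDegree_le h2 le_rfl,
        coeff_derivative, show D - 1 + 1 = D by omega]
      rw [leadingCoeff, leadingCoeff, ← hM, ← hD]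
      have : ((D - 1 : ℕ) : ℂ) + 1 = D := by
        rw [← Nat.cast_succ]; congr 1; omega
      rw [this]; ring
    have h5 : (C c * p).coeff (M - 1 + D) = 0 := by
      rw [coeff_C_mul, coeff_eq_zero_of_natDegree_lt (by omega), mul_zero]
    have h6 := congrArg (fun z => z.coeff (M - 1 + D)) hu
    simp only [coeff_add] at h6
    rw [h5] at h6
    have h7 : (-(A : ℂ[X]) * derivative u * p).coeff (M - 1 + D)
        = -(A : ℂ) * ((M : ℂ) * u.leadingCoeff * p.leadingCoeff) := by
      rw [← h3, ← coeff_C_mul]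
      congr 1
      simp; ring
    have h8 : ((E : ℂ[X]) * derivative p * u).coeff (M - 1 + D)
        = (E : ℂ) * ((D : ℂ) * u.leadingCoeff * p.leadingCoeff) := by
      rw [← h4, ← coeff_C_mul]
      congr 1
      simp; ring
    rw [h7, h8] at h6
    have h9 : (u.leadingCoeff * p.leadingCoeff) * ((E : ℂ) * D - A * M) = 0 := by
      linear_combination h6
    have h10 : ((E : ℂ) * D - A * M) = 0 := by
      rcases mul_eq_zero.mp h9 with h | h
      · exact absurd h (mul_ne_zero (leadingCoeff_ne_zero.mpr hu0) (leadingCoeff_ne_zero.mpr hp))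
      · exact h
    have h11 : E * D = A * M := by
      have : ((E * D : ℕ) : ℂ) = ((A * M : ℕ) : ℂ) := by push_cast; linear_combination h10
      exact_mod_cast this
    have : A * p.roots.toFinset.card ≤ A * M := Nat.mul_le_mul_left A hsub
    omega

end Pool.Agent.Lib.MP_2d59ee_ag


/-! ## Level -/

/-! Polynomials over Laurent series: brackets, levels, and the substitutions
`(t, x) ↦ (t^q, (x + μ) t^s)`. -/


namespace Pool.Agent.Lib.MP_2d59ee_ag

open Polynomial

/-- Laurent series in `t` over the complex numbers. -/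
abbrev LS := HahnSeries ℤ ℂ

/-- The polynomial of coefficients of `t^n`. -/
noncomputable def lev (n : ℤ) (P : LS[X]) : ℂ[X] :=
  ∑ j ∈ P.support, monomial j ((P.coeff j).coeff n)

theorem lev_coeff (n : ℤ) (P : LS[X]) (j : ℕ) : (lev n P).coeff j = (P.coeff j).coeff n := by
  rw [lev, finsetSum_coeff]
  simp only [coeff_monomial]
  rw [Finset.sum_ite_eq']
  split_ifs with h
  · rfl
  · rw [notMem_support_iff.mp h, HahnSeries.coeff_zero]

/-- coefficientwise Euler operator -/
noncomputable def thetaB (P : LS[X]) : LS[X] := ∑ j ∈ P.support, monomial j (theta (P.coeff j))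

theorem theta_zero : theta (0 : LS) = 0 := theta_isDer.zero

theorem thetaB_coeff (P : LS[X]) (j : ℕ) : (thetaB P).coeff j = theta (P.coeff j) := by
  rw [thetaB, finsetSum_coeff]
  simp only [coeff_monomial]
  rw [Finset.sum_ite_eq']
  split_ifs with h
  · rfl
  · rw [notMem_support_iff.mp h, theta_zero]

theorem thetaB_isDer : IsDer thetaB where
  add P Q := by
    ext1 j; rw [coeff_add, thetaB_coeff, thetaB_coeff, thetaB_coeff, coeff_add, theta_isDer.add]
  mul P Q := by
    ext1 j
    rw [thetaB_coeff, coeff_add, mul_comm Q (thetaB P), coeff_mul, coeff_mul, coeff_mul,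
      theta_isDer.sum, ← Finset.sum_add_distrib]
    refine Finset.sum_congr rfl ?_
    intro i _
    rw [theta_isDer.mul, thetaB_coeff, thetaB_coeff]
    ring

theorem deriv_isDer {R : Type*} [CommRing R] : IsDer (derivative : R[X] → R[X]) where
  add P Q := derivative_add
  mul P Q := by rw [derivative_mul]; ring

/-- The bracket on polynomials over Laurent series: `t` times the Jacobian. -/
noncomputable def brB (P Q : LS[X]) : LS[X] := br thetaB derivative P Q

/-- the extension of the coefficient field -/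
noncomputable def mapC : LS →+* HahnSeries ℤ (RatFunc ℂ) where
  toFun x := x.map (algebraMap ℂ (RatFunc ℂ))
  map_one' := by
    ext n
    rw [HahnSeries.map_coeff, HahnSeries.coeff_one, HahnSeries.coeff_one]
    split_ifs <;> simp
  map_mul' x y := by
    exact HahnSeries.map_mul ((algebraMap ℂ (RatFunc ℂ) : ℂ →+* RatFunc ℂ) : ℂ →ₙ+* RatFunc ℂ)
  map_zero' := by ext n; simp
  map_add' x y := by ext n; simp

theorem mapC_coeff (x : LS) (n : ℤ) : (mapC x).coeff n = algebraMap ℂ (RatFunc ℂ) (x.coeff n) :=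
  rfl

/-- embedding into Laurent series over rational functions -/
noncomputable def Psi : LS[X] →+* HahnSeries ℤ (RatFunc ℂ) :=
  eval₂RingHom mapC (HahnSeries.C (toR (X : ℂ[X])))

theorem C_mul_coeff (x : HahnSeries ℤ (RatFunc ℂ)) (r : RatFunc ℂ) (n : ℤ) :
    (x * HahnSeries.C r).coeff n = x.coeff n * r := by
  exact HahnSeries.coeff_mul_single_zero

theorem Psi_coeff (P : LS[X]) (n : ℤ) : (Psi P).coeff n = toR (lev n P) := by
  induction P using Polynomial.induction_on' with
  | add p q hp hq =>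
    rw [map_add, HahnSeries.coeff_add, hp, hq]
    have : lev n (p + q) = lev n p + lev n q := by
      ext j; simp [lev_coeff]
    rw [this, toR, toR, toR, map_add]
  | monomial j a =>
    have h1 : Psi (monomial j a) = mapC a * HahnSeries.C (toR (X : ℂ[X]) ^ j) := by
      rw [Psi, coe_eval₂RingHom, eval₂_monomial, map_pow]
    rw [h1, C_mul_coeff, mapC_coeff]
    have h2 : lev n (monomial j a) = C (a.coeff n) * X ^ j := by
      ext i
      rw [lev_coeff, coeff_monomial, coeff_C_mul, coeff_X_pow]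
      by_cases h : j = i
      · subst h; simp
      · rw [if_neg h, if_neg (fun h' => h h'.symm)]; simp
    rw [h2]
    simp only [toR, map_mul, map_pow]
    rfl

theorem theta_Psi (P : LS[X]) : theta (Psi P) = Psi (thetaB P) := by
  ext n
  rw [theta_coeff, Psi_coeff, Psi_coeff]
  have : lev n (thetaB P) = (n : ℂ[X]) * lev n P := by
    ext j
    rw [lev_coeff, thetaB_coeff, theta_coeff, ← C_eq_intCast, coeff_C_mul, lev_coeff]
  rw [this, toR, toR, map_mul, map_intCast]

theorem coefD_Psi (P : LS[X]) : coefD ratD ratD_isDer (Psi P) = Psi (derivative P) := by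
  ext n
  rw [coefD_coeff, Psi_coeff, Psi_coeff, ratD_toR]
  congr 1
  ext j
  rw [coeff_derivative, lev_coeff, lev_coeff, coeff_derivative]
  have : ((j : LS) + 1) = HahnSeries.C ((j : ℂ) + 1) := by
    rw [map_add, map_natCast, map_one]
  rw [this]
  exact (HahnSeries.coeff_mul_single_zero).symm

theorem Psi_brB (P Q : LS[X]) :
    Psi (brB P Q) = br theta (coefD ratD ratD_isDer) (Psi P) (Psi Q) := by
  rw [brB, br, br, theta_Psi, theta_Psi, coefD_Psi, coefD_Psi, map_sub, map_mul, map_mul]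

/-- all terms of `P` have `t`-degree at least `i` -/
def LowB (P : LS[X]) (i : ℤ) : Prop := ∀ n < i, lev n P = 0

theorem LowB.low {P : LS[X]} {i : ℤ} (h : LowB P i) : Low (Psi P) i := by
  intro n hn
  rw [Psi_coeff, h n hn, toR, map_zero]

/-- The leading form of the bracket. -/
theorem lev_brB {P Q : LS[X]} {i j : ℤ} (hP : LowB P i) (hQ : LowB Q j) :
    lev (i + j) (brB P Q) = C (i : ℂ) * lev i P * derivative (lev j Q)
      - C (j : ℂ) * derivative (lev i P) * lev j Q := by
  have h := hP.low.br_coeff hQ.low ratD ratD_isDer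
  rw [← Psi_brB, Psi_coeff, Psi_coeff, Psi_coeff, ratD_toR, ratD_toR] at h
  apply FaithfulSMul.algebraMap_injective ℂ[X] (RatFunc ℂ)
  have h2 : toR (lev (i + j) (brB P Q)) = toR (C (i : ℂ) * lev i P * derivative (lev j Q)
      - C (j : ℂ) * derivative (lev i P) * lev j Q) := by
    rw [h]
    simp [toR]
  exact h2

theorem lev_C_single (n : ℤ) (E : ℤ) (c : ℂ) :
    lev n (C (HahnSeries.single E c) : LS[X]) = if n = E then C c else 0 := by
  ext j
  rw [lev_coeff, coeff_C]
  by_cases hj : j = 0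
  · subst hj
    rw [if_pos rfl]
    by_cases hn : n = E
    · subst hn; simp
    · rw [HahnSeries.coeff_single_of_ne hn, if_neg hn]; simp
  · rw [if_neg hj]
    split_ifs
    · rw [coeff_C, if_neg hj]; simp
    · simp

theorem Psi_C_single (E : ℤ) (c : ℂ) :
    Psi (C (HahnSeries.single E c) : LS[X]) = HahnSeries.single E (toR (C c)) := by
  ext n
  rw [Psi_coeff, lev_C_single]
  by_cases hn : n = E
  · subst hn; simp
  · rw [if_neg hn, HahnSeries.coeff_single_of_ne hn, toR, map_zero]

/-- Main local lemma: existence of a root of large multiplicity of the leading form. -/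
theorem exists_big_root (P Q : LS[X]) (A E : ℕ) (hA : 0 < A) (c : ℂ) (hc : c ≠ 0)
    (hP : LowB P (-(A : ℤ))) (hP0 : lev (-(A : ℤ)) P ≠ 0)
    (hdeg : A < E * (lev (-(A : ℤ)) P).natDegree)
    (hbr : brB P Q = C (HahnSeries.single (-(E : ℤ)) c)) :
    ∃ μ : ℂ, (lev (-(A : ℤ)) P).IsRoot μ ∧ A < E * (lev (-(A : ℤ)) P).rootMultiplicity μ := by
  have hbr' : br theta (coefD ratD ratD_isDer) (Psi P) (Psi Q)
      = HahnSeries.single (-(E : ℤ)) (toR (C c)) := by
    rw [← Psi_brB, hbr, Psi_C_single]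
  obtain ⟨y, hy⟩ := exists_leading ratD ratD_isDer (Psi P) (Psi Q) A E hA (toR (C c))
    (toR_ne_zero (C_ne_zero.mpr hc)) (by rw [Psi_coeff]; exact toR_ne_zero hP0) hP.low hbr'
  rw [Psi_coeff, ratD_toR] at hy
  exact exists_root_of_ode _ A E hA hdeg c hc y (by simpa using hy)

end Pool.Agent.Lib.MP_2d59ee_ag


/-! ## Orbit -/

/-! Multiplicity lemmas for polynomials. -/


namespace Pool.Agent.Lib.MP_2d59ee_ag

open Polynomial

/-- If `a p g' = b p' g` then the multiplicities of roots are proportional. -/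
theorem mult_prop (p g : ℂ[X]) (hp : p ≠ 0) (hg : g ≠ 0) (a b : ℕ)
    (h : C (a : ℂ) * p * derivative g = C (b : ℂ) * derivative p * g) (μ : ℂ) :
    a * g.rootMultiplicity μ = b * p.rootMultiplicity μ := by
  obtain ⟨p1, hp1, hp1e⟩ := exists_fact p hp μ
  obtain ⟨g1, hg1, hg1e⟩ := exists_fact g hg μ
  set n := p.rootMultiplicity μ with hn
  set e := g.rootMultiplicity μ with he
  have e1 := mul_derivative_fact p1 μ n
  have e2 := mul_derivative_fact g1 μ e
  rw [← hp1] at e1
  rw [← hg1] at e2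
  set t : ℂ[X] := X - C μ with ht
  have ht0 : eval μ t = 0 := by simp [ht]
  have h4 : t * (C (a : ℂ) * p * derivative g) = t * (C (b : ℂ) * derivative p * g) :=
    congrArg (fun z => t * z) h
  have h5 : C (a : ℂ) * p * (t * derivative g) = C (b : ℂ) * (t * derivative p) * g := by
    linear_combination h4
  rw [e1, e2, hp1, hg1] at h5
  have h6 : t ^ (n + e) * (C (a : ℂ) * p1 * ((e : ℂ[X]) * g1 + t * derivative g1))
      = t ^ (n + e) * (C (b : ℂ) * ((n : ℂ[X]) * p1 + t * derivative p1) * g1) := by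
    rw [pow_add]; linear_combination h5
  have h7 := mul_left_cancel₀ (pow_ne_zero _ (t_ne_zero μ)) h6
  have h8 := congrArg (eval μ) h7
  simp only [eval_add, eval_mul, ht0, eval_natCast, eval_C, zero_mul, add_zero] at h8
  have h9 : (p1.eval μ * g1.eval μ) * ((a : ℂ) * e - b * n) = 0 := by linear_combination h8
  rcases mul_eq_zero.mp h9 with h10 | h10
  · exact absurd h10 (mul_ne_zero hp1e hg1e)
  · have : ((a * e : ℕ) : ℂ) = ((b * n : ℕ) : ℂ) := by push_cast; linear_combination h10
    exact_mod_cast this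

/-- Orbit count: if all exponents of `p` are congruent modulo `q`, a nonzero root of
multiplicity `n` forces `q n ≤ deg p`. -/
theorem orbit_bound (p : ℂ[X]) (hp : p ≠ 0) (q : ℕ) (hq : 0 < q) (r : ℕ)
    (hr : ∀ j, p.coeff j ≠ 0 → (q : ℤ) ∣ (j : ℤ) - r) (μ : ℂ) (hμ : μ ≠ 0) :
    q * p.rootMultiplicity μ ≤ p.natDegree := by
  set n := p.rootMultiplicity μ with hn
  have hω := Complex.isPrimitiveRoot_exp q hq.ne'
  set ω := Complex.exp (2 * Real.pi * Complex.I / q) with hωdef
  have hω0 : ω ≠ 0 := hω.ne_zero hq.ne'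
  have hωr : ∀ j, p.coeff j ≠ 0 → ω ^ j = ω ^ r := by
    intro j hj
    have h1 := hr j hj
    have h2 : (ω : ℂ) ^ ((j : ℤ) - r) = 1 := by
      rw [hω.zpow_eq_one_iff_dvd]; exact h1
    rw [zpow_sub₀ hω0, zpow_natCast, zpow_natCast, div_eq_one_iff_eq (pow_ne_zero _ hω0)] at h2
    exact h2
  -- the key divisibility
  have hdvd : ∀ i : ℕ, (X - C (ω ^ i * μ)) ^ n ∣ p := by
    intro i
    have h1 : p.comp (C (ω ^ i)⁻¹ * X) = C ((ω ^ i)⁻¹ ^ r) * p := by
      ext j
      rw [comp_C_mul_X_coeff, coeff_C_mul]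
      by_cases hj : p.coeff j = 0
      · rw [hj]; simp
      · have : (ω ^ i)⁻¹ ^ j = (ω ^ i)⁻¹ ^ r := by
          rw [inv_pow, inv_pow, ← pow_mul, ← pow_mul, mul_comm i j, mul_comm i r, pow_mul,
            pow_mul, hωr j hj]
        rw [this]; ring
    obtain ⟨p1, hp1, -⟩ := exists_fact p hp μ
    have h2 : p.comp (C (ω ^ i)⁻¹ * X)
        = (C (ω ^ i)⁻¹ * (X - C (ω ^ i * μ))) ^ n * p1.comp (C (ω ^ i)⁻¹ * X) := by
      conv_lhs => rw [hp1]
      rw [mul_comp, pow_comp, sub_comp, X_comp, C_comp]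
      congr 2
      rw [mul_sub, ← C_mul, ← mul_assoc, inv_mul_cancel₀ (pow_ne_zero _ hω0), one_mul]
    have h3 : (X - C (ω ^ i * μ)) ^ n ∣ C ((ω ^ i)⁻¹ ^ r) * p := by
      rw [← h1, h2, mul_pow, mul_assoc]
      exact Dvd.dvd.mul_left (dvd_mul_right _ _) _
    have hu : IsUnit (C ((ω ^ i)⁻¹ ^ r) : ℂ[X]) := by
      rw [isUnit_C]
      exact (pow_ne_zero _ (inv_ne_zero (pow_ne_zero _ hω0))).isUnit
    exact (hu.dvd_mul_left).mp h3
  have hprod : ∏ i ∈ Finset.range q, (X - C (ω ^ i * μ)) ^ n ∣ p := by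
    apply Finset.prod_dvd_of_coprime
    · intro i hi j hj hij
      apply IsCoprime.pow
      apply isCoprime_X_sub_C_of_isUnit_sub
      apply Ne.isUnit
      rw [sub_ne_zero]
      intro h
      have h2 : ω ^ i = ω ^ j := mul_right_cancel₀ hμ h
      exact hij (hω.pow_inj (Finset.mem_range.mp hi) (Finset.mem_range.mp hj) h2)
    · intro i _
      exact hdvd i
  have hdeg := natDegree_le_of_dvd hprod hp
  rw [natDegree_prod_of_monic _ _ (fun i _ => (monic_X_sub_C _).pow n)] at hdeg
  simp only [natDegree_pow, natDegree_X_sub_C, mul_one, Finset.sum_const, Finset.card_range,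
    smul_eq_mul] at hdeg
  exact hdeg

/-- coefficients below the multiplicity of the shifted polynomial vanish -/
theorem comp_coeff_lt (p : ℂ[X]) (hp : p ≠ 0) (μ : ℂ) (j : ℕ) (hj : j < p.rootMultiplicity μ) :
    (p.comp (X + C μ)).coeff j = 0 := by
  obtain ⟨p1, hp1, -⟩ := exists_fact p hp μ
  conv_lhs => rw [hp1]
  rw [mul_comp, pow_comp, sub_comp, X_comp, C_comp, add_sub_cancel_right, coeff_X_pow_mul',
    if_neg (by omega)]

theorem comp_coeff_eq (p : ℂ[X]) (hp : p ≠ 0) (μ : ℂ) :
    (p.comp (X + C μ)).coeff (p.rootMultiplicity μ) ≠ 0 := by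
  obtain ⟨p1, hp1, hp1e⟩ := exists_fact p hp μ
  generalize p.rootMultiplicity μ = n at *
  rw [hp1, mul_comp, pow_comp, sub_comp, X_comp, C_comp, add_sub_cancel_right, coeff_X_pow_mul',
      if_pos le_rfl, Nat.sub_self, coeff_zero_eq_eval_zero, eval_comp]
  simpa using hp1e

theorem coeff_lt_zero (p : ℂ[X]) (hp : p ≠ 0) (j : ℕ) (hj : j < p.rootMultiplicity 0) :
    p.coeff j = 0 := by
  have := comp_coeff_lt p hp 0 j hj
  simpa using this

theorem coeff_eq_zero_ne (p : ℂ[X]) (hp : p ≠ 0) : p.coeff (p.rootMultiplicity 0) ≠ 0 := by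
  have := comp_coeff_eq p hp 0
  simpa using this

end Pool.Agent.Lib.MP_2d59ee_ag


/-! ## Subst -/

/-! The substitutions `(t, x) ↦ (t^q, x t^s)` and `x ↦ x + μ`. -/


namespace Pool.Agent.Lib.MP_2d59ee_ag

open Polynomial

/-- the ramification `t ↦ t^q` -/
noncomputable def ram (q : ℕ) (hq : 0 < q) : LS →+* LS :=
  HahnSeries.embDomainRingHom (AddMonoidHom.mulLeft (q : ℤ))
    (fun a b h => by
      have : (q : ℤ) ≠ 0 := by exact_mod_cast hq.ne'
      exact mul_left_cancel₀ this h)
    (fun a b => by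
      have : (0 : ℤ) < q := by exact_mod_cast hq
      exact mul_le_mul_iff_right₀ this)

theorem ram_coeff (q : ℕ) (hq : 0 < q) (x : LS) (n : ℤ) :
    (ram q hq x).coeff (q * n) = x.coeff n := by
  rw [ram, HahnSeries.embDomainRingHom_apply]
  exact HahnSeries.embDomain_coeff (a := n)

theorem ram_coeff_of_not_dvd (q : ℕ) (hq : 0 < q) (x : LS) (m : ℤ) (hm : ¬ (q : ℤ) ∣ m) :
    (ram q hq x).coeff m = 0 := by
  rw [ram, HahnSeries.embDomainRingHom_apply]
  apply HahnSeries.embDomain_of_notMem_range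
  rintro ⟨a, ha⟩
  exact hm ⟨a, ha.symm⟩

theorem theta_ram (q : ℕ) (hq : 0 < q) (x : LS) :
    theta (ram q hq x) = (q : LS) * ram q hq (theta x) := by
  have hqc : ((q : LS)) = HahnSeries.C (q : ℂ) := (map_natCast (HahnSeries.C) q).symm
  ext m
  rw [theta_coeff, hqc, mul_comm (HahnSeries.C (q : ℂ))]
  have h1 : (ram q hq (theta x) * HahnSeries.C (q : ℂ)).coeff m
      = (ram q hq (theta x)).coeff m * (q : ℂ) := HahnSeries.coeff_mul_single_zero
  rw [h1]
  by_cases hm : (q : ℤ) ∣ m
  · obtain ⟨n, rfl⟩ := hm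
    rw [ram_coeff, ram_coeff, theta_coeff]
    push_cast; ring
  · rw [ram_coeff_of_not_dvd _ _ _ _ hm, ram_coeff_of_not_dvd _ _ _ _ hm]; simp

/-- monomial `t^s` -/
noncomputable def tm (s : ℤ) : LS := HahnSeries.single s 1

theorem mul_tm_coeff (x : LS) (s n : ℤ) : (x * tm s).coeff n = x.coeff (n - s) := by
  have := HahnSeries.coeff_mul_single_add (r := (1 : ℂ)) (x := x) (a := n - s) (b := s)
  rw [sub_add_cancel, mul_one] at this
  exact this

theorem theta_mul_tm (x : LS) (s : ℤ) :
    theta (x * tm s) = theta x * tm s + (s : LS) * (x * tm s) := by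
  have hsc : ((s : LS)) = HahnSeries.C (s : ℂ) := (map_intCast (HahnSeries.C) s).symm
  ext n
  rw [theta_coeff, mul_tm_coeff, HahnSeries.coeff_add, mul_tm_coeff, theta_coeff, hsc,
    mul_comm (HahnSeries.C (s : ℂ))]
  have h1 : (x * tm s * HahnSeries.C (s : ℂ)).coeff n
      = (x * tm s).coeff n * (s : ℂ) := HahnSeries.coeff_mul_single_zero
  rw [h1, mul_tm_coeff]
  push_cast; ring

/-- the substitution `(t, x) ↦ (t^q, x t^s)` -/
noncomputable def T0 (q : ℕ) (hq : 0 < q) (s : ℤ) (P : LS[X]) : LS[X] :=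
  (P.map (ram q hq)).comp (C (tm s) * X)

theorem tm_pow (s : ℤ) (j : ℕ) : tm s ^ j = tm (j * s) := by
  rw [tm, HahnSeries.single_pow]; simp [tm]

theorem T0_coeff (q : ℕ) (hq : 0 < q) (s : ℤ) (P : LS[X]) (j : ℕ) :
    (T0 q hq s P).coeff j = ram q hq (P.coeff j) * tm (j * s) := by
  rw [T0, comp_C_mul_X_coeff, coeff_map, tm_pow]

theorem T0_mul (q : ℕ) (hq : 0 < q) (s : ℤ) (P Q : LS[X]) :
    T0 q hq s (P * Q) = T0 q hq s P * T0 q hq s Q := by
  rw [T0, T0, T0, Polynomial.map_mul, mul_comp]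

theorem T0_sub (q : ℕ) (hq : 0 < q) (s : ℤ) (P Q : LS[X]) :
    T0 q hq s (P - Q) = T0 q hq s P - T0 q hq s Q := by
  rw [T0, T0, T0, Polynomial.map_sub, sub_comp]

theorem derivative_T0 (q : ℕ) (hq : 0 < q) (s : ℤ) (P : LS[X]) :
    derivative (T0 q hq s P) = T0 q hq s (derivative P) * C (tm s) := by
  rw [T0, T0, derivative_comp, ← derivative_map]
  simp only [derivative_mul, derivative_C, zero_mul, derivative_X, mul_one, zero_add]
  rw [mul_comm]

theorem thetaB_T0 (q : ℕ) (hq : 0 < q) (s : ℤ) (P : LS[X]) :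
    thetaB (T0 q hq s P) = (q : LS[X]) * T0 q hq s (thetaB P)
      + (s : LS[X]) * (X * derivative (T0 q hq s P)) := by
  ext1 j
  rw [thetaB_coeff, T0_coeff, theta_mul_tm, theta_ram, coeff_add]
  have hqc : ((q : LS[X])) = C (q : LS) := (map_natCast (C : LS →+* LS[X]) q).symm
  have hsc : ((s : LS[X])) = C (s : LS) := (Polynomial.C_eq_intCast s).symm
  rw [hqc, hsc, coeff_C_mul, coeff_C_mul, T0_coeff, thetaB_coeff]
  have h1 : (X * derivative (T0 q hq s P)).coeff j = (j : LS) * (T0 q hq s P).coeff j := by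
    cases j with
    | zero => simp
    | succ j => rw [coeff_X_mul, coeff_derivative]; push_cast; ring
  rw [h1, T0_coeff]
  push_cast
  ring

theorem brB_T0 (q : ℕ) (hq : 0 < q) (s : ℤ) (P Q : LS[X]) :
    brB (T0 q hq s P) (T0 q hq s Q) = (q : LS[X]) * T0 q hq s (brB P Q) * C (tm s) := by
  rw [brB, br, thetaB_T0, thetaB_T0, brB, br, T0_sub, T0_mul, T0_mul, derivative_T0,
    derivative_T0]
  ring

theorem brB_T0_single (q : ℕ) (hq : 0 < q) (s : ℤ) (P Q : LS[X]) (E : ℤ) (c : ℂ)
    (h : brB P Q = C (HahnSeries.single (-E) c)) :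
    brB (T0 q hq s P) (T0 q hq s Q) = C (HahnSeries.single (-(q * E - s)) ((q : ℂ) * c)) := by
  rw [brB_T0, h]
  have h1 : T0 q hq s (C (HahnSeries.single (-E) c)) = C (HahnSeries.single (q * (-E)) c) := by
    rw [T0, map_C, C_comp]
    congr 1
    rw [ram, HahnSeries.embDomainRingHom_apply]
    exact HahnSeries.embDomain_single
  rw [h1]
  have hqc : ((q : LS[X])) = C (HahnSeries.C (q : ℂ)) := by
    rw [map_natCast HahnSeries.C, map_natCast C]
  rw [hqc, ← C_mul, ← C_mul, tm]
  congr 1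
  rw [HahnSeries.C_apply, HahnSeries.single_mul_single, HahnSeries.single_mul_single, mul_one]
  have h5 : 0 + (q : ℤ) * -E + s = -((q : ℤ) * E - s) := by ring
  rw [h5]

/-- the shift `x ↦ x + μ` -/
noncomputable def shift (μ : ℂ) (P : LS[X]) : LS[X] := P.comp (X + C (HahnSeries.C μ))

theorem theta_C (μ : ℂ) : theta (HahnSeries.C μ : LS) = 0 := by
  ext n
  rw [theta_coeff]
  by_cases hn : n = 0
  · subst hn; simp
  · rw [HahnSeries.C_apply, HahnSeries.coeff_single_of_ne hn]; simp

theorem thetaB_shift (μ : ℂ) (P : LS[X]) : thetaB (shift μ P) = shift μ (thetaB P) := by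
  have hC : ∀ a : LS, thetaB (C a) = C (theta a) := by
    intro a
    ext1 j
    rw [thetaB_coeff, coeff_C, coeff_C]
    split_ifs
    · rfl
    · exact theta_zero
  have hX : thetaB (X + C (HahnSeries.C μ)) = 0 := by
    rw [thetaB_isDer.add, hC, theta_C]
    have : thetaB X = 0 := by
      ext1 j
      rw [thetaB_coeff, coeff_X]
      split_ifs
      · rw [theta_isDer.one]; simp
      · rw [theta_zero]; simp
    rw [this]; simp
  induction P using Polynomial.induction_on' with
  | add p q hp hq =>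
    rw [shift, add_comp, thetaB_isDer.add, thetaB_isDer.add, shift, add_comp]
    exact congrArg₂ _ hp hq
  | monomial n a =>
    have h1 : thetaB (monomial n a) = monomial n (theta a) := by
      ext1 j
      rw [thetaB_coeff, coeff_monomial, coeff_monomial]
      split_ifs
      · rfl
      · exact theta_zero
    rw [h1, shift, shift, monomial_comp, monomial_comp, thetaB_isDer.mul, hC]
    cases n with
    | zero =>
      rw [pow_zero, thetaB_isDer.one]; ring
    | succ n =>
      rw [thetaB_isDer.pow, hX]; ring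

theorem derivative_shift (μ : ℂ) (P : LS[X]) :
    derivative (shift μ P) = shift μ (derivative P) := by
  rw [shift, shift, derivative_comp]
  simp

theorem shift_mul (μ : ℂ) (P Q : LS[X]) : shift μ (P * Q) = shift μ P * shift μ Q := by
  rw [shift, shift, shift, mul_comp]

theorem shift_sub (μ : ℂ) (P Q : LS[X]) : shift μ (P - Q) = shift μ P - shift μ Q := by
  rw [shift, shift, shift, sub_comp]

theorem brB_shift (μ : ℂ) (P Q : LS[X]) : brB (shift μ P) (shift μ Q) = shift μ (brB P Q) := by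
  rw [brB, br, thetaB_shift, thetaB_shift, derivative_shift, derivative_shift, brB, br,
    shift_sub, shift_mul, shift_mul]

theorem lev_shift (μ : ℂ) (n : ℤ) (P : LS[X]) :
    lev n (shift μ P) = (lev n P).comp (X + C μ) := by
  have hadd : ∀ (p q : LS[X]), lev n (p + q) = lev n p + lev n q := by
    intro p q; ext j; simp [lev_coeff]
  induction P using Polynomial.induction_on' with
  | add p q hp hq =>
    rw [shift, add_comp, hadd, hadd, add_comp]
    exact congrArg₂ _ hp hq
  | monomial m a =>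
    have h2 : lev n (monomial m a) = monomial m (a.coeff n) := by
      ext i
      rw [lev_coeff, coeff_monomial, coeff_monomial]
      split_ifs <;> simp
    rw [h2, shift, monomial_comp, monomial_comp]
    have h3 : (X + C (HahnSeries.C μ) : LS[X]) ^ m =
        ((X + C μ : ℂ[X]) ^ m).map (HahnSeries.C : ℂ →+* LS) := by
      simp
    rw [h3]
    ext i
    rw [lev_coeff, coeff_C_mul, coeff_map, coeff_C_mul]
    exact HahnSeries.coeff_mul_single_zero

end Pool.Agent.Lib.MP_2d59ee_ag


/-! ## Corner -/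

/-! Corners of Newton polygons and passing to a level. -/


namespace Pool.Agent.Lib.MP_2d59ee_ag

open Polynomial

/-- `(c α, c N)` is the corner of `P` for slopes slightly larger than `k`. -/
structure Corner (P : LS[X]) (c : ℕ) (α : ℤ) (N : ℕ) (k : ℚ) : Prop where
  top : (P.coeff (c * N)).coeff (-(c * α)) ≠ 0
  low : ∀ j < c * N, ∀ n : ℤ, (P.coeff j).coeff n ≠ 0 →
    k * ((c : ℚ) * N - j) - c * α < n
  high : ∀ j, c * N ≤ j → ∀ n : ℤ, (P.coeff j).coeff n ≠ 0 →
    k * ((c : ℚ) * N - j) - c * α ≤ n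

/-- `K` is at most every slope from the corner to a lower point. -/
def AtLevel (P : LS[X]) (c : ℕ) (α : ℤ) (N : ℕ) (K : ℚ) : Prop :=
  ∀ j < c * N, ∀ n : ℤ, (P.coeff j).coeff n ≠ 0 → K * ((c : ℚ) * N - j) - c * α ≤ n

/-- `K` is attained as a slope. -/
def Attained (P : LS[X]) (c : ℕ) (α : ℤ) (N : ℕ) (K : ℚ) : Prop :=
  ∃ j < c * N, ∃ n : ℤ, (P.coeff j).coeff n ≠ 0 ∧ K * ((c : ℚ) * N - j) - c * α = n

/-- the finite set of slopes -/
noncomputable def slopes (P : LS[X]) (c : ℕ) (α : ℤ) (N : ℕ) : Finset ℚ :=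
  ((Finset.range (c * N)) ∩ P.support).image
    (fun j => (((P.coeff j).order : ℚ) + c * α) / ((c : ℚ) * N - j))

theorem sub_pos_of_lt_mul {c N j : ℕ} (hj : j < c * N) : (0 : ℚ) < (c : ℚ) * N - j := by
  have : (j : ℚ) < ((c * N : ℕ) : ℚ) := by exact_mod_cast hj
  push_cast at this
  linarith

theorem slopes_gt {P : LS[X]} {c : ℕ} {α : ℤ} {N : ℕ} {k : ℚ} (h : Corner P c α N k) :
    ∀ σ ∈ slopes P c α N, k < σ := by
  intro σ hσ
  rw [slopes, Finset.mem_image] at hσ
  obtain ⟨j, hj, rfl⟩ := hσ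
  rw [Finset.mem_inter, Finset.mem_range, mem_support_iff] at hj
  have hpos := sub_pos_of_lt_mul hj.1
  rw [lt_div_iff₀ hpos]
  have h1 : (P.coeff j).coeff (P.coeff j).order ≠ 0 := by
    rw [Ne, HahnSeries.coeff_order_eq_zero]; exact hj.2
  have := h.low j hj.1 _ h1
  linarith

theorem atLevel_of_le {P : LS[X]} {c : ℕ} {α : ℤ} {N : ℕ} {K : ℚ}
    (h : ∀ σ ∈ slopes P c α N, K ≤ σ) : AtLevel P c α N K := by
  intro j hj n hn
  have hne : P.coeff j ≠ 0 := HahnSeries.ne_zero_of_coeff_ne_zero hn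
  have h1 := h ((((P.coeff j).order : ℚ) + c * α) / ((c : ℚ) * N - j)) (by
    rw [slopes, Finset.mem_image]
    exact ⟨j, by
      rw [Finset.mem_inter, Finset.mem_range, mem_support_iff]; exact ⟨hj, hne⟩, rfl⟩)
  have hpos := sub_pos_of_lt_mul hj
  rw [le_div_iff₀ hpos] at h1
  have h2 : (P.coeff j).order ≤ n := HahnSeries.order_le_of_coeff_ne_zero hn
  have h3 : ((P.coeff j).order : ℚ) ≤ n := by exact_mod_cast h2
  linarith

theorem attained_of_mem {P : LS[X]} {c : ℕ} {α : ℤ} {N : ℕ} {K : ℚ}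
    (h : K ∈ slopes P c α N) : Attained P c α N K := by
  rw [slopes, Finset.mem_image] at h
  obtain ⟨j, hj, rfl⟩ := h
  rw [Finset.mem_inter, Finset.mem_range, mem_support_iff] at hj
  refine ⟨j, hj.1, (P.coeff j).order, ?_, ?_⟩
  · rw [Ne, HahnSeries.coeff_order_eq_zero]; exact hj.2
  · have hpos := sub_pos_of_lt_mul hj.1
    rw [div_mul_cancel₀ _ hpos.ne']
    ring

theorem exists_level {P Q : LS[X]} {a b : ℕ} {α : ℤ} {N : ℕ} {k κ : ℚ}
    (hP : Corner P a α N k) (hQ : Corner Q b α N k) (hκ : k < κ) :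
    ∃ K : ℚ, k < K ∧ K ≤ κ ∧ AtLevel P a α N K ∧ AtLevel Q b α N K ∧
      (K = κ ∨ Attained P a α N K ∨ Attained Q b α N K) := by
  set S : Finset ℚ := insert κ (slopes P a α N ∪ slopes Q b α N) with hS
  have hne : S.Nonempty := Finset.insert_nonempty _ _
  have hmem := S.min'_mem hne
  have hmin : ∀ σ ∈ S, S.min' hne ≤ σ := fun σ hσ => S.min'_le σ hσ
  refine ⟨S.min' hne, ?_, ?_, ?_, ?_, ?_⟩
  · have : ∀ σ ∈ S, k < σ := by
      intro σ hσ
      rw [hS, Finset.mem_insert, Finset.mem_union] at hσ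
      rcases hσ with h | h | h
      · rw [h]; exact hκ
      · exact slopes_gt hP σ h
      · exact slopes_gt hQ σ h
    exact this _ hmem
  · exact hmin κ (Finset.mem_insert_self _ _)
  · apply atLevel_of_le
    intro σ hσ
    apply hmin
    rw [hS, Finset.mem_insert, Finset.mem_union]
    exact Or.inr (Or.inl hσ)
  · apply atLevel_of_le
    intro σ hσ
    apply hmin
    rw [hS, Finset.mem_insert, Finset.mem_union]
    exact Or.inr (Or.inr hσ)
  · have hmem' : S.min' hne = κ ∨ S.min' hne ∈ slopes P a α N ∨ S.min' hne ∈ slopes Q b α N := by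
      have h0 : ∀ σ ∈ S, σ = κ ∨ σ ∈ slopes P a α N ∨ σ ∈ slopes Q b α N := by
        intro σ hσ
        rwa [hS, Finset.mem_insert, Finset.mem_union] at hσ
      exact h0 _ hmem
    rcases hmem' with h | h | h
    · exact Or.inl h
    · exact Or.inr (Or.inl (attained_of_mem h))
    · exact Or.inr (Or.inr (attained_of_mem h))

section level

variable {P : LS[X]} {c : ℕ} {α : ℤ} {N : ℕ} {k K : ℚ}

theorem all_ge (h : Corner P c α N k) (hkK : k < K) (hK : AtLevel P c α N K) (j : ℕ) (n : ℤ)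
    (hn : (P.coeff j).coeff n ≠ 0) : K * ((c : ℚ) * N - j) - c * α ≤ n := by
  rcases lt_or_ge j (c * N) with hj | hj
  · exact hK j hj n hn
  · have h1 := h.high j hj n hn
    have h2 : ((c * N : ℕ) : ℚ) ≤ (j : ℚ) := by exact_mod_cast hj
    push_cast at h2
    have h3 : K * ((c : ℚ) * N - j) ≤ k * ((c : ℚ) * N - j) := by
      apply mul_le_mul_of_nonpos_right hkK.le; linarith
    linarith

theorem high_gt (h : Corner P c α N k) (hkK : k < K) (j : ℕ) (hj : c * N < j) (n : ℤ)
    (hn : (P.coeff j).coeff n ≠ 0) : K * ((c : ℚ) * N - j) - c * α < n := by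
  have h1 := h.high j hj.le n hn
  have h2 : ((c * N : ℕ) : ℚ) < (j : ℚ) := by exact_mod_cast hj
  push_cast at h2
  have h3 : K * ((c : ℚ) * N - j) < k * ((c : ℚ) * N - j) := by
    apply mul_lt_mul_of_neg_right hkK; linarith
  linarith

theorem num_cast (K : ℚ) : (K.num : ℚ) = K * K.den := (Rat.mul_den_eq_num K).symm

theorem T0_coeff_coeff (q : ℕ) (hq : 0 < q) (s : ℤ) (P : LS[X]) (j : ℕ) (m n : ℤ)
    (h : q * m = n - j * s) : ((T0 q hq s P).coeff j).coeff n = (P.coeff j).coeff m := by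
  rw [T0_coeff, mul_tm_coeff, ← h, ram_coeff]

theorem T0_coeff_ne (q : ℕ) (hq : 0 < q) (s : ℤ) (P : LS[X]) (j : ℕ) (n : ℤ)
    (h : ((T0 q hq s P).coeff j).coeff n ≠ 0) :
    ∃ m : ℤ, q * m = n - j * s ∧ (P.coeff j).coeff m ≠ 0 := by
  rw [T0_coeff, mul_tm_coeff] at h
  by_cases hd : (q : ℤ) ∣ n - j * s
  · obtain ⟨m, hm⟩ := hd
    refine ⟨m, hm.symm, ?_⟩
    rwa [hm, ram_coeff] at h
  · exact absurd (ram_coeff_of_not_dvd q hq _ _ hd) h

theorem lowB_T0 (h : Corner P c α N k) (hkK : k < K) (hK : AtLevel P c α N K) (δ : ℤ)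
    (hδ : δ = K.den * α - K.num * N) : LowB (T0 K.den K.den_pos K.num P) (-(c * δ)) := by
  intro n hn
  ext j
  rw [lev_coeff, coeff_zero]
  by_contra hne
  obtain ⟨m, hm, hm'⟩ := T0_coeff_ne _ _ _ _ _ _ hne
  have h1 := all_ge h hkK hK j m hm'
  have hq : (0 : ℚ) < K.den := by exact_mod_cast K.den_pos
  have h2 : (K.den : ℚ) * (K * ((c : ℚ) * N - j) - c * α) ≤ K.den * m :=
    mul_le_mul_of_nonneg_left h1 hq.le
  have h3 : ((K.den : ℚ) * m) = n - j * K.num := by exact_mod_cast hm
  rw [h3] at h2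
  have h4 := num_cast K
  have h5 : (n : ℚ) < -(c * δ) := by exact_mod_cast hn
  have h6 : (δ : ℚ) = K.den * α - K.num * N := by rw [hδ]; push_cast; ring
  rw [h6] at h5
  have h7 : (K.den : ℚ) * (K * ((c : ℚ) * N - j) - c * α)
      = K.num * (c * N - j) - K.den * c * α := by rw [h4]; ring
  rw [h7] at h2
  nlinarith

theorem lev_T0_top (h : Corner P c α N k) (δ : ℤ)
    (hδ : δ = K.den * α - K.num * N) :
    (lev (-(c * δ)) (T0 K.den K.den_pos K.num P)).coeff (c * N) ≠ 0 := by
  rw [lev_coeff, T0_coeff_coeff (m := -(c * α))]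
  · exact h.top
  · rw [hδ]; push_cast; ring

theorem lev_T0_natDegree (h : Corner P c α N k) (hkK : k < K) (δ : ℤ)
    (hδ : δ = K.den * α - K.num * N) :
    (lev (-(c * δ)) (T0 K.den K.den_pos K.num P)).natDegree = c * N := by
  apply le_antisymm
  · rw [natDegree_le_iff_coeff_eq_zero]
    intro j hj
    rw [lev_coeff]
    by_contra hne
    obtain ⟨m, hm, hm'⟩ := T0_coeff_ne _ _ _ _ _ _ hne
    have h1 := high_gt h hkK j hj m hm'
    have hq : (0 : ℚ) < K.den := by exact_mod_cast K.den_pos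
    have h2 : (K.den : ℚ) * (K * ((c : ℚ) * N - j) - c * α) < K.den * m :=
      mul_lt_mul_of_pos_left h1 hq
    have h3 : ((K.den : ℚ) * m) = -(c * δ) - j * K.num := by exact_mod_cast hm
    rw [h3] at h2
    have h4 := num_cast K
    have h6 : (δ : ℚ) = K.den * α - K.num * N := by rw [hδ]; push_cast; ring
    have h7 : (K.den : ℚ) * (K * ((c : ℚ) * N - j) - c * α)
        = K.num * (c * N - j) - K.den * c * α := by rw [h4]; ring
    rw [h7, h6] at h2
    nlinarith
  · exact le_natDegree_of_ne_zero (lev_T0_top h δ hδ)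

theorem attained_coeff (hA : Attained P c α N K) (δ : ℤ)
    (hδ : δ = K.den * α - K.num * N) :
    ∃ j < c * N, (lev (-(c * δ)) (T0 K.den K.den_pos K.num P)).coeff j ≠ 0 := by
  obtain ⟨j, hj, n, hn, he⟩ := hA
  refine ⟨j, hj, ?_⟩
  rw [lev_coeff, T0_coeff_coeff (m := n)]
  · exact hn
  · have h4 := num_cast K
    have h6 : (δ : ℚ) = K.den * α - K.num * N := by rw [hδ]; push_cast; ring
    have h7 : (K.den : ℚ) * (K * ((c : ℚ) * N - j) - c * α)
        = K.num * (c * N - j) - K.den * c * α := by rw [h4]; ring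
    have h8 : ((K.den : ℚ) * n) = -(c * δ) - j * K.num := by
      rw [← he, h7, h6]; ring
    exact_mod_cast h8

end level

end Pool.Agent.Lib.MP_2d59ee_ag


/-! ## Machine -/

/-! The descent along Newton polygon corners. -/


namespace Pool.Agent.Lib.MP_2d59ee_ag

open Polynomial

/-- The arithmetic conclusion of the descent. -/
def Concl (a b N : ℕ) (x : ℤ) : Prop :=
  ∃ N' e x' d : ℕ, 0 < N' ∧ N' ≤ N ∧ 0 < e ∧ 0 < x' ∧ (x' : ℤ) ≤ x ∧ (N' < N → (x' : ℤ) < x) ∧
    0 < d ∧ d * ((a + b) * N' - 1) = e * x' ∧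
    ((e ∣ a ∧ e ∣ b * N' - 1) ∨ (e ∣ b ∧ e ∣ a * N' - 1))

theorem Concl.mono {a b N N₁ : ℕ} {x x₁ : ℤ} (h : Concl a b N₁ x₁) (hN : N₁ ≤ N) (hx : x₁ ≤ x)
    (hs : N₁ < N → x₁ < x) : Concl a b N x := by
  obtain ⟨N', e, x', d, h1, h2, h3, h4, h5, h6, h7, h8, h9⟩ := h
  refine ⟨N', e, x', d, h1, h2.trans hN, h3, h4, h5.trans hx, ?_, h7, h8, h9⟩
  intro hlt
  rcases lt_or_eq_of_le h2 with h | h
  · exact (h6 h).trans_le hx
  · subst h
    exact h5.trans_lt (hs hlt)

theorem final_case {P Q : LS[X]} {a b : ℕ} {α : ℤ} {N : ℕ} {k K : ℚ} {E : ℕ} {c : ℂ}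
    (ha : 0 < a) (hb : 0 < b) (hc : c ≠ 0)
    (hbr : brB P Q = C (HahnSeries.single (-(E : ℤ)) c)) (hN : 0 < N)
    (hP : Corner P a α N k) (hQ : Corner Q b α N k) (hkK : k < K)
    (hKP : AtLevel P a α N K) (hKQ : AtLevel Q b α N K)
    (hΔ : 0 < (α : ℚ) - K * N) (hfin : ((a : ℚ) + b) * (α - K * N) = E - K)
    (hx : α < E * N) : Concl a b N (E * N - α) := by
  set q := K.den with hq
  have hqpos : 0 < q := K.den_pos
  set s := K.num with hs
  have hqQ : (0 : ℚ) < q := by exact_mod_cast hqpos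
  have hnum : (s : ℚ) = K * q := num_cast K
  obtain ⟨d, hd⟩ : ∃ d : ℕ, (d : ℤ) = q * α - s * N := by
    have h1 : (0 : ℚ) ≤ q * α - s * N := by
      rw [hnum]
      have := mul_pos hqQ hΔ
      linarith
    have h2 : (0 : ℤ) ≤ q * α - s * N := by exact_mod_cast h1
    exact ⟨(q * α - s * N).toNat, Int.toNat_of_nonneg h2⟩
  have hdQ : (d : ℚ) = q * (α - K * N) := by
    have : (d : ℚ) = q * α - s * N := by exact_mod_cast hd
    rw [this, hnum]; ring
  have hdpos : 0 < d := by
    have : (0 : ℚ) < d := by rw [hdQ]; exact mul_pos hqQ hΔ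
    exact_mod_cast this
  have hfinZ : ((a : ℤ) + b) * d = q * E - s := by
    have : (((a : ℤ) + b) * d : ℚ) = q * E - s := by
      rw [hdQ, hnum]
      push_cast
      linear_combination (q : ℚ) * hfin
    exact_mod_cast this
  set P1 := T0 q hqpos s P with hP1
  set Q1 := T0 q hqpos s Q with hQ1
  have hbr1 := brB_T0_single q hqpos s P Q E c hbr
  rw [← hP1, ← hQ1] at hbr1
  have hlP : LowB P1 (-(a * (d : ℤ))) := lowB_T0 hP hkK hKP d hd
  have hlQ : LowB Q1 (-(b * (d : ℤ))) := lowB_T0 hQ hkK hKQ d hd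
  set p := lev (-(a * (d : ℤ))) P1 with hp
  set g := lev (-(b * (d : ℤ))) Q1 with hg
  have hlev := lev_brB hlP hlQ
  rw [hbr1, lev_C_single, if_pos (by linear_combination -hfinZ), ← hp, ← hg] at hlev
  have h0 := congrArg (fun z => z.coeff 0) hlev
  simp only [coeff_sub, mul_coeff_zero, coeff_C_zero, coeff_derivative, zero_add,
    Nat.cast_zero, mul_one] at h0
  have hcop : IsCoprime (q : ℤ) s := by
    rw [Int.isCoprime_iff_nat_coprime]
    have := K.reduced
    rw [Nat.coprime_comm] at this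
    simpa using this
  have hqc : (q : ℂ) * c ≠ 0 := mul_ne_zero (by exact_mod_cast hqpos.ne') hc
  have hNZ : (1 : ℤ) ≤ N := by exact_mod_cast hN
  -- arithmetic
  have key : ((q : ℤ) ∣ a ∧ (q : ℤ) ∣ b * N - 1) ∨ ((q : ℤ) ∣ b ∧ (q : ℤ) ∣ a * N - 1) := by
    have haux : ∀ (c₁ : ℕ) (R : LS[X]) (j : ℕ),
        (lev (-(c₁ * (d : ℤ))) (T0 q hqpos s R)).coeff j ≠ 0 → (q : ℤ) ∣ c₁ * N - j := by
      intro c₁ R j hj
      rw [lev_coeff] at hj
      obtain ⟨m, hm, -⟩ := T0_coeff_ne _ _ _ _ _ _ hj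
      have h1 : (q : ℤ) ∣ s * (c₁ * N - j) := by
        refine ⟨m + c₁ * α, ?_⟩
        rw [hd] at hm
        linear_combination -hm
      exact hcop.dvd_of_dvd_mul_left h1
    by_cases hcase : p.coeff 0 * g.coeff 1 = 0
    · right
      have hne : p.coeff 1 * g.coeff 0 ≠ 0 := by
        intro h00
        apply hqc
        push_cast at h0 ⊢
        linear_combination h0 + (-(a * d : ℂ)) * hcase - (-(b * d : ℂ)) * h00
      have e1 := haux a P 1 (left_ne_zero_of_mul hne)
      have e2 := haux b Q 0 (right_ne_zero_of_mul hne)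
      push_cast at e1 e2
      rw [sub_zero] at e2
      refine ⟨?_, e1⟩
      have : (b : ℤ) = a * (b * N) - b * (a * N - 1) := by ring
      rw [this]
      exact dvd_sub (e2.mul_left _) (e1.mul_left _)
    · left
      have e1 := haux a P 0 (left_ne_zero_of_mul hcase)
      have e2 := haux b Q 1 (right_ne_zero_of_mul hcase)
      push_cast at e1 e2
      rw [sub_zero] at e1
      refine ⟨?_, e2⟩
      have : (a : ℤ) = b * (a * N) - a * (b * N - 1) := by ring
      rw [this]
      exact dvd_sub (e1.mul_left _) (e2.mul_left _)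
  have hx0 : (0 : ℤ) < E * N - α := by linarith
  obtain ⟨x', hx'⟩ : ∃ x' : ℕ, (x' : ℤ) = E * N - α :=
    ⟨(E * N - α : ℤ).toNat, Int.toNat_of_nonneg hx0.le⟩
  have haN : 1 ≤ a * N := Nat.mul_pos ha hN
  have hbN : 1 ≤ b * N := Nat.mul_pos hb hN
  have habN : 1 ≤ (a + b) * N := Nat.mul_pos (by omega) hN
  refine ⟨N, q, x', d, hN, le_rfl, hqpos, by omega, hx'.le, fun h => absurd h (lt_irrefl _),
    hdpos, ?_, ?_⟩
  · zify [habN]
    rw [hx']
    linear_combination (N : ℤ) * hfinZ - hd
  · rcases key with ⟨h1, h2⟩ | ⟨h1, h2⟩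
    · left
      refine ⟨by exact_mod_cast h1, ?_⟩
      zify [hbN]; exact h2
    · right
      refine ⟨by exact_mod_cast h1, ?_⟩
      zify [haN]; exact h2

theorem machine (a b : ℕ) (ha : 0 < a) (hb : 0 < b) (hab : Nat.Coprime a b) :
    ∀ (N : ℕ), 0 < N → ∀ (E : ℕ) (P Q : LS[X]) (α : ℤ) (k : ℚ) (c : ℂ), c ≠ 0 →
      brB P Q = C (HahnSeries.single (-(E : ℤ)) c) → 0 ≤ k →
      Corner P a α N k → Corner Q b α N k → 0 < (α : ℚ) - k * N →
      (E : ℚ) - k < ((a : ℚ) + b) * (α - k * N) → α < E * N → Concl a b N (E * N - α) := by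
  intro N
  induction N using Nat.strong_induction_on with
  | _ N ihN =>
  intro hN E
  induction E using Nat.strong_induction_on with
  | _ E ihE =>
  intro P Q α k c hc hbr hk hP hQ hΔ hJ hx
  have hNQ : (1 : ℚ) ≤ N := by exact_mod_cast hN
  have haQ : (1 : ℚ) ≤ a := by exact_mod_cast ha
  have hbQ : (1 : ℚ) ≤ b := by exact_mod_cast hb
  have hden : (0 : ℚ) < ((a : ℚ) + b) * N - 1 := by
    have h9 : (2 : ℚ) * 1 ≤ ((a : ℚ) + b) * N :=
      mul_le_mul (by linarith) hNQ zero_le_one (by linarith)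
    linarith
  set κ : ℚ := (((a : ℚ) + b) * α - E) / (((a : ℚ) + b) * N - 1) with hκ
  have hkκ : k < κ := by
    rw [hκ, lt_div_iff₀ hden]; linarith
  obtain ⟨K, hkK, hKκ, hKP, hKQ, hKcase⟩ := exists_level hP hQ hkκ
  have hKle : (E : ℚ) - K ≤ ((a : ℚ) + b) * (α - K * N) := by
    rw [hκ, le_div_iff₀ hden] at hKκ; linarith
  have hxQ : (α : ℚ) < E * N := by exact_mod_cast hx
  have hEK : 0 < (E : ℚ) - K := by
    by_contra hcon
    push Not at hcon
    have h1 : (α : ℚ) - K * N < ((E : ℚ) - K) * N := by linarith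
    have h2 : ((E : ℚ) - K) * N ≤ ((E : ℚ) - K) * 1 := mul_le_mul_of_nonpos_left hNQ hcon
    have h3 : (α : ℚ) - K * N < 0 := by linarith
    have h4 : ((a : ℚ) + b) * (α - K * N) ≤ 1 * (α - K * N) :=
      mul_le_mul_of_nonpos_right (by linarith) h3.le
    linarith
  have hΔK : 0 < (α : ℚ) - K * N := by
    by_contra hcon
    push Not at hcon
    have h9 : ((a : ℚ) + b) * (α - K * N) ≤ 0 :=
      mul_nonpos_of_nonneg_of_nonpos (by linarith) hcon
    linarith
  by_cases hKeq : K = κ
  · apply final_case ha hb hc hbr hN hP hQ hkK hKP hKQ hΔK _ hx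
    have : K * (((a : ℚ) + b) * N - 1) = ((a : ℚ) + b) * α - E := by
      rw [hKeq, hκ, div_mul_cancel₀ _ hden.ne']
    linarith
  -- non-final case
  have hKlt : K < κ := lt_of_le_of_ne hKκ hKeq
  have hJK : (E : ℚ) - K < ((a : ℚ) + b) * (α - K * N) := by
    rw [hκ, lt_div_iff₀ hden] at hKlt; linarith
  have hAtt : Attained P a α N K ∨ Attained Q b α N K := by
    rcases hKcase with h | h
    · exact absurd h hKeq
    · exact h
  set q := K.den with hq
  have hqpos : 0 < q := K.den_pos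
  set s := K.num with hs
  have hqQ : (0 : ℚ) < q := by exact_mod_cast hqpos
  have hnum : (s : ℚ) = K * q := num_cast K
  have hKpos : 0 < K := lt_of_le_of_lt hk hkK
  have hspos : 0 < s := Rat.num_pos.mpr hKpos
  obtain ⟨d, hd⟩ : ∃ d : ℕ, (d : ℤ) = q * α - s * N := by
    have h1 : (0 : ℚ) ≤ q * α - s * N := by
      rw [hnum]
      have := mul_pos hqQ hΔK
      linarith
    have h2 : (0 : ℤ) ≤ q * α - s * N := by exact_mod_cast h1
    exact ⟨(q * α - s * N).toNat, Int.toNat_of_nonneg h2⟩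
  have hdQ : (d : ℚ) = q * (α - K * N) := by
    have : (d : ℚ) = q * α - s * N := by exact_mod_cast hd
    rw [this, hnum]; ring
  have hdpos : 0 < d := by
    have : (0 : ℚ) < d := by rw [hdQ]; exact mul_pos hqQ hΔK
    exact_mod_cast this
  obtain ⟨e₁, he₁⟩ : ∃ e₁ : ℕ, (e₁ : ℤ) = q * E - s := by
    have h1 : (0 : ℚ) ≤ q * E - s := by
      rw [hnum]
      have := mul_pos hqQ hEK
      linarith
    have h2 : (0 : ℤ) ≤ q * E - s := by exact_mod_cast h1
    exact ⟨(q * E - s : ℤ).toNat, Int.toNat_of_nonneg h2⟩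
  have he₁Q : (e₁ : ℚ) = q * (E - K) := by
    have : (e₁ : ℚ) = q * E - s := by exact_mod_cast he₁
    rw [this, hnum]; ring
  have he₁pos : 0 < e₁ := by
    have : (0 : ℚ) < e₁ := by rw [he₁Q]; exact mul_pos hqQ hEK
    exact_mod_cast this
  have hJZ : (e₁ : ℤ) < ((a : ℤ) + b) * d := by
    have : (e₁ : ℚ) < ((a : ℚ) + b) * d := by
      rw [he₁Q, hdQ]
      have := mul_lt_mul_of_pos_left hJK hqQ
      linarith
    exact_mod_cast this
  have hxZ : (d : ℤ) < e₁ * N := by
    have : (d : ℚ) < e₁ * N := by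
      rw [he₁Q, hdQ]
      have h1 : (α : ℚ) - K * N < ((E : ℚ) - K) * N := by linarith
      have := mul_lt_mul_of_pos_left h1 hqQ
      linarith
    exact_mod_cast this
  set P1 := T0 q hqpos s P with hP1
  set Q1 := T0 q hqpos s Q with hQ1
  have hbr1 := brB_T0_single q hqpos s P Q E c hbr
  rw [← hP1, ← hQ1, ← he₁] at hbr1
  have hqc : (q : ℂ) * c ≠ 0 := mul_ne_zero (by exact_mod_cast hqpos.ne') hc
  have hlP : LowB P1 (-(a * (d : ℤ))) := lowB_T0 hP hkK hKP d hd
  have hlQ : LowB Q1 (-(b * (d : ℤ))) := lowB_T0 hQ hkK hKQ d hd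
  set p := lev (-(a * (d : ℤ))) P1 with hp
  set g := lev (-(b * (d : ℤ))) Q1 with hg
  have hpdeg : p.natDegree = a * N := lev_T0_natDegree hP hkK d hd
  have hgdeg : g.natDegree = b * N := lev_T0_natDegree hQ hkK d hd
  have hptop : p.coeff (a * N) ≠ 0 := lev_T0_top hP d hd
  have hgtop : g.coeff (b * N) ≠ 0 := lev_T0_top hQ d hd
  have hp0 : p ≠ 0 := by rintro h; rw [h] at hptop; simp at hptop
  have hg0 : g ≠ 0 := by rintro h; rw [h] at hgtop; simp at hgtop
  have hode : C (a : ℂ) * p * derivative g = C (b : ℂ) * derivative p * g := by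
    have hlev := lev_brB hlP hlQ
    rw [hbr1, lev_C_single, if_neg (by intro h; linarith), ← hp, ← hg] at hlev
    have hd0 : (C (d : ℂ) : ℂ[X]) ≠ 0 := C_ne_zero.mpr (by exact_mod_cast hdpos.ne')
    apply mul_left_cancel₀ hd0
    have e1 : (C ((-(a * (d : ℤ)) : ℤ) : ℂ) : ℂ[X]) = -(C (a : ℂ) * C (d : ℂ)) := by
      rw [← C_mul, ← C_neg]; push_cast; rfl
    have e2 : (C ((-(b * (d : ℤ)) : ℤ) : ℂ) : ℂ[X]) = -(C (b : ℂ) * C (d : ℂ)) := by
      rw [← C_mul, ← C_neg]; push_cast; rfl
    rw [e1, e2] at hlev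
    linear_combination hlev
  have hAcast : (-((a * d : ℕ) : ℤ)) = -(a * (d : ℤ)) := by push_cast; ring
  obtain ⟨μ, hμroot, hμbig⟩ := exists_big_root P1 Q1 (a * d) e₁ (Nat.mul_pos ha hdpos)
    (q * c) hqc (by rw [hAcast]; exact hlP) (by rw [hAcast, ← hp]; exact hp0)
    (by
      rw [hAcast, ← hp, hpdeg]
      have h1 : d < e₁ * N := by exact_mod_cast hxZ
      calc a * d < a * (e₁ * N) := Nat.mul_lt_mul_of_pos_left h1 ha
        _ = e₁ * (a * N) := by ring) hbr1
  rw [hAcast, ← hp] at hμroot hμbig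
  have hmult := mult_prop p g hp0 hg0 a b hode μ
  obtain ⟨N₁, hN₁⟩ : a ∣ p.rootMultiplicity μ :=
    hab.dvd_of_dvd_mul_left (Dvd.intro _ hmult)
  have hN₁g : g.rootMultiplicity μ = b * N₁ := by
    rw [hN₁] at hmult
    apply Nat.eq_of_mul_eq_mul_left ha
    rw [hmult]; ring
  have hN₁pos : 0 < N₁ := by
    have : 0 < p.rootMultiplicity μ := (rootMultiplicity_pos hp0).mpr hμroot
    rw [hN₁] at this
    exact Nat.pos_of_mul_pos_left this
  have hdN₁ : d < e₁ * N₁ := by
    rw [hN₁] at hμbig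
    have : a * d < a * (e₁ * N₁) := by
      calc a * d < e₁ * (a * N₁) := hμbig
        _ = a * (e₁ * N₁) := by ring
    exact Nat.lt_of_mul_lt_mul_left this
  have hcop : IsCoprime (q : ℤ) s := by
    rw [Int.isCoprime_iff_nat_coprime]
    have := K.reduced
    rw [Nat.coprime_comm] at this
    simpa using this
  have habZ : IsCoprime (a : ℤ) b := Nat.isCoprime_iff_coprime.mpr hab
  have hN₁le : N₁ ≤ N := by
    have h1 : p.rootMultiplicity μ ≤ p.natDegree := by
      rw [← count_roots]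
      exact (Multiset.count_le_card _ _).trans (card_roots' p)
    rw [hN₁, hpdeg] at h1
    exact Nat.le_of_mul_le_mul_left h1 ha
  by_cases hμ0 : μ = 0
  · -- the root at the origin
    subst hμ0
    have hN₁lt : N₁ < N := by
      rcases lt_or_eq_of_le hN₁le with h | h
      · exact h
      · exfalso
        subst h
        rcases hAtt with hA | hA
        · obtain ⟨j, hj, hne⟩ := attained_coeff hA d hd
          exact hne (coeff_lt_zero p hp0 j (by rw [hN₁]; exact hj))
        · obtain ⟨j, hj, hne⟩ := attained_coeff hA d hd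
          exact hne (coeff_lt_zero g hg0 j (by rw [hN₁g]; exact hj))
    have hpN₁ : p.coeff (a * N₁) ≠ 0 := by rw [← hN₁]; exact coeff_eq_zero_ne p hp0
    have hgN₁ : g.coeff (b * N₁) ≠ 0 := by rw [← hN₁g]; exact coeff_eq_zero_ne g hg0
    rw [hp, lev_coeff] at hpN₁
    rw [hg, lev_coeff] at hgN₁
    obtain ⟨m₁, hm₁, hm₁'⟩ := T0_coeff_ne _ _ _ _ _ _ hpN₁
    obtain ⟨m₂, hm₂, hm₂'⟩ := T0_coeff_ne _ _ _ _ _ _ hgN₁
    obtain ⟨α₁, hα₁⟩ : (q : ℤ) ∣ d + s * N₁ := by
      obtain ⟨u, v, huv⟩ := habZ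
      refine ⟨-(u * m₁ + v * m₂), ?_⟩
      push_cast at hm₁ hm₂
      linear_combination (-(d + s * N₁ : ℤ)) * huv + u * hm₁ + v * hm₂
    have hm₁α : m₁ = -(a * α₁) := by
      have hq0 : (q : ℤ) ≠ 0 := by exact_mod_cast hqpos.ne'
      apply mul_left_cancel₀ hq0
      push_cast at hm₁
      linear_combination hm₁ - (a : ℤ) * hα₁
    have hm₂α : m₂ = -(b * α₁) := by
      have hq0 : (q : ℤ) ≠ 0 := by exact_mod_cast hqpos.ne'
      apply mul_left_cancel₀ hq0
      push_cast at hm₂
      linear_combination hm₂ - (b : ℤ) * hα₁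
    -- relation α₁ - K N₁ = α - K N
    have hrel : (α₁ : ℚ) - K * N₁ = α - K * N := by
      have h1 : ((d : ℚ) + s * N₁) = q * α₁ := by exact_mod_cast hα₁
      have : (q : ℚ) * (α₁ - K * N₁) = q * (α - K * N) := by
        rw [← hdQ]
        rw [hnum] at h1
        linear_combination -h1
      exact mul_left_cancel₀ hqQ.ne' this
    have hcorner : ∀ (c₁ : ℕ) (R : LS[X]), Corner R c₁ α N k → AtLevel R c₁ α N K →
        (R.coeff (c₁ * N₁)).coeff (-(c₁ * α₁)) ≠ 0 →
        (∀ j < c₁ * N₁, (lev (-(c₁ * (d : ℤ))) (T0 q hqpos s R)).coeff j = 0) →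
        Corner R c₁ α₁ N₁ K := by
      intro c₁ R hR hRK htop hlow
      refine ⟨htop, ?_, ?_⟩
      · intro j hj n hn
        have h1 := all_ge hR hkK hRK j n hn
        have h2 : K * ((c₁ : ℚ) * N₁ - j) - c₁ * α₁ = K * ((c₁ : ℚ) * N - j) - c₁ * α := by
          linear_combination (-(c₁ : ℚ)) * hrel
        rw [h2]
        refine lt_of_le_of_ne h1 ?_
        intro heq
        have h3 : (q : ℤ) * n = -(c₁ * (d : ℤ)) - j * s := by
          have : ((q : ℚ) * n) = -(c₁ * (d : ℚ)) - j * s := by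
            rw [← heq, hdQ, hnum]; ring
          exact_mod_cast this
        have h4 := hlow j hj
        rw [lev_coeff, T0_coeff_coeff (m := n) (h := h3)] at h4
        exact hn h4
      · intro j hj n hn
        have h1 := all_ge hR hkK hRK j n hn
        have h2 : K * ((c₁ : ℚ) * N₁ - j) - c₁ * α₁ = K * ((c₁ : ℚ) * N - j) - c₁ * α := by
          linear_combination (-(c₁ : ℚ)) * hrel
        rw [h2]; exact h1
    have hCP : Corner P a α₁ N₁ K := hcorner a P hP hKP (by rw [← hm₁α]; exact hm₁')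
      (fun j hj => coeff_lt_zero p hp0 j (by rw [hN₁]; exact hj))
    have hCQ : Corner Q b α₁ N₁ K := hcorner b Q hQ hKQ (by rw [← hm₂α]; exact hm₂')
      (fun j hj => coeff_lt_zero g hg0 j (by rw [hN₁g]; exact hj))
    have hdN₁Q : (α₁ : ℚ) < E * N₁ := by
      have h1 : (d : ℚ) < e₁ * N₁ := by exact_mod_cast hdN₁
      rw [hdQ, he₁Q, ← hrel] at h1
      have h2 : (q : ℚ) * (α₁ - K * N₁) < q * ((E - K) * N₁) := by linarith
      have h3 := lt_of_mul_lt_mul_left h2 hqQ.le
      linarith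
    have hres := ihN N₁ hN₁lt hN₁pos E P Q α₁ K c hc hbr hKpos.le hCP hCQ
      (by rw [hrel]; exact hΔK) (by rw [hrel]; exact hJK) (by exact_mod_cast hdN₁Q)
    have hxlt : (E * N₁ - α₁ : ℤ) < E * N - α := by
      have : ((E : ℚ) * N₁ - α₁) < E * N - α := by
        have h1 : (N₁ : ℚ) < N := by exact_mod_cast hN₁lt
        have h9 := mul_pos hEK (sub_pos.mpr h1)
        linarith
      exact_mod_cast this
    exact hres.mono hN₁le hxlt.le (fun _ => hxlt)
  · -- a nonzero root
    have hqN₁ : q * N₁ ≤ N := by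
      have hr : ∀ j, p.coeff j ≠ 0 → (q : ℤ) ∣ (j : ℤ) - (a * N : ℕ) := by
        intro j hj
        have hj' := hj
        rw [hp, lev_coeff] at hj'
        obtain ⟨m, hm, -⟩ := T0_coeff_ne _ _ _ _ _ _ hj'
        have h1 : (q : ℤ) ∣ s * ((j : ℤ) - (a * N : ℕ)) := by
          refine ⟨-m - a * α, ?_⟩
          rw [hd] at hm
          push_cast
          linear_combination hm
        exact hcop.dvd_of_dvd_mul_left h1
      have h1 := orbit_bound p hp0 q hqpos (a * N) hr μ hμ0
      rw [hN₁, hpdeg] at h1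
      have : a * (q * N₁) ≤ a * N := by
        calc a * (q * N₁) = q * (a * N₁) := by ring
          _ ≤ a * N := h1
      exact Nat.le_of_mul_le_mul_left this ha
    have hbr2 : brB (shift μ P1) (shift μ Q1)
        = C (HahnSeries.single (-(e₁ : ℤ)) ((q : ℂ) * c)) := by
      rw [brB_shift, hbr1, shift, C_comp]
    have hcorner : ∀ (c₁ : ℕ) (R : LS[X]), LowB R (-(c₁ * (d : ℤ))) →
        lev (-(c₁ * (d : ℤ))) R ≠ 0 →
        (lev (-(c₁ * (d : ℤ))) R).rootMultiplicity μ = c₁ * N₁ →
        Corner (shift μ R) c₁ d N₁ 0 := by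
      intro c₁ R hR hR0 hRm
      have hge : ∀ (j : ℕ) (n : ℤ), ((shift μ R).coeff j).coeff n ≠ 0 →
          -(c₁ * (d : ℤ)) ≤ n := by
        intro j n hn
        by_contra hlt
        push Not at hlt
        apply hn
        rw [← lev_coeff, lev_shift, hR n hlt]; simp
      refine ⟨?_, ?_, ?_⟩
      · rw [← lev_coeff, lev_shift, ← hRm]
        exact comp_coeff_eq _ hR0 μ
      · intro j hj n hn
        have h1 := hge j n hn
        have h2 : -(c₁ * (d : ℤ)) ≠ n := by
          intro heq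
          apply hn
          rw [← lev_coeff, lev_shift, ← heq]
          exact comp_coeff_lt _ hR0 μ j (by rw [hRm]; exact hj)
        have h3 : -(c₁ * (d : ℤ)) < n := lt_of_le_of_ne h1 h2
        have h4 : (-(c₁ * (d : ℚ))) < n := by exact_mod_cast h3
        simpa using h4
      · intro j _ n hn
        have h1 := hge j n hn
        have h4 : (-(c₁ * (d : ℚ))) ≤ n := by exact_mod_cast h1
        simpa using h4
    have hCP : Corner (shift μ P1) a d N₁ 0 := hcorner a P1 hlP hp0 hN₁
    have hCQ : Corner (shift μ Q1) b d N₁ 0 := hcorner b Q1 hlQ hg0 hN₁g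
    have hi1 : 0 < ((d : ℤ) : ℚ) - 0 * N₁ := by
      have : (0 : ℚ) < d := by exact_mod_cast hdpos
      simpa using this
    have hi2 : (e₁ : ℚ) - 0 < ((a : ℚ) + b) * (((d : ℤ) : ℚ) - 0 * N₁) := by
      have : (e₁ : ℚ) < ((a : ℚ) + b) * d := by exact_mod_cast hJZ
      simpa using this
    have hi3 : (d : ℤ) < e₁ * N₁ := by exact_mod_cast hdN₁
    -- relation of the x invariants
    have hqx : (q : ℤ) * ((E * N - α) - (e₁ * N₁ - d))
        = e₁ * (N - q * N₁) + (q - 1) * d := by
      rw [he₁, hd]; ring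
    have hqZ : (1 : ℤ) ≤ q := by exact_mod_cast hqpos
    have hqN₁Z : (q : ℤ) * N₁ ≤ N := by exact_mod_cast hqN₁
    have he₁Z : (0 : ℤ) < e₁ := by exact_mod_cast he₁pos
    have hdZ : (0 : ℤ) < d := by exact_mod_cast hdpos
    have hxle : (e₁ * N₁ - d : ℤ) ≤ E * N - α := by
      have h1 : 0 ≤ (q : ℤ) * ((E * N - α) - (e₁ * N₁ - d)) := by
        rw [hqx]
        have h2 : 0 ≤ (e₁ : ℤ) * (N - q * N₁) := mul_nonneg he₁Z.le (by linarith)
        have h3 : 0 ≤ ((q : ℤ) - 1) * d := mul_nonneg (by linarith) hdZ.le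
        linarith
      have h4 := nonneg_of_mul_nonneg_right h1 (by linarith)
      linarith
    have hxlt : N₁ < N → (e₁ * N₁ - d : ℤ) < E * N - α := by
      intro hlt
      have hltZ : (N₁ : ℤ) < N := by exact_mod_cast hlt
      have h1 : 0 < (q : ℤ) * ((E * N - α) - (e₁ * N₁ - d)) := by
        rw [hqx]
        rcases eq_or_lt_of_le hqZ with h | h
        · rw [← h]
          have : 0 < (e₁ : ℤ) * (N - 1 * N₁) := mul_pos he₁Z (by linarith)
          linarith
        · have h2 : 0 ≤ (e₁ : ℤ) * (N - q * N₁) := mul_nonneg he₁Z.le (by linarith)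
          have h3 : 0 < ((q : ℤ) - 1) * d := mul_pos (by linarith) hdZ
          linarith
      have h4 := (mul_pos_iff_of_pos_left (by linarith : (0 : ℤ) < q)).mp h1
      linarith
    rcases lt_or_eq_of_le hN₁le with hlt | heq
    · exact (ihN N₁ hlt hN₁pos e₁ (shift μ P1) (shift μ Q1) d 0 (q * c) hqc hbr2 le_rfl
        hCP hCQ hi1 hi2 hi3).mono hN₁le hxle hxlt
    · have hq1 : q = 1 := by
        rw [heq] at hqN₁
        have : q * N ≤ 1 * N := by rwa [one_mul]
        have := Nat.le_of_mul_le_mul_right this hN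
        omega
      have he₁lt : e₁ < E := by
        have : (e₁ : ℤ) < E := by
          rw [he₁, hq1]; push_cast; linarith
        exact_mod_cast this
      rw [heq] at hCP hCQ hi1 hi2 hi3 hxle hxlt
      exact (ihE e₁ he₁lt (shift μ P1) (shift μ Q1) d 0 (q * c) hqc hbr2 le_rfl
        hCP hCQ hi1 hi2 hi3).mono le_rfl hxle hxlt

end Pool.Agent.Lib.MP_2d59ee_ag


/-! ## Ode2 -/

/-! Further analysis of polynomial solutions of the leading-form equation. -/


namespace Pool.Agent.Lib.MP_2d59ee_ag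

open Polynomial

/-- the leading-form equation -/
def Sol (p u : ℂ[X]) (A E : ℕ) (c : ℂ) : Prop :=
  -(A : ℂ[X]) * derivative u * p + (E : ℂ[X]) * derivative p * u = C c * p

theorem Sol.ne_zero {p u : ℂ[X]} {A E : ℕ} {c : ℂ} (hu : Sol p u A E c) (hp : p ≠ 0)
    (hc : c ≠ 0) : u ≠ 0 := by
  rintro rfl
  unfold Sol at hu
  simp only [derivative_zero, mul_zero, zero_mul, add_zero] at hu
  exact mul_ne_zero (C_ne_zero.mpr hc) hp hu.symm

theorem Sol.root {p u : ℂ[X]} {A E : ℕ} {c : ℂ} (hu : Sol p u A E c) (hp : p ≠ 0)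
    (hc : c ≠ 0) (hE : E ≠ 0) (μ : ℂ) (hμ : p.IsRoot μ) :
    u.IsRoot μ ∧ A ≠ E * p.rootMultiplicity μ := by
  unfold Sol at hu
  obtain ⟨p1, hp1, hp1e⟩ := exists_fact p hp μ
  set n := p.rootMultiplicity μ with hn
  have hn1 : 0 < n := by
    rw [hn, rootMultiplicity_pos hp]; exact hμ
  have e1 := mul_derivative_fact p1 μ n
  rw [← hp1] at e1
  set t : ℂ[X] := X - C μ with ht
  have ht0 : eval μ t = 0 := by simp [ht]
  have htne : t ≠ 0 := t_ne_zero μ
  have e3 : t ^ n * (-(A : ℂ[X]) * derivative u * p1 * t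
      + (E : ℂ[X]) * ((n : ℂ[X]) * p1 + t * derivative p1) * u) = t ^ n * (C c * p1 * t) := by
    have h4 := congrArg (fun z => t * z) hu
    have lhs : t * (-(A : ℂ[X]) * derivative u * p + (E : ℂ[X]) * derivative p * u)
        = -(A : ℂ[X]) * derivative u * p * t + (E : ℂ[X]) * (t * derivative p) * u := by ring
    rw [lhs, e1] at h4
    rw [hp1] at h4
    linear_combination h4
  have e4 := mul_left_cancel₀ (pow_ne_zero n htne) e3
  have e5 := congrArg (eval μ) e4
  simp only [eval_add, eval_mul, eval_neg, ht0, eval_natCast, mul_zero,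
    zero_mul, add_zero, zero_add] at e5
  have hroot : u.eval μ = 0 := by
    rcases mul_eq_zero.mp e5 with h | h
    · rcases mul_eq_zero.mp h with h | h
      · exact absurd h (by exact_mod_cast hE)
      · rcases mul_eq_zero.mp h with h | h
        · exact absurd h (by exact_mod_cast hn1.ne')
        · exact absurd h hp1e
    · exact h
  refine ⟨hroot, ?_⟩
  intro hAE
  obtain ⟨u1, hu1⟩ := dvd_iff_isRoot.mpr hroot
  rw [← ht] at hu1
  have hdu : derivative u = u1 + t * derivative u1 := by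
    rw [hu1, derivative_mul, ht]; simp
  have e6 : t * (-(A : ℂ[X]) * (u1 + t * derivative u1) * p1
      + (E : ℂ[X]) * ((n : ℂ[X]) * p1 + t * derivative p1) * u1) = t * (C c * p1) := by
    rw [hdu] at e4
    rw [hu1] at e4
    linear_combination e4
  have e7 := mul_left_cancel₀ htne e6
  have e8 := congrArg (eval μ) e7
  simp only [eval_add, eval_mul, eval_neg, ht0, eval_natCast,
    zero_mul, add_zero, eval_C] at e8
  have hAE' : (A : ℂ) = E * n := by exact_mod_cast congrArg (Nat.cast : ℕ → ℂ) hAE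
  have e9 : c * p1.eval μ = 0 := by
    rw [← e8, hAE']; ring
  exact mul_ne_zero hc hp1e e9

theorem Sol.degree {p u : ℂ[X]} {A E : ℕ} {c : ℂ} (hu : Sol p u A E c) (hp : p ≠ 0)
    (hc : c ≠ 0) (hM2 : 2 ≤ u.natDegree) (hD1 : 1 ≤ p.natDegree) :
    E * p.natDegree = A * u.natDegree := by
  have hu0 := hu.ne_zero hp hc
  unfold Sol at hu
  set M := u.natDegree with hM
  set D := p.natDegree with hD
  have h1 : (derivative u).natDegree ≤ M - 1 := natDegree_derivative_le u
  have h2 : (derivative p).natDegree ≤ D - 1 := natDegree_derivative_le p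
  have h3 : (derivative u * p).coeff (M - 1 + D) = (M : ℂ) * u.leadingCoeff * p.leadingCoeff := by
    rw [coeff_mul_add_eq_of_natDegree_le h1 le_rfl, coeff_derivative,
      show M - 1 + 1 = M by omega]
    rw [leadingCoeff, leadingCoeff, ← hM, ← hD]
    have : ((M - 1 : ℕ) : ℂ) + 1 = M := by
      rw [← Nat.cast_succ]; congr 1; omega
    rw [this]; ring
  have h4 : (derivative p * u).coeff (M - 1 + D) = (D : ℂ) * u.leadingCoeff * p.leadingCoeff := by
    rw [show M - 1 + D = D - 1 + M by omega, coeff_mul_add_eq_of_natDegree_le h2 le_rfl,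
      coeff_derivative, show D - 1 + 1 = D by omega]
    rw [leadingCoeff, leadingCoeff, ← hM, ← hD]
    have : ((D - 1 : ℕ) : ℂ) + 1 = D := by
      rw [← Nat.cast_succ]; congr 1; omega
    rw [this]; ring
  have h5 : (C c * p).coeff (M - 1 + D) = 0 := by
    rw [coeff_C_mul, coeff_eq_zero_of_natDegree_lt (by omega), mul_zero]
  have h6 := congrArg (fun z => z.coeff (M - 1 + D)) hu
  simp only [coeff_add] at h6
  rw [h5] at h6
  have h7 : (-(A : ℂ[X]) * derivative u * p).coeff (M - 1 + D)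
      = -(A : ℂ) * ((M : ℂ) * u.leadingCoeff * p.leadingCoeff) := by
    rw [← h3, ← coeff_C_mul]
    congr 1
    simp; ring
  have h8 : ((E : ℂ[X]) * derivative p * u).coeff (M - 1 + D)
      = (E : ℂ) * ((D : ℂ) * u.leadingCoeff * p.leadingCoeff) := by
    rw [← h4, ← coeff_C_mul]
    congr 1
    simp; ring
  rw [h7, h8] at h6
  have h9 : (u.leadingCoeff * p.leadingCoeff) * ((E : ℂ) * D - A * M) = 0 := by
    linear_combination h6
  have h10 : ((E : ℂ) * D - A * M) = 0 := by
    rcases mul_eq_zero.mp h9 with h | h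
    · exact absurd h (mul_ne_zero (leadingCoeff_ne_zero.mpr hu0) (leadingCoeff_ne_zero.mpr hp))
    · exact h
  have : ((E * D : ℕ) : ℂ) = ((A * M : ℕ) : ℂ) := by push_cast; linear_combination h10
  exact_mod_cast this

/-- two distinct roots force degree at least two -/
theorem two_le_natDegree {u : ℂ[X]} (hu : u ≠ 0) {μ ν : ℂ} (h : μ ≠ ν) (hμ : u.IsRoot μ)
    (hν : u.IsRoot ν) : 2 ≤ u.natDegree := by
  have h1 : ({μ, ν} : Finset ℂ) ⊆ u.roots.toFinset := by
    intro x hx
    rw [Finset.mem_insert, Finset.mem_singleton] at hx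
    rw [Multiset.mem_toFinset, mem_roots hu]
    rcases hx with rfl | rfl
    · exact hμ
    · exact hν
  calc 2 = ({μ, ν} : Finset ℂ).card := (Finset.card_pair h).symm
    _ ≤ u.roots.toFinset.card := Finset.card_le_card h1
    _ ≤ u.roots.card := Multiset.toFinset_card_le _
    _ ≤ u.natDegree := card_roots' u

/-- averaging: a solution all of whose exponents are `1` modulo `q` -/
theorem Sol.proj {p u : ℂ[X]} {A E : ℕ} {c : ℂ} (hu : Sol p u A E c) (q : ℕ) (hq : 0 < q) (r : ℕ)
    (hr : ∀ j, p.coeff j ≠ 0 → (q : ℤ) ∣ (j : ℤ) - r) :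
    ∃ v : ℂ[X], Sol p v A E c ∧ ∀ j, v.coeff j ≠ 0 → (q : ℤ) ∣ (j : ℤ) - 1 := by
  have hω := Complex.isPrimitiveRoot_exp q hq.ne'
  set ω := Complex.exp (2 * Real.pi * Complex.I / q) with hωdef
  have hω0 : ω ≠ 0 := hω.ne_zero hq.ne'
  have hωr : ∀ j, p.coeff j ≠ 0 → ω ^ j = ω ^ r := by
    intro j hj
    have h1 := hr j hj
    have h2 : (ω : ℂ) ^ ((j : ℤ) - r) = 1 := by
      rw [hω.zpow_eq_one_iff_dvd]; exact h1
    rw [zpow_sub₀ hω0, zpow_natCast, zpow_natCast, div_eq_one_iff_eq (pow_ne_zero _ hω0)] at h2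
    exact h2
  have hcomp : ∀ i : ℕ, p.comp (C (ω ^ i) * X) = C ((ω ^ i) ^ r) * p := by
    intro i
    ext j
    rw [comp_C_mul_X_coeff, coeff_C_mul]
    by_cases hj : p.coeff j = 0
    · rw [hj]; simp
    · have : (ω ^ i) ^ j = (ω ^ i) ^ r := by
        rw [← pow_mul, ← pow_mul, mul_comm i j, mul_comm i r, pow_mul, pow_mul, hωr j hj]
      rw [this]; ring
  set v : ℕ → ℂ[X] := fun i => C (ω ^ i)⁻¹ * u.comp (C (ω ^ i) * X) with hv
  have hvsol : ∀ i, Sol p (v i) A E c := by
    intro i
    have hz : ω ^ i ≠ 0 := pow_ne_zero _ hω0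
    have hz' : (ω ^ i) ^ r ≠ 0 := pow_ne_zero _ hz
    have h1 : derivative (v i) = (derivative u).comp (C (ω ^ i) * X) := by
      simp only [hv]
      rw [derivative_C_mul, derivative_comp, derivative_C_mul, derivative_X, mul_one, ← mul_assoc,
        ← C_mul, inv_mul_cancel₀ hz, C_1, one_mul]
    have h2 : C (ω ^ i) * (derivative p).comp (C (ω ^ i) * X)
        = C ((ω ^ i) ^ r) * derivative p := by
      have := congrArg derivative (hcomp i)
      rw [derivative_comp, derivative_C_mul, derivative_C_mul, derivative_X, mul_one] at this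
      exact this
    have h3 : u.comp (C (ω ^ i) * X) = C (ω ^ i) * v i := by
      simp only [hv]
      rw [← mul_assoc, ← C_mul, mul_inv_cancel₀ hz, C_1, one_mul]
    unfold Sol at hu ⊢
    have h4 := congrArg (fun z => z.comp (C (ω ^ i) * X)) hu
    simp only [add_comp, mul_comp, neg_comp, natCast_comp, C_comp] at h4
    rw [← h1, hcomp i, h3] at h4
    have h5 : C ((ω ^ i) ^ r) * (-(A : ℂ[X]) * derivative (v i) * p
        + (E : ℂ[X]) * derivative p * (v i)) = C ((ω ^ i) ^ r) * (C c * p) := by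
      linear_combination h4 - (E : ℂ[X]) * v i * h2
    exact mul_left_cancel₀ (C_ne_zero.mpr hz') h5
  have hqc : (q : ℂ) ≠ 0 := by exact_mod_cast hq.ne'
  refine ⟨C (q : ℂ)⁻¹ * ∑ i ∈ Finset.range q, v i, ?_, ?_⟩
  · unfold Sol at hvsol ⊢
    have h1 : ∑ i ∈ Finset.range q, (-(A : ℂ[X]) * derivative (v i) * p
        + (E : ℂ[X]) * derivative p * (v i)) = ∑ i ∈ Finset.range q, C c * p :=
      Finset.sum_congr rfl (fun i _ => hvsol i)
    rw [Finset.sum_const, Finset.card_range, nsmul_eq_mul, Finset.sum_add_distrib,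
      ← Finset.mul_sum, ← Finset.sum_mul, ← Finset.mul_sum] at h1
    rw [derivative_C_mul, derivative_sum]
    have h2 : (C (q : ℂ)⁻¹ : ℂ[X]) * (q : ℂ[X]) = 1 := by
      rw [← C_eq_natCast, ← C_mul, inv_mul_cancel₀ hqc, C_1]
    linear_combination C (q : ℂ)⁻¹ * h1 + C c * p * h2
  · intro j hj
    have hzq : ((ω ^ j) * ω⁻¹) ^ q = 1 := by
      rw [mul_pow, inv_pow, ← pow_mul, mul_comm j q, pow_mul, hω.pow_eq_one, one_pow]; simp
    have hco : ∀ i, (v i).coeff j = ((ω ^ j) * ω⁻¹) ^ i * u.coeff j := by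
      intro i
      simp only [hv]
      rw [coeff_C_mul, comp_C_mul_X_coeff, mul_pow, inv_pow, ← pow_mul, ← pow_mul, mul_comm j i]
      ring
    by_cases hz1 : (ω ^ j) * ω⁻¹ = 1
    · have h2 : (ω : ℂ) ^ ((j : ℤ) - 1) = 1 := by
        rw [zpow_sub₀ hω0, zpow_natCast, zpow_one, div_eq_mul_inv]; exact hz1
      rwa [hω.zpow_eq_one_iff_dvd] at h2
    · exfalso
      apply hj
      rw [coeff_C_mul, finsetSum_coeff]
      simp only [hco]
      rw [← Finset.sum_mul, geom_sum_eq hz1, hzq]
      simp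

/-- existence of a polynomial solution at a level -/
theorem exists_sol (P Q : LS[X]) (A E : ℕ) (hA : 0 < A) (c : ℂ) (hc : c ≠ 0)
    (hP : LowB P (-(A : ℤ))) (hP0 : lev (-(A : ℤ)) P ≠ 0)
    (hbr : brB P Q = C (HahnSeries.single (-(E : ℤ)) c)) :
    ∃ u : ℂ[X], Sol (lev (-(A : ℤ)) P) u A E c := by
  have hbr' : br theta (coefD ratD ratD_isDer) (Psi P) (Psi Q)
      = HahnSeries.single (-(E : ℤ)) (toR (C c)) := by
    rw [← Psi_brB, hbr, Psi_C_single]
  obtain ⟨y, hy⟩ := exists_leading ratD ratD_isDer (Psi P) (Psi Q) A E hA (toR (C c))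
    (toR_ne_zero (C_ne_zero.mpr hc)) (by rw [Psi_coeff]; exact toR_ne_zero hP0) hP.low hbr'
  rw [Psi_coeff, ratD_toR] at hy
  exact exists_poly_sol _ hP0 A E hA c y (by simpa using hy)

/-- a polynomial all of whose root multiplicities are divisible by `a` is an `a`-th power -/
theorem exists_power {p : ℂ[X]} (hp : p ≠ 0) {a N : ℕ} (ha : 0 < a) (hdeg : p.natDegree = a * N)
    (hmul : ∀ μ, ∃ N₁, p.rootMultiplicity μ = a * N₁) :
    ∃ R : ℂ[X], R.Monic ∧ R.natDegree = N ∧ p = C p.leadingCoeff * R ^ a := by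
  choose f hf using hmul
  refine ⟨∏ μ ∈ p.roots.toFinset, (X - C μ) ^ (f μ), ?_, ?_, ?_⟩
  · exact monic_prod_of_monic _ _ (fun μ _ => (monic_X_sub_C μ).pow _)
  · have hcard : p.roots.card = p.natDegree :=
      splits_iff_card_roots.mp (IsAlgClosed.splits p)
    rw [natDegree_prod_of_monic _ _ (fun μ _ => (monic_X_sub_C μ).pow _)]
    simp only [natDegree_pow, natDegree_X_sub_C, mul_one]
    apply Nat.eq_of_mul_eq_mul_left ha
    rw [← hdeg, ← hcard, ← Multiset.toFinset_sum_count_eq, Finset.mul_sum]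
    exact Finset.sum_congr rfl (fun μ _ => by rw [count_roots, hf])
  · have h1 : p = C p.leadingCoeff * (p.roots.map (fun μ => X - C μ)).prod :=
      (C_leadingCoeff_mul_prod_multiset_X_sub_C
        (splits_iff_card_roots.mp (IsAlgClosed.splits p))).symm
    conv_lhs => rw [h1]
    congr 1
    rw [Finset.prod_multiset_map_count, ← Finset.prod_pow]
    exact Finset.prod_congr rfl (fun μ _ => by
      rw [count_roots, hf, ← pow_mul, mul_comm])

/-- the degree of a solution is never a multiple of `N` at a nontrivial level -/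
theorem Sol.not_dvd {p u : ℂ[X]} {a d e N : ℕ} {c : ℂ} (hu : Sol p u (a * d) e c) (ha : 0 < a)
    (hd : 0 < d) (he : 0 < e) (hN : 0 < N) (hp : p ≠ 0) (hc : c ≠ 0)
    (hdeg : p.natDegree = a * N)
    (hmul : ∀ μ, ∃ N₁, p.rootMultiplicity μ = a * N₁)
    (hroots : ∃ μ ν, μ ≠ ν ∧ p.IsRoot μ ∧ p.IsRoot ν) : ¬ N ∣ u.natDegree := by
  rintro ⟨t, ht⟩
  obtain ⟨μ, ν, hμν, hμ, hν⟩ := hroots
  have hu0 := hu.ne_zero hp hc
  have hdegp : 1 ≤ p.natDegree := by rw [hdeg]; exact Nat.mul_pos ha hN
  have h2 : 2 ≤ u.natDegree := two_le_natDegree hu0 hμν (hu.root hp hc he.ne' μ hμ).1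
    (hu.root hp hc he.ne' ν hν).1
  have h3 := hu.degree hp hc h2 hdegp
  rw [hdeg, ht] at h3
  have hed : e = d * t := by
    have h4 : (a * N) * e = (a * N) * (d * t) := by
      calc (a * N) * e = e * (a * N) := by ring
        _ = a * d * (N * t) := h3
        _ = (a * N) * (d * t) := by ring
    exact Nat.eq_of_mul_eq_mul_left (Nat.mul_pos ha hN) h4
  have htpos : 0 < t := by
    rcases Nat.eq_zero_or_pos t with h | h
    · rw [h, mul_zero] at hed; omega
    · exact h
  obtain ⟨R, hRm, hRd, hpR⟩ := exists_power hp ha hdeg hmul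
  set lc := p.leadingCoeff with hlc
  set w := R ^ t with hw
  have hwm : w.Monic := hRm.pow t
  have hwd : w.natDegree = N * t := by rw [hw, natDegree_pow, hRd, mul_comm]
  have hwsol : -((a * d : ℕ) : ℂ[X]) * derivative w * p + (e : ℂ[X]) * derivative p * w = 0 := by
    obtain ⟨t', rfl⟩ : ∃ t', t = t' + 1 := ⟨t - 1, by omega⟩
    obtain ⟨a', rfl⟩ : ∃ a', a = a' + 1 := ⟨a - 1, by omega⟩
    have h5 : derivative p = C lc * (((a' + 1 : ℕ) : ℂ[X]) * R ^ a' * derivative R) := by
      conv_lhs => rw [hpR]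
      rw [derivative_C_mul, derivative_pow]
      simp
    have h6 : derivative w = ((t' + 1 : ℕ) : ℂ[X]) * R ^ t' * derivative R := by
      rw [hw, derivative_pow]
      simp
    rw [h5, h6, hed, hw]
    conv_lhs => rw [hpR]
    push_cast
    ring
  set u₂ := u - C u.leadingCoeff * w with hu₂
  have hsol₂ : Sol p u₂ (a * d) e c := by
    unfold Sol at hu ⊢
    rw [hu₂, derivative_sub, derivative_C_mul]
    linear_combination hu - C u.leadingCoeff * hwsol
  have hu₂0 := hsol₂.ne_zero hp hc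
  have h7 : 2 ≤ u₂.natDegree := two_le_natDegree hu₂0 hμν (hsol₂.root hp hc he.ne' μ hμ).1
    (hsol₂.root hp hc he.ne' ν hν).1
  have h8 := hsol₂.degree hp hc h7 hdegp
  rw [hdeg] at h8
  have h9 : u₂.natDegree = N * t := by
    have h10 : (a * d) * u₂.natDegree = (a * d) * (N * t) := by rw [← h8, ← h3]
    exact Nat.eq_of_mul_eq_mul_left (Nat.mul_pos ha hd) h10
  have hlu : u.leadingCoeff ≠ 0 := leadingCoeff_ne_zero.mpr hu0
  have h11 : u₂.degree < u.degree := by
    apply degree_sub_lt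
    · rw [degree_C_mul hlu, degree_eq_natDegree hu0, degree_eq_natDegree hwm.ne_zero, hwd, ht]
    · exact hu0
    · rw [leadingCoeff_mul, leadingCoeff_C, hwm.leadingCoeff, mul_one]
  rw [degree_eq_natDegree hu₂0, degree_eq_natDegree hu0, h9, ht] at h11
  exact lt_irrefl _ h11

end Pool.Agent.Lib.MP_2d59ee_ag


/-! ## Pkg -/

/-! A package of the data found at the first level above a corner. -/


namespace Pool.Agent.Lib.MP_2d59ee_ag

open Polynomial

/-- there is a pair with constant bracket and the given corner -/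
def St (a b N E : ℕ) (α : ℤ) (k : ℚ) : Prop :=
  ∃ (P Q : LS[X]) (c : ℂ), c ≠ 0 ∧ brB P Q = C (HahnSeries.single (-(E : ℤ)) c) ∧
    Corner P a α N k ∧ Corner Q b α N k

/-- the corner at the origin after passing a level -/
theorem zero_corner {c₁ : ℕ} {R : LS[X]} {α α₁ : ℤ} {N N₁ d : ℕ} {k K : ℚ}
    (hkK : k < K) (hR : Corner R c₁ α N k) (hRK : AtLevel R c₁ α N K)
    (hd : (d : ℤ) = K.den * α - K.num * N)
    (hrel : (α₁ : ℚ) - K * N₁ = α - K * N)
    (htop : (R.coeff (c₁ * N₁)).coeff (-(c₁ * α₁)) ≠ 0)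
    (hlow : ∀ j < c₁ * N₁, (lev (-(c₁ * (d : ℤ))) (T0 K.den K.den_pos K.num R)).coeff j = 0) :
    Corner R c₁ α₁ N₁ K := by
  have hnum : (K.num : ℚ) = K * K.den := num_cast K
  have hdQ : (d : ℚ) = K.den * (α - K * N) := by
    have : (d : ℚ) = K.den * α - K.num * N := by exact_mod_cast hd
    rw [this, hnum]; ring
  refine ⟨htop, ?_, ?_⟩
  · intro j hj n hn
    have h1 := all_ge hR hkK hRK j n hn
    have h2 : K * ((c₁ : ℚ) * N₁ - j) - c₁ * α₁ = K * ((c₁ : ℚ) * N - j) - c₁ * α := by
      linear_combination (-(c₁ : ℚ)) * hrel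
    rw [h2]
    refine lt_of_le_of_ne h1 ?_
    intro heq
    have h3 : (K.den : ℤ) * n = -(c₁ * (d : ℤ)) - j * K.num := by
      have : ((K.den : ℚ) * n) = -(c₁ * (d : ℚ)) - j * K.num := by
        rw [← heq, hdQ, hnum]; ring
      exact_mod_cast this
    have h4 := hlow j hj
    rw [lev_coeff, T0_coeff_coeff (m := n) (h := h3)] at h4
    exact hn h4
  · intro j hj n hn
    have h1 := all_ge hR hkK hRK j n hn
    have h2 : K * ((c₁ : ℚ) * N₁ - j) - c₁ * α₁ = K * ((c₁ : ℚ) * N - j) - c₁ * α := by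
      linear_combination (-(c₁ : ℚ)) * hrel
    rw [h2]; exact h1

/-- the corner at a root after a shift -/
theorem shift_corner {c₁ d N₁ : ℕ} {R : LS[X]} (μ : ℂ) (hR : LowB R (-(c₁ * (d : ℤ))))
    (hR0 : lev (-(c₁ * (d : ℤ))) R ≠ 0)
    (hRm : (lev (-(c₁ * (d : ℤ))) R).rootMultiplicity μ = c₁ * N₁) :
    Corner (shift μ R) c₁ d N₁ 0 := by
  have hge : ∀ (j : ℕ) (n : ℤ), ((shift μ R).coeff j).coeff n ≠ 0 →
      -(c₁ * (d : ℤ)) ≤ n := by
    intro j n hn
    by_contra hlt
    push Not at hlt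
    apply hn
    rw [← lev_coeff, lev_shift, hR n hlt]; simp
  refine ⟨?_, ?_, ?_⟩
  · rw [← lev_coeff, lev_shift, ← hRm]
    exact comp_coeff_eq _ hR0 μ
  · intro j hj n hn
    have h1 := hge j n hn
    have h2 : -(c₁ * (d : ℤ)) ≠ n := by
      intro heq
      apply hn
      rw [← lev_coeff, lev_shift, ← heq]
      exact comp_coeff_lt _ hR0 μ j (by rw [hRm]; exact hj)
    have h3 : -(c₁ * (d : ℤ)) < n := lt_of_le_of_ne h1 h2
    have h4 : (-(c₁ * (d : ℚ))) < n := by exact_mod_cast h3
    simpa using h4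
  · intro j _ n hn
    have h1 := hge j n hn
    have h4 : (-(c₁ * (d : ℚ))) ≤ n := by exact_mod_cast h1
    simpa using h4

/-- The final level: arithmetic. -/
theorem final_raw {P Q : LS[X]} {a b : ℕ} {α : ℤ} {N : ℕ} {k K : ℚ} {E : ℕ} {c : ℂ} {d : ℕ}
    (ha : 0 < a) (hb : 0 < b) (hc : c ≠ 0)
    (hbr : brB P Q = C (HahnSeries.single (-(E : ℤ)) c)) (hN : 0 < N)
    (hP : Corner P a α N k) (hQ : Corner Q b α N k) (hkK : k < K)
    (hKP : AtLevel P a α N K) (hKQ : AtLevel Q b α N K)
    (hd : (d : ℤ) = K.den * α - K.num * N)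
    (hfinZ : ((a : ℤ) + b) * d = K.den * E - K.num) :
    ((d : ℤ) * (((a : ℤ) + b) * N - 1) = K.den * (E * N - α)) ∧
      ((K.den ∣ a ∧ K.den ∣ b * N - 1) ∨ (K.den ∣ b ∧ K.den ∣ a * N - 1)) := by
  set q := K.den with hq
  have hqpos : 0 < q := K.den_pos
  set s := K.num with hs
  have hqQ : (0 : ℚ) < q := by exact_mod_cast hqpos
  set P1 := T0 q hqpos s P with hP1
  set Q1 := T0 q hqpos s Q with hQ1
  have hbr1 := brB_T0_single q hqpos s P Q E c hbr
  rw [← hP1, ← hQ1] at hbr1
  have hlP : LowB P1 (-(a * (d : ℤ))) := lowB_T0 hP hkK hKP d hd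
  have hlQ : LowB Q1 (-(b * (d : ℤ))) := lowB_T0 hQ hkK hKQ d hd
  set p := lev (-(a * (d : ℤ))) P1 with hp
  set g := lev (-(b * (d : ℤ))) Q1 with hg
  have hlev := lev_brB hlP hlQ
  rw [hbr1, lev_C_single, if_pos (by linear_combination -hfinZ), ← hp, ← hg] at hlev
  have h0 := congrArg (fun z => z.coeff 0) hlev
  simp only [coeff_sub, mul_coeff_zero, coeff_C_zero, coeff_derivative, zero_add,
    Nat.cast_zero, mul_one] at h0
  have hcop : IsCoprime (q : ℤ) s := by
    rw [Int.isCoprime_iff_nat_coprime]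
    have := K.reduced
    rw [Nat.coprime_comm] at this
    simpa using this
  have hqc : (q : ℂ) * c ≠ 0 := mul_ne_zero (by exact_mod_cast hqpos.ne') hc
  have key : ((q : ℤ) ∣ a ∧ (q : ℤ) ∣ b * N - 1) ∨ ((q : ℤ) ∣ b ∧ (q : ℤ) ∣ a * N - 1) := by
    have haux : ∀ (c₁ : ℕ) (R : LS[X]) (j : ℕ),
        (lev (-(c₁ * (d : ℤ))) (T0 q hqpos s R)).coeff j ≠ 0 → (q : ℤ) ∣ c₁ * N - j := by
      intro c₁ R j hj
      rw [lev_coeff] at hj
      obtain ⟨m, hm, -⟩ := T0_coeff_ne _ _ _ _ _ _ hj
      have h1 : (q : ℤ) ∣ s * (c₁ * N - j) := by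
        refine ⟨m + c₁ * α, ?_⟩
        rw [hd] at hm
        linear_combination -hm
      exact hcop.dvd_of_dvd_mul_left h1
    by_cases hcase : p.coeff 0 * g.coeff 1 = 0
    · right
      have hne : p.coeff 1 * g.coeff 0 ≠ 0 := by
        intro h00
        apply hqc
        push_cast at h0 ⊢
        linear_combination h0 + (-(a * d : ℂ)) * hcase - (-(b * d : ℂ)) * h00
      have e1 := haux a P 1 (left_ne_zero_of_mul hne)
      have e2 := haux b Q 0 (right_ne_zero_of_mul hne)
      push_cast at e1 e2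
      rw [sub_zero] at e2
      refine ⟨?_, e1⟩
      have : (b : ℤ) = a * (b * N) - b * (a * N - 1) := by ring
      rw [this]
      exact dvd_sub (e2.mul_left _) (e1.mul_left _)
    · left
      have e1 := haux a P 0 (left_ne_zero_of_mul hcase)
      have e2 := haux b Q 1 (right_ne_zero_of_mul hcase)
      push_cast at e1 e2
      rw [sub_zero] at e1
      refine ⟨?_, e2⟩
      have : (a : ℤ) = b * (a * N) - a * (b * N - 1) := by ring
      rw [this]
      exact dvd_sub (e1.mul_left _) (e2.mul_left _)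
  have haN : 1 ≤ a * N := Nat.mul_pos ha hN
  have hbN : 1 ≤ b * N := Nat.mul_pos hb hN
  refine ⟨by linear_combination (N : ℤ) * hfinZ - hd, ?_⟩
  rcases key with ⟨h1, h2⟩ | ⟨h1, h2⟩
  · left
    refine ⟨by exact_mod_cast h1, ?_⟩
    zify [hbN]; exact h2
  · right
    refine ⟨by exact_mod_cast h1, ?_⟩
    zify [haN]; exact h2

/-- The package of facts at the next level. -/
structure Pkg (a b N E : ℕ) (α : ℤ) (k K : ℚ) (q d e : ℕ) : Prop where
  hkK : k < K
  hq : 0 < q
  hd : 0 < d
  he : 0 < e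
  heK : (e : ℚ) = q * (E - K)
  hdK : (d : ℚ) = q * (α - K * N)
  hx : (q : ℤ) * (E * N - α) = e * N - d
  cop : IsCoprime (q : ℤ) e

/-- the nonfinal alternative -/
structure PkgN (a b N E : ℕ) (α : ℤ) (K : ℚ) (q d e N₀ : ℕ) : Prop where
  hJ : (e : ℤ) < ((a : ℤ) + b) * d
  hlt : N₀ < N
  hdvd : (q : ℤ) ∣ (N : ℤ) - N₀
  hne : e * N₀ ≠ d
  hzero : 0 < N₀ → ∃ α₀ : ℤ, (α₀ : ℚ) - K * N₀ = α - K * N ∧ St a b N₀ E α₀ K
  hbig : e * N₀ < d → ∃ N₁ : ℕ, q * N₁ ≤ N ∧ d < e * N₁ ∧ St a b N₁ e d 0
  hM : (q = 1 ∧ St a b N e d 0) ∨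
    ∃ j : ℕ, (j : ℤ) * d = E * N - α ∧ ¬ (N ∣ j * q + 1)

theorem level_nums (a b : ℕ) (N E : ℕ) (α : ℤ) (k K : ℚ) (hkK : k < K)
    (hEK : 0 < (E : ℚ) - K) (hΔK : 0 < (α : ℚ) - K * N) :
    ∃ d e₁ : ℕ, (d : ℤ) = K.den * α - K.num * N ∧ (e₁ : ℤ) = K.den * E - K.num ∧
      Pkg a b N E α k K K.den d e₁ := by
  set q := K.den with hq
  have hqpos : 0 < q := K.den_pos
  set s := K.num with hs
  have hqQ : (0 : ℚ) < q := by exact_mod_cast hqpos
  have hnum : (s : ℚ) = K * q := num_cast K
  obtain ⟨d, hd⟩ : ∃ d : ℕ, (d : ℤ) = q * α - s * N := by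
    have h1 : (0 : ℚ) ≤ q * α - s * N := by
      rw [hnum]
      have := mul_pos hqQ hΔK
      nlinarith
    have h2 : (0 : ℤ) ≤ q * α - s * N := by exact_mod_cast h1
    exact ⟨(q * α - s * N).toNat, Int.toNat_of_nonneg h2⟩
  have hdQ : (d : ℚ) = q * (α - K * N) := by
    have : (d : ℚ) = q * α - s * N := by exact_mod_cast hd
    rw [this, hnum]; ring
  have hdpos : 0 < d := by
    have : (0 : ℚ) < d := by rw [hdQ]; exact mul_pos hqQ hΔK
    exact_mod_cast this
  obtain ⟨e₁, he₁⟩ : ∃ e₁ : ℕ, (e₁ : ℤ) = q * E - s := by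
    have h1 : (0 : ℚ) ≤ q * E - s := by
      rw [hnum]
      have := mul_pos hqQ hEK
      nlinarith
    have h2 : (0 : ℤ) ≤ q * E - s := by exact_mod_cast h1
    exact ⟨(q * E - s : ℤ).toNat, Int.toNat_of_nonneg h2⟩
  have he₁Q : (e₁ : ℚ) = q * (E - K) := by
    have : (e₁ : ℚ) = q * E - s := by exact_mod_cast he₁
    rw [this, hnum]; ring
  have he₁pos : 0 < e₁ := by
    have : (0 : ℚ) < e₁ := by rw [he₁Q]; exact mul_pos hqQ hEK
    exact_mod_cast this
  have hcop : IsCoprime (q : ℤ) s := by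
    rw [Int.isCoprime_iff_nat_coprime]
    have := K.reduced
    rw [Nat.coprime_comm] at this
    simpa using this
  have hcop' : IsCoprime (q : ℤ) e₁ := by
    rw [he₁]
    have h1 : IsCoprime (q : ℤ) (-s) := hcop.neg_right
    have h2 := h1.add_mul_left_right (E : ℤ)
    have h3 : (q : ℤ) * E - s = -s + q * E := by ring
    rw [h3]; exact h2
  have hqx : (q : ℤ) * (E * N - α) = e₁ * N - d := by rw [he₁, hd]; ring
  exact ⟨d, e₁, hd, he₁, hkK, hqpos, hdpos, he₁pos, he₁Q, hdQ, hqx, hcop'⟩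

theorem level_core (a b : ℕ) (ha : 0 < a) (hb : 0 < b) (hab : Nat.Coprime a b)
    (N E : ℕ) (α : ℤ) (k K : ℚ) (hN : 0 < N) (P Q : LS[X]) (c : ℂ) (hc : c ≠ 0)
    (hbr : brB P Q = C (HahnSeries.single (-(E : ℤ)) c))
    (hP : Corner P a α N k) (hQ : Corner Q b α N k)
    (hkK : k < K) (hKP : AtLevel P a α N K) (hKQ : AtLevel Q b α N K)
    (hxQ : (α : ℚ) < E * N)
    (hJK : (E : ℚ) - K < ((a : ℚ) + b) * (α - K * N))
    (hAtt : Attained P a α N K ∨ Attained Q b α N K) (d e₁ : ℕ)
    (hd : (d : ℤ) = K.den * α - K.num * N) (he₁ : (e₁ : ℤ) = K.den * E - K.num)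
    (hpkg : Pkg a b N E α k K K.den d e₁) :
    ∃ N₀ : ℕ, PkgN a b N E α K K.den d e₁ N₀ := by
  obtain ⟨-, hqpos, hdpos, he₁pos, he₁Q, hdQ, hqx, -⟩ := hpkg
  set q := K.den with hq
  set s := K.num with hs
  have hqQ : (0 : ℚ) < q := by exact_mod_cast hqpos
  have hnum : (s : ℚ) = K * q := num_cast K
  have hcop : IsCoprime (q : ℤ) s := by
    rw [Int.isCoprime_iff_nat_coprime]
    have := K.reduced
    rw [Nat.coprime_comm] at this
    simpa using this
  have hJZ : (e₁ : ℤ) < ((a : ℤ) + b) * d := by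
    have : (e₁ : ℚ) < ((a : ℚ) + b) * d := by
      rw [he₁Q, hdQ]
      have := mul_lt_mul_of_pos_left hJK hqQ
      linarith
    exact_mod_cast this
  have hxZ : (d : ℤ) < e₁ * N := by
    have : (d : ℚ) < e₁ * N := by
      rw [he₁Q, hdQ]
      have h1 : (α : ℚ) - K * N < ((E : ℚ) - K) * N := by linarith
      have := mul_lt_mul_of_pos_left h1 hqQ
      linarith
    exact_mod_cast this
  set P1 := T0 q hqpos s P with hP1
  set Q1 := T0 q hqpos s Q with hQ1
  have hbr1 := brB_T0_single q hqpos s P Q E c hbr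
  rw [← hP1, ← hQ1, ← he₁] at hbr1
  have hqc : (q : ℂ) * c ≠ 0 := mul_ne_zero (by exact_mod_cast hqpos.ne') hc
  have hlP : LowB P1 (-(a * (d : ℤ))) := lowB_T0 hP hkK hKP d hd
  have hlQ : LowB Q1 (-(b * (d : ℤ))) := lowB_T0 hQ hkK hKQ d hd
  set p := lev (-(a * (d : ℤ))) P1 with hp
  set g := lev (-(b * (d : ℤ))) Q1 with hg
  have hpdeg : p.natDegree = a * N := lev_T0_natDegree hP hkK d hd
  have hgdeg : g.natDegree = b * N := lev_T0_natDegree hQ hkK d hd
  have hptop : p.coeff (a * N) ≠ 0 := lev_T0_top hP d hd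
  have hgtop : g.coeff (b * N) ≠ 0 := lev_T0_top hQ d hd
  have hp0 : p ≠ 0 := by rintro h; rw [h] at hptop; simp at hptop
  have hg0 : g ≠ 0 := by rintro h; rw [h] at hgtop; simp at hgtop
  have hode : C (a : ℂ) * p * derivative g = C (b : ℂ) * derivative p * g := by
    have hlev := lev_brB hlP hlQ
    rw [hbr1, lev_C_single, if_neg (by intro h; linarith), ← hp, ← hg] at hlev
    have hd0 : (C (d : ℂ) : ℂ[X]) ≠ 0 := C_ne_zero.mpr (by exact_mod_cast hdpos.ne')
    apply mul_left_cancel₀ hd0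
    have e1 : (C ((-(a * (d : ℤ)) : ℤ) : ℂ) : ℂ[X]) = -(C (a : ℂ) * C (d : ℂ)) := by
      rw [← C_mul, ← C_neg]; push_cast; rfl
    have e2 : (C ((-(b * (d : ℤ)) : ℤ) : ℂ) : ℂ[X]) = -(C (b : ℂ) * C (d : ℂ)) := by
      rw [← C_mul, ← C_neg]; push_cast; rfl
    rw [e1, e2] at hlev
    linear_combination hlev
  have hAcast : (-((a * d : ℕ) : ℤ)) = -(a * (d : ℤ)) := by push_cast; ring
  have hadpos : 0 < a * d := Nat.mul_pos ha hdpos
  obtain ⟨u, hu⟩ := exists_sol P1 Q1 (a * d) e₁ hadpos (q * c) hqc (by rw [hAcast]; exact hlP)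
    (by rw [hAcast, ← hp]; exact hp0) hbr1
  rw [hAcast, ← hp] at hu
  -- multiplicities
  have hmul : ∀ μ : ℂ, ∃ N₁ : ℕ, p.rootMultiplicity μ = a * N₁ ∧ g.rootMultiplicity μ = b * N₁ := by
    intro μ
    have hmult := mult_prop p g hp0 hg0 a b hode μ
    obtain ⟨N₁, hN₁⟩ : a ∣ p.rootMultiplicity μ :=
      hab.dvd_of_dvd_mul_left (Dvd.intro _ hmult)
    refine ⟨N₁, hN₁, ?_⟩
    rw [hN₁] at hmult
    apply Nat.eq_of_mul_eq_mul_left ha
    rw [hmult]; ring
  have hmulle : ∀ μ : ℂ, p.rootMultiplicity μ ≤ a * N := by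
    intro μ
    rw [← hpdeg, ← count_roots]
    exact (Multiset.count_le_card _ _).trans (card_roots' p)
  have hr : ∀ j, p.coeff j ≠ 0 → (q : ℤ) ∣ (j : ℤ) - (a * N : ℕ) := by
    intro j hj
    have hj' := hj
    rw [hp, lev_coeff] at hj'
    obtain ⟨m, hm, -⟩ := T0_coeff_ne _ _ _ _ _ _ hj'
    have h1 : (q : ℤ) ∣ s * ((j : ℤ) - (a * N : ℕ)) := by
      refine ⟨-m - a * α, ?_⟩
      rw [hd] at hm
      push_cast
      linear_combination hm
    exact hcop.dvd_of_dvd_mul_left h1
  have hrg : ∀ j, g.coeff j ≠ 0 → (q : ℤ) ∣ (j : ℤ) - (b * N : ℕ) := by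
    intro j hj
    have hj' := hj
    rw [hg, lev_coeff] at hj'
    obtain ⟨m, hm, -⟩ := T0_coeff_ne _ _ _ _ _ _ hj'
    have h1 : (q : ℤ) ∣ s * ((j : ℤ) - (b * N : ℕ)) := by
      refine ⟨-m - b * α, ?_⟩
      rw [hd] at hm
      push_cast
      linear_combination hm
    exact hcop.dvd_of_dvd_mul_left h1
  obtain ⟨N₀, hpN₀, hgN₀⟩ := hmul 0
  have habZ : IsCoprime (a : ℤ) b := Nat.isCoprime_iff_coprime.mpr hab
  have hN₀le : N₀ ≤ N := by
    have h1 := hmulle 0
    rw [hpN₀] at h1
    exact Nat.le_of_mul_le_mul_left h1 ha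
  have hN₀lt : N₀ < N := by
    rcases lt_or_eq_of_le hN₀le with h | h
    · exact h
    · exfalso
      subst h
      rcases hAtt with hA | hA
      · obtain ⟨j, hj, hne⟩ := attained_coeff hA d hd
        exact hne (coeff_lt_zero p hp0 j (by rw [hpN₀]; exact hj))
      · obtain ⟨j, hj, hne⟩ := attained_coeff hA d hd
        exact hne (coeff_lt_zero g hg0 j (by rw [hgN₀]; exact hj))
  have hpc0 : p.coeff (a * N₀) ≠ 0 := by rw [← hpN₀]; exact coeff_eq_zero_ne p hp0
  have hgc0 : g.coeff (b * N₀) ≠ 0 := by rw [← hgN₀]; exact coeff_eq_zero_ne g hg0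
  refine ⟨N₀, hJZ, hN₀lt, ?_, ?_, ?_, ?_, ?_⟩
  · -- divisibility
    have h1 := hr _ hpc0
    have h2 := hrg _ hgc0
    obtain ⟨x, y, hxy⟩ := habZ
    have h3 : (N : ℤ) - N₀ = -(x * (((a * N₀ : ℕ) : ℤ) - (a * N : ℕ))
        + y * (((b * N₀ : ℕ) : ℤ) - (b * N : ℕ))) := by
      push_cast
      linear_combination ((N₀ : ℤ) - N) * hxy
    rw [h3]
    exact (dvd_add (h1.mul_left _) (h2.mul_left _)).neg_right
  · -- the multiplicity is never critical
    intro hcrit
    have hN₀pos : 0 < N₀ := by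
      rcases Nat.eq_zero_or_pos N₀ with h | h
      · rw [h] at hcrit; omega
      · exact h
    have hroot : p.IsRoot 0 := by
      rw [← rootMultiplicity_pos hp0, hpN₀]; exact Nat.mul_pos ha hN₀pos
    have h1 := (hu.root hp0 hqc he₁pos.ne' 0 hroot).2
    apply h1
    rw [hpN₀, ← hcrit]; ring
  · -- corner at the origin
    intro _
    have hpN₁ := hpc0
    have hgN₁ := hgc0
    rw [hp, lev_coeff] at hpN₁
    rw [hg, lev_coeff] at hgN₁
    obtain ⟨m₁, hm₁, hm₁'⟩ := T0_coeff_ne _ _ _ _ _ _ hpN₁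
    obtain ⟨m₂, hm₂, hm₂'⟩ := T0_coeff_ne _ _ _ _ _ _ hgN₁
    obtain ⟨α₁, hα₁⟩ : (q : ℤ) ∣ d + s * N₀ := by
      obtain ⟨u, v, huv⟩ := habZ
      refine ⟨-(u * m₁ + v * m₂), ?_⟩
      push_cast at hm₁ hm₂
      linear_combination (-(d + s * N₀ : ℤ)) * huv + u * hm₁ + v * hm₂
    have hq0 : (q : ℤ) ≠ 0 := by exact_mod_cast hqpos.ne'
    have hm₁α : m₁ = -(a * α₁) := by
      apply mul_left_cancel₀ hq0
      push_cast at hm₁
      linear_combination hm₁ - (a : ℤ) * hα₁
    have hm₂α : m₂ = -(b * α₁) := by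
      apply mul_left_cancel₀ hq0
      push_cast at hm₂
      linear_combination hm₂ - (b : ℤ) * hα₁
    have hrel : (α₁ : ℚ) - K * N₀ = α - K * N := by
      have h1 : ((d : ℚ) + s * N₀) = q * α₁ := by exact_mod_cast hα₁
      have : (q : ℚ) * (α₁ - K * N₀) = q * (α - K * N) := by
        rw [← hdQ]
        rw [hnum] at h1
        linear_combination -h1
      exact mul_left_cancel₀ hqQ.ne' this
    refine ⟨α₁, hrel, P, Q, c, hc, hbr, ?_, ?_⟩
    · exact zero_corner hkK hP hKP hd hrel (by rw [← hm₁α]; exact hm₁')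
        (fun j hj => coeff_lt_zero p hp0 j (by rw [hpN₀]; exact hj))
    · exact zero_corner hkK hQ hKQ hd hrel (by rw [← hm₂α]; exact hm₂')
        (fun j hj => coeff_lt_zero g hg0 j (by rw [hgN₀]; exact hj))
  · -- a big nonzero root
    intro hminor
    obtain ⟨μ, hμroot, hμbig⟩ := exists_big_root P1 Q1 (a * d) e₁ hadpos
      (q * c) hqc (by rw [hAcast]; exact hlP) (by rw [hAcast, ← hp]; exact hp0)
      (by
        rw [hAcast, ← hp, hpdeg]
        have h1 : d < e₁ * N := by exact_mod_cast hxZ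
        calc a * d < a * (e₁ * N) := Nat.mul_lt_mul_of_pos_left h1 ha
          _ = e₁ * (a * N) := by ring) hbr1
    rw [hAcast, ← hp] at hμroot hμbig
    obtain ⟨N₁, hN₁, hN₁g⟩ := hmul μ
    have hdN₁ : d < e₁ * N₁ := by
      rw [hN₁] at hμbig
      have : a * d < a * (e₁ * N₁) := by
        calc a * d < e₁ * (a * N₁) := hμbig
          _ = a * (e₁ * N₁) := by ring
      exact Nat.lt_of_mul_lt_mul_left this
    have hμ0 : μ ≠ 0 := by
      rintro rfl
      rw [hpN₀] at hN₁
      have := Nat.eq_of_mul_eq_mul_left ha hN₁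
      subst this
      omega
    have hqN₁ : q * N₁ ≤ N := by
      have h1 := orbit_bound p hp0 q hqpos (a * N) hr μ hμ0
      rw [hN₁, hpdeg] at h1
      have : a * (q * N₁) ≤ a * N := by
        calc a * (q * N₁) = q * (a * N₁) := by ring
          _ ≤ a * N := h1
      exact Nat.le_of_mul_le_mul_left this ha
    refine ⟨N₁, hqN₁, hdN₁, shift μ P1, shift μ Q1, q * c, hqc, ?_, ?_, ?_⟩
    · rw [brB_shift, hbr1, shift, C_comp]
    · exact shift_corner μ hlP hp0 hN₁
    · exact shift_corner μ hlQ hg0 hN₁g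
  · -- the degree of the solution
    by_cases htwo : ∃ μ ν, μ ≠ ν ∧ p.IsRoot μ ∧ p.IsRoot ν
    · right
      obtain ⟨μ, ν, hμν, hμ, hν⟩ := htwo
      obtain ⟨v, hv, hvexp⟩ := hu.proj q hqpos (a * N) hr
      have hv0 := hv.ne_zero hp0 hqc
      have hvμ := (hv.root hp0 hqc he₁pos.ne' μ hμ).1
      have hvν := (hv.root hp0 hqc he₁pos.ne' ν hν).1
      have hdeg2 := two_le_natDegree hv0 hμν hvμ hvν
      have hdegp : 1 ≤ p.natDegree := by
        rw [hpdeg]; exact Nat.mul_pos ha hN
      have hdeg := hv.degree hp0 hqc hdeg2 hdegp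
      have hnd := hv.not_dvd ha hdpos he₁pos hN hp0 hqc hpdeg
        (fun μ => (hmul μ).imp (fun _ h => h.1)) ⟨μ, ν, hμν, hμ, hν⟩
      rw [hpdeg] at hdeg
      have hMd : e₁ * N = d * v.natDegree := by
        apply Nat.eq_of_mul_eq_mul_left ha
        calc a * (e₁ * N) = e₁ * (a * N) := by ring
          _ = a * d * v.natDegree := hdeg
          _ = a * (d * v.natDegree) := by ring
      have hlead := hvexp v.natDegree (by
        rw [coeff_natDegree]; exact leadingCoeff_ne_zero.mpr hv0)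
      obtain ⟨j, hj⟩ := hlead
      have hj0 : 0 ≤ j := by
        have h1 : (0 : ℤ) ≤ q * j := by rw [← hj]; omega
        exact nonneg_of_mul_nonneg_right h1 (by exact_mod_cast hqpos)
      obtain ⟨j', rfl⟩ := Int.eq_ofNat_of_zero_le hj0
      have hMj : v.natDegree = j' * q + 1 := by
        have h1 : (v.natDegree : ℤ) = q * (j' : ℤ) + 1 := by linarith
        have h2 : (v.natDegree : ℤ) = ((j' * q + 1 : ℕ) : ℤ) := by rw [h1]; push_cast; ring
        exact_mod_cast h2
      refine ⟨j', ?_, by rw [← hMj]; exact hnd⟩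
      have hMdZ : (e₁ : ℤ) * N = d * v.natDegree := by exact_mod_cast hMd
      apply mul_left_cancel₀ (show (q : ℤ) ≠ 0 by exact_mod_cast hqpos.ne')
      rw [hqx, hMdZ]
      linear_combination (-(d : ℤ)) * hj
    · left
      push Not at htwo
      have hdegpos : 0 < p.natDegree := by rw [hpdeg]; exact Nat.mul_pos ha hN
      obtain ⟨μ, hμ⟩ := IsAlgClosed.exists_root p (by
        rw [degree_eq_natDegree hp0]; exact_mod_cast hdegpos.ne')
      have hcard : p.roots.card = p.natDegree :=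
        splits_iff_card_roots.mp (IsAlgClosed.splits p)
      have h1 : ∀ ν ∈ p.roots, ν = μ := by
        intro ν hν
        by_contra h
        exact htwo ν μ h (isRoot_of_mem_roots hν) hμ
      have h2 : p.roots = Multiset.replicate p.roots.card μ := Multiset.eq_replicate_card.mpr h1
      have h3 : p.rootMultiplicity μ = a * N := by
        rw [← count_roots, h2, Multiset.count_replicate_self, hcard, hpdeg]
      have hμ0 : μ ≠ 0 := by
        rintro rfl
        rw [hpN₀] at h3
        have := Nat.eq_of_mul_eq_mul_left ha h3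
        omega
      have hq1 : q = 1 := by
        have h4 := orbit_bound p hp0 q hqpos (a * N) hr μ hμ0
        rw [h3, hpdeg] at h4
        have h5 : q * (a * N) ≤ 1 * (a * N) := by rwa [one_mul]
        have := Nat.le_of_mul_le_mul_right h5 (Nat.mul_pos ha hN)
        omega
      refine ⟨hq1, shift μ P1, shift μ Q1, q * c, hqc, ?_, ?_, ?_⟩
      · rw [brB_shift, hbr1, shift, C_comp]
      · exact shift_corner μ hlP hp0 h3
      · obtain ⟨N₁, hN₁, hN₁g⟩ := hmul μ
        have h4 : N₁ = N := by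
          rw [h3] at hN₁
          exact (Nat.eq_of_mul_eq_mul_left ha hN₁).symm
        rw [h4] at hN₁g
        exact shift_corner μ hlQ hg0 hN₁g

theorem level_pkg (a b : ℕ) (ha : 0 < a) (hb : 0 < b) (hab : Nat.Coprime a b)
    (N E : ℕ) (α : ℤ) (k : ℚ) (hN : 0 < N) (hst : St a b N E α k)
    (hΔ : 0 < (α : ℚ) - k * N)
    (hJ : (E : ℚ) - k < ((a : ℚ) + b) * (α - k * N)) (hx : α < E * N) :
    ∃ (K : ℚ) (q d e : ℕ), Pkg a b N E α k K q d e ∧
      (((d : ℤ) * (((a : ℤ) + b) * N - 1) = q * (E * N - α) ∧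
        ((q ∣ a ∧ q ∣ b * N - 1) ∨ (q ∣ b ∧ q ∣ a * N - 1))) ∨
      ∃ N₀ : ℕ, PkgN a b N E α K q d e N₀) := by
  obtain ⟨P, Q, c, hc, hbr, hP, hQ⟩ := hst
  have hNQ : (1 : ℚ) ≤ N := by exact_mod_cast hN
  have haQ : (1 : ℚ) ≤ a := by exact_mod_cast ha
  have hbQ : (1 : ℚ) ≤ b := by exact_mod_cast hb
  have hden : (0 : ℚ) < ((a : ℚ) + b) * N - 1 := by nlinarith
  set κ : ℚ := (((a : ℚ) + b) * α - E) / (((a : ℚ) + b) * N - 1) with hκ
  have hkκ : k < κ := by
    rw [hκ, lt_div_iff₀ hden]; linarith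
  obtain ⟨K, hkK, hKκ, hKP, hKQ, hKcase⟩ := exists_level hP hQ hkκ
  have hKle : (E : ℚ) - K ≤ ((a : ℚ) + b) * (α - K * N) := by
    rw [hκ, le_div_iff₀ hden] at hKκ; linarith
  have hxQ : (α : ℚ) < E * N := by exact_mod_cast hx
  have hEK : 0 < (E : ℚ) - K := by
    by_contra hcon
    push Not at hcon
    have h1 : (α : ℚ) - K * N < ((E : ℚ) - K) * N := by linarith
    have h2 : ((E : ℚ) - K) * N ≤ (E : ℚ) - K := by nlinarith
    have h3 : (α : ℚ) - K * N < 0 := by linarith
    nlinarith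
  have hΔK : 0 < (α : ℚ) - K * N := by
    by_contra hcon
    push Not at hcon
    nlinarith
  obtain ⟨d, e₁, hd, he₁, hpkg⟩ := level_nums a b N E α k K hkK hEK hΔK
  refine ⟨K, K.den, d, e₁, hpkg, ?_⟩
  by_cases hKeq : K = κ
  · left
    apply final_raw ha hb hc hbr hN hP hQ hkK hKP hKQ hd
    have h1 : K * (((a : ℚ) + b) * N - 1) = ((a : ℚ) + b) * α - E := by
      rw [hKeq, hκ, div_mul_cancel₀ _ hden.ne']
    have h2 : (((a : ℤ) + b) * d : ℚ) = K.den * E - K.num := by
      rw [hpkg.hdK, num_cast K]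
      push_cast
      linear_combination (-(K.den : ℚ)) * h1
    exact_mod_cast h2
  right
  have hKlt : K < κ := lt_of_le_of_ne hKκ hKeq
  have hJK : (E : ℚ) - K < ((a : ℚ) + b) * (α - K * N) := by
    rw [hκ, lt_div_iff₀ hden] at hKlt; linarith
  have hAtt : Attained P a α N K ∨ Attained Q b α N K := by
    rcases hKcase with h | h
    · exact absurd h hKeq
    · exact h
  exact level_core a b ha hb hab N E α k K hN P Q c hc hbr hP hQ hkK hKP hKQ hxQ hJK hAtt
    d e₁ hd he₁ hpkg

end Pool.Agent.Lib.MP_2d59ee_ag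

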