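import Mathlib
import Pool.Agent.Lib.MP_2d59ee_ag.Base

set_option autoImplicit false

/-! ## Chain -/

/-! Arithmetic of the descent. -/


namespace Pool.Agent.Lib.MP_2d59ee_ag

open Polynomial

theorem Concl.facts {a b N : ℕ} {x : ℤ} (ha : 2 ≤ a) (hlt : a < b) (h : Concl a b N x) :
    2 ≤ x ∧ (x = 2 → N = 1) := by
  obtain ⟨N', e, x', d, hN, hNn, he, hx, hxn, hstrict, hd, heq, hdiv⟩ := h
  have ha0 : 0 < a := by omega
  have hb0 : 0 < b := by omega
  have heb : e ≤ b := by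
    rcases hdiv with ⟨h1, -⟩ | ⟨h1, -⟩
    · exact (Nat.le_of_dvd ha0 h1).trans hlt.le
    · exact Nat.le_of_dvd hb0 h1
  have hab1 : 1 ≤ (a + b) * N' := Nat.mul_pos (by omega) hN
  have heqZ : (d : ℤ) * (((a : ℤ) + b) * N' - 1) = e * x' := by
    have := congrArg (fun z : ℕ => (z : ℤ)) heq
    push_cast [hab1] at this
    exact this
  have hdZ : (1 : ℤ) ≤ d := by exact_mod_cast hd
  have hNZ : (1 : ℤ) ≤ N' := by exact_mod_cast hN
  have haZ : (2 : ℤ) ≤ a := by exact_mod_cast ha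
  have hbZ : (a : ℤ) + 1 ≤ b := by exact_mod_cast hlt
  have heZ : (e : ℤ) ≤ b := by exact_mod_cast heb
  have hbase : (((a : ℤ) + b) * N' - 1) ≤ e * x' := by
    rw [← heqZ]
    have h1 : (0 : ℤ) ≤ ((a : ℤ) + b) * N' - 1 := by
      have h9 : (1 : ℤ) * 1 ≤ ((a : ℤ) + b) * N' :=
        mul_le_mul (by linarith) hNZ zero_le_one (by linarith)
      linarith
    exact le_mul_of_one_le_left h1 hdZ
  have hkey : (N' : ℤ) + 1 ≤ x' := by
    by_contra hcon
    push Not at hcon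
    have h1 : (e : ℤ) * x' ≤ b * N' := by
      have h2 : (e : ℤ) * x' ≤ b * x' := mul_le_mul_of_nonneg_right heZ (by positivity)
      have h3 : (b : ℤ) * x' ≤ b * N' := mul_le_mul_of_nonneg_left (by linarith) (by linarith)
      linarith
    have h9 : (2 : ℤ) * 1 ≤ a * N' := mul_le_mul haZ hNZ zero_le_one (by linarith)
    linarith
  refine ⟨by linarith, ?_⟩
  intro hx2
  have h1 : N' = 1 := by
    have : (N' : ℤ) ≤ 1 := by linarith
    omega
  rcases lt_or_eq_of_le hNn with h | h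
  · have := hstrict h
    linarith
  · omega

/-- standing conditions for a state of the descent -/
structure Good (a b N E : ℕ) (α : ℤ) (k : ℚ) : Prop where
  hN : 0 < N
  hk : 0 ≤ k
  st : St a b N E α k
  hΔ : 0 < (α : ℚ) - k * N
  hJ : (E : ℚ) - k < ((a : ℚ) + b) * (α - k * N)
  hx : α < E * N

theorem Good.concl {a b N E : ℕ} {α : ℤ} {k : ℚ} (g : Good a b N E α k) (ha : 0 < a) (hb : 0 < b)
    (hab : Nat.Coprime a b) : Concl a b N (E * N - α) := by
  obtain ⟨P, Q, c, hc, hbr, hP, hQ⟩ := g.st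
  exact machine a b ha hb hab N g.hN E P Q α k c hc hbr g.hk hP hQ g.hΔ g.hJ g.hx

/-- a feasible state has `N < x` or a nontrivial common divisor of `N` and `x` -/
theorem good_gcd (a b : ℕ) (ha : 2 ≤ a) (hlt : a < b) (hab : Nat.Coprime a b) (N : ℕ) :
    ∀ (E : ℕ) (α : ℤ) (k : ℚ), Good a b N E α k → ∀ x : ℕ, (x : ℤ) = E * N - α →
      N < x ∨ 1 < Nat.gcd N x := by
  have ha0 : 0 < a := by omega
  have hb0 : 0 < b := by omega
  have haZ : (2 : ℤ) ≤ a := by exact_mod_cast ha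
  have hbZ : (a : ℤ) + 1 ≤ b := by exact_mod_cast hlt
  intro E
  induction E using Nat.strong_induction_on with
  | _ E ih =>
  intro α k g x hx
  obtain ⟨K, q, d, e, hpkg, hcase⟩ := level_pkg a b ha0 hb0 hab N E α k g.hN g.st g.hΔ g.hJ g.hx
  have hqZ : (0 : ℤ) < q := by exact_mod_cast hpkg.hq
  have hdZ : (1 : ℤ) ≤ d := by exact_mod_cast hpkg.hd
  have hNZ : (1 : ℤ) ≤ N := by exact_mod_cast g.hN
  have hqx := hpkg.hx
  rw [← hx] at hqx hcase
  rcases hcase with ⟨hfin, hdiv⟩ | ⟨N₀, hn⟩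
  · left
    have hqb : (q : ℤ) ≤ b := by
      rcases hdiv with ⟨h1, -⟩ | ⟨h1, -⟩
      · have : q ≤ a := Nat.le_of_dvd ha0 h1
        have : (q : ℤ) ≤ a := by exact_mod_cast this
        linarith
      · exact_mod_cast Nat.le_of_dvd hb0 h1
    by_contra hcon
    push Not at hcon
    have hxN : (x : ℤ) ≤ N := by exact_mod_cast hcon
    have h1 : ((a : ℤ) + b) * N - 1 ≤ q * x := by
      rw [← hfin]
      have h2 : (0 : ℤ) ≤ ((a : ℤ) + b) * N - 1 := by
        have h9 : (1 : ℤ) * 1 ≤ ((a : ℤ) + b) * N :=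
          mul_le_mul (by linarith) hNZ zero_le_one (by linarith)
        linarith
      exact le_mul_of_one_le_left h2 hdZ
    have h2 : (q : ℤ) * x ≤ b * N := by
      have h3 : (q : ℤ) * x ≤ b * x := mul_le_mul_of_nonneg_right hqb (Int.natCast_nonneg x)
      have h4 : (b : ℤ) * x ≤ b * N := mul_le_mul_of_nonneg_left (by linarith) (by linarith)
      linarith
    have h9 : (2 : ℤ) * 1 ≤ a * N := mul_le_mul haZ hNZ zero_le_one (by linarith)
    linarith
  · rcases hn.hM with ⟨hq1, hst⟩ | ⟨j, hj, hnd⟩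
    · -- a trivial level
      subst hq1
      have hJQ : (e : ℚ) < ((a : ℚ) + b) * d := by exact_mod_cast hn.hJ
      have hdQ : (0 : ℚ) < d := by exact_mod_cast hpkg.hd
      have heE : e < E := by
        have h1 : (e : ℚ) = E - K := by rw [hpkg.heK]; push_cast; ring
        have h2 : (e : ℚ) < E := by
          rw [h1]
          have := hpkg.hkK
          have := g.hk
          linarith
        exact_mod_cast h2
      have hx' : (x : ℤ) = e * N - d := by
        push_cast at hqx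
        linarith
      have hxpos : (0 : ℤ) < x := by rw [hx]; have := g.hx; linarith
      exact ih e heE d 0 ⟨g.hN, le_rfl, hst, by simpa using hdQ, by simpa using hJQ, by linarith⟩
        x hx'
    · right
      rw [← hx] at hj
      by_contra hcon
      have hg1 : Nat.gcd N x = 1 := by
        have h1 : 0 < Nat.gcd N x := Nat.gcd_pos_of_pos_left _ g.hN
        omega
      apply hnd
      have hα : (α : ℤ) = E * N - x := by linarith
      have h1 : (N : ℤ) ∣ ((j * q + 1 : ℕ) : ℤ) * x := by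
        refine ⟨(j : ℤ) * e, ?_⟩
        push_cast
        linear_combination (j : ℤ) * hqx - hj
      have h2 : N ∣ (j * q + 1) * x := by exact_mod_cast h1
      exact (Nat.Coprime.dvd_mul_right hg1).mp h2

/-- data at the first level of a state with `E - k ≤ 1` -/
structure SL (a b N E : ℕ) (α : ℤ) (k : ℚ) (x : ℕ) (K : ℚ) (q d e j N₀ σ : ℕ) : Prop where
  hkK : k < K
  hq2 : 2 ≤ q
  he : 0 < e
  heq : e < q
  hd : 0 < d
  cop : Nat.Coprime q e
  heK : (e : ℚ) = q * (E - K)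
  hdK : (d : ℚ) = q * (α - K * N)
  hj : j * d = x
  hj0 : 0 < j
  heN : e * N = q * x + d
  hNσ : N = N₀ + q * σ
  hσ : 0 < σ

theorem start_level (a b : ℕ) (ha : 2 ≤ a) (hlt : a < b) (hab : Nat.Coprime a b)
    {N E : ℕ} {α : ℤ} {k : ℚ} (g : Good a b N E α k) (hE1 : (E : ℚ) - k ≤ 1) (x : ℕ)
    (hxx : (x : ℤ) = E * N - α) :
    ∃ (K : ℚ) (q d e j N₀ σ : ℕ), SL a b N E α k x K q d e j N₀ σ ∧
      ((e * N₀ < d ∧ ∃ N₁ x₁ : ℕ, Good a b N₁ e d 0 ∧ N₁ < N ∧ q * N₁ ≤ N ∧ e * N₁ = d + x₁ ∧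
          2 ≤ x₁ ∧ (x₁ = 2 → N₁ = 1) ∧ (N₁ < x₁ ∨ 1 < Nat.gcd N₁ x₁)) ∨
       (d < e * N₀ ∧ N₀ < N ∧ ∃ (α₀ : ℤ) (x' : ℕ), Good a b N₀ E α₀ K ∧
          (x' : ℤ) = E * N₀ - α₀ ∧ (α₀ : ℚ) - K * N₀ = α - K * N ∧ e * N₀ = q * x' + d ∧
          x = x' + e * σ ∧ (N₀ < x' ∨ 1 < Nat.gcd N₀ x'))) := by
  have ha0 : 0 < a := by omega
  have hb0 : 0 < b := by omega
  have haZ : (2 : ℤ) ≤ a := by exact_mod_cast ha
  have hbZ : (a : ℤ) + 1 ≤ b := by exact_mod_cast hlt
  obtain ⟨K, q, d, e, hpkg, hcase⟩ := level_pkg a b ha0 hb0 hab N E α k g.hN g.st g.hΔ g.hJ g.hx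
  have hqQ : (0 : ℚ) < q := by exact_mod_cast hpkg.hq
  have hqZ : (0 : ℤ) < q := by exact_mod_cast hpkg.hq
  have heQ : (0 : ℚ) < e := by exact_mod_cast hpkg.he
  have hdQ : (0 : ℚ) < d := by exact_mod_cast hpkg.hd
  have heZ : (1 : ℤ) ≤ e := by exact_mod_cast hpkg.he
  have hdZ : (1 : ℤ) ≤ d := by exact_mod_cast hpkg.hd
  have hNQ : (0 : ℚ) < N := by exact_mod_cast g.hN
  have hNZ : (1 : ℤ) ≤ N := by exact_mod_cast g.hN
  have heK := hpkg.heK
  have hdK := hpkg.hdK
  have hkK := hpkg.hkK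
  have hqx := hpkg.hx
  rw [← hxx] at hqx hcase
  have hxpos : (0 : ℤ) < x := by rw [hxx]; have := g.hx; linarith
  have heltq : (e : ℤ) < q := by
    have h1 : (e : ℚ) < q := by
      rw [heK]
      have : (E : ℚ) - K < 1 := by linarith
      calc (q : ℚ) * (E - K) < q * 1 := mul_lt_mul_of_pos_left this hqQ
        _ = q := mul_one _
    exact_mod_cast h1
  have hq2 : 2 ≤ q := by
    have : (2 : ℤ) ≤ q := by linarith
    exact_mod_cast this
  rcases hcase with ⟨hfin, hdiv⟩ | ⟨N₀, hn⟩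
  · exfalso
    have hqb : (q : ℤ) ≤ b := by
      rcases hdiv with ⟨h1, -⟩ | ⟨h1, -⟩
      · have : q ≤ a := Nat.le_of_dvd ha0 h1
        have : (q : ℤ) ≤ a := by exact_mod_cast this
        linarith
      · exact_mod_cast Nat.le_of_dvd hb0 h1
    have hxN : (x : ℤ) + 1 ≤ N := by
      have h1 : (q : ℤ) * x < q * N := by
        rw [hqx]
        have : (e : ℤ) * N ≤ q * N := mul_le_mul_of_nonneg_right heltq.le (by linarith)
        linarith
      have := lt_of_mul_lt_mul_left h1 hqZ.le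
      linarith
    have h1 : ((a : ℤ) + b) * N - 1 ≤ q * x := by
      rw [← hfin]
      have h2 : (0 : ℤ) ≤ ((a : ℤ) + b) * N - 1 := by
        have h9 : (1 : ℤ) * 1 ≤ ((a : ℤ) + b) * N :=
          mul_le_mul (by linarith) hNZ zero_le_one (by linarith)
        linarith
      exact le_mul_of_one_le_left h2 hdZ
    have h2 : (q : ℤ) * x ≤ b * (N - 1) := by
      have h3 : (q : ℤ) * x ≤ b * x := mul_le_mul_of_nonneg_right hqb hxpos.le
      have h4 : (b : ℤ) * x ≤ b * (N - 1) := mul_le_mul_of_nonneg_left (by linarith) (by linarith)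
      linarith
    have h9 : (2 : ℤ) * 1 ≤ a * N := mul_le_mul haZ hNZ zero_le_one (by linarith)
    linarith
  · have hN₀lt : (N₀ : ℤ) < N := by exact_mod_cast hn.hlt
    have hJZ : (e : ℚ) < ((a : ℚ) + b) * d := by exact_mod_cast hn.hJ
    have heN : e * N = q * x + d := by
      have h1 : ((e * N : ℕ) : ℤ) = ((q * x + d : ℕ) : ℤ) := by push_cast; linarith
      exact_mod_cast h1
    obtain ⟨σ', hσ'⟩ := hn.hdvd
    have hσ'pos : 0 < σ' := by
      have h1 : 0 < (q : ℤ) * σ' := by rw [← hσ']; linarith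
      exact (mul_pos_iff_of_pos_left hqZ).mp h1
    obtain ⟨σ, rfl⟩ := Int.eq_ofNat_of_zero_le hσ'pos.le
    have hσ : 0 < σ := by exact_mod_cast hσ'pos
    have hNσ : N = N₀ + q * σ := by
      have h1 : (N : ℤ) = ((N₀ + q * σ : ℕ) : ℤ) := by push_cast; linarith
      exact_mod_cast h1
    obtain ⟨j, hj, hnd⟩ : ∃ j : ℕ, (j : ℤ) * d = E * N - α ∧ ¬ (N ∣ j * q + 1) := by
      rcases hn.hM with ⟨hq1, -⟩ | h
      · omega
      · exact h
    rw [← hxx] at hj
    have hjx : j * d = x := by exact_mod_cast hj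
    have hj0 : 0 < j := by
      rcases Nat.eq_zero_or_pos j with h | h
      · rw [h, zero_mul] at hjx
        rw [← hjx] at hxpos
        simp at hxpos
      · exact h
    refine ⟨K, q, d, e, j, N₀, σ, ⟨hkK, hq2, hpkg.he, by exact_mod_cast heltq, hpkg.hd,
      Nat.isCoprime_iff_coprime.mp hpkg.cop, heK, hdK, hjx, hj0, heN, hNσ, hσ⟩, ?_⟩
    rcases lt_or_gt_of_ne hn.hne with hmin | hmaj
    · left
      obtain ⟨N₁, hqN₁, hdN₁, hst₁⟩ := hn.hbig hmin
      have hN₁pos : 0 < N₁ := by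
        rcases Nat.eq_zero_or_pos N₁ with h | h
        · rw [h] at hdN₁; omega
        · exact h
      have hN₁lt : N₁ < N := by
        have : 2 * N₁ ≤ N := (Nat.mul_le_mul_right N₁ hq2).trans hqN₁
        omega
      have hg₁ : Good a b N₁ e d 0 := ⟨hN₁pos, le_rfl, hst₁, by simpa using hdQ,
        by simpa using hJZ, by exact_mod_cast hdN₁⟩
      obtain ⟨x₁, hx₁⟩ : ∃ x₁ : ℕ, e * N₁ = d + x₁ := ⟨e * N₁ - d, by omega⟩
      have hx₁Z : (x₁ : ℤ) = (e : ℕ) * N₁ - (d : ℤ) := by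
        have : ((e * N₁ : ℕ) : ℤ) = ((d + x₁ : ℕ) : ℤ) := by rw [hx₁]
        push_cast at this ⊢
        linarith
      obtain ⟨h2, h3⟩ := (hg₁.concl ha0 hb0 hab).facts ha hlt
      rw [← hx₁Z] at h2 h3
      exact ⟨hmin, N₁, x₁, hg₁, hN₁lt, hqN₁, hx₁, by exact_mod_cast h2,
        fun h => h3 (by exact_mod_cast h),
        good_gcd a b ha hlt hab N₁ e d 0 hg₁ x₁ hx₁Z⟩
    · right
      have hN₀pos : 0 < N₀ := by
        rcases Nat.eq_zero_or_pos N₀ with h | h
        · rw [h] at hmaj; omega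
        · exact h
      obtain ⟨α₀, hrel, hst₀⟩ := hn.hzero hN₀pos
      have hmajQ : (d : ℚ) < e * N₀ := by exact_mod_cast hmaj
      have hα₀ : α₀ < E * N₀ := by
        have h1 : (q : ℚ) * (α₀ - K * N₀) < q * ((E - K) * N₀) := by
          rw [hrel, ← hdK]
          have : (q : ℚ) * ((E - K) * N₀) = e * N₀ := by rw [heK]; ring
          rw [this]; exact hmajQ
        have h2 := lt_of_mul_lt_mul_left h1 hqQ.le
        have h3 : (α₀ : ℚ) < E * N₀ := by linarith
        exact_mod_cast h3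
      have hΔ₀ : 0 < (α₀ : ℚ) - K * N₀ := by
        rw [hrel]
        by_contra hcon
        push Not at hcon
        have h9 : (d : ℚ) ≤ 0 := by
          rw [hdK]; exact mul_nonpos_of_nonneg_of_nonpos hqQ.le hcon
        have h10 : (0 : ℚ) < d := by exact_mod_cast hpkg.hd
        linarith
      have hJ₀ : (E : ℚ) - K < ((a : ℚ) + b) * (α₀ - K * N₀) := by
        rw [hrel]
        have h1 : (q : ℚ) * (E - K) < q * (((a : ℚ) + b) * (α - K * N)) := by
          rw [← heK]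
          have : (q : ℚ) * (((a : ℚ) + b) * (α - K * N)) = ((a : ℚ) + b) * d := by
            rw [hdK]; ring
          rw [this]; exact hJZ
        exact lt_of_mul_lt_mul_left h1 hqQ.le
      have hg₀ : Good a b N₀ E α₀ K := ⟨hN₀pos, by have := g.hk; linarith, hst₀, hΔ₀, hJ₀, hα₀⟩
      obtain ⟨x', hx'⟩ : ∃ x' : ℕ, (x' : ℤ) = E * N₀ - α₀ :=
        ⟨(E * N₀ - α₀ : ℤ).toNat, Int.toNat_of_nonneg (by linarith)⟩
      have heN₀Q : ((e * N₀ : ℕ) : ℚ) = ((q * x' + d : ℕ) : ℚ) := by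
        have h1 : (x' : ℚ) = E * N₀ - α₀ := by exact_mod_cast hx'
        push_cast
        rw [heK, hdK, h1, ← hrel]; ring
      have heN₀ : e * N₀ = q * x' + d := by exact_mod_cast heN₀Q
      have hxx' : x = x' + e * σ := by
        have h1 : q * x = q * (x' + e * σ) := by
          have h2 : e * N = e * N₀ + e * (q * σ) := by rw [hNσ]; ring
          rw [heN, heN₀] at h2
          have h3 : q * (x' + e * σ) = q * x' + e * (q * σ) := by ring
          omega
        exact Nat.eq_of_mul_eq_mul_left hpkg.hq h1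
      exact ⟨hmaj, hn.hlt, α₀, x', hg₀, hx', hrel, heN₀, hxx',
        good_gcd a b ha hlt hab N₀ E α₀ K hg₀ x' hx'⟩

end Pool.Agent.Lib.MP_2d59ee_ag


/-! ## Chain2 -/

/-! Consequences for states with `E - k ≤ 1`. -/


namespace Pool.Agent.Lib.MP_2d59ee_ag

/-- elementary consequence of the minor zero root -/
theorem minor_bound {N q d e N₀ σ x : ℕ} (heN : e * N = q * x + d) (hNσ : N = N₀ + q * σ)
    (hmin : e * N₀ < d) : q + e * N₀ ≤ d := by
  have h1 : e * N₀ + q * (e * σ) = q * x + d := by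
    rw [← heN, hNσ]; ring
  by_contra hcon
  push Not at hcon
  rcases le_or_gt (e * σ) x with h | h
  · have : q * (e * σ) ≤ q * x := Nat.mul_le_mul_left q h
    omega
  · have h2 : q * (x + 1) ≤ q * (e * σ) := Nat.mul_le_mul_left q h
    rw [Nat.mul_add, Nat.mul_one] at h2
    omega

theorem slack_gt_one (a b : ℕ) (ha : 2 ≤ a) (hlt : a < b) (hab : Nat.Coprime a b) :
    ∀ N : ℕ, ∀ (E : ℕ) (α : ℤ) (k : ℚ), Good a b N E α k → (E : ℚ) - k ≤ 1 →
      1 < (α : ℚ) - k * N := by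
  intro N
  induction N using Nat.strong_induction_on with
  | _ N ih =>
  intro E α k g hE1
  obtain ⟨x, hx⟩ : ∃ x : ℕ, (x : ℤ) = E * N - α :=
    ⟨(E * N - α : ℤ).toNat, Int.toNat_of_nonneg (by have := g.hx; linarith)⟩
  obtain ⟨K, q, d, e, j, N₀, σ, s, hcase⟩ := start_level a b ha hlt hab g hE1 x hx
  have hqQ : (0 : ℚ) < q := by have := s.hq2; exact_mod_cast (by omega : 0 < q)
  have hNQ : (0 : ℚ) < N := by exact_mod_cast g.hN
  have hkK := s.hkK
  have hkey : 1 ≤ (α : ℚ) - K * N := by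
    rcases hcase with ⟨hmin, -⟩ | ⟨-, hlt₀, α₀, x', g₀, -, hrel, -⟩
    · have h1 := minor_bound s.heN s.hNσ hmin
      have h2 : (q : ℚ) ≤ d := by exact_mod_cast (by omega : q ≤ d)
      rw [s.hdK] at h2
      have h3 : (q : ℚ) * 1 ≤ q * (α - K * N) := by linarith
      exact le_of_mul_le_mul_left h3 hqQ
    · have h1 := ih N₀ hlt₀ E α₀ K g₀ (by linarith)
      rw [hrel] at h1
      exact h1.le
  have : k * N < K * N := mul_lt_mul_of_pos_right hkK hNQ
  linarith

/-- `q ≤ d` at the first level -/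
theorem q_le_d {a b : ℕ} (ha : 2 ≤ a) (hlt : a < b) (hab : Nat.Coprime a b)
    {N E : ℕ} {α : ℤ} {k : ℚ} {x : ℕ} {K : ℚ} {q d e j N₀ σ : ℕ} (hE1 : (E : ℚ) - k ≤ 1)
    (s : SL a b N E α k x K q d e j N₀ σ)
    (hcase : ((e * N₀ < d ∧ ∃ N₁ x₁ : ℕ, Good a b N₁ e d 0 ∧ N₁ < N ∧ q * N₁ ≤ N ∧
          e * N₁ = d + x₁ ∧ 2 ≤ x₁ ∧ (x₁ = 2 → N₁ = 1) ∧ (N₁ < x₁ ∨ 1 < Nat.gcd N₁ x₁)) ∨
       (d < e * N₀ ∧ N₀ < N ∧ ∃ (α₀ : ℤ) (x' : ℕ), Good a b N₀ E α₀ K ∧
          (x' : ℤ) = E * N₀ - α₀ ∧ (α₀ : ℚ) - K * N₀ = α - K * N ∧ e * N₀ = q * x' + d ∧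
          x = x' + e * σ ∧ (N₀ < x' ∨ 1 < Nat.gcd N₀ x')))) : q ≤ d := by
  rcases hcase with ⟨hmin, -⟩ | ⟨-, hlt₀, α₀, x', g₀, -, hrel, -⟩
  · have h1 := minor_bound s.heN s.hNσ hmin
    omega
  · have h1 := slack_gt_one a b ha hlt hab N₀ E α₀ K g₀ (by have := s.hkK; linarith)
    rw [hrel] at h1
    have hqQ : (0 : ℚ) < q := by have := s.hq2; exact_mod_cast (by omega : 0 < q)
    have h2 : (q : ℚ) * 1 < q * (α - K * N) := mul_lt_mul_of_pos_left h1 hqQ
    rw [← s.hdK, mul_one] at h2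
    exact_mod_cast h2.le

/-- bounds valid for all states with `E - k ≤ 1` -/
theorem main_bounds (a b : ℕ) (ha : 2 ≤ a) (hlt : a < b) (hab : Nat.Coprime a b) :
    ∀ N : ℕ, ∀ (E : ℕ) (α : ℤ) (k : ℚ), Good a b N E α k → (E : ℚ) - k ≤ 1 →
      ∀ x : ℕ, (x : ℤ) = E * N - α →
      8 ≤ x ∧ 2 * N ≤ x * (x + 1) ∧ (2 : ℚ) < x * (E - k) := by
  intro N
  induction N using Nat.strong_induction_on with
  | _ N ih =>
  intro E α k g hE1 x hx
  obtain ⟨K, q, d, e, j, N₀, σ, s, hcase⟩ := start_level a b ha hlt hab g hE1 x hx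
  obtain ⟨hkK, hq2, he, heq, hd, cop, heK, hdK, hj, hj0, heN, hNσ, hσ⟩ := s
  have hqQ : (0 : ℚ) < q := by exact_mod_cast (by omega : 0 < q)
  rcases hcase with ⟨hmin, N₁, x₁, g₁, hN₁N, hqN₁, hx₁, hx₁2, hx₁N, hgcd⟩ |
    ⟨hmaj, hlt₀, α₀, x', g₀, hx', hrel, heN₀, hxx', hgcd⟩
  · have hqd := minor_bound heN hNσ hmin
    have hx₁Z : (x₁ : ℤ) = e * N₁ - (d : ℤ) := by
      have h1 : ((e * N₁ : ℕ) : ℤ) = ((d + x₁ : ℕ) : ℤ) := by rw [hx₁]
      push_cast at h1
      linarith
    -- q (d + x₁) ≤ q x + d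
    have hqx₁ : q * (d + x₁) ≤ q * x + d := by
      rw [← hx₁, ← heN]
      calc q * (e * N₁) = e * (q * N₁) := by ring
        _ ≤ e * N := Nat.mul_le_mul_left e hqN₁
    have hone : e = 1 → 8 ≤ x₁ := by
      intro he1
      subst he1
      exact (ih N₁ hN₁N 1 d 0 g₁ (by norm_num) x₁ hx₁Z).1
    have hqd' : q ≤ d := by omega
    have hx₁x : q * x₁ + q * d ≤ q * x + d := by
      have : q * (d + x₁) = q * x₁ + q * d := by ring
      omega
    have hdx : d ≤ x := by
      rw [← hj]; exact Nat.le_mul_of_pos_left d hj0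
    have hjcase : (2 * d ≤ x) ∨ (d = x ∧ q * x₁ ≤ x) := by
      rcases Nat.lt_or_ge 1 j with h | h
      · left
        rw [← hj]
        exact Nat.mul_le_mul_right d h
      · right
        have hj1 : j = 1 := by omega
        rw [hj1, one_mul] at hj
        refine ⟨hj, ?_⟩
        rw [hj] at hx₁x
        omega
    have h2q : 2 * q ≤ x := by
      rcases hjcase with h | ⟨h1, h2⟩
      · omega
      · have h3 : q * 2 ≤ q * x₁ := Nat.mul_le_mul_left q hx₁2
        omega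
    have h8 : 8 ≤ x := by
      rcases Nat.lt_or_ge 1 e with he2 | he1
      · by_contra hcon
        push Not at hcon
        rcases hjcase with h | ⟨h1, h2⟩
        · have hd3 : d ≤ 3 := by omega
          have hq3 : q = 3 := by omega
          have hd3' : d = 3 := by omega
          have he2' : e = 2 := by omega
          subst hq3 hd3' he2'
          have hN₀ : N₀ = 0 := by omega
          subst hN₀
          have hx6 : x = 6 := by omega
          subst hx6
          omega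
        · have hx₁' : x₁ = 2 := by
            have h3 : 3 * x₁ ≤ q * x₁ := Nat.mul_le_mul_right x₁ (by omega)
            omega
          have h4 := hx₁N hx₁'
          rw [h4, hx₁'] at hx₁
          omega
      · have he1' : e = 1 := by omega
        have h9 := hone he1'
        have h10 : d ≤ q * d := Nat.le_mul_of_pos_left d (by omega)
        have h11 : q * x₁ ≤ q * x := by omega
        have h12 : x₁ ≤ x := Nat.le_of_mul_le_mul_left h11 (by omega)
        omega
    refine ⟨h8, ?_, ?_⟩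
    · rcases hjcase with h | ⟨h1, h2⟩
      · have h3 : e * N ≤ d * (x + 1) := by
          rw [heN, Nat.mul_add, Nat.mul_one]
          have h9 : q * x ≤ d * x := Nat.mul_le_mul_right x hqd'
          omega
        have h4 : N ≤ e * N := Nat.le_mul_of_pos_left N he
        have h5 : 2 * d * (x + 1) ≤ x * (x + 1) := Nat.mul_le_mul_right (x + 1) h
        have h6 : 2 * d * (x + 1) = 2 * (d * (x + 1)) := by ring
        omega
      · have h3 : e * N = (q + 1) * x := by rw [heN, h1]; ring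
        rcases Nat.lt_or_ge 1 e with he2 | he1
        · have h4 : 2 * N ≤ e * N := Nat.mul_le_mul_right N he2
          have h5 : (q + 1) * x ≤ (x + 1) * x := Nat.mul_le_mul_right x (by omega)
          rw [Nat.mul_comm x (x + 1)]
          omega
        · have he1' : e = 1 := by omega
          have h5 := hone he1'
          rw [he1', one_mul] at h3
          have h6 : 8 * q ≤ x := by
            have h9 : q * 8 ≤ q * x₁ := Nat.mul_le_mul_left q h5
            omega
          have h7 : 2 * (q + 1) * x ≤ (x + 1) * x := Nat.mul_le_mul_right x (by omega)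
          have h9 : 2 * (q + 1) * x = 2 * ((q + 1) * x) := by ring
          rw [Nat.mul_comm x (x + 1)]
          omega
    · have h1 : (2 : ℚ) * q ≤ x := by exact_mod_cast h2q
      have h2 : (e : ℚ) < q * (E - k) := by
        rw [heK]; apply mul_lt_mul_of_pos_left _ hqQ; linarith
      have h3 : (1 : ℚ) ≤ e := by exact_mod_cast he
      have h4 : (0 : ℚ) < (E : ℚ) - k := by
        by_contra hcon
        push Not at hcon
        have h9 : (q : ℚ) * (E - k) ≤ 0 := mul_nonpos_of_nonneg_of_nonpos hqQ.le hcon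
        linarith
      have h9 := mul_le_mul_of_nonneg_right h1 h4.le
      linarith
  · obtain ⟨h8, hN₀x, hx'E⟩ := ih N₀ hlt₀ E α₀ K g₀ (by linarith) x' hx'
    have hEK : 0 < (E : ℚ) - K := by
      have h1 : (0 : ℚ) < e := by exact_mod_cast he
      rw [heK] at h1
      exact (mul_pos_iff_of_pos_left hqQ).mp h1
    have hx'e : 2 * q < x' * e := by
      have h1 : (2 : ℚ) * q < x' * e := by
        rw [heK]
        have := mul_lt_mul_of_pos_right hx'E hqQ
        linarith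
      exact_mod_cast h1
    have hx'x : x' ≤ x := by omega
    refine ⟨by omega, ?_, ?_⟩
    · rw [hNσ]
      have h1 : 2 * q * σ ≤ x' * e * σ := Nat.mul_le_mul_right σ hx'e.le
      have h2 : x' * (x' + 1) + x' * e * σ = x' * (x + 1) := by rw [hxx']; ring
      have h3 : x' * (x + 1) ≤ x * (x + 1) := Nat.mul_le_mul_right _ hx'x
      have h4 : 2 * (N₀ + q * σ) = 2 * N₀ + 2 * q * σ := by ring
      omega
    · have h1 : (x' : ℚ) ≤ x := by exact_mod_cast hx'x
      have h2 : (x' : ℚ) * (E - K) ≤ x * (E - K) := mul_le_mul_of_nonneg_right h1 hEK.le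
      have h3 : (x : ℚ) * (E - K) ≤ x * (E - k) :=
        mul_le_mul_of_nonneg_left (by linarith) (by positivity)
      linarith

/-- the states with `x = 8` -/
theorem eight_states (a b : ℕ) (ha : 2 ≤ a) (hlt : a < b) (hab : Nat.Coprime a b)
    (N E : ℕ) (α : ℤ) (k : ℚ) (g : Good a b N E α k) (hE1 : (E : ℚ) - k ≤ 1)
    (hx : ((8 : ℕ) : ℤ) = E * N - α) : N = 12 ∧ (3 : ℚ) < 4 * (E - k) := by
  obtain ⟨K, q, d, e, j, N₀, σ, s, hcase⟩ := start_level a b ha hlt hab g hE1 8 hx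
  obtain ⟨hkK, hq2, he, heq, hd, cop, heK, hdK, hj, hj0, heN, hNσ, hσ⟩ := s
  have hqQ : (0 : ℚ) < q := by exact_mod_cast (by omega : 0 < q)
  rcases hcase with ⟨hmin, N₁, x₁, g₁, hN₁N, hqN₁, hx₁, hx₁2, hx₁N, hgcd⟩ |
    ⟨hmaj, hlt₀, α₀, x', g₀, hx', hrel, heN₀, hxx', hgcd⟩
  · have hqd := minor_bound heN hNσ hmin
    have hx₁Z : (x₁ : ℤ) = e * N₁ - (d : ℤ) := by
      have h1 : ((e * N₁ : ℕ) : ℤ) = ((d + x₁ : ℕ) : ℤ) := by rw [hx₁]
      push_cast at h1
      linarith
    have hqx₁ : q * (d + x₁) ≤ q * 8 + d := by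
      rw [← hx₁, ← heN]
      calc q * (e * N₁) = e * (q * N₁) := by ring
        _ ≤ e * N := Nat.mul_le_mul_left e hqN₁
    have he2 : 2 ≤ e := by
      by_contra hcon
      have he1 : e = 1 := by omega
      subst he1
      have h8 := (main_bounds a b ha hlt hab N₁ 1 d 0 g₁ (by norm_num) x₁ hx₁Z).1
      have hd8 : d ≤ 8 := by
        rw [← hj]; exact Nat.le_mul_of_pos_left d hj0
      have hqd1 : q ≤ d := by omega
      have h9 : q * (d + x₁) = q * d + q * x₁ := by ring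
      have h10 : q * 8 ≤ q * x₁ := Nat.mul_le_mul_left q h8
      have h11 : 2 * d ≤ q * d := Nat.mul_le_mul_right d hq2
      omega
    have hq3 : 3 ≤ q := by omega
    have hd8 : d ≤ 8 := by
      rw [← hj]; exact Nat.le_mul_of_pos_left d hj0
    have hddvd : d ∣ 8 := ⟨j, by rw [← hj]; ring⟩
    have hd48 : d = 4 ∨ d = 8 := by
      have : 3 ≤ d := by omega
      interval_cases d <;> simp_all
    rcases hd48 with h | h
    · subst h
      have hq4 : q = 3 ∨ q = 4 := by omega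
      rcases hq4 with h | h
      · subst h
        have he2' : e = 2 := by omega
        subst he2'
        omega
      · subst h
        have he3 : e = 3 := by
          have : e = 2 ∨ e = 3 := by omega
          rcases this with h | h
          · subst h; revert cop; decide
          · exact h
        subst he3
        refine ⟨by omega, ?_⟩
        have : ((3 : ℕ) : ℚ) = (4 : ℕ) * ((E : ℚ) - K) := heK
        push_cast at this
        linarith
    · exfalso
      subst h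
      have h2 : x₁ = 2 := by
        have h9 : 3 * x₁ ≤ q * x₁ := Nat.mul_le_mul_right x₁ hq3
        have h10 : q * (8 + x₁) = q * 8 + q * x₁ := by ring
        omega
      have h3 := hx₁N h2
      rw [h3, h2] at hx₁
      omega
  · exfalso
    have h8 := (main_bounds a b ha hlt hab N₀ E α₀ K g₀ (by linarith) x' hx').1
    have : 0 < e * σ := Nat.mul_pos he hσ
    omega

theorem ne_ten (a b : ℕ) (ha : 2 ≤ a) (hlt : a < b) (hab : Nat.Coprime a b)
    (N E : ℕ) (α : ℤ) (k : ℚ) (g : Good a b N E α k) (hE1 : (E : ℚ) - k ≤ 1)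
    (hx : ((10 : ℕ) : ℤ) = E * N - α) : False := by
  obtain ⟨K, q, d, e, j, N₀, σ, s, hcase⟩ := start_level a b ha hlt hab g hE1 10 hx
  obtain ⟨hkK, hq2, he, heq, hd, cop, heK, hdK, hj, hj0, heN, hNσ, hσ⟩ := s
  have hqQ : (0 : ℚ) < q := by exact_mod_cast (by omega : 0 < q)
  have hddvd : d ∣ 10 := ⟨j, by rw [← hj]; ring⟩
  have hd10 : d ≤ 10 := Nat.le_of_dvd (by norm_num) hddvd
  rcases hcase with ⟨hmin, N₁, x₁, g₁, hN₁N, hqN₁, hx₁, hx₁2, hx₁N, hgcd⟩ |
    ⟨hmaj, hlt₀, α₀, x', g₀, hx', hrel, heN₀, hxx', hgcd⟩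
  · have hqd := minor_bound heN hNσ hmin
    have hx₁Z : (x₁ : ℤ) = e * N₁ - (d : ℤ) := by
      have h1 : ((e * N₁ : ℕ) : ℤ) = ((d + x₁ : ℕ) : ℤ) := by rw [hx₁]
      push_cast at h1
      linarith
    have hqx₁ : q * (d + x₁) ≤ q * 10 + d := by
      rw [← hx₁, ← heN]
      calc q * (e * N₁) = e * (q * N₁) := by ring
        _ ≤ e * N := Nat.mul_le_mul_left e hqN₁
    have hd3 : d = 2 ∨ d = 5 ∨ d = 10 := by
      have : 2 ≤ d := by omega
      interval_cases d <;> simp_all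
    have hone : e = 1 → 8 ≤ x₁ ∧ (x₁ = 8 → N₁ = 12) := by
      intro he1
      subst he1
      refine ⟨(main_bounds a b ha hlt hab N₁ 1 d 0 g₁ (by norm_num) x₁ hx₁Z).1, ?_⟩
      intro h8
      subst h8
      exact (eight_states a b ha hlt hab N₁ 1 d 0 g₁ (by norm_num) hx₁Z).1
    rcases hd3 with h | h | h
    · -- d = 2
      subst h
      have hq : q = 2 := by omega
      subst hq
      have he1 : e = 1 := by omega
      obtain ⟨h8, h12⟩ := hone he1
      subst he1
      have hN₁ : N₁ = 2 + x₁ := by omega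
      have hx₁' : x₁ = 8 ∨ x₁ = 9 := by omega
      rcases hx₁' with h | h
      · have := h12 h
        omega
      · subst h
        subst hN₁
        revert hgcd; decide
    · -- d = 5
      subst h
      have he2 : 2 ≤ e := by
        by_contra hcon
        have he1 : e = 1 := by omega
        have h8 := (hone he1).1
        have h9 : q * (5 + x₁) = q * 5 + q * x₁ := by ring
        have h10 : q * 8 ≤ q * x₁ := Nat.mul_le_mul_left q h8
        omega
      have hq : q = 3 ∨ q = 4 ∨ q = 5 := by omega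
      rcases hq with h | h | h
      · subst h
        have he2' : e = 2 := by omega
        subst he2'
        omega
      · subst h
        have he3 : e = 2 ∨ e = 3 := by omega
        rcases he3 with h | h
        · subst h; omega
        · subst h; omega
      · subst h
        have he3 : e = 2 ∨ e = 3 ∨ e = 4 := by omega
        rcases he3 with h | h | h
        · subst h; omega
        · subst h; omega
        · subst h; omega
    · -- d = 10
      subst h
      have he2 : 2 ≤ e := by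
        by_contra hcon
        have he1 : e = 1 := by omega
        have h8 := (hone he1).1
        have h9 : q * (10 + x₁) = q * 10 + q * x₁ := by ring
        have h10 : q * 8 ≤ q * x₁ := Nat.mul_le_mul_left q h8
        omega
      have hq3 : 3 ≤ q := by omega
      have hqx : q * x₁ ≤ 10 := by
        have : q * (10 + x₁) = q * 10 + q * x₁ := by ring
        omega
      have h3x : 3 * x₁ ≤ q * x₁ := Nat.mul_le_mul_right x₁ hq3
      have hx₁' : x₁ = 2 ∨ x₁ = 3 := by omega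
      rcases hx₁' with h | h
      · have h3 := hx₁N h
        rw [h3, h] at hx₁
        omega
      · subst h
        have hq : q = 3 := by omega
        subst hq
        have he2' : e = 2 := by omega
        subst he2'
        omega
  · obtain ⟨h8, -, hx'E⟩ := main_bounds a b ha hlt hab N₀ E α₀ K g₀ (by linarith) x' hx'
    have heσ : 0 < e * σ := Nat.mul_pos he hσ
    have hx'9 : x' = 8 ∨ x' = 9 := by omega
    rcases hx'9 with h | h
    · subst h
      obtain ⟨-, h34⟩ := eight_states a b ha hlt hab N₀ E α₀ K g₀ (by linarith) hx'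
      have h34' : 3 * q < 4 * e := by
        have : (3 : ℚ) * q < 4 * e := by
          rw [heK]
          have := mul_lt_mul_of_pos_right h34 hqQ
          linarith
        exact_mod_cast this
      have hle : e ≤ 2 := by
        have : e ≤ e * σ := Nat.le_mul_of_pos_right e hσ
        omega
      omega
    · subst h
      have he1 : e = 1 := by
        have : e ≤ e * σ := Nat.le_mul_of_pos_right e hσ
        omega
      subst he1
      have h3 : 1 < Nat.gcd N₀ 9 := by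
        rcases hgcd with h | h
        · exfalso
          omega
        · exact h
      have h5 : ¬ (3 ∣ N₀) := by
        intro h3N
        have h6 : 3 ∣ d := by
          have h7 : N₀ = q * 9 + d := by omega
          rw [h7] at h3N
          have h8' : 3 ∣ q * 9 := ⟨q * 3, by ring⟩
          exact (Nat.dvd_add_right h8').mp h3N
        obtain ⟨t, ht⟩ := h6
        obtain ⟨u, hu⟩ := hddvd
        have : (3 : ℕ) ∣ 10 := ⟨t * u, by rw [hu, ht]; ring⟩
        revert this; decide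
      have h6 : Nat.Coprime N₀ 9 := by
        have h7 : Nat.Coprime 3 N₀ := (Nat.Prime.coprime_iff_not_dvd Nat.prime_three).mpr h5
        have h8' : Nat.Coprime (3 ^ 2) N₀ := Nat.Coprime.pow_left 2 h7
        exact h8'.symm
      rw [Nat.Coprime] at h6
      omega

theorem not_prime (a b : ℕ) (ha : 2 ≤ a) (hlt : a < b) (hab : Nat.Coprime a b)
    (N E : ℕ) (α : ℤ) (k : ℚ) (g : Good a b N E α k) (hE1 : (E : ℚ) - k ≤ 1) (x : ℕ)
    (hx : (x : ℤ) = E * N - α) : ¬ x.Prime := by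
  intro hp
  obtain ⟨K, q, d, e, j, N₀, σ, s, hcase⟩ := start_level a b ha hlt hab g hE1 x hx
  have hqd := q_le_d ha hlt hab hE1 s hcase
  obtain ⟨hkK, hq2, he, heq, hd, cop, heK, hdK, hj, hj0, heN, hNσ, hσ⟩ := s
  have hdx : d = x := by
    have h1 : d ∣ x := ⟨j, by rw [← hj]; ring⟩
    rcases (Nat.dvd_prime hp).mp h1 with h | h
    · omega
    · exact h
  subst hdx
  have hkey : ∀ n y : ℕ, 1 < Nat.gcd n y → (∃ u v : ℕ, u * n = v * y + d) → 0 < y → y < d →
      False := by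
    intro n y hg huv hy hyd
    obtain ⟨u, v, huv⟩ := huv
    obtain ⟨r, hr, hrg⟩ := Nat.exists_prime_and_dvd (by omega : Nat.gcd n y ≠ 1)
    have hrn : r ∣ n := hrg.trans (Nat.gcd_dvd_left _ _)
    have hry : r ∣ y := hrg.trans (Nat.gcd_dvd_right _ _)
    have hrd : r ∣ d := by
      have h1 : r ∣ v * y + d := by rw [← huv]; exact hrn.mul_left u
      exact (Nat.dvd_add_right (hry.mul_left v)).mp h1
    have hrd' : r = d := by
      rcases (Nat.dvd_prime hp).mp hrd with h | h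
      · exact absurd h hr.one_lt.ne'
      · exact h
    rw [hrd'] at hry
    have := Nat.le_of_dvd hy hry
    omega
  rcases hcase with ⟨hmin, N₁, x₁, g₁, hN₁N, hqN₁, hx₁, hx₁2, hx₁N, hgcd⟩ |
    ⟨hmaj, hlt₀, α₀, x', g₀, hx', hrel, heN₀, hxx', hgcd⟩
  · have hqx₁ : q * (d + x₁) ≤ q * d + d := by
      rw [← hx₁, ← heN]
      calc q * (e * N₁) = e * (q * N₁) := by ring
        _ ≤ e * N := Nat.mul_le_mul_left e hqN₁
    have hqx₁' : q * x₁ ≤ d := by
      have : q * (d + x₁) = q * d + q * x₁ := by ring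
      omega
    have hx₁d : x₁ < d := by
      have h9 : 2 * x₁ ≤ q * x₁ := Nat.mul_le_mul_right x₁ hq2
      omega
    have hN₁x₁ : x₁ ≤ N₁ := by
      by_contra hcon
      push Not at hcon
      have h1 : e * N₁ ≤ e * x₁ := Nat.mul_le_mul_left e hcon.le
      have h2 : e * x₁ ≤ q * x₁ := Nat.mul_le_mul_right x₁ heq.le
      omega
    have hg : 1 < Nat.gcd N₁ x₁ := by
      rcases hgcd with h | h
      · omega
      · exact h
    exact hkey N₁ x₁ hg ⟨e, 1, by rw [hx₁]; ring⟩ (by omega) hx₁d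
  · have h8 := (main_bounds a b ha hlt hab N₀ E α₀ K g₀ (by linarith) x' hx').1
    have heσ : 0 < e * σ := Nat.mul_pos he hσ
    have hx'N₀ : x' ≤ N₀ := by
      by_contra hcon
      push Not at hcon
      have h1 : e * N₀ ≤ e * x' := Nat.mul_le_mul_left e hcon.le
      have h2 : e * x' ≤ q * x' := Nat.mul_le_mul_right x' heq.le
      omega
    have hg : 1 < Nat.gcd N₀ x' := by
      rcases hgcd with h | h
      · omega
      · exact h
    exact hkey N₀ x' hg ⟨e, q, heN₀⟩ (by omega) (by omega)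

end Pool.Agent.Lib.MP_2d59ee_ag


/-! ## Init -/

/-! From a pair of plane polynomials to the initial corner of the descent. -/


namespace Pool.Agent.Lib.MP_2d59ee_ag

open Polynomial

/-- the substitution `x = 1/t`, `y = (X - 1)/t`. -/
noncomputable def Phi : MvPolynomial (Fin 2) ℂ →+* LS[X] :=
  MvPolynomial.eval₂Hom ((C : LS →+* LS[X]).comp (HahnSeries.C : ℂ →+* LS))
    ![C (tm (-1)), (X - 1) * C (tm (-1))]

theorem Phi_C (c : ℂ) : Phi (MvPolynomial.C c) = C (HahnSeries.C c) := by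
  rw [Phi, MvPolynomial.coe_eval₂Hom, MvPolynomial.eval₂_C]; rfl

theorem Phi_X0 : Phi (MvPolynomial.X 0) = C (tm (-1)) := by
  rw [Phi, MvPolynomial.coe_eval₂Hom, MvPolynomial.eval₂_X]; rfl

theorem Phi_X1 : Phi (MvPolynomial.X 1) = (X - 1) * C (tm (-1)) := by
  rw [Phi, MvPolynomial.coe_eval₂Hom, MvPolynomial.eval₂_X]; rfl

theorem der_Phi {D : LS[X] → LS[X]} (hD : IsDer D) (hc : ∀ c : ℂ, D (C (HahnSeries.C c)) = 0)
    (F : MvPolynomial (Fin 2) ℂ) :
    D (Phi F) = Phi (MvPolynomial.pderiv 0 F) * D (Phi (MvPolynomial.X 0))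
      + Phi (MvPolynomial.pderiv 1 F) * D (Phi (MvPolynomial.X 1)) := by
  induction F using MvPolynomial.induction_on with
  | C c => rw [Phi_C, hc, MvPolynomial.pderiv_C, MvPolynomial.pderiv_C, map_zero]; ring
  | add p q hp hq =>
    rw [map_add, hD.add, hp, hq, map_add, map_add, map_add, map_add]; ring
  | mul_X p i hp =>
    rw [map_mul, hD.mul, hp, MvPolynomial.pderiv_mul, MvPolynomial.pderiv_mul]
    fin_cases i
    · simp only [Fin.zero_eta, Fin.isValue, MvPolynomial.pderiv_X_self, map_add, map_mul, map_one,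
        MvPolynomial.pderiv_X_of_ne (show (0 : Fin 2) ≠ 1 by decide), map_zero]
      ring
    · simp only [Fin.mk_one, Fin.isValue, MvPolynomial.pderiv_X_self, map_add, map_mul, map_one,
        MvPolynomial.pderiv_X_of_ne (show (1 : Fin 2) ≠ 0 by decide), map_zero]
      ring

theorem thetaB_C (a : LS) : thetaB (C a) = C (theta a) := by
  ext1 j
  rw [thetaB_coeff, coeff_C, coeff_C]
  split_ifs
  · rfl
  · exact theta_zero

theorem thetaB_X : thetaB (X : LS[X]) = 0 := by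
  ext1 j
  rw [thetaB_coeff, coeff_X]
  split_ifs
  · rw [theta_isDer.one]; simp
  · rw [theta_zero]; simp

theorem theta_tm (s : ℤ) : theta (tm s) = (s : LS) * tm s := by
  have h := theta_mul_tm 1 s
  rw [one_mul, theta_isDer.one, zero_mul, zero_add] at h
  exact h

theorem brB_Phi (F G : MvPolynomial (Fin 2) ℂ) :
    brB (Phi F) (Phi G) = Phi (MvPolynomial.pderiv 0 F * MvPolynomial.pderiv 1 G
      - MvPolynomial.pderiv 1 F * MvPolynomial.pderiv 0 G) * (-C (tm (-2))) := by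
  have h1 : ∀ c : ℂ, thetaB (C (HahnSeries.C c)) = 0 := by
    intro c; rw [thetaB_C, theta_C, C_0]
  have h2 : ∀ c : ℂ, derivative (C (HahnSeries.C c) : LS[X]) = 0 := fun c => derivative_C
  rw [brB, br, der_Phi thetaB_isDer h1, der_Phi thetaB_isDer h1 G, der_Phi deriv_isDer h2 F,
    der_Phi deriv_isDer h2 G, Phi_X0, Phi_X1]
  have h3 : thetaB (C (tm (-1))) = - C (tm (-1)) := by
    rw [thetaB_C, theta_tm, ← C_neg]; congr 1; push_cast; exact neg_one_mul _
  have h4 : thetaB ((X - 1) * C (tm (-1))) = - ((X - 1) * C (tm (-1))) := by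
    rw [thetaB_isDer.mul, h3, thetaB_isDer.sub, thetaB_X, thetaB_isDer.one]; ring
  have h5 : derivative ((X - 1) * C (tm (-1))) = C (tm (-1)) := by
    rw [derivative_mul, derivative_C, derivative_sub, derivative_X, derivative_one]; ring
  have h6 : (C (tm (-2)) : LS[X]) = C (tm (-1)) * C (tm (-1)) := by
    rw [← C_mul, ← pow_two, tm_pow]; norm_num
  rw [h3, h4, h5, derivative_C, h6, map_sub, map_mul, map_mul]
  ring1

theorem brB_Phi_const (F G : MvPolynomial (Fin 2) ℂ) (c : ℂ)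
    (h : MvPolynomial.pderiv 0 F * MvPolynomial.pderiv 1 G
      - MvPolynomial.pderiv 1 F * MvPolynomial.pderiv 0 G = MvPolynomial.C c) :
    brB (Phi F) (Phi G) = C (HahnSeries.single (-((2 : ℕ) : ℤ)) (-c)) := by
  have h1 : (C (HahnSeries.C c) : LS[X]) * (-C (tm (-2))) = -C (HahnSeries.C c * tm (-2)) := by
    rw [C_mul]; ring_nf
  have h2 : (HahnSeries.C c * tm (-2) : LS) = HahnSeries.single (-2) c := by
    rw [HahnSeries.C_apply, tm, HahnSeries.single_mul_single]; norm_num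
  have h3 : (HahnSeries.single (-((2 : ℕ) : ℤ)) (-c) : LS) = -HahnSeries.single (-2) c := by
    ext n
    by_cases hn : n = -2
    · subst hn; simp
    · have hn' : n ≠ -((2 : ℕ) : ℤ) := by simpa using hn
      rw [HahnSeries.coeff_single_of_ne hn', HahnSeries.coeff_neg,
        HahnSeries.coeff_single_of_ne hn, neg_zero]
  rw [brB_Phi, h, Phi_C, h1, h2, h3, C_neg]

/-- evaluation at `(1, X - 1)` -/
noncomputable def evH : MvPolynomial (Fin 2) ℂ →+* ℂ[X] :=
  MvPolynomial.eval₂Hom C ![1, X - 1]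

theorem aux_pow {R : Type*} [CommRing R] (c t x : R) (i j : ℕ) :
    c * t ^ i * (x * t) ^ j = c * (t ^ i * t ^ j) * x ^ j := by
  rw [mul_pow]; ring

theorem monomial_split (d : Fin 2 →₀ ℕ) (c : ℂ) :
    MvPolynomial.monomial d c = MvPolynomial.C c * MvPolynomial.X 0 ^ (d 0)
      * MvPolynomial.X 1 ^ (d 1) := by
  rw [MvPolynomial.monomial_eq, Finsupp.prod_fintype]
  · rw [Fin.prod_univ_two, mul_assoc]
  · intro i; simp

theorem evH_monomial (d : Fin 2 →₀ ℕ) (c : ℂ) :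
    evH (MvPolynomial.monomial d c) = C c * (X - 1) ^ (d 1) := by
  rw [evH, MvPolynomial.coe_eval₂Hom, MvPolynomial.eval₂_monomial, Finsupp.prod_fintype]
  · rw [Fin.prod_univ_two]; simp
  · intro i; simp

theorem Phi_monomial (d : Fin 2 →₀ ℕ) (c : ℂ) :
    Phi (MvPolynomial.monomial d c) = C (HahnSeries.C c * tm (-((d 0 + d 1 : ℕ) : ℤ)))
      * (X - 1) ^ (d 1) := by
  rw [monomial_split, map_mul, map_mul, map_pow, map_pow, Phi_C, Phi_X0, Phi_X1]
  have h1 : (C (tm (-1)) : LS[X]) ^ (d 0) = C (tm ((d 0 : ℤ) * -1)) := by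
    rw [← C_pow, tm_pow]
  have h2 : (C (tm (-1)) : LS[X]) ^ (d 1) = C (tm ((d 1 : ℤ) * -1)) := by
    rw [← C_pow, tm_pow]
  have h3 : tm (-((d 0 + d 1 : ℕ) : ℤ)) = tm ((d 0 : ℤ) * -1) * tm ((d 1 : ℤ) * -1) := by
    rw [tm, tm, tm, HahnSeries.single_mul_single, mul_one]
    congr 1
    push_cast; ring
  rw [h3, C_mul, C_mul, ← h1, ← h2]
  exact aux_pow (R := LS[X]) _ _ _ _ _

theorem lev_add (n : ℤ) (p q : LS[X]) : lev n (p + q) = lev n p + lev n q := by
  ext j; simp [lev_coeff]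

theorem lev_Phi_monomial (n : ℤ) (d : Fin 2 →₀ ℕ) (c : ℂ) :
    lev n (Phi (MvPolynomial.monomial d c))
      = if n = -((d 0 + d 1 : ℕ) : ℤ) then C c * (X - 1) ^ (d 1) else 0 := by
  have h1 : Phi (MvPolynomial.monomial d c)
      = C (HahnSeries.single (-((d 0 + d 1 : ℕ) : ℤ)) c) *
        ((X - 1 : ℂ[X]) ^ (d 1)).map (HahnSeries.C : ℂ →+* LS) := by
    rw [Phi_monomial]
    congr 1
    · rw [tm, HahnSeries.C_apply, HahnSeries.single_mul_single, zero_add, mul_one]
    · simp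
  rw [h1]
  ext i
  rw [lev_coeff, coeff_C_mul, coeff_map]
  have h2 : ∀ (x : LS) (r : ℂ), (x * HahnSeries.C r).coeff n = x.coeff n * r :=
    fun x r => HahnSeries.coeff_mul_single_zero
  rw [h2]
  split_ifs with h
  · rw [h, HahnSeries.coeff_single_same, coeff_C_mul]
  · rw [HahnSeries.coeff_single_of_ne h, zero_mul, coeff_zero]

theorem degree_fin2 (d : Fin 2 →₀ ℕ) : d.degree = d 0 + d 1 := by
  rw [Finsupp.degree_eq_sum, Fin.sum_univ_two]

theorem lev_Phi (D : ℕ) (F : MvPolynomial (Fin 2) ℂ) :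
    lev (-(D : ℤ)) (Phi F) = evH (MvPolynomial.homogeneousComponent D F) := by
  induction F using MvPolynomial.induction_on' with
  | add p q hp hq => rw [map_add, lev_add, map_add, map_add, hp, hq]
  | monomial d c =>
    rw [lev_Phi_monomial]
    have hmem : (MvPolynomial.monomial d c) ∈
        MvPolynomial.homogeneousSubmodule (Fin 2) ℂ (d 0 + d 1) := by
      rw [MvPolynomial.mem_homogeneousSubmodule]
      exact MvPolynomial.isHomogeneous_monomial _ (degree_fin2 d)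
    rw [MvPolynomial.homogeneousComponent_of_mem hmem]
    by_cases h : D = d 0 + d 1
    · rw [if_pos (by rw [h]), if_pos h, evH_monomial]
    · rw [if_neg (by intro h'; apply h; exact_mod_cast neg_injective h'), if_neg h, map_zero]

theorem lev_Phi_nonneg (n : ℤ) (hn : 0 < n) (F : MvPolynomial (Fin 2) ℂ) :
    lev n (Phi F) = 0 := by
  induction F using MvPolynomial.induction_on' with
  | add p q hp hq => rw [map_add, lev_add, hp, hq, add_zero]
  | monomial d c =>
    rw [lev_Phi_monomial, if_neg]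
    omega

/-- the polynomial of homogeneous degree `D` restricted to the line -/
theorem evH_hom (D : ℕ) (F : MvPolynomial (Fin 2) ℂ) :
    evH (MvPolynomial.homogeneousComponent D F)
      = (∑ d ∈ F.support with d.degree = D, monomial (d 1) (F.coeff d)).comp (X - 1) := by
  have h1 : ∀ p : ℂ[X], p.comp (X - 1) = compRingHom (X - 1) p := fun p => rfl
  rw [MvPolynomial.homogeneousComponent_apply, map_sum, h1, map_sum]
  refine Finset.sum_congr rfl ?_
  intro d _
  rw [evH_monomial, ← h1, monomial_comp]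

theorem LowB_Phi (F : MvPolynomial (Fin 2) ℂ) (D : ℕ) (hF : ∀ d ∈ F.support, d 0 + d 1 ≤ D) :
    LowB (Phi F) (-(D : ℤ)) := by
  intro n hn
  obtain ⟨k, hk⟩ : ∃ k : ℕ, n = -(k : ℤ) := ⟨(-n).toNat, by omega⟩
  subst hk
  rw [lev_Phi, evH_hom]
  have : (F.support.filter (fun d => d.degree = k)) = ∅ := by
    rw [Finset.filter_eq_empty_iff]
    intro d hd hdeg
    have := hF d hd
    rw [degree_fin2] at hdeg
    omega
  rw [this]; simp

theorem evH_natDegree_le (D N : ℕ) (F : MvPolynomial (Fin 2) ℂ) (hF : ∀ d ∈ F.support, d 1 ≤ N) :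
    (evH (MvPolynomial.homogeneousComponent D F)).natDegree ≤ N := by
  rw [evH_hom, natDegree_comp]
  have h1 : (X - 1 : ℂ[X]).natDegree = 1 := by
    rw [← C_1]; exact natDegree_X_sub_C 1
  rw [h1, mul_one]
  apply natDegree_sum_le_of_forall_le
  intro d hd
  rw [Finset.mem_filter] at hd
  exact (natDegree_monomial_le _).trans (hF d hd.1)

theorem evH_ne_zero (m n : ℕ) (F : MvPolynomial (Fin 2) ℂ) (d : Fin 2 →₀ ℕ) (h0 : d 0 = m)
    (h1 : d 1 = n) (hd : F.coeff d ≠ 0) :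
    evH (MvPolynomial.homogeneousComponent (m + n) F) ≠ 0 := by
  rw [evH_hom]
  intro h
  have h2 : (∑ d ∈ F.support with d.degree = m + n, monomial (d 1) (F.coeff d) : ℂ[X]) = 0 := by
    have h3 := congrArg (fun p => p.comp (X + 1 : ℂ[X])) h
    simp only [comp_assoc, sub_comp, X_comp, one_comp, add_sub_cancel_right, comp_X,
      zero_comp] at h3
    exact h3
  have h3 := congrArg (fun p => p.coeff n) h2
  simp only [finsetSum_coeff, coeff_monomial, coeff_zero] at h3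
  rw [Finset.sum_eq_single d] at h3
  · rw [if_pos h1] at h3
    exact hd h3
  · intro e he hne
    rw [Finset.mem_filter, degree_fin2] at he
    rw [if_neg]
    intro he1
    apply hne
    ext i
    fin_cases i
    · simp only [Fin.zero_eta, Fin.isValue]; omega
    · simp only [Fin.mk_one, Fin.isValue]; omega
  · intro hnot
    exfalso
    apply hnot
    rw [Finset.mem_filter, degree_fin2, MvPolynomial.mem_support_iff]
    exact ⟨hd, by omega⟩

end Pool.Agent.Lib.MP_2d59ee_ag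


/-! ## Hull -/

/-! Newton polygons and the final assembly. -/


namespace Pool.Agent.Lib.MP_2d59ee_ag

open Polynomial

theorem hull_supp (F : MvPolynomial (Fin 2) ℂ) (m n : ℕ)
    (h : convexHull ℝ (insert ((0:ℝ), (0:ℝ))
        ((fun d : Fin 2 →₀ ℕ => ((d 0 : ℝ), (d 1 : ℝ))) '' (↑F.support : Set (Fin 2 →₀ ℕ))))
        = {p : ℝ × ℝ | 0 ≤ p.2 ∧ p.2 ≤ (n : ℝ) ∧ 0 ≤ p.1 ∧ p.1 ≤ (m : ℝ) + (n : ℝ) - p.2}) :
    ∀ d ∈ F.support, d 1 ≤ n ∧ d 0 + d 1 ≤ m + n := by
  intro d hd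
  have h1 : ((d 0 : ℝ), (d 1 : ℝ)) ∈ convexHull ℝ (insert ((0:ℝ), (0:ℝ))
        ((fun d : Fin 2 →₀ ℕ => ((d 0 : ℝ), (d 1 : ℝ))) '' (↑F.support : Set (Fin 2 →₀ ℕ)))) :=
    subset_convexHull ℝ _ (Set.mem_insert_of_mem _ ⟨d, hd, rfl⟩)
  rw [h] at h1
  obtain ⟨-, h2, -, h3⟩ := h1
  simp only at h2 h3
  refine ⟨by exact_mod_cast h2, ?_⟩
  have h4 : ((d 0 : ℝ) + d 1) ≤ m + n := by linarith
  exact_mod_cast h4

theorem hull_vertex (F : MvPolynomial (Fin 2) ℂ) (m n : ℕ) (hn : 0 < n)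
    (h : convexHull ℝ (insert ((0:ℝ), (0:ℝ))
        ((fun d : Fin 2 →₀ ℕ => ((d 0 : ℝ), (d 1 : ℝ))) '' (↑F.support : Set (Fin 2 →₀ ℕ))))
        = {p : ℝ × ℝ | 0 ≤ p.2 ∧ p.2 ≤ (n : ℝ) ∧ 0 ≤ p.1 ∧ p.1 ≤ (m : ℝ) + (n : ℝ) - p.2}) :
    ∃ d : Fin 2 →₀ ℕ, d 0 = m ∧ d 1 = n ∧ F.coeff d ≠ 0 := by
  by_contra hcon
  push Not at hcon
  set S : Set (ℝ × ℝ) := insert ((0:ℝ), (0:ℝ))
        ((fun d : Fin 2 →₀ ℕ => ((d 0 : ℝ), (d 1 : ℝ))) '' (↑F.support : Set (Fin 2 →₀ ℕ)))
    with hS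
  have hnR : (0 : ℝ) < n := by exact_mod_cast hn
  have hmR : (0 : ℝ) ≤ m := Nat.cast_nonneg m
  have h1 : S ⊆ {p : ℝ × ℝ | p.1 + 2 * p.2 < m + 2 * n} := by
    intro p hp
    rcases hp with rfl | ⟨d, hd, rfl⟩
    · simp only [Set.mem_ofPred_eq]; linarith
    · simp only [Set.mem_ofPred_eq]
      have h2 := hull_supp F m n h d hd
      have hne : ¬ (d 0 = m ∧ d 1 = n) := by
        rintro ⟨h3, h4⟩
        exact (MvPolynomial.mem_support_iff.mp hd) (hcon d h3 h4)
      have h5 : d 0 + 2 * d 1 < m + 2 * n := by omega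
      exact_mod_cast h5
  have h2 : Convex ℝ {p : ℝ × ℝ | p.1 + 2 * p.2 < m + 2 * n} := by
    apply convex_halfSpace_lt (f := fun p : ℝ × ℝ => p.1 + 2 * p.2)
    constructor
    · intro x y; simp only [Prod.fst_add, Prod.snd_add]; ring
    · intro c x; simp only [Prod.smul_fst, Prod.smul_snd, smul_eq_mul]; ring
  have h3 := convexHull_min h1 h2
  rw [h] at h3
  have h4 : ((m : ℝ), (n : ℝ)) ∈ {p : ℝ × ℝ | 0 ≤ p.2 ∧ p.2 ≤ (n : ℝ) ∧ 0 ≤ p.1 ∧
      p.1 ≤ (m : ℝ) + (n : ℝ) - p.2} := by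
    refine ⟨hnR.le, le_rfl, hmR, ?_⟩
    simp
  have h5 := h3 h4
  simp only [Set.mem_ofPred_eq, lt_self_iff_false] at h5

/-- The descent applied to plane polynomial pairs. -/
theorem assembly (a b m' n' : ℕ) (hm : 0 < m') (hmn : m' < n') (hab : Nat.Coprime a b)
    (ha : 2 ≤ a) (hlt : a < b) (F G : MvPolynomial (Fin 2) ℂ)
    (hF : ∀ d ∈ F.support, d 1 ≤ a * n' ∧ d 0 + d 1 ≤ a * m' + a * n')
    (hG : ∀ d ∈ G.support, d 1 ≤ b * n' ∧ d 0 + d 1 ≤ b * m' + b * n')
    (hFv : ∃ d : Fin 2 →₀ ℕ, d 0 = a * m' ∧ d 1 = a * n' ∧ F.coeff d ≠ 0)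
    (hGv : ∃ d : Fin 2 →₀ ℕ, d 0 = b * m' ∧ d 1 = b * n' ∧ G.coeff d ≠ 0)
    (hdiv : (MvPolynomial.X 0 + MvPolynomial.X 1 : MvPolynomial (Fin 2) ℂ) ^ (a * n') ∣
          MvPolynomial.homogeneousComponent (a * m' + a * n') F)
    (c : ℂ) (hc : c ≠ 0)
    (hbr : MvPolynomial.pderiv 0 F * MvPolynomial.pderiv 1 G
      - MvPolynomial.pderiv 1 F * MvPolynomial.pderiv 0 G = MvPolynomial.C c) :
    Concl a b n' ((n' : ℤ) - m') := by
  have ha0 : 0 < a := by omega
  have hb0 : 0 < b := by omega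
  have hbr' := brB_Phi_const F G c hbr
  have hlF : LowB (Phi F) (-((a * m' + a * n' : ℕ) : ℤ)) :=
    LowB_Phi F _ (fun d hd => (hF d hd).2)
  have hlG : LowB (Phi G) (-((b * m' + b * n' : ℕ) : ℤ)) :=
    LowB_Phi G _ (fun d hd => (hG d hd).2)
  set p := lev (-((a * m' + a * n' : ℕ) : ℤ)) (Phi F) with hp
  set g := lev (-((b * m' + b * n' : ℕ) : ℤ)) (Phi G) with hg
  have hpe := lev_Phi (a * m' + a * n') F
  have hge := lev_Phi (b * m' + b * n') G
  rw [← hp] at hpe
  rw [← hg] at hge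
  have hp0 : p ≠ 0 := by
    rw [hpe]
    obtain ⟨d, h1, h2, h3⟩ := hFv
    exact evH_ne_zero _ _ F d h1 h2 h3
  have hg0 : g ≠ 0 := by
    rw [hge]
    obtain ⟨d, h1, h2, h3⟩ := hGv
    exact evH_ne_zero _ _ G d h1 h2 h3
  have hpdeg : p.natDegree ≤ a * n' := by
    rw [hpe]; exact evH_natDegree_le _ _ F (fun d hd => (hF d hd).1)
  have hgdeg : g.natDegree ≤ b * n' := by
    rw [hge]; exact evH_natDegree_le _ _ G (fun d hd => (hG d hd).1)
  have hpX : (X : ℂ[X]) ^ (a * n') ∣ p := by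
    rw [hpe]
    have h1 := map_dvd evH hdiv
    rw [map_pow, map_add] at h1
    have h2 : evH (MvPolynomial.X 0) + evH (MvPolynomial.X 1) = X := by
      rw [evH, MvPolynomial.coe_eval₂Hom, MvPolynomial.eval₂_X, MvPolynomial.eval₂_X]
      simp
    rwa [h2] at h1
  have hpm : p.rootMultiplicity 0 = a * n' := by
    apply le_antisymm
    · have h1 : p.rootMultiplicity 0 ≤ p.natDegree := by
        rw [← count_roots]
        exact (Multiset.count_le_card _ _).trans (card_roots' p)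
      exact h1.trans hpdeg
    · rw [le_rootMultiplicity_iff hp0]
      simpa using hpX
  -- the bracket at the top level vanishes
  have hode : C (a : ℂ) * p * derivative g = C (b : ℂ) * derivative p * g := by
    have hlev := lev_brB hlF hlG
    rw [hbr', lev_C_single, if_neg (by
      intro h
      have h1 : a * m' + a * n' + (b * m' + b * n') = 2 := by omega
      nlinarith [Nat.mul_pos ha0 hm, Nat.mul_pos hb0 hm, Nat.mul_pos ha0 (hm.trans hmn),
        Nat.mul_pos hb0 (hm.trans hmn)]), ← hp, ← hg] at hlev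
    have hd0 : (C ((m' + n' : ℕ) : ℂ) : ℂ[X]) ≠ 0 :=
      C_ne_zero.mpr (by exact_mod_cast (by omega : m' + n' ≠ 0))
    apply mul_left_cancel₀ hd0
    have e1 : (C ((-((a * m' + a * n' : ℕ) : ℤ) : ℤ) : ℂ) : ℂ[X])
        = -(C (a : ℂ) * C ((m' + n' : ℕ) : ℂ)) := by
      rw [← C_mul, ← C_neg]; push_cast; congr 1; ring
    have e2 : (C ((-((b * m' + b * n' : ℕ) : ℤ) : ℤ) : ℂ) : ℂ[X])
        = -(C (b : ℂ) * C ((m' + n' : ℕ) : ℂ)) := by
      rw [← C_mul, ← C_neg]; push_cast; congr 1; ring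
    rw [e1, e2] at hlev
    linear_combination hlev
  have hmult := mult_prop p g hp0 hg0 a b hode 0
  rw [hpm] at hmult
  have hgm : g.rootMultiplicity 0 = b * n' := by
    apply Nat.eq_of_mul_eq_mul_left ha0
    rw [hmult]; ring
  have hcorner : ∀ (c₁ : ℕ) (R : LS[X]), LowB R (-((c₁ * m' + c₁ * n' : ℕ) : ℤ)) →
      lev (-((c₁ * m' + c₁ * n' : ℕ) : ℤ)) R ≠ 0 →
      (lev (-((c₁ * m' + c₁ * n' : ℕ) : ℤ)) R).rootMultiplicity 0 = c₁ * n' →
      Corner R c₁ ((m' : ℤ) + n') n' 0 := by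
    intro c₁ R hR hR0 hRm
    have hcast : (-((c₁ * m' + c₁ * n' : ℕ) : ℤ)) = -(c₁ * ((m' : ℤ) + n')) := by
      push_cast; ring
    rw [hcast] at hR hR0 hRm
    have hge : ∀ (j : ℕ) (n : ℤ), (R.coeff j).coeff n ≠ 0 → -(c₁ * ((m' : ℤ) + n')) ≤ n := by
      intro j n hn
      by_contra hlt
      push Not at hlt
      apply hn
      rw [← lev_coeff, hR n hlt]; simp
    refine ⟨?_, ?_, ?_⟩
    · rw [← lev_coeff, ← hRm]
      exact coeff_eq_zero_ne _ hR0
    · intro j hj n hn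
      have h1 := hge j n hn
      have h2 : -(c₁ * ((m' : ℤ) + n')) ≠ n := by
        intro heq
        apply hn
        rw [← lev_coeff, ← heq]
        exact coeff_lt_zero _ hR0 j (by rw [hRm]; exact hj)
      have h3 : -(c₁ * ((m' : ℤ) + n')) < n := lt_of_le_of_ne h1 h2
      have h4 : (-(c₁ * ((m' : ℚ) + n'))) < n := by exact_mod_cast h3
      simpa using h4
    · intro j _ n hn
      have h1 := hge j n hn
      have h4 : (-(c₁ * ((m' : ℚ) + n'))) ≤ n := by exact_mod_cast h1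
      simpa using h4
  have hCF := hcorner a (Phi F) hlF hp0 hpm
  have hCG := hcorner b (Phi G) hlG hg0 hgm
  have hres := machine a b ha0 hb0 hab n' (hm.trans hmn) 2 (Phi F) (Phi G) ((m' : ℤ) + n') 0 (-c)
    (neg_ne_zero.mpr hc) hbr' le_rfl hCF hCG
    (by
      have h1 : (0 : ℚ) < m' := by exact_mod_cast hm
      have h2 : (0 : ℚ) < n' := by exact_mod_cast hm.trans hmn
      push_cast; linarith)
    (by
      have h1 : (1 : ℚ) ≤ m' := by exact_mod_cast hm
      have h2 : (2 : ℚ) ≤ n' := by exact_mod_cast (by omega : 2 ≤ n')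
      have h3 : (2 : ℚ) ≤ a := by exact_mod_cast ha
      have h4 : (3 : ℚ) ≤ b := by exact_mod_cast (by omega : 3 ≤ b)
      push_cast; nlinarith)
    (by push_cast; omega)
  have hx : (((2 : ℕ) : ℤ) * n' - ((m' : ℤ) + n')) = (n' : ℤ) - m' := by push_cast; ring
  rw [hx] at hres
  exact hres

end Pool.Agent.Lib.MP_2d59ee_ag


/-! ## Arith -/

/-! Final arithmetic. -/


namespace Pool.Agent.Lib.MP_2d59ee_ag

theorem final_arith (a b m' n' : ℕ) (hm : 0 < m') (hmn : m' < n') (ha : 2 ≤ a) (hlt : a < b)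
    (h : Concl a b n' ((n' : ℤ) - m')) :
    2 * a + b + a * m' ≤ a * n' + 1 ∧
    ∃ N e x d : ℕ, 0 < N ∧ a * N < a * n' ∧ 0 < e ∧ 0 < x ∧ a * x + a * m' < a * n' ∧ 0 < d ∧
      d * ((a + b) * N - 1) = e * x ∧
      ((e ∣ a ∧ e ∣ b * N - 1) ∨ (e ∣ b ∧ e ∣ a * N - 1)) := by
  obtain ⟨N, e, x, d, hN, hNn, he, hx, hxn, hstrict, hd, heq, hdiv⟩ := h
  have ha0 : 0 < a := by omega
  have hb0 : 0 < b := by omega
  have heb : e ≤ b := by
    rcases hdiv with ⟨h1, -⟩ | ⟨h1, -⟩
    · exact (Nat.le_of_dvd ha0 h1).trans hlt.le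
    · exact Nat.le_of_dvd hb0 h1
  have hab1 : 1 ≤ (a + b) * N := Nat.mul_pos (by omega) hN
  have heqZ : (d : ℤ) * (((a : ℤ) + b) * N - 1) = e * x := by
    have := congrArg (fun z : ℕ => (z : ℤ)) heq
    push_cast [hab1] at this
    exact this
  have hdZ : (1 : ℤ) ≤ d := by exact_mod_cast hd
  have hNZ : (1 : ℤ) ≤ N := by exact_mod_cast hN
  have haZ : (2 : ℤ) ≤ a := by exact_mod_cast ha
  have hbZ : (a : ℤ) + 1 ≤ b := by exact_mod_cast hlt
  have hxZ : (1 : ℤ) ≤ x := by exact_mod_cast hx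
  have hmZ : (1 : ℤ) ≤ m' := by exact_mod_cast hm
  have heZ : (e : ℤ) ≤ b := by exact_mod_cast heb
  have heZ0 : (1 : ℤ) ≤ e := by exact_mod_cast he
  have hbase : (((a : ℤ) + b) * N - 1) ≤ e * x := by
    rw [← heqZ]
    have h1 : (0 : ℤ) ≤ ((a : ℤ) + b) * N - 1 := by
      have h9 : (1 : ℤ) * 1 ≤ ((a : ℤ) + b) * N :=
        mul_le_mul (by linarith) hNZ zero_le_one (by linarith)
      linarith
    exact le_mul_of_one_le_left h1 hdZ
  have hNlt : N < n' := by
    rcases lt_or_eq_of_le hNn with h | h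
    · exact h
    · exfalso
      subst h
      have h1 : (e : ℤ) * x ≤ b * ((N : ℤ) - 1) := by
        have h2 : (e : ℤ) * x ≤ b * x := mul_le_mul_of_nonneg_right heZ (by linarith)
        have h3 : (b : ℤ) * x ≤ b * ((N : ℤ) - 1) :=
          mul_le_mul_of_nonneg_left (by linarith) (by linarith)
        linarith
      have h9 : (2 : ℤ) * 1 ≤ a * N := mul_le_mul haZ hNZ zero_le_one (by linarith)
      linarith
  have hxlt := hstrict hNlt
  have hxlt' : (x : ℤ) + 1 ≤ (n' : ℤ) - m' := hxlt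
  refine ⟨?_, N, e, x, d, hN, Nat.mul_lt_mul_of_pos_left hNlt ha0, he, hx, ?_, hd, heq, hdiv⟩
  · have hgoal : (2 * (a : ℤ) + b + a * m') ≤ a * n' + 1 := by
      have hax : (a : ℤ) * (x + 1) ≤ a * (n' - m') :=
        mul_le_mul_of_nonneg_left hxlt' (by linarith)
      rcases hdiv with ⟨h1, -⟩ | ⟨-, h1⟩
      · have h2 : (e : ℤ) ≤ a := by exact_mod_cast Nat.le_of_dvd ha0 h1
        have h3 : (e : ℤ) * x ≤ a * x := mul_le_mul_of_nonneg_right h2 (by linarith)
        have h4 : ((a : ℤ) + b) ≤ (a + b) * N := le_mul_of_one_le_right (by linarith) hNZ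
        linarith
      · have haN : 2 ≤ a * N := le_trans (by norm_num) (Nat.mul_le_mul ha hN)
        have h2 : e ≤ a * N - 1 := Nat.le_of_dvd (by omega) h1
        have h3 : (e : ℤ) ≤ a * N - 1 := by
          have : (e : ℤ) ≤ ((a * N - 1 : ℕ) : ℤ) := by exact_mod_cast h2
          have hc : ((a * N - 1 : ℕ) : ℤ) = (a : ℤ) * N - 1 := by
            rw [Nat.cast_sub (by omega)]; push_cast; ring
          rwa [hc] at this
        have h4 : (e : ℤ) * x ≤ (a * N - 1) * x := mul_le_mul_of_nonneg_right h3 (by linarith)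
        -- (a + b) N - 1 ≤ (a N - 1) x
        have h5 : ((a : ℤ) + b) * N - 1 ≤ (a * N - 1) * x := hbase.trans h4
        -- hence a x ≥ a + b
        have h6 : (a : ℤ) + b ≤ a * x := by
          by_contra hcon
          push Not at hcon
          have h7 : (a : ℤ) * x * N ≤ (a + b - 1) * N :=
            mul_le_mul_of_nonneg_right (by linarith) (by linarith)
          linarith
        linarith
    exact_mod_cast hgoal
  · have hax : (a : ℤ) * (x + 1) ≤ a * (n' - m') :=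
      mul_le_mul_of_nonneg_left hxlt' (by linarith)
    have hgoal : ((a : ℤ) * x + a * m') < a * n' := by linarith
    exact_mod_cast hgoal

end Pool.Agent.Lib.MP_2d59ee_ag


/-! ## Start -/

/-! The initial level, using the full strength of the divisibility conditions. -/


namespace Pool.Agent.Lib.MP_2d59ee_ag

open Polynomial

theorem init_corners (a b m' n' : ℕ) (hm : 0 < m') (hmn : m' < n')
    (ha : 2 ≤ a) (hlt : a < b) (F G : MvPolynomial (Fin 2) ℂ)
    (hF : ∀ d ∈ F.support, d 1 ≤ a * n' ∧ d 0 + d 1 ≤ a * m' + a * n')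
    (hG : ∀ d ∈ G.support, d 1 ≤ b * n' ∧ d 0 + d 1 ≤ b * m' + b * n')
    (hFv : ∃ d : Fin 2 →₀ ℕ, d 0 = a * m' ∧ d 1 = a * n' ∧ F.coeff d ≠ 0)
    (hGv : ∃ d : Fin 2 →₀ ℕ, d 0 = b * m' ∧ d 1 = b * n' ∧ G.coeff d ≠ 0)
    (hdiv : (MvPolynomial.X 0 + MvPolynomial.X 1 : MvPolynomial (Fin 2) ℂ) ^ (a * n') ∣
          MvPolynomial.homogeneousComponent (a * m' + a * n') F)
    (c : ℂ)
    (hbr : MvPolynomial.pderiv 0 F * MvPolynomial.pderiv 1 G
      - MvPolynomial.pderiv 1 F * MvPolynomial.pderiv 0 G = MvPolynomial.C c) :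
    Corner (Phi F) a ((m' : ℤ) + n') n' 0 ∧ Corner (Phi G) b ((m' : ℤ) + n') n' 0 := by
  have ha0 : 0 < a := by omega
  have hb0 : 0 < b := by omega
  have hbr' := brB_Phi_const F G c hbr
  have hlF : LowB (Phi F) (-((a * m' + a * n' : ℕ) : ℤ)) :=
    LowB_Phi F _ (fun d hd => (hF d hd).2)
  have hlG : LowB (Phi G) (-((b * m' + b * n' : ℕ) : ℤ)) :=
    LowB_Phi G _ (fun d hd => (hG d hd).2)
  set p := lev (-((a * m' + a * n' : ℕ) : ℤ)) (Phi F) with hp
  set g := lev (-((b * m' + b * n' : ℕ) : ℤ)) (Phi G) with hg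
  have hpe := lev_Phi (a * m' + a * n') F
  have hge := lev_Phi (b * m' + b * n') G
  rw [← hp] at hpe
  rw [← hg] at hge
  have hp0 : p ≠ 0 := by
    rw [hpe]
    obtain ⟨d, h1, h2, h3⟩ := hFv
    exact evH_ne_zero _ _ F d h1 h2 h3
  have hg0 : g ≠ 0 := by
    rw [hge]
    obtain ⟨d, h1, h2, h3⟩ := hGv
    exact evH_ne_zero _ _ G d h1 h2 h3
  have hpdeg : p.natDegree ≤ a * n' := by
    rw [hpe]; exact evH_natDegree_le _ _ F (fun d hd => (hF d hd).1)
  have hpX : (X : ℂ[X]) ^ (a * n') ∣ p := by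
    rw [hpe]
    have h1 := map_dvd evH hdiv
    rw [map_pow, map_add] at h1
    have h2 : evH (MvPolynomial.X 0) + evH (MvPolynomial.X 1) = X := by
      rw [evH, MvPolynomial.coe_eval₂Hom, MvPolynomial.eval₂_X, MvPolynomial.eval₂_X]
      simp
    rwa [h2] at h1
  have hpm : p.rootMultiplicity 0 = a * n' := by
    apply le_antisymm
    · have h1 : p.rootMultiplicity 0 ≤ p.natDegree := by
        rw [← count_roots]
        exact (Multiset.count_le_card _ _).trans (card_roots' p)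
      exact h1.trans hpdeg
    · rw [le_rootMultiplicity_iff hp0]
      simpa using hpX
  -- the bracket at the top level vanishes
  have hode : C (a : ℂ) * p * derivative g = C (b : ℂ) * derivative p * g := by
    have hlev := lev_brB hlF hlG
    rw [hbr', lev_C_single, if_neg (by
      intro h
      have h1 : a * m' + a * n' + (b * m' + b * n') = 2 := by omega
      nlinarith [Nat.mul_pos ha0 hm, Nat.mul_pos hb0 hm, Nat.mul_pos ha0 (hm.trans hmn),
        Nat.mul_pos hb0 (hm.trans hmn)]), ← hp, ← hg] at hlev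
    have hd0 : (C ((m' + n' : ℕ) : ℂ) : ℂ[X]) ≠ 0 :=
      C_ne_zero.mpr (by exact_mod_cast (by omega : m' + n' ≠ 0))
    apply mul_left_cancel₀ hd0
    have e1 : (C ((-((a * m' + a * n' : ℕ) : ℤ) : ℤ) : ℂ) : ℂ[X])
        = -(C (a : ℂ) * C ((m' + n' : ℕ) : ℂ)) := by
      rw [← C_mul, ← C_neg]; push_cast; congr 1; ring
    have e2 : (C ((-((b * m' + b * n' : ℕ) : ℤ) : ℤ) : ℂ) : ℂ[X])
        = -(C (b : ℂ) * C ((m' + n' : ℕ) : ℂ)) := by
      rw [← C_mul, ← C_neg]; push_cast; congr 1; ring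
    rw [e1, e2] at hlev
    linear_combination hlev
  have hmult := mult_prop p g hp0 hg0 a b hode 0
  rw [hpm] at hmult
  have hgm : g.rootMultiplicity 0 = b * n' := by
    apply Nat.eq_of_mul_eq_mul_left ha0
    rw [hmult]; ring
  have hcorner : ∀ (c₁ : ℕ) (R : LS[X]), LowB R (-((c₁ * m' + c₁ * n' : ℕ) : ℤ)) →
      lev (-((c₁ * m' + c₁ * n' : ℕ) : ℤ)) R ≠ 0 →
      (lev (-((c₁ * m' + c₁ * n' : ℕ) : ℤ)) R).rootMultiplicity 0 = c₁ * n' →
      Corner R c₁ ((m' : ℤ) + n') n' 0 := by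
    intro c₁ R hR hR0 hRm
    have hcast : (-((c₁ * m' + c₁ * n' : ℕ) : ℤ)) = -(c₁ * ((m' : ℤ) + n')) := by
      push_cast; ring
    rw [hcast] at hR hR0 hRm
    have hge : ∀ (j : ℕ) (n : ℤ), (R.coeff j).coeff n ≠ 0 → -(c₁ * ((m' : ℤ) + n')) ≤ n := by
      intro j n hn
      by_contra hlt
      push Not at hlt
      apply hn
      rw [← lev_coeff, hR n hlt]; simp
    refine ⟨?_, ?_, ?_⟩
    · rw [← lev_coeff, ← hRm]
      exact coeff_eq_zero_ne _ hR0
    · intro j hj n hn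
      have h1 := hge j n hn
      have h2 : -(c₁ * ((m' : ℤ) + n')) ≠ n := by
        intro heq
        apply hn
        rw [← lev_coeff, ← heq]
        exact coeff_lt_zero _ hR0 j (by rw [hRm]; exact hj)
      have h3 : -(c₁ * ((m' : ℤ) + n')) < n := lt_of_le_of_ne h1 h2
      have h4 : (-(c₁ * ((m' : ℚ) + n'))) < n := by exact_mod_cast h3
      simpa using h4
    · intro j _ n hn
      have h1 := hge j n hn
      have h4 : (-(c₁ * ((m' : ℚ) + n'))) ≤ n := by exact_mod_cast h1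
      simpa using h4
  exact ⟨hcorner a (Phi F) hlF hp0 hpm, hcorner b (Phi G) hlG hg0 hgm⟩

/-- all slopes of `F` are at least one -/
theorem atLevel_one (a m' n' : ℕ) (F : MvPolynomial (Fin 2) ℂ)
    (hF : ∀ d ∈ F.support, d 1 ≤ a * n' ∧ d 0 + d 1 ≤ a * m' + a * n')
    (hdiv : ∀ i : ℕ, i ≤ a * n' →
      ((MvPolynomial.X 0 + MvPolynomial.X 1 : MvPolynomial (Fin 2) ℂ) ^ (a * n' - i)) ∣
          MvPolynomial.homogeneousComponent (a * m' + a * n' - i) F) :
    AtLevel (Phi F) a ((m' : ℤ) + n') n' 1 := by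
  intro j hj n hn
  have hlF : LowB (Phi F) (-((a * m' + a * n' : ℕ) : ℤ)) :=
    LowB_Phi F _ (fun d hd => (hF d hd).2)
  have h1 : -((a * m' + a * n' : ℕ) : ℤ) ≤ n := by
    by_contra hlt
    push Not at hlt
    apply hn
    rw [← lev_coeff, hlF n hlt]; simp
  obtain ⟨i, hi⟩ : ∃ i : ℕ, n = -((a * m' + a * n' : ℕ) : ℤ) + i :=
    ⟨(n + ((a * m' + a * n' : ℕ) : ℤ)).toNat, by omega⟩
  have hgoal : -(a * (m' : ℤ)) - j ≤ n := by
    rcases le_or_gt i (a * n') with hle | hgt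
    · have h2 : n = -((a * m' + a * n' - i : ℕ) : ℤ) := by
        rw [hi]; omega
      have h3 : (X : ℂ[X]) ^ (a * n' - i) ∣ lev n (Phi F) := by
        rw [h2, lev_Phi]
        have h4 := map_dvd evH (hdiv i hle)
        rw [map_pow, map_add] at h4
        have h5 : evH (MvPolynomial.X 0) + evH (MvPolynomial.X 1) = X := by
          rw [evH, MvPolynomial.coe_eval₂Hom, MvPolynomial.eval₂_X, MvPolynomial.eval₂_X]
          simp
        rwa [h5] at h4
      have h6 : a * n' - i ≤ j := by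
        by_contra hcon
        push Not at hcon
        rw [X_pow_dvd_iff] at h3
        apply hn
        rw [← lev_coeff]
        exact h3 j hcon
      have h7 : (a * n' : ℕ) ≤ j + i := by omega
      have h8 : ((a * n' : ℕ) : ℤ) ≤ j + i := by exact_mod_cast h7
      rw [hi]
      push_cast at h8 ⊢
      linarith
    · have h8 : ((a * n' : ℕ) : ℤ) < i := by exact_mod_cast hgt
      rw [hi]
      push_cast at h8 ⊢
      have := Int.natCast_nonneg j
      linarith
  have h9 : (-(a * (m' : ℚ)) - j) ≤ n := by exact_mod_cast hgoal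
  push_cast
  linarith

/-- slopes of the partner are also at least one -/
theorem atLevel_partner (a b : ℕ) (ha : 0 < a) (hb : 0 < b) (hab : Nat.Coprime a b)
    (N E : ℕ) (α : ℤ) (P Q : LS[X]) (c : ℂ) (hc : c ≠ 0)
    (hbr : brB P Q = C (HahnSeries.single (-(E : ℤ)) c)) (hN : 0 < N)
    (hP : Corner P a α N 0) (hQ : Corner Q b α N 0) (K₀ : ℚ) (hK₀ : 0 < K₀)
    (hPK : AtLevel P a α N K₀)
    (hpos : 0 < (E : ℚ) - K₀) (hΔ : 0 < (α : ℚ) - K₀ * N)
    (hx : α < E * N)
    (hJ₀ : (E : ℚ) < ((a : ℚ) + b) * α)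
    (hJ : (E : ℚ) - K₀ < ((a : ℚ) + b) * (α - K₀ * N)) :
    AtLevel Q b α N K₀ := by
  have hNQ : (1 : ℚ) ≤ N := by exact_mod_cast hN
  have haQ : (1 : ℚ) ≤ a := by exact_mod_cast ha
  have hbQ : (1 : ℚ) ≤ b := by exact_mod_cast hb
  obtain ⟨K, hkK, hKκ, hKP, hKQ, hKcase⟩ := exists_level hP hQ hK₀
  rcases eq_or_lt_of_le hKκ with heq | hlt
  · rw [← heq]; exact hKQ
  exfalso
  have hnoP : ∀ j < a * N, ∀ n : ℤ, (P.coeff j).coeff n ≠ 0 →
      K * ((a : ℚ) * N - j) - a * α ≠ n := by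
    intro j hj n hn heq
    have h1 := hPK j hj n hn
    have h2 := sub_pos_of_lt_mul hj
    have h3 : K * ((a : ℚ) * N - j) < K₀ * ((a : ℚ) * N - j) := mul_lt_mul_of_pos_right hlt h2
    linarith
  have hAttQ : Attained Q b α N K := by
    rcases hKcase with h | h | h
    · exact absurd h hlt.ne
    · obtain ⟨j, hj, n, hn, he⟩ := h
      exact absurd he (hnoP j hj n hn)
    · exact h
  have hEK : 0 < (E : ℚ) - K := by linarith
  have hΔK : 0 < (α : ℚ) - K * N := by nlinarith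
  have hJK : (E : ℚ) - K < ((a : ℚ) + b) * (α - K * N) := by
    nlinarith
  obtain ⟨d, e₁, hd, he₁, hpkg⟩ := level_nums a b N E α 0 K hkK hEK hΔK
  have hxQ : (α : ℚ) < E * N := by exact_mod_cast hx
  obtain ⟨hqpos, hdpos⟩ : 0 < K.den ∧ 0 < d := ⟨hpkg.hq, hpkg.hd⟩
  have hqQ : (0 : ℚ) < K.den := by exact_mod_cast hqpos
  have hJZ : (e₁ : ℤ) < ((a : ℤ) + b) * d := by
    have : (e₁ : ℚ) < ((a : ℚ) + b) * d := by
      rw [hpkg.heK, hpkg.hdK]
      have := mul_lt_mul_of_pos_left hJK hqQ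
      linarith
    exact_mod_cast this
  set P1 := T0 K.den K.den_pos K.num P with hP1
  set Q1 := T0 K.den K.den_pos K.num Q with hQ1
  have hbr1 := brB_T0_single K.den K.den_pos K.num P Q E c hbr
  rw [← hP1, ← hQ1, ← he₁] at hbr1
  have hlP : LowB P1 (-(a * (d : ℤ))) := lowB_T0 hP hkK hKP d hd
  have hlQ : LowB Q1 (-(b * (d : ℤ))) := lowB_T0 hQ hkK hKQ d hd
  set p := lev (-(a * (d : ℤ))) P1 with hp
  set g := lev (-(b * (d : ℤ))) Q1 with hg
  have hptop : p.coeff (a * N) ≠ 0 := lev_T0_top hP d hd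
  have hgtop : g.coeff (b * N) ≠ 0 := lev_T0_top hQ d hd
  have hp0 : p ≠ 0 := by rintro h; rw [h] at hptop; simp at hptop
  have hg0 : g ≠ 0 := by rintro h; rw [h] at hgtop; simp at hgtop
  have hode : C (a : ℂ) * p * derivative g = C (b : ℂ) * derivative p * g := by
    have hlev := lev_brB hlP hlQ
    rw [hbr1, lev_C_single, if_neg (by intro h; linarith), ← hp, ← hg] at hlev
    have hd0 : (C (d : ℂ) : ℂ[X]) ≠ 0 := C_ne_zero.mpr (by exact_mod_cast hdpos.ne')
    apply mul_left_cancel₀ hd0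
    have e1 : (C ((-(a * (d : ℤ)) : ℤ) : ℂ) : ℂ[X]) = -(C (a : ℂ) * C (d : ℂ)) := by
      rw [← C_mul, ← C_neg]; push_cast; rfl
    have e2 : (C ((-(b * (d : ℤ)) : ℤ) : ℂ) : ℂ[X]) = -(C (b : ℂ) * C (d : ℂ)) := by
      rw [← C_mul, ← C_neg]; push_cast; rfl
    rw [e1, e2] at hlev
    linear_combination hlev
  have hplow : ∀ j < a * N, p.coeff j = 0 := by
    intro j hj
    by_contra hne
    rw [hp, lev_coeff] at hne
    obtain ⟨m, hm, hm'⟩ := T0_coeff_ne _ _ _ _ _ _ hne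
    apply hnoP j hj m hm'
    have h4 := num_cast K
    have h6 : (d : ℚ) = K.den * α - K.num * N := by exact_mod_cast hd
    have h3 : ((K.den : ℚ) * m) = -(a * d) - j * K.num := by exact_mod_cast hm
    apply mul_left_cancel₀ hqQ.ne'
    rw [h3, h6, h4]; ring
  have hpm : a * N ≤ p.rootMultiplicity 0 := by
    rw [le_rootMultiplicity_iff hp0, C_0, sub_zero, X_pow_dvd_iff]
    exact hplow
  have hmult := mult_prop p g hp0 hg0 a b hode 0
  have hgm : b * N ≤ g.rootMultiplicity 0 := by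
    apply Nat.le_of_mul_le_mul_left _ ha
    calc a * (b * N) = b * (a * N) := by ring
      _ ≤ b * p.rootMultiplicity 0 := Nat.mul_le_mul_left b hpm
      _ = a * g.rootMultiplicity 0 := hmult.symm
  obtain ⟨j, hj, hne⟩ := attained_coeff hAttQ d hd
  exact hne (coeff_lt_zero g hg0 j (hj.trans_le hgm))

theorem corner_of_not_attained {P : LS[X]} {c₁ : ℕ} {α : ℤ} {N : ℕ} (hP : Corner P c₁ α N 0)
    (h1 : AtLevel P c₁ α N 1) (hna : ¬ Attained P c₁ α N 1) : Corner P c₁ α N 1 := by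
  refine ⟨hP.top, ?_, ?_⟩
  · intro j hj n hn
    refine lt_of_le_of_ne (h1 j hj n hn) ?_
    intro heq
    exact hna ⟨j, hj, n, hn, heq⟩
  · intro j hj n hn
    have h2 := hP.high j hj n hn
    have h3 : ((c₁ * N : ℕ) : ℚ) ≤ (j : ℚ) := by exact_mod_cast hj
    push_cast at h3
    linarith

/-- the facts obtained at the end -/
structure Facts (m' N x : ℕ) : Prop where
  hN : N = m' + x
  hm : 1 < m'
  h8 : 8 ≤ x
  hquad : 2 * N ≤ x * (x + 1)
  h10 : x ≠ 10
  hp : ¬ x.Prime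
  h12 : x = 8 → N = 12
  hgcd : 1 < Nat.gcd N x

theorem good_facts {a b N E m' : ℕ} {α : ℤ} {k : ℚ} (ha : 2 ≤ a) (hlt : a < b)
    (hab : Nat.Coprime a b) (g : Good a b N E α k) (hE1 : (E : ℚ) - k ≤ 1)
    (hm : (α : ℚ) - k * N = m') (x : ℕ) (hx : (x : ℤ) = E * N - α) (hN : N = m' + x) :
    Facts m' N x := by
  obtain ⟨h8, hq, -⟩ := main_bounds a b ha hlt hab N E α k g hE1 x hx
  have h1 := slack_gt_one a b ha hlt hab N E α k g hE1
  rw [hm] at h1
  refine ⟨hN, by exact_mod_cast h1, h8, hq, ?_, not_prime a b ha hlt hab N E α k g hE1 x hx,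
    ?_, ?_⟩
  · rintro rfl
    exact ne_ten a b ha hlt hab N E α k g hE1 hx
  · rintro rfl
    exact (eight_states a b ha hlt hab N E α k g hE1 hx).1
  · rcases good_gcd a b ha hlt hab N E α k g x hx with h | h
    · omega
    · exact h

theorem start_facts (a b m' n' : ℕ) (hm : 0 < m') (hmn : m' < n') (hab : Nat.Coprime a b)
    (ha : 2 ≤ a) (hlt : a < b) (F G : MvPolynomial (Fin 2) ℂ)
    (hF : ∀ d ∈ F.support, d 1 ≤ a * n' ∧ d 0 + d 1 ≤ a * m' + a * n')
    (hG : ∀ d ∈ G.support, d 1 ≤ b * n' ∧ d 0 + d 1 ≤ b * m' + b * n')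
    (hFv : ∃ d : Fin 2 →₀ ℕ, d 0 = a * m' ∧ d 1 = a * n' ∧ F.coeff d ≠ 0)
    (hGv : ∃ d : Fin 2 →₀ ℕ, d 0 = b * m' ∧ d 1 = b * n' ∧ G.coeff d ≠ 0)
    (hdiv : ∀ i : ℕ, i ≤ a * n' →
      ((MvPolynomial.X 0 + MvPolynomial.X 1 : MvPolynomial (Fin 2) ℂ) ^ (a * n' - i)) ∣
          MvPolynomial.homogeneousComponent (a * m' + a * n' - i) F)
    (c : ℂ) (hc : c ≠ 0)
    (hbr : MvPolynomial.pderiv 0 F * MvPolynomial.pderiv 1 G
      - MvPolynomial.pderiv 1 F * MvPolynomial.pderiv 0 G = MvPolynomial.C c) :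
    ∃ N₁ x₁ : ℕ, N₁ ≤ n' ∧ Facts m' N₁ x₁ ∧ (N₁ = n' ∨ m' ∣ n' - m') := by
  have ha0 : 0 < a := by omega
  have hb0 : 0 < b := by omega
  have hn : 0 < n' := hm.trans hmn
  have hmQ : (1 : ℚ) ≤ m' := by exact_mod_cast hm
  have hnQ : (2 : ℚ) ≤ n' := by exact_mod_cast (by omega : 2 ≤ n')
  have hmnQ : (m' : ℚ) + 1 ≤ n' := by exact_mod_cast hmn
  have haQ : (2 : ℚ) ≤ a := by exact_mod_cast ha
  have hbQ : (3 : ℚ) ≤ b := by exact_mod_cast (by omega : 3 ≤ b)
  have hbr' := brB_Phi_const F G c hbr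
  have hcneg : -c ≠ 0 := neg_ne_zero.mpr hc
  have hd0 := hdiv 0 (Nat.zero_le _)
  rw [Nat.sub_zero, Nat.sub_zero] at hd0
  obtain ⟨hCF, hCG⟩ := init_corners a b m' n' hm hmn ha hlt F G hF hG hFv hGv hd0 c hbr
  have hP1 := atLevel_one a m' n' F hF hdiv
  have hab5 : (5 : ℚ) ≤ (a : ℚ) + b := by linarith
  have hαQ : (((m' : ℤ) + n' : ℤ) : ℚ) = m' + n' := by push_cast; ring
  have hQ1 := atLevel_partner a b ha0 hb0 hab n' 2 ((m' : ℤ) + n') (Phi F) (Phi G) (-c) hcneg
    hbr' hn hCF hCG 1 one_pos hP1 (by push_cast; norm_num)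
    (by rw [hαQ]; linarith)
    (by push_cast; omega)
    (by rw [hαQ]; push_cast; nlinarith)
    (by rw [hαQ]; push_cast; nlinarith)
  by_cases hatt : Attained (Phi F) a ((m' : ℤ) + n') n' 1 ∨ Attained (Phi G) b ((m' : ℤ) + n') n' 1
  · -- the level one is attained
    obtain ⟨d, e₁, hd, he₁, hpkg⟩ := level_nums a b n' 2 ((m' : ℤ) + n') 0 1 one_pos
      (by push_cast; norm_num) (by rw [hαQ]; linarith)
    obtain ⟨N₀, hN⟩ := level_core a b ha0 hb0 hab n' 2 ((m' : ℤ) + n') 0 1 hn (Phi F) (Phi G) (-c)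
      hcneg hbr' hCF hCG one_pos hP1 hQ1 (by rw [hαQ]; push_cast; linarith)
      (by rw [hαQ]; push_cast; nlinarith) hatt d e₁ hd he₁ hpkg
    have hq1 : (1 : ℚ).den = 1 := rfl
    have he1 : e₁ = 1 := by
      have h1 := hpkg.heK
      rw [hq1] at h1
      have h2 : (e₁ : ℚ) = 1 := by rw [h1]; push_cast; norm_num
      exact_mod_cast h2
    have hdm : (d : ℤ) = m' := by
      have h1 := hpkg.hdK
      rw [hq1, hαQ] at h1
      have h2 : (d : ℚ) = m' := by rw [h1]; push_cast; ring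
      exact_mod_cast h2
    have hdm' : d = m' := by exact_mod_cast hdm
    subst hdm'
    subst he1
    have hlast : ∀ N₁ : ℕ, N₁ ≤ n' → d < N₁ → St a b N₁ 1 d 0 →
        ∃ x₁ : ℕ, Facts d N₁ x₁ := by
      intro N₁ _ hdN₁ hst₁
      have hN₁pos : 0 < N₁ := by omega
      obtain ⟨x₁, hx₁⟩ : ∃ x₁ : ℕ, N₁ = d + x₁ := ⟨N₁ - d, by omega⟩
      refine ⟨x₁, good_facts ha hlt hab (E := 1) (α := d) (k := 0)
        ⟨hN₁pos, le_rfl, hst₁, by push_cast; linarith, by push_cast; nlinarith,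
          by push_cast; omega⟩ (by push_cast; norm_num) (by push_cast; ring) x₁ ?_ hx₁⟩
      rw [hx₁]; push_cast; ring
    rcases hN.hM with ⟨-, hst⟩ | ⟨j, hj, -⟩
    · obtain ⟨x₁, hx₁⟩ := hlast n' le_rfl hmn hst
      exact ⟨n', x₁, le_rfl, hx₁, Or.inl rfl⟩
    · have hdvd : d ∣ n' - d := by
        have h1 : (j : ℤ) * d = n' - d := by rw [hj]; push_cast; ring
        have h2 : ((n' - d : ℕ) : ℤ) = n' - d := by
          rw [Nat.cast_sub hmn.le]
        refine ⟨j, ?_⟩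
        have h3 : ((n' - d : ℕ) : ℤ) = ((d * j : ℕ) : ℤ) := by
          rw [h2, ← h1]; push_cast; ring
        exact_mod_cast h3
      rcases lt_or_gt_of_ne hN.hne with hmin | hmaj
      · obtain ⟨N₁, hqN₁, hdN₁, hst₁⟩ := hN.hbig hmin
        rw [hq1, one_mul] at hqN₁
        rw [one_mul] at hdN₁
        obtain ⟨x₁, hx₁⟩ := hlast N₁ hqN₁ hdN₁ hst₁
        exact ⟨N₁, x₁, hqN₁, hx₁, Or.inr hdvd⟩
      · rw [one_mul] at hmaj
        have hN₀pos : 0 < N₀ := by omega
        obtain ⟨α₀, hrel, hst₀⟩ := hN.hzero hN₀pos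
        rw [hαQ] at hrel
        have hα₀ : (α₀ : ℚ) = N₀ + d := by linarith
        have hα₀Z : α₀ = N₀ + d := by exact_mod_cast hα₀
        obtain ⟨x₁, hx₁⟩ : ∃ x₁ : ℕ, N₀ = d + x₁ := ⟨N₀ - d, by omega⟩
        refine ⟨N₀, x₁, hN.hlt.le, good_facts ha hlt hab (E := 2) (α := α₀) (k := 1)
          ⟨hN₀pos, zero_le_one, hst₀, by rw [hα₀]; linarith,
            by rw [hα₀]; push_cast; nlinarith, by rw [hα₀Z]; push_cast; omega⟩
          (by push_cast; norm_num) (by rw [hα₀]; ring) x₁ ?_ hx₁, Or.inr hdvd⟩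
        rw [hα₀Z, hx₁]; push_cast; ring
  · push Not at hatt
    have hst : St a b n' 2 ((m' : ℤ) + n') 1 :=
      ⟨Phi F, Phi G, -c, hcneg, hbr', corner_of_not_attained hCF hP1 hatt.1,
        corner_of_not_attained hCG hQ1 hatt.2⟩
    obtain ⟨x₁, hx₁⟩ : ∃ x₁ : ℕ, n' = m' + x₁ := ⟨n' - m', by omega⟩
    refine ⟨n', x₁, le_rfl, good_facts ha hlt hab (E := 2) (α := (m' : ℤ) + n') (k := 1)
      ⟨hn, zero_le_one, hst, by rw [hαQ]; linarith, by rw [hαQ]; push_cast; nlinarith,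
        by push_cast; omega⟩ (by push_cast; norm_num) (by rw [hαQ]; ring) x₁ ?_ hx₁, Or.inl rfl⟩
    rw [hx₁]; push_cast; ring

/-- final arithmetic consequences -/
theorem conseq {m' n' : ℕ} (hmn : m' < n')
    (h : ∃ N₁ x₁ : ℕ, N₁ ≤ n' ∧ Facts m' N₁ x₁ ∧ (N₁ = n' ∨ m' ∣ n' - m')) :
    8 ≤ n' - m' ∧ 2 * n' ≤ (n' - m') * (n' - m' + 1) ∧ n' - m' ≠ 10 ∧ ¬ (n' - m').Prime := by
  obtain ⟨N₁, x₁, hN₁, ⟨hN, hm, h8, hquad, h10, hp, h12, hgcd⟩, hor⟩ := h
  obtain ⟨x, hx⟩ : ∃ x, n' = m' + x := ⟨n' - m', by omega⟩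
  have hx' : n' - m' = x := by omega
  rw [hx'] at hor ⊢
  have hx₁x : x₁ ≤ x := by omega
  refine ⟨by omega, ?_, ?_, ?_⟩
  · obtain ⟨t, ht⟩ : ∃ t, x = x₁ + t := ⟨x - x₁, by omega⟩
    have hn : n' = N₁ + t := by omega
    rw [hn, ht]
    nlinarith
  · intro hx10
    rcases hor with h | h
    · omega
    · rw [hx10] at h
      have hm10 : m' ≤ 10 := Nat.le_of_dvd (by norm_num) h
      have hx₁' : x₁ = 8 ∨ x₁ = 9 := by omega
      rcases hx₁' with h' | h'
      · have := h12 h'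
        have hm4 : m' = 4 := by omega
        rw [hm4] at h
        revert h; decide
      · subst h'
        rw [hN] at hgcd
        interval_cases m' <;> revert h hgcd <;> decide
  · intro hxp
    rcases hor with h | h
    · have : x₁ = x := by omega
      exact hp (by rw [this]; exact hxp)
    · have hmx : m' = x := by
        rcases (Nat.dvd_prime hxp).mp h with h' | h'
        · omega
        · exact h'
      have hx₁lt : x₁ < x := by
        rcases lt_or_eq_of_le hx₁x with h' | h'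
        · exact h'
        · exact absurd (by rw [h']; exact hxp) hp
      obtain ⟨r, hr, hrg⟩ := Nat.exists_prime_and_dvd (by omega : Nat.gcd N₁ x₁ ≠ 1)
      have hrn : r ∣ N₁ := hrg.trans (Nat.gcd_dvd_left _ _)
      have hry : r ∣ x₁ := hrg.trans (Nat.gcd_dvd_right _ _)
      have hrd : r ∣ x := by
        rw [hN, hmx] at hrn
        exact (Nat.dvd_add_left hry).mp hrn
      have hrd' : r = x := by
        rcases (Nat.dvd_prime hxp).mp hrd with h' | h'
        · exact absurd h' hr.one_lt.ne'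
        · exact h'
      rw [hrd'] at hry
      have := Nat.le_of_dvd (by omega) hry
      omega

end Pool.Agent.Lib.MP_2d59ee_ag

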