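import Mathlib
import Pool.Agent.Lib.MP_2d59ee_ag.Mid

set_option autoImplicit false

/-! ## Small -/

/-! The states with `x = 8` and `x = 9` and the corresponding families. -/


namespace Pool.Agent.Lib.MP_2d59ee_ag

/-- a feasible state with `N` and `x` coprime satisfies the final relation -/
theorem good_coprime (a b : ℕ) (ha : 2 ≤ a) (hlt : a < b) (hab : Nat.Coprime a b) (N : ℕ) :
    ∀ (E : ℕ) (α : ℤ) (k : ℚ), Good a b N E α k → ∀ x : ℕ, (x : ℤ) = E * N - α →
      Nat.gcd N x = 1 → ∃ d q : ℕ, 0 < d ∧ 0 < q ∧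
        (d : ℤ) * (((a : ℤ) + b) * N - 1) = q * x ∧
        ((q ∣ a ∧ q ∣ b * N - 1) ∨ (q ∣ b ∧ q ∣ a * N - 1)) := by
  have ha0 : 0 < a := by omega
  have hb0 : 0 < b := by omega
  intro E
  induction E using Nat.strong_induction_on with
  | _ E ih =>
  intro α k g x hx hg1
  obtain ⟨K, q, d, e, hpkg, hcase⟩ := level_pkg a b ha0 hb0 hab N E α k g.hN g.st g.hΔ g.hJ g.hx
  have hqx := hpkg.hx
  rw [← hx] at hqx hcase
  rcases hcase with ⟨hfin, hdiv⟩ | ⟨N₀, hn⟩
  · exact ⟨d, q, hpkg.hd, hpkg.hq, hfin, hdiv⟩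
  · rcases hn.hM with ⟨hq1, hst⟩ | ⟨j, hj, hnd⟩
    · subst hq1
      have hJQ : (e : ℚ) < ((a : ℚ) + b) * d := by exact_mod_cast hn.hJ
      have hdQ : (0 : ℚ) < d := by exact_mod_cast hpkg.hd
      have heE : e < E := by
        have h1 : (e : ℚ) = E - K := by rw [hpkg.heK]; push_cast; ring
        have h2 : (e : ℚ) < E := by
          rw [h1]
          have := hpkg.hkK
          have := g.hk
          linarith
        exact_mod_cast h2
      have hx' : (x : ℤ) = e * N - d := by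
        push_cast at hqx
        linarith
      have hxpos : (0 : ℤ) < x := by rw [hx]; have := g.hx; linarith
      exact ih e heE d 0 ⟨g.hN, le_rfl, hst, by simpa using hdQ, by simpa using hJQ, by linarith⟩
        x hx' hg1
    · exfalso
      rw [← hx] at hj
      apply hnd
      have h1 : (N : ℤ) ∣ ((j * q + 1 : ℕ) : ℤ) * x := by
        refine ⟨(j : ℤ) * e, ?_⟩
        push_cast
        linear_combination (j : ℤ) * hqx - hj
      have h2 : N ∣ (j * q + 1) * x := by exact_mod_cast h1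
      exact (Nat.Coprime.dvd_mul_right hg1).mp h2

/-- the final relation in solved form -/
theorem final_solve {a b N x d q : ℕ} (ha : 2 ≤ a) (hlt : a < b) (hN : 0 < N) (hd : 0 < d)
    (hq : 0 < q)
    (h : (d : ℤ) * (((a : ℤ) + b) * N - 1) = q * x)
    (hdiv : (q ∣ a ∧ q ∣ b * N - 1) ∨ (q ∣ b ∧ q ∣ a * N - 1)) :
    ∃ u v : ℕ, 0 < u ∧ 0 < v ∧ d * (u * N + v) = x ∧
      ((a = q * u ∧ b * N = q * v + 1) ∨ (b = q * u ∧ a * N = q * v + 1)) := by
  have haN : 2 ≤ a * N := by nlinarith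
  have hbN : 3 ≤ b * N := by nlinarith
  have hqZ : (q : ℤ) ≠ 0 := by exact_mod_cast hq.ne'
  rcases hdiv with ⟨⟨u, hu⟩, ⟨v, hv⟩⟩ | ⟨⟨u, hu⟩, ⟨v, hv⟩⟩
  · have hbv : b * N = q * v + 1 := by omega
    refine ⟨u, v, ?_, ?_, ?_, Or.inl ⟨hu, hbv⟩⟩
    · rcases Nat.eq_zero_or_pos u with h0 | h0
      · rw [h0, mul_zero] at hu; omega
      · exact h0
    · rcases Nat.eq_zero_or_pos v with h0 | h0
      · rw [h0, mul_zero] at hv; omega
      · exact h0
    · have h1 : (b : ℤ) * N = q * v + 1 := by exact_mod_cast hbv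
      have h2 : (a : ℤ) = q * u := by exact_mod_cast hu
      have h3 : (q : ℤ) * (d * (u * N + v)) = q * x := by
        rw [← h]
        linear_combination (-(d : ℤ) * N) * h2 - (d : ℤ) * h1
      exact_mod_cast mul_left_cancel₀ hqZ h3
  · have hbv : a * N = q * v + 1 := by omega
    refine ⟨u, v, ?_, ?_, ?_, Or.inr ⟨hu, hbv⟩⟩
    · rcases Nat.eq_zero_or_pos u with h0 | h0
      · rw [h0, mul_zero] at hu; omega
      · exact h0
    · rcases Nat.eq_zero_or_pos v with h0 | h0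
      · rw [h0, mul_zero] at hv; omega
      · exact h0
    · have h1 : (a : ℤ) * N = q * v + 1 := by exact_mod_cast hbv
      have h2 : (b : ℤ) = q * u := by exact_mod_cast hu
      have h3 : (q : ℤ) * (d * (u * N + v)) = q * x := by
        rw [← h]
        linear_combination (-(d : ℤ) * N) * h2 - (d : ℤ) * h1
      exact_mod_cast mul_left_cancel₀ hqZ h3

/-- final relation with `N + w = x` prime and `w < N`: then `w b + 1 = a N` -/
theorem final_prime {a b N x d q w : ℕ} (ha : 2 ≤ a) (hlt : a < b) (hN : 0 < N) (hd : 0 < d)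
    (hq : 0 < q) (h : (d : ℤ) * (((a : ℤ) + b) * N - 1) = q * x)
    (hdiv : (q ∣ a ∧ q ∣ b * N - 1) ∨ (q ∣ b ∧ q ∣ a * N - 1)) (hx : x.Prime) (hxw : x = N + w)
    (hwN : w < N) : w * b + 1 = a * N := by
  obtain ⟨u, v, hu, hv, hduv, hor⟩ := final_solve ha hlt hN hd hq h hdiv
  have h1 : d ∣ x := ⟨u * N + v, hduv.symm⟩
  have huN : N ≤ u * N := Nat.le_mul_of_pos_left N hu
  have hd1 : d = 1 := by
    rcases (Nat.dvd_prime hx).mp h1 with h' | h'
    · exact h'
    · exfalso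
      rw [h'] at hduv
      have hxpos : 0 < x := hx.pos
      have h2 : u * N + v = 1 := by
        apply Nat.eq_of_mul_eq_mul_left hxpos
        rw [hduv, mul_one]
      have hNle : N ≤ 0 := by omega
      omega
  rw [hd1, one_mul] at hduv
  have hu1 : u = 1 := by
    by_contra hne
    have h2 : 2 * N ≤ u * N := Nat.mul_le_mul_right N (by omega)
    omega
  subst hu1
  have hvw : v = w := by omega
  subst hvw
  rcases hor with ⟨h2, h3⟩ | ⟨h2, h3⟩
  · exfalso
    have h4 : q = a := by omega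
    subst h4
    have h5 : q * N < b * N := Nat.mul_lt_mul_of_pos_right hlt hN
    have h6 : q * v ≤ q * N := Nat.mul_le_mul_left q hwN.le
    have h7 : q * v + q ≤ q * N := by
      have : q * (v + 1) ≤ q * N := Nat.mul_le_mul_left q hwN
      rwa [Nat.mul_add, Nat.mul_one] at this
    omega
  · rw [mul_one] at h2
    rw [h2, h3]; ring

/-- the state `(3, 3)` (with `E = 2`) does not occur -/
theorem no_three (a b : ℕ) (ha : 2 ≤ a) (hlt : a < b) (hab : Nat.Coprime a b)
    (g : Good a b 3 2 (3 : ℤ) 0) : False := by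
  have ha0 : 0 < a := by omega
  have hb0 : 0 < b := by omega
  obtain ⟨K, q, d, e, hpkg, hcase⟩ := level_pkg a b ha0 hb0 hab 3 2 3 0 g.hN g.st g.hΔ g.hJ g.hx
  have hqx := hpkg.hx
  push_cast at hqx
  have hq := hpkg.hq
  have hd := hpkg.hd
  have he2q : e < 2 * q := by
    have hqQ : (0 : ℚ) < q := by exact_mod_cast hq
    have h1 : (e : ℚ) < 2 * q := by
      rw [hpkg.heK]
      have := hpkg.hkK
      push_cast
      nlinarith
    exact_mod_cast h1
  rcases hcase with ⟨hfin, hdiv⟩ | ⟨N₀, hn⟩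
  · have hqb : q ≤ b := by
      rcases hdiv with ⟨h1, -⟩ | ⟨h1, -⟩
      · exact (Nat.le_of_dvd ha0 h1).trans hlt.le
      · exact Nat.le_of_dvd hb0 h1
    push_cast at hfin
    have h1 : (1 : ℤ) ≤ d := by exact_mod_cast hd
    have h2 : (q : ℤ) ≤ b := by exact_mod_cast hqb
    have h3 : (2 : ℤ) ≤ a := by exact_mod_cast ha
    have h4 : (0 : ℤ) < b := by exact_mod_cast hb0
    nlinarith
  · have hlt₀ := hn.hlt
    obtain ⟨σ, hσ⟩ := hn.hdvd
    rcases hn.hM with ⟨hq1, -⟩ | ⟨j, hj, hnd⟩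
    · omega
    · push_cast at hj
      have hd13 : d = 1 ∨ d = 3 := by
        have h1 : d ∣ 3 := by
          have : ((d : ℕ) : ℤ) ∣ 3 := ⟨j, by linarith⟩
          exact_mod_cast this
        exact (Nat.dvd_prime Nat.prime_three).mp h1
      rcases hd13 with h | h
      · subst h; omega
      · subst h
        have he : e = q + 1 := by omega
        have hq2 : 2 ≤ q := by omega
        have hσ1 : 1 ≤ σ := by
          have h1 : 0 < (q : ℤ) * σ := by rw [← hσ]; push_cast; omega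
          have h2 := (mul_pos_iff_of_pos_left (by exact_mod_cast hq : (0 : ℤ) < q)).mp h1
          omega
        have hqN : (q : ℤ) ≤ 3 - N₀ := by
          have : (q : ℤ) * 1 ≤ q * σ := mul_le_mul_of_nonneg_left hσ1 (by omega)
          push_cast at hσ
          linarith
        have hq23 : q = 2 ∨ q = 3 := by omega
        rcases hq23 with h | h
        · subst h
          have hN₀ : N₀ = 1 := by
            push_cast at hσ
            omega
          subst hN₀
          have := hn.hne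
          omega
        · subst h
          have hN₀ : N₀ = 0 := by omega
          subst hN₀
          obtain ⟨N₁, h1, h2, hst⟩ := hn.hbig (by omega)
          have hN₁ : N₁ = 1 := by
            rcases Nat.eq_zero_or_pos N₁ with h0 | h0
            · rw [h0] at h2; omega
            · omega
          subst hN₁
          subst he
          have hJ : (((3 + 1 : ℕ) : ℕ) : ℚ) < ((a : ℚ) + b) * (3 : ℕ) := by exact_mod_cast hn.hJ
          have g₁ : Good a b 1 (3 + 1) ((3 : ℕ) : ℤ) 0 :=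
            ⟨one_pos, le_rfl, hst, by norm_num, by simpa using hJ, by norm_num⟩
          have h5 := (g₁.concl ha0 hb0 hab).facts ha hlt
          norm_num at h5

theorem Good.two_le {a b N E : ℕ} {α : ℤ} {k : ℚ} (g : Good a b N E α k) (ha : 2 ≤ a)
    (hlt : a < b) (hab : Nat.Coprime a b) (x : ℕ) (hx : (x : ℤ) = E * N - α) : 2 ≤ x := by
  have h := (g.concl (by omega) (by omega) hab).facts ha hlt
  rw [← hx] at h
  exact_mod_cast h.1

/-- the general form of the next level, in natural numbers -/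
theorem general_level (a b : ℕ) (ha : 2 ≤ a) (hlt : a < b) (hab : Nat.Coprime a b)
    {N E : ℕ} {α : ℤ} {k : ℚ} (g : Good a b N E α k) (x : ℕ) (hxx : (x : ℤ) = E * N - α) :
    ∃ (K : ℚ) (q d e : ℕ), k < K ∧ 0 < q ∧ 0 < e ∧ 0 < d ∧ (e : ℚ) = q * (E - K) ∧
      e * N = q * x + d ∧
      (((d : ℤ) * (((a : ℤ) + b) * N - 1) = q * x ∧ q ≤ b) ∨
       (q = 1 ∧ Good a b N e d 0) ∨
       (∃ j N₀ σ : ℕ, j * d = x ∧ ¬ (N ∣ j * q + 1) ∧ N = N₀ + q * σ ∧ 0 < σ ∧ e * N₀ ≠ d ∧
          ((e * N₀ < d ∧ ∃ N₁ x₁ : ℕ, Good a b N₁ e d 0 ∧ q * N₁ ≤ N ∧ e * N₁ = d + x₁ ∧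
              2 ≤ x₁ ∧ (x₁ : ℤ) = e * N₁ - (d : ℤ)) ∨
           (d < e * N₀ ∧ ∃ (α₀ : ℤ) (x' : ℕ), Good a b N₀ E α₀ K ∧ (x' : ℤ) = E * N₀ - α₀ ∧
              e * N₀ = q * x' + d ∧ 2 ≤ x')))) := by
  have ha0 : 0 < a := by omega
  have hb0 : 0 < b := by omega
  obtain ⟨K, q, d, e, hpkg, hcase⟩ := level_pkg a b ha0 hb0 hab N E α k g.hN g.st g.hΔ g.hJ g.hx
  have hqQ : (0 : ℚ) < q := by exact_mod_cast hpkg.hq
  have hqZ : (0 : ℤ) < q := by exact_mod_cast hpkg.hq
  have heQ : (0 : ℚ) < e := by exact_mod_cast hpkg.he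
  have hdQ : (0 : ℚ) < d := by exact_mod_cast hpkg.hd
  have heZ : (1 : ℤ) ≤ e := by exact_mod_cast hpkg.he
  have hdZ : (1 : ℤ) ≤ d := by exact_mod_cast hpkg.hd
  have heK := hpkg.heK
  have hdK := hpkg.hdK
  have hkK := hpkg.hkK
  have hqx := hpkg.hx
  rw [← hxx] at hqx hcase
  have hxpos : (0 : ℤ) < x := by rw [hxx]; have := g.hx; linarith
  have heN : e * N = q * x + d := by
    have h1 : ((e * N : ℕ) : ℤ) = ((q * x + d : ℕ) : ℤ) := by push_cast; linarith
    exact_mod_cast h1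
  refine ⟨K, q, d, e, hkK, hpkg.hq, hpkg.he, hpkg.hd, heK, heN, ?_⟩
  rcases hcase with ⟨hfin, hdiv⟩ | ⟨N₀, hn⟩
  · left
    refine ⟨hfin, ?_⟩
    rcases hdiv with ⟨h1, -⟩ | ⟨h1, -⟩
    · exact (Nat.le_of_dvd ha0 h1).trans hlt.le
    · exact Nat.le_of_dvd hb0 h1
  right
  have hJZ : (e : ℚ) < ((a : ℚ) + b) * d := by exact_mod_cast hn.hJ
  rcases hn.hM with ⟨hq1, hst⟩ | ⟨j, hj, hnd⟩
  · left
    subst hq1
    refine ⟨rfl, g.hN, le_rfl, hst, by simpa using hdQ, by simpa using hJZ, ?_⟩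
    have : (e : ℤ) * N = x + d := by exact_mod_cast (by omega : e * N = x + d)
    linarith
  right
  rw [← hxx] at hj
  have hjx : j * d = x := by exact_mod_cast hj
  obtain ⟨σ', hσ'⟩ := hn.hdvd
  have hN₀lt : (N₀ : ℤ) < N := by exact_mod_cast hn.hlt
  have hσ'pos : 0 < σ' := by
    have h1 : 0 < (q : ℤ) * σ' := by rw [← hσ']; linarith
    exact (mul_pos_iff_of_pos_left hqZ).mp h1
  obtain ⟨σ, rfl⟩ := Int.eq_ofNat_of_zero_le hσ'pos.le
  have hσ : 0 < σ := by exact_mod_cast hσ'pos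
  have hNσ : N = N₀ + q * σ := by
    have h1 : (N : ℤ) = ((N₀ + q * σ : ℕ) : ℤ) := by push_cast; linarith
    exact_mod_cast h1
  refine ⟨j, N₀, σ, hjx, hnd, hNσ, hσ, hn.hne, ?_⟩
  rcases lt_or_gt_of_ne hn.hne with hmin | hmaj
  · left
    obtain ⟨N₁, hqN₁, hdN₁, hst₁⟩ := hn.hbig hmin
    have hN₁pos : 0 < N₁ := by
      rcases Nat.eq_zero_or_pos N₁ with h | h
      · rw [h] at hdN₁; omega
      · exact h
    have hg₁ : Good a b N₁ e d 0 := ⟨hN₁pos, le_rfl, hst₁, by simpa using hdQ,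
      by simpa using hJZ, by exact_mod_cast hdN₁⟩
    obtain ⟨x₁, hx₁⟩ : ∃ x₁ : ℕ, e * N₁ = d + x₁ := ⟨e * N₁ - d, by omega⟩
    have hx₁Z : (x₁ : ℤ) = e * N₁ - (d : ℤ) := by
      have : ((e * N₁ : ℕ) : ℤ) = ((d + x₁ : ℕ) : ℤ) := by rw [hx₁]
      push_cast at this ⊢
      linarith
    exact ⟨hmin, N₁, x₁, hg₁, hqN₁, hx₁, hg₁.two_le ha hlt hab x₁ hx₁Z, hx₁Z⟩
  · right
    have hN₀pos : 0 < N₀ := by
      rcases Nat.eq_zero_or_pos N₀ with h | h
      · rw [h] at hmaj; omega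
      · exact h
    obtain ⟨α₀, hrel, hst₀⟩ := hn.hzero hN₀pos
    have hmajQ : (d : ℚ) < e * N₀ := by exact_mod_cast hmaj
    have hα₀ : α₀ < E * N₀ := by
      have h1 : (q : ℚ) * (α₀ - K * N₀) < q * ((E - K) * N₀) := by
        rw [hrel, ← hdK]
        have : (q : ℚ) * ((E - K) * N₀) = e * N₀ := by rw [heK]; ring
        rw [this]; exact hmajQ
      have h2 := lt_of_mul_lt_mul_left h1 hqQ.le
      have h3 : (α₀ : ℚ) < E * N₀ := by linarith
      exact_mod_cast h3
    have hΔ₀ : 0 < (α₀ : ℚ) - K * N₀ := by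
      rw [hrel]
      by_contra hcon
      push Not at hcon
      nlinarith
    have hJ₀ : (E : ℚ) - K < ((a : ℚ) + b) * (α₀ - K * N₀) := by
      rw [hrel]
      have h1 : (q : ℚ) * (E - K) < q * (((a : ℚ) + b) * (α - K * N)) := by
        rw [← heK]
        have : (q : ℚ) * (((a : ℚ) + b) * (α - K * N)) = ((a : ℚ) + b) * d := by
          rw [hdK]; ring
        rw [this]; exact hJZ
      exact lt_of_mul_lt_mul_left h1 hqQ.le
    have hg₀ : Good a b N₀ E α₀ K := ⟨hN₀pos, by have := g.hk; linarith, hst₀, hΔ₀, hJ₀, hα₀⟩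
    obtain ⟨x', hx'⟩ : ∃ x' : ℕ, (x' : ℤ) = E * N₀ - α₀ :=
      ⟨(E * N₀ - α₀ : ℤ).toNat, Int.toNat_of_nonneg (by linarith)⟩
    have heN₀Q : ((e * N₀ : ℕ) : ℚ) = ((q * x' + d : ℕ) : ℚ) := by
      have h1 : (x' : ℚ) = E * N₀ - α₀ := by exact_mod_cast hx'
      push_cast
      rw [heK, hdK, h1, ← hrel]; ring
    have heN₀ : e * N₀ = q * x' + d := by exact_mod_cast heN₀Q
    exact ⟨hmaj, α₀, x', hg₀, hx', heN₀, hg₀.two_le ha hlt hab x' hx'⟩

/-- the state with `N = 6`, `E = 2`, `x = 3` does not occur -/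
theorem no_six (a b : ℕ) (ha : 2 ≤ a) (hlt : a < b) (hab : Nat.Coprime a b)
    (g : Good a b 6 2 (9 : ℤ) 0) : False := by
  obtain ⟨K, q, d, e, hkK, hq, he, hd, heK, heN, hcase⟩ :=
    general_level a b ha hlt hab g 3 (by norm_num)
  have he2q : e < 2 * q := by
    have hqQ : (0 : ℚ) < q := by exact_mod_cast hq
    have h1 : (e : ℚ) < 2 * q := by
      rw [heK]
      push_cast
      nlinarith
    exact_mod_cast h1
  rcases hcase with ⟨hfin, hqb⟩ | ⟨hq1, g'⟩ | ⟨j, N₀, σ, hj, hnd, hNσ, hσ, hne, hor⟩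
  · push_cast at hfin
    have h1 : (1 : ℤ) ≤ d := by exact_mod_cast hd
    have h2 : (q : ℤ) ≤ b := by exact_mod_cast hqb
    have h3 : (2 : ℤ) ≤ a := by exact_mod_cast ha
    have h4 : (0 : ℤ) < b := by exact_mod_cast (by omega : 0 < b)
    nlinarith
  · subst hq1
    have he1 : e = 1 := by omega
    subst he1
    have hd3 : d = 3 := by omega
    subst hd3
    have := (main_bounds a b ha hlt hab 6 1 3 0 g' (by norm_num) 3 (by norm_num)).1
    omega
  · have hd13 : d = 1 ∨ d = 3 := (Nat.dvd_prime Nat.prime_three).mp ⟨j, by rw [← hj]; ring⟩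
    rcases hd13 with h | h
    · subst h; omega
    · subst h
      have hqe : q = 2 * e - 1 := by omega
      have hqσ : q ≤ 6 - N₀ := by
        have : q * 1 ≤ q * σ := Nat.mul_le_mul_left q hσ
        omega
      have he3 : e = 1 ∨ e = 2 ∨ e = 3 := by omega
      rcases hor with ⟨hmin, N₁, x₁, g₁, hqN₁, hx₁, hx₁2, hx₁Z⟩ |
        ⟨hmaj, α₀, x', g₀, hx', heN₀, hx'2⟩
      · rcases he3 with h | h | h
        · subst h
          have hq1 : q = 1 := by omega
          subst hq1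
          have := (main_bounds a b ha hlt hab N₁ 1 3 0 g₁ (by norm_num) x₁ (by
            simpa using hx₁Z)).1
          omega
        · subst h
          have hq3 : q = 3 := by omega
          subst hq3
          omega
        · subst h
          have hq5 : q = 5 := by omega
          subst hq5
          omega
      · rcases he3 with h | h | h
        · subst h
          have hq1 : q = 1 := by omega
          subst hq1
          have hE : ((2 : ℕ) : ℚ) - K ≤ 1 := by
            have h1 : (((1 : ℕ) : ℕ) : ℚ) = ((1 : ℕ) : ℚ) * (((2 : ℕ) : ℚ) - K) := heK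
            push_cast at h1 ⊢
            linarith
          have := (main_bounds a b ha hlt hab N₀ 2 α₀ K g₀ hE x' hx').1
          omega
        · subst h
          have hq3 : q = 3 := by omega
          subst hq3
          omega
        · subst h
          have hq5 : q = 5 := by omega
          subst hq5
          omega

/-- the family attached to `x = 8` -/
theorem eight_family (a b : ℕ) (ha : 2 ≤ a) (hlt : a < b) (hab : Nat.Coprime a b)
    (N E : ℕ) (α : ℤ) (k : ℚ) (g : Good a b N E α k) (hE1 : (E : ℚ) - k ≤ 1)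
    (hx : ((8 : ℕ) : ℤ) = E * N - α) : 2 * b + 1 = a * 3 := by
  obtain ⟨K, q, d, e, j, N₀, σ, s, hcase⟩ := start_level a b ha hlt hab g hE1 8 hx
  obtain ⟨hkK, hq2, he, heq, hd, cop, heK, hdK, hj, hj0, heN, hNσ, hσ⟩ := s
  rcases hcase with ⟨hmin, N₁, x₁, g₁, hN₁N, hqN₁, hx₁, hx₁2, hx₁N, hgcd⟩ |
    ⟨hmaj, hlt₀, α₀, x', g₀, hx', hrel, heN₀, hxx', hgcd⟩
  · have hqd := minor_bound heN hNσ hmin
    have hx₁Z : (x₁ : ℤ) = e * N₁ - (d : ℤ) := by
      have h1 : ((e * N₁ : ℕ) : ℤ) = ((d + x₁ : ℕ) : ℤ) := by rw [hx₁]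
      push_cast at h1
      linarith
    have hqx₁ : q * (d + x₁) ≤ q * 8 + d := by
      rw [← hx₁, ← heN]
      calc q * (e * N₁) = e * (q * N₁) := by ring
        _ ≤ e * N := Nat.mul_le_mul_left e hqN₁
    have he2 : 2 ≤ e := by
      by_contra hcon
      have he1 : e = 1 := by omega
      subst he1
      have h8 := (main_bounds a b ha hlt hab N₁ 1 d 0 g₁ (by norm_num) x₁ hx₁Z).1
      have hd8 : d ≤ 8 := by
        rw [← hj]; exact Nat.le_mul_of_pos_left d hj0
      have h9 : q * (d + x₁) = q * d + q * x₁ := by ring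
      have h10 : q * 8 ≤ q * x₁ := Nat.mul_le_mul_left q h8
      have h11 : 2 * d ≤ q * d := Nat.mul_le_mul_right d hq2
      omega
    have hq3 : 3 ≤ q := by omega
    have hd8 : d ≤ 8 := by
      rw [← hj]; exact Nat.le_mul_of_pos_left d hj0
    have hddvd : d ∣ 8 := ⟨j, by rw [← hj]; ring⟩
    have hd48 : d = 4 ∨ d = 8 := by
      have : 3 ≤ d := by omega
      interval_cases d <;> simp_all
    rcases hd48 with h | h
    · subst h
      have hq4 : q = 3 ∨ q = 4 := by omega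
      rcases hq4 with h | h
      · subst h
        have he2' : e = 2 := by omega
        subst he2'
        omega
      · subst h
        have he3 : e = 3 := by
          have : e = 2 ∨ e = 3 := by omega
          rcases this with h | h
          · subst h; revert cop; decide
          · exact h
        subst he3
        have hN₁3 : N₁ = 3 := by
          have h1 : N₁ ≤ 3 := by omega
          have h2 : N₁ ≠ 2 := by
            intro h
            have h3 : x₁ = 2 := by omega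
            have := hx₁N h3
            omega
          omega
        have hx₁5 : x₁ = 5 := by omega
        subst hN₁3
        subst hx₁5
        obtain ⟨d', q', hd', hq', hrel', hdiv'⟩ :=
          good_coprime a b ha hlt hab 3 3 4 0 g₁ 5 (by norm_num) (by decide)
        exact final_prime (w := 2) ha hlt (by norm_num) hd' hq' hrel' hdiv' (by norm_num)
          (by norm_num) (by norm_num)
    · exfalso
      subst h
      have h2 : x₁ = 2 := by
        have h9 : 3 * x₁ ≤ q * x₁ := Nat.mul_le_mul_right x₁ hq3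
        have h10 : q * (8 + x₁) = q * 8 + q * x₁ := by ring
        omega
      have h3 := hx₁N h2
      rw [h3, h2] at hx₁
      omega
  · exfalso
    have h8 := (main_bounds a b ha hlt hab N₀ E α₀ K g₀ (by linarith) x' hx').1
    have : 0 < e * σ := Nat.mul_pos he hσ
    omega

/-- the families attached to `x = 9` -/
theorem nine_family (a b : ℕ) (ha : 2 ≤ a) (hlt : a < b) (hab : Nat.Coprime a b)
    (N E : ℕ) (α : ℤ) (k : ℚ) (g : Good a b N E α k) (hE1 : (E : ℚ) - k ≤ 1)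
    (hx : ((9 : ℕ) : ℤ) = E * N - α) :
    N = 15 ∧ (1 * b + 1 = a * 4 ∨ 2 * b + 1 = a * 5) := by
  obtain ⟨K, q, d, e, j, N₀, σ, s, hcase⟩ := start_level a b ha hlt hab g hE1 9 hx
  obtain ⟨hkK, hq2, he, heq, hd, cop, heK, hdK, hj, hj0, heN, hNσ, hσ⟩ := s
  have hqQ : (0 : ℚ) < q := by exact_mod_cast (by omega : 0 < q)
  rcases hcase with ⟨hmin, N₁, x₁, g₁, hN₁N, hqN₁, hx₁, hx₁2, hx₁N, hgcd⟩ |
    ⟨hmaj, hlt₀, α₀, x', g₀, hx', hrel, heN₀, hxx', hgcd⟩
  · have hqd := minor_bound heN hNσ hmin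
    have hx₁Z : (x₁ : ℤ) = e * N₁ - (d : ℤ) := by
      have h1 : ((e * N₁ : ℕ) : ℤ) = ((d + x₁ : ℕ) : ℤ) := by rw [hx₁]
      push_cast at h1
      linarith
    have hqx₁ : q * (d + x₁) ≤ q * 9 + d := by
      rw [← hx₁, ← heN]
      calc q * (e * N₁) = e * (q * N₁) := by ring
        _ ≤ e * N := Nat.mul_le_mul_left e hqN₁
    have hd9 : d ≤ 9 := by
      rw [← hj]; exact Nat.le_mul_of_pos_left d hj0
    have hddvd : d ∣ 9 := ⟨j, by rw [← hj]; ring⟩
    have hd39 : d = 3 ∨ d = 9 := by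
      have : 2 ≤ d := by omega
      interval_cases d <;> simp_all
    have he2 : 2 ≤ e := by
      by_contra hcon
      have he1 : e = 1 := by omega
      subst he1
      have h8 := (main_bounds a b ha hlt hab N₁ 1 d 0 g₁ (by norm_num) x₁ hx₁Z).1
      have h9 : q * (d + x₁) = q * d + q * x₁ := by ring
      have h10 : q * 8 ≤ q * x₁ := Nat.mul_le_mul_left q h8
      have h11 : 2 * d ≤ q * d := Nat.mul_le_mul_right d hq2
      rcases hd39 with h | h
      · subst h; omega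
      · subst h; omega
    have hq3 : 3 ≤ q := by omega
    rcases hd39 with h | h
    · subst h
      have hq3' : q = 3 := by omega
      subst hq3'
      have he2' : e = 2 := by omega
      subst he2'
      refine ⟨by omega, ?_⟩
      have hN₁ : N₁ = 3 ∨ N₁ = 4 ∨ N₁ = 5 := by omega
      rcases hN₁ with h | h | h
      · exfalso
        subst h
        exact no_three a b ha hlt hab (by exact_mod_cast g₁)
      · left
        subst h
        have hx₁5 : x₁ = 5 := by omega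
        subst hx₁5
        obtain ⟨d', q', hd', hq', hrel', hdiv'⟩ :=
          good_coprime a b ha hlt hab 4 2 3 0 g₁ 5 (by norm_num) (by decide)
        exact final_prime (w := 1) ha hlt (by norm_num) hd' hq' hrel' hdiv' (by norm_num)
          (by norm_num) (by norm_num)
      · right
        subst h
        have hx₁7 : x₁ = 7 := by omega
        subst hx₁7
        obtain ⟨d', q', hd', hq', hrel', hdiv'⟩ :=
          good_coprime a b ha hlt hab 5 2 3 0 g₁ 7 (by norm_num) (by decide)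
        exact final_prime (w := 2) ha hlt (by norm_num) hd' hq' hrel' hdiv' (by norm_num)
          (by norm_num) (by norm_num)
    · exfalso
      subst h
      have hqx : q * x₁ ≤ 9 := by
        have : q * (9 + x₁) = q * 9 + q * x₁ := by ring
        omega
      have h3x : 3 * x₁ ≤ q * x₁ := Nat.mul_le_mul_right x₁ hq3
      have hx₁' : x₁ = 2 ∨ x₁ = 3 := by omega
      rcases hx₁' with h | h
      · have h3 := hx₁N h
        rw [h3, h] at hx₁
        omega
      · subst h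
        have hq : q = 3 := by omega
        subst hq
        have he2' : e = 2 := by omega
        subst he2'
        have hN₁ : N₁ = 6 := by omega
        subst hN₁
        exact no_six a b ha hlt hab (by exact_mod_cast g₁)
  · exfalso
    have h8 := (main_bounds a b ha hlt hab N₀ E α₀ K g₀ (by linarith) x' hx').1
    have heσ : 0 < e * σ := Nat.mul_pos he hσ
    have hx'8 : x' = 8 := by omega
    subst hx'8
    obtain ⟨-, h34⟩ := eight_states a b ha hlt hab N₀ E α₀ K g₀ (by linarith) hx'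
    have h34' : 3 * q < 4 * e := by
      have : (3 : ℚ) * q < 4 * e := by
        rw [heK]
        have := mul_lt_mul_of_pos_right h34 hqQ
        linarith
      exact_mod_cast this
    have hle : e ≤ 1 := by
      have : e ≤ e * σ := Nat.le_mul_of_pos_right e hσ
      omega
    omega

end Pool.Agent.Lib.MP_2d59ee_ag


/-! ## Classify -/

/-! The classification for `(n - m)/a ≤ 11`. -/


namespace Pool.Agent.Lib.MP_2d59ee_ag

open Polynomial

theorem start_good (a b m' n' : ℕ) (hm : 0 < m') (hmn : m' < n') (hab : Nat.Coprime a b)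
    (ha : 2 ≤ a) (hlt : a < b) (F G : MvPolynomial (Fin 2) ℂ)
    (hF : ∀ d ∈ F.support, d 1 ≤ a * n' ∧ d 0 + d 1 ≤ a * m' + a * n')
    (hG : ∀ d ∈ G.support, d 1 ≤ b * n' ∧ d 0 + d 1 ≤ b * m' + b * n')
    (hFv : ∃ d : Fin 2 →₀ ℕ, d 0 = a * m' ∧ d 1 = a * n' ∧ F.coeff d ≠ 0)
    (hGv : ∃ d : Fin 2 →₀ ℕ, d 0 = b * m' ∧ d 1 = b * n' ∧ G.coeff d ≠ 0)
    (hdiv : ∀ i : ℕ, i ≤ a * n' →
      ((MvPolynomial.X 0 + MvPolynomial.X 1 : MvPolynomial (Fin 2) ℂ) ^ (a * n' - i)) ∣
          MvPolynomial.homogeneousComponent (a * m' + a * n' - i) F)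
    (c : ℂ) (hc : c ≠ 0)
    (hbr : MvPolynomial.pderiv 0 F * MvPolynomial.pderiv 1 G
      - MvPolynomial.pderiv 1 F * MvPolynomial.pderiv 0 G = MvPolynomial.C c) :
    ∃ (N₁ x₁ E : ℕ) (α : ℤ) (k : ℚ), N₁ ≤ n' ∧ Good a b N₁ E α k ∧ (E : ℚ) - k ≤ 1 ∧
      (x₁ : ℤ) = E * N₁ - α ∧ N₁ = m' + x₁ ∧ (N₁ = n' ∨ m' ∣ n' - m') := by
  have ha0 : 0 < a := by omega
  have hb0 : 0 < b := by omega
  have hn : 0 < n' := hm.trans hmn
  have hmQ : (1 : ℚ) ≤ m' := by exact_mod_cast hm
  have hnQ : (2 : ℚ) ≤ n' := by exact_mod_cast (by omega : 2 ≤ n')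
  have hmnQ : (m' : ℚ) + 1 ≤ n' := by exact_mod_cast hmn
  have haQ : (2 : ℚ) ≤ a := by exact_mod_cast ha
  have hbQ : (3 : ℚ) ≤ b := by exact_mod_cast (by omega : 3 ≤ b)
  have hbr' := brB_Phi_const F G c hbr
  have hcneg : -c ≠ 0 := neg_ne_zero.mpr hc
  have hd0 := hdiv 0 (Nat.zero_le _)
  rw [Nat.sub_zero, Nat.sub_zero] at hd0
  obtain ⟨hCF, hCG⟩ := init_corners a b m' n' hm hmn ha hlt F G hF hG hFv hGv hd0 c hbr
  have hP1 := atLevel_one a m' n' F hF hdiv
  have hab5 : (5 : ℚ) ≤ (a : ℚ) + b := by linarith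
  have hαQ : (((m' : ℤ) + n' : ℤ) : ℚ) = m' + n' := by push_cast; ring
  have hQ1 := atLevel_partner a b ha0 hb0 hab n' 2 ((m' : ℤ) + n') (Phi F) (Phi G) (-c) hcneg
    hbr' hn hCF hCG 1 one_pos hP1 (by push_cast; norm_num)
    (by rw [hαQ]; linarith)
    (by push_cast; omega)
    (by rw [hαQ]; push_cast; nlinarith)
    (by rw [hαQ]; push_cast; nlinarith)
  by_cases hatt : Attained (Phi F) a ((m' : ℤ) + n') n' 1 ∨ Attained (Phi G) b ((m' : ℤ) + n') n' 1
  · -- the level one is attained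
    obtain ⟨d, e₁, hd, he₁, hpkg⟩ := level_nums a b n' 2 ((m' : ℤ) + n') 0 1 one_pos
      (by push_cast; norm_num) (by rw [hαQ]; linarith)
    obtain ⟨N₀, hN⟩ := level_core a b ha0 hb0 hab n' 2 ((m' : ℤ) + n') 0 1 hn (Phi F) (Phi G) (-c)
      hcneg hbr' hCF hCG one_pos hP1 hQ1 (by rw [hαQ]; push_cast; linarith)
      (by rw [hαQ]; push_cast; nlinarith) hatt d e₁ hd he₁ hpkg
    have hq1 : (1 : ℚ).den = 1 := rfl
    have he1 : e₁ = 1 := by
      have h1 := hpkg.heK
      rw [hq1] at h1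
      have h2 : (e₁ : ℚ) = 1 := by rw [h1]; push_cast; norm_num
      exact_mod_cast h2
    have hdm : (d : ℤ) = m' := by
      have h1 := hpkg.hdK
      rw [hq1, hαQ] at h1
      have h2 : (d : ℚ) = m' := by rw [h1]; push_cast; ring
      exact_mod_cast h2
    have hdm' : d = m' := by exact_mod_cast hdm
    subst hdm'
    subst he1
    have hlast : ∀ N₁ : ℕ, N₁ ≤ n' → d < N₁ → St a b N₁ 1 d 0 →
        ∃ x₁ : ℕ, Good a b N₁ 1 d 0 ∧ (x₁ : ℤ) = (1 : ℕ) * N₁ - (d : ℤ) ∧ N₁ = d + x₁ := by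
      intro N₁ _ hdN₁ hst₁
      have hN₁pos : 0 < N₁ := by omega
      obtain ⟨x₁, hx₁⟩ : ∃ x₁ : ℕ, N₁ = d + x₁ := ⟨N₁ - d, by omega⟩
      refine ⟨x₁, ⟨hN₁pos, le_rfl, hst₁, by push_cast; linarith, by push_cast; nlinarith,
          by push_cast; omega⟩, ?_, hx₁⟩
      rw [hx₁]; push_cast; ring
    rcases hN.hM with ⟨-, hst⟩ | ⟨j, hj, -⟩
    · obtain ⟨x₁, h1, h2, h3⟩ := hlast n' le_rfl hmn hst
      exact ⟨n', x₁, 1, d, 0, le_rfl, h1, by push_cast; norm_num, h2, h3, Or.inl rfl⟩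
    · have hdvd : d ∣ n' - d := by
        have h1 : (j : ℤ) * d = n' - d := by rw [hj]; push_cast; ring
        have h2 : ((n' - d : ℕ) : ℤ) = n' - d := by
          rw [Nat.cast_sub hmn.le]
        refine ⟨j, ?_⟩
        have h3 : ((n' - d : ℕ) : ℤ) = ((d * j : ℕ) : ℤ) := by
          rw [h2, ← h1]; push_cast; ring
        exact_mod_cast h3
      rcases lt_or_gt_of_ne hN.hne with hmin | hmaj
      · obtain ⟨N₁, hqN₁, hdN₁, hst₁⟩ := hN.hbig hmin
        rw [hq1, one_mul] at hqN₁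
        rw [one_mul] at hdN₁
        obtain ⟨x₁, h1, h2, h3⟩ := hlast N₁ hqN₁ hdN₁ hst₁
        exact ⟨N₁, x₁, 1, d, 0, hqN₁, h1, by push_cast; norm_num, h2, h3, Or.inr hdvd⟩
      · rw [one_mul] at hmaj
        have hN₀pos : 0 < N₀ := by omega
        obtain ⟨α₀, hrel, hst₀⟩ := hN.hzero hN₀pos
        rw [hαQ] at hrel
        have hα₀ : (α₀ : ℚ) = N₀ + d := by linarith
        have hα₀Z : α₀ = N₀ + d := by exact_mod_cast hα₀
        obtain ⟨x₁, hx₁⟩ : ∃ x₁ : ℕ, N₀ = d + x₁ := ⟨N₀ - d, by omega⟩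
        refine ⟨N₀, x₁, 2, α₀, 1, hN.hlt.le,
          ⟨hN₀pos, zero_le_one, hst₀, by rw [hα₀]; linarith,
            by rw [hα₀]; push_cast; nlinarith, by rw [hα₀Z]; push_cast; omega⟩,
          by push_cast; norm_num, ?_, hx₁, Or.inr hdvd⟩
        rw [hα₀Z, hx₁]; push_cast; ring
  · push Not at hatt
    have hst : St a b n' 2 ((m' : ℤ) + n') 1 :=
      ⟨Phi F, Phi G, -c, hcneg, hbr', corner_of_not_attained hCF hP1 hatt.1,
        corner_of_not_attained hCG hQ1 hatt.2⟩
    obtain ⟨x₁, hx₁⟩ : ∃ x₁ : ℕ, n' = m' + x₁ := ⟨n' - m', by omega⟩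
    refine ⟨n', x₁, 2, (m' : ℤ) + n', 1, le_rfl,
      ⟨hn, zero_le_one, hst, by rw [hαQ]; linarith, by rw [hαQ]; push_cast; nlinarith,
        by push_cast; omega⟩, by push_cast; norm_num, ?_, hx₁, Or.inl rfl⟩
    rw [hx₁]; push_cast; ring


theorem classify {a b m' n' : ℕ} (ha : 2 ≤ a) (hlt : a < b) (hab : Nat.Coprime a b)
    (hmn : m' < n') (ht : n' - m' ≤ 11)
    (h : ∃ (N₁ x₁ E : ℕ) (α : ℤ) (k : ℚ), N₁ ≤ n' ∧ Good a b N₁ E α k ∧ (E : ℚ) - k ≤ 1 ∧
      (x₁ : ℤ) = E * N₁ - α ∧ N₁ = m' + x₁ ∧ (N₁ = n' ∨ m' ∣ n' - m')) :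
    (m' = 4 ∧ n' = 12 ∧ 2 * b + 1 = a * 3) ∨
    (m' = 6 ∧ n' = 15 ∧ (1 * b + 1 = a * 4 ∨ 2 * b + 1 = a * 5)) := by
  obtain ⟨N₁, x₁, E, α, k, hN₁, g, hE1, hx, hN, hor⟩ := h
  obtain ⟨h8, hq, -⟩ := main_bounds a b ha hlt hab N₁ E α k g hE1 x₁ hx
  have h10 : x₁ ≠ 10 := by
    rintro rfl
    exact ne_ten a b ha hlt hab N₁ E α k g hE1 hx
  have h11 : x₁ ≠ 11 := by
    rintro rfl
    exact not_prime a b ha hlt hab N₁ E α k g hE1 11 hx (by norm_num)
  have hcase : x₁ = 8 ∨ x₁ = 9 := by omega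
  rcases hcase with h | h
  · subst h
    have h12 := (eight_states a b ha hlt hab N₁ E α k g hE1 hx).1
    have hf := eight_family a b ha hlt hab N₁ E α k g hE1 hx
    left
    have hm4 : m' = 4 := by omega
    refine ⟨hm4, ?_, hf⟩
    rcases hor with h | h
    · omega
    · obtain ⟨t, ht'⟩ := h
      rw [hm4] at ht'
      omega
  · subst h
    obtain ⟨h15, hf⟩ := nine_family a b ha hlt hab N₁ E α k g hE1 hx
    right
    have hm6 : m' = 6 := by omega
    refine ⟨hm6, ?_, hf⟩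
    rcases hor with h | h
    · omega
    · obtain ⟨t, ht'⟩ := h
      rw [hm6] at ht'
      omega

end Pool.Agent.Lib.MP_2d59ee_ag

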