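import Mathlib
import Pool.Agent.Lib.MP_2d59ee_ag.Top

set_option autoImplicit false

/-! Part Defs -/
/-! Definitions for the shape `(4a, 12a)`: substitutions, Jacobian, shapes of pairs. -/

namespace Pool.Agent.Lib.MP_2d59ee_ag.J

section ModDefs

open Polynomial

/-- polynomials in the two variables `z = X 0`, `w = X 1` -/
abbrev MP := MvPolynomial (Fin 2) ℂ

/-- the Jacobian determinant -/
noncomputable def jac (F G : MP) : MP :=
  MvPolynomial.pderiv 0 F * MvPolynomial.pderiv 1 G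
    - MvPolynomial.pderiv 1 F * MvPolynomial.pderiv 0 G

/-- the exponent `(i, j)` -/
noncomputable def pt (i j : ℕ) : Fin 2 →₀ ℕ := Finsupp.single 0 i + Finsupp.single 1 j

/-- the substitution `z ↦ x`, `w ↦ y`, with `φ` on constants -/
noncomputable def ev {A : Type*} [CommRing A] (φ : ℂ →+* A) (x y : A) : MP →+* A :=
  MvPolynomial.eval₂Hom φ ![x, y]

/-- constants in `LS[X]` -/
noncomputable def cL : ℂ →+* LS[X] := (C : LS →+* LS[X]).comp (HahnSeries.C : ℂ →+* LS)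

/-- the right substitution `z ↦ 1/t`, `w ↦ X` -/
noncomputable def PhR : MP →+* LS[X] := ev cL (C (tm (-1))) X

/-- the left substitution `z ↦ X`, `w ↦ 1/t` -/
noncomputable def PhL : MP →+* LS[X] := ev cL X (C (tm (-1)))

/-- Laurent series over rational functions -/
abbrev LR := HahnSeries ℤ (RatFunc ℂ)

/-- constants in `LR` -/
noncomputable def cR : ℂ →+* LR :=
  (HahnSeries.C : RatFunc ℂ →+* LR).comp (algebraMap ℂ (RatFunc ℂ))

/-- the shape of a pair `(F, G)` in the coordinates `z = x + 1`, `w = x + y` -/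
structure Shape (a b : ℕ) (F G : MP) : Prop where
  hF : ∀ i j, F.coeff (pt i j) ≠ 0 → i ≤ 4 * a ∧ j ≤ 12 * a ∧ (j = 12 * a → i = 4 * a)
  hG : ∀ i j, G.coeff (pt i j) ≠ 0 → i ≤ 4 * b ∧ j ≤ 12 * b
  hFt : F.coeff (pt (4 * a) (12 * a)) ≠ 0
  hGt : G.coeff (pt (4 * b) (12 * b)) ≠ 0
  hJ : ∃ c : ℂ, c ≠ 0 ∧ jac F G = MvPolynomial.C c

/-- after the translation of `w`: the coefficient of the top power of `z` is a monomial -/
structure Shape2 (a b : ℕ) (F G : MP) : Prop extends Shape a b F G where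
  hF3 : ∀ j, F.coeff (pt (4 * a) j) ≠ 0 → j = 12 * a
  hG3 : ∀ j, G.coeff (pt (4 * b) j) ≠ 0 → j = 12 * b

/-- the ramified right substitution `z ↦ t^(-4)`, `w ↦ X t` -/
noncomputable def R4 (F : MP) : LS[X] := T0 4 (by norm_num) 1 (PhR F)

/-- after the scaling of `z`: the leading forms at slope `1/4` -/
structure Shape3 (a b : ℕ) (F G : MP) : Prop extends Shape2 a b F G where
  hF4 : ∀ i j, F.coeff (pt i j) ≠ 0 → 4 * i ≤ 4 * a + j
  hG4 : ∀ i j, G.coeff (pt i j) ≠ 0 → 4 * i ≤ 4 * b + j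
  hFl : ∃ κ : ℂ, κ ≠ 0 ∧ lev (-((a : ℤ) * 4)) (R4 F) = C κ * (X ^ 4 - 1) ^ (3 * a)
  hGl : ∃ κ : ℂ, κ ≠ 0 ∧ lev (-((b : ℤ) * 4)) (R4 G) = C κ * (X ^ 4 - 1) ^ (3 * b)

/-- the exponent `4 b (a - 1) + 3` -/
def ne (a b : ℕ) : ℕ := 4 * (b * (a - 1)) + 3

/-- auxiliary combinations `P Q^a + Σ c_ij P^i Q^j` -/
structure Adm (a b : ℕ) (Φ : MP) : Prop where
  h1 : Φ.coeff (pt 1 a) = 1
  h2 : ∀ i j, Φ.coeff (pt i j) ≠ 0 → (i = 1 ∧ j = a) ∨ (j < a ∧ a * i + b * j ≤ a + a * b)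

/-- a state of the descent on the left side -/
structure LSt (a b : ℕ) (Φ : MP) (α : ℕ) (P Q : LS[X]) : Prop where
  cP : Corner P a ((4 * α : ℕ) : ℤ) 4 0
  cQ : Corner Q b ((4 * α : ℕ) : ℤ) 4 0
  hbr : ∃ c : ℂ, c ≠ 0 ∧ brB P Q = C (HahnSeries.single (-((α : ℤ) - 2)) c)
  nL : LowB (ev cL P Q Φ) (-((α * ne a b : ℕ) : ℤ))
  nT : ((ev cL P Q Φ).coeff (ne a b)).coeff (-((α * ne a b : ℕ) : ℤ)) ≠ 0

/-- the polynomial `U V^4 - s V^3 + l V^2 - e V - 1` -/
noncomputable def Th (s l e : ℂ) : MP :=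
  MvPolynomial.X 0 * MvPolynomial.X 1 ^ 4 - MvPolynomial.C s * MvPolynomial.X 1 ^ 3
    + MvPolynomial.C l * MvPolynomial.X 1 ^ 2 - MvPolynomial.C e * MvPolynomial.X 1 - 1

/-- the one-variable system -/
structure Sys (j : ℕ) (f g q0 q1 q2 : ℂ[X]) (s l e : ℂ) : Prop where
  df : f.natDegree ≤ 2 * j + 1
  dg : g.natDegree ≤ j + 1
  d0 : q0.natDegree ≤ 3 * j + 1
  d1 : q1.natDegree ≤ 2 * j + 1
  d2 : q2.natDegree ≤ j + 1
  ft : f.coeff (2 * j + 1) ≠ 0
  g0 : 2 * g.coeff 0 = -s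
  q20 : q2.coeff 0 = -s
  q21 : q2.coeff 1 = 0
  E3 : 6 * X * derivative g + 2 * q2 - 2 * g - 2 * X * derivative q2 = C (-s)
  E2 : 3 * X * derivative f + 4 * derivative g * q2 + q1 - 2 * g * derivative q2
    - 2 * X * derivative q1 = C l
  E1 : 2 * derivative f * q2 + 2 * derivative g * q1 - 2 * g * derivative q1
    - 2 * X * derivative q0 = C (-e)
  E0 : derivative f * q1 - 2 * g * derivative q0 = -1

/-- the equation `(*c)` with its side conditions, over a field `K` -/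
structure Star {K : Type*} [Field K] (m : ℕ) (Y H : K[X]) (c : K) : Prop where
  dY : Y.natDegree = m
  dH : H.natDegree ≤ 2 * m
  y0 : 2 * Y.coeff 0 = -c
  y1 : Y.coeff 1 = 0
  h0 : 4 * H.coeff 0 = -c ^ 2
  eq : 3 * ((H - Y ^ 2) ^ 2 - (C c * Y + X) * (H - Y ^ 2) + X ^ 2 * (C c * Y - X))
    = 2 * H * (X * derivative H - X)

end ModDefs

end Pool.Agent.Lib.MP_2d59ee_ag.J

/-! Part B1 -/
/-! Basic facts: coefficients of the substitutions, chain rules. -/

namespace Pool.Agent.Lib.MP_2d59ee_ag.J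

section ModB1

open Polynomial

@[simp] theorem ev_C {A : Type*} [CommRing A] (φ : ℂ →+* A) (x y : A) (c : ℂ) :
    ev φ x y (MvPolynomial.C c) = φ c := by simp [ev]

@[simp] theorem ev_X0 {A : Type*} [CommRing A] (φ : ℂ →+* A) (x y : A) :
    ev φ x y (MvPolynomial.X 0) = x := by simp [ev]

@[simp] theorem ev_X1 {A : Type*} [CommRing A] (φ : ℂ →+* A) (x y : A) :
    ev φ x y (MvPolynomial.X 1) = y := by simp [ev]

theorem pt_eta (d : Fin 2 →₀ ℕ) : pt (d 0) (d 1) = d := by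
  ext i
  fin_cases i <;> simp [pt]

@[simp] theorem pt_0 (i j : ℕ) : pt i j 0 = i := by simp [pt]
@[simp] theorem pt_1 (i j : ℕ) : pt i j 1 = j := by simp [pt]

theorem pt_inj {i j i' j' : ℕ} : pt i j = pt i' j' ↔ i = i' ∧ j = j' := by
  constructor
  · intro h
    exact ⟨by simpa using congrArg (fun d => d 0) h, by simpa using congrArg (fun d => d 1) h⟩
  · rintro ⟨rfl, rfl⟩; rfl

theorem ev_monomial {A : Type*} [CommRing A] (φ : ℂ →+* A) (x y : A) (d : Fin 2 →₀ ℕ) (c : ℂ) :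
    ev φ x y (MvPolynomial.monomial d c) = φ c * x ^ (d 0) * y ^ (d 1) := by
  simp [ev, MvPolynomial.eval₂_monomial, Finsupp.prod_fintype, mul_assoc]

/-- the substitution as a finite sum -/
theorem ev_eq_sum {A : Type*} [CommRing A] (φ : ℂ →+* A) (x y : A) (F : MP) :
    ev φ x y F = ∑ d ∈ F.support, φ (F.coeff d) * x ^ (d 0) * y ^ (d 1) := by
  conv_lhs => rw [F.as_sum]
  rw [map_sum]
  exact Finset.sum_congr rfl (fun d _ => ev_monomial φ x y d _)

theorem map_ev {A B : Type*} [CommRing A] [CommRing B] (ψ : A →+* B) (φ : ℂ →+* A) (x y : A)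
    (F : MP) : ψ (ev φ x y F) = ev (ψ.comp φ) (ψ x) (ψ y) F := by
  rw [ev_eq_sum, ev_eq_sum, map_sum]
  exact Finset.sum_congr rfl (fun d _ => by simp)

/-- composition of substitutions -/
theorem ev_ev {A : Type*} [CommRing A] (φ : ℂ →+* A) (x y : A) (G H F : MP) :
    ev φ x y (ev MvPolynomial.C G H F) = ev φ (ev φ x y G) (ev φ x y H) F := by
  rw [map_ev]
  have h : (ev φ x y).comp MvPolynomial.C = φ := by
    ext c
    simp
  rw [h]

/-- chain rule -/
theorem der_ev {A : Type*} [CommRing A] {D : A → A} (hD : IsDer D) (φ : ℂ →+* A)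
    (hφ : ∀ c, D (φ c) = 0) (x y : A) (F : MP) :
    D (ev φ x y F) = ev φ x y (MvPolynomial.pderiv 0 F) * D x
      + ev φ x y (MvPolynomial.pderiv 1 F) * D y := by
  induction F using MvPolynomial.induction_on with
  | C c => simp [hφ, ev]
  | add p q hp hq => rw [map_add, hD.add, hp, hq]; simp only [map_add]; ring
  | mul_X p i hp =>
    rw [map_mul, hD.mul, hp]
    fin_cases i
    · simp only [Fin.zero_eta, ev_X0, Derivation.leibniz, smul_eq_mul, map_add, map_mul,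
        MvPolynomial.pderiv_X_self, map_one]
      have h10 : MvPolynomial.pderiv (R := ℂ) (1 : Fin 2) (MvPolynomial.X 0) = 0 :=
        MvPolynomial.pderiv_X_of_ne (by decide)
      rw [h10, map_zero]
      ring
    · simp only [Fin.mk_one, ev_X1, Derivation.leibniz, smul_eq_mul, map_add, map_mul,
        MvPolynomial.pderiv_X_self, map_one]
      have h10 : MvPolynomial.pderiv (R := ℂ) (0 : Fin 2) (MvPolynomial.X 1) = 0 :=
        MvPolynomial.pderiv_X_of_ne (by decide)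
      rw [h10, map_zero]
      ring

/-- chain rule for brackets -/
theorem br_ev {A : Type*} [CommRing A] {S T : A → A} (hS : IsDer S) (hT : IsDer T)
    (φ : ℂ →+* A) (hSφ : ∀ c, S (φ c) = 0) (hTφ : ∀ c, T (φ c) = 0) (x y : A) (F G : MP) :
    br S T (ev φ x y F) (ev φ x y G) = ev φ x y (jac F G) * br S T x y := by
  simp only [br, jac, map_sub, map_mul]
  rw [der_ev hS φ hSφ, der_ev hS φ hSφ, der_ev hT φ hTφ, der_ev hT φ hTφ]
  ring

theorem thetaB_cL (c : ℂ) : thetaB (cL c) = 0 := by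
  show thetaB (C (HahnSeries.C c)) = 0
  rw [thetaB_C, theta_C, map_zero]

theorem derivative_cL (c : ℂ) : derivative (cL c) = 0 := by
  show derivative (C (HahnSeries.C c)) = 0
  rw [derivative_C]

/-- chain rule in `LS[X]` -/
theorem brB_ev (P Q : LS[X]) (F G : MP) :
    brB (ev cL P Q F) (ev cL P Q G) = ev cL P Q (jac F G) * brB P Q :=
  br_ev thetaB_isDer deriv_isDer cL thetaB_cL derivative_cL P Q F G

theorem brB_ev_right (P Q : LS[X]) (Φ : MP) :
    brB P (ev cL P Q Φ) = ev cL P Q (MvPolynomial.pderiv 1 Φ) * brB P Q := by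
  have h := brB_ev P Q (MvPolynomial.X 0) Φ
  rw [ev_X0] at h
  rw [h]
  congr 2
  simp [jac]

theorem jac_ev (A B F G : MP) :
    jac (ev MvPolynomial.C A B F) (ev MvPolynomial.C A B G)
      = ev MvPolynomial.C A B (jac F G) * jac A B := by
  have h0 : IsDer (fun p : MP => MvPolynomial.pderiv 0 p) :=
    ⟨fun x y => by simp, fun x y => by simp [Derivation.leibniz]⟩
  have h1 : IsDer (fun p : MP => MvPolynomial.pderiv 1 p) :=
    ⟨fun x y => by simp, fun x y => by simp [Derivation.leibniz]⟩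
  have h := br_ev h0 h1 (MvPolynomial.C : ℂ →+* MP) (by simp) (by simp) A B F G
  simp only [br] at h
  simp only [jac] at h ⊢
  linear_combination h

theorem brB_PhR (F G : MP) (c : ℂ) (h : jac F G = MvPolynomial.C c) :
    brB (PhR F) (PhR G) = C (HahnSeries.single (-((1 : ℕ) : ℤ)) (-c)) := by
  have h3 : thetaB (C (tm (-1))) = - C (tm (-1)) := by
    rw [thetaB_C, theta_tm, ← C_neg]; congr 1; push_cast; exact neg_one_mul _
  have h1 : brB (C (tm (-1))) X = - C (tm (-1)) := by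
    rw [brB, br, h3, thetaB_X, derivative_X, derivative_C]
    ring1
  rw [PhR, brB_ev, h, ev_C, h1]
  have h4 : (cL c : LS[X]) * -C (tm (-1)) = C (-(HahnSeries.C c * tm (-1))) := by
    rw [C_neg, C_mul]
    show C (HahnSeries.C c) * _ = _
    ring1
  rw [h4]
  congr 1
  ext n
  simp [HahnSeries.coeff_single, tm]

theorem brB_PhL (F G : MP) (c : ℂ) (h : jac F G = MvPolynomial.C c) :
    brB (PhL F) (PhL G) = C (HahnSeries.single (-1 : ℤ) c) := by
  have h3 : thetaB (C (tm (-1))) = - C (tm (-1)) := by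
    rw [thetaB_C, theta_tm, ← C_neg]; congr 1; push_cast; exact neg_one_mul _
  have h1 : brB X (C (tm (-1))) = C (tm (-1)) := by
    rw [brB, br, h3, thetaB_X, derivative_X, derivative_C]
    ring1
  rw [PhL, brB_ev, h, ev_C, h1]
  have h4 : (cL c : LS[X]) * C (tm (-1)) = C (HahnSeries.C c * tm (-1)) := by
    rw [C_mul]
    rfl
  rw [h4]
  congr 1
  ext n
  simp [HahnSeries.coeff_single, tm]

end ModB1

end Pool.Agent.Lib.MP_2d59ee_ag.J

/-! Part M0 -/
/-! Definitions for the quadratic coordinates `(U, V)`. -/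

namespace Pool.Agent.Lib.MP_2d59ee_ag.J

section ModM0

open Polynomial

/-- `u = U V^3 - s V^2 + l V` -/
def uF {L : Type*} [Field L] (φ : ℂ →+* L) (s l : ℂ) (U V : L) : L :=
  U * V ^ 3 - φ s * V ^ 2 + φ l * V

/-- `t = u - 1/V - e` -/
def tF {L : Type*} [Field L] (φ : ℂ →+* L) (s l e : ℂ) (U V : L) : L :=
  uF φ s l U V - V⁻¹ - φ e

/-- `z = u t^3 + l t^2 + s₁ t` -/
def zF {L : Type*} [Field L] (φ : ℂ →+* L) (s₁ l : ℂ) (u t : L) : L :=
  u * t ^ 3 + φ l * t ^ 2 + φ s₁ * t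

/-- `F(z, w)` is the polynomial `W(u, t)` -/
def RepT (s₁ l : ℂ) (F W : MP) : Prop :=
  ∀ (L : Type) [Field L] (φ : ℂ →+* L) (u t : L), t ≠ 0 →
    ev φ (zF φ s₁ l u t) t⁻¹ F = ev φ u t W

/-- `F(z, w)` is the polynomial `π(U, V)` (here `s = s₁ + e l`) -/
def Rep (s₁ l e : ℂ) (F π : MP) : Prop :=
  ∀ (L : Type) [Field L] (φ : ℂ →+* L) (U V : L), V ≠ 0 → tF φ (s₁ + e * l) l e U V ≠ 0 →
    ev φ (zF φ s₁ l (uF φ (s₁ + e * l) l U V) (tF φ (s₁ + e * l) l e U V))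
      (tF φ (s₁ + e * l) l e U V)⁻¹ F = ev φ U V π

/-- the variable `U` in `LR` -/
noncomputable def UU : LR := HahnSeries.C (RatFunc.X : RatFunc ℂ)

/-- the variable `V` in `LR` -/
noncomputable def VV : LR := HahnSeries.single 1 1

end ModM0

end Pool.Agent.Lib.MP_2d59ee_ag.J

/-! Part K0 -/
/-! Definitions for the 3-adic part: dominating indices at a radius. `K` is a nonarchimedean
algebraically closed field with `‖3‖ = 1/3`. -/

namespace Pool.Agent.Lib.MP_2d59ee_ag.J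

section ModK0

open Polynomial

/-- `T` is the largest index where `‖F_i‖ r^i` is maximal -/
def Top {K : Type} [NormedField K] (F : K[X]) (r : ℝ) (T : ℕ) : Prop :=
  F.coeff T ≠ 0 ∧ (∀ i, ‖F.coeff i‖ * r ^ i ≤ ‖F.coeff T‖ * r ^ T) ∧
    ∀ i, T < i → ‖F.coeff i‖ * r ^ i < ‖F.coeff T‖ * r ^ T

/-- `B` is the smallest index where `‖F_i‖ r^i` is maximal -/
def Bot {K : Type} [NormedField K] (F : K[X]) (r : ℝ) (B : ℕ) : Prop :=
  F.coeff B ≠ 0 ∧ (∀ i, ‖F.coeff i‖ * r ^ i ≤ ‖F.coeff B‖ * r ^ B) ∧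
    ∀ i, i < B → ‖F.coeff i‖ * r ^ i < ‖F.coeff B‖ * r ^ B

/-- the claim at radius `r` -/
structure Cl {K : Type} [NormedField K] (Y H : K[X]) (r : ℝ) (T : ℕ) : Prop where
  tY : Top Y r T
  tH : Top H r (2 * T)
  t3 : T % 3 = 1
  rel : 3 * ‖H.coeff (2 * T)‖ ^ 2 = ‖Y.coeff T‖ ^ 4

/-- the homogeneous region -/
structure Reg {K : Type} [NormedField K] (Y : K[X]) (c : K) (r : ℝ) (T : ℕ) : Prop where
  r1 : 3 * r ^ 2 < (‖Y.coeff T‖ * r ^ T) ^ 4
  r2 : r ^ 3 < (‖Y.coeff T‖ * r ^ T) ^ 4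
  r3 : ‖c‖ * r ^ 2 < (‖Y.coeff T‖ * r ^ T) ^ 3

/-- its closure -/
structure RegW {K : Type} [NormedField K] (Y : K[X]) (c : K) (r : ℝ) (T : ℕ) : Prop where
  r1 : 3 * r ^ 2 ≤ (‖Y.coeff T‖ * r ^ T) ^ 4
  r2 : r ^ 3 ≤ (‖Y.coeff T‖ * r ^ T) ^ 4
  r3 : ‖c‖ * r ^ 2 ≤ (‖Y.coeff T‖ * r ^ T) ^ 3

/-- good radii -/
def Gd {K : Type} [NormedField K] (Y H : K[X]) (c : K) (r : ℝ) : Prop :=
  ∃ T, Cl Y H r T ∧ Reg Y c r T

end ModK0

end Pool.Agent.Lib.MP_2d59ee_ag.J

/-! Part B2 -/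
/-! ## Row B2: coefficients of the substitutions `PhR`, `PhL`

Proof: `ev_eq_sum`; for `PhR` the summand of `d` is
`C (HahnSeries.C c) * C (tm (-1)) ^ d 0 * X ^ d 1 = monomial (d 1) (HahnSeries.C c * tm (-(d 0)))`
(use `tm_pow`), whose coefficient at `X ^ j`, `t ^ n` is `c` if `j = d 1` and `n = -(d 0)`, else `0`.
Then `Finset.sum_eq_single (pt i j)` with `pt_eta`. Same for `PhL` with the roles exchanged. -/

namespace Pool.Agent.Lib.MP_2d59ee_ag.J

section ModB2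

open Polynomial

theorem b2_aux_coeff (c : ℂ) (i : ℕ) (n : ℤ) :
    (HahnSeries.C c * tm (-1) ^ i : LS).coeff n = if n = -(i : ℤ) then c else 0 := by
  rw [tm_pow, tm]
  have h : (HahnSeries.C c * HahnSeries.single ((i : ℤ) * -1) (1 : ℂ) : LS)
      = HahnSeries.single (-(i : ℤ)) c := by
    rw [HahnSeries.C_apply, HahnSeries.single_mul_single, zero_add, mul_one, mul_neg_one]
  rw [h]
  by_cases hn : n = -(i : ℤ)
  · rw [if_pos hn, hn, HahnSeries.coeff_single_same]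
  · rw [if_neg hn, HahnSeries.coeff_single_of_ne hn]

theorem b2_PhR (F : MP) (j : ℕ) (n : ℤ) : ((PhR F).coeff j).coeff n
    = ∑ d ∈ F.support, if d 1 = j ∧ n = -((d 0 : ℕ) : ℤ) then F.coeff d else 0 := by
  rw [PhR, ev_eq_sum, finsetSum_coeff, HahnSeries.coeff_sum]
  refine Finset.sum_congr rfl (fun d _ => ?_)
  have h1 : (cL (F.coeff d) * C (tm (-1)) ^ (d 0) * X ^ (d 1) : LS[X])
      = C (HahnSeries.C (F.coeff d) * tm (-1) ^ (d 0)) * X ^ (d 1) := by
    rw [C_mul, C_pow]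
    rfl
  rw [h1, coeff_C_mul_X_pow]
  by_cases hj : j = d 1
  · rw [if_pos hj, b2_aux_coeff]
    simp only [hj, true_and]
  · rw [if_neg hj, if_neg (fun h => hj h.1.symm)]
    rfl

theorem b2_PhL (F : MP) (i : ℕ) (n : ℤ) : ((PhL F).coeff i).coeff n
    = ∑ d ∈ F.support, if d 0 = i ∧ n = -((d 1 : ℕ) : ℤ) then F.coeff d else 0 := by
  rw [PhL, ev_eq_sum, finsetSum_coeff, HahnSeries.coeff_sum]
  refine Finset.sum_congr rfl (fun d _ => ?_)
  have h1 : (cL (F.coeff d) * X ^ (d 0) * C (tm (-1)) ^ (d 1) : LS[X])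
      = C (HahnSeries.C (F.coeff d) * tm (-1) ^ (d 1)) * X ^ (d 0) := by
    rw [C_mul, C_pow]
    show C (HahnSeries.C _) * _ * _ = _
    ring1
  rw [h1, coeff_C_mul_X_pow]
  by_cases hj : i = d 0
  · rw [if_pos hj, b2_aux_coeff]
    simp only [hj, true_and]
  · rw [if_neg hj, if_neg (fun h => hj h.1.symm)]
    rfl

theorem PhR_coeff (F : MP) (i j : ℕ) :
    ((PhR F).coeff j).coeff (-(i : ℤ)) = F.coeff (pt i j) := by
  rw [b2_PhR, Finset.sum_eq_single (pt i j)]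
  · simp
  · intro d _ hd
    rw [if_neg]
    rintro ⟨h1, h2⟩
    apply hd
    have h3 : d 0 = i := by omega
    rw [← pt_eta d, h1, h3]
  · intro h
    rw [MvPolynomial.notMem_support_iff.mp h, ite_self]

theorem PhR_coeff_pos (F : MP) (j : ℕ) (n : ℤ) (hn : 0 < n) : ((PhR F).coeff j).coeff n = 0 := by
  rw [b2_PhR]
  refine Finset.sum_eq_zero (fun d _ => ?_)
  rw [if_neg]
  rintro ⟨_, h2⟩
  omega

theorem PhL_coeff (F : MP) (i j : ℕ) :
    ((PhL F).coeff i).coeff (-(j : ℤ)) = F.coeff (pt i j) := by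
  rw [b2_PhL, Finset.sum_eq_single (pt i j)]
  · simp
  · intro d _ hd
    rw [if_neg]
    rintro ⟨h1, h2⟩
    apply hd
    have h3 : d 1 = j := by omega
    rw [← pt_eta d, h1, h3]
  · intro h
    rw [MvPolynomial.notMem_support_iff.mp h, ite_self]

theorem PhL_coeff_pos (F : MP) (i : ℕ) (n : ℤ) (hn : 0 < n) : ((PhL F).coeff i).coeff n = 0 := by
  rw [b2_PhL]
  refine Finset.sum_eq_zero (fun d _ => ?_)
  rw [if_neg]
  rintro ⟨_, h2⟩
  omega

theorem PhR_ne {F : MP} {j : ℕ} {n : ℤ} (h : ((PhR F).coeff j).coeff n ≠ 0) :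
    ∃ i : ℕ, n = -(i : ℤ) ∧ F.coeff (pt i j) ≠ 0 := by
  have hn : n ≤ 0 := by
    by_contra hn
    exact h (PhR_coeff_pos F j n (not_le.mp hn))
  refine ⟨n.natAbs, by omega, ?_⟩
  rw [← PhR_coeff, show -((n.natAbs : ℕ) : ℤ) = n by omega]
  exact h

theorem PhL_ne {F : MP} {i : ℕ} {n : ℤ} (h : ((PhL F).coeff i).coeff n ≠ 0) :
    ∃ j : ℕ, n = -(j : ℤ) ∧ F.coeff (pt i j) ≠ 0 := by
  have hn : n ≤ 0 := by
    by_contra hn
    exact h (PhL_coeff_pos F i n (not_le.mp hn))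
  refine ⟨n.natAbs, by omega, ?_⟩
  rw [← PhL_coeff, show -((n.natAbs : ℕ) : ℤ) = n by omega]
  exact h

/-- two polynomials with the same coefficients at all `pt i j` are equal -/
theorem mp_ext {F G : MP} (h : ∀ i j, F.coeff (pt i j) = G.coeff (pt i j)) : F = G := by
  ext d
  rw [← pt_eta d]
  exact h _ _

end ModB2

end Pool.Agent.Lib.MP_2d59ee_ag.J

/-! Part B3 -/
/-! ## Row B3: `T0` and `shift` commute with substitutions

Proof: `T0 q hq s` and `shift μ` are ring homomorphisms fixing the constants `cL c`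
(`T0_mul`, `shift_mul`, additivity from `Polynomial.map`/`comp`; `ram q hq (HahnSeries.C c) =
HahnSeries.C c`). Build them as `RingHom`s (`T0r`, `shiftr`) and apply `map_ev`. -/

namespace Pool.Agent.Lib.MP_2d59ee_ag.J

section ModB3

open Polynomial

/-- `T0` as a ring homomorphism -/
noncomputable def T0r (q : ℕ) (hq : 0 < q) (s : ℤ) : LS[X] →+* LS[X] where
  toFun := T0 q hq s
  map_one' := by rw [T0, Polynomial.map_one, one_comp]
  map_mul' := T0_mul q hq s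
  map_zero' := by rw [T0, Polynomial.map_zero, zero_comp]
  map_add' := fun P Q => by rw [T0, T0, T0, Polynomial.map_add, add_comp]

/-- `shift` as a ring homomorphism -/
noncomputable def shiftr (μ : ℂ) : LS[X] →+* LS[X] where
  toFun := shift μ
  map_one' := by rw [shift, one_comp]
  map_mul' := shift_mul μ
  map_zero' := by rw [shift, zero_comp]
  map_add' := fun P Q => by rw [shift, shift, shift, add_comp]

theorem T0r_apply (q : ℕ) (hq : 0 < q) (s : ℤ) (P : LS[X]) : T0r q hq s P = T0 q hq s P := rfl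

theorem shiftr_apply (μ : ℂ) (P : LS[X]) : shiftr μ P = shift μ P := rfl

theorem b3_ram_single (q : ℕ) (hq : 0 < q) (n : ℤ) (c : ℂ) :
    ram q hq (HahnSeries.single n c) = HahnSeries.single (q * n) c := by
  rw [ram, HahnSeries.embDomainRingHom_apply, HahnSeries.embDomain_single]
  rfl

theorem b3_ram_C (q : ℕ) (hq : 0 < q) (c : ℂ) :
    ram q hq (HahnSeries.C c) = HahnSeries.C c := by
  rw [HahnSeries.C_apply, b3_ram_single, mul_zero]

theorem b3_T0_C (q : ℕ) (hq : 0 < q) (s : ℤ) (x : LS) : T0 q hq s (C x) = C (ram q hq x) := by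
  rw [T0, Polynomial.map_C, C_comp]

theorem T0_cL (q : ℕ) (hq : 0 < q) (s : ℤ) (c : ℂ) : T0 q hq s (cL c) = cL c := by
  show T0 q hq s (C (HahnSeries.C c)) = C (HahnSeries.C c)
  rw [b3_T0_C, b3_ram_C]

theorem shift_cL (μ : ℂ) (c : ℂ) : shift μ (cL c) = cL c := by
  show shift μ (C (HahnSeries.C c)) = C (HahnSeries.C c)
  rw [shift, C_comp]

theorem T0_ev (q : ℕ) (hq : 0 < q) (s : ℤ) (P Q : LS[X]) (F : MP) :
    T0 q hq s (ev cL P Q F) = ev cL (T0 q hq s P) (T0 q hq s Q) F := by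
  refine (map_ev (A := LS[X]) (B := LS[X]) (T0r q hq s) cL P Q F).trans ?_
  have h : (T0r q hq s).comp cL = cL := RingHom.ext (fun c => T0_cL q hq s c)
  rw [h, T0r_apply, T0r_apply]

theorem shift_ev (μ : ℂ) (P Q : LS[X]) (F : MP) :
    shift μ (ev cL P Q F) = ev cL (shift μ P) (shift μ Q) F := by
  refine (map_ev (A := LS[X]) (B := LS[X]) (shiftr μ) cL P Q F).trans ?_
  have h : (shiftr μ).comp cL = cL := RingHom.ext (fun c => shift_cL μ c)
  rw [h, shiftr_apply, shiftr_apply]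

theorem T0_congr {q q' : ℕ} (h : q = q') (hq : 0 < q) (hq' : 0 < q') {s s' : ℤ} (hs : s = s')
    (P : LS[X]) : T0 q hq s P = T0 q' hq' s' P := by
  subst h; subst hs; rfl

theorem T0_X (q : ℕ) (hq : 0 < q) (s : ℤ) : T0 q hq s X = C (tm s) * X := by
  rw [T0, Polynomial.map_X, X_comp]

theorem T0_C_tm (q : ℕ) (hq : 0 < q) (s n : ℤ) : T0 q hq s (C (tm n)) = C (tm (q * n)) := by
  rw [b3_T0_C, tm, b3_ram_single, tm]

theorem shift_X (μ : ℂ) : shift μ X = X + cL μ := by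
  rw [shift, X_comp]
  rfl

theorem shift_C (μ : ℂ) (x : LS) : shift μ (C x) = C x := by
  rw [shift, C_comp]

/-- the bracket of the shifted pair -/
theorem brB_shift_single (μ : ℂ) (P Q : LS[X]) (n : ℤ) (c : ℂ)
    (h : brB P Q = C (HahnSeries.single n c)) :
    brB (shift μ P) (shift μ Q) = C (HahnSeries.single n c) := by
  rw [brB_shift, h, shift_C]

/-- `T0` followed by `T0` -/
theorem LowB_shift (μ : ℂ) {P : LS[X]} {n : ℤ} (h : LowB P n) : LowB (shift μ P) n := by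
  intro m hm
  rw [lev_shift, h m hm, zero_comp]

end ModB3

end Pool.Agent.Lib.MP_2d59ee_ag.J

/-! Part B4 -/
/-! ## Row B4: commuting leading forms

`comm_facts`: by `lev_brB hP hQ` the coefficient of `t ^ (-(a d) - (b d))` of the bracket is
`C (-(a d)) * p * q' - C (-(b d)) * p' * q`, and it is zero by `lev_C_single` since
`-((a + b) d) ≠ -E`. Cancel `d` (as a nonzero complex number). The multiplicities: `mult_prop`
gives `a * mult q = b * mult p`, and `a, b` are coprime.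

`good_of_root`: `shift_corner` for `P` and `Q` (with `d` and `N₁ = ν`), the bracket of the shifted
pair is the same constant (`brB_shift`, and `shift μ (C x) = C x`), so `St a b ν E d 0`.
The other fields of `Good`: `ν > 0` since `0 < E ν`; `0 < d`; `E < (a+b) d`; `d < E ν`. -/

namespace Pool.Agent.Lib.MP_2d59ee_ag.J

section ModB4

open Polynomial

theorem comm_facts {a b d : ℕ} (ha : 0 < a) (hb : 0 < b) (hab : Nat.Coprime a b) (hd : 0 < d)
    {E : ℤ} {c : ℂ} {P Q : LS[X]} (hbr : brB P Q = C (HahnSeries.single (-E) c))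
    (hP : LowB P (-((a : ℤ) * d))) (hQ : LowB Q (-((b : ℤ) * d)))
    (hP0 : lev (-((a : ℤ) * d)) P ≠ 0) (hQ0 : lev (-((b : ℤ) * d)) Q ≠ 0)
    (hJ : E < ((a : ℤ) + b) * d) :
    C (a : ℂ) * lev (-((a : ℤ) * d)) P * derivative (lev (-((b : ℤ) * d)) Q)
      = C (b : ℂ) * derivative (lev (-((a : ℤ) * d)) P) * lev (-((b : ℤ) * d)) Q ∧
    ∀ μ, ∃ ν, (lev (-((a : ℤ) * d)) P).rootMultiplicity μ = a * ν ∧
      (lev (-((b : ℤ) * d)) Q).rootMultiplicity μ = b * ν := by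
  have hne : -((a : ℤ) * d) + -((b : ℤ) * d) ≠ -E := by
    intro h0
    have h1 : ((a : ℤ) + b) * d = E := by linear_combination -h0
    omega
  have h := lev_brB hP hQ
  rw [hbr, lev_C_single, if_neg hne] at h
  have hdC : (d : ℂ) ≠ 0 := by exact_mod_cast hd.ne'
  have hcomm : C (a : ℂ) * lev (-((a : ℤ) * d)) P * derivative (lev (-((b : ℤ) * d)) Q)
      = C (b : ℂ) * derivative (lev (-((a : ℤ) * d)) P) * lev (-((b : ℤ) * d)) Q := by
    have e1 : (C (((-((a : ℤ) * d) : ℤ)) : ℂ) : ℂ[X]) = -(C (a : ℂ) * C (d : ℂ)) := by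
      push_cast
      rw [C_neg, C_mul]
    have e2 : (C (((-((b : ℤ) * d) : ℤ)) : ℂ) : ℂ[X]) = -(C (b : ℂ) * C (d : ℂ)) := by
      push_cast
      rw [C_neg, C_mul]
    rw [e1, e2] at h
    have hCd : (C (d : ℂ) : ℂ[X]) ≠ 0 := C_ne_zero.2 hdC
    refine mul_left_cancel₀ hCd ?_
    linear_combination h
  refine ⟨hcomm, fun μ => ?_⟩
  have hm := mult_prop _ _ hP0 hQ0 a b hcomm μ
  have hdvd : a ∣ (lev (-((a : ℤ) * d)) P).rootMultiplicity μ :=
    hab.dvd_of_dvd_mul_left ⟨_, hm.symm⟩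
  obtain ⟨ν, hν⟩ := hdvd
  refine ⟨ν, hν, ?_⟩
  rw [hν] at hm
  refine Nat.eq_of_mul_eq_mul_left ha ?_
  rw [hm]
  ring

theorem good_of_root {a b d E ν : ℕ} (ha : 0 < a) (hb : 0 < b) (hab : Nat.Coprime a b)
    (hd : 0 < d) {c : ℂ} (hc : c ≠ 0) {P Q : LS[X]}
    (hbr : brB P Q = C (HahnSeries.single (-(E : ℤ)) c))
    (hP : LowB P (-((a : ℤ) * d))) (hQ : LowB Q (-((b : ℤ) * d)))
    (hP0 : lev (-((a : ℤ) * d)) P ≠ 0) (hQ0 : lev (-((b : ℤ) * d)) Q ≠ 0)
    (hJ : (E : ℤ) < ((a : ℤ) + b) * d) {μ : ℂ}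
    (hPν : (lev (-((a : ℤ) * d)) P).rootMultiplicity μ = a * ν)
    (hQν : (lev (-((b : ℤ) * d)) Q).rootMultiplicity μ = b * ν)
    (hx : d < E * ν) : Good a b ν E (d : ℤ) 0 := by
  refine ⟨?_, le_refl _, ⟨shift μ P, shift μ Q, c, hc, ?_, shift_corner μ hP hP0 hPν,
    shift_corner μ hQ hQ0 hQν⟩, ?_, ?_, ?_⟩
  · rcases Nat.eq_zero_or_pos ν with h | h
    · rw [h, mul_zero] at hx
      exact absurd hx (Nat.not_lt_zero _)
    · exact h
  · rw [brB_shift, hbr, shift, C_comp]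
  · have : (0 : ℚ) < d := by exact_mod_cast hd
    simpa using this
  · have : (E : ℚ) < ((a : ℚ) + b) * d := by exact_mod_cast hJ
    simpa using this
  · exact_mod_cast hx

/-- the exponents of the leading form at a slope `s / q` are congruent modulo `q` -/
theorem lev_T0_dvd {q : ℕ} (hq : 0 < q) {s : ℤ} (hqs : IsCoprime (q : ℤ) s) {P : LS[X]} {n : ℤ}
    {i j : ℕ} (hi : (lev n (T0 q hq s P)).coeff i ≠ 0) (hj : (lev n (T0 q hq s P)).coeff j ≠ 0) :
    (q : ℤ) ∣ (i : ℤ) - j := by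
  rw [lev_coeff] at hi hj
  obtain ⟨m, hm, -⟩ := T0_coeff_ne q hq s P i n hi
  obtain ⟨m', hm', -⟩ := T0_coeff_ne q hq s P j n hj
  have h : (q : ℤ) ∣ ((i : ℤ) - j) * s := ⟨m' - m, by linear_combination hm - hm'⟩
  exact hqs.dvd_of_dvd_mul_right h

end ModB4

end Pool.Agent.Lib.MP_2d59ee_ag.J

/-! Part B5 -/
/-! ## Row B5: leading forms of products and of substitutions

`LowB_mul`, `lev_mul`: pass to `Psi` (`Psi_coeff`, `Low.mul`, `Low.coeff_mul`; `toR` is injective),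
or directly. Powers by induction. `LowB_ev`, `lev_ev`: `ev_eq_sum`; the term of `d` is
`cL c * P ^ d 0 * Q ^ d 1`, of order at least `-(d * (a * d 0 + b * d 1)) ≥ -(D d)`, and its
coefficient of `t ^ (-(D d))` is `C c * p ^ d 0 * q ^ d 1` if `a * d 0 + b * d 1 = D` and `0` otherwise.
`lev_comm`: `lev_brB` with `i = -A`, `j = -n`. -/

namespace Pool.Agent.Lib.MP_2d59ee_ag.J

section ModB5

open Polynomial

theorem b5_aux_toR {p q : ℂ[X]} (h : toR p = toR q) : p = q :=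
  FaithfulSMul.algebraMap_injective ℂ[X] (RatFunc ℂ) h

theorem LowB_mul {P Q : LS[X]} {i j : ℤ} (hP : LowB P i) (hQ : LowB Q j) : LowB (P * Q) (i + j) := by
  intro n hn
  have h := (hP.low.mul hQ.low) n hn
  rw [← map_mul, Psi_coeff] at h
  apply b5_aux_toR
  rw [h, toR, map_zero]

theorem lev_mul {P Q : LS[X]} {i j : ℤ} (hP : LowB P i) (hQ : LowB Q j) :
    lev (i + j) (P * Q) = lev i P * lev j Q := by
  have h := hP.low.coeff_mul hQ.low
  rw [← map_mul, Psi_coeff, Psi_coeff, Psi_coeff] at h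
  apply b5_aux_toR
  rw [h, toR, toR, toR, map_mul]

theorem b5_aux_lev_one (n : ℤ) : lev n (1 : LS[X]) = if n = 0 then 1 else 0 := by
  have h := lev_C_single n 0 1
  have h1 : (C (HahnSeries.single (0 : ℤ) (1 : ℂ)) : LS[X]) = 1 := by
    rw [show (HahnSeries.single (0 : ℤ) (1 : ℂ)) = (1 : LS) from rfl, C_1]
  rw [h1] at h
  rw [h, C_1]

theorem b5_aux_lev_zero (n : ℤ) : lev n (0 : LS[X]) = 0 := by
  ext j; simp [lev_coeff]

theorem LowB_pow {P : LS[X]} {i : ℤ} (hP : LowB P i) (n : ℕ) : LowB (P ^ n) (n * i) := by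
  induction n with
  | zero =>
    intro m hm
    rw [pow_zero, b5_aux_lev_one, if_neg]
    push_cast at hm
    rw [zero_mul] at hm
    exact hm.ne
  | succ n ih =>
    have h := LowB_mul ih hP
    rw [pow_succ]
    have e : ((n + 1 : ℕ) : ℤ) * i = n * i + i := by push_cast; ring
    rw [e]
    exact h

theorem lev_pow {P : LS[X]} {i : ℤ} (hP : LowB P i) (n : ℕ) :
    lev (n * i) (P ^ n) = lev i P ^ n := by
  induction n with
  | zero =>
    rw [pow_zero, pow_zero, b5_aux_lev_one, if_pos]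
    push_cast
    exact zero_mul _
  | succ n ih =>
    have h := lev_mul (LowB_pow hP n) hP
    rw [pow_succ, pow_succ]
    have e : ((n + 1 : ℕ) : ℤ) * i = n * i + i := by push_cast; ring
    rw [e, h, ih]

theorem LowB_mono {P : LS[X]} {i j : ℤ} (hP : LowB P i) (h : j ≤ i) : LowB P j :=
  fun n hn => hP n (lt_of_lt_of_le hn h)

theorem lev_sub (n : ℤ) (P Q : LS[X]) : lev n (P - Q) = lev n P - lev n Q := by
  ext j; simp [lev_coeff]

theorem LowB_sub {P Q : LS[X]} {i : ℤ} (hP : LowB P i) (hQ : LowB Q i) : LowB (P - Q) i := by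
  intro n hn
  rw [lev_sub, hP n hn, hQ n hn, sub_zero]

theorem lev_cL_mul (n : ℤ) (c : ℂ) (P : LS[X]) : lev n (cL c * P) = C c * lev n P := by
  ext j
  rw [lev_coeff, coeff_C_mul, lev_coeff]
  have h1 : cL c * P = C (HahnSeries.C c) * P := rfl
  rw [h1, coeff_C_mul]
  exact HahnSeries.coeff_single_zero_mul

theorem b5_aux_lev_sum {ι : Type*} (s : Finset ι) (f : ι → LS[X]) (n : ℤ) :
    lev n (∑ i ∈ s, f i) = ∑ i ∈ s, lev n (f i) := by
  classical
  induction s using Finset.induction_on with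
  | empty => rw [Finset.sum_empty, Finset.sum_empty, b5_aux_lev_zero]
  | insert a s ha ih => rw [Finset.sum_insert ha, Finset.sum_insert ha, lev_add, ih]

/-- order of a term -/
theorem b5_aux_term {a b d : ℕ} {P Q : LS[X]} (hP : LowB P (-((a : ℤ) * d)))
    (hQ : LowB Q (-((b : ℤ) * d))) (i j : ℕ) :
    LowB (P ^ i * Q ^ j) (-(((a * i + b * j : ℕ) : ℤ) * d)) := by
  have h := LowB_mul (LowB_pow hP i) (LowB_pow hQ j)
  have e : -(((a * i + b * j : ℕ) : ℤ) * d) = i * (-((a : ℤ) * d)) + j * (-((b : ℤ) * d)) := by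
    push_cast; ring
  rw [e]
  exact h

theorem b5_aux_term_lev {a b d : ℕ} {P Q : LS[X]} (hP : LowB P (-((a : ℤ) * d)))
    (hQ : LowB Q (-((b : ℤ) * d))) (i j : ℕ) :
    lev (-(((a * i + b * j : ℕ) : ℤ) * d)) (P ^ i * Q ^ j)
      = lev (-((a : ℤ) * d)) P ^ i * lev (-((b : ℤ) * d)) Q ^ j := by
  have h := lev_mul (LowB_pow hP i) (LowB_pow hQ j)
  have e : -(((a * i + b * j : ℕ) : ℤ) * d) = i * (-((a : ℤ) * d)) + j * (-((b : ℤ) * d)) := by
    push_cast; ring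
  rw [e, h, lev_pow hP, lev_pow hQ]

/-- order of a substitution -/
theorem LowB_ev {a b d D : ℕ} {Ψ : MP} (hΨ : ∀ i j, Ψ.coeff (pt i j) ≠ 0 → a * i + b * j ≤ D)
    {P Q : LS[X]} (hP : LowB P (-((a : ℤ) * d))) (hQ : LowB Q (-((b : ℤ) * d))) :
    LowB (ev cL P Q Ψ) (-((D : ℤ) * d)) := by
  intro n hn
  rw [ev_eq_sum, b5_aux_lev_sum]
  apply Finset.sum_eq_zero
  intro e he
  rw [mul_assoc, lev_cL_mul]
  have h1 : a * e 0 + b * e 1 ≤ D := by
    apply hΨ
    rw [pt_eta]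
    exact MvPolynomial.mem_support_iff.mp he
  have h2 : (((a * e 0 + b * e 1 : ℕ) : ℤ)) * d ≤ (D : ℤ) * d :=
    mul_le_mul_of_nonneg_right (by exact_mod_cast h1) (by positivity)
  rw [b5_aux_term hP hQ (e 0) (e 1) n (by linarith), mul_zero]

/-- leading form of a substitution with a unique monomial of maximal weight -/
theorem lev_ev {a b d D : ℕ} {Ψ : MP} (hΨ : ∀ i j, Ψ.coeff (pt i j) ≠ 0 → a * i + b * j ≤ D)
    {i₀ j₀ : ℕ} (h₀ : a * i₀ + b * j₀ = D)
    (hu : ∀ i j, Ψ.coeff (pt i j) ≠ 0 → a * i + b * j = D → i = i₀ ∧ j = j₀)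
    {P Q : LS[X]} (hP : LowB P (-((a : ℤ) * d))) (hQ : LowB Q (-((b : ℤ) * d))) (hd : 0 < d) :
    lev (-((D : ℤ) * d)) (ev cL P Q Ψ)
      = C (Ψ.coeff (pt i₀ j₀)) * lev (-((a : ℤ) * d)) P ^ i₀ * lev (-((b : ℤ) * d)) Q ^ j₀ := by
  rw [ev_eq_sum, b5_aux_lev_sum]
  rw [Finset.sum_eq_single (pt i₀ j₀)]
  · rw [mul_assoc, lev_cL_mul, pt_0, pt_1, mul_assoc]
    congr 1
    have h := b5_aux_term_lev hP hQ i₀ j₀
    rw [h₀] at h
    exact h
  · intro e he hne
    rw [mul_assoc, lev_cL_mul]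
    have hc : Ψ.coeff (pt (e 0) (e 1)) ≠ 0 := by
      rw [pt_eta]
      exact MvPolynomial.mem_support_iff.mp he
    have h1 : a * e 0 + b * e 1 ≤ D := hΨ _ _ hc
    have h3 : a * e 0 + b * e 1 ≠ D := by
      intro h
      obtain ⟨h4, h5⟩ := hu _ _ hc h
      apply hne
      rw [← h4, ← h5, pt_eta]
    have h2 : a * e 0 + b * e 1 < D := lt_of_le_of_ne h1 h3
    have h6 : (((a * e 0 + b * e 1 : ℕ) : ℤ)) * d < (D : ℤ) * d :=
      mul_lt_mul_of_pos_right (by exact_mod_cast h2) (by exact_mod_cast hd)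
    rw [b5_aux_term hP hQ (e 0) (e 1) _ (by linarith), mul_zero]
  · intro h
    rw [MvPolynomial.notMem_support_iff.mp h, map_zero, zero_mul, zero_mul, b5_aux_lev_zero]

/-- commuting leading forms, general weights -/
theorem lev_comm {A n : ℕ} {P N : LS[X]} (hP : LowB P (-(A : ℤ))) (hN : LowB N (-(n : ℤ)))
    (h : lev (-((A : ℤ) + n)) (brB P N) = 0) :
    C (A : ℂ) * lev (-(A : ℤ)) P * derivative (lev (-(n : ℤ)) N)
      = C (n : ℂ) * derivative (lev (-(A : ℤ)) P) * lev (-(n : ℤ)) N := by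
  have h1 := lev_brB hP hN
  have e : -((A : ℤ) + n) = -(A : ℤ) + -(n : ℤ) := by ring
  rw [e, h1] at h
  have h2 : (C (((-(A : ℤ) : ℤ)) : ℂ) : ℂ[X]) = - C (A : ℂ) := by
    push_cast
    rw [C_neg]
  have h3 : (C (((-(n : ℤ) : ℤ)) : ℂ) : ℂ[X]) = - C (n : ℂ) := by
    push_cast
    rw [C_neg]
  rw [h2, h3] at h
  linear_combination -h

end ModB5

end Pool.Agent.Lib.MP_2d59ee_ag.J
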