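import Mathlib
import Pool.Agent.Lib.MP_2d59ee_ag.JBase

set_option autoImplicit false

/-! Part K1 -/
/-! ## Row K1: transfer to an algebraic closure of `ℚ₃`

Let `S ⊆ ℂ` be the finite set of `c`, all coefficients of `Y` and `H`, and `(Y.coeff m)⁻¹`;
`A = Algebra.adjoin ℚ S`, a finitely generated `ℚ`-algebra and a domain, nontrivial. A maximal ideal
`𝔪`: `A ⧸ 𝔪` is a field, finitely generated as a `ℚ`-algebra, so finite over `ℚ`
(`finite_of_finite_type_of_isJacobsonRing`), hence algebraic, and `IsAlgClosed.lift` embeds it into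
`PadicAlgCl 3` (which is a `ℚ`-algebra: characteristic zero). So there is a ring homomorphism
`ψ : A → PadicAlgCl 3`. `Y`, `H` are images of polynomials `Y_A`, `H_A` over `A` (`Polynomial.lifts`, or
`Polynomial.toSubring`-like constructions); the equation holds over `A` (the map `A[X] → ℂ[X]` is
injective) and is mapped to `PadicAlgCl 3`. `ψ (Y_m)` is invertible, so `natDegree` stays `m`; the
remaining conditions are equations between coefficients (`dH`: `natDegree_map_le`). -/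

namespace Pool.Agent.Lib.MP_2d59ee_ag.J

section ModK1

open Polynomial

theorem exists_padic_hom (S : Set ℂ) (hS : S.Finite) :
    Nonempty (Algebra.adjoin ℚ S →+* PadicAlgCl 3) := by
  have hfg : (Algebra.adjoin ℚ S).FG := ⟨hS.toFinset, by simp⟩
  have hft : Algebra.FiniteType ℚ (Algebra.adjoin ℚ S) :=
    (Subalgebra.fg_iff_finiteType _).1 hfg
  obtain ⟨I, hI⟩ := Ideal.exists_maximal (Algebra.adjoin ℚ S)
  let _ : Field (Algebra.adjoin ℚ S ⧸ I) := Ideal.Quotient.field I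
  have h2 : Algebra.FiniteType ℚ (Algebra.adjoin ℚ S ⧸ I) :=
    Algebra.FiniteType.of_surjective (Ideal.Quotient.mkₐ ℚ I) (Ideal.Quotient.mkₐ_surjective ℚ I)
  have h3 : Module.Finite ℚ (Algebra.adjoin ℚ S ⧸ I) :=
    finite_of_finite_type_of_isJacobsonRing ℚ (Algebra.adjoin ℚ S ⧸ I)
  have h4 : Algebra.IsAlgebraic ℚ (Algebra.adjoin ℚ S ⧸ I) := Algebra.IsAlgebraic.of_finite ℚ _
  let g : (Algebra.adjoin ℚ S ⧸ I) →ₐ[ℚ] PadicAlgCl 3 := IsAlgClosed.lift
  exact ⟨g.toRingHom.comp (Ideal.Quotient.mk I)⟩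

theorem star_padic {m : ℕ} {Y H : ℂ[X]} {c : ℂ} (hm : 1 ≤ m) (h : Star m Y H c) :
    ∃ (Y' H' : (PadicAlgCl 3)[X]) (c' : PadicAlgCl 3), Star m Y' H' c' := by
  classical
  set S : Set ℂ := (↑((Finset.range (m + 1)).image Y.coeff) ∪ ↑((Finset.range (2 * m + 1)).image H.coeff))
    ∪ {c, (Y.coeff m)⁻¹} with hSdef
  have hS : S.Finite := by
    refine Set.Finite.union (Set.Finite.union (Finset.finite_toSet _) (Finset.finite_toSet _)) ?_
    exact Set.toFinite _
  obtain ⟨ψ⟩ := exists_padic_hom S hS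
  set A := Algebra.adjoin ℚ S with hA
  let f : A →+* ℂ := A.val.toRingHom
  have hf : Function.Injective f := Subtype.val_injective
  have hsub : S ⊆ (A : Set ℂ) := Algebra.subset_adjoin
  have hYc : ∀ n, Y.coeff n ∈ A := by
    intro n
    by_cases hn : n ≤ m
    · exact hsub (Or.inl (Or.inl (by
        simp only [Finset.coe_image, Set.mem_image, Finset.coe_range, Set.mem_Iio]
        exact ⟨n, by omega, rfl⟩)))
    · rw [Polynomial.coeff_eq_zero_of_natDegree_lt (by rw [h.dY]; omega)]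
      exact A.zero_mem
  have hHc : ∀ n, H.coeff n ∈ A := by
    intro n
    by_cases hn : n ≤ 2 * m
    · exact hsub (Or.inl (Or.inr (by
        simp only [Finset.coe_image, Set.mem_image, Finset.coe_range, Set.mem_Iio]
        exact ⟨n, by omega, rfl⟩)))
    · rw [Polynomial.coeff_eq_zero_of_natDegree_lt (by have := h.dH; omega)]
      exact A.zero_mem
  have hc : c ∈ A := hsub (Or.inr (by simp))
  have hi : (Y.coeff m)⁻¹ ∈ A := hsub (Or.inr (by simp))
  have hYl : Y ∈ Polynomial.lifts f := (Polynomial.lifts_iff_coeff_lifts Y).2 (fun n => ⟨⟨_, hYc n⟩, rfl⟩)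
  have hHl : H ∈ Polynomial.lifts f := (Polynomial.lifts_iff_coeff_lifts H).2 (fun n => ⟨⟨_, hHc n⟩, rfl⟩)
  obtain ⟨YA, hYA⟩ := (Polynomial.mem_lifts Y).1 hYl
  obtain ⟨HA, hHA⟩ := (Polynomial.mem_lifts H).1 hHl
  set cA : A := ⟨c, hc⟩ with hcA
  have hfc : f cA = c := rfl
  have hYcoef : ∀ n, f (YA.coeff n) = Y.coeff n := fun n => by rw [← hYA, Polynomial.coeff_map]
  have hHcoef : ∀ n, f (HA.coeff n) = H.coeff n := fun n => by rw [← hHA, Polynomial.coeff_map]
  have e0 : 2 * YA.coeff 0 = -cA := hf (by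
    rw [map_mul, map_neg, hYcoef, hfc, map_ofNat]; exact h.y0)
  have e1 : YA.coeff 1 = 0 := hf (by rw [hYcoef, map_zero]; exact h.y1)
  have e2 : 4 * HA.coeff 0 = -cA ^ 2 := hf (by
    rw [map_mul, map_neg, map_pow, hHcoef, hfc, map_ofNat]; exact h.h0)
  have e3 : 3 * ((HA - YA ^ 2) ^ 2 - (C cA * YA + X) * (HA - YA ^ 2) + X ^ 2 * (C cA * YA - X))
      = 2 * HA * (X * derivative HA - X) := by
    apply Polynomial.map_injective f hf
    have := h.eq
    simp only [Polynomial.map_mul, Polynomial.map_sub, Polynomial.map_add, Polynomial.map_pow,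
      Polynomial.map_X, Polynomial.map_C, Polynomial.map_ofNat, ← Polynomial.derivative_map, hYA, hHA, hfc]
    exact this
  have hne : Y.coeff m ≠ 0 := by
    have : Y ≠ 0 := by
      intro h0
      have := h.dY
      rw [h0, Polynomial.natDegree_zero] at this
      omega
    rw [← h.dY]
    exact Polynomial.leadingCoeff_ne_zero.2 this
  have hu : YA.coeff m * (⟨_, hi⟩ : A) = 1 := hf (by
    rw [map_mul, hYcoef, map_one]
    exact mul_inv_cancel₀ hne)
  have hψ : ψ (YA.coeff m) ≠ 0 := by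
    intro h0
    have := congrArg ψ hu
    rw [map_mul, h0, zero_mul, map_one] at this
    exact zero_ne_one this
  refine ⟨YA.map ψ, HA.map ψ, ψ cA, ?_⟩
  constructor
  · apply le_antisymm
    · refine (Polynomial.natDegree_map_le).trans ?_
      rw [← Polynomial.natDegree_map_eq_of_injective hf YA, hYA, h.dY]
    · exact Polynomial.le_natDegree_of_ne_zero (by rw [Polynomial.coeff_map]; exact hψ)
  · refine (Polynomial.natDegree_map_le).trans ?_
    rw [← Polynomial.natDegree_map_eq_of_injective hf HA, hHA]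
    exact h.dH
  · rw [Polynomial.coeff_map]
    have := congrArg ψ e0
    rwa [map_mul, map_neg, map_ofNat] at this
  · rw [Polynomial.coeff_map, e1, map_zero]
  · rw [Polynomial.coeff_map]
    have := congrArg ψ e2
    rwa [map_mul, map_neg, map_pow, map_ofNat] at this
  · have := congrArg (Polynomial.map ψ) e3
    simpa only [Polynomial.map_mul, Polynomial.map_sub, Polynomial.map_add, Polynomial.map_pow,
      Polynomial.map_X, Polynomial.map_C, Polynomial.map_ofNat, ← Polynomial.derivative_map] using this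

end ModK1

end Pool.Agent.Lib.MP_2d59ee_ag.J

/-! Part K2 -/
/-! ## Row K2: dominating indices near a radius

Elementary: finitely many indices `i ≤ F.natDegree`.
`top_unique`: from the definition. `top_exists`: take the largest index where the maximum of
`‖F_i‖ r^i` over `F.support` is attained; `bot_exists` the smallest.
`top_right`: if `Top F r T`, then for `s > r` close to `r`: for `i < T`:
`‖F_i‖ s^i ≤ ‖F_T‖ s^T` for every `s ≥ r` (divide by `s^i`, `s^(T-i) ≥ r^(T-i)`); for `i > T`, `i` in the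
support, strict inequality persists near `r` by continuity (finitely many `i`).
`top_left`: if `Bot F r B`: for `i > B`, `s < r`: `‖F_i‖ s^i < ‖F_B‖ s^B` when `F_i ≠ 0` (and trivially
if `F_i = 0`); for `i < B` by continuity.
`top_large`: for `r` large the index `F.natDegree` dominates strictly. `top_small`: for small `r > 0` the
index `F.natTrailingDegree` dominates strictly.
`norm_cont`: if `Top F s T` for all `s` in `(r, r + ε)` then `Top F r T'` for the top index `T'` at `r` and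
`T' = T` (by `top_right` and `top_unique`). -/

namespace Pool.Agent.Lib.MP_2d59ee_ag.J

section ModK2

open Polynomial

variable {K : Type} [NormedField K]

theorem top_unique {F : K[X]} {r : ℝ} {T T' : ℕ} (h : Top F r T) (h' : Top F r T') : T = T' := by
  rcases lt_trichotomy T T' with hlt | heq | hgt
  · exact absurd (h.2.2 T' hlt) (not_lt.mpr (h'.2.1 T))
  · exact heq
  · exact absurd (h'.2.2 T hgt) (not_lt.mpr (h.2.1 T'))

theorem k2_pos {F : K[X]} {r : ℝ} (hr : 0 < r) {T : ℕ} (h : F.coeff T ≠ 0) :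
    0 < ‖F.coeff T‖ * r ^ T := mul_pos (norm_pos_iff.mpr h) (pow_pos hr T)

theorem top_exists {F : K[X]} (hF : F ≠ 0) {r : ℝ} (hr : 0 < r) : ∃ T, Top F r T := by
  classical
  have hne : F.support.Nonempty := Polynomial.nonempty_support_iff.mpr hF
  obtain ⟨x, hx, hmax⟩ := Finset.exists_max_image F.support (fun i => ‖F.coeff i‖ * r ^ i) hne
  have hmax' : ∀ i, ‖F.coeff i‖ * r ^ i ≤ ‖F.coeff x‖ * r ^ x := by
    intro i
    by_cases hi : i ∈ F.support
    · exact hmax i hi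
    · rw [Polynomial.notMem_support_iff.mp hi, norm_zero, zero_mul]
      exact (k2_pos hr (Polynomial.mem_support_iff.mp hx)).le
  have hS : (F.support.filter (fun i => ‖F.coeff x‖ * r ^ x ≤ ‖F.coeff i‖ * r ^ i)).Nonempty :=
    ⟨x, Finset.mem_filter.mpr ⟨hx, le_rfl⟩⟩
  obtain ⟨T, hT, hTm⟩ := Finset.exists_max_image _ (fun i => i) hS
  rw [Finset.mem_filter] at hT
  refine ⟨T, Polynomial.mem_support_iff.mp hT.1, fun i => (hmax' i).trans hT.2, fun i hi => ?_⟩
  by_contra hcon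
  rw [not_lt] at hcon
  have hi0 : i ∈ F.support := by
    by_contra h0
    rw [Polynomial.notMem_support_iff.mp h0, norm_zero, zero_mul] at hcon
    exact absurd (k2_pos hr (Polynomial.mem_support_iff.mp hT.1)) (not_lt.mpr hcon)
  exact absurd (hTm i (Finset.mem_filter.mpr ⟨hi0, hT.2.trans hcon⟩)) (not_le.mpr hi)

theorem bot_exists {F : K[X]} (hF : F ≠ 0) {r : ℝ} (hr : 0 < r) : ∃ B, Bot F r B := by
  classical
  have hne : F.support.Nonempty := Polynomial.nonempty_support_iff.mpr hF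
  obtain ⟨x, hx, hmax⟩ := Finset.exists_max_image F.support (fun i => ‖F.coeff i‖ * r ^ i) hne
  have hmax' : ∀ i, ‖F.coeff i‖ * r ^ i ≤ ‖F.coeff x‖ * r ^ x := by
    intro i
    by_cases hi : i ∈ F.support
    · exact hmax i hi
    · rw [Polynomial.notMem_support_iff.mp hi, norm_zero, zero_mul]
      exact (k2_pos hr (Polynomial.mem_support_iff.mp hx)).le
  have hS : (F.support.filter (fun i => ‖F.coeff x‖ * r ^ x ≤ ‖F.coeff i‖ * r ^ i)).Nonempty :=
    ⟨x, Finset.mem_filter.mpr ⟨hx, le_rfl⟩⟩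
  obtain ⟨T, hT, hTm⟩ := Finset.exists_min_image _ (fun i => i) hS
  rw [Finset.mem_filter] at hT
  refine ⟨T, Polynomial.mem_support_iff.mp hT.1, fun i => (hmax' i).trans hT.2, fun i hi => ?_⟩
  by_contra hcon
  rw [not_lt] at hcon
  have hi0 : i ∈ F.support := by
    by_contra h0
    rw [Polynomial.notMem_support_iff.mp h0, norm_zero, zero_mul] at hcon
    exact absurd (k2_pos hr (Polynomial.mem_support_iff.mp hT.1)) (not_lt.mpr hcon)
  exact absurd (hTm i (Finset.mem_filter.mpr ⟨hi0, hT.2.trans hcon⟩)) (not_le.mpr hi)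

theorem k2_near (F : K[X]) (r : ℝ) (T : ℕ) (P : ℕ → Prop)
    (h : ∀ i, P i → ‖F.coeff i‖ * r ^ i < ‖F.coeff T‖ * r ^ T) :
    ∃ ε > 0, ∀ s, |s - r| < ε → ∀ i, P i → i ∈ F.support →
      ‖F.coeff i‖ * s ^ i < ‖F.coeff T‖ * s ^ T := by
  classical
  have h1 : ∀ᶠ s in nhds r, ∀ i ∈ F.support, P i → ‖F.coeff i‖ * s ^ i < ‖F.coeff T‖ * s ^ T := by
    rw [Filter.eventually_all_finset]
    intro i _
    by_cases hP : P i
    · have h2 : ContinuousAt (fun s : ℝ => ‖F.coeff i‖ * s ^ i) r := by fun_prop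
      have h3 : ContinuousAt (fun s : ℝ => ‖F.coeff T‖ * s ^ T) r := by fun_prop
      exact (h2.eventually_lt h3 (h i hP)).mono (fun s hs _ => hs)
    · exact Filter.Eventually.of_forall (fun s hs => absurd hs hP)
  rw [Metric.eventually_nhds_iff] at h1
  obtain ⟨ε, hε, h2⟩ := h1
  exact ⟨ε, hε, fun s hs i hP hi => h2 (by rw [Real.dist_eq]; exact hs) i hi hP⟩

theorem k2_coeff {F : K[X]} {r : ℝ} (hr : 0 < r) {i T : ℕ} (hi : i < T)
    (h : ‖F.coeff i‖ * r ^ i ≤ ‖F.coeff T‖ * r ^ T) : ‖F.coeff i‖ ≤ ‖F.coeff T‖ * r ^ (T - i) := by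
  have hp : 0 < r ^ i := pow_pos hr i
  have e : r ^ T = r ^ (T - i) * r ^ i := by rw [← pow_add]; congr 1; omega
  rw [e, ← mul_assoc] at h
  exact le_of_mul_le_mul_right h hp

theorem k2_coeff' {F : K[X]} {r : ℝ} (hr : 0 < r) {i T : ℕ} (hi : T < i)
    (h : ‖F.coeff i‖ * r ^ i ≤ ‖F.coeff T‖ * r ^ T) : ‖F.coeff i‖ * r ^ (i - T) ≤ ‖F.coeff T‖ := by
  have hp : 0 < r ^ T := pow_pos hr T
  have e : r ^ i = r ^ (i - T) * r ^ T := by rw [← pow_add]; congr 1; omega
  rw [e, ← mul_assoc] at h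
  exact le_of_mul_le_mul_right h hp

theorem top_right {F : K[X]} {r : ℝ} (hr : 0 < r) {T : ℕ} (h : Top F r T) :
    ∃ ε > 0, ∀ s, r < s → s < r + ε → Top F s T := by
  obtain ⟨ε, hε, h1⟩ := k2_near F r T (fun i => T < i) h.2.2
  refine ⟨ε, hε, fun s hs hs' => ?_⟩
  have hs0 : 0 < s := hr.trans hs
  have hgt : ∀ i, T < i → ‖F.coeff i‖ * s ^ i < ‖F.coeff T‖ * s ^ T := by
    intro i hi
    by_cases hi0 : i ∈ F.support
    · exact h1 s (by rw [abs_lt]; constructor <;> linarith) i hi hi0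
    · rw [Polynomial.notMem_support_iff.mp hi0, norm_zero, zero_mul]
      exact k2_pos hs0 h.1
  refine ⟨h.1, fun i => ?_, hgt⟩
  rcases lt_trichotomy i T with hi | hi | hi
  · have h2 := k2_coeff hr hi (h.2.1 i)
    have h3 : r ^ (T - i) ≤ s ^ (T - i) := pow_le_pow_left₀ hr.le hs.le _
    have e : s ^ T = s ^ (T - i) * s ^ i := by rw [← pow_add]; congr 1; omega
    rw [e, ← mul_assoc]
    exact mul_le_mul_of_nonneg_right
      (h2.trans (mul_le_mul_of_nonneg_left h3 (norm_nonneg _))) (pow_pos hs0 i).le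
  · rw [hi]
  · exact (hgt i hi).le

theorem top_left {F : K[X]} {r : ℝ} (hr : 0 < r) {B : ℕ} (h : Bot F r B) :
    ∃ ε > 0, ∀ s, 0 < s → r - ε < s → s < r → Top F s B := by
  obtain ⟨ε, hε, h1⟩ := k2_near F r B (fun i => i < B) h.2.2
  refine ⟨ε, hε, fun s hs0 hs hs' => ?_⟩
  have hgt : ∀ i, B < i → ‖F.coeff i‖ * s ^ i < ‖F.coeff B‖ * s ^ B := by
    intro i hi
    by_cases hi0 : i ∈ F.support
    · have h2 := k2_coeff' hr hi (h.2.1 i)
      have h3 : s ^ (i - B) < r ^ (i - B) := pow_lt_pow_left₀ hs' hs0.le (by omega)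
      have h4 : ‖F.coeff i‖ * s ^ (i - B) < ‖F.coeff B‖ :=
        (mul_lt_mul_of_pos_left h3
          (norm_pos_iff.mpr (Polynomial.mem_support_iff.mp hi0))).trans_le h2
      have e : s ^ i = s ^ (i - B) * s ^ B := by rw [← pow_add]; congr 1; omega
      rw [e, ← mul_assoc]
      exact mul_lt_mul_of_pos_right h4 (pow_pos hs0 B)
    · rw [Polynomial.notMem_support_iff.mp hi0, norm_zero, zero_mul]
      exact k2_pos hs0 h.1
  refine ⟨h.1, fun i => ?_, hgt⟩
  rcases lt_trichotomy i B with hi | hi | hi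
  · by_cases hi0 : i ∈ F.support
    · exact (h1 s (by rw [abs_lt]; constructor <;> linarith) i hi hi0).le
    · rw [Polynomial.notMem_support_iff.mp hi0, norm_zero, zero_mul]
      exact (k2_pos hs0 h.1).le
  · rw [hi]
  · exact (hgt i hi).le

theorem k2_sum (F : K[X]) (i : ℕ) : ‖F.coeff i‖ ≤ ∑ j ∈ F.support, ‖F.coeff j‖ := by
  by_cases hi : i ∈ F.support
  · exact Finset.single_le_sum (f := fun j => ‖F.coeff j‖) (fun j _ => norm_nonneg _) hi
  · rw [Polynomial.notMem_support_iff.mp hi, norm_zero]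
    exact Finset.sum_nonneg (fun j _ => norm_nonneg _)

theorem top_large {F : K[X]} (hF : F ≠ 0) : ∃ R : ℝ, 0 < R ∧ ∀ r, R < r → Top F r F.natDegree := by
  have hn : F.coeff F.natDegree ≠ 0 := by
    rw [Polynomial.coeff_natDegree]; exact Polynomial.leadingCoeff_ne_zero.mpr hF
  have hn0 : 0 < ‖F.coeff F.natDegree‖ := norm_pos_iff.mpr hn
  refine ⟨max 1 ((∑ j ∈ F.support, ‖F.coeff j‖) / ‖F.coeff F.natDegree‖),
    lt_of_lt_of_le one_pos (le_max_left _ _), fun r hr => ?_⟩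
  have hr1 : 1 < r := lt_of_le_of_lt (le_max_left _ _) hr
  have hr0 : 0 < r := one_pos.trans hr1
  have hr2 : (∑ j ∈ F.support, ‖F.coeff j‖) < ‖F.coeff F.natDegree‖ * r := by
    have := lt_of_le_of_lt (le_max_right _ _) hr
    rw [div_lt_iff₀ hn0] at this
    linarith [mul_comm r ‖F.coeff F.natDegree‖]
  have hgt : ∀ i, F.natDegree < i → ‖F.coeff i‖ * r ^ i < ‖F.coeff F.natDegree‖ * r ^ F.natDegree := by
    intro i hi
    rw [Polynomial.coeff_eq_zero_of_natDegree_lt hi, norm_zero, zero_mul]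
    exact k2_pos hr0 hn
  refine ⟨hn, fun i => ?_, hgt⟩
  rcases lt_trichotomy i F.natDegree with hi | hi | hi
  · have h1 : ‖F.coeff i‖ ≤ ‖F.coeff F.natDegree‖ * r ^ (F.natDegree - i) := by
      refine ((k2_sum F i).trans hr2.le).trans (mul_le_mul_of_nonneg_left ?_ hn0.le)
      exact le_self_pow₀ hr1.le (by omega)
    have e : r ^ F.natDegree = r ^ (F.natDegree - i) * r ^ i := by rw [← pow_add]; congr 1; omega
    rw [e, ← mul_assoc]
    exact mul_le_mul_of_nonneg_right h1 (pow_pos hr0 i).le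
  · rw [hi]
  · exact (hgt i hi).le

theorem top_small {F : K[X]} (hF : F ≠ 0) :
    ∃ ε : ℝ, 0 < ε ∧ ∀ r, 0 < r → r < ε → Top F r F.natTrailingDegree := by
  have hn : F.coeff F.natTrailingDegree ≠ 0 := by
    have := Polynomial.trailingCoeff_nonzero_iff_nonzero.mpr hF
    exact this
  have hn0 : 0 < ‖F.coeff F.natTrailingDegree‖ := norm_pos_iff.mpr hn
  have hS : 0 ≤ ∑ j ∈ F.support, ‖F.coeff j‖ := Finset.sum_nonneg (fun j _ => norm_nonneg _)
  refine ⟨min 1 (‖F.coeff F.natTrailingDegree‖ / ((∑ j ∈ F.support, ‖F.coeff j‖) + 1)),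
    lt_min one_pos (div_pos hn0 (by linarith)), fun r hr0 hr => ?_⟩
  have hr1 : r < 1 := hr.trans_le (min_le_left _ _)
  have hr2 : r * ((∑ j ∈ F.support, ‖F.coeff j‖) + 1) < ‖F.coeff F.natTrailingDegree‖ := by
    have := hr.trans_le (min_le_right _ _)
    rwa [lt_div_iff₀ (by linarith)] at this
  have hgt : ∀ i, F.natTrailingDegree < i →
      ‖F.coeff i‖ * r ^ i < ‖F.coeff F.natTrailingDegree‖ * r ^ F.natTrailingDegree := by
    intro i hi
    have h1 : ‖F.coeff i‖ * r ^ (i - F.natTrailingDegree) < ‖F.coeff F.natTrailingDegree‖ := by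
      have h2 : r ^ (i - F.natTrailingDegree) ≤ r := by
        have := pow_le_pow_of_le_one hr0.le hr1.le (show 1 ≤ i - F.natTrailingDegree by omega)
        rwa [pow_one] at this
      have h3 : ‖F.coeff i‖ * r ^ (i - F.natTrailingDegree) ≤
          (∑ j ∈ F.support, ‖F.coeff j‖) * r :=
        mul_le_mul (k2_sum F i) h2 (pow_pos hr0 _).le hS
      nlinarith
    have e : r ^ i = r ^ (i - F.natTrailingDegree) * r ^ F.natTrailingDegree := by
      rw [← pow_add]; congr 1; omega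
    rw [e, ← mul_assoc]
    exact mul_lt_mul_of_pos_right h1 (pow_pos hr0 _)
  refine ⟨hn, fun i => ?_, hgt⟩
  rcases lt_trichotomy i F.natTrailingDegree with hi | hi | hi
  · rw [Polynomial.coeff_eq_zero_of_lt_natTrailingDegree hi, norm_zero, zero_mul]
    exact (k2_pos hr0 hn).le
  · rw [hi]
  · exact (hgt i hi).le

end ModK2

end Pool.Agent.Lib.MP_2d59ee_ag.J

/-! Part K3 -/
/-! ## Row K3: large radii

`norm_nat`: for `3 ∤ n` the norm of `(n : K)` is `1` (`‖3‖ < 1`, `n = 3 q ± 1`, ultrametric; all natural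
numbers have norm `≤ 1`).
`top_rel`: the coefficient of `X^(4m)` in `Star.eq` (`m ≥ 2`; `deg Y = m`, `deg H ≤ 2m`,
`deg (H - Y^2) ≤ 2m`): with `h = H.coeff (2m)`, `y = Y.coeff m ≠ 0`: `3 (h - y^2)^2 = 2 h (2 m h)`, i.e.
`4 m h^2 = 3 (h - y^2)^2`. Norms: `‖h‖^2 = ‖h - y^2‖^2 / 3`. If `‖h‖ ≥ ‖y‖^2`: `‖h - y^2‖ ≤ ‖h‖`, so `h = 0` and
`y = 0`, contradiction. So `‖h‖ < ‖y‖^2`, `‖h - y^2‖ = ‖y‖^2`, `3 ‖h‖^2 = ‖y‖^4`; in particular `h ≠ 0`.
`gd_large`: for `r` large (`top_large` for `Y` and `H`, with `natDegree` `m` and `2 m`), `T = m`; and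
`Reg` for large `r` since `(‖Y_m‖ r^m)^4` grows faster than `3 r^2`, `r^3`, and `(‖Y_m‖ r^m)^3` faster
than `‖c‖ r^2` (`m ≥ 2`). -/

namespace Pool.Agent.Lib.MP_2d59ee_ag.J

section ModK3

open Polynomial

variable {K : Type} [NormedField K] [IsUltrametricDist K]

theorem norm_nat (h3 : ‖(3 : K)‖ = 1 / 3) {n : ℕ} (hn : ¬ 3 ∣ n) : ‖(n : K)‖ = 1 := by
  have hle : ∀ q : ℕ, ‖(3 : K) * (q : K)‖ < 1 := by
    intro q
    rw [norm_mul, h3]
    have := IsUltrametricDist.norm_natCast_le_one K q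
    nlinarith [norm_nonneg (q : K)]
  have hcase : n % 3 = 1 ∨ n % 3 = 2 := by omega
  rcases hcase with h | h
  · obtain ⟨q, hq⟩ : ∃ q, n = 3 * q + 1 := ⟨n / 3, by omega⟩
    subst hq
    push_cast
    have h1 : ‖(3 : K) * (q : K)‖ ≠ ‖(1 : K)‖ := by
      rw [norm_one]; exact (hle q).ne
    rw [IsUltrametricDist.norm_add_eq_max_of_norm_ne_norm h1, norm_one]
    exact max_eq_right (hle q).le
  · obtain ⟨q, hq⟩ : ∃ q, n + 1 = 3 * q := ⟨n / 3 + 1, by omega⟩
    have he : (n : K) = (3 : K) * (q : K) + (-1) := by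
      have : ((n + 1 : ℕ) : K) = ((3 * q : ℕ) : K) := by rw [hq]
      push_cast at this
      linear_combination this
    rw [he]
    have h1 : ‖(3 : K) * (q : K)‖ ≠ ‖(-1 : K)‖ := by
      rw [norm_neg, norm_one]; exact (hle q).ne
    rw [IsUltrametricDist.norm_add_eq_max_of_norm_ne_norm h1, norm_neg, norm_one]
    exact max_eq_right (hle q).le

theorem k3_coeff {m : ℕ} (hm2 : 2 ≤ m) {Y H : K[X]} {c : K} (h : Star m Y H c) :
    3 * (H.coeff (2 * m) - Y.coeff m ^ 2) ^ 2
      = 2 * H.coeff (2 * m) * (((2 * m : ℕ) : K) * H.coeff (2 * m)) := by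
  have hY : Y.natDegree ≤ m := h.dY.le
  have hY2 : (Y ^ 2).natDegree ≤ 2 * m :=
    natDegree_pow_le.trans (by nlinarith [h.dY])
  have hD : (H - Y ^ 2).natDegree ≤ 2 * m :=
    (natDegree_sub_le_of_le h.dH hY2).trans (max_self _).le
  have hc := congrArg (fun P : K[X] => P.coeff (2 * m + 2 * m)) h.eq
  have hYY : (Y ^ 2).coeff (2 * m) = Y.coeff m ^ 2 := by
    have h1 : (Y ^ 2).coeff (2 * m) = Y.coeff m ^ 2 := by
      rw [sq, two_mul, coeff_mul_add_eq_of_natDegree_le hY hY, sq]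
    exact h1
  have e1 : ((H - Y ^ 2) ^ 2).coeff (2 * m + 2 * m) = (H.coeff (2 * m) - Y.coeff m ^ 2) ^ 2 := by
    rw [sq (H - Y ^ 2), coeff_mul_add_eq_of_natDegree_le hD hD, coeff_sub, hYY]
    ring
  have e2 : ((C c * Y + X) * (H - Y ^ 2)).coeff (2 * m + 2 * m) = 0 := by
    apply coeff_eq_zero_of_natDegree_lt
    refine lt_of_le_of_lt natDegree_mul_le ?_
    have h1 : (C c * Y + X).natDegree ≤ m := by
      refine natDegree_add_le_of_degree_le ((natDegree_C_mul_le c Y).trans hY) ?_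
      exact natDegree_X_le.trans (by omega)
    omega
  have e3 : (X ^ 2 * (C c * Y - X)).coeff (2 * m + 2 * m) = 0 := by
    apply coeff_eq_zero_of_natDegree_lt
    refine lt_of_le_of_lt natDegree_mul_le ?_
    have h1 : (C c * Y - X).natDegree ≤ m := by
      refine (natDegree_sub_le_of_le ((natDegree_C_mul_le c Y).trans hY)
        (natDegree_X_le.trans (by omega : 1 ≤ m))).trans (max_self _).le
    have h2 : (X ^ 2 : K[X]).natDegree ≤ 2 := natDegree_X_pow_le 2
    omega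
  have hXH : (X * derivative H).coeff (2 * m) = ((2 * m : ℕ) : K) * H.coeff (2 * m) := by
    obtain ⟨k, hk⟩ : ∃ k, 2 * m = k + 1 := ⟨2 * m - 1, by omega⟩
    rw [hk, coeff_X_mul, coeff_derivative]
    push_cast
    ring
  have hdXH : (X * derivative H - X).natDegree ≤ 2 * m := by
    refine (natDegree_sub_le_of_le (m := 2 * m) (n := 2 * m) ?_
      (natDegree_X_le.trans (by omega))).trans (max_self _).le
    refine natDegree_mul_le.trans ?_
    have h1 : (derivative H).natDegree ≤ 2 * m - 1 := by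
      have := natDegree_derivative_le H
      have := h.dH
      omega
    have h2 : (X : K[X]).natDegree ≤ 1 := natDegree_X_le
    omega
  have e4 : (2 * H * (X * derivative H - X)).coeff (2 * m + 2 * m)
      = 2 * H.coeff (2 * m) * (((2 * m : ℕ) : K) * H.coeff (2 * m)) := by
    have h2H : (2 * H : K[X]) = C 2 * H := by
      rw [map_ofNat]
    have hdH : (2 * H : K[X]).natDegree ≤ 2 * m := by
      rw [h2H]; exact (natDegree_C_mul_le 2 H).trans h.dH
    rw [coeff_mul_add_eq_of_natDegree_le hdH hdXH, coeff_sub, hXH, h2H, coeff_C_mul, coeff_X,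
      if_neg (by omega)]
    ring
  have h3C : ∀ P : K[X], (3 * P).coeff (2 * m + 2 * m) = 3 * P.coeff (2 * m + 2 * m) := by
    intro P
    have : (3 * P : K[X]) = C 3 * P := by rw [map_ofNat]
    rw [this, coeff_C_mul]
  rw [h3C, coeff_add, coeff_sub, e1, e2, e3, e4] at hc
  linear_combination hc

theorem top_rel (h3 : ‖(3 : K)‖ = 1 / 3) {m : ℕ} (hm : m % 3 = 1) (hm2 : 2 ≤ m) {Y H : K[X]} {c : K}
    (h : Star m Y H c) : H.natDegree = 2 * m ∧ 3 * ‖H.coeff (2 * m)‖ ^ 2 = ‖Y.coeff m‖ ^ 4 := by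
  have hk := k3_coeff hm2 h
  set a := H.coeff (2 * m) with ha
  set y := Y.coeff m with hy
  have hy0 : y ≠ 0 := by
    intro h0
    have hYn : Y ≠ 0 := by
      rintro rfl
      have := h.dY
      simp at this
      omega
    apply hYn
    rw [← leadingCoeff_eq_zero, leadingCoeff, h.dY]
    exact h0
  have hk2 : 3 * (a - y ^ 2) ^ 2 = ((4 * m : ℕ) : K) * a ^ 2 := by
    push_cast at hk ⊢
    linear_combination hk
  have hn := congrArg norm hk2
  rw [norm_mul, norm_mul, norm_pow, norm_pow, h3, norm_nat h3 (by omega : ¬ 3 ∣ 4 * m)] at hn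
  have hlt : ‖a‖ < ‖y‖ ^ 2 := by
    by_contra hcon
    push Not at hcon
    have hle : ‖a - y ^ 2‖ ≤ ‖a‖ := by
      rw [sub_eq_add_neg]
      refine (IsUltrametricDist.norm_add_le_max a (-(y ^ 2))).trans ?_
      rw [norm_neg, norm_pow]
      exact max_le le_rfl hcon
    have h0 : ‖a - y ^ 2‖ ^ 2 ≤ ‖a‖ ^ 2 := pow_le_pow_left₀ (norm_nonneg _) hle 2
    have ha0 : ‖a‖ ^ 2 ≤ 0 := by nlinarith [sq_nonneg ‖a‖]
    have ha1 : ‖a‖ = 0 := by nlinarith [norm_nonneg a, sq_nonneg ‖a‖]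
    have hyp : 0 < ‖y‖ := norm_pos_iff.mpr hy0
    have : 0 < ‖y‖ ^ 2 := by positivity
    linarith
  have heq : ‖a - y ^ 2‖ = ‖y‖ ^ 2 := by
    have hne : ‖a‖ ≠ ‖-(y ^ 2)‖ := by
      rw [norm_neg, norm_pow]; exact hlt.ne
    rw [sub_eq_add_neg, IsUltrametricDist.norm_add_eq_max_of_norm_ne_norm hne, norm_neg, norm_pow]
    exact max_eq_right hlt.le
  rw [heq] at hn
  have hrel : 3 * ‖a‖ ^ 2 = ‖y‖ ^ 4 := by nlinarith
  refine ⟨?_, hrel⟩
  apply le_antisymm h.dH
  apply le_natDegree_of_ne_zero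
  intro h0
  have hyp : 0 < ‖y‖ := norm_pos_iff.mpr hy0
  have : 0 < ‖y‖ ^ 4 := by positivity
  rw [← hrel] at this
  rw [← ha] at h0
  rw [h0] at this
  simp at this

theorem gd_large (h3 : ‖(3 : K)‖ = 1 / 3) {m : ℕ} (hm : m % 3 = 1) (hm2 : 2 ≤ m) {Y H : K[X]} {c : K}
    (h : Star m Y H c) : ∃ R : ℝ, 0 < R ∧ ∀ r, R < r → Gd Y H c r := by
  obtain ⟨hdH, hrel⟩ := top_rel h3 hm hm2 h
  have hY0 : Y ≠ 0 := by
    rintro rfl
    have := h.dY
    simp at this
    omega
  have hH0 : H ≠ 0 := by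
    rintro rfl
    simp at hdH
    omega
  have hy0 : Y.coeff m ≠ 0 := by
    rw [← h.dY]
    exact leadingCoeff_ne_zero.mpr hY0
  obtain ⟨R1, hR1, hT1⟩ := top_large hY0
  obtain ⟨R2, hR2, hT2⟩ := top_large hH0
  rw [h.dY] at hT1
  rw [hdH] at hT2
  have hyp : 0 < ‖Y.coeff m‖ := norm_pos_iff.mpr hy0
  set y := ‖Y.coeff m‖ with hy
  have hy4 : 0 < y ^ 4 := by positivity
  have hy3 : 0 < y ^ 3 := by positivity
  refine ⟨R1 + R2 + 1 + 3 / y ^ 4 + ‖c‖ / y ^ 3, by positivity, fun r hr => ?_⟩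
  have hp4 : 0 < 3 / y ^ 4 := by positivity
  have hp3 : 0 ≤ ‖c‖ / y ^ 3 := by positivity
  have hr1 : 1 < r := by linarith
  have hrR1 : R1 < r := by linarith
  have hrR2 : R2 < r := by linarith
  have hr4 : 3 < y ^ 4 * r := by
    have : 3 / y ^ 4 < r := by linarith
    rw [div_lt_iff₀ hy4] at this
    linarith
  have hr3 : ‖c‖ < y ^ 3 * r := by
    have : ‖c‖ / y ^ 3 < r := by linarith
    rw [div_lt_iff₀ hy3] at this
    linarith
  have hr0 : 0 < r := by linarith
  have hm4 : (y * r ^ m) ^ 4 = y ^ 4 * r ^ (4 * m) := by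
    rw [mul_pow, ← pow_mul, mul_comm m 4]
  have hm3 : (y * r ^ m) ^ 3 = y ^ 3 * r ^ (3 * m) := by
    rw [mul_pow, ← pow_mul, mul_comm m 3]
  have hb4 : y ^ 4 * r ^ 4 ≤ y ^ 4 * r ^ (4 * m) :=
    mul_le_mul_of_nonneg_left (pow_le_pow_right₀ hr1.le (by omega)) hy4.le
  have hb3 : y ^ 3 * r ^ 3 ≤ y ^ 3 * r ^ (3 * m) :=
    mul_le_mul_of_nonneg_left (pow_le_pow_right₀ hr1.le (by omega)) hy3.le
  have hrr2 : 0 < r ^ 2 := by positivity
  have hrr3 : 0 < r ^ 3 := by positivity
  have hr23 : r ^ 2 ≤ r ^ 3 := pow_le_pow_right₀ hr1.le (by norm_num)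
  have hA : 3 * r ^ 3 < y ^ 4 * r ^ 4 := by
    have := mul_lt_mul_of_pos_right hr4 hrr3
    calc 3 * r ^ 3 < y ^ 4 * r * r ^ 3 := this
      _ = y ^ 4 * r ^ 4 := by ring
  have hB : ‖c‖ * r ^ 2 < y ^ 3 * r ^ 3 := by
    have := mul_lt_mul_of_pos_right hr3 hrr2
    calc ‖c‖ * r ^ 2 < y ^ 3 * r * r ^ 2 := this
      _ = y ^ 3 * r ^ 3 := by ring
  refine ⟨m, ⟨hT1 r hrR1, hT2 r hrR2, hm, hrel⟩, ⟨?_, ?_, ?_⟩⟩
  · rw [← hy, hm4]; linarith
  · rw [← hy, hm4]; linarith
  · rw [← hy, hm3]; linarith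

end ModK3

end Pool.Agent.Lib.MP_2d59ee_ag.J

/-! Part K5 -/
/-! ## Row K5: the homogeneous equation in characteristic 3

`y^4 = -(h X h')`, `deg h = 2 T`, `T ≡ 1 mod 3`, `y ≠ 0`. Let `ξ ≠ 0` be a root of `h` of multiplicity `μ`.
If `3 ∤ μ` then `h'` has multiplicity `μ - 1` at `ξ`
(`derivative_rootMultiplicity_of_root_of_mem_nonZeroDivisors`), so `h X h'` has multiplicity `2 μ - 1`,
but `y^4` has multiplicity `4 · mult y`: parity contradiction. So `3 ∣ μ` for all roots `ξ ≠ 0`, and (`k`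
algebraically closed) `h = C κ * X^N * w^3`, `N = mult_0 h`. So `X h' = N h`.
`deg h = 2 T ≡ N`, so `N ≡ 2 mod 3` and `y^4 = -2 h^2 = h^2`, i.e.
`(y^2 - h)(y^2 + h) = 0`. -/

namespace Pool.Agent.Lib.MP_2d59ee_ag.J

section ModK5

open Polynomial

theorem k5_mult {k : Type} [Field k] [CharP k 3] {y h : k[X]} (hy : y ≠ 0)
    (heq : y ^ 4 = -(h * (X * derivative h))) (ξ : k) (hξ : ξ ≠ 0) :
    3 ∣ h.rootMultiplicity ξ := by
  by_contra hnd
  have hy4 : y ^ 4 ≠ 0 := pow_ne_zero 4 hy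
  have hprod : h * (X * derivative h) ≠ 0 := by
    intro h0
    rw [h0, neg_zero] at heq
    exact hy4 heq
  have hh : h ≠ 0 := left_ne_zero_of_mul hprod
  have hX : X * derivative h ≠ 0 := right_ne_zero_of_mul hprod
  have hd : derivative h ≠ 0 := right_ne_zero_of_mul hX
  have hμ : h.rootMultiplicity ξ ≠ 0 := by
    intro h0
    exact hnd (h0 ▸ dvd_zero 3)
  have hroot : h.IsRoot ξ := by
    rw [← Polynomial.rootMultiplicity_pos hh]
    omega
  have hcast : ((h.rootMultiplicity ξ : ℕ) : k) ≠ 0 := by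
    intro h0
    exact hnd ((CharP.cast_eq_zero_iff k 3 _).1 h0)
  have hder := derivative_rootMultiplicity_of_root_of_mem_nonZeroDivisors (p := h) hroot
    (mem_nonZeroDivisors_of_ne_zero hcast)
  have hroots := congrArg (fun p : k[X] => p.rootMultiplicity ξ) heq
  classical
  have e1 : (y ^ 4).rootMultiplicity ξ = 4 * y.rootMultiplicity ξ := by
    rw [← count_roots, roots_pow, Multiset.count_nsmul, count_roots]
  have e2 : (-(h * (X * derivative h))).rootMultiplicity ξ =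
      h.rootMultiplicity ξ + (h.rootMultiplicity ξ - 1) := by
    rw [← count_roots, roots_neg, roots_mul hprod, roots_mul hX, Multiset.count_add,
      Multiset.count_add, roots_X, Multiset.count_singleton, if_neg hξ, count_roots,
      count_roots, hder]
    omega
  rw [e1, e2] at hroots
  omega

theorem k5_der {k : Type} [Field k] [CharP k 3] [IsAlgClosed k] {y h : k[X]} (hy : y ≠ 0)
    (heq : y ^ 4 = -(h * (X * derivative h))) :
    ∃ N : ℕ, X * derivative h = (N : k[X]) * h := by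
  have hy4 : y ^ 4 ≠ 0 := pow_ne_zero 4 hy
  have hprod : h * (X * derivative h) ≠ 0 := by
    intro h0
    rw [h0, neg_zero] at heq
    exact hy4 heq
  have hh : h ≠ 0 := left_ne_zero_of_mul hprod
  obtain ⟨u, hu, hnd⟩ := exists_eq_pow_rootMultiplicity_mul_and_not_dvd h hh 0
  set N := h.rootMultiplicity 0 with hN
  rw [C_0, sub_zero] at hu hnd
  have hu0 : u ≠ 0 := by
    rintro rfl
    exact hnd (dvd_zero _)
  refine ⟨N, ?_⟩
  classical
  have hroots : ∀ ξ ∈ u.roots, 3 ∣ Multiset.count ξ u.roots := by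
    intro ξ hξ
    have hξ0 : ξ ≠ 0 := by
      rintro rfl
      have h1 : u.IsRoot 0 := (mem_roots hu0).1 hξ
      apply hnd
      have h2 := dvd_iff_isRoot.2 h1
      rwa [C_0, sub_zero] at h2
    have h3 := k5_mult hy heq ξ hξ0
    have h4 : h.rootMultiplicity ξ = u.roots.count ξ := by
      rw [← count_roots]
      conv_lhs => rw [hu]
      rw [roots_mul (hu ▸ hh), Multiset.count_add, roots_pow, Multiset.count_nsmul, roots_X,
        Multiset.count_singleton, if_neg hξ0]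
      omega
    rwa [h4] at h3
  obtain ⟨s, hs⟩ := Multiset.exists_smul_of_dvd_count u.roots hroots
  have hsplit : u = C u.leadingCoeff * (u.roots.map (fun a => X - C a)).prod :=
    (IsAlgClosed.splits u).eq_prod_roots
  have hdu : derivative u = 0 := by
    rw [hsplit, hs, Multiset.map_nsmul, Multiset.prod_nsmul, derivative_C_mul, derivative_pow]
    have h3 : ((3 : ℕ) : k) = 0 := CharP.cast_eq_zero k 3
    rw [h3]
    simp
  have hder : derivative h = C (N : k) * X ^ (N - 1) * u := by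
    conv_lhs => rw [hu]
    rw [derivative_mul, hdu, derivative_X_pow]
    simp
  rcases Nat.eq_zero_or_pos N with h0 | h0
  · rw [hder, h0]
    simp
  · rw [hder]
    conv_rhs => rw [hu]
    have hx : X ^ N = X * (X : k[X]) ^ (N - 1) := by
      rw [← pow_succ']
      congr 1
      omega
    rw [hx]
    simp only [map_natCast]
    ring

theorem char3_hom {k : Type} [Field k] [CharP k 3] [IsAlgClosed k] {y h : k[X]} (hy : y ≠ 0)
    {T : ℕ} (hT : T % 3 = 1) (hd : h.natDegree = 2 * T)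
    (heq : y ^ 4 = -(h * (X * derivative h))) :
    (h = y ^ 2 ∨ h = -y ^ 2) ∧ ∀ i, h.coeff i ≠ 0 → i % 3 = 2 := by
  have hy4 : y ^ 4 ≠ 0 := pow_ne_zero 4 hy
  have hprod : h * (X * derivative h) ≠ 0 := by
    intro h0
    rw [h0, neg_zero] at heq
    exact hy4 heq
  have hh : h ≠ 0 := left_ne_zero_of_mul hprod
  obtain ⟨N, hN⟩ := k5_der hy heq
  have h3 : ((3 : ℕ) : k) = 0 := CharP.cast_eq_zero k 3
  have hmod : ∀ i, h.coeff i ≠ 0 → i % 3 = N % 3 := by
    intro i hi
    have h1 := congrArg (fun p : k[X] => p.coeff i) hN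
    have h2 : (X * derivative h).coeff i = (i : k) * h.coeff i := by
      rcases i with _ | i
      · simp
      · rw [coeff_X_mul, coeff_derivative]
        push_cast
        ring
    have h4 : ((N : k[X]) * h).coeff i = (N : k) * h.coeff i := by
      rw [← map_natCast (C : k →+* k[X]), coeff_C_mul]
    rw [h2, h4] at h1
    have h5 : (i : k) = (N : k) := mul_right_cancel₀ hi h1
    have h6 := (CharP.natCast_eq_natCast k 3).1 h5
    exact h6
  have hlead : h.coeff (2 * T) ≠ 0 := by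
    rw [← hd]
    exact leadingCoeff_ne_zero.2 hh
  have hN2 : N % 3 = 2 := by
    have := hmod _ hlead
    omega
  refine ⟨?_, fun i hi => (hmod i hi).trans hN2⟩
  have hNk : (N : k[X]) = 2 := by
    have h3X : ((3 : ℕ) : k[X]) = 0 := by
      rw [← map_natCast (C : k →+* k[X]), h3, C_0]
    obtain ⟨q, hq⟩ : ∃ q, N = 3 * q + 2 := ⟨N / 3, by omega⟩
    rw [hq]
    push_cast
    push_cast at h3X
    rw [h3X]
    ring
  have h3X : (3 : k[X]) = 0 := by
    have : ((3 : ℕ) : k[X]) = 0 := by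
      rw [← map_natCast (C : k →+* k[X]), h3, C_0]
    exact_mod_cast this
  have hfin : (h - y ^ 2) * (h - -y ^ 2) = 0 := by
    rw [hN, hNk] at heq
    have : (h - y ^ 2) * (h - -y ^ 2) = h ^ 2 - y ^ 4 := by ring
    rw [this, heq]
    linear_combination (h ^ 2) * h3X
  rcases mul_eq_zero.1 hfin with h1 | h1
  · exact Or.inl (sub_eq_zero.1 h1)
  · exact Or.inr (sub_eq_zero.1 h1)

end ModK5

end Pool.Agent.Lib.MP_2d59ee_ag.J

/-! Part K7 -/
/-! ## Row K7: no exit in characteristic 3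

Write `[F]_n = F.coeff n`. `2 h X h' = X (h^2)'` and `-1/2 = 1`, so the equation reads
`y^4 + c₂ X^2 y - c₃ X^3 = X (h^2)' + e X h`. For `n ≡ 0 mod 3` the coefficient `[X (h^2)']_n = n [h^2]_n = 0`.
(1) `y_j = 0` for all `j ≡ 0 mod 3`: otherwise let `J` be the largest such `j` with `y_J ≠ 0`, and
`n = 3 T + J`. `y^3 = Σ y_i^3 X^(3i)` (characteristic 3), so `[y^4]_n = Σ_(3 i + j = n) y_i^3 y_j` with
`j ≡ 0 mod 3`, `j ≤ J`, `i ≤ T`: only `i = T`, `j = J`, so `[y^4]_n = y_T^3 y_J ≠ 0`. But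
`y_(n-2) = 0` (`n - 2 > T`), `n ≠ 3` (`T ≥ 4`, as `T ≥ 2` and `T ≡ 1`), `h_(n-1) = 0` (`n - 1 > 2 T`).
Contradiction.
(2) So for all `n ≡ 0 mod 3`: `[y^4]_n = 0` and `c₂ y_(n-2) - c₃ [n = 3] = e h_(n-1)`.
`n = 2 T + 1`: `y_(2T-1) = 0`, so `e h_(2T) = 0`, `e = 0`. `n = T + 2`: `c₂ y_T = 0`, `c₂ = 0`.
`n = 3`: `c₂ y_1 - c₃ = 0`, `c₃ = 0`. -/

namespace Pool.Agent.Lib.MP_2d59ee_ag.J

section ModK7

open Polynomial

theorem k7_cube_coeff {k : Type} [Field k] [CharP k 3] (y : k[X]) (a : ℕ) :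
    (y ^ 3).coeff a = (if 3 ∣ a then y.coeff (a / 3) else 0) ^ 3 := by
  have hp : Fact (Nat.Prime 3) := ⟨Nat.prime_three⟩
  have h := Polynomial.map_frobenius_expand (R := k) (p := 3) y
  rw [← h, Polynomial.coeff_map, Polynomial.coeff_expand (by norm_num)]
  rfl

theorem k7_key {k : Type} [Field k] [CharP k 3] {y h : k[X]} {e c₂ c₃ : k}
    (heq : y ^ 4 + C c₂ * X ^ 2 * y - C c₃ * X ^ 3 = -(h * (X * derivative h - C e * X)))
    (n : ℕ) (hn : 3 ∣ n) (hn3 : 3 ≤ n) :
    (y ^ 4).coeff n + c₂ * y.coeff (n - 2) - (if n = 3 then c₃ else 0) = e * h.coeff (n - 1) := by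
  have h3k : (3 : k) = 0 := by
    have := CharP.cast_eq_zero k 3
    exact_mod_cast this
  have h3 : (3 : k[X]) = 0 := by
    have : (3 : k[X]) = C (3 : k) := (map_ofNat C 3).symm
    rw [this, h3k, C_0]
  have heq' : y ^ 4 + C c₂ * (y * X ^ 2) - C c₃ * X ^ 3 =
      X * derivative (h ^ 2) + C e * (X * h) := by
    have hd : derivative (h ^ 2) = 2 * h * derivative h := by
      rw [pow_two, derivative_mul]
      ring
    rw [hd]
    linear_combination heq - (X * h * derivative h) * h3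
  have hc := congrArg (fun F : k[X] => F.coeff n) heq'
  simp only [coeff_add, coeff_sub, coeff_C_mul] at hc
  obtain ⟨m, rfl⟩ : ∃ m, n = m + 2 := ⟨n - 2, by omega⟩
  have e1 : (y * X ^ 2).coeff (m + 2) = y.coeff m := coeff_mul_X_pow y 2 m
  have e2 : (X * derivative (h ^ 2)).coeff (m + 2) = 0 := by
    rw [show m + 2 = (m + 1) + 1 from rfl, coeff_X_mul, coeff_derivative]
    have : (((m + 1 : ℕ) : k) + 1) = 0 := by
      have h1 : ((m + 2 : ℕ) : k) = 0 := (CharP.cast_eq_zero_iff k 3 (m + 2)).2 hn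
      push_cast at h1 ⊢
      linear_combination h1
    rw [this, mul_zero]
  have e3 : (X * h).coeff (m + 2) = h.coeff (m + 1) := by
    rw [show m + 2 = (m + 1) + 1 from rfl, coeff_X_mul]
  have e4 : (X ^ 3 : k[X]).coeff (m + 2) = if m + 2 = 3 then 1 else 0 := by
    rw [coeff_X_pow]
  rw [e1, e2, e3, e4] at hc
  have e5 : m + 2 - 2 = m := by omega
  have e6 : m + 2 - 1 = m + 1 := by omega
  rw [e5, e6]
  by_cases h7 : m + 2 = 3
  · rw [if_pos h7] at hc ⊢
    linear_combination hc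
  · rw [if_neg h7] at hc ⊢
    linear_combination hc

theorem char3_exit {k : Type} [Field k] [CharP k 3] {y h : k[X]} {e c₂ c₃ : k} {T : ℕ}
    (hT : T % 3 = 1) (hT2 : 2 ≤ T) (hy : y.natDegree = T) (hh : h.natDegree = 2 * T)
    (heq : y ^ 4 + C c₂ * X ^ 2 * y - C c₃ * X ^ 3 = -(h * (X * derivative h - C e * X))) :
    e = 0 ∧ c₂ = 0 ∧ c₃ = 0 := by
  classical
  have hT4 : 4 ≤ T := by omega
  have hy0 : y ≠ 0 := by
    intro h0
    rw [h0, natDegree_zero] at hy
    omega
  have hh0 : h ≠ 0 := by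
    intro h0
    rw [h0, natDegree_zero] at hh
    omega
  have hyT : y.coeff T ≠ 0 := by
    rw [← hy]
    exact leadingCoeff_ne_zero.2 hy0
  have hhT : h.coeff (2 * T) ≠ 0 := by
    rw [← hh]
    exact leadingCoeff_ne_zero.2 hh0
  have hyz : ∀ n, T < n → y.coeff n = 0 := fun n hn =>
    coeff_eq_zero_of_natDegree_lt (by omega)
  have hhz : ∀ n, 2 * T < n → h.coeff n = 0 := fun n hn =>
    coeff_eq_zero_of_natDegree_lt (by omega)
  have h4 : ∀ n, (y ^ 4).coeff n = ∑ p ∈ Finset.HasAntidiagonal.antidiagonal n, (y ^ 3).coeff p.1 * y.coeff p.2 := by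
    intro n
    rw [show y ^ 4 = y ^ 3 * y by ring, coeff_mul]
  -- (1)
  have step1 : ∀ j, 3 ∣ j → y.coeff j = 0 := by
    by_contra hcon
    push Not at hcon
    obtain ⟨j0, hj0, hj0'⟩ := hcon
    have hex : ∃ J, (3 ∣ J ∧ y.coeff J ≠ 0) ∧ ∀ j, 3 ∣ j → y.coeff j ≠ 0 → j ≤ J := by
      have hb : ∀ j, (3 ∣ j ∧ y.coeff j ≠ 0) → j ≤ T := by
        intro j hj
        by_contra hlt
        exact hj.2 (hyz j (by omega))
      refine ⟨Nat.findGreatest (fun j => 3 ∣ j ∧ y.coeff j ≠ 0) T,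
        Nat.findGreatest_spec (P := fun j => 3 ∣ j ∧ y.coeff j ≠ 0) (hb j0 ⟨hj0, hj0'⟩) ⟨hj0, hj0'⟩, ?_⟩
      intro j hj hj'
      exact Nat.le_findGreatest (hb j ⟨hj, hj'⟩) ⟨hj, hj'⟩
    obtain ⟨J, ⟨hJ3, hJ0⟩, hJmax⟩ := hex
    have hsum : (y ^ 4).coeff (3 * T + J) = y.coeff T ^ 3 * y.coeff J := by
      rw [h4, Finset.sum_eq_single (3 * T, J)]
      · rw [k7_cube_coeff, if_pos (Dvd.intro T rfl), Nat.mul_div_cancel_left T (by norm_num)]
      · rintro ⟨a, b⟩ hab hne
        rw [Finset.HasAntidiagonal.mem_antidiagonal] at hab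
        simp only at hab
        show (y ^ 3).coeff a * y.coeff b = 0
        rw [k7_cube_coeff]
        by_cases h3a : 3 ∣ a
        · rw [if_pos h3a]
          by_cases haT : a / 3 ≤ T
          · have h3b : 3 ∣ b := by omega
            by_cases hb0 : y.coeff b = 0
            · rw [hb0, mul_zero]
            · exfalso
              have hbJ := hJmax b h3b hb0
              apply hne
              have : a = 3 * T ∧ b = J := by omega
              rw [this.1, this.2]
          · rw [hyz _ (by omega)]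
            ring
        · rw [if_neg h3a]
          ring
      · intro hn
        exfalso
        apply hn
        rw [Finset.HasAntidiagonal.mem_antidiagonal]
    have hk := k7_key heq (3 * T + J) (by omega) (by omega)
    rw [hsum, hyz (3 * T + J - 2) (by omega), hhz (3 * T + J - 1) (by omega),
      if_neg (by omega)] at hk
    have : y.coeff T ^ 3 * y.coeff J = 0 := by linear_combination hk
    rcases mul_eq_zero.1 this with h1 | h1
    · exact hyT (pow_eq_zero_iff (by norm_num) |>.1 h1)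
    · exact hJ0 h1
  -- (2)
  have h40 : ∀ n, 3 ∣ n → (y ^ 4).coeff n = 0 := by
    intro n hn
    rw [h4]
    apply Finset.sum_eq_zero
    rintro ⟨a, b⟩ hab
    rw [Finset.HasAntidiagonal.mem_antidiagonal] at hab
    simp only at hab
    show (y ^ 3).coeff a * y.coeff b = 0
    rw [k7_cube_coeff]
    by_cases h3a : 3 ∣ a
    · rw [step1 b (by omega), mul_zero]
    · rw [if_neg h3a]
      ring
  have he : e = 0 := by
    have hk := k7_key heq (2 * T + 1) (by omega) (by omega)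
    rw [h40 _ (by omega), hyz (2 * T + 1 - 2) (by omega), if_neg (by omega),
      show 2 * T + 1 - 1 = 2 * T by omega] at hk
    have : e * h.coeff (2 * T) = 0 := by linear_combination -hk
    exact (mul_eq_zero.1 this).resolve_right hhT
  have hc2 : c₂ = 0 := by
    have hk := k7_key heq (T + 2) (by omega) (by omega)
    rw [h40 _ (by omega), if_neg (by omega), he, show T + 2 - 2 = T by omega] at hk
    have : c₂ * y.coeff T = 0 := by linear_combination hk
    exact (mul_eq_zero.1 this).resolve_right hyT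
  have hc3 : c₃ = 0 := by
    have hk := k7_key heq 3 (dvd_refl 3) (le_refl 3)
    rw [h40 _ (dvd_refl 3), if_pos rfl, he, hc2] at hk
    linear_combination -hk
  exact ⟨he, hc2, hc3⟩

end ModK7

end Pool.Agent.Lib.MP_2d59ee_ag.J
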