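import Mathlib
import Pool.Agent.Lib.MP_2d59ee_ag.JBase

set_option autoImplicit false

/-! Part K4 -/
/-! ## Row K4: reduction of the equation at a radius

`η = ‖Y_T‖ r^T`. `g = Y_T x^T` (`‖g‖ = η`), `ϖ^2 = 3` (`K` algebraically closed, `‖ϖ‖^2 = 1/3`).
`y₀ = C g⁻¹ * Y.comp (C x * X)`, `h₀ = C (ϖ g^2)⁻¹ * H.comp (C x * X)`: coefficients `g⁻¹ Y_i x^i` of norm
`‖Y_i‖ r^i / η ≤ 1`, and `(ϖ g^2)⁻¹ H_i x^i` of norm `√3 ‖H_i‖ r^i / η^2 ≤ 1`, because `rel` says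
`‖H_(2T)‖ r^(2T) = η^2/√3`. Put `e = x/(ϖ g^2)`, `c₁ = c/g`, `c₂ = x^2 c/g^3`, `c₃ = x^3/g^4`; norms
`√3 r/η^2 ≤ 1`, `r^2 ‖c‖/η^3 ≤ 1`, `r^3/η^4 ≤ 1` by `RegW`; and `‖c₁‖ < 1`: from `h0` and `‖2‖ = 1`:
`‖c‖^2 = ‖H_0‖ ≤ ‖H_(2T)‖ r^(2T) = η^2/√3 < η^2`. Substituting `X → x X` in `Star.eq` (note
`(X * H').comp (C x * X) = X * (H.comp (C x * X))'`) and dividing by `3 g^4`:
`(y₀^2 - ϖ h₀)^2 + c₁ y₀ (y₀^2 - ϖ h₀) + ϖ e X (y₀^2 - ϖ h₀) + c₂ X^2 y₀ - c₃ X^3 = 2 h₀ (X h₀' - e X)`.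
Everything is over `A = {‖·‖ ≤ 1}` (`NormedField.valuation.valuationSubring`, or a hand-made subring);
reduce to the residue field, of characteristic `3`, then to its algebraic closure `k`; `ϖ`, `c₁` reduce
to `0`, `2 = -1`: `y^4 + c₂ X^2 y - c₃ X^3 = -(h (X h' - e X))`. The coefficient `y_i` of the reduction
is nonzero iff `‖g⁻¹ Y_i x^i‖ = 1`, etc. -/

namespace Pool.Agent.Lib.MP_2d59ee_ag.J

section ModK4

open Polynomial

variable {K : Type} [NormedField K] [IsUltrametricDist K] [IsAlgClosed K]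

/-- the reduction map of the valuation ring -/
theorem k4_red (h3 : ‖(3 : K)‖ = 1 / 3) :
    ∃ (A : ValuationSubring K) (k : Type) (_ : Field k) (_ : CharP k 3) (_ : IsAlgClosed k)
      (φ : A →+* k), (∀ x : K, x ∈ A ↔ ‖x‖ ≤ 1) ∧ ∀ a : A, φ a ≠ 0 ↔ ‖(a : K)‖ = 1 := by
  have hmem : ∀ x : K, x ∈ (NormedField.valuation (K := K)).valuationSubring ↔ ‖x‖ ≤ 1 := by
    intro x
    rw [Valuation.mem_valuationSubring_iff]
    exact Iff.rfl
  obtain ⟨A, hA⟩ : ∃ A : ValuationSubring K, ∀ x : K, x ∈ A ↔ ‖x‖ ≤ 1 := ⟨_, hmem⟩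
  have hunit : ∀ a : A, IsUnit a ↔ ‖(a : K)‖ = 1 := by
    intro a
    constructor
    · rintro ⟨u, rfl⟩
      have h1 : ((u : A) : K) * ((u⁻¹ : Aˣ) : A) = 1 := by
        have := u.mul_inv
        exact congrArg (fun z : A => (z : K)) this
      have h2 : ‖((u : A) : K)‖ ≤ 1 := (hA _).1 (u : A).2
      have h4 : ‖(((u⁻¹ : Aˣ) : A) : K)‖ ≤ 1 := (hA _).1 ((u⁻¹ : Aˣ) : A).2
      have h5 : ‖((u : A) : K)‖ * ‖(((u⁻¹ : Aˣ) : A) : K)‖ = 1 := by
        rw [← norm_mul, h1, norm_one]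
      have h6 := norm_nonneg ((u : A) : K)
      have h7 := norm_nonneg (((u⁻¹ : Aˣ) : A) : K)
      nlinarith
    · intro ha
      have hne : (a : K) ≠ 0 := by
        intro e
        rw [e, norm_zero] at ha
        norm_num at ha
      have h1 : (a : K)⁻¹ ∈ A := by
        rw [hA, norm_inv, ha, inv_one]
      refine IsUnit.of_mul_eq_one (⟨(a : K)⁻¹, h1⟩ : A) ?_
      exact Subtype.ext (mul_inv_cancel₀ hne)
  have h3A : ¬ IsUnit (3 : A) := by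
    rw [hunit]
    have : ((3 : A) : K) = 3 := rfl
    rw [this, h3]
    norm_num
  have hres3 : IsLocalRing.residue A (3 : A) = 0 := by
    rw [IsLocalRing.residue_eq_zero_iff, IsLocalRing.mem_maximalIdeal]
    exact h3A
  have h3k : (3 : IsLocalRing.ResidueField A) = 0 := by
    have : IsLocalRing.residue A (3 : A) = 3 := map_ofNat _ 3
    rw [← this]
    exact hres3
  have hchar : CharP (IsLocalRing.ResidueField A) 3 := by
    have : ringChar (IsLocalRing.ResidueField A) = 3 := by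
      have h4 : ringChar (IsLocalRing.ResidueField A) ∣ 3 :=
        ringChar.dvd (by exact_mod_cast h3k)
      rcases (Nat.dvd_prime Nat.prime_three).1 h4 with h5 | h5
      · exact absurd h5 (CharP.ringChar_ne_one)
      · exact h5
    rw [← this]
    exact ringChar.charP _
  refine ⟨A, AlgebraicClosure (IsLocalRing.ResidueField A), inferInstance,
    charP_of_injective_algebraMap
      (algebraMap (IsLocalRing.ResidueField A)
        (AlgebraicClosure (IsLocalRing.ResidueField A))).injective 3, inferInstance,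
    (algebraMap (IsLocalRing.ResidueField A)
        (AlgebraicClosure (IsLocalRing.ResidueField A))).comp (IsLocalRing.residue A), hA, ?_⟩
  intro a
  rw [← hunit, RingHom.comp_apply, Ne, map_eq_zero, IsLocalRing.residue_eq_zero_iff,
    IsLocalRing.mem_maximalIdeal]
  exact not_not

theorem k4_two (h3 : ‖(3 : K)‖ = 1 / 3) : ‖(2 : K)‖ = 1 := by
  have h1 : ‖(2 : K)‖ ≤ 1 := by
    have := IsUltrametricDist.norm_natCast_le_one K 2
    exact_mod_cast this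
  have h2 : (1 : K) = 3 + (-2) := by norm_num
  have h4 : ‖(1 : K)‖ ≤ max ‖(3 : K)‖ ‖(-2 : K)‖ := by
    conv_lhs => rw [h2]
    exact IsUltrametricDist.norm_add_le_max _ _
  rw [norm_one, h3, norm_neg] at h4
  rcases le_max_iff.1 h4 with h5 | h5
  · norm_num at h5
  · exact le_antisymm h1 h5

/-- norms of the constant and linear coefficients -/
theorem norm_c_lt (h3 : ‖(3 : K)‖ = 1 / 3) {m : ℕ} {Y H : K[X]} {c : K} (hS : Star m Y H c) {r : ℝ}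
    (hr : 0 < r) {T : ℕ} (hC : Cl Y H r T) : ‖c‖ < ‖Y.coeff T‖ * r ^ T ∧ ‖Y.coeff 0‖ = ‖c‖ := by
  have h2 := k4_two h3
  have hη : 0 < ‖Y.coeff T‖ * r ^ T := by
    have := norm_pos_iff.2 hC.tY.1
    positivity
  have hy : ‖Y.coeff 0‖ = ‖c‖ := by
    have := congrArg norm hS.y0
    rw [norm_mul, h2, one_mul, norm_neg] at this
    exact this
  refine ⟨?_, hy⟩
  have h4 : ‖(4 : K)‖ = 1 := by
    have : (4 : K) = 2 * 2 := by norm_num
    rw [this, norm_mul, h2, one_mul]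
  have hh : ‖H.coeff 0‖ = ‖c‖ ^ 2 := by
    have := congrArg norm hS.h0
    rw [norm_mul, h4, one_mul, norm_neg, norm_pow] at this
    exact this
  have h5 : ‖c‖ ^ 2 ≤ ‖H.coeff (2 * T)‖ * r ^ (2 * T) := by
    have := hC.tH.2.1 0
    rw [hh, pow_zero, mul_one] at this
    exact this
  have h6 : 3 * (‖H.coeff (2 * T)‖ * r ^ (2 * T)) ^ 2 = (‖Y.coeff T‖ * r ^ T) ^ 4 := by
    have := hC.rel
    calc 3 * (‖H.coeff (2 * T)‖ * r ^ (2 * T)) ^ 2
        = (3 * ‖H.coeff (2 * T)‖ ^ 2) * (r ^ T) ^ 4 := by ring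
      _ = (‖Y.coeff T‖ * r ^ T) ^ 4 := by rw [this]; ring
  by_contra hcon
  push Not at hcon
  have hc := norm_nonneg c
  have h7 : (‖Y.coeff T‖ * r ^ T) ^ 2 ≤ ‖c‖ ^ 2 := pow_le_pow_left₀ hη.le hcon 2
  have h8 : (‖Y.coeff T‖ * r ^ T) ^ 2 ≤ ‖H.coeff (2 * T)‖ * r ^ (2 * T) := h7.trans h5
  have h9 : ((‖Y.coeff T‖ * r ^ T) ^ 2) ^ 2 ≤ (‖H.coeff (2 * T)‖ * r ^ (2 * T)) ^ 2 :=
    pow_le_pow_left₀ (by positivity) h8 2
  have h10 : 0 < (‖Y.coeff T‖ * r ^ T) ^ 4 := by positivity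
  have h11 : ((‖Y.coeff T‖ * r ^ T) ^ 2) ^ 2 = (‖Y.coeff T‖ * r ^ T) ^ 4 := by ring
  rw [h11] at h9
  linarith

/-- the rescaled equation -/
theorem k4_eq {m : ℕ} {Y H : K[X]} {c : K} (hS : Star m Y H c) {x g w : K} (hg : g ≠ 0)
    (hw : w ^ 2 = 3) (hw0 : w ≠ 0) (h30 : (3 : K) ≠ 0) {y h : K[X]}
    (hy : y = C g⁻¹ * Y.comp (C x * X)) (hh : h = C (w * g ^ 2)⁻¹ * H.comp (C x * X)) :
    (y ^ 2 - C w * h) ^ 2 + C (c / g) * y * (y ^ 2 - C w * h)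
      + C (w * (x / (w * g ^ 2))) * X * (y ^ 2 - C w * h)
      + C (x ^ 2 * c / g ^ 3) * X ^ 2 * y - C (x ^ 3 / g ^ 4) * X ^ 3
      = 2 * h * (X * derivative h - C (x / (w * g ^ 2)) * X) := by
  have eY : Y.comp (C x * X) = C g * y := by
    rw [hy, ← mul_assoc, ← C_mul, mul_inv_cancel₀ hg, C_1, one_mul]
  have eH : H.comp (C x * X) = C w * C g ^ 2 * h := by
    rw [hh, ← C_pow, ← C_mul, ← mul_assoc, ← C_mul, mul_inv_cancel₀ (by positivity), C_1, one_mul]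
  have eD : C x * X * (derivative H).comp (C x * X) = X * (C w * C g ^ 2 * derivative h) := by
    have h1 : derivative (H.comp (C x * X)) = C x * (derivative H).comp (C x * X) := by
      rw [derivative_comp, derivative_C_mul, derivative_X, mul_one]
    rw [eH] at h1
    have h2 : derivative (C w * C g ^ 2 * h) = C w * C g ^ 2 * derivative h := by
      rw [← C_pow, ← C_mul, derivative_C_mul]
    rw [h2] at h1
    rw [h1]
    ring
  have hcomp := congrArg (fun p : K[X] => p.comp (C x * X)) hS.eq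
  simp only [mul_comp, sub_comp, pow_comp, add_comp, C_comp, X_comp, ofNat_comp] at hcomp
  rw [eY, eH] at hcomp
  have hcomp' : 3 * ((C w * C g ^ 2 * h - (C g * y) ^ 2) ^ 2
      - (C c * (C g * y) + C x * X) * (C w * C g ^ 2 * h - (C g * y) ^ 2)
      + (C x * X) ^ 2 * (C c * (C g * y) - C x * X))
      = 2 * (C w * C g ^ 2 * h) * (X * (C w * C g ^ 2 * derivative h) - C x * X) := by
    rw [← eD]
    exact hcomp
  have r1 : C (c / g) * C g = (C c : K[X]) := by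
    rw [← C_mul, div_mul_cancel₀ _ hg]
  have r2 : C w * C (x / (w * g ^ 2)) * C g ^ 2 = (C x : K[X]) := by
    rw [← C_pow, ← C_mul, ← C_mul]
    congr 1
    field_simp
  have r3 : C (x ^ 2 * c / g ^ 3) * C g ^ 3 = (C x ^ 2 * C c : K[X]) := by
    rw [← C_pow, ← C_pow, ← C_mul, ← C_mul, div_mul_cancel₀ _ (pow_ne_zero 3 hg)]
  have r4 : C (x ^ 3 / g ^ 4) * C g ^ 4 = (C x ^ 3 : K[X]) := by
    rw [← C_pow, ← C_pow, ← C_mul, div_mul_cancel₀ _ (pow_ne_zero 4 hg)]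
  have r5 : C w ^ 2 = (3 : K[X]) := by
    rw [← C_pow, hw]
    rfl
  have hne : (3 * C g ^ 4 : K[X]) ≠ 0 := by
    have h1 : (3 * C g ^ 4 : K[X]) = C (3 * g ^ 4) := by
      rw [C_mul, C_pow]
      rfl
    rw [h1, Ne, C_eq_zero]
    exact mul_ne_zero h30 (pow_ne_zero 4 hg)
  refine mul_left_cancel₀ hne ?_
  rw [C_mul (a := w)]
  generalize (C w : K[X]) = W at *
  generalize (C g : K[X]) = G at *
  generalize (C x : K[X]) = Q at *
  generalize (C c : K[X]) = E at *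
  generalize (C (c / g) : K[X]) = c1 at *
  generalize (C (x / (w * g ^ 2)) : K[X]) = e1 at *
  generalize (C (x ^ 2 * c / g ^ 3) : K[X]) = c2 at *
  generalize (C (x ^ 3 / g ^ 4) : K[X]) = c3 at *
  generalize derivative h = h' at *
  linear_combination hcomp' + 3 * G ^ 3 * y * (y ^ 2 - W * h) * r1
    + (3 * G ^ 2 * X * (y ^ 2 - W * h) + 2 * h * X * W * G ^ 2) * r2
    + 3 * G * X ^ 2 * y * r3 - 3 * X ^ 3 * r4
    + (2 * G ^ 4 * h * X * h' - 2 * h * X * G ^ 4 * e1) * r5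

theorem reduce (h3 : ‖(3 : K)‖ = 1 / 3) {m : ℕ} {Y H : K[X]} {c : K} (hS : Star m Y H c) {r : ℝ}
    (hr : 0 < r) {x : K} (hx : ‖x‖ = r) {T : ℕ} (hC : Cl Y H r T) (hW : RegW Y c r T) :
    ∃ (k : Type) (_ : Field k) (_ : CharP k 3) (_ : IsAlgClosed k) (y h : k[X]) (e c₂ c₃ : k),
      (∀ i, y.coeff i ≠ 0 ↔ ‖Y.coeff i‖ * r ^ i = ‖Y.coeff T‖ * r ^ T) ∧
      (∀ i, h.coeff i ≠ 0 ↔ ‖H.coeff i‖ * r ^ i = ‖H.coeff (2 * T)‖ * r ^ (2 * T)) ∧
      (e ≠ 0 ↔ 3 * r ^ 2 = (‖Y.coeff T‖ * r ^ T) ^ 4) ∧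
      (c₂ ≠ 0 ↔ ‖c‖ * r ^ 2 = (‖Y.coeff T‖ * r ^ T) ^ 3) ∧
      (c₃ ≠ 0 ↔ r ^ 3 = (‖Y.coeff T‖ * r ^ T) ^ 4) ∧
      y ^ 4 + C c₂ * X ^ 2 * y - C c₃ * X ^ 3 = -(h * (X * derivative h - C e * X)) := by
  obtain ⟨A, k, ik1, ik2, ik3, φ, hA, hφ⟩ := k4_red h3
  have h30 : (3 : K) ≠ 0 := by
    intro e
    rw [e, norm_zero] at h3
    norm_num at h3
  obtain ⟨w, hw⟩ : ∃ w : K, w ^ 2 = 3 := IsAlgClosed.exists_pow_nat_eq 3 (by norm_num)
  have hwn : ‖w‖ ^ 2 = 1 / 3 := by rw [← norm_pow, hw, h3]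
  have hw0 : w ≠ 0 := by
    rintro rfl
    rw [norm_zero] at hwn
    norm_num at hwn
  have hwpos : 0 < ‖w‖ := norm_pos_iff.2 hw0
  have hw1 : ‖w‖ < 1 := by nlinarith
  obtain ⟨η, hη⟩ : ∃ η, η = ‖Y.coeff T‖ * r ^ T := ⟨_, rfl⟩
  obtain ⟨θ, hθ⟩ : ∃ θ, θ = ‖H.coeff (2 * T)‖ * r ^ (2 * T) := ⟨_, rfl⟩
  have hηpos : 0 < η := by
    have := norm_pos_iff.2 hC.tY.1
    rw [hη]
    positivity
  have hθpos : 0 < θ := by
    have := norm_pos_iff.2 hC.tH.1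
    rw [hθ]
    positivity
  have hclt : ‖c‖ < η := by
    rw [hη]
    exact (norm_c_lt h3 hS hr hC).1
  obtain ⟨g, hgdef⟩ : ∃ g, g = Y.coeff T * x ^ T := ⟨_, rfl⟩
  have hgn : ‖g‖ = η := by rw [hgdef, norm_mul, norm_pow, hx, hη]
  have hg : g ≠ 0 := norm_pos_iff.1 (by rw [hgn]; exact hηpos)
  have hrel : 3 * θ ^ 2 = η ^ 4 := by
    have := hC.rel
    rw [hθ, hη]
    calc 3 * (‖H.coeff (2 * T)‖ * r ^ (2 * T)) ^ 2
        = (3 * ‖H.coeff (2 * T)‖ ^ 2) * (r ^ T) ^ 4 := by ring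
      _ = (‖Y.coeff T‖ * r ^ T) ^ 4 := by rw [this]; ring
  have hwg : ‖w * g ^ 2‖ = θ := by
    rw [norm_mul, norm_pow, hgn]
    have h1 : (‖w‖ * η ^ 2) ^ 2 = θ ^ 2 := by
      calc (‖w‖ * η ^ 2) ^ 2 = ‖w‖ ^ 2 * η ^ 4 := by ring
        _ = θ ^ 2 := by rw [hwn, ← hrel]; ring
    exact (pow_left_inj₀ (by positivity) hθpos.le (by norm_num)).1 h1
  obtain ⟨y, hy⟩ : ∃ y : K[X], y = C g⁻¹ * Y.comp (C x * X) := ⟨_, rfl⟩
  obtain ⟨h, hh⟩ : ∃ h : K[X], h = C (w * g ^ 2)⁻¹ * H.comp (C x * X) := ⟨_, rfl⟩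
  have heq := k4_eq hS (x := x) hg hw hw0 h30 hy hh
  have ny : ∀ i, ‖y.coeff i‖ = ‖Y.coeff i‖ * r ^ i / η := by
    intro i
    rw [hy, coeff_C_mul, comp_C_mul_X_coeff, norm_mul, norm_mul, norm_inv, norm_pow, hx, hgn]
    field_simp
  have nh : ∀ i, ‖h.coeff i‖ = ‖H.coeff i‖ * r ^ i / θ := by
    intro i
    rw [hh, coeff_C_mul, comp_C_mul_X_coeff, norm_mul, norm_mul, norm_inv, norm_pow, hx, hwg]
    field_simp
  have liftA : ∀ p : K[X], (∀ i, ‖p.coeff i‖ ≤ 1) → ∃ q : A[X], q.map A.subtype = p := by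
    intro p hp
    refine (mem_lifts _).1 ((lifts_iff_coeff_lifts _).2 fun n => ?_)
    exact ⟨⟨p.coeff n, (hA _).2 (hp n)⟩, rfl⟩
  obtain ⟨yA, hyA⟩ := liftA y (fun i => by
    rw [ny, div_le_one hηpos, hη]
    exact hC.tY.2.1 i)
  obtain ⟨hAA, hhA⟩ := liftA h (fun i => by
    rw [nh, div_le_one hθpos, hθ]
    exact hC.tH.2.1 i)
  have ne1 : ‖x / (w * g ^ 2)‖ = r / θ := by rw [norm_div, hx, hwg]
  have nc1 : ‖c / g‖ = ‖c‖ / η := by rw [norm_div, hgn]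
  have nc2 : ‖x ^ 2 * c / g ^ 3‖ = ‖c‖ * r ^ 2 / η ^ 3 := by
    rw [norm_div, norm_mul, norm_pow, norm_pow, hx, hgn, mul_comm]
  have nc3 : ‖x ^ 3 / g ^ 4‖ = r ^ 3 / η ^ 4 := by
    rw [norm_div, norm_pow, norm_pow, hx, hgn]
  have w1 := hW.r1
  have w2 := hW.r2
  have w3 := hW.r3
  rw [← hη] at w1 w2 w3
  have hrθ : r ≤ θ := by
    have h1 : r ^ 2 ≤ θ ^ 2 := by linarith
    exact (pow_le_pow_iff_left₀ hr.le hθpos.le (by norm_num)).1 h1
  obtain ⟨wA, hwA⟩ : ∃ a : A, (a : K) = w := ⟨⟨w, (hA _).2 hw1.le⟩, rfl⟩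
  obtain ⟨eA, heA⟩ : ∃ a : A, (a : K) = x / (w * g ^ 2) :=
    ⟨⟨_, (hA _).2 (by rw [ne1, div_le_one hθpos]; exact hrθ)⟩, rfl⟩
  obtain ⟨c1A, hc1A⟩ : ∃ a : A, (a : K) = c / g :=
    ⟨⟨_, (hA _).2 (by rw [nc1, div_le_one hηpos]; exact hclt.le)⟩, rfl⟩
  obtain ⟨c2A, hc2A⟩ : ∃ a : A, (a : K) = x ^ 2 * c / g ^ 3 :=
    ⟨⟨_, (hA _).2 (by rw [nc2, div_le_one (by positivity)]; exact w3)⟩, rfl⟩
  obtain ⟨c3A, hc3A⟩ : ∃ a : A, (a : K) = x ^ 3 / g ^ 4 :=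
    ⟨⟨_, (hA _).2 (by rw [nc3, div_le_one (by positivity)]; exact w2)⟩, rfl⟩
  have heqA : (yA ^ 2 - C wA * hAA) ^ 2 + C c1A * yA * (yA ^ 2 - C wA * hAA)
      + C (wA * eA) * X * (yA ^ 2 - C wA * hAA)
      + C c2A * X ^ 2 * yA - C c3A * X ^ 3
      = 2 * hAA * (X * derivative hAA - C eA * X) := by
    apply Polynomial.map_injective A.subtype Subtype.coe_injective
    have s1 : ∀ a : A, A.subtype a = (a : K) := fun _ => rfl
    simp only [Polynomial.map_add, Polynomial.map_sub, Polynomial.map_mul, Polynomial.map_pow,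
      Polynomial.map_C, Polynomial.map_X, Polynomial.map_ofNat, ← derivative_map, hyA, hhA, s1,
      hwA, heA, hc1A, hc2A, hc3A, map_mul, C_mul]
    rw [C_mul] at heq
    exact heq
  have zw : φ wA = 0 := by
    by_contra hcon
    have := (hφ _).1 hcon
    rw [hwA] at this
    linarith
  have zc : φ c1A = 0 := by
    by_contra hcon
    have := (hφ _).1 hcon
    rw [hc1A, nc1, div_eq_one_iff_eq hηpos.ne'] at this
    linarith
  have h3k : (3 : k[X]) = 0 := by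
    have h1 : (3 : k) = 0 := by
      have := CharP.cast_eq_zero k 3
      exact_mod_cast this
    have h2 : (3 : k[X]) = C (3 : k) := rfl
    rw [h2, h1, C_0]
  have heqk := congrArg (Polynomial.map φ) heqA
  simp only [Polynomial.map_add, Polynomial.map_sub, Polynomial.map_mul, Polynomial.map_pow,
      Polynomial.map_C, Polynomial.map_X, Polynomial.map_ofNat, ← derivative_map, map_mul, C_mul,
      zw, zc, C_0, zero_mul, sub_zero, add_zero] at heqk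
  refine ⟨k, ik1, ik2, ik3, yA.map φ, hAA.map φ, φ eA, φ c2A, φ c3A, ?_, ?_, ?_, ?_, ?_, ?_⟩
  · intro i
    have h1 : ((yA.coeff i : A) : K) = y.coeff i := by
      rw [← hyA, coeff_map]
      rfl
    rw [coeff_map, hφ, h1, ny, div_eq_one_iff_eq hηpos.ne', hη]
  · intro i
    have h1 : ((hAA.coeff i : A) : K) = h.coeff i := by
      rw [← hhA, coeff_map]
      rfl
    rw [coeff_map, hφ, h1, nh, div_eq_one_iff_eq hθpos.ne', hθ]
  · rw [hφ, heA, ne1, div_eq_one_iff_eq hθpos.ne', ← hη, ← hrel]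
    constructor
    · rintro rfl
      rfl
    · intro h1
      have h2 : r ^ 2 = θ ^ 2 := by linarith
      exact (pow_left_inj₀ hr.le hθpos.le (by norm_num)).1 h2
  · rw [hφ, hc2A, nc2, div_eq_one_iff_eq (by positivity), ← hη]
  · rw [hφ, hc3A, nc3, div_eq_one_iff_eq (by positivity), ← hη]
  · linear_combination heqk + (Polynomial.map φ hAA) * (X * derivative (Polynomial.map φ hAA) -
      C (φ eA) * X) * h3k

end ModK4

end Pool.Agent.Lib.MP_2d59ee_ag.J
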