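import Mathlib
import Pool.Agent.Lib.MP_2d59ee_ag.JKillA
import Pool.Agent.Lib.MP_2d59ee_ag.JKillB

set_option autoImplicit false

/-! Part K6 -/
/-! ## Row K6: from a good radius one can go down

`bots`: `Cl Y H r T`, `Reg Y c r T` imply that there is `B` with `Bot Y r B`, `Bot H r (2 * B)`,
`B % 3 = 1` and `3 * ‖H_(2B)‖^2 = ‖Y_B‖^4`.
Case 1: there is `x : K` with `‖x‖ = r`. `reduce` (`RegW` from `Reg`) gives `y, h` over `k` with
`e = c₂ = c₃ = 0` (strict inequalities). `natDegree y = T`, `natDegree h = 2 T` (coefficient `i` is nonzero iff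
the maximum is attained at `i`; `Top`). `char3_hom`: `h = ± y^2`; let `B = y.natTrailingDegree`; it is
the bottom index of `Y` at `r`, `2 B = h.natTrailingDegree` that of `H`, `2 B % 3 = 2`, so `B % 3 = 1`.
`‖Y_B‖ r^B = ‖Y_T‖ r^T`, `‖H_(2B)‖ r^(2B) = ‖H_(2T)‖ r^(2T)`; from `rel` times `r^(4T)` and dividing by
`r^(4B)`: `3 ‖H_(2B)‖^2 = ‖Y_B‖^4`.
Case 2: no element has norm `r`. Then `‖Y_i‖ r^i = ‖Y_T‖ r^T` with `i < T`, `Y_i ≠ 0` would give
`r^(T - i) = ‖Y_i / Y_T‖` and an element of norm `r` (`exists_norm_eq`), so `B = T` is the bottom index;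
the same for `H`.
`gd_left`: `top_left` for `Y`, `H` at `r`; `Reg` for `s` close to `r` with the index `B` by continuity
(at `s = r` it is `Reg Y c r T` because `‖Y_B‖ r^B = ‖Y_T‖ r^T`). -/

namespace Pool.Agent.Lib.MP_2d59ee_ag.J

section ModK6

open Polynomial

variable {K : Type} [NormedField K] [IsUltrametricDist K] [IsAlgClosed K]

theorem exists_norm_eq {α : K} (hα : α ≠ 0) {n : ℕ} (hn : 0 < n) {r : ℝ} (hr : 0 < r)
    (h : r ^ n = ‖α‖) : ∃ x : K, ‖x‖ = r := by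
  obtain ⟨x, hx⟩ := IsAlgClosed.exists_pow_nat_eq α hn
  refine ⟨x, ?_⟩
  have h1 : ‖x‖ ^ n = r ^ n := by
    rw [← norm_pow, hx, h]
  exact (pow_left_inj₀ (norm_nonneg x) hr.le hn.ne').1 h1

/-- no element of norm `r`: the maximum is attained only once below the top -/
theorem k6_bot {F : K[X]} {r : ℝ} (hr : 0 < r) {T : ℕ} (hT : Top F r T)
    (hno : ¬ ∃ x : K, ‖x‖ = r) : Bot F r T := by
  refine ⟨hT.1, hT.2.1, ?_⟩
  intro i hi
  refine lt_of_le_of_ne (hT.2.1 i) ?_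
  intro h
  have hT0 : 0 < ‖F.coeff T‖ := norm_pos_iff.2 hT.1
  have h1 : r ^ T = r ^ i * r ^ (T - i) := by
    rw [← pow_add]
    congr 1
    omega
  rw [h1] at h
  have hri : 0 < r ^ i := pow_pos hr i
  have hrt : 0 < r ^ (T - i) := pow_pos hr _
  have h2 : ‖F.coeff i‖ = ‖F.coeff T‖ * r ^ (T - i) := by
    have : ‖F.coeff i‖ * r ^ i = (‖F.coeff T‖ * r ^ (T - i)) * r ^ i := by
      rw [h]; ring
    exact mul_right_cancel₀ hri.ne' this
  have hi0 : F.coeff i ≠ 0 := by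
    intro h0
    rw [h0, norm_zero] at h2
    have := mul_pos hT0 hrt
    linarith
  refine hno (exists_norm_eq (α := F.coeff i / F.coeff T) (div_ne_zero hi0 hT.1)
    (n := T - i) (by omega) hr ?_)
  rw [norm_div, h2, mul_div_cancel_left₀ _ hT0.ne']

/-- coefficient criterion: the bottom index -/
theorem k6_bot_of {k : Type} [Field k] {F : K[X]} {f : k[X]} {r : ℝ} (hr : 0 < r) {T B : ℕ}
    (hT : Top F r T) (hf : ∀ i, f.coeff i ≠ 0 ↔ ‖F.coeff i‖ * r ^ i = ‖F.coeff T‖ * r ^ T)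
    (hB : f.coeff B ≠ 0) (hB' : ∀ i, i < B → f.coeff i = 0) : Bot F r B := by
  have h1 := (hf B).1 hB
  refine ⟨?_, ?_, ?_⟩
  · intro h0
    rw [h0, norm_zero, zero_mul] at h1
    have := mul_pos (norm_pos_iff.2 hT.1) (pow_pos hr T)
    linarith
  · intro i
    rw [h1]
    exact hT.2.1 i
  · intro i hi
    rw [h1]
    refine lt_of_le_of_ne (hT.2.1 i) ?_
    intro h
    exact (hf i).2 h (hB' i hi)

/-- coefficient criterion: the degree -/
theorem k6_deg {k : Type} [Field k] {F : K[X]} {f : k[X]} {r : ℝ} {T : ℕ}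
    (hT : Top F r T) (hf : ∀ i, f.coeff i ≠ 0 ↔ ‖F.coeff i‖ * r ^ i = ‖F.coeff T‖ * r ^ T) :
    f.natDegree = T := by
  refine natDegree_eq_of_le_of_coeff_ne_zero ?_ ((hf T).2 rfl)
  rw [natDegree_le_iff_coeff_eq_zero]
  intro i hi
  by_contra h
  exact (hT.2.2 i hi).ne ((hf i).1 h)

theorem bots (h3 : ‖(3 : K)‖ = 1 / 3) {m : ℕ} {Y H : K[X]} {c : K} (hS : Star m Y H c) {r : ℝ}
    (hr : 0 < r) {T : ℕ} (hC : Cl Y H r T) (hR : Reg Y c r T) :
    ∃ B, Bot Y r B ∧ Bot H r (2 * B) ∧ B % 3 = 1 ∧ 3 * ‖H.coeff (2 * B)‖ ^ 2 = ‖Y.coeff B‖ ^ 4 ∧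
      ‖Y.coeff B‖ * r ^ B = ‖Y.coeff T‖ * r ^ T := by
  by_cases hx : ∃ x : K, ‖x‖ = r
  · obtain ⟨x, hx⟩ := hx
    obtain ⟨k, i1, i2, i3, y, h, e, c₂, c₃, hy, hh, he, hc2, hc3, heq⟩ :=
      reduce h3 hS hr hx hC ⟨hR.r1.le, hR.r2.le, hR.r3.le⟩
    have e0 : e = 0 := by
      by_contra h0
      exact hR.r1.ne (he.1 h0)
    have c20 : c₂ = 0 := by
      by_contra h0
      exact hR.r3.ne (hc2.1 h0)
    have c30 : c₃ = 0 := by
      by_contra h0
      exact hR.r2.ne (hc3.1 h0)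
    rw [e0, c20, c30] at heq
    simp only [map_zero, zero_mul, add_zero, sub_zero] at heq
    have hy0 : y ≠ 0 := by
      intro h0
      refine (hy T).2 rfl ?_
      rw [h0, coeff_zero]
    have hhd : h.natDegree = 2 * T := k6_deg hC.tH hh
    obtain ⟨hpm, hmod⟩ := char3_hom hy0 hC.t3 hhd heq
    obtain ⟨B, hBdef⟩ : ∃ B, B = y.natTrailingDegree := ⟨_, rfl⟩
    have hB1 : y.coeff B ≠ 0 := by
      rw [hBdef]
      exact (trailingCoeff_nonzero_iff_nonzero (p := y)).2 hy0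
    have hB2 : ∀ i, i < B → y.coeff i = 0 := by
      intro i hi
      rw [hBdef] at hi
      exact coeff_eq_zero_of_lt_natTrailingDegree hi
    have hsq1 : (y ^ 2).coeff (2 * B) ≠ 0 := by
      have e1 : 2 * B = y.natTrailingDegree + y.natTrailingDegree := by rw [hBdef]; ring
      rw [pow_two, e1, coeff_mul_natTrailingDegree_add_natTrailingDegree]
      exact mul_ne_zero ((trailingCoeff_nonzero_iff_nonzero (p := y)).2 hy0)
        ((trailingCoeff_nonzero_iff_nonzero (p := y)).2 hy0)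
    have hsq2 : ∀ i, i < 2 * B → (y ^ 2).coeff i = 0 := by
      intro i hi
      refine coeff_eq_zero_of_lt_natTrailingDegree ?_
      rw [pow_two, natTrailingDegree_mul hy0 hy0]
      omega
    have hh1 : h.coeff (2 * B) ≠ 0 := by
      rcases hpm with h1 | h1
      · rw [h1]; exact hsq1
      · rw [h1, coeff_neg]; exact neg_ne_zero.2 hsq1
    have hh2 : ∀ i, i < 2 * B → h.coeff i = 0 := by
      intro i hi
      rcases hpm with h1 | h1
      · rw [h1]; exact hsq2 i hi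
      · rw [h1, coeff_neg, hsq2 i hi, neg_zero]
    have hY := (hy B).1 hB1
    have hH := (hh (2 * B)).1 hh1
    refine ⟨B, k6_bot_of hr hC.tY hy hB1 hB2, k6_bot_of hr hC.tH hh hh1 hh2, ?_, ?_, hY⟩
    · have := hmod _ hh1
      omega
    · have hrB : 0 < r ^ (4 * B) := pow_pos hr _
      have e1 : (3 * ‖H.coeff (2 * B)‖ ^ 2) * r ^ (4 * B) =
          3 * (‖H.coeff (2 * B)‖ * r ^ (2 * B)) ^ 2 := by
        rw [mul_pow, ← pow_mul]; ring_nf
      have e2 : ‖Y.coeff B‖ ^ 4 * r ^ (4 * B) = (‖Y.coeff B‖ * r ^ B) ^ 4 := by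
        rw [mul_pow, ← pow_mul]; ring_nf
      refine mul_right_cancel₀ hrB.ne' ?_
      rw [e1, e2, hY, hH]
      have e3 : 3 * (‖H.coeff (2 * T)‖ * r ^ (2 * T)) ^ 2 =
          (3 * ‖H.coeff (2 * T)‖ ^ 2) * r ^ (4 * T) := by
        rw [mul_pow, ← pow_mul]; ring_nf
      rw [e3, hC.rel, mul_pow, ← pow_mul]
      ring_nf
  · exact ⟨T, k6_bot hr hC.tY hx, k6_bot hr hC.tH hx, hC.t3, hC.rel, rfl⟩

theorem gd_left (h3 : ‖(3 : K)‖ = 1 / 3) {m : ℕ} {Y H : K[X]} {c : K} (hS : Star m Y H c) {r : ℝ}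
    (hr : 0 < r) (hG : Gd Y H c r) :
    ∃ ε > 0, ∀ s, 0 < s → r - ε < s → s < r → Gd Y H c s := by
  obtain ⟨T, hC, hR⟩ := hG
  obtain ⟨B, hBY, hBH, hB3, hrel, hBT⟩ := bots h3 hS hr hC hR
  obtain ⟨ε1, hε1, h1⟩ := top_left hr hBY
  obtain ⟨ε2, hε2, h2⟩ := top_left hr hBH
  have hev : ∀ᶠ s in nhds r, 3 * s ^ 2 < (‖Y.coeff B‖ * s ^ B) ^ 4 ∧
      s ^ 3 < (‖Y.coeff B‖ * s ^ B) ^ 4 ∧ ‖c‖ * s ^ 2 < (‖Y.coeff B‖ * s ^ B) ^ 3 := by
    refine Filter.Eventually.and ?_ (Filter.Eventually.and ?_ ?_)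
    · refine ContinuousAt.eventually_lt (by fun_prop) (by fun_prop) ?_
      rw [hBT]; exact hR.r1
    · refine ContinuousAt.eventually_lt (by fun_prop) (by fun_prop) ?_
      rw [hBT]; exact hR.r2
    · refine ContinuousAt.eventually_lt (by fun_prop) (by fun_prop) ?_
      rw [hBT]; exact hR.r3
  obtain ⟨ε3, hε3, h3'⟩ := Metric.eventually_nhds_iff.1 hev
  refine ⟨min ε1 (min ε2 ε3), lt_min hε1 (lt_min hε2 hε3), ?_⟩
  intro s hs0 hs1 hs2
  have b1 : min ε1 (min ε2 ε3) ≤ ε1 := min_le_left _ _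
  have b2 : min ε1 (min ε2 ε3) ≤ ε2 := (min_le_right _ _).trans (min_le_left _ _)
  have b3 : min ε1 (min ε2 ε3) ≤ ε3 := (min_le_right _ _).trans (min_le_right _ _)
  obtain ⟨q1, q2, q3⟩ := @h3' s (by
    rw [Real.dist_eq, abs_lt]
    constructor <;> linarith)
  exact ⟨B, ⟨h1 s hs0 (by linarith) hs2, h2 s hs0 (by linarith) hs2, hB3, hrel⟩, ⟨q1, q2, q3⟩⟩

end ModK6

end Pool.Agent.Lib.MP_2d59ee_ag.J

/-! Part K8 -/
/-! ## Row K8: no exit radius

Let `η = ‖Y_T‖ r^T`. `RegW` holds, `Reg` does not, so one of the three weak inequalities is an equality.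
`T ≥ 1` and `T ≠ 1` (`Y_1 = 0`), so `T ≥ 2`. An element `x` with `‖x‖ = r` (`exists_norm_eq`):
`3 r^2 = η^4`: `r^(4T-2) = ‖3⁻¹ (Y_T)⁻¹^4‖`; `r^3 = η^4`: `r^(4T - 3) = ‖(Y_T)⁻¹^4‖`;
`‖c‖ r^2 = η^3`: `r^(3T-2) = ‖c (Y_T)⁻¹^3‖` (`c ≠ 0` since `η > 0`). `reduce`: `y, h, e, c₂, c₃` over `k` with one of
`e, c₂, c₃` nonzero; `natDegree y = T`, `natDegree h = 2 T` (from the coefficient criteria and `Top`).
`char3_exit`: contradiction. -/

namespace Pool.Agent.Lib.MP_2d59ee_ag.J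

section ModK8

open Polynomial

variable {K : Type} [NormedField K] [IsUltrametricDist K] [IsAlgClosed K]

/-- coefficient criterion: the degree -/
theorem k8_deg {k : Type} [Field k] {F : K[X]} {f : k[X]} {r : ℝ} {T : ℕ}
    (hT : Top F r T) (hf : ∀ i, f.coeff i ≠ 0 ↔ ‖F.coeff i‖ * r ^ i = ‖F.coeff T‖ * r ^ T) :
    f.natDegree = T := by
  refine natDegree_eq_of_le_of_coeff_ne_zero ?_ ((hf T).2 rfl)
  rw [natDegree_le_iff_coeff_eq_zero]
  intro i hi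
  by_contra h
  exact (hT.2.2 i hi).ne ((hf i).1 h)

theorem no_exit (h3 : ‖(3 : K)‖ = 1 / 3) {m : ℕ} {Y H : K[X]} {c : K} (hS : Star m Y H c) {r : ℝ}
    (hr : 0 < r) {T : ℕ} (hC : Cl Y H r T) (hW : RegW Y c r T) (hR : ¬ Reg Y c r T) : False := by
  have hT1 : T ≠ 1 := by
    intro h
    have := hC.tY.1
    rw [h] at this
    exact this hS.y1
  have hT3 := hC.t3
  have hT2 : 2 ≤ T := by omega
  have hYT : 0 < ‖Y.coeff T‖ := norm_pos_iff.2 hC.tY.1
  have hη : 0 < ‖Y.coeff T‖ * r ^ T := mul_pos hYT (pow_pos hr T)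
  have h30 : (3 : K) ≠ 0 := by
    intro h0
    rw [h0, norm_zero] at h3
    norm_num at h3
  -- an equality holds
  have hcase : 3 * r ^ 2 = (‖Y.coeff T‖ * r ^ T) ^ 4 ∨ r ^ 3 = (‖Y.coeff T‖ * r ^ T) ^ 4 ∨
      ‖c‖ * r ^ 2 = (‖Y.coeff T‖ * r ^ T) ^ 3 := by
    by_contra hno
    push Not at hno
    exact hR ⟨lt_of_le_of_ne hW.r1 hno.1, lt_of_le_of_ne hW.r2 hno.2.1,
      lt_of_le_of_ne hW.r3 hno.2.2⟩
  have hx : ∃ x : K, ‖x‖ = r := by
    rcases hcase with h | h | h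
    · refine exists_norm_eq (α := (3 : K)⁻¹ * ((Y.coeff T)⁻¹) ^ 4)
        (mul_ne_zero (inv_ne_zero h30) (pow_ne_zero _ (inv_ne_zero hC.tY.1)))
        (n := 4 * T - 2) (by omega) hr ?_
      rw [norm_mul, norm_inv, norm_pow, norm_inv, h3]
      have e1 : (‖Y.coeff T‖ * r ^ T) ^ 4 = ‖Y.coeff T‖ ^ 4 * r ^ (4 * T - 2) * r ^ 2 := by
        rw [mul_pow, ← pow_mul, mul_assoc, ← pow_add]
        congr 2
        omega
      rw [e1] at h
      have h4 : 3 = ‖Y.coeff T‖ ^ 4 * r ^ (4 * T - 2) :=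
        mul_right_cancel₀ (pow_ne_zero 2 hr.ne') h
      rw [inv_pow, one_div, inv_inv, h4]
      field_simp
    · refine exists_norm_eq (α := ((Y.coeff T)⁻¹) ^ 4)
        (pow_ne_zero _ (inv_ne_zero hC.tY.1))
        (n := 4 * T - 3) (by omega) hr ?_
      rw [norm_pow, norm_inv]
      have e1 : (‖Y.coeff T‖ * r ^ T) ^ 4 = ‖Y.coeff T‖ ^ 4 * r ^ (4 * T - 3) * r ^ 3 := by
        rw [mul_pow, ← pow_mul, mul_assoc, ← pow_add]
        congr 2
        omega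
      rw [e1] at h
      have h4 : 1 = ‖Y.coeff T‖ ^ 4 * r ^ (4 * T - 3) := by
        refine mul_right_cancel₀ (pow_ne_zero 3 hr.ne') ?_
        rw [one_mul]
        exact h
      rw [inv_pow]
      refine eq_inv_of_mul_eq_one_left ?_
      rw [mul_comm]
      exact h4.symm
    · have hc0 : c ≠ 0 := by
        intro h0
        rw [h0, norm_zero, zero_mul] at h
        exact (pow_pos hη 3).ne h
      refine exists_norm_eq (α := c * ((Y.coeff T)⁻¹) ^ 3)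
        (mul_ne_zero hc0 (pow_ne_zero _ (inv_ne_zero hC.tY.1)))
        (n := 3 * T - 2) (by omega) hr ?_
      rw [norm_mul, norm_pow, norm_inv]
      have e1 : (‖Y.coeff T‖ * r ^ T) ^ 3 = ‖Y.coeff T‖ ^ 3 * r ^ (3 * T - 2) * r ^ 2 := by
        rw [mul_pow, ← pow_mul, mul_assoc, ← pow_add]
        congr 2
        omega
      rw [e1] at h
      have h4 : ‖c‖ = ‖Y.coeff T‖ ^ 3 * r ^ (3 * T - 2) :=
        mul_right_cancel₀ (pow_ne_zero 2 hr.ne') h
      rw [h4]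
      field_simp
  obtain ⟨x, hx⟩ := hx
  obtain ⟨k, i1, i2, i3, y, h, e, c₂, c₃, hy, hh, he, hc2, hc3, heq⟩ := reduce h3 hS hr hx hC hW
  obtain ⟨q1, q2, q3⟩ := char3_exit hC.t3 hT2 (k8_deg hC.tY hy) (k8_deg hC.tH hh) heq
  rcases hcase with h | h | h
  · exact he.2 h q1
  · exact hc3.2 h q3
  · exact hc2.2 h q2

end ModK8

end Pool.Agent.Lib.MP_2d59ee_ag.J

/-! Part K9 -/
/-! ## Row K9: the kill

`kill_K`. Let `S = {ρ ≥ 0 | ∀ s > ρ, Gd Y H c s}`, nonempty by `gd_large`; `r₀ = sInf S ≥ 0`; every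
`s > r₀` is good (some `ρ ∈ S` has `ρ < s`).
`r₀ > 0`: if all `s > 0` were good: for small `s` (`top_small`) the top index of `Y` at `s` is
`B = Y.natTrailingDegree`, so `B % 3 = 1` and `B ≠ 1` since `Y_1 = 0`; so `B ≥ 4`, and `Reg`:
`3 s^2 < ‖Y_B‖^4 s^(4B)` fails for `s` small.
At `r₀`: let `T`, `T'` be the top indices of `Y`, `H` at `r₀` (`H ≠ 0` by `top_rel`). By `top_right` they are the top
indices for `s` slightly above `r₀`, where `Cl` holds; so `T' = 2 T`, `T % 3 = 1` and `rel`: `Cl Y H r₀ T`.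
`Reg Y c s T` for these `s` gives `RegW Y c r₀ T` in the limit (`ge_of_tendsto` or `le_of_forall`...).
If `Reg Y c r₀ T` held then `gd_left` would give good radii in `(r₀ - ε, r₀)`, so together with `r₀`
itself `max (r₀ - ε/2) (r₀/2) ∈ S`, contradicting `sInf`. So `¬ Reg`, and `no_exit` applies.
`kill`: `star_padic`, `PadicAlgCl 3` is normed, ultrametric, algebraically closed, and
`‖3‖ = 1/3` (`PadicAlgCl.norm_extends`, `Padic.norm_p`). -/

namespace Pool.Agent.Lib.MP_2d59ee_ag.J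

section ModK9

open Polynomial

theorem k9_aux_limit {f g : ℝ → ℝ} (hf : Continuous f) (hg : Continuous g) {r ε : ℝ} (hε : 0 < ε)
    (h : ∀ s, r < s → s < r + ε → f s < g s) : f r ≤ g r := by
  have hf' : Filter.Tendsto f (nhdsWithin r (Set.Ioi r)) (nhds (f r)) :=
    (hf.tendsto r).mono_left nhdsWithin_le_nhds
  have hg' : Filter.Tendsto g (nhdsWithin r (Set.Ioi r)) (nhds (g r)) :=
    (hg.tendsto r).mono_left nhdsWithin_le_nhds
  refine le_of_tendsto_of_tendsto hf' hg' ?_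
  filter_upwards [Ioo_mem_nhdsGT (show r < r + ε by linarith)] with s hs
  exact (h s hs.1 hs.2).le

theorem k9_aux_small {a : ℝ} {B : ℕ} (hB : 4 ≤ B) {ε : ℝ} (hε : 0 < ε) :
    ∃ s : ℝ, 0 < s ∧ s < ε ∧ (a * s ^ B) ^ 4 ≤ 3 * s ^ 2 := by
  have ha : 0 ≤ a ^ 4 := by positivity
  have ha1 : 0 < a ^ 4 + 1 := by linarith
  have h1 : 0 < 1 / (a ^ 4 + 1) := by positivity
  refine ⟨min (ε / 2) (1 / (a ^ 4 + 1)), lt_min (by linarith) h1,
    lt_of_le_of_lt (min_le_left _ _) (by linarith), ?_⟩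
  set s := min (ε / 2) (1 / (a ^ 4 + 1)) with hs
  have hs0 : 0 < s := lt_min (by linarith) h1
  have hs1 : s ≤ 1 / (a ^ 4 + 1) := min_le_right _ _
  have hs2 : s ≤ 1 := by
    refine hs1.trans ?_
    rw [div_le_one ha1]
    linarith
  have hs3 : a ^ 4 * s ≤ 1 := by
    have h2 : (a ^ 4 + 1) * s ≤ 1 := by
      have := mul_le_mul_of_nonneg_left hs1 ha1.le
      rw [mul_one_div_cancel ha1.ne'] at this
      exact this
    nlinarith
  have h4 : s ^ (4 * B) ≤ s ^ 3 := pow_le_pow_of_le_one hs0.le hs2 (by omega)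
  calc (a * s ^ B) ^ 4 = a ^ 4 * s ^ (4 * B) := by rw [mul_pow, ← pow_mul, mul_comm B 4]
    _ ≤ a ^ 4 * s ^ 3 := mul_le_mul_of_nonneg_left h4 ha
    _ = (a ^ 4 * s) * s ^ 2 := by ring
    _ ≤ 1 * s ^ 2 := mul_le_mul_of_nonneg_right hs3 (by positivity)
    _ ≤ 3 * s ^ 2 := by nlinarith [sq_nonneg s]

theorem kill_K {K : Type} [NormedField K] [IsUltrametricDist K] [IsAlgClosed K]
    (h3 : ‖(3 : K)‖ = 1 / 3) {m : ℕ} (hm : m % 3 = 1) (hm2 : 2 ≤ m) {Y H : K[X]} {c : K}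
    (hS : Star m Y H c) : False := by
  have hY : Y ≠ 0 := by
    intro h0
    have := hS.dY
    rw [h0, natDegree_zero] at this
    omega
  have hYm : Y.coeff m ≠ 0 := by
    have h1 : Y.leadingCoeff ≠ 0 := leadingCoeff_ne_zero.mpr hY
    rw [leadingCoeff, hS.dY] at h1
    exact h1
  have hH : H ≠ 0 := by
    intro h0
    have h1 := (top_rel h3 hm hm2 hS).2
    rw [h0, coeff_zero, norm_zero] at h1
    have h2 : 0 < ‖Y.coeff m‖ ^ 4 := by
      have := norm_pos_iff.mpr hYm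
      positivity
    rw [← h1] at h2
    norm_num at h2
  set S : Set ℝ := {ρ | 0 ≤ ρ ∧ ∀ s, ρ < s → Gd Y H c s} with hSdef
  have hne : S.Nonempty := by
    obtain ⟨R, hR, hR2⟩ := gd_large h3 hm hm2 hS
    exact ⟨R, hR.le, hR2⟩
  have hbdd : BddBelow S := ⟨0, fun x hx => hx.1⟩
  set r := sInf S with hr
  have hr0 : 0 ≤ r := le_csInf hne (fun x hx => hx.1)
  have hgood : ∀ s, r < s → Gd Y H c s := by
    intro s hs
    obtain ⟨ρ, hρ, hρs⟩ := exists_lt_of_csInf_lt hne hs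
    exact hρ.2 s hρs
  have hrpos : 0 < r := by
    rcases hr0.lt_or_eq with h | h
    · exact h
    exfalso
    obtain ⟨ε, hε, hε2⟩ := top_small hY
    set B := Y.natTrailingDegree with hBdef
    have hYB : Y.coeff B ≠ 0 := by
      have := trailingCoeff_nonzero_iff_nonzero.mpr hY
      exact this
    have hkey : ∀ s, 0 < s → s < ε → Reg Y c s B ∧ B % 3 = 1 := by
      intro s hs0 hs1
      obtain ⟨T, hC, hR⟩ := hgood s (h ▸ hs0)
      have := top_unique hC.tY (hε2 s hs0 hs1)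
      rw [← this]
      exact ⟨hR, hC.t3⟩
    have hB3 : B % 3 = 1 := (hkey (ε / 2) (by linarith) (by linarith)).2
    have hB1 : B ≠ 1 := by
      intro h1
      rw [h1] at hYB
      exact hYB hS.y1
    obtain ⟨s, hs0, hs1, hs2⟩ := k9_aux_small (a := ‖Y.coeff B‖) (B := B) (by omega) hε
    exact absurd (hkey s hs0 hs1).1.r1 (not_lt.mpr hs2)
  obtain ⟨T, hT⟩ := top_exists hY hrpos
  obtain ⟨T', hT'⟩ := top_exists hH hrpos
  obtain ⟨ε1, hε1, h1⟩ := top_right hrpos hT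
  obtain ⟨ε2, hε2, h2⟩ := top_right hrpos hT'
  have hε : 0 < min ε1 ε2 := lt_min hε1 hε2
  have hkey : ∀ s, r < s → s < r + min ε1 ε2 →
      Reg Y c s T ∧ T % 3 = 1 ∧ T' = 2 * T ∧ 3 * ‖H.coeff (2 * T)‖ ^ 2 = ‖Y.coeff T‖ ^ 4 := by
    intro s hs0 hs1
    obtain ⟨T1, hC, hR⟩ := hgood s hs0
    have e1 : T1 = T := top_unique hC.tY
      (h1 s hs0 (lt_of_lt_of_le hs1 (by have := min_le_left ε1 ε2; linarith)))
    have e2 : 2 * T1 = T' := top_unique hC.tH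
      (h2 s hs0 (lt_of_lt_of_le hs1 (by have := min_le_right ε1 ε2; linarith)))
    subst e1
    exact ⟨hR, hC.t3, e2.symm, hC.rel⟩
  obtain ⟨-, hT3, hTT, hrel⟩ := hkey (r + min ε1 ε2 / 2) (by linarith) (by linarith)
  have hC : Cl Y H r T := ⟨hT, hTT ▸ hT', hT3, hrel⟩
  have hW : RegW Y c r T := by
    refine ⟨?_, ?_, ?_⟩
    · exact k9_aux_limit (f := fun s => 3 * s ^ 2) (g := fun s => (‖Y.coeff T‖ * s ^ T) ^ 4)
        (by fun_prop) (by fun_prop) hε (fun s hs0 hs1 => (hkey s hs0 hs1).1.r1)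
    · exact k9_aux_limit (f := fun s => s ^ 3) (g := fun s => (‖Y.coeff T‖ * s ^ T) ^ 4)
        (by fun_prop) (by fun_prop) hε (fun s hs0 hs1 => (hkey s hs0 hs1).1.r2)
    · exact k9_aux_limit (f := fun s => ‖c‖ * s ^ 2) (g := fun s => (‖Y.coeff T‖ * s ^ T) ^ 3)
        (by fun_prop) (by fun_prop) hε (fun s hs0 hs1 => (hkey s hs0 hs1).1.r3)
  refine no_exit h3 hS hrpos hC hW ?_
  intro hR
  have hG : Gd Y H c r := ⟨T, hC, hR⟩
  obtain ⟨ε, hε', hl⟩ := gd_left h3 hS hrpos hG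
  have hmem : max (r - ε / 2) (r / 2) ∈ S := by
    refine ⟨le_max_of_le_right (by linarith), ?_⟩
    intro s hs
    have hsa : r - ε / 2 < s := lt_of_le_of_lt (le_max_left _ _) hs
    have hsb : r / 2 < s := lt_of_le_of_lt (le_max_right _ _) hs
    rcases lt_trichotomy s r with h | h | h
    · exact hl s (by linarith) (by linarith) h
    · rw [h]; exact hG
    · exact hgood s h
  have h5 : r ≤ max (r - ε / 2) (r / 2) := csInf_le hbdd hmem
  have h6 : max (r - ε / 2) (r / 2) < r := max_lt (by linarith) (by linarith)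
  linarith

theorem kill {m : ℕ} (hm : m % 3 = 1) (hm2 : 2 ≤ m) {Y H : ℂ[X]} {c : ℂ} (hS : Star m Y H c) :
    False := by
  obtain ⟨Y', H', c', hS'⟩ := star_padic (by omega) hS
  have h3 : ‖(3 : PadicAlgCl 3)‖ = 1 / 3 := by
    have h1 := PadicAlgCl.norm_extends 3 (3 : ℚ_[3])
    have h2 : ‖(3 : ℚ_[3])‖ = (3 : ℝ)⁻¹ := by
      have := Padic.norm_p (p := 3)
      exact_mod_cast this
    rw [h2] at h1
    rw [one_div, ← h1]
    congr 1
  exact kill_K h3 hm hm2 hS'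

end ModK9

end Pool.Agent.Lib.MP_2d59ee_ag.J
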