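import Mathlib
import Pool.Agent.Lib.MP_2d59ee_ag.JBase

set_option autoImplicit false

/-! Part M1 -/
/-! ## Row M1: `F(z, w)` is a polynomial in `u, t`

Let `M` be a bound for `d 1` over `F.support`, and
`W₀ = Σ_d C (F.coeff d) * (X 0 * X 1^3 + C l * X 1^2 + C s₁ * X 1)^(d 0) * X 1^(M - d 1)`.
For every field `L`, `φ`, `u`, `t ≠ 0`: `ev φ u t W₀ = t^M * ev φ (zF ..) t⁻¹ F` (`ev_eq_sum`).
Similarly in `LS[X]`: `ev cL X (C (tm 1)) W₀ = C (tm M) * ev cL (zL s₁ l) (C (tm (-1))) F` (with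
`zL s₁ l = C (tm 3) * X + cL l * C (tm 2) + cL s₁ * C (tm 1)`), and its coefficients at `t^n`, `n < M`,
vanish by `h`. The coefficient of `ev cL X (C (tm 1)) W₀` at `X^i`, `t^n` is `W₀.coeff (pt i n)`, so
`W₀.coeff (pt i k) = 0` for `k < M`, hence `W₀ = X 1^M * W` (e.g. `MvPolynomial.divMonomial`, or
`W = Σ_{d ∈ W₀.support} monomial (pt (d 0) (d 1 - M)) (W₀.coeff d)`), and `t^M` cancels. -/

namespace Pool.Agent.Lib.MP_2d59ee_ag.J

section ModM1

open Polynomial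

/-- the image of `z` under the final left substitution -/
noncomputable def zL (s₁ l : ℂ) : LS[X] :=
  C (tm 3) * X + cL l * C (tm 2) + cL s₁ * C (tm 1)

/-- the auxiliary polynomial -/
noncomputable def m1W (F : MP) (s₁ l : ℂ) (M : ℕ) : MP :=
  ∑ d ∈ F.support, MvPolynomial.C (F.coeff d) *
    (MvPolynomial.X 0 * MvPolynomial.X 1 ^ 3 + MvPolynomial.C l * MvPolynomial.X 1 ^ 2
      + MvPolynomial.C s₁ * MvPolynomial.X 1) ^ (d 0) * MvPolynomial.X 1 ^ (M - d 1)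

theorem m1_ev {A : Type*} [CommRing A] (φ : ℂ →+* A) (x y y' : A) (hy : y * y' = 1) (F : MP)
    (s₁ l : ℂ) (M : ℕ) (hM : ∀ d ∈ F.support, d 1 ≤ M) :
    ev φ x y (m1W F s₁ l M) =
      y ^ M * ev φ (x * y ^ 3 + φ l * y ^ 2 + φ s₁ * y) y' F := by
  rw [ev_eq_sum φ _ y' F, m1W, map_sum, Finset.mul_sum]
  refine Finset.sum_congr rfl (fun d hd => ?_)
  simp only [map_mul, map_pow, map_add, ev_C, ev_X0, ev_X1]
  have h1 : y ^ M * y' ^ (d 1) = y ^ (M - d 1) := by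
    have h2 : y ^ M = y ^ (M - d 1) * y ^ (d 1) := by
      rw [← pow_add, Nat.sub_add_cancel (hM d hd)]
    rw [h2, mul_assoc, ← mul_pow, hy, one_pow, mul_one]
  rw [← h1]
  ring

theorem m1_coeff (W : MP) (i n : ℕ) :
    ((ev cL X (C (tm 1)) W).coeff i).coeff (n : ℤ) = W.coeff (pt i n) := by
  have h0 : ∀ k : ℕ, (tm 1) ^ k = (HahnSeries.single (k : ℤ) (1 : ℂ) : LS) := by
    intro k
    induction k with
    | zero => simp
    | succ k ih =>
      rw [pow_succ, ih, tm, HahnSeries.single_mul_single]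
      simp
  have h1 : ∀ d : Fin 2 →₀ ℕ, ((cL (W.coeff d) * X ^ (d 0) * C (tm 1) ^ (d 1) : LS[X]).coeff
      i).coeff (n : ℤ) = if d = pt i n then W.coeff d else 0 := by
    intro d
    have h2 : (cL (W.coeff d) * X ^ (d 0) * C (tm 1) ^ (d 1) : LS[X]) =
        C (HahnSeries.single ((d 1 : ℕ) : ℤ) (W.coeff d)) * X ^ (d 0) := by
      have h3 : (C (HahnSeries.single ((d 1 : ℕ) : ℤ) (W.coeff d)) : LS[X]) =
          cL (W.coeff d) * C (HahnSeries.single ((d 1 : ℕ) : ℤ) (1 : ℂ)) := by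
        rw [cL, RingHom.comp_apply, ← C_mul]
        congr 1
        rw [HahnSeries.C_apply, HahnSeries.single_mul_single]
        simp
      rw [← C_pow, h0, h3]
      ring
    rw [h2, coeff_C_mul_X_pow]
    by_cases h3 : i = d 0
    · rw [if_pos h3, HahnSeries.coeff_single]
      by_cases h4 : (n : ℤ) = ((d 1 : ℕ) : ℤ)
      · have h5 : d = pt i n := by
          rw [← pt_eta d, pt_inj]
          exact ⟨h3.symm, by exact_mod_cast h4.symm⟩
        rw [if_pos h4, if_pos h5]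
      · rw [if_neg h4, if_neg]
        intro h5
        apply h4
        rw [h5, pt_1]
    · rw [if_neg h3, if_neg, HahnSeries.coeff_zero]
      intro h5
      apply h3
      rw [h5, pt_0]
  rw [ev_eq_sum, finsetSum_coeff]
  have h6 : ∀ (s : Finset (Fin 2 →₀ ℕ)) (f : (Fin 2 →₀ ℕ) → LS),
      (∑ d ∈ s, f d).coeff (n : ℤ) = ∑ d ∈ s, (f d).coeff (n : ℤ) := by
    intro s f
    classical
    induction s using Finset.induction_on with
    | empty => simp
    | insert a s ha ih => rw [Finset.sum_insert ha, Finset.sum_insert ha, HahnSeries.coeff_add, ih]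
  rw [h6, Finset.sum_congr rfl (fun d _ => h1 d), Finset.sum_ite_eq' W.support (pt i n)]
  split_ifs with h7
  · rfl
  · exact (MvPolynomial.notMem_support_iff.mp h7).symm

theorem exists_W {F : MP} {s₁ l : ℂ} (h : LowB (ev cL (zL s₁ l) (C (tm (-1))) F) 0) :
    ∃ W : MP, RepT s₁ l F W := by
  obtain ⟨M, hM⟩ : ∃ M : ℕ, ∀ d ∈ F.support, d 1 ≤ M :=
    ⟨F.support.sup (fun d => d 1), fun d hd => Finset.le_sup (f := fun d => d 1) hd⟩
  set W₀ := m1W F s₁ l M with hW₀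
  have ht : (C (tm 1) : LS[X]) * C (tm (-1)) = 1 := by
    rw [← C_mul, tm, tm, HahnSeries.single_mul_single]
    simp
  have hE := m1_ev cL X (C (tm 1)) (C (tm (-1))) ht F s₁ l M hM
  have hz : (X * C (tm 1) ^ 3 + cL l * C (tm 1) ^ 2 + cL s₁ * C (tm 1) : LS[X]) = zL s₁ l := by
    have h3 : (tm 1) ^ 3 = tm 3 := by
      rw [tm, HahnSeries.single_pow, tm]
      norm_num
    have h2 : (tm 1) ^ 2 = tm 2 := by
      rw [tm, HahnSeries.single_pow, tm]
      norm_num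
    rw [zL, ← C_pow, ← C_pow, h3, h2]
    ring
  rw [hz, ← hW₀] at hE
  have hlow : ∀ i k : ℕ, k < M → W₀.coeff (pt i k) = 0 := by
    intro i k hk
    rw [← m1_coeff, hE, ← C_pow]
    have h4 : (tm 1) ^ M = (HahnSeries.single (M : ℤ) (1 : ℂ) : LS) := by
      rw [tm, HahnSeries.single_pow]
      simp
    rw [h4, coeff_C_mul]
    have h5 : (k : ℤ) = (((k : ℤ) - M) + M) := by ring
    rw [h5, HahnSeries.coeff_single_mul_add, one_mul]
    have h6 := congrArg (fun p : ℂ[X] => p.coeff i) (h ((k : ℤ) - M) (by omega))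
    simpa [lev_coeff] using h6
  refine ⟨∑ d ∈ W₀.support, MvPolynomial.monomial (pt (d 0) (d 1 - M)) (W₀.coeff d), ?_⟩
  intro L _ φ u t htn
  have h7 := m1_ev φ u t t⁻¹ (mul_inv_cancel₀ htn) F s₁ l M hM
  have h8 : t ^ M * ev φ u t
      (∑ d ∈ W₀.support, MvPolynomial.monomial (pt (d 0) (d 1 - M)) (W₀.coeff d)) =
      ev φ u t W₀ := by
    rw [ev_eq_sum φ u t W₀, map_sum, Finset.mul_sum]
    refine Finset.sum_congr rfl (fun d hd => ?_)
    rw [ev_monomial, pt_0, pt_1]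
    have h9 : M ≤ d 1 := by
      by_contra hlt
      have h10 := hlow (d 0) (d 1) (by omega)
      rw [pt_eta] at h10
      exact (MvPolynomial.mem_support_iff.mp hd) h10
    have h11 : t ^ (d 1) = t ^ M * t ^ (d 1 - M) := by
      rw [← pow_add, Nat.add_sub_cancel' h9]
    rw [h11]
    ring
  rw [← hW₀] at h7
  rw [h7] at h8
  exact (mul_left_cancel₀ (pow_ne_zero M htn) h8).symm

end ModM1

end Pool.Agent.Lib.MP_2d59ee_ag.J

/-! Part M2 -/
/-! ## Row M2: `F(z, w)` is a polynomial in `U, V`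

Notation (`s = s₁ + e l`): `T = U V^2 - s V + l`, `Θ = V^2 T - e V - 1`; then `u = V T`, `t = Θ / V`
(`tF_eq`). Let `M` bound `d 1` on `W.support` and
`W₂ = Σ_d C (W.coeff d) * (X 1 * T)^(d 0) * Θ^(d 1) * X 1^(M - d 1)` (`T`, `Θ` as polynomials in `X 0 = U`,
`X 1 = V`), so `ev φ U V W₂ = V^M * ev φ u t W` for all `V ≠ 0`.
In `LR` with `U = UU`, `V = VV`: `z = zF ..` has no negative powers of `V`, because (`z_eq`, with
`x = 1 + e V`)
  `z = 3 x^2 T^2 - 3 x V^2 T^3 + V^4 T^4 + l (-2 x T + V^2 T^2) + s₁ V T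
      + x (-U + 2 e s - e^2 l + V (-2 e U + e^2 s) - V^2 e^2 U)`
(identity in every field, `V ≠ 0`: substitute `t = Θ/V`, multiply by `V^2`, `ring`; this uses
`s = s₁ + e l`), and `w = V / Θ` with `-Θ` a one-unit (`OneUnit.inv`), so `Low z 0`, `Low w 0` and
`Low (ev cR z w F) 0` (`Low` is closed under sums and products, constants). Hence
`ev cR UU VV W₂ = VV^M * ev cR z w F` has no coefficients below `M`; its coefficient at `V^k` is
`Σ_i W₂.coeff (pt i k) X^i`, so `W₂.coeff (pt i k) = 0` for `k < M`, `W₂ = X 1^M * π`, and for every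
field `V^M` cancels: `ev φ U V π = ev φ u t W = F(z, w)`. -/

namespace Pool.Agent.Lib.MP_2d59ee_ag.J

section ModM2

open Polynomial

theorem tF_eq {L : Type*} [Field L] (φ : ℂ →+* L) (s l e : ℂ) {U V : L} (hV : V ≠ 0) :
    tF φ s l e U V = (V ^ 2 * (U * V ^ 2 - φ s * V + φ l) - φ e * V - 1) / V := by
  unfold tF uF
  field_simp
  ring

theorem z_eq {L : Type*} [Field L] (φ : ℂ →+* L) (s₁ l e : ℂ) {U V T x : L} (hV : V ≠ 0)
    (hT : T = U * V ^ 2 - φ (s₁ + e * l) * V + φ l) (hx : x = 1 + φ e * V) :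
    zF φ s₁ l (uF φ (s₁ + e * l) l U V) (tF φ (s₁ + e * l) l e U V)
      = 3 * x ^ 2 * T ^ 2 - 3 * x * V ^ 2 * T ^ 3 + V ^ 4 * T ^ 4
        + φ l * (-2 * x * T + V ^ 2 * T ^ 2) + φ s₁ * V * T
        + x * (-U + 2 * φ e * φ (s₁ + e * l) - φ e ^ 2 * φ l
          + V * (-2 * φ e * U + φ e ^ 2 * φ (s₁ + e * l)) - V ^ 2 * φ e ^ 2 * U) := by
  rw [tF_eq φ _ _ _ hV]
  unfold zF uF
  subst hT hx
  field_simp
  simp only [map_add, map_mul]
  ring

/-- `T` as a polynomial -/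
noncomputable def m2T (s l : ℂ) : MP :=
  MvPolynomial.X 0 * MvPolynomial.X 1 ^ 2 - MvPolynomial.C s * MvPolynomial.X 1
    + MvPolynomial.C l

/-- `Θ` as a polynomial -/
noncomputable def m2Th (s l e : ℂ) : MP :=
  MvPolynomial.X 1 ^ 2 * m2T s l - MvPolynomial.C e * MvPolynomial.X 1 - 1

/-- `V^M W(u,t)` as a polynomial -/
noncomputable def m2W (s l e : ℂ) (M : ℕ) (W : MP) : MP :=
  ∑ d ∈ W.support, MvPolynomial.C (W.coeff d) * (MvPolynomial.X 1 * m2T s l) ^ (d 0)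
    * (m2Th s l e) ^ (d 1) * MvPolynomial.X 1 ^ (M - d 1)

theorem m2_ev_T {L : Type*} [Field L] (φ : ℂ →+* L) (s l : ℂ) (U V : L) :
    ev φ U V (m2T s l) = U * V ^ 2 - φ s * V + φ l := by
  simp only [m2T, map_add, map_sub, map_mul, map_pow, ev_C, ev_X0, ev_X1]

theorem m2_ev_Th {L : Type*} [Field L] (φ : ℂ →+* L) (s l e : ℂ) (U V : L) :
    ev φ U V (m2Th s l e) = V ^ 2 * (U * V ^ 2 - φ s * V + φ l) - φ e * V - 1 := by
  simp only [m2Th, map_sub, map_mul, map_pow, ev_C, ev_X1, m2_ev_T, map_one]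

theorem m2_ev_W {L : Type*} [Field L] (φ : ℂ →+* L) (s l e : ℂ) {M : ℕ} {W : MP}
    (hM : ∀ d ∈ W.support, d 1 ≤ M) {U V : L} (hV : V ≠ 0) :
    ev φ U V (m2W s l e M W) = V ^ M * ev φ (uF φ s l U V) (tF φ s l e U V) W := by
  rw [ev_eq_sum φ (uF φ s l U V), m2W, map_sum, Finset.mul_sum]
  apply Finset.sum_congr rfl
  intro d hd
  have hd1 := hM d hd
  simp only [map_mul, map_pow, ev_C, ev_X1, m2_ev_T, m2_ev_Th]
  have hu : uF φ s l U V = V * (U * V ^ 2 - φ s * V + φ l) := by unfold uF; ring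
  rw [hu, tF_eq φ s l e hV, div_pow]
  have hVM : V ^ M = V ^ (M - d 1) * V ^ (d 1) := by
    rw [← pow_add]; congr 1; omega
  rw [hVM]
  have hV1 : V ^ (d 1) ≠ 0 := pow_ne_zero _ hV
  field_simp

/-- the subring of series without negative powers -/
noncomputable def m2O : Subring LR where
  carrier := {x | Low x 0}
  mul_mem' := fun {a b} ha hb => by
    have h := Low.mul ha hb
    rw [add_zero] at h
    exact h
  one_mem' := OneUnit.one.2
  add_mem' := fun {a b} ha hb n hn => by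
    rw [HahnSeries.coeff_add, ha n hn, hb n hn, add_zero]
  zero_mem' := fun n _ => by rw [HahnSeries.coeff_zero]
  neg_mem' := fun {a} ha n hn => by
    rw [HahnSeries.coeff_neg, ha n hn, neg_zero]

theorem m2_cR_mem (c : ℂ) : cR c ∈ m2O := by
  intro n hn
  show (HahnSeries.C (algebraMap ℂ (RatFunc ℂ) c) : LR).coeff n = 0
  rw [HahnSeries.C_apply, HahnSeries.coeff_single_of_ne (by omega)]

theorem m2_UU_mem : UU ∈ m2O := by
  intro n hn
  show (HahnSeries.C (RatFunc.X : RatFunc ℂ) : LR).coeff n = 0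
  rw [HahnSeries.C_apply, HahnSeries.coeff_single_of_ne (by omega)]

theorem m2_VV_low : Low VV 1 := by
  intro n hn
  rw [VV, HahnSeries.coeff_single_of_ne (by omega)]

theorem m2_VV_mem : VV ∈ m2O := by
  intro n hn
  exact m2_VV_low n (by omega)

theorem m2_VV_ne : VV ≠ 0 := by
  rw [VV]
  exact HahnSeries.single_ne_zero one_ne_zero

theorem m2_oneUnit {y : LR} (hy : y ∈ m2O) : OneUnit (1 + VV * y) := by
  have h1 : Low (VV * y) (1 + 0) := m2_VV_low.mul hy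
  refine ⟨?_, ?_⟩
  · rw [HahnSeries.coeff_add, h1 0 (by norm_num), add_zero, HahnSeries.coeff_one, if_pos rfl]
  · exact m2O.add_mem m2O.one_mem (m2O.mul_mem m2_VV_mem hy)

theorem m2_ev_mem {x y : LR} (hx : x ∈ m2O) (hy : y ∈ m2O) (F : MP) : ev cR x y F ∈ m2O := by
  rw [ev_eq_sum]
  exact m2O.sum_mem fun d _ =>
    m2O.mul_mem (m2O.mul_mem (m2_cR_mem _) (m2O.pow_mem hx _)) (m2O.pow_mem hy _)

theorem m2_T_mem (s l : ℂ) : UU * VV ^ 2 - cR s * VV + cR l ∈ m2O :=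
  m2O.add_mem (m2O.sub_mem (m2O.mul_mem m2_UU_mem (m2O.pow_mem m2_VV_mem 2))
    (m2O.mul_mem (m2_cR_mem _) m2_VV_mem)) (m2_cR_mem _)

/-- `-Θ` is a one-unit -/
theorem m2_Th_unit (s l e : ℂ) :
    OneUnit (-(VV ^ 2 * (UU * VV ^ 2 - cR s * VV + cR l) - cR e * VV - 1)) := by
  have h : -(VV ^ 2 * (UU * VV ^ 2 - cR s * VV + cR l) - cR e * VV - 1)
      = 1 + VV * (cR e - VV * (UU * VV ^ 2 - cR s * VV + cR l)) := by ring
  rw [h]
  exact m2_oneUnit (m2O.sub_mem (m2_cR_mem _) (m2O.mul_mem m2_VV_mem (m2_T_mem s l)))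

theorem m2_t_ne (s l e : ℂ) : tF cR s l e UU VV ≠ 0 := by
  rw [tF_eq (L := LR) cR s l e m2_VV_ne]
  exact div_ne_zero (neg_ne_zero.mp (m2_Th_unit s l e).ne_zero) m2_VV_ne

theorem m2_inv_div {L : Type*} [Field L] (a b : L) : (a / b)⁻¹ = -(b * (-a)⁻¹) := by
  rw [inv_div, inv_neg, mul_neg, neg_neg, div_eq_mul_inv]

theorem m2_w_mem (s l e : ℂ) : (tF cR s l e UU VV)⁻¹ ∈ m2O := by
  rw [tF_eq (L := LR) cR s l e m2_VV_ne]
  have h := m2_Th_unit s l e
  have h2 := m2_inv_div (L := LR)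
    (VV ^ 2 * (UU * VV ^ 2 - cR s * VV + cR l) - cR e * VV - 1) VV
  have h3 : -(VV * (-(VV ^ 2 * (UU * VV ^ 2 - cR s * VV + cR l) - cR e * VV - 1))⁻¹) ∈ m2O :=
    m2O.neg_mem (m2O.mul_mem m2_VV_mem h.inv.2)
  exact (congrArg (fun y => y ∈ m2O) h2).mpr h3

theorem m2_z_mem (s₁ l e : ℂ) :
    zF cR s₁ l (uF cR (s₁ + e * l) l UU VV) (tF cR (s₁ + e * l) l e UU VV) ∈ m2O := by
  rw [z_eq cR s₁ l e m2_VV_ne (T := UU * VV ^ 2 - cR (s₁ + e * l) * VV + cR l) rfl
    (x := 1 + cR e * VV) rfl]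
  have hT := m2_T_mem (s₁ + e * l) l
  have hV := m2_VV_mem
  have hU := m2_UU_mem
  have hx : (1 + cR e * VV) ∈ m2O := m2O.add_mem m2O.one_mem (m2O.mul_mem (m2_cR_mem _) hV)
  have h2 : (2 : LR) ∈ m2O := by
    have := m2O.add_mem m2O.one_mem m2O.one_mem
    rwa [one_add_one_eq_two] at this
  have h3 : (3 : LR) ∈ m2O := by
    have := m2O.add_mem h2 m2O.one_mem
    rwa [two_add_one_eq_three] at this
  have hc := m2_cR_mem
  have hn2 : (-2 : LR) ∈ m2O := m2O.neg_mem h2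
  refine m2O.add_mem (m2O.add_mem (m2O.add_mem (m2O.add_mem (m2O.sub_mem ?_ ?_) ?_) ?_) ?_) ?_
  · exact m2O.mul_mem (m2O.mul_mem h3 (m2O.pow_mem hx 2)) (m2O.pow_mem hT 2)
  · exact m2O.mul_mem (m2O.mul_mem (m2O.mul_mem h3 hx) (m2O.pow_mem hV 2)) (m2O.pow_mem hT 3)
  · exact m2O.mul_mem (m2O.pow_mem hV 4) (m2O.pow_mem hT 4)
  · exact m2O.mul_mem (hc _) (m2O.add_mem (m2O.mul_mem (m2O.mul_mem hn2 hx) hT)
      (m2O.mul_mem (m2O.pow_mem hV 2) (m2O.pow_mem hT 2)))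
  · exact m2O.mul_mem (m2O.mul_mem (hc _) hV) hT
  · refine m2O.mul_mem hx (m2O.sub_mem (m2O.add_mem (m2O.sub_mem (m2O.add_mem
      (m2O.neg_mem hU) ?_) ?_) ?_) ?_)
    · exact m2O.mul_mem (m2O.mul_mem h2 (hc _)) (hc _)
    · exact m2O.mul_mem (m2O.pow_mem (hc _) 2) (hc _)
    · exact m2O.mul_mem hV (m2O.add_mem (m2O.mul_mem (m2O.mul_mem hn2 (hc _)) hU)
        (m2O.mul_mem (m2O.pow_mem (hc _) 2) (hc _)))
    · exact m2O.mul_mem (m2O.mul_mem (m2O.pow_mem hV 2) (m2O.pow_mem (hc _) 2)) hU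

theorem m2_term (c : ℂ) (i j : ℕ) :
    cR c * UU ^ i * VV ^ j
      = HahnSeries.single (j : ℤ) (algebraMap ℂ[X] (RatFunc ℂ) (monomial i c)) := by
  have h1 : cR c * UU ^ i = (HahnSeries.C (algebraMap ℂ[X] (RatFunc ℂ) (monomial i c)) : LR) := by
    have h2 : (algebraMap ℂ[X] (RatFunc ℂ) (monomial i c))
        = algebraMap ℂ (RatFunc ℂ) c * RatFunc.X ^ i := by
      rw [← C_mul_X_pow_eq_monomial, map_mul, map_pow, RatFunc.algebraMap_X,
        RatFunc.algebraMap_C]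
      rfl
    rw [h2, map_mul, map_pow]
    rfl
  have h3 : VV ^ j = (HahnSeries.single (j : ℤ) 1 : LR) := by
    rw [VV, HahnSeries.single_pow, one_pow]
    congr 1
    simp
  rw [h1, h3, HahnSeries.C_apply, HahnSeries.single_mul_single, zero_add, mul_one]

theorem m2_coeff {P : MP} {k : ℕ} (h : (ev cR UU VV P).coeff (k : ℤ) = 0) (i : ℕ) :
    P.coeff (pt i k) = 0 := by
  rw [ev_eq_sum] at h
  have h1 : (∑ d ∈ P.support, cR (P.coeff d) * UU ^ (d 0) * VV ^ (d 1) : LR).coeff (k : ℤ)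
      = algebraMap ℂ[X] (RatFunc ℂ)
        (∑ d ∈ P.support, if d 1 = k then monomial (d 0) (P.coeff d) else 0) := by
    rw [map_sum]
    rw [HahnSeries.coeff_sum]
    apply Finset.sum_congr rfl
    intro d _
    rw [m2_term, HahnSeries.coeff_single]
    by_cases hd : d 1 = k
    · rw [if_pos hd, if_pos (by rw [hd])]
    · rw [if_neg hd, if_neg (by intro h'; exact hd (by exact_mod_cast h'.symm)), map_zero]
  rw [h1] at h
  have h2 := (map_eq_zero_iff _ (RatFunc.algebraMap_injective ℂ)).mp h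
  have h3 := congrArg (fun q => q.coeff i) h2
  simp only [finsetSum_coeff, coeff_zero] at h3
  by_contra hne
  rw [Finset.sum_eq_single (pt i k)] at h3
  · rw [pt_1, if_pos rfl, pt_0, coeff_monomial, if_pos rfl] at h3
    exact hne h3
  · intro d _ hd
    by_cases hd1 : d 1 = k
    · rw [if_pos hd1, coeff_monomial, if_neg]
      intro hd0
      apply hd
      rw [← pt_eta d, hd0, hd1]
    · rw [if_neg hd1, coeff_zero]
  · intro hd
    exact absurd (MvPolynomial.mem_support_iff.mpr hne) hd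

theorem m2_dvd {P : MP} {M : ℕ} (h : ∀ i k, k < M → P.coeff (pt i k) = 0) :
    ∃ π : MP, P = MvPolynomial.X 1 ^ M * π := by
  refine ⟨∑ d ∈ P.support, MvPolynomial.monomial (pt (d 0) (d 1 - M)) (P.coeff d), ?_⟩
  conv_lhs => rw [P.as_sum]
  rw [Finset.mul_sum]
  apply Finset.sum_congr rfl
  intro d hd
  have hd1 : M ≤ d 1 := by
    by_contra hlt
    have := h (d 0) (d 1) (not_le.mp hlt)
    rw [pt_eta] at this
    exact MvPolynomial.mem_support_iff.mp hd this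
  rw [MvPolynomial.X_pow_eq_monomial, MvPolynomial.monomial_mul, one_mul]
  have hd2 : d = Finsupp.single 1 M + pt (d 0) (d 1 - M) := by
    ext i
    fin_cases i
    · simp [pt]
    · simp only [pt, Finsupp.add_apply]
      simp
      omega
  rw [← hd2]

theorem exists_pi {F W : MP} {s₁ l : ℂ} (e : ℂ) (h : RepT s₁ l F W) :
    ∃ π : MP, Rep s₁ l e F π := by
  obtain ⟨M, hM⟩ : ∃ M, ∀ d ∈ W.support, d 1 ≤ M :=
    ⟨W.support.sup fun d => d 1, fun d hd => Finset.le_sup (f := fun d : Fin 2 →₀ ℕ => d 1) hd⟩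
  have hmem : ev cR (uF cR (s₁ + e * l) l UU VV) (tF cR (s₁ + e * l) l e UU VV) W ∈ m2O := by
    rw [← h LR cR _ _ (m2_t_ne (s₁ + e * l) l e)]
    exact m2_ev_mem (m2_z_mem s₁ l e) (m2_w_mem (s₁ + e * l) l e) F
  have hlow : Low (ev cR UU VV (m2W (s₁ + e * l) l e M W)) M := by
    rw [m2_ev_W (L := LR) cR (s₁ + e * l) l e hM m2_VV_ne]
    have h3 : Low (VV ^ M) (M : ℤ) := by
      intro n hn
      have h4 : VV ^ M = (HahnSeries.single (M : ℤ) 1 : LR) := by
        rw [VV, HahnSeries.single_pow, one_pow]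
        congr 1
        simp
      rw [h4, HahnSeries.coeff_single_of_ne (by omega)]
    have h5 := h3.mul hmem
    rwa [add_zero] at h5
  obtain ⟨π, hπ⟩ := m2_dvd (P := m2W (s₁ + e * l) l e M W) (M := M)
    (fun i k hk => m2_coeff (hlow k (by exact_mod_cast hk)) i)
  refine ⟨π, ?_⟩
  intro L _ φ U V hV ht
  rw [h L φ _ _ ht]
  have h6 := m2_ev_W φ (s₁ + e * l) l e hM (U := U) hV
  rw [hπ, map_mul, map_pow, ev_X1] at h6
  exact (mul_left_cancel₀ (pow_ne_zero M hV) h6).symm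

end ModM2

end Pool.Agent.Lib.MP_2d59ee_ag.J

/-! Part M4 -/
/-! ## Row M4: weights

`U, V ∈ LR` of orders `-1`, `-j` with leading coefficients `64 X^3`, `(4 X)⁻¹`. If all monomials of `π`
satisfy `i + j k ≤ D`, then `Low (ev cR U V π) (-D)` and its coefficient at `-D` is
`Σ_{i + j k = D} π_{ik} 64^i 4^(-k) X^(3i - k)` (in `RatFunc ℂ`, `X^(3i) * (X⁻¹)^k`). The exponents
`3 i - k = 3 D - (3 j + 1) k` are distinct for distinct `k`, so this sum is nonzero as soon as one of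
the coefficients is (multiply by `X^K` with `K` a bound for `k` to get a polynomial).
`weight_bound`: let `D` be the maximum of `i + j k` over the support (`Finset.exists_max_image`); if
`D > A` the coefficient at `-D` vanishes by `Low .. (-A)`, contradiction.
`weight_top`: `D = A`; the coefficient at `-A` is `toR p`, `p.coeff (3 A) ≠ 0`: compare the coefficients
of `X^(3A + K)` in `toR p * X^K = Σ π_{ik} 64^i 4^(-k) X^(3i - k + K)`: `3 i - k = 3 A` with
`i + j k = A` forces `k = 0`, `i = A`. -/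

namespace Pool.Agent.Lib.MP_2d59ee_ag.J

section ModM4

open Polynomial

theorem m4_low_pow {x : LR} {i : ℤ} (h : Low x i) (n : ℕ) :
    Low (x ^ n) (n * i) ∧ (x ^ n).coeff (n * i) = (x.coeff i) ^ n := by
  induction n with
  | zero =>
    have h1 : (x ^ 0 : LR) = HahnSeries.single 0 1 := by
      rw [pow_zero]; rfl
    constructor
    · intro m hm
      rw [h1, HahnSeries.coeff_single_of_ne]
      push_cast at hm
      omega
    · rw [h1, Nat.cast_zero, zero_mul, HahnSeries.coeff_single_same, pow_zero]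
  | succ n ih =>
    have h1 : ((n + 1 : ℕ) : ℤ) * i = n * i + i := by push_cast; ring
    rw [h1, pow_succ, pow_succ]
    exact ⟨Low.mul ih.1 h, by rw [Low.coeff_mul ih.1 h, ih.2]⟩

theorem m4_low_cR (c : ℂ) : Low (cR c) 0 ∧ (cR c).coeff 0 = algebraMap ℂ (RatFunc ℂ) c := by
  have h1 : cR c = HahnSeries.C (algebraMap ℂ (RatFunc ℂ) c) := rfl
  constructor
  · intro m hm
    rw [h1, HahnSeries.C_apply, HahnSeries.coeff_single_of_ne hm.ne]
  · rw [h1, HahnSeries.C_apply, HahnSeries.coeff_single_same]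

theorem m4_mono {j : ℕ} {U V : LR} (hU : Low U (-1)) (hV : Low V (-(j : ℤ))) (c : ℂ) (i k : ℕ) :
    Low (cR c * U ^ i * V ^ k) (-((i + j * k : ℕ) : ℤ)) ∧
    (cR c * U ^ i * V ^ k).coeff (-((i + j * k : ℕ) : ℤ)) =
      algebraMap ℂ (RatFunc ℂ) c * (U.coeff (-1)) ^ i * (V.coeff (-(j : ℤ))) ^ k := by
  have h1 := m4_low_cR c
  have h2 := m4_low_pow hU i
  have h3 := m4_low_pow hV k
  have h4 := Low.mul (Low.mul h1.1 h2.1) h3.1
  have h5 := Low.coeff_mul (Low.mul h1.1 h2.1) h3.1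
  rw [Low.coeff_mul h1.1 h2.1, h1.2, h2.2, h3.2] at h5
  have e : (0 : ℤ) + (i : ℤ) * (-1) + (k : ℤ) * (-(j : ℤ)) = -((i + j * k : ℕ) : ℤ) := by
    push_cast; ring
  rw [e] at h4 h5
  exact ⟨h4, h5⟩

/-- the polynomial of the terms of weight `D`, multiplied by `X ^ K` -/
noncomputable def m4_poly (j D K : ℕ) (π : MP) : ℂ[X] :=
  ∑ d ∈ π.support.filter (fun d => d 0 + j * d 1 = D),
    C (π.coeff d * 64 ^ (d 0) * (4⁻¹ : ℂ) ^ (d 1)) * X ^ (3 * d 0 + (K - d 1))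

theorem m4_coeff {j D : ℕ} {U V : LR} (hU : Low U (-1))
    (hV : Low V (-(j : ℤ))) {π : MP} (hπ : ∀ d ∈ π.support, d 0 + j * d 1 ≤ D) :
    (ev cR U V π).coeff (-(D : ℤ)) = ∑ d ∈ π.support.filter (fun d => d 0 + j * d 1 = D),
      algebraMap ℂ (RatFunc ℂ) (π.coeff d) * (U.coeff (-1)) ^ (d 0) *
        (V.coeff (-(j : ℤ))) ^ (d 1) := by
  rw [ev_eq_sum, HahnSeries.coeff_sum, Finset.sum_filter]
  apply Finset.sum_congr rfl
  intro d hd
  have h1 := m4_mono hU hV (π.coeff d) (d 0) (d 1)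
  split_ifs with h
  · rw [← h1.2, h]
  · apply h1.1
    have h2 := hπ d hd
    have h3 : d 0 + j * d 1 < D := lt_of_le_of_ne h2 h
    have h4 : ((d 0 + j * d 1 : ℕ) : ℤ) < (D : ℤ) := by exact_mod_cast h3
    omega

theorem m4_key {j D K : ℕ} {U V : LR} (hU : Low U (-1))
    (hU1 : U.coeff (-1) = 64 * RatFunc.X ^ 3) (hV : Low V (-(j : ℤ)))
    (hV1 : V.coeff (-(j : ℤ)) = (4 * RatFunc.X)⁻¹) {π : MP}
    (hπ : ∀ d ∈ π.support, d 0 + j * d 1 ≤ D) (hK : ∀ d ∈ π.support, d 1 ≤ K) :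
    (ev cR U V π).coeff (-(D : ℤ)) * RatFunc.X ^ K = toR (m4_poly j D K π) := by
  rw [m4_coeff hU hV hπ, Finset.sum_mul, m4_poly, toR, map_sum]
  apply Finset.sum_congr rfl
  intro d hd
  have h1 : d 1 ≤ K := hK d (Finset.mem_filter.mp hd).1
  obtain ⟨r, hr⟩ := Nat.exists_eq_add_of_le h1
  have hX : (RatFunc.X : RatFunc ℂ) ≠ 0 := RatFunc.X_ne_zero
  have h2 : K - d 1 = r := by omega
  rw [hU1, hV1, h2, map_mul, map_pow]
  have e1 : algebraMap ℂ[X] (RatFunc ℂ) (C (π.coeff d * 64 ^ (d 0) * (4⁻¹ : ℂ) ^ (d 1))) =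
      algebraMap ℂ (RatFunc ℂ) (π.coeff d * 64 ^ (d 0) * (4⁻¹ : ℂ) ^ (d 1)) := by
    rw [RatFunc.algebraMap_C]
    rfl
  have e2 : algebraMap ℂ[X] (RatFunc ℂ) X = RatFunc.X := RatFunc.algebraMap_X
  rw [e1, e2, map_mul, map_mul, map_pow, map_pow, map_inv₀, hr]
  have e3 : algebraMap ℂ (RatFunc ℂ) 64 = 64 := map_ofNat _ 64
  have e4 : algebraMap ℂ (RatFunc ℂ) 4 = 4 := map_ofNat _ 4
  rw [e3, e4, mul_inv, pow_add, pow_add, mul_pow, mul_pow, inv_pow (RatFunc.X)]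
  have e5 : (RatFunc.X ^ (d 1) : RatFunc ℂ)⁻¹ * RatFunc.X ^ (d 1) = 1 :=
    inv_mul_cancel₀ (pow_ne_zero _ hX)
  rw [pow_mul]
  linear_combination (algebraMap ℂ (RatFunc ℂ) (π.coeff d) * 64 ^ (d 0) *
    (RatFunc.X ^ 3) ^ (d 0) * (4⁻¹) ^ (d 1) * RatFunc.X ^ r) * e5

theorem m4_poly_coeff {j D K n : ℕ} {π : MP} (h : (m4_poly j D K π).coeff n ≠ 0) :
    ∃ d ∈ π.support, d 0 + j * d 1 = D ∧ n = 3 * d 0 + (K - d 1) := by
  by_contra hc
  push Not at hc
  apply h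
  rw [m4_poly, finsetSum_coeff]
  apply Finset.sum_eq_zero
  intro d hd
  obtain ⟨h1, h2⟩ := Finset.mem_filter.mp hd
  rw [coeff_C_mul, coeff_X_pow, if_neg (hc d h1 h2), mul_zero]

theorem m4_poly_ne {j D K : ℕ} {π : MP} (hK : ∀ d ∈ π.support, d 1 ≤ K) {d : Fin 2 →₀ ℕ}
    (hd : d ∈ π.support) (hD : d 0 + j * d 1 = D) : m4_poly j D K π ≠ 0 := by
  intro h0
  have h1 : (m4_poly j D K π).coeff (3 * d 0 + (K - d 1)) =
      π.coeff d * 64 ^ (d 0) * (4⁻¹ : ℂ) ^ (d 1) := by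
    rw [m4_poly, finsetSum_coeff, Finset.sum_eq_single d]
    · rw [coeff_C_mul, coeff_X_pow, if_pos rfl, mul_one]
    · intro e he hne
      obtain ⟨h1, h2⟩ := Finset.mem_filter.mp he
      rw [coeff_C_mul, coeff_X_pow, if_neg, mul_zero]
      intro h3
      apply hne
      have h4 := hK e h1
      have h5 := hK d hd
      have h6 : 3 * d 0 + e 1 = 3 * e 0 + d 1 := by omega
      have h7 : (3 * j + 1) * e 1 = (3 * j + 1) * d 1 := by
        have : d 0 + j * d 1 = e 0 + j * e 1 := by rw [hD, h2]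
        nlinarith
      have h8 : e 1 = d 1 := Nat.eq_of_mul_eq_mul_left (by omega) h7
      have h9 : e 0 = d 0 := by rw [h8] at h6; omega
      rw [← pt_eta e, ← pt_eta d, h8, h9]
    · intro h2
      exact absurd (Finset.mem_filter.mpr ⟨hd, hD⟩) h2
  rw [h0, coeff_zero] at h1
  have h2 : π.coeff d ≠ 0 := MvPolynomial.mem_support_iff.mp hd
  have h3 : π.coeff d * 64 ^ (d 0) * (4⁻¹ : ℂ) ^ (d 1) ≠ 0 :=
    mul_ne_zero (mul_ne_zero h2 (pow_ne_zero _ (by norm_num))) (pow_ne_zero _ (by norm_num))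
  exact h3 h1.symm

theorem m4_exists_K (π : MP) : ∃ K : ℕ, ∀ d ∈ π.support, d 1 ≤ K :=
  ⟨∑ d ∈ π.support, d 1, fun _ hd =>
    Finset.single_le_sum (f := fun d : Fin 2 →₀ ℕ => d 1) (fun _ _ => Nat.zero_le _) hd⟩

theorem weight_bound {j A : ℕ} {U V : LR} (hU : Low U (-1))
    (hU1 : U.coeff (-1) = 64 * RatFunc.X ^ 3) (hV : Low V (-(j : ℤ)))
    (hV1 : V.coeff (-(j : ℤ)) = (4 * RatFunc.X)⁻¹) {π : MP}
    (h : Low (ev cR U V π) (-(A : ℤ))) :
    ∀ i k, π.coeff (pt i k) ≠ 0 → i + j * k ≤ A := by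
  intro i k hik
  by_contra hcon
  push Not at hcon
  obtain ⟨K, hK⟩ := m4_exists_K π
  have hmem : pt i k ∈ π.support := MvPolynomial.mem_support_iff.mpr hik
  obtain ⟨d, hd, hmax⟩ := Finset.exists_max_image π.support (fun d => d 0 + j * d 1) ⟨_, hmem⟩
  have h1 : i + j * k ≤ d 0 + j * d 1 := by
    have := hmax _ hmem
    simpa using this
  have h2 := m4_key hU hU1 hV hV1 (D := d 0 + j * d 1) (K := K) hmax hK
  have h3 : (ev cR U V π).coeff (-((d 0 + j * d 1 : ℕ) : ℤ)) = 0 := by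
    apply h
    have : (A : ℤ) < ((d 0 + j * d 1 : ℕ) : ℤ) := by
      exact_mod_cast lt_of_lt_of_le hcon h1
    omega
  rw [h3, zero_mul] at h2
  exact toR_ne_zero (m4_poly_ne hK hd rfl) h2.symm

theorem weight_top {j A : ℕ} {U V : LR} (hU : Low U (-1))
    (hU1 : U.coeff (-1) = 64 * RatFunc.X ^ 3) (hV : Low V (-(j : ℤ)))
    (hV1 : V.coeff (-(j : ℤ)) = (4 * RatFunc.X)⁻¹) {π : MP}
    (hπ : ∀ i k, π.coeff (pt i k) ≠ 0 → i + j * k ≤ A) {p : ℂ[X]}
    (hp : (ev cR U V π).coeff (-(A : ℤ)) = toR p) (hp3 : p.coeff (3 * A) ≠ 0) :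
    π.coeff (pt A 0) ≠ 0 := by
  obtain ⟨K, hK⟩ := m4_exists_K π
  have hmax : ∀ d ∈ π.support, d 0 + j * d 1 ≤ A := by
    intro d hd
    apply hπ
    rw [pt_eta]
    exact MvPolynomial.mem_support_iff.mp hd
  have h2 := m4_key hU hU1 hV hV1 (K := K) hmax hK
  have h3 : p * X ^ K = m4_poly j A K π := by
    have e2 : algebraMap ℂ[X] (RatFunc ℂ) X = RatFunc.X := RatFunc.algebraMap_X
    apply FaithfulSMul.algebraMap_injective ℂ[X] (RatFunc ℂ)
    rw [map_mul, map_pow, e2]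
    rw [hp] at h2
    exact h2
  have h4 : (m4_poly j A K π).coeff (3 * A + K) ≠ 0 := by
    rw [← h3, coeff_mul_X_pow]
    exact hp3
  obtain ⟨d, hd, h5, h6⟩ := m4_poly_coeff h4
  have h7 := hK d hd
  have h8 : d 1 = 0 := by
    have : d 0 ≤ A := by
      rw [← h5]; exact Nat.le_add_right _ _
    omega
  have h9 : d 0 = A := by rw [h8] at h5; simpa using h5
  have h10 : pt A 0 = d := by rw [← pt_eta d, h8, h9]
  rw [h10]
  exact MvPolynomial.mem_support_iff.mp hd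

end ModM4

end Pool.Agent.Lib.MP_2d59ee_ag.J

/-! Part M6 -/
/-! ## Row M6: the constants (regularity at `v = 0`)

Take `L = RatFunc ℂ`, `φ = algebraMap`, `v = RatFunc.X`, `V = v⁻¹`, `U = -l v^2 + s v` (`s = s₁ + e l`), so that
`u = uF .. = U V^3 - s V^2 + l V = 0` and `t = tF .. = -v - e ≠ 0`. The two representations give
`ev φ U v⁻¹ π = ev φ 0 (-v - e) W`. Multiply by `v^k₀`: in `ℂ[v]` (`RatFunc` ← `ℂ[X]` is injective)
`Σ_{i,k} π_{ik} (-l v^2 + s v)^i v^(k₀ - k) = v^k₀ * W(0, -v - e)`. Since `k₀ ≥ 2` the coefficients of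
`v^0` and `v^1` of the right side vanish. Coefficient of `v^0`: `π_{0 k₀}`; of `v^1`:
`s π_{1 k₀} + π_{0, k₀-1}`. -/

namespace Pool.Agent.Lib.MP_2d59ee_ag.J

section ModM6

open Polynomial

theorem const_rel {s₁ l e : ℂ} {F W π : MP} (hW : RepT s₁ l F W) (hπ : Rep s₁ l e F π)
    {k₀ : ℕ} (hk₀ : 2 ≤ k₀)
    (hsupp : ∀ i k, π.coeff (pt i k) ≠ 0 → k ≤ k₀ ∧ (k = k₀ → i ≤ 1)) :
    π.coeff (pt 0 k₀) = 0 ∧
      π.coeff (pt 0 (k₀ - 1)) + (s₁ + e * l) * π.coeff (pt 1 k₀) = 0 := by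
  classical
  set s : ℂ := s₁ + e * l with hs
  set φ : ℂ →+* RatFunc ℂ := algebraMap ℂ (RatFunc ℂ) with hφ
  set ι : ℂ[X] →+* RatFunc ℂ := algebraMap ℂ[X] (RatFunc ℂ) with hι
  have hιC : ∀ c, ι (C c) = φ c := fun c => by
    rw [hι, hφ, ← Polynomial.algebraMap_eq, ← IsScalarTower.algebraMap_apply]
  have hιinj : Function.Injective ι := IsFractionRing.injective ℂ[X] (RatFunc ℂ)
  set v : RatFunc ℂ := ι X with hv
  have hv0 : v ≠ 0 := by
    rw [hv, Ne, ← map_zero ι]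
    exact fun h => X_ne_zero (hιinj h)
  have ht0 : -v - φ e ≠ 0 := by
    rw [hv, ← hιC, ← map_neg, ← map_sub, Ne, ← map_zero ι]
    intro h
    have h1 := congrArg (fun p => coeff p 1) (hιinj h)
    simp at h1
  set U : RatFunc ℂ := -φ l * v ^ 2 + φ s * v with hU
  have hu : uF φ s l U v⁻¹ = 0 := by
    rw [uF, hU]
    field_simp
    ring
  have ht : tF φ s l e U v⁻¹ = -v - φ e := by
    rw [tF, hu, inv_inv]
    ring
  have h1 := hπ (RatFunc ℂ) φ U v⁻¹ (inv_ne_zero hv0) (by rw [← hs, ht]; exact ht0)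
  rw [← hs, ht, hu] at h1
  have h2 := hW (RatFunc ℂ) φ 0 (-v - φ e) ht0
  rw [h2] at h1
  -- the polynomial identity
  set p : ℂ[X] := ∑ d ∈ π.support, C (π.coeff d) * (X ^ (k₀ - d 1 + d 0) *
    (C s - C l * X) ^ (d 0)) with hp
  set q : ℂ[X] := ev C 0 (-X - C e) W with hq
  have hιq : ι q = ev φ 0 (-v - φ e) W := by
    rw [hq, map_ev]
    have e1 : ι.comp C = φ := by ext c; exact hιC c
    rw [e1, map_zero, map_sub, map_neg, hιC]
  have hιp : ι p = v ^ k₀ * ev φ U v⁻¹ π := by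
    rw [hp, ev_eq_sum, map_sum, Finset.mul_sum]
    apply Finset.sum_congr rfl
    intro d hd
    have hd1 : d 1 ≤ k₀ := by
      have := hsupp (d 0) (d 1) (by rw [pt_eta]; exact MvPolynomial.mem_support_iff.mp hd)
      exact this.1
    have e2 : v ^ k₀ = v ^ (k₀ - d 1) * v ^ (d 1) := by rw [← pow_add, Nat.sub_add_cancel hd1]
    have e3 : U = v * (φ s - φ l * v) := by rw [hU]; ring
    simp only [map_mul, map_pow, map_sub, hιC]
    rw [e2, e3, mul_pow, ← hv, pow_add, inv_pow]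
    field_simp
  have hpq : p = X ^ k₀ * q := by
    apply hιinj
    rw [hιp, ← h1, map_mul, map_pow, hιq]
  have hc : ∀ n, n < k₀ → p.coeff n = 0 := by
    intro n hn
    rw [hpq, coeff_X_pow_mul', if_neg (by omega)]
  have hterm : ∀ (d : Fin 2 →₀ ℕ) (n : ℕ), (C (π.coeff d) * (X ^ (k₀ - d 1 + d 0) *
      (C s - C l * X) ^ (d 0)) : ℂ[X]).coeff n = π.coeff d *
      (if k₀ - d 1 + d 0 ≤ n then ((C s - C l * X) ^ (d 0) : ℂ[X]).coeff (n - (k₀ - d 1 + d 0))
        else 0) := by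
    intro d n
    rw [coeff_C_mul, coeff_X_pow_mul']
  constructor
  · have h3 := hc 0 (by omega)
    rw [hp, finsetSum_coeff] at h3
    by_contra hne
    have hmem : pt 0 k₀ ∈ π.support := MvPolynomial.mem_support_iff.mpr hne
    rw [Finset.sum_eq_single_of_mem _ hmem] at h3
    · rw [hterm] at h3
      simp at h3
      exact hne h3
    · intro d hd hdne
      rw [hterm, if_neg, mul_zero]
      intro h4
      apply hdne
      have h5 := hsupp (d 0) (d 1) (by rw [pt_eta]; exact MvPolynomial.mem_support_iff.mp hd)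
      rw [← pt_eta d, pt_inj]
      omega
  · have h3 := hc 1 (by omega)
    rw [hp, finsetSum_coeff] at h3
    have h4 : ∀ d ∈ π.support, (C (π.coeff d) * (X ^ (k₀ - d 1 + d 0) *
        (C s - C l * X) ^ (d 0)) : ℂ[X]).coeff 1 =
        (if d = pt 0 (k₀ - 1) then π.coeff d else 0) +
        (if d = pt 1 k₀ then s * π.coeff d else 0) := by
      intro d hd
      have h5 := (hsupp (d 0) (d 1) (by rw [pt_eta]; exact MvPolynomial.mem_support_iff.mp hd)).1
      rw [hterm]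
      by_cases c1 : d = pt 0 (k₀ - 1)
      · subst c1
        have hne : pt 0 (k₀ - 1) ≠ pt 1 k₀ := fun h => by rw [pt_inj] at h; omega
        have e1 : k₀ - (k₀ - 1) + 0 = 1 := by omega
        simp only [hne, if_true, if_false, pt_0, pt_1, e1, le_refl, pow_zero, Nat.sub_self,
          coeff_one_zero, mul_one, add_zero]
      · rw [if_neg c1]
        by_cases c2 : d = pt 1 k₀
        · rw [if_pos c2]
          subst c2
          simp
          ring
        · rw [if_neg c2, add_zero]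
          by_cases c3 : k₀ - d 1 + d 0 ≤ 1
          · rw [if_pos c3]
            have c4 : d 0 = 0 ∧ d 1 = k₀ := by
              by_contra c5
              have c6 : (d 0 = 1 ∧ d 1 = k₀) ∨ (d 0 = 0 ∧ d 1 = k₀ - 1) := by omega
              rcases c6 with c6 | c6
              · exact c2 (by rw [← pt_eta d, pt_inj]; exact c6)
              · exact c1 (by rw [← pt_eta d, pt_inj]; exact c6)
            rw [c4.1, c4.2]
            simp [coeff_one]
          · rw [if_neg c3, mul_zero]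
    rw [Finset.sum_congr rfl h4, Finset.sum_add_distrib, Finset.sum_ite_eq', Finset.sum_ite_eq'] at h3
    rw [← h3]
    congr 1
    · split_ifs with h6
      · rfl
      · exact MvPolynomial.notMem_support_iff.mp h6
    · split_ifs with h6
      · rfl
      · rw [MvPolynomial.notMem_support_iff.mp h6, mul_zero]

end ModM6

end Pool.Agent.Lib.MP_2d59ee_ag.J

/-! Part M7 -/
/-! ## Row M7: the Jacobian in the coordinates `U, V`

In `LR` with `U = UU`, `V = VV` and the derivations `S = theta` (`V d/dV`) and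
`T = coefD ratD ratD_isDer` (`d/dU`); both kill `cR c`. `br S T U V = -V` (`S U = 0`, `T U = 1`, `S V = V`,
`T V = 0`). With `u = U V^3 - s V^2 + l V`, `v = V⁻¹`, `t = u - v - e`, `z = u t^3 + l t^2 + s₁ t`, `w = t⁻¹`:
`br u v = V^2`, `br z w = t V^2` (derivation rules: `br z w = z_u t^(-2) * (-1) * br u t` etc.:
`D z = t^3 D u + (3 u t^2 + 2 l t + s₁) D t`, `D w = -t^(-2) D t`, so
`br z w = -t * br u t = t * br u v` for `br u t = -br u v`).
`br_ev` twice: `ev cR z w (jac F G) * (t V^2) = br (F(z,w)) (G(z,w)) = br (π₁(U,V)) (π₂(U,V))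
 = ev cR U V (jac π₁ π₂) * (-V)`. With `jac F G = C c`: `ev cR U V (jac π₁ π₂) = -c t V`, and
`t V = Th(U, V)`. So `ev cR UU VV (jac π₁ π₂ + C c * Th) = 0`; its coefficient at `V^k` is
`Σ_i (..)_{ik} X^i`, so the polynomial is zero. -/

namespace Pool.Agent.Lib.MP_2d59ee_ag.J

section ModM7

open Polynomial

theorem m7_Du {L : Type*} [Field L] {D : L → L} (hD : IsDer D) (φ : ℂ →+* L)
    (hφ : ∀ c, D (φ c) = 0) (s l : ℂ) (U V : L) :
    D (uF φ s l U V) = V ^ 3 * D U + (3 * U * V ^ 2 - 2 * φ s * V + φ l) * D V := by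
  have h3 : D (V ^ 3) = 3 * V ^ 2 * D V := by
    have := hD.pow V 2
    simpa using this
  have h2 : D (V ^ 2) = 2 * V * D V := by
    have := hD.pow V 1
    simpa using this
  rw [uF, hD.add, hD.sub, hD.mul, hD.mul (φ s), hD.mul (φ l), hφ, hφ, h3, h2]
  ring

theorem m7_Dt {L : Type*} [Field L] {D : L → L} (hD : IsDer D) (φ : ℂ →+* L)
    (hφ : ∀ c, D (φ c) = 0) (s l e : ℂ) (U V : L) (hV : V ≠ 0) :
    D (tF φ s l e U V) = D (uF φ s l U V) + V⁻¹ ^ 2 * D V := by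
  rw [tF, hD.sub, hD.sub, hφ, hD.inv V hV]
  ring

theorem m7_Dz {L : Type*} [Field L] {D : L → L} (hD : IsDer D) (φ : ℂ →+* L)
    (hφ : ∀ c, D (φ c) = 0) (s₁ l : ℂ) (u t : L) :
    D (zF φ s₁ l u t) = t ^ 3 * D u + (3 * u * t ^ 2 + 2 * φ l * t + φ s₁) * D t := by
  have h3 : D (t ^ 3) = 3 * t ^ 2 * D t := by
    have := hD.pow t 2
    simpa using this
  have h2 : D (t ^ 2) = 2 * t * D t := by
    have := hD.pow t 1
    simpa using this
  rw [zF, hD.add, hD.add, hD.mul, hD.mul (φ l), hD.mul (φ s₁), hφ, hφ, h3, h2]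
  ring

/-- the bracket of the new coordinates -/
theorem m7_br {L : Type*} [Field L] {S T : L → L} (hS : IsDer S) (hT : IsDer T) (φ : ℂ →+* L)
    (hSφ : ∀ c, S (φ c) = 0) (hTφ : ∀ c, T (φ c) = 0) (s₁ s l e : ℂ) (U V : L) (hV : V ≠ 0)
    (ht : tF φ s l e U V ≠ 0) (hUV : br S T U V = -V) :
    br S T (zF φ s₁ l (uF φ s l U V) (tF φ s l e U V)) (tF φ s l e U V)⁻¹
      = tF φ s l e U V * V ^ 2 := by
  have hS1 := m7_Dz hS φ hSφ s₁ l (uF φ s l U V) (tF φ s l e U V)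
  have hT1 := m7_Dz hT φ hTφ s₁ l (uF φ s l U V) (tF φ s l e U V)
  have hS2 := m7_Dt hS φ hSφ s l e U V hV
  have hT2 := m7_Dt hT φ hTφ s l e U V hV
  have hS3 := m7_Du hS φ hSφ s l U V
  have hT3 := m7_Du hT φ hTφ s l U V
  have hS4 := hS.inv _ ht
  have hT4 := hT.inv _ ht
  set t := tF φ s l e U V with htd
  set u := uF φ s l U V with hud
  have hVi : V * V⁻¹ = 1 := mul_inv_cancel₀ hV
  have hti : t * t⁻¹ = 1 := mul_inv_cancel₀ ht
  -- `br u t = -V^2`
  have hut : S u * T t - T u * S t = -V ^ 2 := by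
    rw [hS2, hT2, hS3, hT3]
    simp only [br] at hUV
    have : V ^ 3 * V⁻¹ ^ 2 * (S U * T V - T U * S V) = -V ^ 2 := by
      rw [hUV]
      have : V ^ 3 * V⁻¹ ^ 2 = V * (V * V⁻¹) ^ 2 := by ring
      rw [this, hVi]; ring
    linear_combination this
  simp only [br]
  rw [hS1, hT1, hS4, hT4]
  have h5 : t ^ 3 * t⁻¹ ^ 2 = t := by
    have : t ^ 3 * t⁻¹ ^ 2 = t * (t * t⁻¹) ^ 2 := by ring
    rw [this, hti]; ring
  have h6 : (t ^ 3 * S u + (3 * u * t ^ 2 + 2 * φ l * t + φ s₁) * S t) * -(t⁻¹ ^ 2 * T t)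
      - (t ^ 3 * T u + (3 * u * t ^ 2 + 2 * φ l * t + φ s₁) * T t) * -(t⁻¹ ^ 2 * S t)
      = -(t ^ 3 * t⁻¹ ^ 2) * (S u * T t - T u * S t) := by ring
  rw [h6, h5, hut]
  ring

theorem m7_tV {L : Type*} [Field L] (φ : ℂ →+* L) (s l e : ℂ) (U V : L) (hV : V ≠ 0) :
    tF φ s l e U V * V = ev φ U V (Th s l e) := by
  have hVi : V⁻¹ * V = 1 := inv_mul_cancel₀ hV
  simp only [tF, uF, Th, map_sub, map_add, map_mul, map_pow, ev_C, ev_X0, ev_X1, map_one]
  linear_combination -hVi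

theorem m7_theta_cR (c : ℂ) : theta (cR c) = 0 := by
  ext n
  rw [theta_coeff]
  show (n : RatFunc ℂ) * (HahnSeries.C (algebraMap ℂ (RatFunc ℂ) c)).coeff n = 0
  rw [HahnSeries.C_apply, HahnSeries.coeff_single]
  split_ifs with h
  · rw [h]; simp
  · simp

theorem m7_ratD_C (c : ℂ) : ratD (algebraMap ℂ (RatFunc ℂ) c) = 0 := by
  have h : algebraMap ℂ (RatFunc ℂ) c = toR (C c) := by
    rw [toR, IsScalarTower.algebraMap_apply ℂ ℂ[X] (RatFunc ℂ)]
    rfl
  rw [h, ratD_toR, derivative_C]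
  simp [toR]

theorem m7_coefD_cR (c : ℂ) : coefD ratD ratD_isDer (cR c) = 0 := by
  ext n
  rw [coefD_coeff]
  show ratD ((HahnSeries.C (algebraMap ℂ (RatFunc ℂ) c)).coeff n) = _
  rw [HahnSeries.C_apply, HahnSeries.coeff_single]
  split_ifs with h
  · rw [m7_ratD_C]; simp
  · rw [ratD_isDer.zero]; simp

theorem m7_brUV : br (theta : LR → LR) (coefD ratD ratD_isDer) UU VV = -VV := by
  have h1 : (theta : LR → LR) UU = 0 := by
    ext n
    rw [theta_coeff, UU, HahnSeries.C_apply, HahnSeries.coeff_single]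
    split_ifs with h
    · rw [h]; simp
    · simp
  have h2 : coefD ratD ratD_isDer UU = (1 : LR) := by
    ext n
    rw [coefD_coeff, UU, HahnSeries.C_apply, HahnSeries.coeff_single, HahnSeries.coeff_one]
    split_ifs with h
    · have hX : (RatFunc.X : RatFunc ℂ) = toR (X : ℂ[X]) := by
        rw [toR, RatFunc.algebraMap_X]
      rw [hX, ratD_toR, derivative_X]
      simp [toR]
    · exact ratD_isDer.zero
  have h3 : (theta : LR → LR) VV = VV := by
    ext n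
    rw [theta_coeff, VV, HahnSeries.coeff_single]
    split_ifs with h
    · rw [h]; simp
    · simp
  have h4 : coefD ratD ratD_isDer VV = (0 : LR) := by
    ext n
    rw [coefD_coeff, VV, HahnSeries.coeff_single]
    split_ifs with h
    · rw [ratD_isDer.one]; simp
    · rw [ratD_isDer.zero]; simp
  rw [br, h1, h2, h3, h4]
  simp

theorem m7_VV_ne : VV ≠ 0 := by
  rw [VV, Ne, HahnSeries.single_eq_zero_iff]
  exact one_ne_zero

/-- coefficient extraction -/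
theorem m7_coeff (F : MP) (k : ℕ) :
    (ev cR UU VV F).coeff (k : ℤ)
      = toR (∑ d ∈ F.support with d 1 = k, C (F.coeff d) * X ^ (d 0)) := by
  classical
  have hterm : ∀ d : Fin 2 →₀ ℕ, (cR (F.coeff d) * UU ^ (d 0) * VV ^ (d 1) : LR)
      = HahnSeries.single ((d 1 : ℕ) : ℤ)
        (algebraMap ℂ (RatFunc ℂ) (F.coeff d) * RatFunc.X ^ (d 0)) := by
    intro d
    have h1 : (cR (F.coeff d) : LR)
        = HahnSeries.single 0 (algebraMap ℂ (RatFunc ℂ) (F.coeff d)) := rfl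
    have h2 : (UU ^ (d 0) : LR) = HahnSeries.single 0 (RatFunc.X ^ (d 0)) := by
      rw [UU, ← map_pow, HahnSeries.C_apply]
    have h3 : (VV ^ (d 1) : LR) = HahnSeries.single ((d 1 : ℕ) : ℤ) 1 := by
      rw [VV, HahnSeries.single_pow]
      simp
    rw [h1, h2, h3, HahnSeries.single_mul_single, HahnSeries.single_mul_single]
    simp
  rw [ev_eq_sum]
  rw [show (∑ d ∈ F.support, (cR (F.coeff d) * UU ^ (d 0) * VV ^ (d 1) : LR))
    = ∑ d ∈ F.support, HahnSeries.single ((d 1 : ℕ) : ℤ)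
        (algebraMap ℂ (RatFunc ℂ) (F.coeff d) * RatFunc.X ^ (d 0)) from
    Finset.sum_congr rfl (fun d _ => hterm d)]
  rw [HahnSeries.coeff_sum]
  rw [toR, map_sum, Finset.sum_filter]
  refine Finset.sum_congr rfl (fun d _ => ?_)
  rw [HahnSeries.coeff_single]
  by_cases h : d 1 = k
  · rw [if_pos (by exact_mod_cast h.symm), if_pos h, map_mul, map_pow, RatFunc.algebraMap_X]
    congr 1
  · have h' : ¬ ((k : ℤ) = ((d 1 : ℕ) : ℤ)) := fun h'' => h (by exact_mod_cast h''.symm)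
    rw [if_neg h', if_neg h]

theorem m7_inj (F : MP) (h : ev cR UU VV F = 0) : F = 0 := by
  classical
  ext d
  rw [MvPolynomial.coeff_zero]
  by_contra hne
  have h1 := m7_coeff F (d 1)
  rw [h, HahnSeries.coeff_zero] at h1
  have h2 : (∑ e ∈ F.support with e 1 = d 1, C (F.coeff e) * X ^ (e 0) : ℂ[X]) = 0 := by
    have := FaithfulSMul.algebraMap_injective ℂ[X] (RatFunc ℂ)
    apply this
    rw [map_zero]
    exact h1.symm
  have h3 := congrArg (fun p : ℂ[X] => p.coeff (d 0)) h2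
  simp only [finsetSum_coeff, coeff_C_mul, coeff_X_pow, coeff_zero] at h3
  rw [Finset.sum_eq_single d] at h3
  · simp at h3
    exact hne h3
  · intro b hb hbd
    have hb1 := (Finset.mem_filter.mp hb).2
    rw [if_neg, mul_zero]
    intro h0
    apply hbd
    ext i
    fin_cases i
    · exact h0.symm
    · exact hb1
  · intro hd
    exfalso
    apply hd
    rw [Finset.mem_filter]
    exact ⟨MvPolynomial.mem_support_iff.mpr hne, rfl⟩

theorem m7_t_ne (s l e : ℂ) : tF cR s l e UU VV ≠ 0 := by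
  intro h
  have h1 := m7_tV cR s l e UU VV m7_VV_ne
  rw [h, zero_mul] at h1
  have h2 := m7_inj _ h1.symm
  have h3 := congrArg (fun p : MP => MvPolynomial.eval ![0, 0] p) h2
  simp [Th] at h3

theorem m7_gen {L : Type} [Field L] {S T : L → L} (hS : IsDer S) (hT : IsDer T) (φ : ℂ →+* L)
    (hSφ : ∀ c, S (φ c) = 0) (hTφ : ∀ c, T (φ c) = 0) (U V : L) (hV : V ≠ 0)
    (hUV : br S T U V = -V) {s₁ l e c : ℂ} {F G π₁ π₂ : MP}
    (ht : tF φ (s₁ + e * l) l e U V ≠ 0)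
    (h₁ : Rep s₁ l e F π₁) (h₂ : Rep s₁ l e G π₂)
    (hJ : jac F G = MvPolynomial.C c) :
    ev φ U V (jac π₁ π₂ - -(MvPolynomial.C c) * Th (s₁ + e * l) l e) = 0 := by
  have e1 := h₁ L φ U V hV ht
  have e2 := h₂ L φ U V hV ht
  have hbr := m7_br hS hT φ hSφ hTφ s₁ (s₁ + e * l) l e U V hV ht hUV
  have hA := br_ev hS hT φ hSφ hTφ
    (zF φ s₁ l (uF φ (s₁ + e * l) l U V) (tF φ (s₁ + e * l) l e U V))
    (tF φ (s₁ + e * l) l e U V)⁻¹ F G
  have hB := br_ev hS hT φ hSφ hTφ U V π₁ π₂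
  rw [e1, e2, hB, hJ, ev_C, hbr, hUV] at hA
  have htV := m7_tV φ (s₁ + e * l) l e U V hV
  rw [map_sub, map_mul, map_neg, ev_C, ← htV]
  generalize tF φ (s₁ + e * l) l e U V = t at *
  generalize ev φ U V (jac π₁ π₂) = J at *
  have h3 : (J - -φ c * (t * V)) * V = 0 := by
    linear_combination -hA
  exact (mul_eq_zero.mp h3).resolve_right hV



theorem jac_pi {s₁ l e c : ℂ} {F G π₁ π₂ : MP} (h₁ : Rep s₁ l e F π₁) (h₂ : Rep s₁ l e G π₂)
    (hJ : jac F G = MvPolynomial.C c) :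
    jac π₁ π₂ = -(MvPolynomial.C c) * Th (s₁ + e * l) l e := by
  have g1 := @m7_gen LR _ theta (coefD ratD ratD_isDer)
  have g2 := g1 (theta_isDer (R := RatFunc ℂ))
  have g3 := g2 (coefD_isDer ratD ratD_isDer)
  have g4 := g3 cR
  have g5 := g4 m7_theta_cR
  have g6 := g5 m7_coefD_cR
  have g7 := @g6 UU VV m7_VV_ne m7_brUV
  have g8 := @g7 s₁ l e c F G π₁ π₂ (m7_t_ne (s₁ + e * l) l e)
  have g9 := g8 h₁ h₂
  have g10 := g9 hJ
  have hD := m7_inj _ g10
  exact sub_eq_zero.mp hD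

end ModM7

end Pool.Agent.Lib.MP_2d59ee_ag.J
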