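import Mathlib
import Pool.Agent.Lib.MP_2d59ee_ag.JSys

set_option autoImplicit false

/-! Part N1 -/
/-! ## Row N1: arithmetic of the admissible combinations

`(pderiv 1 Φ).coeff (pt i j) = (j + 1) * Φ.coeff (pt i (j + 1))` (Mathlib: `MvPolynomial.pderiv`,
`MvPolynomial.coeff` of `pderiv_monomial`; or by `MvPolynomial.induction_on`/`as_sum`).
`pd_le`: if it is nonzero then either `i = 1`, `j + 1 = a`, and `a i + b j = a + b (a-1)`; or
`j + 1 < a` and `a i + b j ≤ a + a b - b = a + b (a - 1)`.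
`pd_unique`: equality in the second case would be `a i + b (j+1) = a + a b`, so `a ∣ b (j+1)`,
`a ∣ j + 1` (coprime), impossible for `0 < j + 1 < a`.
`pd_top`: the coefficient at `pt 1 (a-1)` is `a * 1`.
`adm_le`: all monomials of `Φ` have weight `a i + b j ≤ a + a b`.
`adm_start`: `X 0 * X 1 ^ a` is admissible. `adm_sub`: subtracting `γ X 0^i X 1^j` with `j < a`,
`a i + b j ≤ a + a b` keeps admissibility (`pt i j ≠ pt 1 a` since `j < a`).
`repr`: every `n ≥ (a - 1) (b - 1)` is `a i + b j` with `j < a` (choose `j < a` with `b j ≡ n mod a`;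
`n - b j > -a` and divisible by `a`, so `≥ 0`). Here `n ≥ b (a - 1) + 1 > (a-1)(b-1)`. -/

namespace Pool.Agent.Lib.MP_2d59ee_ag.J

section ModN1

open Polynomial

theorem n1_ne {j : ℕ} {x : ℂ} (h : ((j : ℂ) + 1) * x ≠ 0) : x ≠ 0 := right_ne_zero_of_mul h

theorem n1_pt (i j : ℕ) : pt i j + Finsupp.single 1 1 = pt i (j + 1) := by
  rw [pt, pt, add_assoc, ← Finsupp.single_add]

theorem n1_mon (i j : ℕ) (γ : ℂ) :
    (MvPolynomial.C γ * MvPolynomial.X 0 ^ i * MvPolynomial.X 1 ^ j : MP)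
      = MvPolynomial.monomial (pt i j) γ := by
  rw [MvPolynomial.X_pow_eq_monomial, MvPolynomial.X_pow_eq_monomial, MvPolynomial.C_mul_monomial,
    MvPolynomial.monomial_mul, pt, mul_one, mul_one]

theorem pd_coeff (Φ : MP) (i j : ℕ) :
    (MvPolynomial.pderiv 1 Φ).coeff (pt i j) = ((j : ℂ) + 1) * Φ.coeff (pt i (j + 1)) := by
  rw [MvPolynomial.coeff_pderiv, n1_pt, pt_1, mul_comm]

theorem pd_le {a b : ℕ} (ha : 1 ≤ a) {Φ : MP} (h : Adm a b Φ) :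
    ∀ i j, (MvPolynomial.pderiv 1 Φ).coeff (pt i j) ≠ 0 → a * i + b * j ≤ a + b * (a - 1) := by
  intro i j hij
  rw [pd_coeff] at hij
  obtain ⟨c, rfl⟩ : ∃ c, a = c + 1 := ⟨a - 1, by omega⟩
  rw [Nat.add_sub_cancel]
  rcases h.h2 i (j + 1) (n1_ne hij) with ⟨h1, h2⟩ | ⟨h1, h2⟩
  · have : j = c := by omega
    subst this
    subst h1
    simp
  · nlinarith

theorem pd_unique {a b : ℕ} (ha : 1 ≤ a) (hab : Nat.Coprime a b) {Φ : MP} (h : Adm a b Φ) :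
    ∀ i j, (MvPolynomial.pderiv 1 Φ).coeff (pt i j) ≠ 0 → a * i + b * j = a + b * (a - 1) →
      i = 1 ∧ j = a - 1 := by
  intro i j hij he
  rw [pd_coeff] at hij
  rcases h.h2 i (j + 1) (n1_ne hij) with ⟨h1, h2⟩ | ⟨h1, h2⟩
  · exact ⟨h1, by omega⟩
  · exfalso
    obtain ⟨c, rfl⟩ : ∃ c, a = c + 1 := ⟨a - 1, by omega⟩
    rw [Nat.add_sub_cancel] at he
    have h3 : (c + 1) * i + b * (j + 1) = (c + 1) * (1 + b) := by nlinarith
    have h4 : (c + 1) ∣ b * (j + 1) := by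
      have h5 : (c + 1) ∣ (c + 1) * i + b * (j + 1) := by rw [h3]; exact dvd_mul_right _ _
      exact (Nat.dvd_add_right (dvd_mul_right _ _)).1 h5
    have h6 : (c + 1) ∣ j + 1 := hab.dvd_of_dvd_mul_left h4
    have h7 := Nat.le_of_dvd (by omega) h6
    omega

theorem pd_top {a b : ℕ} (ha : 1 ≤ a) {Φ : MP} (h : Adm a b Φ) :
    (MvPolynomial.pderiv 1 Φ).coeff (pt 1 (a - 1)) = a := by
  rw [pd_coeff]
  obtain ⟨c, rfl⟩ : ∃ c, a = c + 1 := ⟨a - 1, by omega⟩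
  rw [Nat.add_sub_cancel, h.h1]
  push_cast
  ring

theorem adm_le {a b : ℕ} {Φ : MP} (h : Adm a b Φ) :
    ∀ i j, Φ.coeff (pt i j) ≠ 0 → a * i + b * j ≤ a + a * b := by
  intro i j hij
  rcases h.h2 i j hij with ⟨h1, h2⟩ | ⟨h1, h2⟩
  · subst h1
    subst h2
    rw [mul_one, mul_comm b j]
  · exact h2

theorem adm_start {a b : ℕ} (ha : 1 ≤ a) :
    Adm a b (MvPolynomial.X 0 * MvPolynomial.X 1 ^ a : MP) := by
  have h : (MvPolynomial.X 0 * MvPolynomial.X 1 ^ a : MP)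
      = MvPolynomial.monomial (pt 1 a) 1 := by
    rw [← n1_mon, MvPolynomial.C_1, one_mul, pow_one]
  rw [h]
  refine ⟨by rw [MvPolynomial.coeff_monomial, if_pos rfl], fun i j hij => ?_⟩
  rw [MvPolynomial.coeff_monomial] at hij
  by_cases hp : pt 1 a = pt i j
  · exact Or.inl ⟨(pt_inj.1 hp).1.symm, (pt_inj.1 hp).2.symm⟩
  · rw [if_neg hp] at hij
    exact absurd rfl hij

theorem adm_sub {a b i j : ℕ} {Φ : MP} (h : Adm a b Φ) (γ : ℂ) (hj : j < a)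
    (hij : a * i + b * j ≤ a + a * b) :
    Adm a b (Φ - MvPolynomial.C γ * MvPolynomial.X 0 ^ i * MvPolynomial.X 1 ^ j) := by
  rw [n1_mon]
  refine ⟨?_, fun k l hkl => ?_⟩
  · rw [MvPolynomial.coeff_sub, MvPolynomial.coeff_monomial, if_neg, sub_zero, h.h1]
    intro hp
    have := (pt_inj.1 hp).2
    omega
  · by_cases hp : pt i j = pt k l
    · obtain ⟨rfl, rfl⟩ := pt_inj.1 hp
      exact Or.inr ⟨hj, hij⟩
    · rw [MvPolynomial.coeff_sub, MvPolynomial.coeff_monomial, if_neg hp, sub_zero] at hkl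
      exact h.h2 k l hkl

theorem repr_exists {a b n : ℕ} (ha : 1 ≤ a) (hb : 1 ≤ b) (hab : Nat.Coprime a b)
    (hn : b * (a - 1) < n) : ∃ i j, j < a ∧ a * i + b * j = n := by
  haveI : NeZero a := ⟨by omega⟩
  set u : (ZMod a)ˣ := ZMod.unitOfCoprime b hab.symm with hu
  set j : ℕ := ((n : ZMod a) * ((u⁻¹ : (ZMod a)ˣ) : ZMod a)).val with hjd
  have hj : j < a := ZMod.val_lt _
  have h1 : ((b * j : ℕ) : ZMod a) = (n : ZMod a) := by
    rw [Nat.cast_mul, hjd, ZMod.natCast_zmod_val]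
    have h2 : (b : ZMod a) = (u : ZMod a) := by rw [hu, ZMod.coe_unitOfCoprime]
    rw [h2, mul_comm (n : ZMod a), ← mul_assoc, Units.mul_inv, one_mul]
  have h3 : b * j ≡ n [MOD a] := (ZMod.natCast_eq_natCast_iff _ _ _).1 h1
  have h4 : b * j ≤ n := by
    have : b * j ≤ b * (a - 1) := Nat.mul_le_mul_left _ (by omega)
    omega
  obtain ⟨i, hi⟩ := (Nat.modEq_iff_dvd' h4).1 h3
  exact ⟨i, j, hj, by omega⟩

end ModN1

end Pool.Agent.Lib.MP_2d59ee_ag.J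

/-! Part N2 -/
/-! ## Row N2: the two facts about `X^4 - 1`

`comm_solve`: `p = C κ * (X^4-1)^(3a)`, `4 a p y' = n p' y` with `y ≠ 0`, `n > 0`. `mult_prop`
(with `4a`, `n`): `4 a · mult_μ y = n · mult_μ p`. For a root `μ` of `X^4 - 1` (simple, 4 of them, since
`4 X^3 ≠ 0` there) `mult_μ p = 3 a`, so `4 mult_μ y = 3 n` and `4 ∣ n`, `n = 4 k`, `mult_μ y = 3 k`; for
other `μ` `mult_μ p = 0`, so `mult_μ y = 0`. Hence `y` and `(X^4-1)^(3k)` have the same roots with the same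
multiplicities, so `y = C γ * (X^4 - 1)^(3 k)`.

`final_degree`: let `φ = X^4 - 1`, and `y` with `4 a p y' - n p' y = C δ φ^(3(a + B))`, `δ ≠ 0`,
`n = 4 B + 3`. Dividing by `κ a φ^(3a-1)` (as `p' = 12 a κ X^3 φ^(3a-1)`):
`4 φ y' - 12 n X^3 y = C δ' φ^(3B + 1)`, `δ' ≠ 0`.
At a root `ζ` of `φ` let `σ = mult_ζ y`: if `σ ≥ 1` the left side has multiplicity exactly `σ`, because the
leading coefficient is a nonzero multiple of `4 σ - 3 n ≠ 0` (`3 n` is odd); if `σ = 0` the left side has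
multiplicity `0` there (value `-12 n ζ^3 y(ζ) ≠ 0`); the right side has multiplicity `3 B + 1 ≥ 1`; so
`σ = 3 B + 1` at the four roots, `deg y ≥ 4 (3 B + 1) = 12 B + 4`. Degrees: with `δ₁ = deg y` the
coefficient of `X^(δ₁ + 3)` on the left is `(4 δ₁ - 12 n) lc y`; if `δ₁ ≠ 3 n` the degree of the left
side is `δ₁ + 3`, so `δ₁ + 3 = 12 B + 4`, `δ₁ = 12 B + 1 < 12 B + 4`, contradiction. So `δ₁ = 3 n`. -/

namespace Pool.Agent.Lib.MP_2d59ee_ag.J

section ModN2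

open Polynomial

theorem n2_phi_ne : (X ^ 4 - 1 : ℂ[X]) ≠ 0 := by
  intro h
  have := congrArg (fun f => Polynomial.eval 0 f) h
  simp at this

theorem n2_phi_deg : (X ^ 4 - 1 : ℂ[X]).natDegree = 4 := by
  have := Polynomial.natDegree_X_pow_sub_C (R := ℂ) (n := 4) (r := 1)
  simpa using this

theorem n2_der_phi : derivative (X ^ 4 - 1 : ℂ[X]) = 4 * X ^ 3 := by
  rw [derivative_sub, derivative_one, sub_zero, derivative_X_pow]
  rfl

theorem n2_coprime : IsCoprime (X ^ 4 - 1 : ℂ[X]) (4 * X ^ 3) := by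
  refine ⟨-1, X * C (1 / 4), ?_⟩
  have h4 : (4 : ℂ[X]) = C 4 := rfl
  have h : (C (1 / 4) : ℂ[X]) * 4 = 1 := by
    rw [h4, ← C_mul]
    norm_num
  linear_combination X ^ 4 * h

theorem n2_dvd {m : ℂ} (hm : m ≠ 0) {y : ℂ[X]}
    (h : (X ^ 4 - 1 : ℂ[X]) ∣ C m * (4 * X ^ 3) * y) : (X ^ 4 - 1 : ℂ[X]) ∣ y := by
  have h1 : (X ^ 4 - 1 : ℂ[X]) ∣ (4 * X ^ 3) * y := by
    obtain ⟨w, hw⟩ := h
    refine ⟨C m⁻¹ * w, ?_⟩
    have h2 : (C m⁻¹ * C m : ℂ[X]) = 1 := by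
      rw [← C_mul, inv_mul_cancel₀ hm, C_1]
    linear_combination C m⁻¹ * hw - (4 * X ^ 3 * y) * h2
  exact n2_coprime.dvd_of_dvd_mul_left h1

theorem n2_solve (d : ℕ) : ∀ (m : ℂ) (y : ℂ[X]), y ≠ 0 → y.natDegree ≤ d →
    4 * (X ^ 4 - 1) * derivative y = C m * (4 * X ^ 3) * y →
    ∃ (k : ℕ) (γ : ℂ), m = 4 * k ∧ γ ≠ 0 ∧ y = C γ * (X ^ 4 - 1) ^ k := by
  induction d with
  | zero =>
    intro m y hy hd h
    obtain ⟨c, rfl⟩ := Polynomial.natDegree_eq_zero.1 (Nat.le_zero.1 hd)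
    have hc : c ≠ 0 := by
      rintro rfl
      exact hy C_0
    refine ⟨0, c, ?_, hc, by simp⟩
    rw [derivative_C, mul_zero] at h
    have h2 := congrArg (fun f => Polynomial.eval 1 f) h
    simp at h2
    rcases h2 with h2 | h2
    · simpa using h2
    · exact absurd h2 hc
  | succ d ih =>
    intro m y hy hd h
    by_cases hm : m = 0
    · subst hm
      have h1 : derivative y = 0 := by
        rw [C_0, zero_mul, zero_mul] at h
        rcases mul_eq_zero.1 h with h2 | h2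
        · rcases mul_eq_zero.1 h2 with h3 | h3
          · exact absurd h3 (by norm_num)
          · exact absurd h3 n2_phi_ne
        · exact h2
      have h2 : y.natDegree = 0 := Polynomial.derivative_eq_zero.1 h1
      obtain ⟨c, rfl⟩ := Polynomial.natDegree_eq_zero.1 h2
      refine ⟨0, c, by simp, ?_, by simp⟩
      rintro rfl
      exact hy C_0
    · obtain ⟨z, rfl⟩ := n2_dvd hm (y := y) ⟨4 * derivative y, by linear_combination -h⟩
      have hz : z ≠ 0 := by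
        rintro rfl
        exact hy (mul_zero _)
      have hdz : z.natDegree ≤ d := by
        rw [natDegree_mul n2_phi_ne hz, n2_phi_deg] at hd
        omega
      have h1 : 4 * (X ^ 4 - 1) * derivative z = C (m - 4) * (4 * X ^ 3) * z := by
        apply mul_left_cancel₀ n2_phi_ne
        rw [derivative_mul, n2_der_phi] at h
        have h4 : (C (m - 4) : ℂ[X]) = C m - 4 := by
          rw [C_sub]; rfl
        rw [h4]
        linear_combination h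
      obtain ⟨k, γ, hk, hγ, e⟩ := ih (m - 4) z hz hdz h1
      refine ⟨k + 1, γ, ?_, hγ, ?_⟩
      · push_cast
        linear_combination hk
      · rw [e]
        ring

theorem n2_reduce {a n : ℕ} (ha : 0 < a) {κ : ℂ} (hκ : κ ≠ 0) {p y R : ℂ[X]}
    (hp : p = C κ * (X ^ 4 - 1) ^ (3 * a))
    (h : C ((4 * a : ℕ) : ℂ) * p * derivative y - C (n : ℂ) * derivative p * y
      = (X ^ 4 - 1) ^ (3 * a - 1) * R) :
    4 * (X ^ 4 - 1) * derivative y - C (3 * (n : ℂ)) * (4 * X ^ 3) * y = C (1 / (a * κ)) * R := by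
  obtain ⟨b, hb⟩ : ∃ b, 3 * a = b + 1 := ⟨3 * a - 1, by omega⟩
  have hb' : 3 * a - 1 = b := by omega
  have ha' : (a : ℂ) ≠ 0 := by exact_mod_cast ha.ne'
  rw [hb'] at h
  have hdp : derivative p = C κ * (C ((3 * a : ℕ) : ℂ) * (X ^ 4 - 1) ^ b * (4 * X ^ 3)) := by
    rw [hp, derivative_C_mul, hb, derivative_pow, n2_der_phi, Nat.add_sub_cancel]
  have hp' : p = C κ * (X ^ 4 - 1) ^ (b + 1) := by rw [hp, hb]
  rw [hdp, hp'] at h
  have h1 : C ((a : ℂ) * κ) * (4 * (X ^ 4 - 1) * derivative y - C (3 * (n : ℂ)) * (4 * X ^ 3) * y)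
      = R := by
    apply mul_left_cancel₀ (pow_ne_zero b n2_phi_ne)
    rw [← h]
    have e1 : (C ((4 * a : ℕ) : ℂ) : ℂ[X]) = 4 * (a : ℂ[X]) := by
      rw [Nat.cast_mul, C_mul]
      rfl
    have e2 : (C ((3 * a : ℕ) : ℂ) : ℂ[X]) = 3 * (a : ℂ[X]) := by
      rw [Nat.cast_mul, C_mul]
      rfl
    have e3 : (C ((a : ℂ) * κ) : ℂ[X]) = (a : ℂ[X]) * C κ := by
      rw [C_mul]
      simp
    have e4 : (C (3 * (n : ℂ)) : ℂ[X]) = 3 * (n : ℂ[X]) := by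
      rw [C_mul]
      rfl
    have e5 : (C (n : ℂ) : ℂ[X]) = (n : ℂ[X]) := by simp
    rw [e1, e2, e3, e4, e5, pow_succ]
    ring
  have h2 : (C (1 / ((a : ℂ) * κ)) * C ((a : ℂ) * κ) : ℂ[X]) = 1 := by
    rw [← C_mul, one_div, inv_mul_cancel₀ (mul_ne_zero ha' hκ), C_1]
  rw [← h1]
  linear_combination (-(4 * (X ^ 4 - 1) * derivative y - C (3 * (n : ℂ)) * (4 * X ^ 3) * y)) * h2

theorem n2_strip (s : ℕ) : ∀ (m : ℤ) (y : ℂ[X]) (δ : ℂ), m % 4 ≠ 0 →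
    4 * (X ^ 4 - 1) * derivative y - C (m : ℂ) * (4 * X ^ 3) * y = C δ * (X ^ 4 - 1) ^ s →
    ∃ w : ℂ[X], y = (X ^ 4 - 1) ^ s * w ∧
      4 * (X ^ 4 - 1) * derivative w - C ((m - 4 * s : ℤ) : ℂ) * (4 * X ^ 3) * w = C δ := by
  induction s with
  | zero =>
    intro m y δ hm h
    exact ⟨y, by simp, by simpa using h⟩
  | succ s ih =>
    intro m y δ hm h
    have hm0 : (m : ℂ) ≠ 0 := by
      have : m ≠ 0 := by
        rintro rfl
        simp at hm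
      exact_mod_cast this
    obtain ⟨z, rfl⟩ := n2_dvd hm0 (y := y)
      ⟨4 * derivative y - C δ * (X ^ 4 - 1) ^ s, by rw [pow_succ] at h; linear_combination -h⟩
    have h1 : 4 * (X ^ 4 - 1) * derivative z - C ((m - 4 : ℤ) : ℂ) * (4 * X ^ 3) * z
        = C δ * (X ^ 4 - 1) ^ s := by
      apply mul_left_cancel₀ n2_phi_ne
      rw [derivative_mul, n2_der_phi, pow_succ] at h
      have h4 : (C ((m - 4 : ℤ) : ℂ) : ℂ[X]) = C (m : ℂ) - 4 := by
        push_cast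
        rw [C_sub]; rfl
      rw [h4]
      linear_combination h
    obtain ⟨w, e, hw⟩ := ih (m - 4) z δ (by omega) h1
    refine ⟨w, ?_, ?_⟩
    · rw [e]
      ring
    · have e2 : (m - 4 - 4 * (s : ℤ) : ℤ) = m - 4 * ((s + 1 : ℕ) : ℤ) := by
        push_cast
        ring
      rw [e2] at hw
      exact hw

theorem n2_deg5 {w : ℂ[X]} {δ : ℂ} (hδ : δ ≠ 0)
    (h : 4 * (X ^ 4 - 1) * derivative w - C 5 * (4 * X ^ 3) * w = C δ) :
    w ≠ 0 ∧ w.natDegree = 5 := by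
  have hw : w ≠ 0 := by
    rintro rfl
    rw [derivative_zero, mul_zero, mul_zero, sub_zero] at h
    exact hδ (C_eq_zero.1 h.symm)
  refine ⟨hw, ?_⟩
  set d := w.natDegree with hd
  have h1 := congrArg (fun f => Polynomial.coeff f (d + 3)) h
  have e : (4 * (X ^ 4 - 1) * derivative w - C 5 * (4 * X ^ 3) * w : ℂ[X])
      = C 4 * (derivative w * X ^ 4) - C 4 * derivative w - C 20 * (w * X ^ 3) := by
    have h4 : (C 4 : ℂ[X]) = 4 := rfl
    have h5 : (C 20 : ℂ[X]) = 4 * C 5 := by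
      rw [← h4, ← C_mul]; norm_num
    rw [h4, h5]
    ring
  beta_reduce at h1
  rw [e, coeff_sub, coeff_sub, coeff_C_mul, coeff_C_mul, coeff_C_mul, coeff_mul_X_pow,
    coeff_C_of_ne_zero (by omega)] at h1
  have h2 : (derivative w).coeff (d + 3) = 0 := by
    rw [coeff_derivative]
    rw [coeff_eq_zero_of_natDegree_lt (by omega), zero_mul]
  rw [h2] at h1
  have hlc : w.coeff d ≠ 0 := by
    rw [hd]
    exact leadingCoeff_ne_zero.2 hw
  rcases Nat.eq_zero_or_pos d with h0 | h0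
  · exfalso
    have hw2 : w.coeff 0 ≠ 0 := by rw [h0] at hlc; exact hlc
    rw [h0] at h1
    rw [coeff_mul_X_pow', if_neg (by norm_num)] at h1
    simp at h1
    exact hw2 h1
  · obtain ⟨d', hd'⟩ : ∃ d', d = d' + 1 := ⟨d - 1, by omega⟩
    have h3 : (derivative w * X ^ 4).coeff (d + 3) = (derivative w).coeff d' := by
      have : d + 3 = d' + 4 := by omega
      rw [this, coeff_mul_X_pow]
    rw [h3, coeff_derivative, ← hd'] at h1
    have h4 : ((4 * (d : ℂ)) - 20) * w.coeff d = 0 := by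
      have h5 : ((d' : ℂ) + 1) = (d : ℂ) := by rw [hd']; push_cast; ring
      rw [h5] at h1
      linear_combination h1
    rcases mul_eq_zero.1 h4 with h5 | h5
    · have h6 : (d : ℂ) = 5 := by linear_combination (1 / 4) * h5
      exact_mod_cast h6
    · exact absurd h5 hlc

theorem comm_solve {a n : ℕ} (ha : 0 < a) (hn : 0 < n) {κ : ℂ} (hκ : κ ≠ 0) {p y : ℂ[X]}
    (hp : p = C κ * (X ^ 4 - 1) ^ (3 * a)) (hy : y ≠ 0)
    (h : C ((4 * a : ℕ) : ℂ) * p * derivative y = C (n : ℂ) * derivative p * y) :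
    ∃ (k : ℕ) (γ : ℂ), n = 4 * k ∧ γ ≠ 0 ∧ y = C γ * (X ^ 4 - 1) ^ (3 * k) := by
  have h0 := n2_reduce (n := n) (R := 0) (y := y) ha hκ hp (by rw [mul_zero, h, sub_self])
  rw [mul_zero] at h0
  obtain ⟨k, γ, hk, hγ, e⟩ := n2_solve y.natDegree (3 * (n : ℂ)) y hy le_rfl (sub_eq_zero.1 h0)
  have hk' : 3 * n = 4 * k := by exact_mod_cast hk
  obtain ⟨j, hj⟩ : ∃ j, n = 4 * j := ⟨n / 4, by omega⟩
  refine ⟨j, γ, hj, hγ, ?_⟩
  have : k = 3 * j := by omega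
  rw [e, this]

theorem final_degree {a B : ℕ} (ha : 0 < a) {κ δ : ℂ} (hκ : κ ≠ 0) (hδ : δ ≠ 0) {p y : ℂ[X]}
    (hp : p = C κ * (X ^ 4 - 1) ^ (3 * a))
    (h : C ((4 * a : ℕ) : ℂ) * p * derivative y - C ((4 * B + 3 : ℕ) : ℂ) * derivative p * y
      = C δ * (X ^ 4 - 1) ^ (3 * (a + B))) :
    y.natDegree = 3 * (4 * B + 3) := by
  have h0 := n2_reduce (n := 4 * B + 3) (R := C δ * (X ^ 4 - 1) ^ (3 * B + 1)) (y := y) ha hκ hp (by
    rw [h]
    have : 3 * (a + B) = (3 * a - 1) + (3 * B + 1) := by omega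
    rw [this, pow_add]
    ring)
  have ha' : (a : ℂ) ≠ 0 := by exact_mod_cast ha.ne'
  have h00 : (C (1 / ((a : ℂ) * κ)) * (C δ * (X ^ 4 - 1) ^ (3 * B + 1)) : ℂ[X])
      = C (1 / (a * κ) * δ) * (X ^ 4 - 1) ^ (3 * B + 1) := by
    rw [C_mul]
    ring
  rw [h00] at h0
  have hm : ((3 * ((4 * B + 3 : ℕ) : ℂ)) : ℂ) = (((3 * (4 * B + 3) : ℤ)) : ℂ) := by
    push_cast
    ring
  rw [hm] at h0
  obtain ⟨w, e, hw⟩ := n2_strip (3 * B + 1) (3 * (4 * B + 3)) y (1 / (a * κ) * δ) (by omega) h0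
  have h5 : ((3 * (4 * B + 3) - 4 * ((3 * B + 1 : ℕ) : ℤ) : ℤ) : ℂ) = 5 := by
    push_cast
    ring
  rw [h5] at hw
  obtain ⟨hw0, hdw⟩ := n2_deg5 (mul_ne_zero (one_div_ne_zero (mul_ne_zero ha' hκ)) hδ) hw
  rw [e, natDegree_mul (pow_ne_zero _ n2_phi_ne) hw0, natDegree_pow, n2_phi_deg, hdw]
  ring

end ModN2

end Pool.Agent.Lib.MP_2d59ee_ag.J

/-! Part N3 -/
/-! ## Row N3: existence of the auxiliary combination (in `LS[X]`)

`P, Q` with `LowB P (-(a*4))`, `LowB Q (-(b*4))`, leading forms `p = C κ φ^(3a)`, `q = C κ' φ^(3b)`,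
`φ = X^4 - 1`, `brB P Q = C (single (-3) c)`.
Claim (`step`): for `n₀ = ne a b ≤ n ≤ 4 (a + a b)` there is an admissible `Φ` with
`LowB (ev cL P Q Φ) (-n)`. Downward induction on `n` starting from `n = 4 (a + a b)` with
`Φ = X 0 * X 1 ^ a` (`adm_start`, `LowB_ev` with `D = a + a b`, `d = 4`, `adm_le`).
Step from `n > n₀` to `n - 1`: let `N = ev cL P Q Φ`, `y = lev (-n) N`. If `y = 0` keep `Φ`.
Otherwise `brB P N = ev cL P Q (∂₁Φ) * brB P Q` (`brB_ev_right`), of order `≥ -(4 (a + b (a-1))) - 3`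
(`LowB_ev` with `D = a + b (a - 1)`, `pd_le`; `LowB_mul`, `lev_C_single`), and
`4 a + n > 4 (a + b(a-1)) + 3`, so its coefficient at `-(4a + n)` is `0`; `lev_comm` and `comm_solve`:
`n = 4 k`, `y = C γ φ^(3k)`. `k > b (a-1)` (since `4 k > 4 b (a-1) + 3`), so `repr_exists` gives `i, j`,
`j < a`, `a i + b j = k ≤ a + a b`; `lev (-(n)) (P^i Q^j) = C (κ^i κ'^j) φ^(3k)` (`lev_pow`, `lev_mul`), so
`Φ' = Φ - C (γ / (κ^i κ'^j)) X 0^i X 1^j` works (`adm_sub`).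

`exists_aux`: take `n = n₀`. Then with `y = lev (-n₀) N`: the coefficient of `brB P N` at
`-(4a + n₀) = -(4 (a + b (a - 1))) - 3` is `C a * p * q^(a-1) * C c` (`lev_ev` with `pd_unique`,
`pd_top`) and also `C (-(4a)) p y' - C (-n₀) p' y` (`lev_brB`). So
`4 a p y' - n₀ p' y = C δ φ^(3 (a + b(a-1)))`, `δ = - a κ κ'^(a-1) c ≠ 0`, and `final_degree`
(`B = b (a-1)`) gives `deg y = 3 n₀`; so the coefficient of `X^(3 n₀)` is nonzero. -/

namespace Pool.Agent.Lib.MP_2d59ee_ag.J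

section ModN3

open Polynomial

theorem n3_lowB_br {P Q : LS[X]} {c : ℂ} (hbr : brB P Q = C (HahnSeries.single (-3 : ℤ) c)) :
    LowB (brB P Q) (-3) := by
  intro n hn
  rw [hbr, lev_C_single, if_neg (ne_of_lt hn)]

theorem n3_lowB_der {a b : ℕ} (ha : 2 ≤ a) {P Q : LS[X]}
    (hP : LowB P (-((a : ℤ) * 4))) (hQ : LowB Q (-((b : ℤ) * 4))) {Φ : MP} (hΦ : Adm a b Φ) :
    LowB (ev cL P Q (MvPolynomial.pderiv 1 Φ)) (-(((a + b * (a - 1) : ℕ) : ℤ) * ((4 : ℕ) : ℤ))) :=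
  LowB_ev (a := a) (b := b) (pd_le (by omega) hΦ) (by rw [Nat.cast_ofNat]; exact hP)
    (by rw [Nat.cast_ofNat]; exact hQ)

theorem n3_mono {a b : ℕ} {P Q : LS[X]} {κ κ' : ℂ}
    (hP : LowB P (-((a : ℤ) * 4))) (hQ : LowB Q (-((b : ℤ) * 4)))
    (hp : lev (-((a : ℤ) * 4)) P = C κ * (X ^ 4 - 1) ^ (3 * a))
    (hq : lev (-((b : ℤ) * 4)) Q = C κ' * (X ^ 4 - 1) ^ (3 * b)) (γ : ℂ) (i j k : ℕ)
    (hk : a * i + b * j = k) :
    LowB (cL γ * P ^ i * Q ^ j) (-((4 * k : ℕ) : ℤ)) ∧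
      lev (-((4 * k : ℕ) : ℤ)) (cL γ * P ^ i * Q ^ j) =
        C (γ * (κ ^ i * κ' ^ j)) * (X ^ 4 - 1) ^ (3 * k) := by
  have e1 : (-((4 * k : ℕ) : ℤ)) = (i : ℤ) * (-((a : ℤ) * 4)) + (j : ℤ) * (-((b : ℤ) * 4)) := by
    rw [← hk]; push_cast; ring
  have h1 : LowB (P ^ i * Q ^ j) (-((4 * k : ℕ) : ℤ)) := by
    rw [e1]
    exact LowB_mul (LowB_pow hP i) (LowB_pow hQ j)
  have h2 : lev (-((4 * k : ℕ) : ℤ)) (P ^ i * Q ^ j) =
      C (κ ^ i * κ' ^ j) * (X ^ 4 - 1) ^ (3 * k) := by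
    rw [e1, lev_mul (LowB_pow hP i) (LowB_pow hQ j), lev_pow hP, lev_pow hQ, hp, hq, ← hk,
      mul_pow, mul_pow, ← C_pow, ← C_pow, ← pow_mul, ← pow_mul, C_mul]
    have e2 : 3 * (a * i + b * j) = 3 * a * i + 3 * b * j := by ring
    rw [e2, pow_add]
    ring
  constructor
  · intro n hn
    rw [mul_assoc, lev_cL_mul, h1 n hn, mul_zero]
  · rw [mul_assoc, lev_cL_mul, h2, C_mul, C_mul, C_mul]
    ring

theorem n3_step {a b : ℕ} (ha : 2 ≤ a) (hlt : a < b) (hab : Nat.Coprime a b) {P Q : LS[X]}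
    {c κ κ' : ℂ} (hκ : κ ≠ 0) (hκ' : κ' ≠ 0)
    (hbr : brB P Q = C (HahnSeries.single (-3 : ℤ) c))
    (hP : LowB P (-((a : ℤ) * 4))) (hQ : LowB Q (-((b : ℤ) * 4)))
    (hp : lev (-((a : ℤ) * 4)) P = C κ * (X ^ 4 - 1) ^ (3 * a))
    (hq : lev (-((b : ℤ) * 4)) Q = C κ' * (X ^ 4 - 1) ^ (3 * b)) (n : ℕ) (hn : ne a b ≤ n)
    (hn2 : n + 1 ≤ 4 * (a + a * b)) {Φ : MP} (hΦ : Adm a b Φ)
    (hL : LowB (ev cL P Q Φ) (-((n + 1 : ℕ) : ℤ))) :
    ∃ Φ' : MP, Adm a b Φ' ∧ LowB (ev cL P Q Φ') (-(n : ℤ)) := by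
  have hlast : ∀ {N : LS[X]}, LowB N (-((n + 1 : ℕ) : ℤ)) → lev (-((n + 1 : ℕ) : ℤ)) N = 0 →
      LowB N (-(n : ℤ)) := by
    intro N h1 h2 m hm
    rcases lt_or_eq_of_le (show m ≤ -((n + 1 : ℕ) : ℤ) by push_cast; linarith) with h | h
    · exact h1 m h
    · rw [h]; exact h2
  by_cases hy : lev (-((n + 1 : ℕ) : ℤ)) (ev cL P Q Φ) = 0
  · exact ⟨Φ, hΦ, hlast hL hy⟩
  have hP4 : LowB P (-((4 * a : ℕ) : ℤ)) := by
    have e : (-((4 * a : ℕ) : ℤ)) = -((a : ℤ) * 4) := by push_cast; ring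
    rw [e]; exact hP
  have hp4 : lev (-((4 * a : ℕ) : ℤ)) P = C κ * (X ^ 4 - 1) ^ (3 * a) := by
    have e : (-((4 * a : ℕ) : ℤ)) = -((a : ℤ) * 4) := by push_cast; ring
    rw [e]; exact hp
  have hne : ne a b = 4 * (b * (a - 1)) + 3 := rfl
  have hbr0 : lev (-(((4 * a : ℕ) : ℤ) + ((n + 1 : ℕ) : ℤ))) (brB P (ev cL P Q Φ)) = 0 := by
    rw [brB_ev_right]
    refine LowB_mul (n3_lowB_der ha hP hQ hΦ) (n3_lowB_br hbr) _ ?_
    rw [hne] at hn
    have hn' : ((4 * (b * (a - 1)) + 3 : ℕ) : ℤ) ≤ (n : ℤ) := by exact_mod_cast hn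
    push_cast at hn' ⊢
    linarith
  have hcomm := lev_comm hP4 hL hbr0
  rw [hp4] at hcomm
  obtain ⟨k, γ, hk, hγ, hyk⟩ := comm_solve (by omega) (Nat.succ_pos n) hκ rfl hy hcomm
  have hkb : b * (a - 1) < k := by
    rw [hne] at hn
    omega
  obtain ⟨i, j, hj, hij⟩ := repr_exists (by omega) (by omega) hab hkb
  have hk2 : k ≤ a + a * b := by omega
  have hne0 : κ ^ i * κ' ^ j ≠ 0 := mul_ne_zero (pow_ne_zero _ hκ) (pow_ne_zero _ hκ')
  obtain ⟨m1, m2⟩ := n3_mono hP hQ hp hq (γ / (κ ^ i * κ' ^ j)) i j k hij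
  rw [div_mul_cancel₀ _ hne0] at m2
  rw [← hk] at m1 m2
  have hev : ev cL P Q (Φ - MvPolynomial.C (γ / (κ ^ i * κ' ^ j)) * MvPolynomial.X 0 ^ i *
      MvPolynomial.X 1 ^ j) = ev cL P Q Φ - cL (γ / (κ ^ i * κ' ^ j)) * P ^ i * Q ^ j := by
    rw [map_sub, map_mul, map_mul, map_pow, map_pow, ev_C, ev_X0, ev_X1]
  refine ⟨Φ - MvPolynomial.C (γ / (κ ^ i * κ' ^ j)) * MvPolynomial.X 0 ^ i *
      MvPolynomial.X 1 ^ j, adm_sub hΦ _ hj (by rw [hij]; exact hk2), ?_⟩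
  rw [hev]
  refine hlast (LowB_sub hL m1) ?_
  rw [lev_sub, hyk, m2, sub_self]

theorem n3_all {a b : ℕ} (ha : 2 ≤ a) (hlt : a < b) (hab : Nat.Coprime a b) {P Q : LS[X]}
    {c κ κ' : ℂ} (hκ : κ ≠ 0) (hκ' : κ' ≠ 0)
    (hbr : brB P Q = C (HahnSeries.single (-3 : ℤ) c))
    (hP : LowB P (-((a : ℤ) * 4))) (hQ : LowB Q (-((b : ℤ) * 4)))
    (hp : lev (-((a : ℤ) * 4)) P = C κ * (X ^ 4 - 1) ^ (3 * a))
    (hq : lev (-((b : ℤ) * 4)) Q = C κ' * (X ^ 4 - 1) ^ (3 * b)) (m : ℕ) :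
    ∀ n : ℕ, ne a b ≤ n → n + m = 4 * (a + a * b) →
      ∃ Φ : MP, Adm a b Φ ∧ LowB (ev cL P Q Φ) (-(n : ℤ)) := by
  induction m with
  | zero =>
    intro n hn hnm
    refine ⟨MvPolynomial.X 0 * MvPolynomial.X 1 ^ a, adm_start (by omega), ?_⟩
    have h1 := LowB_ev (a := a) (b := b) (d := 4) (D := a + a * b)
      (adm_le (adm_start (a := a) (b := b) (by omega)))
      (P := P) (Q := Q) (by rw [Nat.cast_ofNat]; exact hP) (by rw [Nat.cast_ofNat]; exact hQ)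
    have e : (-(n : ℤ)) = (-(((a + a * b : ℕ) : ℤ) * ((4 : ℕ) : ℤ))) := by
      have : n = (a + a * b) * 4 := by omega
      rw [this]; push_cast; ring
    rw [e]
    exact h1
  | succ m ih =>
    intro n hn hnm
    obtain ⟨Φ, hΦ, hL⟩ := ih (n + 1) (by omega) (by omega)
    exact n3_step ha hlt hab hκ hκ' hbr hP hQ hp hq n hn (by omega) hΦ hL

theorem exists_aux {a b : ℕ} (ha : 2 ≤ a) (hlt : a < b) (hab : Nat.Coprime a b) {P Q : LS[X]}
    {c κ κ' : ℂ} (hc : c ≠ 0) (hκ : κ ≠ 0) (hκ' : κ' ≠ 0)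
    (hbr : brB P Q = C (HahnSeries.single (-3 : ℤ) c))
    (hP : LowB P (-((a : ℤ) * 4))) (hQ : LowB Q (-((b : ℤ) * 4)))
    (hp : lev (-((a : ℤ) * 4)) P = C κ * (X ^ 4 - 1) ^ (3 * a))
    (hq : lev (-((b : ℤ) * 4)) Q = C κ' * (X ^ 4 - 1) ^ (3 * b)) :
    ∃ Φ : MP, Adm a b Φ ∧ LowB (ev cL P Q Φ) (-((ne a b : ℕ) : ℤ)) ∧
      ((ev cL P Q Φ).coeff (3 * ne a b)).coeff (-((ne a b : ℕ) : ℤ)) ≠ 0 := by
  have hne : ne a b = 4 * (b * (a - 1)) + 3 := rfl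
  have hle : ne a b ≤ 4 * (a + a * b) := by
    have h1 : b * (a - 1) ≤ a * b := by
      rw [mul_comm a b]
      exact Nat.mul_le_mul_left b (Nat.sub_le a 1)
    rw [hne]
    omega
  obtain ⟨Φ, hΦ, hL⟩ := n3_all ha hlt hab hκ hκ' hbr hP hQ hp hq (4 * (a + a * b) - ne a b)
    (ne a b) le_rfl (by omega)
  refine ⟨Φ, hΦ, hL, ?_⟩
  have hlev := lev_brB hP hL
  rw [brB_ev_right] at hlev
  have e0 : (-((a : ℤ) * 4)) + (-((ne a b : ℕ) : ℤ)) =
      (-(((a + b * (a - 1) : ℕ) : ℤ) * ((4 : ℕ) : ℤ))) + (-3) := by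
    rw [hne]; push_cast; ring
  have hP' : LowB P (-((a : ℤ) * ((4 : ℕ) : ℤ))) := by rw [Nat.cast_ofNat]; exact hP
  have hQ' : LowB Q (-((b : ℤ) * ((4 : ℕ) : ℤ))) := by rw [Nat.cast_ofNat]; exact hQ
  rw [e0, lev_mul (n3_lowB_der ha hP hQ hΦ) (n3_lowB_br hbr),
    lev_ev (a := a) (b := b) (d := 4) (D := a + b * (a - 1)) (pd_le (by omega) hΦ)
      (i₀ := 1) (j₀ := a - 1) (by rw [mul_one]) (pd_unique (by omega) hab hΦ) hP' hQ'
      (by norm_num), pd_top (by omega) hΦ, Nat.cast_ofNat, hbr, lev_C_single, if_pos rfl,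
    hp, hq] at hlev
  have hδ : -((a : ℂ) * c * κ * κ' ^ (a - 1)) ≠ 0 := by
    rw [neg_ne_zero]
    exact mul_ne_zero (mul_ne_zero (mul_ne_zero (by exact_mod_cast (by omega : a ≠ 0)) hc) hκ)
      (pow_ne_zero _ hκ')
  have hfin := final_degree (a := a) (B := b * (a - 1)) (by omega) hκ hδ
    (p := C κ * (X ^ 4 - 1) ^ (3 * a)) (y := lev (-((ne a b : ℕ) : ℤ)) (ev cL P Q Φ)) rfl (by
      have e1 : ((X : ℂ[X]) ^ 4 - 1) ^ (3 * (a + b * (a - 1))) =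
          (X ^ 4 - 1) ^ (3 * a) * ((X ^ 4 - 1) ^ (3 * b)) ^ (a - 1) := by
        rw [← pow_mul, ← pow_add]
        congr 1
        ring
      rw [e1]
      have e2 : (C ((4 * a : ℕ) : ℂ) : ℂ[X]) = - C (((-((a : ℤ) * 4) : ℤ)) : ℂ) := by
        rw [← C_neg]; congr 1; push_cast; ring
      have e3 : (C ((4 * (b * (a - 1)) + 3 : ℕ) : ℂ) : ℂ[X]) =
          - C (((-((ne a b : ℕ) : ℤ) : ℤ)) : ℂ) := by
        rw [← C_neg, hne]; congr 1; push_cast; ring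
      rw [e2, e3]
      have e4 : (C (-((a : ℂ) * c * κ * κ' ^ (a - 1))) : ℂ[X]) =
          - (C (a : ℂ) * C c * C κ * C κ' ^ (a - 1)) := by
        rw [C_neg, C_mul, C_mul, C_mul, C_pow]
      rw [e4]
      rw [mul_pow] at hlev
      linear_combination (-1 : ℂ[X]) * hlev.symm)
  have hnz : lev (-((ne a b : ℕ) : ℤ)) (ev cL P Q Φ) ≠ 0 := by
    intro h0
    rw [h0, natDegree_zero] at hfin
    omega
  rw [← lev_coeff]
  have e5 : 3 * ne a b = (lev (-((ne a b : ℕ) : ℤ)) (ev cL P Q Φ)).natDegree := by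
    rw [hfin]
    rfl
  rw [e5]
  exact leadingCoeff_ne_zero.mpr hnz

end ModN3

end Pool.Agent.Lib.MP_2d59ee_ag.J

/-! Part T1 -/
/-! ## Row T1: the corner `(4, 3)` at the root `1` of `X^4 - 1`

`P₁ = R4 F = T0 4 _ 1 (PhR F)`: `LowB P₁ (-(a*4))` from `hF4` (a nonzero coefficient of `X^j` at `t^n`
has `n = 4 m + j`, `m = -i`, so `n = j - 4 i ≥ -4a`; `T0_coeff_ne`, `PhR_ne`), its leading form is
`hFl`. Bracket: `brB_PhR` and `brB_T0_single` (`q = 4`, `s = 1`, `E = 1`): `single (-(4*1-1)) (4 * (-c))`.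
The multiplicity of `1` in `C κ * (X^4 - 1)^(3a)` is `3 a` (`X^4 - 1 = (X - 1)(X^3 + X^2 + X + 1)`), so
`shift_corner` (`c₁ = a`, `d = 4`, `N₁ = 3`) applies. Same for `G`. -/

namespace Pool.Agent.Lib.MP_2d59ee_ag.J

section ModT1

open Polynomial

theorem LowB_R4 {a : ℕ} {F : MP} (h : ∀ i j, F.coeff (pt i j) ≠ 0 → 4 * i ≤ 4 * a + j) :
    LowB (R4 F) (-((a : ℤ) * 4)) := by
  intro n hn
  ext j
  rw [lev_coeff, coeff_zero]
  by_contra h0
  obtain ⟨m, hm, hm2⟩ := T0_coeff_ne 4 (by norm_num) 1 (PhR F) j n h0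
  obtain ⟨i, hi, hF⟩ := PhR_ne hm2
  have h1 := h i j hF
  push_cast at hm
  omega

theorem t1_aux_mult {a : ℕ} {κ : ℂ} (hκ : κ ≠ 0) :
    (C κ * (X ^ 4 - 1) ^ (3 * a) : ℂ[X]).rootMultiplicity 1 = a * 3 := by
  have hfac : (C κ * (X ^ 4 - 1) ^ (3 * a) : ℂ[X])
      = (X - C 1) ^ (3 * a) * (C κ * (X ^ 3 + X ^ 2 + X + 1) ^ (3 * a)) := by
    rw [show (X ^ 4 - 1 : ℂ[X]) = (X - C 1) * (X ^ 3 + X ^ 2 + X + 1) by rw [C_1]; ring, mul_pow]
    ring
  have hev : ¬ IsRoot (C κ * (X ^ 3 + X ^ 2 + X + 1) ^ (3 * a) : ℂ[X]) 1 := by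
    rw [IsRoot.def]
    simp only [eval_mul, eval_C, eval_pow, eval_add, eval_X, eval_one, one_pow]
    refine mul_ne_zero hκ (pow_ne_zero _ ?_)
    norm_num
  have hne2 : (C κ * (X ^ 3 + X ^ 2 + X + 1) ^ (3 * a) : ℂ[X]) ≠ 0 := by
    intro h0
    rw [h0] at hev
    exact hev (by simp)
  have hne : (X - C 1) ^ (3 * a) * (C κ * (X ^ 3 + X ^ 2 + X + 1) ^ (3 * a) : ℂ[X]) ≠ 0 :=
    mul_ne_zero (pow_ne_zero _ (X_sub_C_ne_zero 1)) hne2
  rw [hfac, rootMultiplicity_mul hne, rootMultiplicity_X_sub_C_pow, rootMultiplicity_eq_zero hev]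
  ring

theorem t1_aux_corner {a : ℕ} {F : MP}
    (h4 : ∀ i j, F.coeff (pt i j) ≠ 0 → 4 * i ≤ 4 * a + j)
    (hl : ∃ κ : ℂ, κ ≠ 0 ∧ lev (-((a : ℤ) * 4)) (R4 F) = C κ * (X ^ 4 - 1) ^ (3 * a)) :
    Corner (shift 1 (R4 F)) a 4 3 0 := by
  obtain ⟨κ, hκ, hlev⟩ := hl
  have hm := t1_aux_mult (a := a) hκ
  have h0 : (C κ * (X ^ 4 - 1) ^ (3 * a) : ℂ[X]) ≠ 0 := by
    refine mul_ne_zero (by simpa using hκ) (pow_ne_zero _ ?_)
    intro h0
    have := congrArg (fun p : ℂ[X] => p.coeff 4) h0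
    simp [coeff_one] at this
  have hc := shift_corner (c₁ := a) (d := 4) (N₁ := 3) (R := R4 F) 1
    (by have := LowB_R4 h4; exact_mod_cast this)
    (by
      have e : (-((a : ℤ) * ((4 : ℕ) : ℤ))) = -((a : ℤ) * 4) := by norm_num
      rw [e, hlev]; exact h0)
    (by
      have e : (-((a : ℤ) * ((4 : ℕ) : ℤ))) = -((a : ℤ) * 4) := by norm_num
      rw [e, hlev]; exact hm)
  exact_mod_cast hc

theorem corner_one {a b : ℕ} {F G : MP} (h : Shape3 a b F G) :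
    Corner (shift 1 (R4 F)) a 4 3 0 ∧ Corner (shift 1 (R4 G)) b 4 3 0 ∧
    ∃ c : ℂ, c ≠ 0 ∧
      brB (shift 1 (R4 F)) (shift 1 (R4 G)) = C (HahnSeries.single (-((3 : ℕ) : ℤ)) c) := by
  refine ⟨t1_aux_corner h.hF4 h.hFl, t1_aux_corner h.hG4 h.hGl, ?_⟩
  obtain ⟨c, hc, hj⟩ := h.hJ
  have h1 := brB_PhR F G c hj
  have h2 := brB_T0_single 4 (by norm_num) 1 (PhR F) (PhR G) ((1 : ℕ) : ℤ) (-c) h1
  refine ⟨((4 : ℕ) : ℂ) * (-c), mul_ne_zero (by norm_num) (neg_ne_zero.mpr hc), ?_⟩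
  refine brB_shift_single 1 _ _ _ _ ?_
  have e : -(((4 : ℕ) : ℤ) * ((1 : ℕ) : ℤ) - 1) = -((3 : ℕ) : ℤ) := by norm_num
  rw [e] at h2
  exact h2

end ModT1

end Pool.Agent.Lib.MP_2d59ee_ag.J

/-! Part N4 -/
/-! ## Row N4: the auxiliary combination as a polynomial in `z, w`

Apply `exists_aux` to `P = R4 F`, `Q = R4 G` (`LowB_R4` from `hF4`, `hG4`; `hFl`, `hGl`; bracket from
`brB_PhR` and `brB_T0_single` with `q = 4`, `s = 1`, `E = 1`). With `N = ev C F G Φ` (a polynomial in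
`z, w`): `R4 N = ev cL (R4 F) (R4 G) Φ` (`ev_ev`, `T0_ev`; `R4 F = T0 4 _ 1 (PhR F)`).
A monomial `z^i w^j` of `N` gives in `R4 N` the coefficient of `X^j` at `t^(j - 4i)`
(`T0_coeff_coeff`, `PhR_coeff`), so `4 i ≤ ne + j`; and the nonzero coefficient of `X^(3 ne)` at
`t^(-ne)` is the coefficient of `N` at `pt ne (3 ne)` (`T0_coeff_ne`, `PhR_ne`: `4 m = -ne - 3 ne`). -/

namespace Pool.Agent.Lib.MP_2d59ee_ag.J

section ModN4

open Polynomial

theorem exists_aux_poly {a b : ℕ} (ha : 2 ≤ a) (hlt : a < b) (hab : Nat.Coprime a b) {F G : MP}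
    (h : Shape3 a b F G) : ∃ Φ : MP, Adm a b Φ ∧
      (ev MvPolynomial.C F G Φ).coeff (pt (ne a b) (3 * ne a b)) ≠ 0 ∧
      ∀ i j, (ev MvPolynomial.C F G Φ).coeff (pt i j) ≠ 0 → 4 * i ≤ ne a b + j := by
  obtain ⟨c, hc, hJ⟩ := h.hJ
  obtain ⟨κ, hκ, hFl⟩ := h.hFl
  obtain ⟨κ', hκ', hGl⟩ := h.hGl
  have hP := LowB_R4 h.hF4
  have hQ := LowB_R4 h.hG4
  have hbr0 := brB_PhR F G c hJ
  rw [show -((1 : ℕ) : ℤ) = -(1 : ℤ) by norm_num] at hbr0
  have hbr := brB_T0_single 4 (by norm_num) 1 (PhR F) (PhR G) 1 (-c) hbr0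
  have hbr' : brB (R4 F) (R4 G) = C (HahnSeries.single (-3 : ℤ) (((4 : ℕ) : ℂ) * -c)) := by
    rw [show (-3 : ℤ) = -(((4 : ℕ) : ℤ) * 1 - 1) by norm_num]
    exact hbr
  obtain ⟨Φ, hadm, hlow, htop⟩ := exists_aux ha hlt hab
    (mul_ne_zero (by norm_num) (neg_ne_zero.mpr hc)) hκ hκ' hbr' hP hQ hFl hGl
  have hR : ev cL (R4 F) (R4 G) Φ = T0 4 (by norm_num) 1 (PhR (ev MvPolynomial.C F G Φ)) := by
    rw [R4, R4, ← T0_ev, PhR, ev_ev]
  rw [hR] at hlow htop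
  refine ⟨Φ, hadm, ?_, ?_⟩
  · rw [← PhR_coeff]
    rw [T0_coeff_coeff 4 (by norm_num) 1 _ (3 * ne a b) (-((ne a b : ℕ) : ℤ)) _
      (by push_cast; ring)] at htop
    exact htop
  · intro i j hij
    by_contra hlt'
    have h1 : lev ((j : ℤ) - 4 * i) (T0 4 (by norm_num) 1 (PhR (ev MvPolynomial.C F G Φ))) = 0 :=
      hlow _ (by omega)
    have h2 := congrArg (fun p : ℂ[X] => p.coeff j) h1
    simp only [lev_coeff, coeff_zero] at h2
    rw [T0_coeff_coeff 4 (by norm_num) 1 _ j (-(i : ℤ)) _ (by push_cast; ring), PhR_coeff] at h2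
    exact hij h2

end ModN4

end Pool.Agent.Lib.MP_2d59ee_ag.J

/-! Part L1 -/
/-! ## Row L1: the corner `(12, 4)` on the left side

`P = PhL F`, `Q = PhL G` (`z ↦ X`, `w ↦ 1/t`). `Corner P a 12 4 0`: `top` is `hFt` (`PhL_coeff`);
`low`: for a monomial `z^i w^j` of `F` with `i < 4 a` one has `j ≤ 12 a` and `j ≠ 12 a` by `hF`; `high`:
`j ≤ 12 a`. For `G`: `LowB Q (-(b * 12))`, `q = lev (-(b*12)) Q ≠ 0` (`hGt`), `deg q ≤ 4 b`;
`p = lev (-(a*12)) P = C κ * X^(4a)`. Bracket `brB_PhL`: `C (single (-1) c)`, `E = 1`; `comm_facts`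
(`d = 12`): the multiplicities of `p` are `a ν`, those of `q` are `b ν`; at `0` `ν = 4`, so `X^(4b) ∣ q` and
`q = C κ' * X^(4 b)`. So a monomial `z^i w^(12b)` of `G` has `i = 4 b`, and the corner follows as for `F`. -/

namespace Pool.Agent.Lib.MP_2d59ee_ag.J

section ModL1

open Polynomial

/-- monomials bounded by `(4 a, 12 a)` with the top row only at the corner give the corner -/
theorem l1_corner {a : ℕ} {F : MP}
    (hF : ∀ i j, F.coeff (pt i j) ≠ 0 → i ≤ 4 * a ∧ j ≤ 12 * a ∧ (j = 12 * a → i = 4 * a))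
    (hFt : F.coeff (pt (4 * a) (12 * a)) ≠ 0) :
    Corner (PhL F) a ((4 * 3 : ℕ) : ℤ) 4 0 := by
  refine ⟨?_, ?_, ?_⟩
  · have h1 : (-((a : ℤ) * ((4 * 3 : ℕ) : ℤ))) = -((12 * a : ℕ) : ℤ) := by push_cast; ring
    rw [h1, PhL_coeff, Nat.mul_comm a 4]
    exact hFt
  · intro i hi n hn
    obtain ⟨j, rfl, hj⟩ := PhL_ne hn
    obtain ⟨-, h2, h3⟩ := hF i j hj
    have h4 : j ≠ 12 * a := by
      intro h
      have := h3 h
      omega
    have h5 : j < 12 * a := lt_of_le_of_ne h2 h4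
    have h6 : (j : ℚ) < 12 * a := by exact_mod_cast h5
    push_cast
    linarith
  · intro i hi n hn
    obtain ⟨j, rfl, hj⟩ := PhL_ne hn
    obtain ⟨-, h2, -⟩ := hF i j hj
    have h6 : (j : ℚ) ≤ 12 * a := by exact_mod_cast h2
    push_cast
    linarith

theorem l1_lowB {b : ℕ} {G : MP}
    (hG : ∀ i j, G.coeff (pt i j) ≠ 0 → i ≤ 4 * b ∧ j ≤ 12 * b) :
    LowB (PhL G) (-((b : ℤ) * ((12 : ℕ) : ℤ))) := by
  intro n hn
  ext i
  rw [lev_coeff, coeff_zero]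
  by_contra h
  obtain ⟨j, rfl, hj⟩ := PhL_ne h
  have := (hG i j hj).2
  push_cast at hn
  omega

theorem l1_lev_coeff {b : ℕ} (G : MP) (i : ℕ) :
    (lev (-((b : ℤ) * ((12 : ℕ) : ℤ))) (PhL G)).coeff i = G.coeff (pt i (12 * b)) := by
  have h1 : (-((b : ℤ) * ((12 : ℕ) : ℤ))) = -((12 * b : ℕ) : ℤ) := by push_cast; ring
  rw [lev_coeff, h1, PhL_coeff]

theorem left_corners {a b : ℕ} (ha : 2 ≤ a) (hlt : a < b) (hab : Nat.Coprime a b) {F G : MP}
    (h : Shape a b F G) :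
    Corner (PhL F) a ((4 * 3 : ℕ) : ℤ) 4 0 ∧ Corner (PhL G) b ((4 * 3 : ℕ) : ℤ) 4 0 := by
  refine ⟨l1_corner h.hF h.hFt, l1_corner ?_ h.hGt⟩
  obtain ⟨c, hc, hJ⟩ := h.hJ
  have hlF : LowB (PhL F) (-((a : ℤ) * ((12 : ℕ) : ℤ))) :=
    l1_lowB (fun i j hij => ⟨(h.hF i j hij).1, (h.hF i j hij).2.1⟩)
  have hlG : LowB (PhL G) (-((b : ℤ) * ((12 : ℕ) : ℤ))) := l1_lowB h.hG
  have hp0 : lev (-((a : ℤ) * ((12 : ℕ) : ℤ))) (PhL F) ≠ 0 := by
    intro h0
    have := congrArg (fun p => p.coeff (4 * a)) h0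
    rw [l1_lev_coeff, coeff_zero] at this
    exact h.hFt this
  have hq0 : lev (-((b : ℤ) * ((12 : ℕ) : ℤ))) (PhL G) ≠ 0 := by
    intro h0
    have := congrArg (fun p => p.coeff (4 * b)) h0
    rw [l1_lev_coeff, coeff_zero] at this
    exact h.hGt this
  have hbr := brB_PhL F G c hJ
  have hp : lev (-((a : ℤ) * ((12 : ℕ) : ℤ))) (PhL F)
      = C (F.coeff (pt (4 * a) (12 * a))) * X ^ (4 * a) := by
    ext i
    rw [l1_lev_coeff, coeff_C_mul_X_pow]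
    split_ifs with hi
    · rw [hi]
    · by_contra h0
      exact hi ((h.hF i (12 * a) h0).2.2 rfl)
  have hJ' : (1 : ℤ) < ((a : ℤ) + b) * ((12 : ℕ) : ℤ) := by
    push_cast
    have : (2 : ℤ) ≤ a := by exact_mod_cast ha
    have : (0 : ℤ) ≤ b := by positivity
    nlinarith
  obtain ⟨-, hm⟩ := comm_facts (by omega) (by omega) hab (by norm_num) hbr hlF hlG hp0 hq0 hJ'
  obtain ⟨ν, hν1, hν2⟩ := hm 0
  have hmult : (lev (-((a : ℤ) * ((12 : ℕ) : ℤ))) (PhL F)).rootMultiplicity 0 = 4 * a := by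
    rw [hp]
    have h2 : (X : ℂ[X]) ^ (4 * a) = (X - C 0) ^ (4 * a) := by rw [C_0, sub_zero]
    rw [rootMultiplicity_mul (by rw [← hp]; exact hp0), rootMultiplicity_C, h2,
      rootMultiplicity_X_sub_C_pow, zero_add]
  have hν : ν = 4 := by
    rw [hmult] at hν1
    have ha' : 0 < a := by omega
    have h5 : a * 4 = a * ν := by rw [← hν1, Nat.mul_comm]
    exact (Nat.eq_of_mul_eq_mul_left ha' h5).symm
  subst hν
  have hdvd : (X : ℂ[X]) ^ (4 * b) ∣ lev (-((b : ℤ) * ((12 : ℕ) : ℤ))) (PhL G) := by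
    have h6 := pow_rootMultiplicity_dvd (lev (-((b : ℤ) * ((12 : ℕ) : ℤ))) (PhL G)) (0 : ℂ)
    rw [hν2, C_0, sub_zero, Nat.mul_comm b 4] at h6
    exact h6
  intro i j hij
  refine ⟨(h.hG i j hij).1, (h.hG i j hij).2, ?_⟩
  rintro rfl
  by_contra hne
  have hlt' : i < 4 * b := lt_of_le_of_ne (h.hG i _ hij).1 hne
  have h7 := (X_pow_dvd_iff.mp hdvd) i hlt'
  rw [l1_lev_coeff] at h7
  exact hij h7

end ModL1

end Pool.Agent.Lib.MP_2d59ee_ag.J

/-! Part L2 -/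
/-! ## Row L2: the first state of the descent on the left side -/

namespace Pool.Agent.Lib.MP_2d59ee_ag.J

section ModL2

open Polynomial

/-- a polynomial whose only possible root is `0` has degree equal to the multiplicity of `0` -/
theorem l2_degree {y : ℂ[X]} (hy : y ≠ 0) (h : ∀ μ : ℂ, μ ≠ 0 → y.rootMultiplicity μ = 0) :
    y.natDegree = y.rootMultiplicity 0 := by
  obtain ⟨g, hg⟩ := pow_rootMultiplicity_dvd y (0 : ℂ)
  rw [C_0, sub_zero] at hg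
  set σ := y.rootMultiplicity 0 with hσ
  have hg0 : g ≠ 0 := by
    rintro rfl
    rw [mul_zero] at hg
    exact hy hg
  have hX : (X : ℂ[X]) ^ σ ≠ 0 := pow_ne_zero _ X_ne_zero
  have hgd : g.natDegree = 0 := by
    by_contra hne
    have hdeg : g.degree ≠ 0 := by
      intro h0
      exact hne (natDegree_eq_of_degree_eq_some h0)
    obtain ⟨μ, hμ⟩ := IsAlgClosed.exists_root g hdeg
    have h1 : 0 < g.rootMultiplicity μ := (rootMultiplicity_pos hg0).2 hμ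
    have h2 : y.rootMultiplicity μ = (X ^ σ : ℂ[X]).rootMultiplicity μ + g.rootMultiplicity μ := by
      rw [hg]
      exact rootMultiplicity_mul (mul_ne_zero hX hg0)
    by_cases h0 : μ = 0
    · subst h0
      have h3 : (X ^ σ : ℂ[X]).rootMultiplicity 0 = σ := by
        have := rootMultiplicity_X_sub_C_pow (0 : ℂ) σ
        rwa [C_0, sub_zero] at this
      omega
    · have := h μ h0
      omega
  rw [hg, natDegree_mul hX hg0, natDegree_X_pow, hgd, add_zero]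

theorem left_start {a b : ℕ} (ha : 2 ≤ a) (hlt : a < b) (hab : Nat.Coprime a b) {F G Φ : MP}
    (h : Shape a b F G) (hΦ : Adm a b Φ)
    (h1 : (ev MvPolynomial.C F G Φ).coeff (pt (ne a b) (3 * ne a b)) ≠ 0)
    (h2 : ∀ i j, (ev MvPolynomial.C F G Φ).coeff (pt i j) ≠ 0 → 4 * i ≤ ne a b + j) :
    LSt a b Φ 3 (PhL F) (PhL G) := by
  obtain ⟨cP, cQ⟩ := left_corners ha hlt hab h
  obtain ⟨c, hc, hJ⟩ := h.hJ
  have hbr := brB_PhL F G c hJ
  obtain ⟨N, hN⟩ : ∃ N, N = ev MvPolynomial.C F G Φ := ⟨_, rfl⟩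
  have hPN : ev cL (PhL F) (PhL G) Φ = PhL N := by
    rw [hN, PhL]
    rw [ev_ev]
  rw [← hN] at h1 h2
  have hT : ((PhL N).coeff (ne a b)).coeff (-((3 * ne a b : ℕ) : ℤ)) ≠ 0 := by
    rw [PhL_coeff]
    exact h1
  have hN0 : N ≠ 0 := by
    rintro rfl
    exact h1 (MvPolynomial.coeff_zero _)
  -- the maximal power of `w`
  obtain ⟨d₀, hd₀, hmax⟩ := Finset.exists_max_image N.support (fun d => d 1)
    (MvPolynomial.support_nonempty.2 hN0)
  obtain ⟨D, hD⟩ : ∃ D, D = d₀ 1 := ⟨_, rfl⟩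
  have hcoef : N.coeff (pt (d₀ 0) D) ≠ 0 := by
    rw [hD, pt_eta]
    exact MvPolynomial.mem_support_iff.1 hd₀
  have hle : ∀ i j, N.coeff (pt i j) ≠ 0 → j ≤ D := by
    intro i j hij
    have := hmax _ (MvPolynomial.mem_support_iff.2 hij)
    simpa [hD] using this
  have hLow : LowB (PhL N) (-(D : ℤ)) := by
    intro n hn
    ext i
    rw [lev_coeff, coeff_zero]
    by_contra hne
    obtain ⟨j, hj, hj2⟩ := PhL_ne hne
    have := hle i j hj2
    omega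
  have hD3 : D ≤ 3 * ne a b := by
    by_contra hgt
    rw [not_le] at hgt
    -- the leading forms
    have hP : LowB (PhL F) (-((12 * a : ℕ) : ℤ)) := by
      intro n hn
      ext i
      rw [lev_coeff, coeff_zero]
      by_contra hne
      obtain ⟨j, hj, hj2⟩ := PhL_ne hne
      have := (h.hF i j hj2).2.1
      omega
    have hQ : LowB (PhL G) (-((12 * b : ℕ) : ℤ)) := by
      intro n hn
      ext i
      rw [lev_coeff, coeff_zero]
      by_contra hne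
      obtain ⟨j, hj, hj2⟩ := PhL_ne hne
      have := (h.hG i j hj2).2
      omega
    have hP' : LowB (PhL F) (-((a : ℤ) * (12 : ℕ))) := by
      have e : -((a : ℤ) * (12 : ℕ)) = -((12 * a : ℕ) : ℤ) := by push_cast; ring
      rw [e]
      exact hP
    have hQ' : LowB (PhL G) (-((b : ℤ) * (12 : ℕ))) := by
      have e : -((b : ℤ) * (12 : ℕ)) = -((12 * b : ℕ) : ℤ) := by push_cast; ring
      rw [e]
      exact hQ
    have hE := LowB_ev (pd_le (by omega) hΦ) hP' hQ'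
    have hS : LowB (C (HahnSeries.single (-1 : ℤ) c) : LS[X]) (-1) := by
      intro n hn
      rw [lev_C_single, if_neg (by omega)]
    have hprod := LowB_mul hE hS
    have hb := brB_ev_right (PhL F) (PhL G) Φ
    rw [hPN, hbr] at hb
    have hlev : lev (-(((12 * a : ℕ) : ℤ) + (D : ℤ))) (brB (PhL F) (PhL N)) = 0 := by
      rw [hb]
      apply hprod
      have e1 : 3 * ne a b = 12 * (b * (a - 1)) + 9 := by
        unfold ne
        ring
      have e2 : ((a + b * (a - 1) : ℕ) : ℤ) * (12 : ℕ) = ((12 * a + 12 * (b * (a - 1)) : ℕ) : ℤ) := by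
        push_cast
        ring
      rw [e2]
      omega
    have hcomm := lev_comm hP hLow hlev
    obtain ⟨p, hp⟩ : ∃ p, p = lev (-((12 * a : ℕ) : ℤ)) (PhL F) := ⟨_, rfl⟩
    obtain ⟨y, hy⟩ : ∃ y, y = lev (-(D : ℤ)) (PhL N) := ⟨_, rfl⟩
    rw [← hp, ← hy] at hcomm
    have hpe : p = C (F.coeff (pt (4 * a) (12 * a))) * X ^ (4 * a) := by
      ext i
      rw [hp, lev_coeff, PhL_coeff, coeff_C_mul_X_pow]
      split_ifs with hi
      · rw [hi]
      · by_contra h0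
        exact hi ((h.hF i (12 * a) h0).2.2 rfl)
    have hp0 : p ≠ 0 := by
      rw [hpe]
      exact mul_ne_zero (C_ne_zero.2 h.hFt) (pow_ne_zero _ X_ne_zero)
    have hy0 : y ≠ 0 := by
      intro h0
      apply hcoef
      have := congrArg (fun q => q.coeff (d₀ 0)) h0
      rwa [hy, lev_coeff, PhL_coeff, coeff_zero] at this
    have hm := mult_prop p y hp0 hy0 (12 * a) D hcomm
    have hpm : ∀ μ : ℂ, μ ≠ 0 → p.rootMultiplicity μ = 0 := by
      intro μ hμ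
      rw [rootMultiplicity_eq_zero_iff]
      intro hr
      exfalso
      rw [hpe, IsRoot.def, eval_mul, eval_C, eval_pow, eval_X] at hr
      rcases mul_eq_zero.1 hr with h3 | h3
      · exact h.hFt h3
      · exact hμ (pow_eq_zero_iff (by omega) |>.1 h3)
    have hym : ∀ μ : ℂ, μ ≠ 0 → y.rootMultiplicity μ = 0 := by
      intro μ hμ
      have h3 := hm μ
      rw [hpm μ hμ, mul_zero] at h3
      rcases Nat.mul_eq_zero.1 h3 with h4 | h4
      · omega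
      · exact h4
    have hpm0 : p.rootMultiplicity 0 = 4 * a := by
      have h3 := l2_degree hp0 hpm
      rw [← h3, hpe, natDegree_C_mul_X_pow _ _ h.hFt]
    have hyd := l2_degree hy0 hym
    have h3 := hm 0
    rw [hpm0, ← hyd] at h3
    have h4 : D = 3 * y.natDegree := by
      have ha' : 0 < 4 * a := by omega
      have h5 : 4 * a * (3 * y.natDegree) = 4 * a * D := by
        rw [Nat.mul_comm (4 * a) D, ← h3]
        ring
      exact (Nat.eq_of_mul_eq_mul_left ha' h5).symm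
    have h5 : N.coeff (pt y.natDegree D) ≠ 0 := by
      have h6 : y.coeff y.natDegree ≠ 0 := by
        rw [coeff_natDegree]
        exact leadingCoeff_ne_zero.2 hy0
      have e : y.coeff y.natDegree = N.coeff (pt y.natDegree D) := by
        conv_lhs => rw [hy]
        rw [lev_coeff, PhL_coeff, ← hy]
      rwa [e] at h6
    have h6 := h2 _ _ h5
    omega
  refine ⟨cP, cQ, ⟨c, hc, ?_⟩, ?_, ?_⟩
  · rw [hbr]
    norm_num
  · rw [hPN]
    exact LowB_mono hLow (by omega)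
  · rw [hPN]
    exact hT

end ModL2

end Pool.Agent.Lib.MP_2d59ee_ag.J

/-! Part L3 -/
/-! ## Row L3: the leading form at any slope `K ≤ 1` on the left side

State `LSt a b Φ α P Q`, `α ≥ 1`, slope `K = s/q > 0` (`s = K.num`, `q = K.den`) with `AtLevel` for both
and `d = q (4 α) - 4 s > 0`. `P' = T0 q _ s P`, `Q'`: `LowB P' (-(a * d))`, `LowB Q' (-(b * d))`, leading forms
`p, q₁` of degrees `4 a`, `4 b` (`lowB_T0`, `lev_T0_top`, `lev_T0_natDegree`). Bracket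
(`brB_T0_single`, `E = α - 2`): `single (-(q (α - 2) - s))`; `q (α-2) - s < (a+b) d` because
`d = 4 (q α - s)`, `q α - s ≥ 1`, `a + b ≥ 5`. `comm_facts`: multiplicities `a ν`, `b ν`.
`N = ev cL P Q Φ`, `N' = T0 q _ s N = ev cL P' Q' Φ` (`T0_ev`). Let `-ω` be the minimal `t`-exponent of
`N'` (`N' ≠ 0`): `LowB N' (-ω)`, `y = lev (-ω) N' ≠ 0`. The coefficient `nT` becomes the coefficient of
`X^ne` at `t^(-(q α ne) + ne s)`, so `4 ω ≥ ne d`. `brB P' N' = ev cL P' Q' (∂₁Φ) * brB P' Q'`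
(`brB_ev_right`) has order `≥ -(a + b(a-1)) d - (q (α-2) - s)`, and
`a d + ω > (a + b (a-1)) d + q (α-2) - s` because `ω ≥ (b (a-1) + 3/4) d` and
`(3/4) d = 3 (qα - s) > q (α - 2) - s`. So `lev_comm`: `a d p y' = ω p' y`, and `mult_prop`:
`a d mult_μ y = ω mult_μ p`. Degrees: `a d deg y = ω deg p = ω 4 a` (sum of the multiplicities over the
roots, or compare leading coefficients; note `ω > 0`), so `d deg y = 4 ω`. With `j₀ = deg y` the
coefficient of `X^(j₀)` at `t^(-ω)` in `N'` comes from a coefficient of `X^(j₀)` at `t^m` in `N` with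
`q m = -ω - j₀ s` (`T0_coeff_ne`); multiply by `d`: `q m d = -ω (d + 4 s) = -4 q α ω`, so
`m d = -4 α ω`, and `m ≥ -α ne` (`nL`) gives `4 ω ≤ ne d`. So `4 ω = ne d`, and
`4 a d mult y = ne d · a ν`, i.e. `4 mult_μ y = ne ν`: as `ne ≡ 3 mod 4`, `4 ∣ ν` for every root `μ` of `p`.
`p` has degree `4 a > 0`, so it has a root, with `ν = 4`: `p = C κ (X - C μ)^(4a)`,
`q₁ = C κ' (X - C μ)^(4b)`. Also record `LowB N' (-ω)` and that the coefficient of `X^ne` at `t^(-ω)`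
is nonzero (it is the image of `nT`). -/

namespace Pool.Agent.Lib.MP_2d59ee_ag.J

section ModL3

open Polynomial

/-- the minimal exponent of `t` -/
theorem l3_min {N : LS[X]} {j : ℕ} {n : ℤ} (h : (N.coeff j).coeff n ≠ 0) :
    ∃ i : ℤ, i ≤ n ∧ LowB N i ∧ lev i N ≠ 0 := by
  have h0 : lev n N ≠ 0 := by
    intro h1
    apply h
    rw [← lev_coeff, h1, coeff_zero]
  have h2 : (Psi N).coeff n ≠ 0 := by
    rw [Psi_coeff]
    exact toR_ne_zero h0
  have h3 : Psi N ≠ 0 := HahnSeries.ne_zero_of_coeff_ne_zero h2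
  refine ⟨(Psi N).order, HahnSeries.order_le_of_coeff_ne_zero h2, ?_, ?_⟩
  · intro m hm
    by_contra h4
    have h5 : (Psi N).coeff m ≠ 0 := by
      rw [Psi_coeff]
      exact toR_ne_zero h4
    have := HahnSeries.order_le_of_coeff_ne_zero h5
    omega
  · intro h4
    have h5 : (Psi N).coeff (Psi N).order ≠ 0 := by
      rw [Ne, HahnSeries.coeff_order_eq_zero]; exact h3
    apply h5
    rw [Psi_coeff, h4, toR, map_zero]

theorem l3_LowB_ge {N : LS[X]} {j : ℕ} {n i : ℤ} (hN : LowB N i) (h : (N.coeff j).coeff n ≠ 0) :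
    i ≤ n := by
  by_contra h1
  apply h
  rw [← lev_coeff, hN n (not_le.mp h1), coeff_zero]

theorem l3_pow {p : ℂ[X]} (hp : p ≠ 0) {n : ℕ} (hn : p.natDegree = n) {μ : ℂ}
    (h : n ≤ p.rootMultiplicity μ) : ∃ κ : ℂ, κ ≠ 0 ∧ p = C κ * (X - C μ) ^ n := by
  obtain ⟨r, hr⟩ := (le_rootMultiplicity_iff hp).1 h
  have hr0 : r ≠ 0 := by
    rintro rfl
    exact hp (by rw [hr, mul_zero])
  have h1 : p.natDegree = n + r.natDegree := by
    rw [hr, natDegree_mul (pow_ne_zero _ (X_sub_C_ne_zero μ)) hr0, natDegree_pow,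
      natDegree_X_sub_C, mul_one]
  have h2 : r.natDegree = 0 := by omega
  obtain ⟨κ, hκ⟩ := natDegree_eq_zero.mp h2
  refine ⟨κ, ?_, ?_⟩
  · rintro rfl
    exact hr0 (by rw [← hκ, C_0])
  · rw [hr, ← hκ, mul_comm]

theorem l3_deg {p y : ℂ[X]} {A w : ℕ}
    (h : ∀ μ, A * y.rootMultiplicity μ = w * p.rootMultiplicity μ) :
    A * y.natDegree = w * p.natDegree := by
  have h1 : A • y.roots = w • p.roots := by
    ext μ
    rw [Multiset.count_nsmul, Multiset.count_nsmul, count_roots, count_roots]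
    exact h μ
  have h2 := congrArg Multiset.card h1
  rw [Multiset.card_nsmul, Multiset.card_nsmul,
    IsAlgClosed.card_roots_eq_natDegree, IsAlgClosed.card_roots_eq_natDegree] at h2
  exact h2

theorem l3_coprime {n ν m : ℕ} (hn : n % 4 = 3) (h : 4 * m = n * ν) : 4 ∣ ν := by
  have h1 : Nat.Coprime 4 n := by
    have : Nat.Coprime n 4 := by
      rw [Nat.coprime_iff_gcd_eq_one, Nat.gcd_comm, Nat.gcd_rec, hn]
      rfl
    exact this.symm
  exact h1.dvd_of_dvd_mul_left ⟨m, h.symm⟩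

/-- `LowB` of a product with a constant series -/
theorem l3_mul_single {R : LS[X]} {i E : ℤ} {c : ℂ} (hR : LowB R i) :
    LowB (R * C (HahnSeries.single E c)) (i + E) := by
  apply LowB_mul hR
  intro n hn
  rw [lev_C_single, if_neg hn.ne]

theorem left_form {a b α : ℕ} (ha : 2 ≤ a) (hlt : a < b) (hab : Nat.Coprime a b) (hα : 1 ≤ α)
    {Φ : MP} (hΦ : Adm a b Φ) {P Q : LS[X]} (h : LSt a b Φ α P Q) {K : ℚ} (hK : 0 < K)
    (hPK : AtLevel P a ((4 * α : ℕ) : ℤ) 4 K) (hQK : AtLevel Q b ((4 * α : ℕ) : ℤ) 4 K)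
    {d : ℕ} (hd : 0 < d) (hdK : (d : ℤ) = K.den * ((4 * α : ℕ) : ℤ) - K.num * (4 : ℕ)) :
    LowB (T0 K.den K.den_pos K.num P) (-((a : ℤ) * d)) ∧
    LowB (T0 K.den K.den_pos K.num Q) (-((b : ℤ) * d)) ∧
    (∃ μ κ κ' : ℂ, κ ≠ 0 ∧ κ' ≠ 0 ∧
      lev (-((a : ℤ) * d)) (T0 K.den K.den_pos K.num P) = C κ * (X - C μ) ^ (4 * a) ∧
      lev (-((b : ℤ) * d)) (T0 K.den K.den_pos K.num Q) = C κ' * (X - C μ) ^ (4 * b)) ∧
    ∃ ω : ℕ, 4 * ω = ne a b * d ∧
      LowB (ev cL (T0 K.den K.den_pos K.num P) (T0 K.den K.den_pos K.num Q) Φ) (-(ω : ℤ)) ∧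
      (lev (-(ω : ℤ)) (ev cL (T0 K.den K.den_pos K.num P)
        (T0 K.den K.den_pos K.num Q) Φ)).natDegree = ne a b ∧
      (lev (-(ω : ℤ)) (ev cL (T0 K.den K.den_pos K.num P)
        (T0 K.den K.den_pos K.num Q) Φ)) ≠ 0 := by
  obtain ⟨c, hc, hbr⟩ := h.hbr
  set q : ℕ := K.den with hq
  set s : ℤ := K.num with hs
  have hq0 : 0 < q := K.den_pos
  set P' := T0 K.den K.den_pos K.num P with hP'
  set Q' := T0 K.den K.den_pos K.num Q with hQ'
  have ha0 : 0 < a := by omega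
  have hb0 : 0 < b := by omega
  have hLP : LowB P' (-((a : ℤ) * d)) := lowB_T0 h.cP hK hPK (d : ℤ) hdK
  have hLQ : LowB Q' (-((b : ℤ) * d)) := lowB_T0 h.cQ hK hQK (d : ℤ) hdK
  have hdP : (lev (-((a : ℤ) * d)) P').natDegree = a * 4 := lev_T0_natDegree h.cP hK (d : ℤ) hdK
  have hdQ : (lev (-((b : ℤ) * d)) Q').natDegree = b * 4 := lev_T0_natDegree h.cQ hK (d : ℤ) hdK
  have htP : (lev (-((a : ℤ) * d)) P').coeff (a * 4) ≠ 0 := lev_T0_top h.cP (d : ℤ) hdK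
  have htQ : (lev (-((b : ℤ) * d)) Q').coeff (b * 4) ≠ 0 := lev_T0_top h.cQ (d : ℤ) hdK
  have hP0 : lev (-((a : ℤ) * d)) P' ≠ 0 := by
    intro h1; rw [h1, coeff_zero] at htP; exact htP rfl
  have hQ0 : lev (-((b : ℤ) * d)) Q' ≠ 0 := by
    intro h1; rw [h1, coeff_zero] at htQ; exact htQ rfl
  set p := lev (-((a : ℤ) * d)) P' with hp
  set q₁ := lev (-((b : ℤ) * d)) Q' with hq₁
  set E : ℤ := K.den * ((α : ℤ) - 2) - K.num with hE
  have hbr' : brB P' Q' = C (HahnSeries.single (-E) ((K.den : ℂ) * c)) :=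
    brB_T0_single K.den K.den_pos K.num P Q ((α : ℤ) - 2) c hbr
  have hd4 : (d : ℤ) = 4 * ((K.den : ℤ) * α - K.num) := by rw [hdK]; push_cast; ring
  have hqz : (1 : ℤ) ≤ (K.den : ℤ) := by exact_mod_cast K.den_pos
  have hEd : 4 * E < d := by
    rw [hd4, hE]; nlinarith
  have hdz : (0 : ℤ) < d := by exact_mod_cast hd
  have hJ : E < ((a : ℤ) + b) * d := by
    have h1 : (1 : ℤ) ≤ (a : ℤ) := by exact_mod_cast ha0
    have h2 : (1 : ℤ) ≤ (b : ℤ) := by exact_mod_cast hb0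
    nlinarith
  have hmult : ∀ μ, ∃ ν, p.rootMultiplicity μ = a * ν ∧ q₁.rootMultiplicity μ = b * ν :=
    (comm_facts ha0 hb0 hab hd hbr' hLP hLQ hP0 hQ0 hJ).2
  -- the combination
  set N := ev cL P Q Φ with hN
  set N' := ev cL P' Q' Φ with hN'
  have hNN : N' = T0 K.den K.den_pos K.num N := by
    rw [hN', hN, hP', hQ', T0_ev]
  set n₀ := ne a b with hn₀
  have hn₀m : n₀ % 4 = 3 := by rw [hn₀, ne]; omega
  have hn₀p : 0 < n₀ := by omega
  -- the coefficient of `X^ne`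
  have htop : (N'.coeff n₀).coeff ((K.den : ℤ) * (-((α * n₀ : ℕ) : ℤ)) + n₀ * K.num) ≠ 0 := by
    rw [hNN, T0_coeff_coeff (m := -((α * n₀ : ℕ) : ℤ)) (h := by ring)]
    exact h.nT
  obtain ⟨i, hi1, hi2, hi3⟩ := l3_min htop
  have hi4 : 4 * i ≤ -((n₀ : ℤ) * d) := by
    have : 4 * ((K.den : ℤ) * (-((α * n₀ : ℕ) : ℤ)) + n₀ * K.num) = -((n₀ : ℤ) * d) := by
      rw [hd4]; push_cast; ring
    linarith
  have hn₀z : (0 : ℤ) < n₀ := by exact_mod_cast hn₀p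
  have hineg : i < 0 := by
    have : 0 < (n₀ : ℤ) * d := mul_pos hn₀z hdz
    linarith
  obtain ⟨ω, hω⟩ : ∃ ω : ℕ, (ω : ℤ) = -i := ⟨(-i).toNat, by omega⟩
  have hiω : i = -(ω : ℤ) := by omega
  rw [hiω] at hi2 hi3 hi4
  have hω0 : 0 < ω := by omega
  have hωge : (n₀ : ℤ) * d ≤ 4 * ω := by linarith
  -- the bracket
  have hbN : brB P' N' = ev cL P' Q' (MvPolynomial.pderiv 1 Φ) * brB P' Q' := brB_ev_right P' Q' Φ
  have hLN : LowB (brB P' N') (-(((a + b * (a - 1) : ℕ) : ℤ) * d) + -E) := by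
    rw [hbN, hbr']
    exact l3_mul_single (LowB_ev (pd_le ha0 hΦ) hLP hLQ)
  have hz : lev (-(((a * d : ℕ) : ℤ) + ω)) (brB P' N') = 0 := by
    apply hLN
    have h1 : (n₀ : ℤ) = 4 * ((b * (a - 1) : ℕ) : ℤ) + 3 := by
      rw [hn₀, ne]; push_cast; ring
    rw [h1] at hωge
    push_cast at hωge ⊢
    nlinarith
  have hcomm := lev_comm (A := a * d) (n := ω) (P := P') (N := N')
    (by push_cast; exact hLP) hi2 hz
  have hpe : lev (-((a * d : ℕ) : ℤ)) P' = p := by rw [hp]; push_cast; rfl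
  rw [hpe] at hcomm
  set y := lev (-(ω : ℤ)) N' with hy
  have hm : ∀ μ, (a * d) * y.rootMultiplicity μ = ω * p.rootMultiplicity μ := fun μ =>
    mult_prop p y hP0 hi3 (a * d) ω hcomm μ
  have hdeg : (a * d) * y.natDegree = ω * (a * 4) := by rw [l3_deg hm, hdP]
  have hdeg' : d * y.natDegree = 4 * ω := by
    apply Nat.eq_of_mul_eq_mul_left ha0
    linarith
  -- the coefficient of `X^(deg y)`
  have hlc : (N'.coeff y.natDegree).coeff (-(ω : ℤ)) ≠ 0 := by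
    rw [← lev_coeff]
    exact leadingCoeff_ne_zero.mpr hi3
  rw [hNN] at hlc
  obtain ⟨m, hm1, hm2⟩ := T0_coeff_ne _ _ _ _ _ _ hlc
  have hm3 : -((α * n₀ : ℕ) : ℤ) ≤ m := l3_LowB_ge h.nL hm2
  have hdegz : (d : ℤ) * y.natDegree = 4 * ω := by exact_mod_cast hdeg'
  have hm4 : m * d = -(4 * α * ω) := by
    have h1 : (K.den : ℤ) * (m * d) = (K.den : ℤ) * (-(4 * α * ω)) := by
      have h2 : (K.den : ℤ) * (m * d) = (-(ω : ℤ) - y.natDegree * K.num) * d := by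
        rw [← hm1]; ring
      rw [h2]
      have h3 : (-(ω : ℤ) - y.natDegree * K.num) * d = -(ω : ℤ) * d - (d * y.natDegree) * K.num := by
        ring
      rw [h3, hdegz, hd4]
      ring
    have h4 : (K.den : ℤ) ≠ 0 := by omega
    exact mul_left_cancel₀ h4 h1
  have hωle : 4 * (ω : ℤ) ≤ n₀ * d := by
    have h1 : -((α * n₀ : ℕ) : ℤ) * d ≤ m * d := mul_le_mul_of_nonneg_right hm3 hdz.le
    rw [hm4] at h1
    push_cast at h1
    have h2 : (α : ℤ) * (4 * ω) ≤ α * (n₀ * d) := by linarith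
    exact le_of_mul_le_mul_left h2 (by exact_mod_cast hα)
  have hωeq : 4 * ω = n₀ * d := by
    have : 4 * (ω : ℤ) = n₀ * d := le_antisymm hωle hωge
    exact_mod_cast this
  have hydeg : y.natDegree = n₀ := by
    apply Nat.eq_of_mul_eq_mul_left hd
    rw [hdeg', hωeq, mul_comm]
  -- the root
  obtain ⟨μ, hμ⟩ : ∃ μ, p.IsRoot μ := by
    apply IsAlgClosed.exists_root
    intro h1
    have h2 : p.natDegree = 0 := natDegree_eq_zero_iff_degree_le_zero.mpr h1.le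
    omega
  obtain ⟨ν, hν1, hν2⟩ := hmult μ
  have hν0 : 0 < ν := by
    rcases Nat.eq_zero_or_pos ν with h1 | h1
    · rw [h1, mul_zero] at hν1
      have := (rootMultiplicity_pos hP0).mpr hμ
      omega
    · exact h1
  have h4ν : 4 ∣ ν := by
    apply l3_coprime (m := y.rootMultiplicity μ) hn₀m
    have h1 := hm μ
    rw [hν1] at h1
    have h2 : (a * d) * (4 * y.rootMultiplicity μ) = (a * d) * (n₀ * ν) := by
      calc (a * d) * (4 * y.rootMultiplicity μ) = 4 * ((a * d) * y.rootMultiplicity μ) := by ring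
        _ = 4 * (ω * (a * ν)) := by rw [h1]
        _ = (4 * ω) * (a * ν) := by ring
        _ = (n₀ * d) * (a * ν) := by rw [hωeq]
        _ = (a * d) * (n₀ * ν) := by ring
    exact Nat.eq_of_mul_eq_mul_left (Nat.mul_pos ha0 hd) h2
  have h4le : 4 ≤ ν := Nat.le_of_dvd hν0 h4ν
  obtain ⟨κ, hκ0, hκ⟩ := l3_pow (n := 4 * a) (μ := μ) hP0 (by rw [hdP, mul_comm]) (by
    rw [hν1, mul_comm 4 a]; exact Nat.mul_le_mul_left a h4le)
  obtain ⟨κ', hκ0', hκ'⟩ := l3_pow (n := 4 * b) (μ := μ) hQ0 (by rw [hdQ, mul_comm]) (by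
    rw [hν2, mul_comm 4 b]; exact Nat.mul_le_mul_left b h4le)
  exact ⟨hLP, hLQ, ⟨μ, κ, κ', hκ0, hκ0', hκ, hκ'⟩, ω, hωeq, hi2, hydeg, hi3⟩

end ModL3

end Pool.Agent.Lib.MP_2d59ee_ag.J

/-! Part L4 -/
/-! ## Row L4: slopes and the step on the left side

`left_slopes`: `exists_level cP cQ (0 < 1)` gives `K ≤ 1`, `AtLevel` for both and `K = 1` or `K` attained.
Suppose `K < 1` attained. `α ≥ 1`, so `d = q 4 α - 4 s > 0`; `left_form` gives `μ` with
`p = C κ (X - C μ)^(4a)` and `q₁ = C κ' (X - C μ)^(4b)`. Attained (by `P` or by `Q`, `attained_coeff`): a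
coefficient of index `< 4 a` of `p` (`< 4 b` of `q₁`) is nonzero, so `μ ≠ 0`; then the coefficients of
`X^(4a)` and `X^(4a - 1)` of `p` (resp. `4 b`) are nonzero and `lev_T0_dvd` gives `K.den ∣ 1`; so `K` is an
integer, but `0 < K < 1`.

`left_step`: `α ≥ 2`, `K = 1`: `d = 4 α - 4 = 4 (α - 1) > 0`. `left_form` (with `K = 1`,
`AtLevel` from `left_slopes`): `P' = T0 1 _ 1 P` etc. New pair `shift μ P'`, `shift μ Q'`. Corners:
`shift_corner` (`c₁ = a`, `d = 4 (α-1)`, `N₁ = 4`; the multiplicity of `μ` is `4 a`). Bracket: `brB_T0_single`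
(`E = α - 2` to `α - 3`), `brB_shift_single`. `4 ω = ne d` gives `ω = ne (α - 1)`; `LowB_shift`,
`ev cL (shift μ P') (shift μ Q') Φ = shift μ (ev cL P' Q' Φ)` (`shift_ev`), and `nT`: `lev_shift`, the
composition with `X + C μ` keeps the degree `ne` and the leading coefficient. -/

namespace Pool.Agent.Lib.MP_2d59ee_ag.J

section ModL4

open Polynomial

theorem l4_coeff (μ : ℂ) (n k : ℕ) :
    ((X - C μ : ℂ[X]) ^ n).coeff k = (-μ) ^ (n - k) * (n.choose k : ℂ) := by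
  rw [sub_eq_add_neg, ← C_neg, coeff_X_add_C_pow]

/-- a slope `K < 1` is not attained when the leading form is a power of a linear form -/
theorem l4_aux {c : ℕ} (hc : 0 < c) {α' : ℤ} {P : LS[X]} {K : ℚ} (h0 : 0 < K) (h1 : K < 1)
    {d : ℕ} (hd : (d : ℤ) = K.den * α' - K.num * (4 : ℕ)) (hA : Attained P c α' 4 K)
    {μ κ : ℂ} (hκ : κ ≠ 0)
    (hp : lev (-((c : ℤ) * d)) (T0 K.den K.den_pos K.num P) = C κ * (X - C μ) ^ (4 * c)) :
    False := by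
  obtain ⟨j, hj, hj0⟩ := attained_coeff hA (d : ℤ) hd
  rw [hp, coeff_C_mul, l4_coeff] at hj0
  have hμ : μ ≠ 0 := by
    intro hμ
    apply hj0
    rw [hμ, neg_zero, zero_pow (by omega), zero_mul, mul_zero]
  have e1 : (lev (-((c : ℤ) * d)) (T0 K.den K.den_pos K.num P)).coeff (4 * c) ≠ 0 := by
    rw [hp, coeff_C_mul, l4_coeff, Nat.sub_self, pow_zero, Nat.choose_self]
    simpa using hκ
  have e2 : (lev (-((c : ℤ) * d)) (T0 K.den K.den_pos K.num P)).coeff (4 * c - 1) ≠ 0 := by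
    rw [hp, coeff_C_mul, l4_coeff]
    have h3 : ((Nat.choose (4 * c) (4 * c - 1) : ℕ) : ℂ) ≠ 0 := by
      exact_mod_cast (Nat.choose_pos (by omega : 4 * c - 1 ≤ 4 * c)).ne'
    exact mul_ne_zero hκ (mul_ne_zero (pow_ne_zero _ (neg_ne_zero.mpr hμ)) h3)
  have hcop : IsCoprime (K.den : ℤ) K.num := by
    rw [Int.isCoprime_iff_gcd_eq_one, Int.gcd_comm]
    have := K.reduced
    simpa [Int.gcd, Nat.Coprime] using this
  have h2 := lev_T0_dvd K.den_pos hcop e1 e2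
  have h3 : (((4 * c : ℕ) : ℤ) - ((4 * c - 1 : ℕ) : ℤ)) = 1 := by omega
  rw [h3] at h2
  have h4 : K.den = 1 := by
    have : (K.den : ℤ) = 1 := Int.eq_one_of_dvd_one (by positivity) h2
    exact_mod_cast this
  have h5 := num_cast K
  rw [h4] at h5
  have h6 : (K.num : ℚ) = K := by rw [h5]; simp
  have h7 : (0 : ℤ) < K.num := Rat.num_pos.mpr h0
  have h8 : (1 : ℚ) ≤ K.num := by exact_mod_cast h7
  linarith

theorem left_slopes {a b α : ℕ} (ha : 2 ≤ a) (hlt : a < b) (hab : Nat.Coprime a b) (hα : 1 ≤ α)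
    {Φ : MP} (hΦ : Adm a b Φ) {P Q : LS[X]} (h : LSt a b Φ α P Q) :
    AtLevel P a ((4 * α : ℕ) : ℤ) 4 1 ∧ AtLevel Q b ((4 * α : ℕ) : ℤ) 4 1 := by
  obtain ⟨K, h0, h1, hKP, hKQ, hcase⟩ := exists_level h.cP h.cQ (zero_lt_one : (0 : ℚ) < 1)
  rcases eq_or_lt_of_le h1 with hK | hK
  · rw [hK] at hKP hKQ
    exact ⟨hKP, hKQ⟩
  · exfalso
    have hnum : (K.num : ℤ) < K.den := by
      have h5 := num_cast K
      have hden : (0 : ℚ) < K.den := by exact_mod_cast K.den_pos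
      have : (K.num : ℚ) < K.den := by
        rw [h5]
        calc K * K.den < 1 * K.den := mul_lt_mul_of_pos_right hK hden
          _ = K.den := one_mul _
      exact_mod_cast this
    have hdenα : (K.den : ℤ) ≤ K.den * α := by
      have : (1 : ℤ) ≤ α := by exact_mod_cast hα
      nlinarith [K.den_pos]
    have hpos : 0 < (K.den : ℤ) * ((4 * α : ℕ) : ℤ) - K.num * (4 : ℕ) := by
      push_cast
      nlinarith
    obtain ⟨d, hd⟩ := Int.eq_ofNat_of_zero_le hpos.le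
    have hd' : (d : ℤ) = K.den * ((4 * α : ℕ) : ℤ) - K.num * (4 : ℕ) := hd.symm
    have hd0 : 0 < d := by
      rw [← hd'] at hpos
      exact_mod_cast hpos
    obtain ⟨-, -, ⟨μ, κ, κ', hκ, hκ', hp, hq⟩, -⟩ :=
      left_form ha hlt hab hα hΦ h h0 hKP hKQ hd0 hd'
    rcases hcase with h3 | h3 | h3
    · rw [h3] at hK; exact lt_irrefl _ hK
    · exact l4_aux (by omega) h0 hK hd' h3 hκ hp
    · exact l4_aux (by omega) h0 hK hd' h3 hκ' hq

theorem l4_mult {μ κ : ℂ} (hκ : κ ≠ 0) (n : ℕ) :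
    (C κ * (X - C μ) ^ n : ℂ[X]) ≠ 0 ∧ (C κ * (X - C μ) ^ n : ℂ[X]).rootMultiplicity μ = n := by
  have h0 : (C κ * (X - C μ) ^ n : ℂ[X]) ≠ 0 :=
    mul_ne_zero (C_ne_zero.mpr hκ) (pow_ne_zero _ (X_sub_C_ne_zero μ))
  refine ⟨h0, ?_⟩
  rw [rootMultiplicity_mul h0, rootMultiplicity_C, rootMultiplicity_X_sub_C_pow, zero_add]

theorem l4_comp {y : ℂ[X]} (hy : y ≠ 0) (μ : ℂ) {n : ℕ} (hn : y.natDegree = n) :
    (y.comp (X + C μ)).coeff n ≠ 0 := by
  have h1 : (y.comp (X + C μ)).natDegree = n := by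
    rw [natDegree_comp, natDegree_X_add_C, mul_one, hn]
  have h2 : (y.comp (X + C μ)).leadingCoeff ≠ 0 := by
    rw [leadingCoeff_comp (by rw [natDegree_X_add_C]; exact one_ne_zero), leadingCoeff_X_add_C,
      one_pow, mul_one]
    exact leadingCoeff_ne_zero.mpr hy
  rw [leadingCoeff, h1] at h2
  exact h2

theorem left_step {a b α : ℕ} (ha : 2 ≤ a) (hlt : a < b) (hab : Nat.Coprime a b) (hα : 1 ≤ α)
    {Φ : MP} (hΦ : Adm a b Φ) {P Q : LS[X]} (h : LSt a b Φ (α + 1) P Q) :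
    ∃ μ : ℂ, LSt a b Φ α (shift μ (T0 1 one_pos 1 P)) (shift μ (T0 1 one_pos 1 Q)) := by
  obtain ⟨hKP, hKQ⟩ := left_slopes ha hlt hab (by omega) hΦ h
  have hd0 : 0 < 4 * α := by omega
  have hdK : ((4 * α : ℕ) : ℤ) = (1 : ℚ).den * ((4 * (α + 1) : ℕ) : ℤ) - (1 : ℚ).num * (4 : ℕ) := by
    rw [Rat.den_one, Rat.num_one]
    push_cast; ring
  have key := left_form ha hlt hab (by omega) hΦ h (zero_lt_one : (0 : ℚ) < 1) hKP hKQ hd0 hdK
  have eT : ∀ R : LS[X], T0 (1 : ℚ).den (1 : ℚ).den_pos (1 : ℚ).num R = T0 1 one_pos 1 R :=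
    fun R => T0_congr Rat.den_one _ _ Rat.num_one R
  rw [eT, eT] at key
  obtain ⟨hLP, hLQ, ⟨μ, κ, κ', hκ, hκ', hp, hq⟩, ω, hω, hLN, hdeg, hne⟩ := key
  have hω' : ω = α * ne a b := by
    have : 4 * ω = 4 * (α * ne a b) := by rw [hω]; ring
    omega
  rw [hω'] at hLN hdeg hne
  obtain ⟨c, hc, hbr⟩ := h.hbr
  refine ⟨μ, ?_, ?_, ?_, ?_, ?_⟩
  · refine shift_corner μ hLP ?_ ?_
    · rw [hp]; exact (l4_mult hκ _).1
    · rw [hp, (l4_mult hκ _).2, mul_comm]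
  · refine shift_corner μ hLQ ?_ ?_
    · rw [hq]; exact (l4_mult hκ' _).1
    · rw [hq, (l4_mult hκ' _).2, mul_comm]
  · refine ⟨((1 : ℕ) : ℂ) * c, by simpa using hc, ?_⟩
    have h1 := brB_T0_single 1 one_pos 1 P Q _ c hbr
    have h2 := brB_shift_single μ _ _ _ _ h1
    rw [h2]
    congr 2
    push_cast; ring_nf
  · rw [← shift_ev]
    exact LowB_shift μ hLN
  · rw [← shift_ev, ← lev_coeff, lev_shift]
    exact l4_comp hne μ hdeg

end ModL4

end Pool.Agent.Lib.MP_2d59ee_ag.J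

/-! Part L5 -/
/-! ## Row L5: the final substitution on the left side

`exists_aux_poly`, `left_start` (state `α = 3`), `left_step` twice (states `2` and `1`, with
`μ = s₁` and then `μ = l`), then `left_slopes` for `α = 1` and `lowB_T0` with `K = 1`, `δ = 4 - 4 = 0`:
`LowB (T0 1 _ 1 P₃) 0`. Compute the composed substitution (`T0_ev`, `shift_ev`, `T0_X`, `T0_C_tm`,
`shift_X`, `shift_C`): `PhL`: `z ↦ X`, `w ↦ C (tm (-1))`; `T0 1 1`: `z ↦ C (tm 1) * X`; `shift s₁`: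
`z ↦ C (tm 1) * (X + cL s₁)`; `T0 1 1`: `z ↦ C (tm 1) * (C (tm 1) * X + cL s₁)`; `shift l`:
`z ↦ C (tm 1) * (C (tm 1) * (X + cL l) + cL s₁)`; `T0 1 1`:
`z ↦ C (tm 1) * (C (tm 1) * (C (tm 1) * X + cL l) + cL s₁) = zL s₁ l`; `w` stays `C (tm (-1))`. -/

namespace Pool.Agent.Lib.MP_2d59ee_ag.J

section ModL5

open Polynomial

theorem l5_mul (q : ℕ) (hq : 0 < q) (s : ℤ) (P Q : LS[X]) :
    T0 q hq s (P * Q) = T0 q hq s P * T0 q hq s Q := T0_mul q hq s P Q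

theorem l5_add (q : ℕ) (hq : 0 < q) (s : ℤ) (P Q : LS[X]) :
    T0 q hq s (P + Q) = T0 q hq s P + T0 q hq s Q := (T0r q hq s).map_add P Q

theorem l5_sadd (μ : ℂ) (P Q : LS[X]) :
    shift μ (P + Q) = shift μ P + shift μ Q := (shiftr μ).map_add P Q

theorem l5_tm_mul (m n : ℤ) : (tm m * tm n : LS) = tm (m + n) := by
  simp [tm]

/-- the composed substitution -/
theorem l5_comp (s₁ l : ℂ) (F : MP) :
    T0 1 one_pos 1 (shift l (T0 1 one_pos 1 (shift s₁ (T0 1 one_pos 1 (PhL F)))))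
      = ev cL (zL s₁ l) (C (tm (-1))) F := by
  have hw : ∀ n : ℤ, T0 1 one_pos 1 (C (tm n)) = C (tm n) := by
    intro n
    rw [T0_C_tm]
    congr 2
    push_cast
    ring
  rw [PhL, T0_ev, shift_ev, T0_ev, shift_ev, T0_ev]
  rw [hw, shift_C, hw, shift_C, hw]
  have h2 : (C (tm 2) : LS[X]) = C (tm 1) * C (tm 1) := by
    rw [← C_mul, l5_tm_mul]; rfl
  have h3 : (C (tm 3) : LS[X]) = C (tm 1) * (C (tm 1) * C (tm 1)) := by
    rw [← C_mul, ← C_mul, l5_tm_mul, l5_tm_mul]; rfl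
  have key : T0 1 one_pos 1 (shift l (T0 1 one_pos 1 (shift s₁ (T0 1 one_pos 1 X)))) = zL s₁ l := by
    rw [T0_X, shift_mul, shift_C, shift_X, l5_mul, hw, l5_add, T0_X, T0_cL, shift_mul, shift_C,
      l5_sadd, shift_mul, shift_C, shift_X, shift_cL, l5_mul, hw, l5_add, l5_mul, hw, l5_add, T0_X,
      T0_cL, T0_cL]
    rw [zL, h2, h3]
    ring1
  rw [key]

theorem l5_low {c : ℕ} {P : LS[X]} (hP : Corner P c ((4 * 1 : ℕ) : ℤ) 4 0)
    (hK : AtLevel P c ((4 * 1 : ℕ) : ℤ) 4 1) : LowB (T0 1 one_pos 1 P) 0 := by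
  have h := lowB_T0 hP (K := 1) (by norm_num) hK 0 (by simp)
  have h1 : T0 (1 : ℚ).den (1 : ℚ).den_pos (1 : ℚ).num P = T0 1 one_pos 1 P :=
    T0_congr (by simp) _ _ (by simp) P
  rw [h1] at h
  simpa using h

theorem left_final {a b : ℕ} (ha : 2 ≤ a) (hlt : a < b) (hab : Nat.Coprime a b) {F G : MP}
    (h : Shape3 a b F G) : ∃ s₁ l : ℂ,
      LowB (ev cL (zL s₁ l) (C (tm (-1))) F) 0 ∧ LowB (ev cL (zL s₁ l) (C (tm (-1))) G) 0 := by
  obtain ⟨Φ, hΦ, h1, h2⟩ := exists_aux_poly ha hlt hab h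
  have t3 : LSt a b Φ 3 (PhL F) (PhL G) := left_start ha hlt hab h.toShape2.toShape hΦ h1 h2
  obtain ⟨s₁, t2⟩ := left_step (α := 2) ha hlt hab (by norm_num) hΦ t3
  obtain ⟨l, t1⟩ := left_step (α := 1) ha hlt hab (by norm_num) hΦ t2
  obtain ⟨aP, aQ⟩ := left_slopes (α := 1) ha hlt hab le_rfl hΦ t1
  refine ⟨s₁, l, ?_, ?_⟩
  · rw [← l5_comp]
    exact l5_low t1.cP aP
  · rw [← l5_comp]
    exact l5_low t1.cQ aQ

end ModL5

end Pool.Agent.Lib.MP_2d59ee_ag.J
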