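import Mathlib
import Pool.Agent.Lib.MP_2d59ee_ag.JBase

set_option autoImplicit false

/-! Part A1 -/
/-! ## Row A1: the change of coordinates `z = x + 1`, `w = x + y`

`co F (z, w) = F (z - 1, w + 1 - z)`.

`co_w`: `F = Σ c_d x^(d 0) y^(d 1)`; `co` of a monomial is `(z - 1)^i (w + (1 - z))^j`, whose
`w`-degree (`MvPolynomial.degreeOf 1`) is at most `j ≤ N`.
`co_top`: only monomials with `d 1 = n` contribute to `w^n`, with coefficient `(z-1)^(d 0)` there, and
`d 0 ≤ m` because of the total degree; so `z^m w^n` gets only the contribution of `d = pt m n`,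
with factor `1`. A possible way: work with the coefficient of `w^n`; or write
`(w + (1 - z))^j = Σ binom(j,k) w^k (1-z)^(j-k)` (`add_pow`).
`jac_co`: `jac_ev` and `jac (X 0 - 1) (X 1 + 1 - X 0) = 1`. -/

namespace Pool.Agent.Lib.MP_2d59ee_ag.J

section ModA1

open Polynomial

/-- the change of coordinates -/
noncomputable def co (F : MP) : MP :=
  ev MvPolynomial.C (MvPolynomial.X 0 - 1) (MvPolynomial.X 1 + 1 - MvPolynomial.X 0) F

theorem a1_coeff (f : ℂ[X]) (k i j : ℕ) :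
    (Polynomial.aeval (MvPolynomial.X 0 : MP) f * MvPolynomial.X 1 ^ k).coeff (pt i j)
      = if j = k then f.coeff i else 0 := by
  induction f using Polynomial.induction_on' with
  | add f g hf hg =>
    rw [map_add, add_mul, MvPolynomial.coeff_add, hf, hg, Polynomial.coeff_add]
    split_ifs <;> simp
  | monomial n a =>
    have h1 : Polynomial.aeval (MvPolynomial.X 0 : MP) (Polynomial.monomial n a)
        * MvPolynomial.X 1 ^ k = MvPolynomial.monomial (pt n k) a := by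
      rw [Polynomial.aeval_monomial, MvPolynomial.algebraMap_eq,
        MvPolynomial.X_pow_eq_monomial, MvPolynomial.X_pow_eq_monomial,
        MvPolynomial.C_mul_monomial, MvPolynomial.monomial_mul]
      simp [pt]
    rw [h1, MvPolynomial.coeff_monomial, Polynomial.coeff_monomial]
    by_cases hj : j = k
    · subst hj
      by_cases hn : n = i
      · subst hn; simp
      · have : pt n j ≠ pt i j := fun h => hn (pt_inj.1 h).1
        simp [this, hn]
    · have : pt n k ≠ pt i j := fun h => hj (pt_inj.1 h).2.symm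
      simp [this, hj]

theorem a1_term (c : ℂ) (p q i j : ℕ) :
    (MvPolynomial.C c * (MvPolynomial.X 0 - 1) ^ p
        * (MvPolynomial.X 1 + 1 - MvPolynomial.X 0) ^ q : MP).coeff (pt i j)
      = if j ≤ q then (Polynomial.C (c * (q.choose j : ℂ)) * (Polynomial.X - 1) ^ p
          * (1 - Polynomial.X) ^ (q - j)).coeff i else 0 := by
  have h1 : (MvPolynomial.C c * (MvPolynomial.X 0 - 1) ^ p
        * (MvPolynomial.X 1 + 1 - MvPolynomial.X 0) ^ q : MP)
      = ∑ k ∈ Finset.range (q + 1), Polynomial.aeval (MvPolynomial.X 0 : MP)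
          (Polynomial.C (c * (q.choose k : ℂ)) * (Polynomial.X - 1) ^ p
          * (1 - Polynomial.X) ^ (q - k)) * MvPolynomial.X 1 ^ k := by
    have h2 : (MvPolynomial.X 1 + 1 - MvPolynomial.X 0 : MP)
        = MvPolynomial.X 1 + (1 - MvPolynomial.X 0) := by ring
    rw [h2, add_pow, Finset.mul_sum]
    refine Finset.sum_congr rfl (fun k _ => ?_)
    simp only [map_mul, map_pow, map_sub, Polynomial.aeval_X, Polynomial.aeval_C, map_one,
      MvPolynomial.algebraMap_eq, map_natCast]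
    ring
  rw [h1, MvPolynomial.coeff_sum]
  simp only [a1_coeff]
  rw [Finset.sum_ite_eq]
  simp only [Finset.mem_range, Nat.lt_succ_iff]

theorem a1_coeff_co (F : MP) (i j : ℕ) :
    (co F).coeff (pt i j) = ∑ d ∈ F.support, (if j ≤ d 1 then
        (Polynomial.C (F.coeff d * ((d 1).choose j : ℂ)) * (Polynomial.X - 1) ^ (d 0)
          * (1 - Polynomial.X) ^ (d 1 - j)).coeff i else 0) := by
  rw [co, ev_eq_sum, MvPolynomial.coeff_sum]
  exact Finset.sum_congr rfl (fun d _ => a1_term _ _ _ _ _)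

theorem co_w {F : MP} {N : ℕ} (h : ∀ i j, F.coeff (pt i j) ≠ 0 → j ≤ N) :
    ∀ i j, (co F).coeff (pt i j) ≠ 0 → j ≤ N := by
  intro i j hij
  by_contra hN
  apply hij
  rw [a1_coeff_co]
  refine Finset.sum_eq_zero (fun d hd => ?_)
  have h1 : d 1 ≤ N := h (d 0) (d 1) (by
    rw [pt_eta]; exact MvPolynomial.mem_support_iff.1 hd)
  rw [if_neg (by omega)]

theorem co_top {F : MP} {m n : ℕ} (h : ∀ i j, F.coeff (pt i j) ≠ 0 → j ≤ n ∧ i + j ≤ m + n) :
    (co F).coeff (pt m n) = F.coeff (pt m n) := by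
  rw [a1_coeff_co]
  have hterm : ∀ d ∈ F.support, (if n ≤ d 1 then
        (Polynomial.C (F.coeff d * ((d 1).choose n : ℂ)) * (Polynomial.X - 1) ^ (d 0)
          * (1 - Polynomial.X) ^ (d 1 - n)).coeff m else 0)
      = if d = pt m n then F.coeff d else 0 := by
    intro d hd
    have hne : F.coeff (pt (d 0) (d 1)) ≠ 0 := by
      rw [pt_eta]; exact MvPolynomial.mem_support_iff.1 hd
    obtain ⟨h1, h2⟩ := h _ _ hne
    by_cases hn : n ≤ d 1
    · have h3 : d 1 = n := le_antisymm h1 hn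
      rw [if_pos hn, h3, Nat.choose_self, Nat.sub_self, pow_zero, mul_one, Nat.cast_one, mul_one,
        Polynomial.coeff_C_mul]
      have h4 : (Polynomial.X - 1 : ℂ[X]) = Polynomial.X - Polynomial.C 1 := by
        rw [Polynomial.C_1]
      by_cases hm : d 0 = m
      · have h5 : d = pt m n := by rw [← pt_eta d, hm, h3]
        have h6 : ((Polynomial.X - 1 : ℂ[X]) ^ (d 0)).coeff m = 1 := by
          have h7 := ((Polynomial.monic_X_sub_C (1 : ℂ)).pow m).coeff_natDegree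
          rw [Polynomial.natDegree_pow, Polynomial.natDegree_X_sub_C, mul_one] at h7
          rw [hm, h4]; exact h7
        rw [h6, if_pos h5, mul_one]
      · have h5 : d ≠ pt m n := by
          intro h; apply hm; rw [h, pt_0]
        have h6 : ((Polynomial.X - 1 : ℂ[X]) ^ (d 0)).coeff m = 0 := by
          apply Polynomial.coeff_eq_zero_of_natDegree_lt
          rw [h4, Polynomial.natDegree_pow, Polynomial.natDegree_X_sub_C, mul_one]
          omega
        rw [h6, if_neg h5, mul_zero]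
    · have h5 : d ≠ pt m n := by
        intro h; apply hn; rw [h, pt_1]
      rw [if_neg hn, if_neg h5]
  rw [Finset.sum_congr rfl hterm, Finset.sum_ite_eq']
  by_cases hs : pt m n ∈ F.support
  · rw [if_pos hs]
  · rw [if_neg hs]
    exact (MvPolynomial.notMem_support_iff.1 hs).symm

theorem jac_co (F G : MP) : jac (co F) (co G) = co (jac F G) := by
  have h : jac (MvPolynomial.X 0 - 1 : MP) (MvPolynomial.X 1 + 1 - MvPolynomial.X 0) = 1 := by
    have h10 : MvPolynomial.pderiv (R := ℂ) (1 : Fin 2) (MvPolynomial.X 0) = 0 :=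
      MvPolynomial.pderiv_X_of_ne (by decide)
    have h01 : MvPolynomial.pderiv (R := ℂ) (0 : Fin 2) (MvPolynomial.X 1) = 0 :=
      MvPolynomial.pderiv_X_of_ne (by decide)
    simp only [jac, map_sub, map_add, MvPolynomial.pderiv_X_self, h10, h01,
      MvPolynomial.pderiv_one]
    ring
  rw [co, co, jac_ev, h, mul_one, co]

end ModA1

end Pool.Agent.Lib.MP_2d59ee_ag.J

/-! Part A2 -/
/-! ## Row A2: the `z`-degree of `co F` (condition 3)

`F = Σ_D F_D` (homogeneous components, `MvPolynomial.sum_homogeneousComponent`), `D ≤ m + n`.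
For `D = m + n - i` with `i ≤ n` one has `F_D = (x + y)^(n - i) * g`, and `g` may be taken homogeneous
of degree `m` (compare homogeneous components; or: `co` of `F_D` is a polynomial in `z - 1` and `w`
which is a form of degree `D` in `(z - 1, w)` — since `x = z - 1`, `y = w - (z - 1)` — divisible by
`w^(n-i)`, because `co (x + y) = w`; so each of its monomials `(z-1)^k w^(D-k)` has `D - k ≥ n - i`,
i.e. `k ≤ m`). For `D < m` the `z`-degree of `co F_D` is at most `D ≤ m` anyway.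
A clean way: first put `cx F (x, w) = F (x, w - x)` (which preserves homogeneous components and sends
`x + y` to `w`), prove that every monomial `x^i w^j` of `cx F` has `i ≤ m`, then
`co F = (cx F) (z - 1, w)`. -/

namespace Pool.Agent.Lib.MP_2d59ee_ag.J

section ModA2

open Polynomial

theorem a2_deg_add (i : Fin 2) (p q : MP) {m : ℕ} (hp : MvPolynomial.degreeOf i p ≤ m)
    (hq : MvPolynomial.degreeOf i q ≤ m) : MvPolynomial.degreeOf i (p + q) ≤ m :=
  (MvPolynomial.degreeOf_add_le i p q).trans (max_le hp hq)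

theorem a2_deg_x : MvPolynomial.degreeOf 0 ((MvPolynomial.X 0 - 1 : MP)) ≤ 1 := by
  refine (MvPolynomial.degreeOf_sub_le 0 _ _).trans (max_le ?_ ?_)
  · rw [MvPolynomial.degreeOf_X]; split_ifs <;> omega
  · rw [MvPolynomial.degreeOf_one]; omega

theorem a2_deg_y :
    MvPolynomial.degreeOf 0 ((MvPolynomial.X 1 + 1 - MvPolynomial.X 0 : MP)) ≤ 1 := by
  refine (MvPolynomial.degreeOf_sub_le 0 _ _).trans (max_le ?_ ?_)
  · refine a2_deg_add 0 _ _ ?_ ?_
    · rw [MvPolynomial.degreeOf_X]; split_ifs <;> omega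
    · rw [MvPolynomial.degreeOf_one]; omega
  · rw [MvPolynomial.degreeOf_X]; split_ifs <;> omega

/-- the total degree bounds the degree in the first variable of `co G` -/
theorem a2_co_deg (G : MP) : MvPolynomial.degreeOf 0 (co G) ≤ G.totalDegree := by
  rw [co, ev_eq_sum]
  refine (MvPolynomial.degreeOf_sum_le 0 _ _).trans (Finset.sup_le fun d hd => ?_)
  have h1 : d 0 + d 1 ≤ G.totalDegree := by
    have := MvPolynomial.le_totalDegree hd
    rw [Finsupp.sum_fintype _ _ (by simp)] at this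
    simpa using this
  have hx := (MvPolynomial.degreeOf_pow_le 0 (MvPolynomial.X 0 - 1 : MP) (d 0)).trans
    (Nat.mul_le_mul_left (d 0) a2_deg_x)
  have hy := (MvPolynomial.degreeOf_pow_le 0 (MvPolynomial.X 1 + 1 - MvPolynomial.X 0 : MP)
    (d 1)).trans (Nat.mul_le_mul_left (d 1) a2_deg_y)
  have h2 := MvPolynomial.degreeOf_mul_le 0
    (MvPolynomial.C (G.coeff d) * (MvPolynomial.X 0 - 1 : MP) ^ (d 0))
    ((MvPolynomial.X 1 + 1 - MvPolynomial.X 0 : MP) ^ (d 1))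
  have h3 := MvPolynomial.degreeOf_mul_le 0 (MvPolynomial.C (G.coeff d))
    ((MvPolynomial.X 0 - 1 : MP) ^ (d 0))
  rw [MvPolynomial.degreeOf_C] at h3
  omega

theorem a2_co_pow (k : ℕ) : co ((MvPolynomial.X 0 + MvPolynomial.X 1 : MP) ^ k)
    = MvPolynomial.X 1 ^ k := by
  rw [co, map_pow, map_add, ev_X0, ev_X1]
  congr 1
  ring

theorem a2_co_mul (F G : MP) : co (F * G) = co F * co G := by
  simp only [co, map_mul]

theorem a2_co_sum {ι : Type*} (s : Finset ι) (f : ι → MP) :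
    co (∑ i ∈ s, f i) = ∑ i ∈ s, co (f i) := by
  simp only [co, map_sum]

theorem a2_hom : MvPolynomial.IsHomogeneous (MvPolynomial.X 0 + MvPolynomial.X 1 : MP) 1 :=
  (MvPolynomial.isHomogeneous_X ℂ 0).add (MvPolynomial.isHomogeneous_X ℂ 1)

theorem a2_ne : (MvPolynomial.X 0 + MvPolynomial.X 1 : MP) ≠ 0 := by
  intro h
  have h1 := congrArg (MvPolynomial.eval (fun _ => (1 : ℂ))) h
  simp at h1

theorem a2_piece {G : MP} {m k : ℕ} (hG : G.totalDegree ≤ m + k)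
    (hd : ((MvPolynomial.X 0 + MvPolynomial.X 1 : MP) ^ k) ∣ G) :
    MvPolynomial.degreeOf 0 (co G) ≤ m := by
  obtain ⟨g, rfl⟩ := hd
  by_cases hg : g = 0
  · subst hg
    simp [co]
  have hne : (MvPolynomial.X 0 + MvPolynomial.X 1 : MP) ^ k ≠ 0 := pow_ne_zero _ a2_ne
  rw [MvPolynomial.totalDegree_mul_of_isDomain hne hg, (a2_hom.pow k).totalDegree hne] at hG
  rw [a2_co_mul, a2_co_pow]
  have h1 := MvPolynomial.degreeOf_mul_le 0 ((MvPolynomial.X 1 : MP) ^ k) (co g)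
  have h2 := MvPolynomial.degreeOf_pow_le 0 (MvPolynomial.X 1 : MP) k
  have h3 : MvPolynomial.degreeOf 0 (MvPolynomial.X 1 : MP) = 0 := by
    rw [MvPolynomial.degreeOf_X]; simp
  rw [h3, mul_zero] at h2
  have h4 := a2_co_deg g
  omega

theorem co_z {F : MP} {m n : ℕ} (h : ∀ i j, F.coeff (pt i j) ≠ 0 → j ≤ n ∧ i + j ≤ m + n)
    (hdiv : ∀ i : ℕ, i ≤ n →
      ((MvPolynomial.X 0 + MvPolynomial.X 1 : MP) ^ (n - i)) ∣
          MvPolynomial.homogeneousComponent (m + n - i) F) :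
    ∀ i j, (co F).coeff (pt i j) ≠ 0 → i ≤ m := by
  have htot : F.totalDegree ≤ m + n := by
    rw [MvPolynomial.totalDegree]
    refine Finset.sup_le fun d hd => ?_
    rw [Finsupp.sum_fintype _ _ (by simp)]
    have h1 := h (d 0) (d 1) (by rw [pt_eta]; exact MvPolynomial.mem_support_iff.mp hd)
    simpa using h1.2
  have hdeg : MvPolynomial.degreeOf 0 (co F) ≤ m := by
    rw [← MvPolynomial.sum_homogeneousComponent F, a2_co_sum]
    refine (MvPolynomial.degreeOf_sum_le 0 _ _).trans (Finset.sup_le fun D hD => ?_)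
    have hD' : D ≤ m + n := by
      rw [Finset.mem_range] at hD; omega
    have hDt : (MvPolynomial.homogeneousComponent D F).totalDegree ≤ D :=
      (MvPolynomial.homogeneousComponent_isHomogeneous D F).totalDegree_le
    rcases Nat.lt_or_ge D m with hlt | hge
    · exact (a2_co_deg _).trans (hDt.trans hlt.le)
    · have h1 := hdiv (m + n - D) (by omega)
      have h2 : m + n - (m + n - D) = D := by omega
      rw [h2] at h1
      exact a2_piece (k := n - (m + n - D)) (by omega) h1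
  intro i j hij
  have h1 := MvPolynomial.monomial_le_degreeOf 0 (MvPolynomial.mem_support_iff.mpr hij)
  rw [pt_0] at h1
  exact h1.trans hdeg

end ModA2

end Pool.Agent.Lib.MP_2d59ee_ag.J

/-! Part A3 -/
/-! ## Row A3: the coefficient of `w^n` in `co F` (condition 2 for `i = 0`)

Let `F⁽ⁿ⁾ = weightedHomogeneousComponent ![0,1] n F = f(x) y^n` (its monomials are the monomials of `F`
with `d 1 = n`) and `F = F⁽ⁿ⁾ + F'` where all monomials of `F'` have `d 1 < n`. By `co_w` the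
polynomial `co F'` has no monomial `z^i w^n`. And `(x + 1)^m ∣ F⁽ⁿ⁾` gives `z^m ∣ co F⁽ⁿ⁾`
(`co (X 0 + 1) = X 0`), so all monomials `z^i w^j` of `co F⁽ⁿ⁾` have `i ≥ m`. -/

namespace Pool.Agent.Lib.MP_2d59ee_ag.J

section ModA3

open Polynomial

private theorem a3_weight (d : Fin 2 →₀ ℕ) :
    Finsupp.weight (![(0:ℕ), 1] : Fin 2 → ℕ) d = d 1 := by
  rw [Finsupp.weight_apply, Finsupp.sum_fintype _ _ (fun i => by simp)]
  simp

private theorem a3_dvd {H : MP} {m : ℕ} (h : (MvPolynomial.X 0 : MP) ^ m ∣ H) (i j : ℕ)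
    (hc : H.coeff (pt i j) ≠ 0) : m ≤ i := by
  obtain ⟨K, rfl⟩ := h
  rw [MvPolynomial.X_pow_eq_monomial, MvPolynomial.coeff_monomial_mul'] at hc
  by_contra hcon
  apply hc
  rw [if_neg]
  intro hle
  have h1 := hle 0
  rw [Finsupp.single_eq_same, pt_0] at h1
  exact hcon h1

theorem co_lead {F : MP} {m n : ℕ} (h : ∀ i j, F.coeff (pt i j) ≠ 0 → j ≤ n)
    (hdiv : ((MvPolynomial.X 0 + 1 : MP) ^ m) ∣
          MvPolynomial.weightedHomogeneousComponent (![(0:ℕ), 1] : Fin 2 → ℕ) n F) :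
    ∀ i, (co F).coeff (pt i n) ≠ 0 → m ≤ i := by
  intro i hi
  set Fn : MP := MvPolynomial.weightedHomogeneousComponent (![(0:ℕ), 1] : Fin 2 → ℕ) n F with hFn
  have hcoeff : ∀ i j, Fn.coeff (pt i j) = if j = n then F.coeff (pt i j) else 0 := by
    intro i j
    rw [hFn, MvPolynomial.coeff_weightedHomogeneousComponent, a3_weight, pt_1]
  have hF' : ∀ i j, (F - Fn).coeff (pt i j) ≠ 0 → j < n := by
    intro i j hc
    rw [MvPolynomial.coeff_sub, hcoeff] at hc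
    by_cases hj : j = n
    · rw [if_pos hj, sub_self] at hc
      exact absurd rfl hc
    · rw [if_neg hj, sub_zero] at hc
      exact lt_of_le_of_ne (h i j hc) hj
  have hz : (co (F - Fn)).coeff (pt i n) = 0 := by
    by_contra hne
    rcases Nat.eq_zero_or_pos n with h0 | h0
    · have h1 : F - Fn = 0 := by
        ext d
        rw [MvPolynomial.coeff_zero, ← pt_eta d]
        by_contra h2
        have := hF' _ _ h2
        omega
      rw [h1] at hne
      apply hne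
      simp [co]
    · have h1 := co_w (F := F - Fn) (N := n - 1) (fun i j hc => by
        have := hF' i j hc
        omega) i n hne
      omega
  have hsum : co F = co (F - Fn) + co Fn := by
    unfold co
    rw [← map_add]
    congr 1
    ring
  rw [hsum, MvPolynomial.coeff_add, hz, zero_add] at hi
  have hd : (MvPolynomial.X 0 : MP) ^ m ∣ co Fn := by
    have h1 := map_dvd (ev MvPolynomial.C (MvPolynomial.X 0 - 1 : MP)
      (MvPolynomial.X 1 + 1 - MvPolynomial.X 0)) hdiv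
    rw [map_pow, map_add, map_one, ev_X0, sub_add_cancel] at h1
    exact h1
  exact a3_dvd hd i n hi

end ModA3

end Pool.Agent.Lib.MP_2d59ee_ag.J

/-! Part A4 -/
/-! ## Row A4: the `z`-degree of the partner

Let `ζ` be the maximal `i` with `G.coeff (pt i j) ≠ 0` for some `j` (exists: `G ≠ 0`), and suppose
`ζ > 4 b`. Put `P = PhR F`, `Q = PhR G`: `LowB P (-(4a))`, `LowB Q (-ζ)` (`PhR_ne`), `p = lev (-(4a)) P`
has degree exactly `12 a` (its coefficient of `X^j` is `F.coeff (pt (4a) j)`, `PhR_coeff`),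
`q = lev (-ζ) Q ≠ 0` has degree `≤ 12 b`. The bracket is `C (single (-1) (-c))` (`brB_PhR`), its
coefficient at `t^(-(4a + ζ))` vanishes, so `lev_comm` gives `4a p q' = ζ p' q`; comparing the
leading coefficients (`4a · deg q = ζ · deg p = ζ · 12a`): `deg q = 3 ζ > 12 b`, contradiction. -/

namespace Pool.Agent.Lib.MP_2d59ee_ag.J

section ModA4

open Polynomial

theorem a4_coeff (q : ℂ[X]) (m : ℕ) : (X * derivative q).coeff m = (m : ℂ) * q.coeff m := by
  cases m with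
  | zero => simp
  | succ k =>
    rw [coeff_X_mul, coeff_derivative]
    push_cast
    ring

theorem a4_deg (q : ℂ[X]) {m : ℕ} (h : q.natDegree ≤ m) : (X * derivative q).natDegree ≤ m := by
  rw [natDegree_le_iff_coeff_eq_zero]
  intro N hN
  rw [a4_coeff, coeff_eq_zero_of_natDegree_lt (lt_of_le_of_lt h hN), mul_zero]

theorem a4_low {F : MP} {A : ℕ} (h : ∀ i j, F.coeff (pt i j) ≠ 0 → i ≤ A) :
    LowB (PhR F) (-(A : ℤ)) := by
  intro n hn
  ext j
  rw [lev_coeff, coeff_zero]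
  by_contra hne
  obtain ⟨i, hi, hF⟩ := PhR_ne hne
  have := h i j hF
  omega

theorem partner_z {a b : ℕ} (ha : 0 < a) {F G : MP}
    (hF : ∀ i j, F.coeff (pt i j) ≠ 0 → i ≤ 4 * a ∧ j ≤ 12 * a)
    (hFt : F.coeff (pt (4 * a) (12 * a)) ≠ 0)
    (hG : ∀ i j, G.coeff (pt i j) ≠ 0 → j ≤ 12 * b)
    (hJ : ∃ c : ℂ, c ≠ 0 ∧ jac F G = MvPolynomial.C c) :
    ∀ i j, G.coeff (pt i j) ≠ 0 → i ≤ 4 * b := by
  intro i₁ j₁ h₁
  by_contra hlt
  push Not at hlt
  obtain ⟨c, hc, hJ⟩ := hJ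
  have hne : G.support.Nonempty := ⟨pt i₁ j₁, MvPolynomial.mem_support_iff.2 h₁⟩
  obtain ⟨d, hd, hmax⟩ := Finset.exists_max_image G.support (fun d => d 0) hne
  set z : ℕ := d 0 with hz
  have hG0 : ∀ i j, G.coeff (pt i j) ≠ 0 → i ≤ z := by
    intro i j hij
    have := hmax (pt i j) (MvPolynomial.mem_support_iff.2 hij)
    simpa using this
  have hzb : 4 * b < z := lt_of_lt_of_le hlt (hG0 i₁ j₁ h₁)
  have hP : LowB (PhR F) (-((4 * a : ℕ) : ℤ)) := a4_low (fun i j h => (hF i j h).1)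
  have hQ : LowB (PhR G) (-(z : ℤ)) := a4_low hG0
  have hbr := brB_PhR F G c hJ
  have h0 : lev (-(((4 * a : ℕ) : ℤ) + z)) (brB (PhR F) (PhR G)) = 0 := by
    rw [hbr, lev_C_single, if_neg]
    push_cast
    omega
  have hcomm := lev_comm hP hQ h0
  set p := lev (-((4 * a : ℕ) : ℤ)) (PhR F) with hp
  set q := lev (-(z : ℤ)) (PhR G) with hq
  have hpc : ∀ j, p.coeff j = F.coeff (pt (4 * a) j) := fun j => by
    rw [hp, lev_coeff, PhR_coeff]
  have hqc : ∀ j, q.coeff j = G.coeff (pt z j) := fun j => by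
    rw [hq, lev_coeff, PhR_coeff]
  have hpd : p.natDegree ≤ 12 * a := by
    rw [natDegree_le_iff_coeff_eq_zero]
    intro N hN
    by_contra hne
    rw [hpc] at hne
    have := (hF _ _ hne).2
    omega
  have hqd : q.natDegree ≤ 12 * b := by
    rw [natDegree_le_iff_coeff_eq_zero]
    intro N hN
    by_contra hne
    rw [hqc] at hne
    have := hG _ _ hne
    omega
  have hq0 : q ≠ 0 := by
    intro h
    have h2 : q.coeff (d 1) = 0 := by rw [h, coeff_zero]
    rw [hqc, hz, pt_eta] at h2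
    exact MvPolynomial.mem_support_iff.1 hd h2
  have hX : C ((4 * a : ℕ) : ℂ) * (p * (X * derivative q))
      = C (z : ℂ) * ((X * derivative p) * q) := by
    linear_combination X * hcomm
  have hcoe := congrArg (fun r : ℂ[X] => r.coeff (12 * a + q.natDegree)) hX
  simp only [coeff_C_mul] at hcoe
  rw [coeff_mul_add_eq_of_natDegree_le hpd (a4_deg q le_rfl),
    coeff_mul_add_eq_of_natDegree_le (a4_deg p hpd) le_rfl, a4_coeff, a4_coeff] at hcoe
  have hpl : p.coeff (12 * a) ≠ 0 := by rw [hpc]; exact hFt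
  have hql : q.coeff q.natDegree ≠ 0 := by
    rw [coeff_natDegree]
    exact leadingCoeff_ne_zero.2 hq0
  have h5 : ((4 * a : ℕ) : ℂ) * (q.natDegree : ℂ) = (z : ℂ) * ((12 * a : ℕ) : ℂ) := by
    have h6 : (((4 * a : ℕ) : ℂ) * (q.natDegree : ℂ) - (z : ℂ) * ((12 * a : ℕ) : ℂ))
        * (p.coeff (12 * a) * q.coeff q.natDegree) = 0 := by
      linear_combination hcoe
    rcases mul_eq_zero.1 h6 with h | h
    · exact sub_eq_zero.1 h
    · exact absurd h (mul_ne_zero hpl hql)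
  have h7 : 4 * a * q.natDegree = z * (12 * a) := by exact_mod_cast h5
  have h8 : q.natDegree = 3 * z := by
    have : a * q.natDegree = a * (3 * z) := by nlinarith
    exact Nat.eq_of_mul_eq_mul_left ha this
  omega

end ModA4

end Pool.Agent.Lib.MP_2d59ee_ag.J

/-! Part A5 -/
/-! ## Row A5: the shape of the pair in the new coordinates (assembly of A1-A4)

Apply A1-A4 with `m = 4 a`, `n = 12 a` (for `F`), `4 b`, `12 b` (for `G`). -/

namespace Pool.Agent.Lib.MP_2d59ee_ag.J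

section ModA5

open Polynomial

theorem shape_of {a b : ℕ} (ha : 0 < a) {F G : MP}
    (hF : ∀ d ∈ F.support, d 1 ≤ a * 12 ∧ d 0 + d 1 ≤ a * 4 + a * 12)
    (hG : ∀ d ∈ G.support, d 1 ≤ b * 12 ∧ d 0 + d 1 ≤ b * 4 + b * 12)
    (hFv : ∃ d : Fin 2 →₀ ℕ, d 0 = a * 4 ∧ d 1 = a * 12 ∧ F.coeff d ≠ 0)
    (hGv : ∃ d : Fin 2 →₀ ℕ, d 0 = b * 4 ∧ d 1 = b * 12 ∧ G.coeff d ≠ 0)
    (h2 : ((MvPolynomial.X 0 + 1 : MP) ^ (a * 4)) ∣
          MvPolynomial.weightedHomogeneousComponent (![(0:ℕ), 1] : Fin 2 → ℕ) (a * 12) F)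
    (h3 : ∀ i : ℕ, i ≤ a * 12 →
      ((MvPolynomial.X 0 + MvPolynomial.X 1 : MP) ^ (a * 12 - i)) ∣
          MvPolynomial.homogeneousComponent (a * 4 + a * 12 - i) F)
    (c : ℂ) (hc : c ≠ 0)
    (hbr : MvPolynomial.pderiv 0 F * MvPolynomial.pderiv 1 G
      - MvPolynomial.pderiv 1 F * MvPolynomial.pderiv 0 G = MvPolynomial.C c) :
    Shape a b (co F) (co G) := by
  have hF1 : ∀ i j, F.coeff (pt i j) ≠ 0 → j ≤ 12 * a ∧ i + j ≤ 4 * a + 12 * a := by
    intro i j hij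
    have h1 := hF (pt i j) (MvPolynomial.mem_support_iff.mpr hij)
    rw [pt_0, pt_1] at h1
    omega
  have hG1 : ∀ i j, G.coeff (pt i j) ≠ 0 → j ≤ 12 * b ∧ i + j ≤ 4 * b + 12 * b := by
    intro i j hij
    have h1 := hG (pt i j) (MvPolynomial.mem_support_iff.mpr hij)
    rw [pt_0, pt_1] at h1
    omega
  have hFc : F.coeff (pt (4 * a) (12 * a)) ≠ 0 := by
    obtain ⟨d, hd0, hd1, hd⟩ := hFv
    rw [← pt_eta d, hd0, hd1, mul_comm a 4, mul_comm a 12] at hd
    exact hd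
  have hGc : G.coeff (pt (4 * b) (12 * b)) ≠ 0 := by
    obtain ⟨d, hd0, hd1, hd⟩ := hGv
    rw [← pt_eta d, hd0, hd1, mul_comm b 4, mul_comm b 12] at hd
    exact hd
  have hFt : (co F).coeff (pt (4 * a) (12 * a)) ≠ 0 := by
    rw [co_top hF1]; exact hFc
  have hGt : (co G).coeff (pt (4 * b) (12 * b)) ≠ 0 := by
    rw [co_top hG1]; exact hGc
  have hz : ∀ i j, (co F).coeff (pt i j) ≠ 0 → i ≤ 4 * a := by
    apply co_z hF1
    intro i hi
    have h1 := h3 i (by omega)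
    have h4 : a * 12 - i = 12 * a - i := by omega
    have h5 : a * 4 + a * 12 - i = 4 * a + 12 * a - i := by omega
    rw [h4, h5] at h1
    exact h1
  have hw : ∀ i j, (co F).coeff (pt i j) ≠ 0 → j ≤ 12 * a :=
    co_w (fun i j hij => (hF1 i j hij).1)
  have hwG : ∀ i j, (co G).coeff (pt i j) ≠ 0 → j ≤ 12 * b :=
    co_w (fun i j hij => (hG1 i j hij).1)
  have hl : ∀ i, (co F).coeff (pt i (12 * a)) ≠ 0 → 4 * a ≤ i := by
    apply co_lead (fun i j hij => (hF1 i j hij).1)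
    rw [mul_comm 4 a, mul_comm 12 a]
    exact h2
  have hJ : ∃ c : ℂ, c ≠ 0 ∧ jac (co F) (co G) = MvPolynomial.C c := by
    refine ⟨c, hc, ?_⟩
    have h1 : jac F G = MvPolynomial.C c := hbr
    rw [jac_co, h1, co, ev_C]
  refine ⟨?_, ?_, hFt, hGt, hJ⟩
  · intro i j hij
    refine ⟨hz i j hij, hw i j hij, ?_⟩
    rintro rfl
    exact le_antisymm (hz i _ hij) (hl i hij)
  · intro i j hij
    exact ⟨partner_z ha (fun i j hij => ⟨hz i j hij, hw i j hij⟩) hFt hwG hJ i j hij,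
      hwG i j hij⟩

end ModA5

end Pool.Agent.Lib.MP_2d59ee_ag.J

/-! Part R1 -/
/-! ## Row R1: the coefficient of the top power of `z`

`P = PhR F`, `Q = PhR G`: `LowB P (-(a * 4))`, `LowB Q (-(b * 4))` from `Shape.hF`, `Shape.hG` and
`PhR_ne`; `p = lev (-(a*4)) P`, `q = lev (-(b*4)) Q` are nonzero of degree exactly `12 a`, `12 b`
(`PhR_coeff`, `hFt`, `hGt`). `brB_PhR`: the bracket is `C (single (-(1:ℕ)) (-c))`.
`exists_big_root` (`A = 4 a`, `E = 1`): a root `μ` of `p` of multiplicity `> 4 a`.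
`comm_facts` (`d = 4`, `E = 1`): the multiplicities are `a ν` and `b ν`, so `ν ≥ 5`; `good_of_root`:
`Good a b ν 1 4 0`, and `main_bounds` with `x = ν - 4` gives `ν ≥ 12`; `a ν ≤ deg p = 12 a`, so `ν = 12`
and `p = C κ (X - C μ)^(12 a)`, `q = C κ' (X - C μ)^(12 b)` (a polynomial of degree `n` with a root of
multiplicity `n`). `eight_family` for the same `Good` state (`x = 8`) gives `2 b + 1 = a * 3`. -/

namespace Pool.Agent.Lib.MP_2d59ee_ag.J

section ModR1

open Polynomial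

theorem r1_pow {p : ℂ[X]} {μ : ℂ} {n : ℕ} (hp : p ≠ 0) (hdeg : p.natDegree = n)
    (hm : p.rootMultiplicity μ = n) : ∃ κ : ℂ, κ ≠ 0 ∧ p = C κ * (X - C μ) ^ n := by
  obtain ⟨q, hq⟩ := Polynomial.pow_rootMultiplicity_dvd p μ
  rw [hm] at hq
  have hq0 : q ≠ 0 := by
    rintro rfl
    exact hp (by rw [hq, mul_zero])
  have hX0 : ((X - C μ) ^ n : ℂ[X]) ≠ 0 := pow_ne_zero _ (X_sub_C_ne_zero μ)
  have h1 : q.natDegree = 0 := by
    have h2 := congrArg natDegree hq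
    rw [natDegree_mul hX0 hq0, natDegree_pow, natDegree_X_sub_C, hdeg, mul_one] at h2
    omega
  obtain ⟨κ, hκ⟩ := natDegree_eq_zero.mp h1
  refine ⟨κ, ?_, ?_⟩
  · rintro rfl
    exact hq0 (by rw [← hκ, C_0])
  · rw [hq, ← hκ, mul_comm]

theorem r1_side {c : ℕ} {F : MP} (hF : ∀ i j, F.coeff (pt i j) ≠ 0 → i ≤ 4 * c ∧ j ≤ 12 * c)
    (hFt : F.coeff (pt (4 * c) (12 * c)) ≠ 0) :
    LowB (PhR F) (-((c : ℤ) * 4)) ∧ lev (-((c : ℤ) * 4)) (PhR F) ≠ 0 ∧
      (lev (-((c : ℤ) * 4)) (PhR F)).natDegree = 12 * c := by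
  have hco : ∀ j, (lev (-((c : ℤ) * 4)) (PhR F)).coeff j = F.coeff (pt (4 * c) j) := by
    intro j
    rw [lev_coeff, ← PhR_coeff]
    congr 2
    push_cast
    ring
  refine ⟨?_, ?_, ?_⟩
  · intro n hn
    ext j
    rw [lev_coeff, coeff_zero]
    by_contra h
    obtain ⟨i, hi, hij⟩ := PhR_ne h
    have := (hF i j hij).1
    omega
  · intro h
    apply hFt
    rw [← hco, h, coeff_zero]
  · apply le_antisymm
    · rw [natDegree_le_iff_coeff_eq_zero]
      intro j hj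
      rw [hco]
      by_contra h
      have := (hF _ _ h).2
      omega
    · apply le_natDegree_of_ne_zero
      rw [hco]
      exact hFt

theorem right_top {a b : ℕ} (ha : 2 ≤ a) (hlt : a < b) (hab : Nat.Coprime a b) {F G : MP}
    (h : Shape a b F G) : 2 * b + 1 = 3 * a ∧ ∃ w₀ κ κ' : ℂ, κ ≠ 0 ∧ κ' ≠ 0 ∧
      lev (-((a : ℤ) * 4)) (PhR F) = C κ * (X - C w₀) ^ (12 * a) ∧
      lev (-((b : ℤ) * 4)) (PhR G) = C κ' * (X - C w₀) ^ (12 * b) := by
  obtain ⟨c, hc, hJ⟩ := h.hJ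
  obtain ⟨hP, hP0, hPd⟩ := r1_side (fun i j hij => ⟨(h.hF i j hij).1, (h.hF i j hij).2.1⟩) h.hFt
  obtain ⟨hQ, hQ0, hQd⟩ := r1_side h.hG h.hGt
  have hbr := brB_PhR F G c hJ
  have ecast : (-((a : ℤ) * 4)) = -((4 * a : ℕ) : ℤ) := by push_cast; ring
  obtain ⟨μ, -, hμ⟩ := exists_big_root (PhR F) (PhR G) (4 * a) 1 (by omega) (-c)
    (neg_ne_zero.mpr hc) (by rw [← ecast]; exact hP) (by rw [← ecast]; exact hP0)
    (by rw [← ecast, hPd]; omega) hbr
  rw [← ecast] at hμ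
  have haZ : (2 : ℤ) ≤ a := by exact_mod_cast ha
  have hbZ : (3 : ℤ) ≤ b := by exact_mod_cast (by omega : 3 ≤ b)
  obtain ⟨-, hmult⟩ := comm_facts (d := 4) (E := ((1 : ℕ) : ℤ)) (by omega) (by omega) hab
    (by norm_num) hbr (by exact_mod_cast hP) (by exact_mod_cast hQ) (by exact_mod_cast hP0)
    (by exact_mod_cast hQ0) (by push_cast; linarith)
  obtain ⟨ν, hν1, hν2⟩ := hmult μ
  simp only [Nat.cast_ofNat] at hν1 hν2
  have hν5 : 5 ≤ ν := by
    rw [hν1] at hμ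
    by_contra hlt5
    have : a * ν ≤ a * 4 := Nat.mul_le_mul_left a (by omega)
    omega
  have hgood : Good a b ν 1 ((4 : ℕ) : ℤ) 0 := good_of_root (d := 4) (E := 1) (by omega) (by omega)
    hab (by norm_num) (neg_ne_zero.mpr hc) hbr (by exact_mod_cast hP) (by exact_mod_cast hQ)
    (by exact_mod_cast hP0) (by exact_mod_cast hQ0) (by push_cast; linarith)
    (by exact_mod_cast hν1) (by exact_mod_cast hν2) (by omega)
  have hx : ((ν - 4 : ℕ) : ℤ) = ((1 : ℕ) : ℤ) * ν - ((4 : ℕ) : ℤ) := by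
    push_cast [show 4 ≤ ν by omega]
    ring
  have hb8 := (main_bounds a b ha hlt hab ν 1 ((4 : ℕ) : ℤ) 0 hgood (by norm_num) (ν - 4) hx).1
  have hle : a * ν ≤ a * 12 := by
    have := natDegree_le_of_dvd (pow_rootMultiplicity_dvd (lev (-((a : ℤ) * 4)) (PhR F)) μ) hP0
    rw [natDegree_pow, natDegree_X_sub_C, hν1, hPd] at this
    omega
  have hν12 : ν = 12 := by
    have := Nat.le_of_mul_le_mul_left hle (by omega)
    omega
  subst hν12
  have h23 := eight_family a b ha hlt hab 12 1 ((4 : ℕ) : ℤ) 0 hgood (by norm_num)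
    (by norm_num)
  refine ⟨by omega, μ, ?_⟩
  obtain ⟨κ, hκ, h1⟩ := r1_pow hP0 hPd (by rw [hν1]; ring)
  obtain ⟨κ', hκ', h2⟩ := r1_pow hQ0 hQd (by rw [hν2]; ring)
  exact ⟨κ, κ', hκ, hκ', h1, h2⟩

end ModR1

end Pool.Agent.Lib.MP_2d59ee_ag.J

/-! Part R2 -/
/-! ## Row R2: the translation `w ↦ w + w₀`

`tr w₀ F (z, w) = F (z, w + w₀)`. `PhR (tr w₀ F) = shift w₀ (PhR F)` (`ev_ev`, `shift_ev`). The
bounds on the exponents of `w` are kept (a monomial `z^i w^j` becomes `z^i (w + w₀)^j`), the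
coefficient of `z^i w^N` (`N` the top power of `w`) does not change, and `jac` of the substitution is
`1` (`jac_ev`). With `lev_shift` the top coefficient in `z` becomes
`C κ (X + C w₀ - C w₀)^(12 a) = C κ X^(12 a)`; by `PhR_coeff` this is `hF3` (and `hG3`). -/

namespace Pool.Agent.Lib.MP_2d59ee_ag.J

section ModR2

open Polynomial

/-- translation of `w` -/
noncomputable def tr (w₀ : ℂ) (F : MP) : MP :=
  ev MvPolynomial.C (MvPolynomial.X 0) (MvPolynomial.X 1 + MvPolynomial.C w₀) F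

theorem r2_PhR (w₀ : ℂ) (F : MP) : PhR (tr w₀ F) = shift w₀ (PhR F) := by
  have h1 : PhR (tr w₀ F) = ev cL (C (tm (-1))) X
      (ev MvPolynomial.C (MvPolynomial.X 0) (MvPolynomial.X 1 + MvPolynomial.C w₀) F) := rfl
  have h2 : PhR F = ev cL (C (tm (-1))) X F := rfl
  rw [h1, h2, ev_ev, shift_ev, shift_C, shift_X, map_add, ev_X0, ev_X1, ev_C]

theorem r2_lev_coeff (F : MP) (i j : ℕ) :
    (lev (-(i : ℤ)) (PhR F)).coeff j = F.coeff (pt i j) := by
  rw [lev_coeff, PhR_coeff]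

theorem r2_coeff (w₀ : ℂ) (F : MP) (i j : ℕ) :
    (tr w₀ F).coeff (pt i j) = (taylor w₀ (lev (-(i : ℤ)) (PhR F))).coeff j := by
  rw [← r2_lev_coeff, r2_PhR, lev_shift, taylor_apply]

theorem r2_deg {F : MP} {i N : ℕ} (h : ∀ j, F.coeff (pt i j) ≠ 0 → j ≤ N) :
    (lev (-(i : ℤ)) (PhR F)).natDegree ≤ N := by
  rw [natDegree_le_iff_coeff_eq_zero]
  intro j hj
  rw [r2_lev_coeff]
  by_contra hc
  exact absurd (h j hc) (not_le.2 hj)

theorem r2_top {p : ℂ[X]} {N : ℕ} (w : ℂ) (h : p.natDegree ≤ N) :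
    (taylor w p).coeff N = p.coeff N := by
  rcases h.lt_or_eq with h1 | h1
  · rw [coeff_eq_zero_of_natDegree_lt h1,
      coeff_eq_zero_of_natDegree_lt (by rwa [natDegree_taylor])]
  · rw [← h1]
    exact coeff_taylor_natDegree w p

/-- the properties of one of the two polynomials -/
theorem r2_one {F : MP} {A B : ℕ} {w₀ κ : ℂ}
    (h : ∀ i j, F.coeff (pt i j) ≠ 0 → i ≤ A ∧ j ≤ B)
    (ht : F.coeff (pt A B) ≠ 0)
    (hp : lev (-(A : ℤ)) (PhR F) = C κ * (X - C w₀) ^ B) :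
    (∀ i j, (tr w₀ F).coeff (pt i j) ≠ 0 → i ≤ A ∧ j ≤ B) ∧
    (tr w₀ F).coeff (pt A B) ≠ 0 ∧
    (∀ j, (tr w₀ F).coeff (pt A j) ≠ 0 → j = B) ∧
    (∀ i, (tr w₀ F).coeff (pt i B) = F.coeff (pt i B)) := by
  have hd : ∀ i : ℕ, (lev (-(i : ℤ)) (PhR F)).natDegree ≤ B := fun i => r2_deg fun j hj => (h i j hj).2
  have hB : ∀ i, (tr w₀ F).coeff (pt i B) = F.coeff (pt i B) := by
    intro i
    rw [r2_coeff, r2_top w₀ (hd i), r2_lev_coeff]
  refine ⟨?_, ?_, ?_, hB⟩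
  · intro i j hij
    constructor
    · by_contra hi
      have h0 : lev (-(i : ℤ)) (PhR F) = 0 := by
        ext j'
        rw [r2_lev_coeff, coeff_zero]
        by_contra hc
        exact hi (h i j' hc).1
      rw [r2_coeff, h0, map_zero, coeff_zero] at hij
      exact hij rfl
    · by_contra hj
      rw [r2_coeff, coeff_eq_zero_of_natDegree_lt] at hij
      · exact hij rfl
      · rw [natDegree_taylor]
        exact lt_of_le_of_lt (hd i) (not_le.1 hj)
  · rw [hB]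
    exact ht
  · intro j hj
    rw [r2_coeff, hp, taylor_apply, mul_comp, pow_comp, sub_comp, C_comp, C_comp, X_comp,
      add_sub_cancel_right, coeff_C_mul, coeff_X_pow] at hj
    by_contra hc
    rw [if_neg hc, mul_zero] at hj
    exact hj rfl

theorem shape2_of {a b : ℕ} {F G : MP} (h : Shape a b F G) {w₀ κ κ' : ℂ} (hκ : κ ≠ 0)
    (hκ' : κ' ≠ 0)
    (hp : lev (-((a : ℤ) * 4)) (PhR F) = C κ * (X - C w₀) ^ (12 * a))
    (hq : lev (-((b : ℤ) * 4)) (PhR G) = C κ' * (X - C w₀) ^ (12 * b)) :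
    Shape2 a b (tr w₀ F) (tr w₀ G) := by
  have hp' : lev (-((4 * a : ℕ) : ℤ)) (PhR F) = C κ * (X - C w₀) ^ (12 * a) := by
    rw [← hp]
    congr 1
    push_cast
    ring
  have hq' : lev (-((4 * b : ℕ) : ℤ)) (PhR G) = C κ' * (X - C w₀) ^ (12 * b) := by
    rw [← hq]
    congr 1
    push_cast
    ring
  obtain ⟨f1, f2, f3, f4⟩ := r2_one (fun i j hij => ⟨(h.hF i j hij).1, (h.hF i j hij).2.1⟩) h.hFt hp'
  obtain ⟨g1, g2, g3, g4⟩ := r2_one h.hG h.hGt hq'
  refine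
    { hF := ?_
      hG := g1
      hFt := f2
      hGt := g2
      hJ := ?_
      hF3 := f3
      hG3 := g3 }
  · intro i j hij
    refine ⟨(f1 i j hij).1, (f1 i j hij).2, ?_⟩
    rintro rfl
    rw [f4] at hij
    exact (h.hF i _ hij).2.2 rfl
  · obtain ⟨c, hc, hj⟩ := h.hJ
    refine ⟨c, hc, ?_⟩
    rw [tr, tr, jac_ev, hj, ev_C]
    have h10 : MvPolynomial.pderiv (R := ℂ) (1 : Fin 2) (MvPolynomial.X 0) = 0 :=
      MvPolynomial.pderiv_X_of_ne (by decide)
    have h11 : MvPolynomial.pderiv (R := ℂ) (1 : Fin 2) (MvPolynomial.X 1) = 1 :=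
      MvPolynomial.pderiv_X_self _
    have h00 : MvPolynomial.pderiv (R := ℂ) (0 : Fin 2) (MvPolynomial.X 0) = 1 :=
      MvPolynomial.pderiv_X_self _
    rw [jac, map_add, map_add, MvPolynomial.pderiv_C, MvPolynomial.pderiv_C, h10, h11, h00]
    ring

end ModR2

end Pool.Agent.Lib.MP_2d59ee_ag.J

/-! Part R3 -/
/-! ## Row R3: the corner `(4, 12)` on the right side

`Corner P c α N k` with `P = PhR F`, `c = a`, `α = 4`, `N = 12`, `k = 0`: `top` is `hFt` by
`PhR_coeff` (`(P.coeff (a * 12)).coeff (-(a * 4))`); `low`: for `j < a * 12` and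
`n = -i` with `F.coeff (pt i j) ≠ 0` one has `i ≤ 4 a`, and `i ≠ 4 a` by `hF3`, so `-4a < n`;
`high`: `-4a ≤ n`. Casts to `ℚ`. -/

namespace Pool.Agent.Lib.MP_2d59ee_ag.J

section ModR3

open Polynomial

theorem r3_corner {a : ℕ} {F : MP} (hF : ∀ i j, F.coeff (pt i j) ≠ 0 → i ≤ 4 * a)
    (hF3 : ∀ j, F.coeff (pt (4 * a) j) ≠ 0 → j = 12 * a)
    (hFt : F.coeff (pt (4 * a) (12 * a)) ≠ 0) : Corner (PhR F) a 4 12 0 := by
  refine ⟨?_, ?_, ?_⟩
  · have h1 : (-((a : ℤ) * 4)) = -(((4 * a : ℕ)) : ℤ) := by push_cast; ring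
    rw [h1, PhR_coeff, mul_comm a 12]
    exact hFt
  · intro j hj n hn
    obtain ⟨i, hi, hc⟩ := PhR_ne hn
    have h1 := hF i j hc
    have h2 : i ≠ 4 * a := by
      rintro rfl
      have := hF3 j hc
      omega
    have h3 : i + 1 ≤ 4 * a := by omega
    have h4 : (i : ℚ) + 1 ≤ 4 * a := by exact_mod_cast h3
    rw [hi]
    push_cast
    linarith
  · intro j hj n hn
    obtain ⟨i, hi, hc⟩ := PhR_ne hn
    have h1 := hF i j hc
    have h4 : (i : ℚ) ≤ 4 * a := by exact_mod_cast h1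
    rw [hi]
    push_cast
    linarith

theorem corners {a b : ℕ} {F G : MP} (h : Shape2 a b F G) :
    Corner (PhR F) a 4 12 0 ∧ Corner (PhR G) b 4 12 0 :=
  ⟨r3_corner (fun i j hij => (h.hF i j hij).1) h.hF3 h.hFt,
    r3_corner (fun i j hij => (h.hG i j hij).1) h.hG3 h.hGt⟩

/-- reformulation of `AtLevel` at slope `1/4` -/
theorem atLevel_quarter {a : ℕ} {F : MP} (h : AtLevel (PhR F) a 4 12 (1 / 4)) 
    (hF : ∀ i j, F.coeff (pt i j) ≠ 0 → i ≤ 4 * a) :
    ∀ i j, F.coeff (pt i j) ≠ 0 → 4 * i ≤ 4 * a + j := by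
  intro i j hij
  rcases lt_or_ge j (a * 12) with hj | hj
  · have h1 : ((PhR F).coeff j).coeff (-(i : ℤ)) ≠ 0 := by rw [PhR_coeff]; exact hij
    have h2 := h j hj _ h1
    push_cast at h2
    have h3 : (4 : ℚ) * i ≤ 4 * a + j := by linarith
    exact_mod_cast h3
  · have := hF i j hij
    omega

end ModR3

end Pool.Agent.Lib.MP_2d59ee_ag.J

/-! Part R5 -/
/-! ## Row R5: the first slope on the right side is exactly `1/4`

Purely about a pair with corner `(a, 4, 12)` and `E = 1`. Let `Kf = (4(a+b) - 1)/(12(a+b) - 1)`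
(`0 < Kf < 1/3`). `exists_level hP hQ (0 < Kf)` gives `K ∈ (0, Kf]` with `AtLevel` for both and
`K = Kf` or `K` attained. Write `K = s / q` (`s = K.num ≥ 1`, `q = K.den`), `d = 4 q - 12 s`
(positive since `K < 1/3`), `e = q - s`.

(1) `K = Kf`: then `(a + b) d = q E - s` and `final_raw` gives `d (12 (a+b) - 1) = 8 q` and
`q ∣ a` or `q ∣ b`, so `q ≤ b` and `12 (a + b) - 1 ≤ 8 b`: contradiction.

(2) `K < Kf`, attained: `level_nums` + `level_core` (with `N = 12`, `E = 1`, `α = 4`, `k = 0`;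
`hJK` is `K < Kf`) give `N₀` with `PkgN a b 12 1 4 K q d e N₀`. In `hM` the case `q = 1` is impossible
(`0 < K < 1`), so `j * d = 8` and `¬ 12 ∣ j q + 1`, i.e. `j (q - 3 s) = 2`: `q = 3 s + 2` (`j = 1`) or
`q = 3 s + 1` (`j = 2`). `N₀ < 12` and `q ∣ 12 - N₀` give `q ≤ 12`, and `q, s` coprime, so
 * `q = 5, s = 1` (`d = 8`, `e = 4`): `N₀ ∈ {2, 7}`; `N₀ = 2` contradicts `hne`; `N₀ = 7`: `hzero` gives
   `α₀` with `α₀ - 7/5 = 4 - 12/5`, so `α₀ = 3` and `Good a b 7 1 3 (1/5)`; `main_bounds` with `x = 4`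
   contradicts `8 ≤ x`;
 * `q = 11, s = 3` (`j = 1`): `12 ∣ j q + 1`, contradiction; (`q = 8, s = 2` is not reduced);
 * `q = 4, s = 1`: this is `K = 1/4`;
 * `q = 7, s = 2` (`d = 4`, `e = 5`): `N₀ = 5`, `α₀ - 10/7 = 4 - 24/7`, `α₀ = 2`, `Good a b 5 1 2 (2/7)`, `x = 3`:
   contradiction with `main_bounds`;
 * `q = 10, s = 3` (`e = 7`): `N₀ = 2`, `α₀ = 1`, `Good a b 2 1 1 (3/10)`, `x = 1`: contradiction.
In each case the fields of `Good`: `E - K > 0`, `α₀ - K N₀ = 4 - 12 K > 0`,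
`E - K < (a+b)(4 - 12 K)` is `K < Kf`, and `α₀ < N₀`. -/

namespace Pool.Agent.Lib.MP_2d59ee_ag.J

section ModR5

open Polynomial

theorem first_slope {a b : ℕ} (ha : 2 ≤ a) (hlt : a < b) (hab : Nat.Coprime a b) {P Q : LS[X]}
    {c : ℂ} (hc : c ≠ 0) (hbr : brB P Q = C (HahnSeries.single (-((1 : ℕ) : ℤ)) c))
    (hP : Corner P a 4 12 0) (hQ : Corner Q b 4 12 0) :
    AtLevel P a 4 12 (1 / 4) ∧ AtLevel Q b 4 12 (1 / 4) ∧
      (Attained P a 4 12 (1 / 4) ∨ Attained Q b 4 12 (1 / 4)) := by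
  have haQ : (2 : ℚ) ≤ a := by exact_mod_cast ha
  have hbQ : (a : ℚ) + 1 ≤ b := by exact_mod_cast hlt
  have hden : (0 : ℚ) < 12 * ((a : ℚ) + b) - 1 := by linarith
  have hKf0 : (0 : ℚ) < (4 * ((a : ℚ) + b) - 1) / (12 * ((a : ℚ) + b) - 1) :=
    div_pos (by linarith) hden
  have hKf1 : (4 * ((a : ℚ) + b) - 1) / (12 * ((a : ℚ) + b) - 1) < 1 / 3 := by
    rw [div_lt_iff₀ hden]
    linarith
  obtain ⟨K, hkK, hKle, hKP, hKQ, hKcase⟩ := exists_level hP hQ hKf0
  have hK3 : K < 1 / 3 := lt_of_le_of_lt hKle hKf1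
  have hqpos : 0 < K.den := K.den_pos
  have hqQ : (0 : ℚ) < K.den := by exact_mod_cast hqpos
  have hnum : (K.num : ℚ) = K * K.den := (Rat.mul_den_eq_num K).symm
  have hnumpos : 0 < K.num := Rat.num_pos.2 hkK
  obtain ⟨d, e₁, hd, he₁, hpkg⟩ := level_nums a b 12 1 4 0 K hkK
    (by push_cast; linarith) (by push_cast; linarith)
  have hd1 : 0 < d := hpkg.hd
  by_cases hKf : K = (4 * ((a : ℚ) + b) - 1) / (12 * ((a : ℚ) + b) - 1)
  · -- final level
    exfalso
    have hfinQ : ((a : ℚ) + b) * (4 * K.den - 12 * K.num) = K.den - K.num := by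
      have h1 : K * (12 * ((a : ℚ) + b) - 1) = 4 * ((a : ℚ) + b) - 1 := by
        rw [hKf, div_mul_cancel₀ _ hden.ne']
      rw [hnum]
      linear_combination (-(K.den : ℚ)) * h1
    have hfinZ : ((a : ℤ) + b) * d = K.den * ((1 : ℕ) : ℤ) - K.num := by
      rw [hd]
      have : ((a : ℤ) + b) * (4 * K.den - 12 * K.num) = K.den - K.num := by exact_mod_cast hfinQ
      push_cast
      linear_combination this
    obtain ⟨h1, h2⟩ := final_raw (by omega) (by omega) hc hbr (by norm_num) hP hQ hkK hKP hKQ hd hfinZ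
    have hqb : K.den ≤ b := by
      rcases h2 with ⟨h2, _⟩ | ⟨h2, _⟩
      · exact (Nat.le_of_dvd (by omega) h2).trans hlt.le
      · exact Nat.le_of_dvd (by omega) h2
    have hdZ : (1 : ℤ) ≤ d := by exact_mod_cast hd1
    have hqbZ : (K.den : ℤ) ≤ b := by exact_mod_cast hqb
    have haZ : (2 : ℤ) ≤ a := by exact_mod_cast ha
    have hbZ : (0 : ℤ) ≤ b := Int.natCast_nonneg _
    push_cast at h1
    have h3 : (((a : ℤ) + b) * 12 - 1) ≤ (d : ℤ) * (((a : ℤ) + b) * 12 - 1) :=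
      le_mul_of_one_le_left (by linarith) hdZ
    linarith
  have hKlt : K < (4 * ((a : ℚ) + b) - 1) / (12 * ((a : ℚ) + b) - 1) := lt_of_le_of_ne hKle hKf
  have hAtt : Attained P a 4 12 K ∨ Attained Q b 4 12 K := by
    rcases hKcase with h | h | h
    · exact absurd h hKf
    · exact Or.inl h
    · exact Or.inr h
  rw [lt_div_iff₀ hden] at hKlt
  obtain ⟨N₀, hN₀⟩ := level_core a b (by omega) (by omega) hab 12 1 4 0 K (by norm_num) P Q c hc hbr hP hQ
    hkK hKP hKQ (by norm_num) (by push_cast; linarith) hAtt d e₁ hd he₁ hpkg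
  -- arithmetic
  obtain ⟨q, hq⟩ : ∃ q : ℕ, q = K.den := ⟨_, rfl⟩
  obtain ⟨s, hs⟩ : ∃ s : ℕ, (s : ℤ) = K.num := ⟨K.num.toNat, Int.toNat_of_nonneg hnumpos.le⟩
  have hs1 : 1 ≤ s := by
    have : (0 : ℤ) < s := by rw [hs]; exact hnumpos
    omega
  have hKsq : K = (s : ℚ) / q := by
    have h1 : (K.num : ℚ) / K.den = K := Rat.num_div_den K
    rw [← h1, hq, ← hs]
    push_cast
    rfl
  have hcop : Nat.Coprime s q := by
    have h1 := K.reduced
    rw [← hs, ← hq, Int.natAbs_natCast] at h1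
    exact h1
  rw [← hq] at hN₀ hd he₁ hqpos
  rw [← hs] at hd he₁
  have hlt₀ := hN₀.hlt
  have hdvd := hN₀.hdvd
  have hne := hN₀.hne
  have hq12 : q ≤ 12 := by
    have h1 : (q : ℤ) ≤ (12 : ℕ) - (N₀ : ℤ) := Int.le_of_dvd (by push_cast; omega) hdvd
    push_cast at h1
    omega
  have hsq : 3 * s < q := by
    push_cast at hd
    omega
  -- the good states
  have hgood : ∀ (N₁ : ℕ) (β : ℤ) (x : ℕ), 0 < N₁ → N₁ = N₀ →
      (∀ α₀ : ℤ, (α₀ : ℚ) - K * N₀ = (4 : ℤ) - K * (12 : ℕ) → α₀ = β) →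
      (0 : ℚ) < (β : ℚ) - K * N₁ → (1 : ℚ) - K < ((a : ℚ) + b) * ((β : ℚ) - K * N₁) →
      β < N₁ → (x : ℤ) = N₁ - β → x < 8 → False := by
    intro N₁ β x h1 h2 h3 h4 h5 h6 h7 h8
    subst h2
    obtain ⟨α₀, hα, hst⟩ := hN₀.hzero h1
    have h9 := h3 α₀ hα
    subst h9
    have hG : Good a b N₁ 1 α₀ K := ⟨h1, hkK.le, hst, h4, by push_cast; exact h5, by push_cast; linarith⟩
    have := (main_bounds a b ha hlt hab N₁ 1 α₀ K hG (by push_cast; linarith) x (by push_cast; linarith)).1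
    omega
  rcases hN₀.hM with ⟨hq1, _⟩ | ⟨j, hj, hj12⟩
  · exfalso
    omega
  have hjd : (j : ℤ) * (q - 3 * s) = 2 := by
    rw [hd] at hj
    push_cast at hj
    linarith
  have hpos : (0 : ℤ) < (q : ℤ) - 3 * s := by
    have : (3 : ℤ) * s < q := by exact_mod_cast hsq
    linarith
  have hj1 : (q : ℤ) - 3 * s = 1 ∨ (q : ℤ) - 3 * s = 2 := by
    have h1 : (q : ℤ) - 3 * s ∣ 2 := ⟨j, by linarith⟩
    have h2 := Int.le_of_dvd (by norm_num) h1
    omega
  have hj2 : ((q : ℤ) - 3 * s = 1 ∧ j = 2) ∨ ((q : ℤ) - 3 * s = 2 ∧ j = 1) := by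
    rcases hj1 with h | h
    · left
      rw [h] at hjd
      exact ⟨h, by omega⟩
    · right
      rw [h] at hjd
      exact ⟨h, by omega⟩
  have hs3 : s ≤ 3 := by omega
  rcases hj2 with ⟨h1, hj'⟩ | ⟨h1, hj'⟩
  · -- q = 3 s + 1
    interval_cases s
    · -- q = 4
      have hq4 : q = 4 := by omega
      have hK4 : K = 1 / 4 := by rw [hKsq, hq4]; norm_num
      rw [← hK4]
      exact ⟨hKP, hKQ, hAtt⟩
    · exfalso
      have hq7 : q = 7 := by omega
      subst hq7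
      have hK7 : K = 2 / 7 := by rw [hKsq]; norm_num
      have hN5 : N₀ = 5 := by
        push_cast at hdvd
        omega
      refine hgood 5 2 3 (by norm_num) hN5.symm ?_ ?_ ?_ (by norm_num) (by norm_num) (by norm_num)
      · intro α₀ hα
        rw [hK7, hN5] at hα
        push_cast at hα
        have : (α₀ : ℚ) = 2 := by linarith
        exact_mod_cast this
      · rw [hK7]; norm_num
      · rw [hK7]; push_cast; linarith
    · exfalso
      have hq10 : q = 10 := by omega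
      subst hq10
      have hK10 : K = 3 / 10 := by rw [hKsq]; norm_num
      have hN2 : N₀ = 2 := by
        push_cast at hdvd
        omega
      refine hgood 2 1 1 (by norm_num) hN2.symm ?_ ?_ ?_ (by norm_num) (by norm_num) (by norm_num)
      · intro α₀ hα
        rw [hK10, hN2] at hα
        push_cast at hα
        have : (α₀ : ℚ) = 1 := by linarith
        exact_mod_cast this
      · rw [hK10]; norm_num
      · rw [hK10]; push_cast; linarith
  · -- q = 3 s + 2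
    exfalso
    interval_cases s
    · have hq5 : q = 5 := by omega
      subst hq5
      have hK5 : K = 1 / 5 := by rw [hKsq]; norm_num
      have hd8 : d = 8 := by
        push_cast at hd
        omega
      have he4 : e₁ = 4 := by
        push_cast at he₁
        omega
      have hN : N₀ = 2 ∨ N₀ = 7 := by
        push_cast at hdvd
        omega
      rcases hN with hN | hN
      · exact hne (by rw [hN, hd8, he4])
      · refine hgood 7 3 4 (by norm_num) hN.symm ?_ ?_ ?_ (by norm_num) (by norm_num) (by norm_num)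
        · intro α₀ hα
          rw [hK5, hN] at hα
          push_cast at hα
          have : (α₀ : ℚ) = 3 := by linarith
          exact_mod_cast this
        · rw [hK5]; norm_num
        · rw [hK5]; push_cast; linarith
    · have hq8 : q = 8 := by omega
      subst hq8
      exact absurd hcop (by decide)
    · have hq11 : q = 11 := by omega
      subst hq11
      rw [hj'] at hj12
      exact hj12 (by norm_num)

end ModR5

end Pool.Agent.Lib.MP_2d59ee_ag.J

/-! Part R6 -/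
/-! ## Row R6: the leading forms at slope `1/4`

`K = 1/4`: `q = K.den = 4`, `s = K.num = 1`, `d = 4`. Put `P₁ = T0 4 _ 1 P`, `Q₁ = T0 4 _ 1 Q` (use `T0_congr`
to pass from `K.den`, `K.num`). `lowB_T0`, `lev_T0_natDegree`, `lev_T0_top` (with `δ = 4`):
`LowB P₁ (-(a * 4))`, `p = lev (-(a*4)) P₁` of degree `12 a` with nonzero top coefficient; same for `Q₁`.
`brB_T0_single`: `brB P₁ Q₁ = C (single (-(4 * 1 - 1)) (4 c))`, so `E = 3`.
`exists_big_root` (`A = 4 a`, `E = 3`): a root `μ` of `p` with `4 a < 3 · mult`. `comm_facts` (`d = 4`,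
`E = 3`): multiplicities `a ν`, `b ν`, so `ν ≥ 2`.
`μ ≠ 0`: the multiplicity at `0` is `a N₀` (and `b N₀` for `q`), `N₀ < 12` by attainment
(`attained_coeff`: some coefficient `j < 12 a` of `p`, or `j < 12 b` of `q`, is nonzero),
`4 ∣ a N₀ - 12 a` and `4 ∣ b N₀ - 12 b` by `lev_T0_dvd` (row B4), so `4 ∣ N₀` (`a`, `b` coprime). If
`N₀ ∈ {4, 8}`: `zero_corner` (for `P` with `c₁ = a` and for `Q` with `c₁ = b`; `K = 1/4`, `α₁ - N₁/4 = 1`,
so `α₁ = 2`, resp. `3`) gives `St a b N₀ 1 α₁ (1/4)` and `Good`, and `main_bounds` with `x = 2`, resp.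
`x = 5`, contradicts `8 ≤ x`. So `N₀ = 0` and `0` is not a root.
`ν = 2` would give `Good a b 2 3 4 0` (`good_of_root`) with `x = 3 * 2 - 4 = 2`, contradicting
`Good.concl` and `Concl.facts` (`x = 2 → N = 1`). `orbit_bound` (`q = 4`): `4 a ν ≤ 12 a`, so `ν = 3`.
Finally `p = expand 4 g` (all exponents of `p` are multiples of `4`, since `12 a` is one),
`deg g = 3 a`, the multiplicity of `μ^4` in `g` is the multiplicity `3 a` of `μ` in `p` (because
`X^4 - μ^4` has a simple root at `μ`), so `g = C κ (X - C (μ^4))^(3 a)`, and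
`p = C κ (X^4 - C (μ^4))^(3a)`. Same for `q` with `3 b`. -/

namespace Pool.Agent.Lib.MP_2d59ee_ag.J

section ModR6

open Polynomial

/-- the orbit of a root: if all exponents are congruent to `r` modulo `q` and `μ ≠ 0` is a root of
multiplicity `n` with `q n = deg p`, then `p` is a constant times the `n`-th power of
`X^q - μ^q` -/
theorem r6_orbit (p : ℂ[X]) (hp : p ≠ 0) (q : ℕ) (hq : 0 < q) (r n : ℕ)
    (hr : ∀ j, p.coeff j ≠ 0 → (q : ℤ) ∣ (j : ℤ) - r) (μ : ℂ) (hμ : μ ≠ 0)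
    (hn : p.rootMultiplicity μ = n) (hdeg : p.natDegree = q * n) :
    ∃ κ : ℂ, κ ≠ 0 ∧ p = C κ * (X ^ q - C (μ ^ q)) ^ n := by
  have hω := Complex.isPrimitiveRoot_exp q hq.ne'
  set ω := Complex.exp (2 * Real.pi * Complex.I / q) with hωdef
  have hω0 : ω ≠ 0 := hω.ne_zero hq.ne'
  have hωr : ∀ j, p.coeff j ≠ 0 → ω ^ j = ω ^ r := by
    intro j hj
    have h1 := hr j hj
    have h2 : (ω : ℂ) ^ ((j : ℤ) - r) = 1 := by
      rw [hω.zpow_eq_one_iff_dvd]; exact h1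
    rw [zpow_sub₀ hω0, zpow_natCast, zpow_natCast, div_eq_one_iff_eq (pow_ne_zero _ hω0)] at h2
    exact h2
  have hdvd : ∀ i : ℕ, (X - C (ω ^ i * μ)) ^ n ∣ p := by
    intro i
    have h1 : p.comp (C (ω ^ i)⁻¹ * X) = C ((ω ^ i)⁻¹ ^ r) * p := by
      ext j
      rw [comp_C_mul_X_coeff, coeff_C_mul]
      by_cases hj : p.coeff j = 0
      · rw [hj]; simp
      · have : (ω ^ i)⁻¹ ^ j = (ω ^ i)⁻¹ ^ r := by
          rw [inv_pow, inv_pow, ← pow_mul, ← pow_mul, mul_comm i j, mul_comm i r, pow_mul,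
            pow_mul, hωr j hj]
        rw [this]; ring
    obtain ⟨p1, hp1, -⟩ := exists_fact p hp μ
    rw [hn] at hp1
    have h2 : p.comp (C (ω ^ i)⁻¹ * X)
        = (C (ω ^ i)⁻¹ * (X - C (ω ^ i * μ))) ^ n * p1.comp (C (ω ^ i)⁻¹ * X) := by
      conv_lhs => rw [hp1]
      rw [mul_comp, pow_comp, sub_comp, X_comp, C_comp]
      congr 2
      rw [mul_sub, ← C_mul, ← mul_assoc, inv_mul_cancel₀ (pow_ne_zero _ hω0), one_mul]
    have h3 : (X - C (ω ^ i * μ)) ^ n ∣ C ((ω ^ i)⁻¹ ^ r) * p := by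
      rw [← h1, h2, mul_pow, mul_assoc]
      exact Dvd.dvd.mul_left (dvd_mul_right _ _) _
    have hu : IsUnit (C ((ω ^ i)⁻¹ ^ r) : ℂ[X]) := by
      rw [isUnit_C]
      exact (pow_ne_zero _ (inv_ne_zero (pow_ne_zero _ hω0))).isUnit
    exact (hu.dvd_mul_left).mp h3
  have hprod : ∏ i ∈ Finset.range q, (X - C (ω ^ i * μ)) ^ n ∣ p := by
    apply Finset.prod_dvd_of_coprime
    · intro i hi j hj hij
      apply IsCoprime.pow
      apply isCoprime_X_sub_C_of_isUnit_sub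
      apply Ne.isUnit
      rw [sub_ne_zero]
      intro h
      have h2 : ω ^ i = ω ^ j := mul_right_cancel₀ hμ h
      exact hij (hω.pow_inj (Finset.mem_range.mp hi) (Finset.mem_range.mp hj) h2)
    · intro i _
      exact hdvd i
  rw [Finset.prod_pow, ← X_pow_sub_C_eq_prod hω hq rfl] at hprod
  obtain ⟨r1, hr1⟩ := hprod
  have hm : ((X ^ q - C (μ ^ q)) ^ n : ℂ[X]).Monic := (monic_X_pow_sub_C _ hq.ne').pow n
  have hr0 : r1 ≠ 0 := by
    rintro rfl
    rw [mul_zero] at hr1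
    exact hp hr1
  have hd2 : ((X ^ q - C (μ ^ q)) ^ n : ℂ[X]).natDegree = n * q := by
    rw [natDegree_pow, natDegree_X_pow_sub_C]
  have hd1 : r1.natDegree = 0 := by
    have h1 := congrArg natDegree hr1
    rw [hm.natDegree_mul' hr0, hd2, hdeg, mul_comm q n] at h1
    omega
  obtain ⟨κ, rfl⟩ : ∃ κ, r1 = C κ := ⟨r1.coeff 0, eq_C_of_natDegree_eq_zero hd1⟩
  refine ⟨κ, ?_, ?_⟩
  · rintro rfl
    exact hr0 C_0
  · rw [hr1, mul_comm]

/-- a corner at the origin of the level `1/4` is impossible -/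
theorem r6_zero {a b : ℕ} (ha : 2 ≤ a) (hlt : a < b) (hab : Nat.Coprime a b) {P Q : LS[X]}
    {c : ℂ} (hc : c ≠ 0) (hbr : brB P Q = C (HahnSeries.single (-((1 : ℕ) : ℤ)) c)) (r : ℕ)
    (hr : 1 ≤ r) (hr2 : r ≤ 2)
    (hP : Corner P a ((1 + r : ℕ) : ℤ) (4 * r) (1 / 4))
    (hQ : Corner Q b ((1 + r : ℕ) : ℤ) (4 * r) (1 / 4)) : False := by
  have ha0 : (2 : ℚ) ≤ a := by exact_mod_cast ha
  have hb0 : (0 : ℚ) ≤ b := by positivity
  have hg : Good a b (4 * r) 1 ((1 + r : ℕ) : ℤ) (1 / 4) := by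
    refine ⟨by omega, by norm_num, ⟨P, Q, c, hc, hbr, hP, hQ⟩, ?_, ?_, ?_⟩
    · push_cast
      ring_nf
      norm_num
    · have h1 : (((1 + r : ℕ) : ℤ) : ℚ) - 1 / 4 * ((4 * r : ℕ) : ℚ) = 1 := by
        push_cast
        ring
      rw [h1]
      push_cast
      linarith
    · push_cast
      omega
  have h := (main_bounds a b ha hlt hab (4 * r) 1 _ _ hg (by norm_num) (3 * r - 1) (by
    push_cast [show 1 ≤ 3 * r by omega]
    ring)).1
  omega

theorem quarter_form {a b : ℕ} (ha : 2 ≤ a) (hlt : a < b) (hab : Nat.Coprime a b) {P Q : LS[X]}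
    {c : ℂ} (hc : c ≠ 0) (hbr : brB P Q = C (HahnSeries.single (-((1 : ℕ) : ℤ)) c))
    (hP : Corner P a 4 12 0) (hQ : Corner Q b 4 12 0) :
    ∃ μ κ κ' : ℂ, μ ≠ 0 ∧ κ ≠ 0 ∧ κ' ≠ 0 ∧
      lev (-((a : ℤ) * 4)) (T0 4 (by norm_num) 1 P) = C κ * (X ^ 4 - C (μ ^ 4)) ^ (3 * a) ∧
      lev (-((b : ℤ) * 4)) (T0 4 (by norm_num) 1 Q) = C κ' * (X ^ 4 - C (μ ^ 4)) ^ (3 * b) := by
  have ha0 : 0 < a := by omega
  have hb0 : 0 < b := by omega
  obtain ⟨hKP, hKQ, hAtt⟩ := first_slope ha hlt hab hc hbr hP hQ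
  have hden : (1 / 4 : ℚ).den = 4 := by norm_num
  have hnum : (1 / 4 : ℚ).num = 1 := by norm_num
  have hk : (0 : ℚ) < 1 / 4 := by norm_num
  have hδ : (4 : ℤ) = (1 / 4 : ℚ).den * 4 - (1 / 4 : ℚ).num * (12 : ℕ) := by
    rw [hden, hnum]; norm_num
  have hT : ∀ R : LS[X], T0 (1 / 4 : ℚ).den (1 / 4 : ℚ).den_pos (1 / 4 : ℚ).num R
      = T0 4 (by norm_num) 1 R := fun R => T0_congr hden _ _ hnum R
  set P1 := T0 4 (by norm_num) 1 P with hP1
  set Q1 := T0 4 (by norm_num) 1 Q with hQ1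
  have hbr1 := brB_T0_single 4 (by norm_num) 1 P Q ((1 : ℕ) : ℤ) c hbr
  rw [← hP1, ← hQ1] at hbr1
  have h41 : ((4 : ℕ) : ℤ) * ((1 : ℕ) : ℤ) - 1 = ((3 : ℕ) : ℤ) := by norm_num
  rw [h41] at hbr1
  have hqc : ((4 : ℕ) : ℂ) * c ≠ 0 := mul_ne_zero (by norm_num) hc
  have hlP : LowB P1 (-((a : ℤ) * 4)) := by
    have h := lowB_T0 hP hk hKP 4 hδ
    rwa [hT] at h
  have hlQ : LowB Q1 (-((b : ℤ) * 4)) := by
    have h := lowB_T0 hQ hk hKQ 4 hδ
    rwa [hT] at h
  have hpdeg : (lev (-((a : ℤ) * 4)) P1).natDegree = a * 12 := by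
    have h := lev_T0_natDegree hP hk 4 hδ
    rwa [hT] at h
  have hgdeg : (lev (-((b : ℤ) * 4)) Q1).natDegree = b * 12 := by
    have h := lev_T0_natDegree hQ hk 4 hδ
    rwa [hT] at h
  have hptop : (lev (-((a : ℤ) * 4)) P1).coeff (a * 12) ≠ 0 := by
    have h := lev_T0_top (N := 12) hP 4 hδ
    rwa [hT] at h
  have hgtop : (lev (-((b : ℤ) * 4)) Q1).coeff (b * 12) ≠ 0 := by
    have h := lev_T0_top (N := 12) hQ 4 hδ
    rwa [hT] at h
  have hatt : (∃ j < a * 12, (lev (-((a : ℤ) * 4)) P1).coeff j ≠ 0) ∨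
      (∃ j < b * 12, (lev (-((b : ℤ) * 4)) Q1).coeff j ≠ 0) := by
    rcases hAtt with hA | hA
    · left
      obtain ⟨j, hj, h⟩ := attained_coeff hA 4 hδ
      rw [hT] at h
      exact ⟨j, hj, h⟩
    · right
      obtain ⟨j, hj, h⟩ := attained_coeff hA 4 hδ
      rw [hT] at h
      exact ⟨j, hj, h⟩
  have hp0 : lev (-((a : ℤ) * 4)) P1 ≠ 0 := by rintro h; rw [h] at hptop; simp at hptop
  have hg0 : lev (-((b : ℤ) * 4)) Q1 ≠ 0 := by rintro h; rw [h] at hgtop; simp at hgtop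
  have haZ : (2 : ℤ) ≤ a := by exact_mod_cast ha
  have hbZ : (a : ℤ) < b := by exact_mod_cast hlt
  have hJ : ((3 : ℕ) : ℤ) < ((a : ℤ) + b) * ((4 : ℕ) : ℤ) := by push_cast; linarith
  obtain ⟨hode, hmul⟩ := comm_facts (d := 4) ha0 hb0 hab (by norm_num) hbr1 hlP hlQ hp0 hg0 hJ
  have hcop : IsCoprime ((4 : ℕ) : ℤ) 1 := isCoprime_one_right
  have hq4 : (0 : ℕ) < 4 := by norm_num
  have hrp : ∀ j, (lev (-((a : ℤ) * 4)) P1).coeff j ≠ 0 → ((4 : ℕ) : ℤ) ∣ (j : ℤ) - (a * 12 : ℕ) :=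
    fun j hj => lev_T0_dvd hq4 hcop hj hptop
  have hrg : ∀ j, (lev (-((b : ℤ) * 4)) Q1).coeff j ≠ 0 → ((4 : ℕ) : ℤ) ∣ (j : ℤ) - (b * 12 : ℕ) :=
    fun j hj => lev_T0_dvd hq4 hcop hj hgtop
  obtain ⟨N₀, hpN₀, hgN₀⟩ := hmul 0
  have hpN₀' : (lev (-((a : ℤ) * 4)) P1).rootMultiplicity 0 = a * N₀ := hpN₀
  have hgN₀' : (lev (-((b : ℤ) * 4)) Q1).rootMultiplicity 0 = b * N₀ := hgN₀
  have hpc0 : (lev (-((a : ℤ) * 4)) P1).coeff (a * N₀) ≠ 0 := by
    rw [← hpN₀']; exact coeff_eq_zero_ne _ hp0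
  have hgc0 : (lev (-((b : ℤ) * 4)) Q1).coeff (b * N₀) ≠ 0 := by
    rw [← hgN₀']; exact coeff_eq_zero_ne _ hg0
  have hN₀le : N₀ ≤ 12 := by
    have h1 : a * N₀ ≤ a * 12 := by rw [← hpdeg]; exact le_natDegree_of_ne_zero hpc0
    exact Nat.le_of_mul_le_mul_left h1 ha0
  have hN₀lt : N₀ < 12 := by
    rcases lt_or_eq_of_le hN₀le with h | h
    · exact h
    · exfalso
      subst h
      rcases hatt with ⟨j, hj, hne⟩ | ⟨j, hj, hne⟩
      · exact hne (coeff_lt_zero _ hp0 j (by rw [hpN₀']; exact hj))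
      · exact hne (coeff_lt_zero _ hg0 j (by rw [hgN₀']; exact hj))
  have hdvd : (4 : ℤ) ∣ (N₀ : ℤ) := by
    have h1 := hrp _ hpc0
    have h2 := hrg _ hgc0
    obtain ⟨x, y, hxy⟩ := Nat.isCoprime_iff_coprime.mpr hab
    have h3 : (N₀ : ℤ) = 12 + (x * (((a * N₀ : ℕ) : ℤ) - (a * 12 : ℕ))
        + y * (((b * N₀ : ℕ) : ℤ) - (b * 12 : ℕ))) := by
      push_cast
      linear_combination (12 - (N₀ : ℤ)) * hxy
    rw [h3]
    exact dvd_add (by norm_num) (dvd_add (h1.mul_left _) (h2.mul_left _))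
  obtain ⟨r, hr⟩ : ∃ r : ℕ, N₀ = 4 * r := by
    have h1 : (4 : ℕ) ∣ N₀ := by exact_mod_cast hdvd
    exact h1
  have hr0 : r = 0 := by
    by_contra hr0
    have hcorner : ∀ (c₁ : ℕ) (R : LS[X]), Corner R c₁ 4 12 0 → AtLevel R c₁ 4 12 (1 / 4) →
        (lev (-((c₁ : ℤ) * 4)) (T0 4 hq4 1 R)) ≠ 0 →
        (lev (-((c₁ : ℤ) * 4)) (T0 4 hq4 1 R)).rootMultiplicity 0 = c₁ * (4 * r) →
        Corner R c₁ ((1 + r : ℕ) : ℤ) (4 * r) (1 / 4) := by
      intro c₁ R hR hRK h0 hm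
      have hne := coeff_eq_zero_ne _ h0
      rw [hm, lev_coeff] at hne
      obtain ⟨m, hm1, hm2⟩ := T0_coeff_ne _ _ _ _ _ _ hne
      have hm3 : m = -(c₁ * ((1 + r : ℕ) : ℤ)) := by
        push_cast at hm1 ⊢
        have h4 : (4 : ℤ) * m = 4 * (-(c₁ * (1 + r))) := by linarith
        exact mul_left_cancel₀ (by norm_num) h4
      rw [hm3] at hm2
      refine zero_corner (d := 4) hk hR hRK hδ ?_ hm2 ?_
      · push_cast
        ring
      · intro j hj
        rw [hT]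
        exact coeff_lt_zero _ h0 j (by rw [hm]; exact hj)
    subst hr
    exact r6_zero ha hlt hab hc hbr r (by omega) (by omega)
      (hcorner a P hP hKP hp0 hpN₀') (hcorner b Q hQ hKQ hg0 hgN₀')
  subst hr0
  rw [mul_zero] at hr
  subst hr
  have hbig := exists_big_root P1 Q1 (a * 4) 3 (by omega) (((4 : ℕ) : ℂ) * c) hqc
  have hAcast : (-((a * 4 : ℕ) : ℤ)) = -((a : ℤ) * 4) := by push_cast; ring
  rw [hAcast] at hbig
  obtain ⟨μ, hμroot, hμbig⟩ := hbig hlP hp0 (by rw [hpdeg]; omega) hbr1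
  obtain ⟨ν, hpν, hgν⟩ := hmul μ
  have hpν' : (lev (-((a : ℤ) * 4)) P1).rootMultiplicity μ = a * ν := hpν
  have hgν' : (lev (-((b : ℤ) * 4)) Q1).rootMultiplicity μ = b * ν := hgν
  have hν2 : 4 < 3 * ν := by
    rw [hpν'] at hμbig
    have : a * 4 < a * (3 * ν) := by
      calc a * 4 < 3 * (a * ν) := hμbig
        _ = a * (3 * ν) := by ring
    exact Nat.lt_of_mul_lt_mul_left this
  have hμ0 : μ ≠ 0 := by
    rintro rfl
    rw [hpN₀'] at hpν'
    have := Nat.eq_of_mul_eq_mul_left ha0 hpν'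
    omega
  have hν3 : ν ≤ 3 := by
    have h1 := orbit_bound _ hp0 4 hq4 (a * 12) hrp μ hμ0
    rw [hpν', hpdeg] at h1
    have : a * (4 * ν) ≤ a * 12 := by
      calc a * (4 * ν) = 4 * (a * ν) := by ring
        _ ≤ a * 12 := h1
    have := Nat.le_of_mul_le_mul_left this ha0
    omega
  have hν : ν = 3 := by
    by_contra hne
    have hν2' : ν = 2 := by omega
    subst hν2'
    have hgood := good_of_root (d := 4) (E := 3) ha0 hb0 hab (by norm_num) hqc hbr1 hlP hlQ hp0 hg0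
      hJ hpν hgν (by norm_num)
    have h1 := (hgood.concl ha0 hb0 hab).facts ha hlt
    have h2 := h1.2 (by norm_num)
    omega
  subst hν
  obtain ⟨κ, hκ, hpκ⟩ := r6_orbit _ hp0 4 hq4 (a * 12) (3 * a) hrp μ hμ0
    (by rw [hpν']; ring) (by rw [hpdeg]; ring)
  obtain ⟨κ', hκ', hgκ⟩ := r6_orbit _ hg0 4 hq4 (b * 12) (3 * b) hrg μ hμ0
    (by rw [hgν']; ring) (by rw [hgdeg]; ring)
  exact ⟨μ, κ, κ', hμ0, hκ, hκ', hpκ, hgκ⟩

end ModR6

end Pool.Agent.Lib.MP_2d59ee_ag.J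

/-! Part R7 -/
/-! ## Row R7: the scaling `z ↦ μ^4 z`

`sc μ F (z, w) = F (μ^4 z, w)`: its coefficient at `pt i j` is `μ^(4 i) F.coeff (pt i j)`. All support
conditions are kept; `jac` gets multiplied by `μ^4` (`jac_ev`). The leading form: the coefficient of
`X^j` in `lev (-(a*4)) (R4 F)` is nonzero only if `j ≡ 0 mod 4` hence equals
`F.coeff (pt (a + j/4) j)` (from `T0_coeff_coeff`, `T0_coeff_ne`, `PhR_coeff`: `-(4a) = 4 m + j`,
`m = -i`, so `4 i = 4 a + j`); for `sc μ F` it is multiplied by `μ^(4 (a + j/4)) = μ^(4a) μ^j`. Hence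
`lev (-(a*4)) (R4 (sc μ F)) = C (μ^(4a)) * (lev (-(a*4)) (R4 F)).comp (C μ * X)
 = C (κ μ^(4a) μ^(12a)) * (X^4 - 1)^(3a)`. The bounds `hF4`, `hG4`: `atLevel_quarter` for `F`, `G`
(`first_slope`), the supports do not change. -/

namespace Pool.Agent.Lib.MP_2d59ee_ag.J

section ModR7

open Polynomial

/-- scaling of `z` -/
noncomputable def sc (μ : ℂ) (F : MP) : MP :=
  ev MvPolynomial.C (MvPolynomial.C (μ ^ 4) * MvPolynomial.X 0) (MvPolynomial.X 1) F

theorem r7_coeff (μ : ℂ) (F : MP) (i j : ℕ) :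
    (sc μ F).coeff (pt i j) = μ ^ (4 * i) * F.coeff (pt i j) := by
  have h1 : sc μ F = ∑ d ∈ F.support, MvPolynomial.monomial d (μ ^ (4 * d 0) * F.coeff d) := by
    rw [sc, ev_eq_sum]
    refine Finset.sum_congr rfl (fun d _ => ?_)
    have h2 : MvPolynomial.monomial d (μ ^ (4 * d 0) * F.coeff d)
        = ev (MvPolynomial.C : ℂ →+* MP) (MvPolynomial.X 0) (MvPolynomial.X 1)
          (MvPolynomial.monomial d (μ ^ (4 * d 0) * F.coeff d)) := by
      rw [ev_monomial, MvPolynomial.monomial_eq, Finsupp.prod_fintype _ _ (fun i => pow_zero _),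
        Fin.prod_univ_two, mul_assoc]
    rw [h2, ev_monomial, mul_pow, ← map_pow, ← pow_mul, map_mul]
    ring
  rw [h1, MvPolynomial.coeff_sum]
  simp only [MvPolynomial.coeff_monomial]
  rw [Finset.sum_ite_eq']
  split_ifs with h
  · rw [pt_0]
  · rw [MvPolynomial.notMem_support_iff.mp h, mul_zero]

theorem r7_ne {μ : ℂ} {F : MP} {i j : ℕ} (h : (sc μ F).coeff (pt i j) ≠ 0) :
    F.coeff (pt i j) ≠ 0 := by
  rw [r7_coeff] at h
  exact right_ne_zero_of_mul h

theorem r7_lev (μ : ℂ) (F : MP) (a : ℕ) :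
    lev (-((a : ℤ) * 4)) (R4 (sc μ F))
      = C (μ ^ (4 * a)) * (lev (-((a : ℤ) * 4)) (R4 F)).comp (C μ * X) := by
  ext j
  rw [coeff_C_mul, comp_C_mul_X_coeff, lev_coeff, lev_coeff, R4, R4]
  by_cases hd : ∃ i : ℕ, 4 * i = 4 * a + j
  · obtain ⟨i, hi⟩ := hd
    have hi' : ((4 : ℕ) : ℤ) * (-(i : ℤ)) = -((a : ℤ) * 4) - j * 1 := by
      have : (4 : ℤ) * i = 4 * a + j := by exact_mod_cast hi
      push_cast
      linarith only [this]
    rw [T0_coeff_coeff 4 (by norm_num) 1 _ j (-(i : ℤ)) _ hi',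
      T0_coeff_coeff 4 (by norm_num) 1 _ j (-(i : ℤ)) _ hi', PhR_coeff, PhR_coeff, r7_coeff, hi,
      pow_add]
    ring
  · have h0 : ∀ G : MP, ((T0 4 (by norm_num) 1 (PhR G)).coeff j).coeff (-((a : ℤ) * 4)) = 0 := by
      intro G
      by_contra h
      obtain ⟨m, hm, hm'⟩ := T0_coeff_ne 4 (by norm_num) 1 _ j _ h
      obtain ⟨i, hi, -⟩ := PhR_ne hm'
      apply hd
      refine ⟨i, ?_⟩
      rw [hi] at hm
      push_cast at hm
      omega
    rw [h0, h0]
    ring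

theorem r7_form {μ κ : ℂ} (hμ : μ ≠ 0) (hκ : κ ≠ 0) {F : MP} {a : ℕ}
    (hp : lev (-((a : ℤ) * 4)) (T0 4 (by norm_num) 1 (PhR F))
      = C κ * (X ^ 4 - C (μ ^ 4)) ^ (3 * a)) :
    ∃ κ : ℂ, κ ≠ 0 ∧ lev (-((a : ℤ) * 4)) (R4 (sc μ F)) = C κ * (X ^ 4 - 1) ^ (3 * a) := by
  refine ⟨μ ^ (4 * a) * (κ * (μ ^ 4) ^ (3 * a)), ?_, ?_⟩
  · exact mul_ne_zero (pow_ne_zero _ hμ) (mul_ne_zero hκ (pow_ne_zero _ (pow_ne_zero _ hμ)))
  · rw [r7_lev]
    have hp' : lev (-((a : ℤ) * 4)) (R4 F) = C κ * (X ^ 4 - C (μ ^ 4)) ^ (3 * a) := hp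
    rw [hp', mul_comp, C_comp, pow_comp, sub_comp, pow_comp, X_comp, C_comp]
    have h1 : ((C μ * X) ^ 4 - C (μ ^ 4) : ℂ[X]) = C (μ ^ 4) * (X ^ 4 - 1) := by
      rw [C_pow]
      ring
    rw [h1, mul_pow, C_mul, C_mul, C_pow (a := μ ^ 4)]
    ring

theorem shape3_of {a b : ℕ} {F G : MP} (h : Shape2 a b F G) {μ κ κ' : ℂ} (hμ : μ ≠ 0) (hκ : κ ≠ 0)
    (hκ' : κ' ≠ 0)
    (hP4 : ∀ i j, F.coeff (pt i j) ≠ 0 → 4 * i ≤ 4 * a + j)
    (hQ4 : ∀ i j, G.coeff (pt i j) ≠ 0 → 4 * i ≤ 4 * b + j)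
    (hp : lev (-((a : ℤ) * 4)) (T0 4 (by norm_num) 1 (PhR F))
      = C κ * (X ^ 4 - C (μ ^ 4)) ^ (3 * a))
    (hq : lev (-((b : ℤ) * 4)) (T0 4 (by norm_num) 1 (PhR G))
      = C κ' * (X ^ 4 - C (μ ^ 4)) ^ (3 * b)) :
    Shape3 a b (sc μ F) (sc μ G) := by
  refine { hF := fun i j hij => h.hF i j (r7_ne hij), hG := fun i j hij => h.hG i j (r7_ne hij),
           hFt := ?_, hGt := ?_, hJ := ?_, hF3 := fun j hj => h.hF3 j (r7_ne hj),
           hG3 := fun j hj => h.hG3 j (r7_ne hj), hF4 := fun i j hij => hP4 i j (r7_ne hij),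
           hG4 := fun i j hij => hQ4 i j (r7_ne hij), hFl := r7_form hμ hκ hp,
           hGl := r7_form hμ hκ' hq }
  · rw [r7_coeff]
    exact mul_ne_zero (pow_ne_zero _ hμ) h.hFt
  · rw [r7_coeff]
    exact mul_ne_zero (pow_ne_zero _ hμ) h.hGt
  · obtain ⟨c, hc, hJ⟩ := h.hJ
    refine ⟨c * μ ^ 4, mul_ne_zero hc (pow_ne_zero _ hμ), ?_⟩
    rw [sc, sc, jac_ev, hJ, ev_C, map_mul]
    congr 1
    have h10 : MvPolynomial.pderiv (R := ℂ) (1 : Fin 2) (MvPolynomial.X 0) = 0 :=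
      MvPolynomial.pderiv_X_of_ne (by decide)
    simp [jac, Derivation.leibniz, h10]

end ModR7

end Pool.Agent.Lib.MP_2d59ee_ag.J

/-! Part R8 -/
/-! ## Assembly of the right side, first part: from `Shape` to `Shape3` -/

namespace Pool.Agent.Lib.MP_2d59ee_ag.J

section ModR8

open Polynomial

theorem exists_shape3 {a b : ℕ} (ha : 2 ≤ a) (hlt : a < b) (hab : Nat.Coprime a b) {F G : MP}
    (h : Shape a b F G) : 2 * b + 1 = 3 * a ∧ ∃ F' G' : MP, Shape3 a b F' G' := by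
  obtain ⟨h1, w₀, κ, κ', hκ, hκ', hp, hq⟩ := right_top ha hlt hab h
  refine ⟨h1, ?_⟩
  have h2 := shape2_of h hκ hκ' hp hq
  obtain ⟨hP, hQ⟩ := corners h2
  obtain ⟨c, hc, hJ⟩ := h2.hJ
  have hbr := brB_PhR _ _ c hJ
  obtain ⟨hl1, hl2, -⟩ := first_slope ha hlt hab (neg_ne_zero.mpr hc) hbr hP hQ
  obtain ⟨μ, κ₁, κ₂, hμ, hκ₁, hκ₂, hp1, hq1⟩ :=
    quarter_form ha hlt hab (neg_ne_zero.mpr hc) hbr hP hQ
  exact ⟨_, _, shape3_of h2 hμ hκ₁ hκ₂
    (atLevel_quarter hl1 (fun i j hij => (h2.hF i j hij).1))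
    (atLevel_quarter hl2 (fun i j hij => (h2.hG i j hij).1)) hp1 hq1⟩

end ModR8

end Pool.Agent.Lib.MP_2d59ee_ag.J
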