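import Mathlib
import Pool.Agent.Lib.MP_2d59ee_ag.JBase

set_option autoImplicit false

/-! Part M9 -/
/-! ## Row M9: first consequences of the system

Notation `F_n = F.coeff n`. `E3`, coefficient of `x^n`: `(6 n - 2) g_n = (2 n - 2) q2_n` for `n ≥ 1`:
`n = 1`: `g_1 = 0`; `n = 2`: `q2_2 = 5 g_2`; `n = 3`: `q2_3 = 4 g_3`. Also `g_0 = -s/2`, `q2_0 = -s`, `q2_1 = 0`.
`E2`: `x^0`: `4 g_1 q2_0 + q1_0 - 2 g_0 q2_1 = l`, so `q1_0 = l`. `x^1`:
`3 f_1 + 8 g_2 q2_0 + q1_1 - 2 g_0 (2 q2_2) - 2 q1_1 = 0`, so `q1_1 = 3 f_1 + 2 s g_2`.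
`x^2`: `6 f_2 + 4 (3 g_3 q2_0 + 2 g_2 q2_1 + g_1 q2_2) + q1_2 - 2 (3 g_0 q2_3 + 2 g_1 q2_2 + g_2 q2_1)
 - 4 q1_2 = 0`, so `q1_2 = 2 f_2`.
`E1`: `x^0`: `2 f_1 q2_0 + 2 g_1 q1_0 - 2 g_0 q1_1 = -e`: `s (q1_1 - 2 f_1) = -e`, i.e.
`s (f_1 + 2 s g_2) = -e`. `x^1`: `2 (2 f_2 q2_0 + f_1 q2_1) + 2 (2 g_2 q1_0 + g_1 q1_1)
 - 2 (2 g_0 q1_2 + g_1 q1_1) - 2 q0_1 = 0`: `q0_1 = 2 l g_2` (the terms `-4 s f_2 + 2 s q1_2` cancel).
`E0`: `x^0`: `f_1 q1_0 - 2 g_0 q0_1 = -1`: `l f_1 + 2 s l g_2 = -1`, i.e. `l (f_1 + 2 s g_2) = -1`.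
So `l ≠ 0`, and `s = e l`.
`g_(j+1) ≠ 0`: suppose it is `0`. `E0` at `x^(4j+1)` (`j ≥ 1`): `(2j+1) f_(2j+1) q1_(2j+1)
 - 2 g_(j+1) (3j+1) q0_(3j+1) = 0`, so `q1_(2j+1) = 0`; `E2` at `x^(2j+1)`: `3 (2j+1) f_(2j+1)
 + 4 (j+1) g_(j+1) q2_(j+1) + q1_(2j+1) - 2 (j+1) g_(j+1) q2_(j+1) - 2 (2j+1) q1_(2j+1) = 0`, so
`f_(2j+1) = 0`, contradiction. -/

namespace Pool.Agent.Lib.MP_2d59ee_ag.J

section ModM9

open Polynomial

theorem m9_ofNat2 (p : ℂ[X]) (n : ℕ) : (2 * p).coeff n = 2 * p.coeff n := by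
  have : (2 : ℂ[X]) = C 2 := (map_ofNat C 2).symm
  rw [this, coeff_C_mul]

theorem m9_ofNat3 (p : ℂ[X]) (n : ℕ) : (3 * p).coeff n = 3 * p.coeff n := by
  have : (3 : ℂ[X]) = C 3 := (map_ofNat C 3).symm
  rw [this, coeff_C_mul]

theorem m9_ofNat4 (p : ℂ[X]) (n : ℕ) : (4 * p).coeff n = 4 * p.coeff n := by
  have : (4 : ℂ[X]) = C 4 := (map_ofNat C 4).symm
  rw [this, coeff_C_mul]

theorem m9_ofNat6 (p : ℂ[X]) (n : ℕ) : (6 * p).coeff n = 6 * p.coeff n := by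
  have : (6 : ℂ[X]) = C 6 := (map_ofNat C 6).symm
  rw [this, coeff_C_mul]

theorem m9_X0 (p : ℂ[X]) : (X * p).coeff 0 = 0 := by
  rw [mul_coeff_zero, coeff_X_zero, zero_mul]

theorem m9_E3 {g q2 : ℂ[X]} {s : ℂ}
    (h : 6 * X * derivative g + 2 * q2 - 2 * g - 2 * X * derivative q2 = C (-s)) (n : ℕ) :
    (6 * ((n : ℂ) + 1) - 2) * g.coeff (n + 1) = (2 * ((n : ℂ) + 1) - 2) * q2.coeff (n + 1) := by
  have h1 := congrArg (fun p => p.coeff (n + 1)) h
  simp only [mul_assoc, coeff_sub, coeff_add, m9_ofNat2, m9_ofNat6, coeff_X_mul,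
    coeff_derivative, coeff_C_succ] at h1
  linear_combination h1

theorem m9_E2 {f g q1 q2 : ℂ[X]} {l : ℂ}
    (h : 3 * X * derivative f + 4 * derivative g * q2 + q1 - 2 * g * derivative q2
    - 2 * X * derivative q1 = C l) (n : ℕ) :
    3 * ((n : ℂ) + 1) * f.coeff (n + 1) + 4 * (derivative g * q2).coeff (n + 1)
      + q1.coeff (n + 1) - 2 * (g * derivative q2).coeff (n + 1)
      - 2 * ((n : ℂ) + 1) * q1.coeff (n + 1) = 0 := by
  have h1 := congrArg (fun p => p.coeff (n + 1)) h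
  simp only [mul_assoc, coeff_sub, coeff_add, m9_ofNat2, m9_ofNat3, m9_ofNat4, coeff_X_mul,
    coeff_derivative, coeff_C_succ] at h1
  linear_combination h1

theorem m9_E2z {f g q1 q2 : ℂ[X]} {l : ℂ}
    (h : 3 * X * derivative f + 4 * derivative g * q2 + q1 - 2 * g * derivative q2
    - 2 * X * derivative q1 = C l) :
    4 * (derivative g * q2).coeff 0 + q1.coeff 0 - 2 * (g * derivative q2).coeff 0 = l := by
  have h1 := congrArg (fun p => p.coeff 0) h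
  simp only [mul_assoc, coeff_sub, coeff_add, m9_ofNat2, m9_ofNat3, m9_ofNat4, m9_X0,
    coeff_C_zero] at h1
  linear_combination h1

theorem m9_E1 {f g q0 q1 q2 : ℂ[X]} {e : ℂ}
    (h : 2 * derivative f * q2 + 2 * derivative g * q1 - 2 * g * derivative q1
    - 2 * X * derivative q0 = C (-e)) (n : ℕ) :
    2 * (derivative f * q2).coeff (n + 1) + 2 * (derivative g * q1).coeff (n + 1)
      - 2 * (g * derivative q1).coeff (n + 1)
      - 2 * ((n : ℂ) + 1) * q0.coeff (n + 1) = 0 := by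
  have h1 := congrArg (fun p => p.coeff (n + 1)) h
  simp only [mul_assoc, coeff_sub, coeff_add, m9_ofNat2, coeff_X_mul,
    coeff_derivative, coeff_C_succ] at h1
  linear_combination h1

theorem m9_E1z {f g q0 q1 q2 : ℂ[X]} {e : ℂ}
    (h : 2 * derivative f * q2 + 2 * derivative g * q1 - 2 * g * derivative q1
    - 2 * X * derivative q0 = C (-e)) :
    2 * (derivative f * q2).coeff 0 + 2 * (derivative g * q1).coeff 0
      - 2 * (g * derivative q1).coeff 0 = -e := by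
  have h1 := congrArg (fun p => p.coeff 0) h
  simp only [mul_assoc, coeff_sub, coeff_add, m9_ofNat2, m9_X0,
    coeff_C_zero] at h1
  linear_combination h1

theorem m9_E0 {f g q0 q1 : ℂ[X]}
    (h : derivative f * q1 - 2 * g * derivative q0 = -1) (n : ℕ) :
    (derivative f * q1).coeff (n + 1) - 2 * (g * derivative q0).coeff (n + 1) = 0 := by
  have h1 := congrArg (fun p => p.coeff (n + 1)) h
  simp only [mul_assoc, coeff_sub, m9_ofNat2, coeff_neg, coeff_one] at h1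
  simpa using h1

theorem m9_E0z {f g q0 q1 : ℂ[X]}
    (h : derivative f * q1 - 2 * g * derivative q0 = -1) :
    (derivative f * q1).coeff 0 - 2 * (g * derivative q0).coeff 0 = -1 := by
  have h1 := congrArg (fun p => p.coeff 0) h
  simp only [mul_assoc, coeff_sub, m9_ofNat2, coeff_neg, coeff_one] at h1
  simpa using h1

theorem m9_c0 (p q : ℂ[X]) : (p * q).coeff 0 = p.coeff 0 * q.coeff 0 := by
  simp [coeff_mul]

theorem m9_c1 (p q : ℂ[X]) : (p * q).coeff 1 = p.coeff 0 * q.coeff 1 + p.coeff 1 * q.coeff 0 := by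
  simp [coeff_mul, Finset.Nat.antidiagonal_succ]

theorem m9_c2 (p q : ℂ[X]) : (p * q).coeff 2
    = p.coeff 0 * q.coeff 2 + p.coeff 1 * q.coeff 1 + p.coeff 2 * q.coeff 0 := by
  simp [coeff_mul, Finset.Nat.antidiagonal_succ]
  ring

/-- top coefficients of products with a derivative -/
theorem m9_top {p q : ℂ[X]} {a b n : ℕ} (hp : p.natDegree ≤ a + 1) (hq : q.natDegree ≤ b)
    (hn : n = a + b) :
    (derivative p * q).coeff n = ((a : ℂ) + 1) * p.coeff (a + 1) * q.coeff b := by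
  subst hn
  have h1 : (derivative p).natDegree ≤ a := by
    have := natDegree_derivative_le p
    omega
  rw [coeff_mul_add_eq_of_natDegree_le h1 hq, coeff_derivative]
  ring

theorem sys_facts {j : ℕ} (hj : 2 ≤ j) {f g q0 q1 q2 : ℂ[X]} {s l e : ℂ}
    (h : Sys j f g q0 q1 q2 s l e) :
    g.coeff 1 = 0 ∧ l ≠ 0 ∧ s = e * l ∧ g.coeff (j + 1) ≠ 0 := by
  have g1 : g.coeff 1 = 0 := by
    have := m9_E3 h.E3 0
    norm_num at this
    exact this
  have g2 : q2.coeff 2 = 5 * g.coeff 2 := by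
    have := m9_E3 h.E3 1
    norm_num at this
    linear_combination (-1 / 2) * this
  have g3 : q2.coeff 3 = 4 * g.coeff 3 := by
    have := m9_E3 h.E3 2
    norm_num at this
    linear_combination (-1 / 4) * this
  have g0 := h.g0
  have a0 := h.q20
  have a1 := h.q21
  have b0 := m9_E2z h.E2
  have b1 := m9_E2 h.E2 0
  have b2 := m9_E2 h.E2 1
  have c0 := m9_E1z h.E1
  have c1 := m9_E1 h.E1 0
  have d0 := m9_E0z h.E0
  simp only [m9_c0, m9_c1, m9_c2, coeff_derivative, zero_add, Nat.reduceAdd] at b0 b1 b2 c0 c1 d0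
  norm_num at b0 b1 b2 c0 c1 d0
  rw [g1, a0, a1] at b0
  have g0' : g.coeff 0 = -s / 2 := by linear_combination g0 / 2
  rw [g1, a0, a1, g2, g0'] at b1
  rw [g1, a0, a1, g2, g3, g0'] at b2
  rw [g1, a0, g0'] at c0
  rw [g1, a0, a1, g0'] at c1
  rw [g0'] at d0
  have q10 : q1.coeff 0 = l := by linear_combination b0
  have q11 : q1.coeff 1 = 3 * f.coeff 1 + 2 * s * g.coeff 2 := by linear_combination -b1
  have q12 : q1.coeff 2 = 2 * f.coeff 2 := by linear_combination (-1 / 3) * b2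
  rw [q11] at c0
  rw [q10, q12] at c1
  have q01 : q0.coeff 1 = 2 * l * g.coeff 2 := by linear_combination (-1 / 2) * c1
  rw [q10, q01] at d0
  have key : l * (f.coeff 1 + 2 * s * g.coeff 2) = -1 := by linear_combination d0
  have key2 : s * (f.coeff 1 + 2 * s * g.coeff 2) = -e := by linear_combination c0
  refine ⟨g1, ?_, ?_, ?_⟩
  · intro h0
    rw [h0] at key
    norm_num at key
  · linear_combination s * key - l * key2
  · intro hg
    have t0 := m9_E0 h.E0 (4 * j)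
    rw [m9_top (a := 2 * j) (b := 2 * j + 1) h.df h.d1 (by ring),
      mul_comm g, m9_top (a := 3 * j) (b := j + 1) h.d0 h.dg (by ring), hg] at t0
    have t2 := m9_E2 h.E2 (2 * j)
    rw [m9_top (a := j) (b := j + 1) h.dg h.d2 (by ring),
      mul_comm g, m9_top (a := j) (b := j + 1) h.d2 h.dg (by ring), hg] at t2
    have hft := h.ft
    push_cast at t0 t2
    have hjj : ((2 : ℂ) * (j : ℂ) + 1) ≠ 0 := by
      have : ((2 * j + 1 : ℕ) : ℂ) ≠ 0 := Nat.cast_ne_zero.mpr (by omega)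
      push_cast at this
      exact this
    have t1 : q1.coeff (2 * j + 1) = 0 := by
      have : (2 * (j : ℂ) + 1) * f.coeff (2 * j + 1) * q1.coeff (2 * j + 1) = 0 := by
        linear_combination t0
      rcases mul_eq_zero.mp this with h3 | h3
      · rcases mul_eq_zero.mp h3 with h4 | h4
        · exact absurd h4 hjj
        · exact absurd h4 hft
      · exact h3
    rw [t1] at t2
    have : (2 * (j : ℂ) + 1) * f.coeff (2 * j + 1) = 0 := by
      linear_combination (1 / 3) * t2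
    rcases mul_eq_zero.mp this with h4 | h4
    · exact hjj h4
    · exact hft h4

end ModM9

end Pool.Agent.Lib.MP_2d59ee_ag.J

/-! Part M10 -/
/-! ## Row M10: the equation `(*c)`

`G = x^2 f' - 2 x g g' + g^2`, `H = x q1 - 2 g q2 + 3 g^2`. Identities (`ring` with `E0..E3`):
`G H = g^4 - g^3 L3 + x g^2 L2 - x^2 g L1 + x^3 L0` with `L_i` the left sides of `E_i`, so
`G H = g^4 + s g^3 + l x g^2 + e x^2 g - x^3`; and
`3 G + 3 H - 2 x H' = x L2 - 3 g L3 + 6 g^2 = 6 g^2 + 3 s g + l x`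
(`linear_combination X * E2 - 3 * g * E3`). Multiply the second by `H` and use the first:
`3 ((H - g^2)^2 - (s g + l x)(H - g^2) + x^2 (e g - x)) = 2 H (x H' - l x)`   (`s = e l`).
Scaling: `λ^2 = l`, `λ ≠ 0` (`l ≠ 0`; `IsAlgClosed.exists_pow_nat_eq`), `c = e/λ`,
`Y = C (λ^(-3)) * g.comp (C (λ^4) * X)`, `H₁ = C (λ^(-6)) * H.comp (C (λ^4) * X)`;
`(X * H').comp (C (λ^4) X) = X * (H.comp (C (λ^4) X))'`. Substitute `x → λ^4 x` and divide by
`λ^12`: with `s = c λ^3`, `l = λ^2`, `e = c λ` this is `Star.eq`.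
`deg Y = j + 1` (`g.coeff (j+1) ≠ 0`, `dg`), `deg H ≤ 2 (j+1)`, `2 Y_0 = -s/λ^3 = -c`, `Y_1 = 0`,
`4 H_0 = 4 (-2 g_0 q2_0 + 3 g_0^2) = -s^2`, so `4 (H₁)_0 = -s^2/λ^6 = -c^2`. -/

namespace Pool.Agent.Lib.MP_2d59ee_ag.J

section ModM10

open Polynomial

theorem m10_eq1 {j : ℕ} {f g q0 q1 q2 : ℂ[X]} {s l e : ℂ}
    (h : Sys j f g q0 q1 q2 s l e) :
    (X ^ 2 * derivative f - 2 * X * g * derivative g + g ^ 2) * (X * q1 - 2 * g * q2 + 3 * g ^ 2)
      = g ^ 4 + C s * g ^ 3 + C l * X * g ^ 2 + C e * X ^ 2 * g - X ^ 3 := by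
  have E3 := h.E3
  have E2 := h.E2
  have E1 := h.E1
  have E0 := h.E0
  rw [C_neg] at E3 E1
  linear_combination X ^ 3 * E0 - X ^ 2 * g * E1 + X * g ^ 2 * E2 - g ^ 3 * E3

theorem m10_eq2 {j : ℕ} {f g q0 q1 q2 : ℂ[X]} {s l e : ℂ}
    (h : Sys j f g q0 q1 q2 s l e) :
    3 * (X ^ 2 * derivative f - 2 * X * g * derivative g + g ^ 2)
      + 3 * (X * q1 - 2 * g * q2 + 3 * g ^ 2)
      - 2 * X * derivative (X * q1 - 2 * g * q2 + 3 * g ^ 2)
      = 6 * g ^ 2 + 3 * C s * g + C l * X := by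
  have E3 := h.E3
  have E2 := h.E2
  rw [C_neg] at E3
  have hd : derivative (X * q1 - 2 * g * q2 + 3 * g ^ 2)
      = q1 + X * derivative q1 - 2 * (derivative g * q2 + g * derivative q2)
        + 6 * g * derivative g := by
    have h2 : derivative (2 : ℂ[X]) = 0 := derivative_ofNat 2
    have h3 : derivative (3 : ℂ[X]) = 0 := derivative_ofNat 3
    have : (X * q1 - 2 * g * q2 + 3 * g ^ 2 : ℂ[X]) = X * q1 - 2 * (g * q2) + 3 * (g * g) := by
      ring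
    rw [this]
    simp only [derivative_add, derivative_sub, derivative_mul, derivative_X, h2, h3]
    ring
  rw [hd]
  linear_combination X * E2 - 3 * g * E3

theorem m10_eq3 {j : ℕ} {f g q0 q1 q2 : ℂ[X]} {s l e : ℂ}
    (h : Sys j f g q0 q1 q2 s l e) (H : ℂ[X]) (hH : H = X * q1 - 2 * g * q2 + 3 * g ^ 2) :
    3 * ((H - g ^ 2) ^ 2 - (C s * g + C l * X) * (H - g ^ 2) + X ^ 2 * (C e * g - X))
      = 2 * H * (X * derivative H - C l * X) := by
  have h1 := m10_eq1 h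
  have h2 := m10_eq2 h
  rw [← hH] at h1 h2
  linear_combination H * h2 - 3 * h1

theorem star_of_sys {j : ℕ} (hj : 2 ≤ j) {f g q0 q1 q2 : ℂ[X]} {s l e : ℂ}
    (h : Sys j f g q0 q1 q2 s l e) :
    ∃ (Y H : ℂ[X]) (c : ℂ), Star (j + 1) Y H c := by
  obtain ⟨hg1, hl, hs, hgj⟩ := sys_facts hj h
  obtain ⟨r, hr⟩ := IsAlgClosed.exists_pow_nat_eq l (n := 2) (by norm_num)
  have hr0 : r ≠ 0 := by
    rintro rfl
    apply hl
    rw [← hr]; norm_num
  obtain ⟨H, hH⟩ : ∃ H : ℂ[X], H = X * q1 - 2 * g * q2 + 3 * g ^ 2 := ⟨_, rfl⟩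
  have heq := m10_eq3 h H hH
  have hgd : g.natDegree = j + 1 := le_antisymm h.dg (le_natDegree_of_ne_zero hgj)
  have hHd : H.natDegree ≤ 2 * (j + 1) := by
    rw [hH]
    refine (natDegree_add_le _ _).trans (max_le ((natDegree_sub_le _ _).trans (max_le ?_ ?_)) ?_)
    · refine natDegree_mul_le.trans ?_
      rw [natDegree_X]
      have := h.d1
      omega
    · have h2 : (2 * g * q2 : ℂ[X]) = C 2 * (g * q2) := by
        rw [show (C (2 : ℂ) : ℂ[X]) = 2 from map_ofNat C 2]; ring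
      rw [h2]
      refine (natDegree_C_mul_le _ _).trans (natDegree_mul_le.trans ?_)
      have := h.d2
      omega
    · have h2 : (3 * g ^ 2 : ℂ[X]) = C 3 * (g * g) := by
        rw [show (C (3 : ℂ) : ℂ[X]) = 3 from map_ofNat C 3]; ring
      rw [h2]
      refine (natDegree_C_mul_le _ _).trans (natDegree_mul_le.trans ?_)
      omega
  have hH0 : 4 * H.coeff 0 = - s ^ 2 := by
    have h0 := h.g0
    have h1 := h.q20
    have : H.coeff 0 = - 2 * g.coeff 0 * q2.coeff 0 + 3 * g.coeff 0 ^ 2 := by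
      rw [hH]
      simp only [coeff_zero_eq_eval_zero]
      simp
    rw [this, h1]
    linear_combination (4 * s + 3 * (2 * g.coeff 0) - 3 * s) * h0
  set P : ℂ[X] := C (r ^ 4) * X with hP
  have hPd : P.natDegree = 1 := natDegree_C_mul_X _ (pow_ne_zero _ hr0)
  have hcomp0 : ∀ F : ℂ[X], (F.comp P).coeff 0 = F.coeff 0 := by
    intro F
    rw [coeff_zero_eq_eval_zero, eval_comp, coeff_zero_eq_eval_zero]
    simp [hP]
  have hcomp1 : ∀ F : ℂ[X], (F.comp P).coeff 1 = F.coeff 1 * r ^ 4 := by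
    intro F
    rw [hP, comp_C_mul_X_coeff]
    simp
  have hder : ∀ F : ℂ[X], derivative (F.comp P) = C (r ^ 4) * (derivative F).comp P := by
    intro F
    rw [derivative_comp, hP]
    simp
  have hC : ∀ a : ℂ, (C a : ℂ[X]).comp P = C a := fun a => C_comp
  have hXc : (X : ℂ[X]).comp P = P := X_comp
  have hcomp := congrArg (fun F : ℂ[X] => F.comp P) heq
  have h3c : (3 : ℂ[X]).comp P = 3 := ofNat_comp (n := 3)
  have h2c : (2 : ℂ[X]).comp P = 2 := ofNat_comp (n := 2)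
  simp only [mul_comp, sub_comp, add_comp, pow_comp, hC, hXc, h3c, h2c] at hcomp
  refine ⟨C ((r ^ 3)⁻¹) * g.comp P, C ((r ^ 6)⁻¹) * H.comp P, e / r, ?_, ?_, ?_, ?_, ?_, ?_⟩
  · rw [natDegree_C_mul (inv_ne_zero (pow_ne_zero _ hr0)), natDegree_comp, hPd, hgd, mul_one]
  · refine (natDegree_C_mul_le _ _).trans ?_
    rw [natDegree_comp, hPd, mul_one]
    exact hHd
  · rw [coeff_C_mul, hcomp0]
    have h0 := h.g0
    rw [hs, ← hr] at h0
    have : g.coeff 0 = - (e * r ^ 2) / 2 := by linear_combination h0 / 2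
    rw [this]
    field_simp
  · rw [coeff_C_mul, hcomp1, hg1]; ring
  · rw [coeff_C_mul, hcomp0]
    rw [hs, ← hr] at hH0
    have : H.coeff 0 = - (e * r ^ 2) ^ 2 / 4 := by linear_combination hH0 / 4
    rw [this]
    field_simp
  · -- main equation
    rw [derivative_C_mul, hder]
    obtain ⟨g', hg'⟩ : ∃ g' : ℂ[X], g' = g.comp P := ⟨_, rfl⟩
    obtain ⟨H', hH'⟩ : ∃ H' : ℂ[X], H' = H.comp P := ⟨_, rfl⟩
    obtain ⟨D', hD'⟩ : ∃ D' : ℂ[X], D' = (derivative H).comp P := ⟨_, rfl⟩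
    rw [← hg', ← hH', ← hD'] at hcomp
    rw [← hg', ← hH', ← hD']
    obtain ⟨R, hR⟩ : ∃ R : ℂ[X], R = C (r⁻¹) := ⟨_, rfl⟩
    obtain ⟨r', hr'⟩ : ∃ r' : ℂ[X], r' = C r := ⟨_, rfl⟩
    obtain ⟨e', he'⟩ : ∃ e' : ℂ[X], e' = C e := ⟨_, rfl⟩
    have hRr : R * r' = 1 := by
      rw [hR, hr', ← C_mul, inv_mul_cancel₀ hr0, C_1]
    have c3 : (C ((r ^ 3)⁻¹) : ℂ[X]) = R ^ 3 := by rw [hR, ← C_pow, inv_pow]
    have c6 : (C ((r ^ 6)⁻¹) : ℂ[X]) = R ^ 6 := by rw [hR, ← C_pow, inv_pow]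
    have c4 : (C (r ^ 4) : ℂ[X]) = r' ^ 4 := by rw [hr', ← C_pow]
    have ce : (C (e / r) : ℂ[X]) = e' * R := by rw [hR, he', ← C_mul, div_eq_mul_inv]
    have cs : (C s : ℂ[X]) = e' * r' ^ 2 := by rw [he', hr', hs, ← hr, C_mul, C_pow]
    have cl : (C l : ℂ[X]) = r' ^ 2 := by rw [hr', ← hr, C_pow]
    rw [hP, c4, cs, cl, ← he'] at hcomp
    rw [c3, c6, c4, ce]
    have hr'0 : r' ≠ 0 := by
      rintro h0
      rw [h0, mul_zero] at hRr
      exact zero_ne_one hRr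
    have key : ∀ (n : ℕ) (F : ℂ[X]), F = r' ^ n * (R ^ n * F) := by
      intro n F
      rw [← mul_assoc, ← mul_pow, mul_comm r' R, hRr, one_pow, one_mul]
    obtain ⟨Y, hY⟩ : ∃ Y : ℂ[X], Y = R ^ 3 * g' := ⟨_, rfl⟩
    obtain ⟨Z, hZ⟩ : ∃ Z : ℂ[X], Z = R ^ 6 * H' := ⟨_, rfl⟩
    obtain ⟨E, hE⟩ : ∃ E : ℂ[X], E = R ^ 2 * D' := ⟨_, rfl⟩
    obtain ⟨c', hc'⟩ : ∃ c' : ℂ[X], c' = R ^ 1 * e' := ⟨_, rfl⟩
    have k1 : g' = r' ^ 3 * Y := by rw [hY]; exact key 3 g'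
    have k2 : H' = r' ^ 6 * Z := by rw [hZ]; exact key 6 H'
    have k3 : D' = r' ^ 2 * E := by rw [hE]; exact key 2 D'
    have k4 : e' = r' ^ 1 * c' := by rw [hc']; exact key 1 e'
    have k5 : R ^ 6 * (r' ^ 4 * D') = E := by
      rw [hE]
      have : R ^ 6 * (r' ^ 4 * D') = (R * r') ^ 4 * (R ^ 2 * D') := by ring
      rw [this, hRr, one_pow, one_mul]
    have k6 : e' * R = c' := by rw [hc']; ring
    rw [k5, k6, ← hY, ← hZ]
    rw [k1, k2, k3, k4] at hcomp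
    apply mul_left_cancel₀ (pow_ne_zero 12 hr'0)
    linear_combination hcomp

end ModM10

end Pool.Agent.Lib.MP_2d59ee_ag.J
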