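import Mathlib
import Pool.Agent.Lib.MP_2d59ee_ag.JBase

set_option autoImplicit false

/-! Part M3 -/
/-! ## Row M3: the coordinates `v, V, U` under the final right substitution

In `LR` with `t = single 1 1` (`sgl n f = HahnSeries.single n f`): `z = sgl (-4b) 1`,
`w = sgl b 1 + sgl (2b) r + sgl (2b+j) X = sgl b 1 * (1 + ε)`, `ε = sgl b 1 * ε'`,
`ε' = r + sgl j X` (`r` = constant), `b = 3 j + 1`.
`η = (1 + ε)⁻¹` (`1 + ε` is a one-unit, `OneUnit.inv`), so `w⁻¹ = sgl (-b) 1 * η`.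
From `z = u t^3 + l t^2 + s₁ t` with `t = w⁻¹`: `u = z w^3 - l w - s₁ w^2`.
`v = u - w⁻¹ - 4 r = sgl (-b) 1 * ((1+ε)^3 - η) - l w - s₁ w^2 - 4 r`, and
`(1+ε)^3 - η = η ((1+ε)^4 - 1) = η ε (4 + 6 ε + 4 ε^2 + ε^3)`, so
`v = η ε' (4 + 6 ε + 4 ε^2 + ε^3) - l w - s₁ w^2 - 4 r = 4 sgl j X + (terms of order ≥ b)`, since
`η - 1`, `ε`, `w`, `w^2` have order `≥ b`. As `b > j`: `Low v j` and `v.coeff j = 4 X`.
So `v ≠ 0`, `V = v⁻¹` has `Low V (-j)`, `V.coeff (-j) = (4 X)⁻¹` (`exists_oneUnit`, `OneUnit.inv`).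
`u = sgl (-b) 1 + (order ≥ 0)`, so `U = u v^3 - l v^2 + s v` (`s = s₁ + 4 r l`) has
`Low U (3 j - b) = Low U (-1)`, `U.coeff (-1) = 64 X^3`.
Finally `uF cR s l U V = u` and `tF cR s l (4r) U V = w⁻¹`, `zF cR s₁ l u w⁻¹ = z` (field identities). -/

namespace Pool.Agent.Lib.MP_2d59ee_ag.J

section ModM3

open Polynomial

/-- the image of `w` in `LR` -/
noncomputable def wRR (b j : ℕ) (r : ℂ) : LR :=
  HahnSeries.single (b : ℤ) 1 + cR r * HahnSeries.single (2 * b : ℤ) 1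
    + HahnSeries.single (2 * b + j : ℤ) RatFunc.X

section general

variable {F : Type*} [Field F]

private theorem m3_single {a : ℤ} {x : F} : Low (HahnSeries.single a x) a := by
  intro n hn
  rw [HahnSeries.coeff_single_of_ne (by omega)]

private theorem m3_mono {x : HahnSeries ℤ F} {i k : ℤ} (h : Low x i) (hk : k ≤ i) : Low x k :=
  fun n hn => h n (by omega)

private theorem m3_add {x y : HahnSeries ℤ F} {i : ℤ} (hx : Low x i) (hy : Low y i) :
    Low (x + y) i := by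
  intro n hn
  rw [HahnSeries.coeff_add, hx n hn, hy n hn, add_zero]

private theorem m3_mul0 {x y : HahnSeries ℤ F} {i : ℤ} (hx : Low x i) (hy : Low y 0) :
    Low (x * y) i := by
  have := hx.mul hy
  rwa [add_zero] at this

private theorem m3_0mul {x y : HahnSeries ℤ F} {i : ℤ} (hx : Low x 0) (hy : Low y i) :
    Low (x * y) i := by
  have := hx.mul hy
  rwa [zero_add] at this

private theorem m3_alg {L : Type*} [Field L] {S B e η : L} (h1 : S * B = 1)
    (h2 : η * (1 + B * e) = 1) :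
    S * (1 + B * e) ^ 3 - S * η =
      η * e * (4 + 6 * (B * e) + 4 * (B * e) ^ 2 + (B * e) ^ 3) := by
  linear_combination (η * e * (4 + 6 * (B * e) + 4 * (B * e) ^ 2 + (B * e) ^ 3)) * h1
    - (S * (1 + B * e) ^ 3) * h2

private theorem m3_rest {L : Type*} [Field L] {B e η l s : L} (h2 : η * (1 + B * e) = 1) :
    η * e * (4 + 6 * (B * e) + 4 * (B * e) ^ 2 + (B * e) ^ 3) - l * (B * (1 + B * e))
      - s * (B * (1 + B * e)) ^ 2 =
    4 * e + B * (e * (η * e * (2 + 4 * (B * e) + (B * e) ^ 2)) - l * (1 + B * e)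
      - s * (B * (1 + B * e) ^ 2)) := by
  linear_combination (4 * e) * h2

private theorem m3_uF {L : Type*} [Field L] (φ : ℂ →+* L) (s l : ℂ) {u v : L} (hv : v ≠ 0) :
    uF φ s l (u * v ^ 3 + φ s * v - φ l * v ^ 2) v⁻¹ = u := by
  unfold uF
  field_simp
  ring

private theorem m3_tF {L : Type*} [Field L] (φ : ℂ →+* L) (s l e : ℂ) {u v w : L} (hv : v ≠ 0)
    (h : v = u - w⁻¹ - φ e) :
    tF φ s l e (u * v ^ 3 + φ s * v - φ l * v ^ 2) v⁻¹ = w⁻¹ := by
  unfold tF
  rw [m3_uF φ s l hv, inv_inv]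
  linear_combination (-1 : L) * h

private theorem m3_zF {L : Type*} [Field L] (φ : ℂ →+* L) (s₁ l : ℂ) {u w z : L} (hw : w ≠ 0)
    (hu : u = z * w ^ 3 - φ l * w - φ s₁ * w ^ 2) : zF φ s₁ l u w⁻¹ = z := by
  unfold zF
  rw [hu]
  field_simp
  ring

private theorem m3_main (φ : ℂ →+* HahnSeries ℤ F) (hφ : ∀ c, Low (φ c) 0) (x : F) (hx : x ≠ 0)
    (h4 : (4 : F) ≠ 0) {b j : ℕ} (hb : b = 3 * j + 1) (s₁ l r : ℂ) (w : HahnSeries ℤ F)
    (hw0 : w = HahnSeries.single (b : ℤ) 1 + φ r * HahnSeries.single (2 * b : ℤ) 1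
      + HahnSeries.single (2 * b + j : ℤ) x) :
    ∃ U V : HahnSeries ℤ F, V ≠ 0 ∧
      Low U (-1) ∧ U.coeff (-1) = 64 * x ^ 3 ∧
      Low V (-(j : ℤ)) ∧ V.coeff (-(j : ℤ)) = (4 * x)⁻¹ ∧
      tF φ (s₁ + 4 * r * l) l (4 * r) U V = w⁻¹ ∧
      tF φ (s₁ + 4 * r * l) l (4 * r) U V ≠ 0 ∧
      zF φ s₁ l (uF φ (s₁ + 4 * r * l) l U V) (tF φ (s₁ + 4 * r * l) l (4 * r) U V)
        = HahnSeries.single (-(4 * b) : ℤ) 1 := by
  have hone1 : Low (1 : HahnSeries ℤ F) 0 := by
    have := hφ 1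
    rwa [map_one] at this
  obtain ⟨e, he⟩ : ∃ e : HahnSeries ℤ F, e = φ r + HahnSeries.single (j : ℤ) x := ⟨_, rfl⟩
  obtain ⟨B, hB⟩ : ∃ B : HahnSeries ℤ F, B = HahnSeries.single (b : ℤ) 1 := ⟨_, rfl⟩
  obtain ⟨S, hS⟩ : ∃ S : HahnSeries ℤ F, S = HahnSeries.single (-(b : ℤ)) 1 := ⟨_, rfl⟩
  have hbpos : (0 : ℤ) < b := by omega
  have hjb : (j : ℤ) < b := by omega
  have hLB : Low B b := by rw [hB]; exact m3_single
  have hLS : Low S (-(b : ℤ)) := by rw [hS]; exact m3_single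
  have hLB0 : Low B 0 := m3_mono hLB hbpos.le
  have hLe : Low e 0 := by
    rw [he]
    exact m3_add (hφ r) (m3_mono m3_single (by omega))
  have hLBe : Low (B * e) b := m3_mul0 hLB hLe
  have hLBe0 : Low (B * e) 0 := m3_mono hLBe hbpos.le
  have hone : OneUnit (1 + B * e) := by
    refine ⟨?_, m3_add hone1 hLBe0⟩
    rw [HahnSeries.coeff_add, HahnSeries.coeff_one, if_pos rfl, hLBe 0 hbpos, add_zero]
  have hSB : S * B = 1 := by
    rw [hS, hB, HahnSeries.single_mul_single, neg_add_cancel, one_mul]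
    rfl
  have hw : w = B * (1 + B * e) := by
    have h1 : B * B = HahnSeries.single (2 * b : ℤ) 1 := by
      rw [hB, HahnSeries.single_mul_single, one_mul, two_mul]
    have h2 : HahnSeries.single (2 * b : ℤ) 1 * HahnSeries.single (j : ℤ) x =
        HahnSeries.single (2 * b + j : ℤ) x := by
      rw [HahnSeries.single_mul_single, one_mul]
    rw [hw0, he, ← h2, ← h1, ← hB]
    ring
  obtain ⟨η, hη⟩ : ∃ η : HahnSeries ℤ F, η = (1 + B * e)⁻¹ := ⟨_, rfl⟩
  have hη1 : OneUnit η := by rw [hη]; exact hone.inv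
  have hηe : η * (1 + B * e) = 1 := by rw [hη]; exact inv_mul_cancel₀ hone.ne_zero
  have hBne : B ≠ 0 := right_ne_zero_of_mul_eq_one hSB
  have hwne : w ≠ 0 := by rw [hw]; exact mul_ne_zero hBne hone.ne_zero
  have hwinv : w⁻¹ = S * η := by
    rw [hw]
    apply inv_eq_of_mul_eq_one_right
    linear_combination (η * (1 + B * e)) * hSB + hηe
  have hLw : Low w b := by rw [hw]; exact m3_mul0 hLB hone.2
  have hLw2 : Low (w ^ 2) b := by
    rw [pow_two]; exact m3_mul0 hLw (m3_mono hLw hbpos.le)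
  obtain ⟨z, hz⟩ : ∃ z : HahnSeries ℤ F, z = HahnSeries.single (-(4 * b) : ℤ) 1 := ⟨_, rfl⟩
  have hzS : z = S ^ 4 := by
    rw [hz, hS, HahnSeries.single_pow, one_pow]
    congr 1
    rw [nsmul_eq_mul]
    push_cast
    ring
  have hzw : z * w ^ 3 = S * (1 + B * e) ^ 3 := by
    have h1 : S ^ 4 * B ^ 3 = S := by
      have : S ^ 4 * B ^ 3 = S * (S * B) ^ 3 := by ring
      rw [this, hSB, one_pow, mul_one]
    rw [hzS, hw]
    linear_combination ((1 + B * e) ^ 3) * h1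
  obtain ⟨u, hu⟩ : ∃ u : HahnSeries ℤ F, u = z * w ^ 3 - φ l * w - φ s₁ * w ^ 2 := ⟨_, rfl⟩
  obtain ⟨v, hv⟩ : ∃ v : HahnSeries ℤ F, v = u - w⁻¹ - φ (4 * r) := ⟨_, rfl⟩
  obtain ⟨R, hR⟩ : ∃ R : HahnSeries ℤ F, R = e * (η * e * (2 + 4 * (B * e) + (B * e) ^ 2))
      - φ l * (1 + B * e) - φ s₁ * (B * (1 + B * e) ^ 2) := ⟨_, rfl⟩
  have hLR : Low R 0 := by
    have h2 : Low (2 : HahnSeries ℤ F) 0 := by
      have := hφ 2
      rwa [map_ofNat] at this
    have h4 : Low (4 : HahnSeries ℤ F) 0 := by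
      have := hφ 4
      rwa [map_ofNat] at this
    rw [hR]
    refine (Low.sub (m3_mul0 hLe (m3_mul0 (m3_mul0 hη1.2 hLe) ?_)) (m3_mul0 (hφ l) hone.2)).sub
      (m3_mul0 (hφ s₁) (m3_mul0 hLB0 (hone.pow 2).2))
    exact m3_add (m3_add h2 (m3_mul0 h4 hLBe0)) (by rw [pow_two]; exact m3_mul0 hLBe0 hLBe0)
  have hc4 : φ (4 * r) = 4 * φ r := by rw [map_mul, map_ofNat]
  have hvR : v = 4 * HahnSeries.single (j : ℤ) x + B * R := by
    have h1 := m3_alg hSB hηe
    have h2 := m3_rest (l := φ l) (s := φ s₁) hηe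
    have h3 : (4 : HahnSeries ℤ F) * HahnSeries.single (j : ℤ) x = 4 * e - 4 * φ r := by
      rw [he]; ring
    rw [hv, hu, hzw, hwinv, hc4, hR, h3, hw]
    linear_combination h1 + h2
  have hBR : Low (B * R) b := m3_mul0 hLB hLR
  have h4s : (4 : HahnSeries ℤ F) * HahnSeries.single (j : ℤ) x =
      HahnSeries.single (j : ℤ) (4 * x) := by
    have : (4 : HahnSeries ℤ F) = HahnSeries.single (0 : ℤ) (4 : F) := by
      rw [← HahnSeries.C_apply, map_ofNat]
    rw [this, HahnSeries.single_mul_single, zero_add]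
  have hLv : Low v j := by
    rw [hvR, h4s]
    exact m3_add m3_single (m3_mono hBR hjb.le)
  have hvj : v.coeff j = 4 * x := by
    rw [hvR, h4s, HahnSeries.coeff_add, HahnSeries.coeff_single_same, hBR j hjb, add_zero]
  have h4X : (4 * x : F) ≠ 0 := mul_ne_zero h4 hx
  have hvj0 : v.coeff j ≠ 0 := by rw [hvj]; exact h4X
  have hvne : v ≠ 0 := by
    rintro h0
    rw [h0] at hvj0
    exact hvj0 (by simp)
  obtain ⟨W, hW, hvW⟩ := exists_oneUnit v j hvj0 hLv
  rw [hvj] at hvW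
  have hVW : v⁻¹ = HahnSeries.single (-(j : ℤ)) (4 * x)⁻¹ * W⁻¹ := by
    conv_lhs => rw [hvW]
    rw [_root_.mul_inv, HahnSeries.inv_single]
  have hLu : Low u (-(b : ℤ)) := by
    rw [hu, hzw]
    exact ((m3_mul0 hLS (hone.pow 3).2).sub
      (m3_mono (m3_0mul (hφ l) hLw) (by omega))).sub
      (m3_mono (m3_0mul (hφ s₁) hLw2) (by omega))
  have hub : u.coeff (-(b : ℤ)) = 1 := by
    have h1 : (S * (1 + B * e) ^ 3).coeff (-(b : ℤ)) = 1 := by
      have := hLS.coeff_mul (hone.pow 3).2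
      rw [add_zero, hS, HahnSeries.coeff_single_same, (hone.pow 3).1, mul_one] at this
      rw [hS]
      exact this
    have h2 : (φ l * w).coeff (-(b : ℤ)) = 0 := m3_0mul (hφ l) hLw _ (by omega)
    have h3 : (φ s₁ * w ^ 2).coeff (-(b : ℤ)) = 0 := m3_0mul (hφ s₁) hLw2 _ (by omega)
    rw [hu, hzw, HahnSeries.coeff_sub, HahnSeries.coeff_sub, h1, h2, h3, sub_zero, sub_zero]
  have hLv2 : Low (v ^ 2) (j + j) := by rw [pow_two]; exact hLv.mul hLv
  have hLv3 : Low (v ^ 3) (j + j + j) := by rw [pow_succ]; exact hLv2.mul hLv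
  have hv3 : (v ^ 3).coeff (j + j + j) = (4 * x) ^ 3 := by
    have h1 : (v ^ 2).coeff (j + j : ℤ) = (4 * x) ^ 2 := by
      rw [pow_two, hLv.coeff_mul hLv, hvj]; ring
    rw [pow_succ, hLv2.coeff_mul hLv, h1, hvj]; ring
  have huV := m3_uF φ (s₁ + 4 * r * l) l (u := u) hvne
  have htV := m3_tF φ (s₁ + 4 * r * l) l (4 * r) hvne hv
  refine ⟨u * v ^ 3 + φ (s₁ + 4 * r * l) * v - φ l * v ^ 2, v⁻¹, inv_ne_zero hvne, ?_, ?_, ?_,
    ?_, htV, ?_, ?_⟩
  · have h1 : Low (u * v ^ 3) (-1) := by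
      have := hLu.mul hLv3
      rwa [show (-(b : ℤ) + (j + j + j)) = -1 by omega] at this
    have h2 : Low (φ (s₁ + 4 * r * l) * v) (-1) :=
      m3_mono (m3_0mul (hφ _) hLv) (by omega)
    have h3 : Low (φ l * v ^ 2) (-1) :=
      m3_mono (m3_0mul (hφ l) hLv2) (by omega)
    exact (m3_add h1 h2).sub h3
  · have h1 : (u * v ^ 3).coeff (-1) = 64 * x ^ 3 := by
      have := hLu.coeff_mul hLv3
      rw [show (-(b : ℤ) + (j + j + j)) = -1 by omega, hub, hv3] at this
      rw [this]; ring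
    have h2 : (φ (s₁ + 4 * r * l) * v).coeff (-1) = 0 := m3_0mul (hφ _) hLv _ (by omega)
    have h3 : (φ l * v ^ 2).coeff (-1) = 0 := m3_0mul (hφ l) hLv2 _ (by omega)
    rw [HahnSeries.coeff_sub, HahnSeries.coeff_add, h1, h2, h3, add_zero, sub_zero]
  · rw [hVW]
    exact m3_mul0 m3_single hW.inv.2
  · rw [hVW]
    have := (m3_single (a := -(j : ℤ)) (x := (4 * x)⁻¹)).coeff_mul hW.inv.2
    rw [add_zero, HahnSeries.coeff_single_same, hW.inv.1, mul_one] at this
    exact this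
  · rw [htV]
    exact inv_ne_zero hwne
  · rw [huV, htV, ← hz]
    exact m3_zF φ _ _ hwne hu

end general

theorem exists_UV {b j : ℕ} (hb : b = 3 * j + 1) (s₁ l r : ℂ) :
    ∃ U V : LR, V ≠ 0 ∧
      Low U (-1) ∧ U.coeff (-1) = 64 * RatFunc.X ^ 3 ∧
      Low V (-(j : ℤ)) ∧ V.coeff (-(j : ℤ)) = (4 * RatFunc.X)⁻¹ ∧
      tF cR (s₁ + 4 * r * l) l (4 * r) U V = (wRR b j r)⁻¹ ∧
      tF cR (s₁ + 4 * r * l) l (4 * r) U V ≠ 0 ∧
      zF cR s₁ l (uF cR (s₁ + 4 * r * l) l U V) (tF cR (s₁ + 4 * r * l) l (4 * r) U V)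
        = HahnSeries.single (-(4 * b) : ℤ) 1 :=
  m3_main cR (fun c n hn => by
    show (HahnSeries.C (algebraMap ℂ (RatFunc ℂ) c) : LR).coeff n = 0
    rw [HahnSeries.C_apply, HahnSeries.coeff_single_of_ne (by omega)])
    RatFunc.X RatFunc.X_ne_zero (by norm_num) hb s₁ l r (wRR b j r) rfl

end ModM3

end Pool.Agent.Lib.MP_2d59ee_ag.J

/-! Part M8 -/
/-! ## Row M8: the one-variable system

`j ≥ 2`: `π₁` has `k ≤ 2`, `i ≤ 1` for `k = 2`; `π₂` has `k ≤ 3`, `i ≤ 1` for `k = 3`. Let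
`p = π₁.coeff (pt 1 2)`, `q = π₂.coeff (pt 1 3)`. The coefficient of `U V^4` in `jac π₁ π₂` is
`3 p q - 2 p q = p q`, in `-C c * Th` it is `-c`; so `p q = -c ≠ 0`. Put
`f = Σ π₁_{i0} X^i / p`, `g = Σ π₁_{i1} X^i / (2 p)` (so `π₁ / p = f + 2 g V + U V^2`, using `h02`),
`κ = π₂_{12} / q`, `π₂ / q - κ π₁ / p = q0 + q1 V + q2 V^2 + U V^3` (using `h03`), i.e.
`q0 = Σ π₂_{i0} X^i / q - κ f`, `q1 = Σ π₂_{i1} X^i / q - 2 κ g`, `q2 = Σ π₂_{i2} X^i / q - κ X`.
`jac (π₁/p) (π₂/q - κ π₁/p) = jac π₁ π₂ / (p q) = Th`. Compare the coefficients of `V^3, V^2, V^1, V^0`: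
`(f' + 2 g' V + V^2)(q1 + 2 q2 V + 3 U V^2) - (2 g + 2 U V)(q0' + q1' V + q2' V^2 + V^3)
 = U V^4 - s V^3 + l V^2 - e V - 1`.
Degrees from the bounds (`2 j + 1 ≤ 3 j + 1`, `j + 1 ≤ 2 j + 1`, `1 ≤ j + 1`). -/

namespace Pool.Agent.Lib.MP_2d59ee_ag.J

section ModM8

open Polynomial

/-- polynomials in `V` over polynomials in `U` -/
noncomputable def m8_tau : MP →+* ℂ[X][X] :=
  ev ((C : ℂ[X] →+* ℂ[X][X]).comp (C : ℂ →+* ℂ[X])) (C X) X

theorem m8_aux_coeff (F : MP) (i k : ℕ) : ((m8_tau F).coeff k).coeff i = F.coeff (pt i k) := by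
  induction F using MvPolynomial.induction_on' with
  | add p q hp hq => rw [map_add, coeff_add, coeff_add, hp, hq, MvPolynomial.coeff_add]
  | monomial d c =>
    rw [m8_tau, ev_monomial, MvPolynomial.coeff_monomial]
    have h1 : ((C : ℂ[X] →+* ℂ[X][X]).comp (C : ℂ →+* ℂ[X])) c * C X ^ d 0 * X ^ d 1
        = C (C c * X ^ d 0) * X ^ d 1 := by
      rw [RingHom.comp_apply, C_mul, C_pow]
    rw [h1, coeff_C_mul, coeff_X_pow]
    by_cases hk : k = d 1
    · rw [if_pos hk, mul_one, coeff_C_mul, coeff_X_pow]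
      by_cases hi : i = d 0
      · rw [if_pos hi, mul_one, if_pos]
        rw [hi, hk, pt_eta]
      · rw [if_neg hi, mul_zero, if_neg]
        intro h
        apply hi
        rw [h, pt_0]
    · rw [if_neg hk, mul_zero, coeff_zero, if_neg]
      intro h
      apply hk
      rw [h, pt_1]

theorem m8_aux_d1 (F : MP) : m8_tau (MvPolynomial.pderiv 1 F) = derivative (m8_tau F) := by
  have h := der_ev (A := ℂ[X][X]) (D := fun P => derivative P) deriv_isDer
    ((C : ℂ[X] →+* ℂ[X][X]).comp (C : ℂ →+* ℂ[X])) (fun c => by simp) (C X) X F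
  have h' : derivative (m8_tau F) = _ := h
  rw [h', m8_tau]
  simp

theorem m8_aux_d0 (F : MP) (k : ℕ) :
    (m8_tau (MvPolynomial.pderiv 0 F)).coeff k = derivative ((m8_tau F).coeff k) := by
  induction F using MvPolynomial.induction_on' with
  | add p q hp hq => rw [map_add, map_add, coeff_add, hp, hq, map_add, coeff_add, derivative_add]
  | monomial d c =>
    ext i
    rw [coeff_derivative, m8_aux_coeff, m8_aux_coeff, MvPolynomial.pderiv_monomial,
      MvPolynomial.coeff_monomial, MvPolynomial.coeff_monomial]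
    by_cases h0 : d 0 = 0
    · rw [h0]
      have h2 : ¬ d = pt (i + 1) k := by
        intro h
        rw [h, pt_0] at h0
        omega
      rw [if_neg h2]
      simp
    · by_cases h : d = pt (i + 1) k
      · have h3 : d - Finsupp.single 0 1 = pt i k := by
          rw [h]
          ext x
          fin_cases x <;> simp [pt]
        rw [if_pos h3, if_pos h, h, pt_0]
        push_cast
        ring
      · rw [if_neg h, if_neg]
        · ring
        · intro h3
          apply h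
          rw [← pt_eta d, pt_inj]
          have h4 := congrArg (fun e => e 0) h3
          have h5 := congrArg (fun e => e 1) h3
          simp at h4 h5
          constructor
          · omega
          · omega

theorem m8_aux_five {R : Type*} [CommRing R] {a b c d e : R}
    (h : C a + C b * X + C c * X ^ 2 + C d * X ^ 3 + C e * X ^ 4 = (0 : R[X])) :
    a = 0 ∧ b = 0 ∧ c = 0 ∧ d = 0 ∧ e = 0 := by
  have h0 := congrArg (fun P : R[X] => P.coeff 0) h
  have h1 := congrArg (fun P : R[X] => P.coeff 1) h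
  have h2 := congrArg (fun P : R[X] => P.coeff 2) h
  have h3 := congrArg (fun P : R[X] => P.coeff 3) h
  have h4 := congrArg (fun P : R[X] => P.coeff 4) h
  simp only [coeff_add, coeff_C_mul, coeff_X_pow, coeff_C, coeff_X, coeff_zero] at h0 h1 h2 h3 h4
  norm_num at h0 h1 h2 h3 h4
  exact ⟨h0, h1, h2, h3, h4⟩

theorem m8_aux_eqs {A0 A1 B0 B1 B2 : ℂ[X]} {p q c s l e : ℂ}
    (h : (C (derivative A0) + C (derivative A1) * X + C (C p) * X ^ 2)
        * (C B1 + 2 * C B2 * X + 3 * C (C q * X) * X ^ 2)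
      - (C A1 + 2 * C (C p * X) * X)
        * (C (derivative B0) + C (derivative B1) * X + C (derivative B2) * X ^ 2 + C (C q) * X ^ 3)
      = -(C (C c)) * (C X * X ^ 4 - C (C s) * X ^ 3 + C (C l) * X ^ 2 - C (C e) * X - 1
          : ℂ[X][X])) :
    (derivative A0 * B1 - A1 * derivative B0 - C c = 0) ∧
    (2 * derivative A0 * B2 + derivative A1 * B1 - A1 * derivative B1
      - 2 * (C p * X) * derivative B0 - C c * C e = 0) ∧
    (3 * derivative A0 * (C q * X) + 2 * derivative A1 * B2 + C p * B1 - A1 * derivative B2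
      - 2 * (C p * X) * derivative B1 + C c * C l = 0) ∧
    (3 * derivative A1 * (C q * X) + 2 * C p * B2 - A1 * C q - 2 * (C p * X) * derivative B2
      - C c * C s = 0) ∧
    (C p * C q * X + C c * X = 0) := by
  apply m8_aux_five
  simp only [C_mul, C_add, C_sub, map_ofNat] at h ⊢
  linear_combination h

theorem m8_aux_deg {F : MP} {k D : ℕ} (h : ∀ i, F.coeff (pt i k) ≠ 0 → i ≤ D) :
    ((m8_tau F).coeff k).natDegree ≤ D := by
  rw [natDegree_le_iff_coeff_eq_zero]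
  intro n hn
  rw [m8_aux_coeff]
  by_contra hne
  have := h n hne
  omega

theorem m8_aux_top {F : MP} {k : ℕ} (h : ∀ i, F.coeff (pt i k) ≠ 0 → i ≤ 1)
    (h0 : F.coeff (pt 0 k) = 0) : (m8_tau F).coeff k = C (F.coeff (pt 1 k)) * X := by
  ext i
  rw [m8_aux_coeff, coeff_C_mul_X]
  split_ifs with hi
  · rw [hi]
  · by_contra hne
    have h1 := h i hne
    have h2 : i = 0 := by omega
    rw [h2] at hne
    exact hne h0

theorem m8_aux_exp {P : ℂ[X][X]} {n : ℕ} (h : ∀ k, n ≤ k → P.coeff k = 0) :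
    P = ∑ k ∈ Finset.range n, C (P.coeff k) * X ^ k := by
  conv_lhs => rw [P.as_sum_range' (max n (P.natDegree + 1)) (by
    have := le_max_right n (P.natDegree + 1)
    omega)]
  rw [Finset.sum_subset (Finset.range_mono (le_max_left n (P.natDegree + 1)))]
  · exact Finset.sum_congr rfl (fun k _ => by rw [C_mul_X_pow_eq_monomial])
  · intro k _ hk
    rw [Finset.mem_range, not_lt] at hk
    rw [h k hk, C_0, zero_mul]

theorem m8_aux_E {s l e c p q κ : ℂ} {A0 A1 B0 B1 B2 f g q0 q1 q2 : ℂ[X]} (hp : p ≠ 0)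
    (hq : q ≠ 0) (hpq : p * q = -c)
    (hA0 : A0 = C p * f) (hA1 : A1 = 2 * C p * g) (hB0 : B0 = C q * (q0 + C κ * f))
    (hB1 : B1 = C q * (q1 + 2 * C κ * g)) (hB2 : B2 = C q * (q2 + C κ * X))
    (h0 : derivative A0 * B1 - A1 * derivative B0 - C c = 0)
    (h1 : 2 * derivative A0 * B2 + derivative A1 * B1 - A1 * derivative B1
      - 2 * (C p * X) * derivative B0 - C c * C e = 0)
    (h2 : 3 * derivative A0 * (C q * X) + 2 * derivative A1 * B2 + C p * B1 - A1 * derivative B2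
      - 2 * (C p * X) * derivative B1 + C c * C l = 0)
    (h3 : 3 * derivative A1 * (C q * X) + 2 * C p * B2 - A1 * C q - 2 * (C p * X) * derivative B2
      - C c * C s = 0) :
    (6 * X * derivative g + 2 * q2 - 2 * g - 2 * X * derivative q2 = C (-s)) ∧
    (3 * X * derivative f + 4 * derivative g * q2 + q1 - 2 * g * derivative q2
      - 2 * X * derivative q1 = C l) ∧
    (2 * derivative f * q2 + 2 * derivative g * q1 - 2 * g * derivative q1
      - 2 * X * derivative q0 = C (-e)) ∧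
    (derivative f * q1 - 2 * g * derivative q0 = -1) := by
  have hPQ : (C c : ℂ[X]) = - (C p * C q) := by
    rw [← C_mul, hpq, C_neg, neg_neg]
  have hne : (C p * C q : ℂ[X]) ≠ 0 := mul_ne_zero (C_ne_zero.mpr hp) (C_ne_zero.mpr hq)
  have dA0 : derivative A0 = C p * derivative f := by rw [hA0, derivative_C_mul]
  have dA1 : derivative A1 = 2 * C p * derivative g := by
    rw [hA1, mul_assoc, ← C_ofNat, derivative_C_mul, derivative_C_mul, mul_assoc]
  have dB0 : derivative B0 = C q * (derivative q0 + C κ * derivative f) := by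
    rw [hB0, derivative_C_mul, derivative_add, derivative_C_mul]
  have dB1 : derivative B1 = C q * (derivative q1 + 2 * C κ * derivative g) := by
    rw [hB1, derivative_C_mul, derivative_add, mul_assoc, ← C_ofNat, derivative_C_mul,
      derivative_C_mul, mul_assoc]
  have dB2 : derivative B2 = C q * (derivative q2 + C κ) := by
    rw [hB2, derivative_C_mul, derivative_add, derivative_C_mul, derivative_X, mul_one]
  rw [dA0, dB0, hA1, hB1, hPQ] at h0
  rw [dA0, dA1, dB0, dB1, hA1, hB1, hB2, hPQ] at h1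
  rw [dA0, dA1, dB1, dB2, hA1, hB1, hB2, hPQ] at h2
  rw [dA1, dB2, hA1, hB2, hPQ] at h3
  refine ⟨?_, ?_, ?_, ?_⟩
  · apply mul_left_cancel₀ hne
    rw [C_neg]
    linear_combination h3
  · apply mul_left_cancel₀ hne
    linear_combination h2
  · apply mul_left_cancel₀ hne
    rw [C_neg]
    linear_combination h1
  · apply mul_left_cancel₀ hne
    linear_combination h0

theorem m8_aux_fin {j : ℕ} {s l e c p q κ : ℂ} {A0 A1 B0 B1 B2 : ℂ[X]} (hp : p ≠ 0) (hq : q ≠ 0)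
    (hpq : p * q = -c)
    (h0 : derivative A0 * B1 - A1 * derivative B0 - C c = 0)
    (h1 : 2 * derivative A0 * B2 + derivative A1 * B1 - A1 * derivative B1
      - 2 * (C p * X) * derivative B0 - C c * C e = 0)
    (h2 : 3 * derivative A0 * (C q * X) + 2 * derivative A1 * B2 + C p * B1 - A1 * derivative B2
      - 2 * (C p * X) * derivative B1 + C c * C l = 0)
    (h3 : 3 * derivative A1 * (C q * X) + 2 * C p * B2 - A1 * C q - 2 * (C p * X) * derivative B2
      - C c * C s = 0)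
    (dA0 : A0.natDegree ≤ 2 * j + 1) (dA1 : A1.natDegree ≤ j + 1)
    (dB0 : B0.natDegree ≤ 3 * j + 1) (dB1 : B1.natDegree ≤ 2 * j + 1) (dB2 : B2.natDegree ≤ j + 1)
    (ht : A0.coeff (2 * j + 1) ≠ 0) (hs1 : A1.coeff 0 + s * p = 0)
    (hs2 : B2.coeff 0 + s * q = 0) (hκ : B2.coeff 1 = κ * q) :
    Sys j (C p⁻¹ * A0) (C (2 * p)⁻¹ * A1) (C q⁻¹ * B0 - C κ * (C p⁻¹ * A0))
      (C q⁻¹ * B1 - 2 * C κ * (C (2 * p)⁻¹ * A1)) (C q⁻¹ * B2 - C κ * X) s l e := by
  have hP : C p * C p⁻¹ = (1 : ℂ[X]) := by rw [← C_mul, mul_inv_cancel₀ hp, C_1]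
  have hQ : C q * C q⁻¹ = (1 : ℂ[X]) := by rw [← C_mul, mul_inv_cancel₀ hq, C_1]
  have h2p : (2 * C (2 * p)⁻¹ : ℂ[X]) = C p⁻¹ := by
    rw [← C_ofNat, ← C_mul]
    congr 1
    rw [mul_inv]
    ring
  obtain ⟨E3, E2, E1, E0⟩ := m8_aux_E (f := C p⁻¹ * A0) (g := C (2 * p)⁻¹ * A1)
    (q0 := C q⁻¹ * B0 - C κ * (C p⁻¹ * A0)) (q1 := C q⁻¹ * B1 - 2 * C κ * (C (2 * p)⁻¹ * A1))
    (q2 := C q⁻¹ * B2 - C κ * X) (κ := κ) hp hq hpq (by linear_combination -A0 * hP)
    (by linear_combination -A1 * hP - C p * A1 * h2p) (by linear_combination -B0 * hQ)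
    (by linear_combination -B1 * hQ) (by linear_combination -B2 * hQ) h0 h1 h2 h3
  have d1' : ∀ (r : ℂ) (Z : ℂ[X]), (C r * Z).natDegree ≤ Z.natDegree := fun r Z =>
    natDegree_C_mul_le r Z
  refine ⟨?_, ?_, ?_, ?_, ?_, ?_, ?_, ?_, ?_, ?_, ?_, ?_, ?_⟩
  · exact (d1' _ _).trans dA0
  · exact (d1' _ _).trans dA1
  · refine (natDegree_sub_le _ _).trans (max_le ((d1' _ _).trans dB0) ?_)
    refine (d1' _ _).trans ((d1' _ _).trans (dA0.trans ?_))
    omega
  · refine (natDegree_sub_le _ _).trans (max_le ((d1' _ _).trans dB1) ?_)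
    rw [← C_ofNat, ← C_mul]
    refine (d1' _ _).trans ((d1' _ _).trans (dA1.trans ?_))
    omega
  · refine (natDegree_sub_le _ _).trans (max_le ((d1' _ _).trans dB2) ?_)
    refine (d1' _ _).trans (natDegree_X_le.trans ?_)
    omega
  · rw [coeff_C_mul]
    exact mul_ne_zero (inv_ne_zero hp) ht
  · rw [coeff_C_mul]
    field_simp
    linear_combination hs1
  · rw [coeff_sub, coeff_C_mul, coeff_C_mul, coeff_X_zero]
    field_simp
    linear_combination hs2
  · rw [coeff_sub, coeff_C_mul, coeff_C_mul, coeff_X_one, hκ]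
    field_simp
    ring
  · exact E3
  · exact E2
  · exact E1
  · exact E0

theorem sys_of {j : ℕ} (hj : 2 ≤ j) {s l e c : ℂ} (hc : c ≠ 0) {π₁ π₂ : MP}
    (b₁ : ∀ i k, π₁.coeff (pt i k) ≠ 0 → i + j * k ≤ 2 * j + 1)
    (b₂ : ∀ i k, π₂.coeff (pt i k) ≠ 0 → i + j * k ≤ 3 * j + 1)
    (h02 : π₁.coeff (pt 0 2) = 0) (h01 : π₁.coeff (pt 0 1) + s * π₁.coeff (pt 1 2) = 0)
    (h03 : π₂.coeff (pt 0 3) = 0) (h02' : π₂.coeff (pt 0 2) + s * π₂.coeff (pt 1 3) = 0)
    (ht : π₁.coeff (pt (2 * j + 1) 0) ≠ 0)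
    (hJ : jac π₁ π₂ = -(MvPolynomial.C c) * Th s l e) :
    ∃ f g q0 q1 q2 : ℂ[X], Sys j f g q0 q1 q2 s l e := by
  have hk1 : ∀ i k, π₁.coeff (pt i k) ≠ 0 → k < 3 := by
    intro i k h
    by_contra hk
    have h1 := b₁ i k h
    have h2 : j * 3 ≤ j * k := Nat.mul_le_mul_left j (not_lt.mp hk)
    omega
  have hk2 : ∀ i k, π₂.coeff (pt i k) ≠ 0 → k < 4 := by
    intro i k h
    by_contra hk
    have h1 := b₂ i k h
    have h2 : j * 4 ≤ j * k := Nat.mul_le_mul_left j (not_lt.mp hk)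
    omega
  have e1 : m8_tau π₁ = ∑ k ∈ Finset.range 3, C ((m8_tau π₁).coeff k) * X ^ k := by
    apply m8_aux_exp
    intro k hk
    ext i
    rw [m8_aux_coeff, coeff_zero]
    by_contra hne
    exact absurd (hk1 i k hne) (not_lt.mpr hk)
  have e2 : m8_tau π₂ = ∑ k ∈ Finset.range 4, C ((m8_tau π₂).coeff k) * X ^ k := by
    apply m8_aux_exp
    intro k hk
    ext i
    rw [m8_aux_coeff, coeff_zero]
    by_contra hne
    exact absurd (hk2 i k hne) (not_lt.mpr hk)
  have e1' : m8_tau (MvPolynomial.pderiv 0 π₁)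
      = ∑ k ∈ Finset.range 3, C (derivative ((m8_tau π₁).coeff k)) * X ^ k := by
    have h := m8_aux_exp (P := m8_tau (MvPolynomial.pderiv 0 π₁)) (n := 3) (by
      intro k hk
      rw [m8_aux_d0]
      have h1 : (m8_tau π₁).coeff k = 0 := by
        ext i
        rw [m8_aux_coeff, coeff_zero]
        by_contra hne
        exact absurd (hk1 i k hne) (not_lt.mpr hk)
      rw [h1, derivative_zero])
    rw [h]
    exact Finset.sum_congr rfl (fun k _ => by rw [m8_aux_d0])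
  have e2' : m8_tau (MvPolynomial.pderiv 0 π₂)
      = ∑ k ∈ Finset.range 4, C (derivative ((m8_tau π₂).coeff k)) * X ^ k := by
    have h := m8_aux_exp (P := m8_tau (MvPolynomial.pderiv 0 π₂)) (n := 4) (by
      intro k hk
      rw [m8_aux_d0]
      have h1 : (m8_tau π₂).coeff k = 0 := by
        ext i
        rw [m8_aux_coeff, coeff_zero]
        by_contra hne
        exact absurd (hk2 i k hne) (not_lt.mpr hk)
      rw [h1, derivative_zero])
    rw [h]
    exact Finset.sum_congr rfl (fun k _ => by rw [m8_aux_d0])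
  have t1 : (m8_tau π₁).coeff 2 = C (π₁.coeff (pt 1 2)) * X := by
    apply m8_aux_top _ h02
    intro i h
    have := b₁ i 2 h
    omega
  have t2 : (m8_tau π₂).coeff 3 = C (π₂.coeff (pt 1 3)) * X := by
    apply m8_aux_top _ h03
    intro i h
    have := b₂ i 3 h
    omega
  have hJ' := congrArg m8_tau hJ
  rw [jac, map_sub, map_mul, map_mul, m8_aux_d1, m8_aux_d1, e1', e2'] at hJ'
  have d1 : derivative (m8_tau π₁) = C ((m8_tau π₁).coeff 1)
      + 2 * C (C (π₁.coeff (pt 1 2)) * X) * X := by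
    have h := congrArg (fun Q => derivative Q) e1
    simp only [Finset.sum_range_succ, Finset.sum_range_zero, t1, derivative_add, derivative_mul,
      derivative_C, derivative_X_pow, derivative_zero] at h
    rw [h]
    simp [← C_ofNat]
    ring
  have d2 : derivative (m8_tau π₂) = C ((m8_tau π₂).coeff 1) + 2 * C ((m8_tau π₂).coeff 2) * X
      + 3 * C (C (π₂.coeff (pt 1 3)) * X) * X ^ 2 := by
    have h := congrArg (fun Q => derivative Q) e2
    simp only [Finset.sum_range_succ, Finset.sum_range_zero, t2, derivative_add, derivative_mul,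
      derivative_C, derivative_X_pow, derivative_zero] at h
    rw [h]
    simp [← C_ofNat]
    ring
  have hT : m8_tau (-(MvPolynomial.C c) * Th s l e)
      = -(C (C c)) * (C X * X ^ 4 - C (C s) * X ^ 3 + C (C l) * X ^ 2 - C (C e) * X - 1
          : ℂ[X][X]) := by
    simp only [Th, m8_tau, map_mul, map_neg, map_sub, map_add, map_pow, map_one, ev_C, ev_X0,
      ev_X1, RingHom.comp_apply]
  rw [d1, d2, hT] at hJ'
  simp only [Finset.sum_range_succ, Finset.sum_range_zero] at hJ'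
  rw [t1, t2] at hJ'
  have hh := m8_aux_eqs (A0 := (m8_tau π₁).coeff 0) (A1 := (m8_tau π₁).coeff 1)
    (B0 := (m8_tau π₂).coeff 0) (B1 := (m8_tau π₂).coeff 1) (B2 := (m8_tau π₂).coeff 2)
    (p := π₁.coeff (pt 1 2)) (q := π₂.coeff (pt 1 3)) (c := c) (s := s) (l := l) (e := e) (by
      rw [← hJ']
      simp only [derivative_mul, derivative_C, derivative_X, zero_mul, mul_one, zero_add, pow_zero,
        pow_one])
  obtain ⟨q0, q1, q2, q3, q4⟩ := hh
  have hpq : π₁.coeff (pt 1 2) * π₂.coeff (pt 1 3) = -c := by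
    have h := congrArg (fun P : ℂ[X] => P.coeff 1) q4
    simp only [← C_mul, coeff_add, coeff_C_mul_X, coeff_zero] at h
    simp at h
    linear_combination h
  have hne : π₁.coeff (pt 1 2) * π₂.coeff (pt 1 3) ≠ 0 := by
    rw [hpq]
    exact neg_ne_zero.mpr hc
  have hp : π₁.coeff (pt 1 2) ≠ 0 := left_ne_zero_of_mul hne
  have hq : π₂.coeff (pt 1 3) ≠ 0 := right_ne_zero_of_mul hne
  exact ⟨_, _, _, _, _, m8_aux_fin (j := j) (κ := π₂.coeff (pt 1 2) / π₂.coeff (pt 1 3))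
    hp hq hpq q0 q1 q2 q3
    (m8_aux_deg (fun i h => by have := b₁ i 0 h; omega))
    (m8_aux_deg (fun i h => by have := b₁ i 1 h; omega))
    (m8_aux_deg (fun i h => by have := b₂ i 0 h; omega))
    (m8_aux_deg (fun i h => by have := b₂ i 1 h; omega))
    (m8_aux_deg (fun i h => by have := b₂ i 2 h; omega))
    (by rw [m8_aux_coeff]; exact ht) (by rw [m8_aux_coeff]; exact h01)
    (by rw [m8_aux_coeff]; exact h02') (by rw [m8_aux_coeff]; field_simp)⟩

end ModM8

end Pool.Agent.Lib.MP_2d59ee_ag.J
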