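import Mathlib
import Pool.Agent.Lib.MP_2d59ee_ag.JSysB
import Pool.Agent.Lib.MP_2d59ee_ag.JLeft

set_option autoImplicit false

/-! Part T2 -/
/-! ## Row T2: all slopes at the corner `(4, 3)` are at least `1`

`exists_level hP hQ (0 < 1)` gives `K ≤ 1` with `AtLevel` for both, and `K = 1` or `K` attained.
Suppose `K < 1` attained, `K = s/q`, `0 < s < q` (so `q ≥ 2`), `d = 4 q - 3 s > 0`, `e = 3 q - s > 0`.
`hJK`: `3 - K < (a+b)(4 - 3K)` since `a + b ≥ 5`. `level_nums`, `level_core` (`N = 3`, `E = 3`, `α = 4`,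
`k = 0`): `N₀` and `PkgN a b 3 3 4 K q d e N₀`. In `hM`, `q ≠ 1`, so `j * d = 3 * 3 - 4 = 5`; but
`d = q + 3 (q - s) ≥ 5`, so `d = 5`, `q = 2`, `s = 1`, `e = 5`. `N₀ < 3`, `2 ∣ 3 - N₀`: `N₀ = 1` and
`e * N₀ = d` contradicts `hne`. So `K = 1`. -/

namespace Pool.Agent.Lib.MP_2d59ee_ag.J

section ModT2

open Polynomial

theorem slopes_one {a b : ℕ} (ha : 2 ≤ a) (hlt : a < b) (hab : Nat.Coprime a b) {P Q : LS[X]}
    {c : ℂ} (hc : c ≠ 0) (hbr : brB P Q = C (HahnSeries.single (-((3 : ℕ) : ℤ)) c))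
    (hP : Corner P a 4 3 0) (hQ : Corner Q b 4 3 0) :
    AtLevel P a 4 3 1 ∧ AtLevel Q b 4 3 1 := by
  obtain ⟨K, hkK, hK1, hKP, hKQ, hcase⟩ := exists_level hP hQ (show (0 : ℚ) < 1 by norm_num)
  by_cases hKe : K = 1
  · rw [hKe] at hKP hKQ
    exact ⟨hKP, hKQ⟩
  exfalso
  have hAtt : Attained P a 4 3 K ∨ Attained Q b 4 3 K := by
    rcases hcase with h1 | h1
    · exact absurd h1 hKe
    · exact h1
  have hKlt : K < 1 := lt_of_le_of_ne hK1 hKe
  have ha0 : 0 < a := by omega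
  have hb0 : 0 < b := by omega
  have haQ : (2 : ℚ) ≤ a := by exact_mod_cast ha
  have hbQ : (3 : ℚ) ≤ b := by
    have : 3 ≤ b := by omega
    exact_mod_cast this
  have hEK : 0 < ((3 : ℕ) : ℚ) - K := by push_cast; linarith
  have hΔK : 0 < ((4 : ℤ) : ℚ) - K * ((3 : ℕ) : ℚ) := by push_cast; linarith
  obtain ⟨d, e, hd, he, hpkg⟩ := level_nums a b 3 3 4 0 K hkK hEK hΔK
  have hJK : (((3 : ℕ) : ℚ)) - K < ((a : ℚ) + b) * (((4 : ℤ) : ℚ) - K * ((3 : ℕ) : ℚ)) := by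
    push_cast
    nlinarith
  obtain ⟨N₀, hN⟩ := level_core a b ha0 hb0 hab 3 3 4 0 K (by norm_num) P Q c hc hbr hP hQ hkK
    hKP hKQ (by norm_num) hJK hAtt d e hd he hpkg
  have hnum : (K.num : ℚ) = K * K.den := num_cast K
  have hqQ : (0 : ℚ) < K.den := by exact_mod_cast K.den_pos
  have hs0 : 0 < K.num := by
    have : (0 : ℚ) < K.num := by rw [hnum]; exact mul_pos hkK hqQ
    exact_mod_cast this
  have hsq : K.num < (K.den : ℤ) := by
    have : (K.num : ℚ) < K.den := by rw [hnum]; nlinarith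
    exact_mod_cast this
  push_cast at hd he
  rcases hN.hM with ⟨h1, -⟩ | ⟨j, hj, -⟩
  · rw [h1] at hsq
    push_cast at hsq
    omega
  · have h5 : j * d = 5 := by
      have : (j : ℤ) * d = 5 := by rw [hj]; norm_num
      exact_mod_cast this
    have hd5 : d ∣ 5 := Dvd.intro_left j h5
    have hdle : d ≤ 5 := Nat.le_of_dvd (by norm_num) hd5
    have h6 : N₀ < 3 := hN.hlt
    have h7 := hN.hdvd
    have h8 := hN.hne
    have hq2 : (K.den : ℤ) = 2 := by omega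
    have he5 : e = 5 := by omega
    have hd5' : d = 5 := by omega
    rw [hq2] at h7
    push_cast at h7
    rw [he5, hd5'] at h8
    omega

end ModT2

end Pool.Agent.Lib.MP_2d59ee_ag.J

/-! Part T3 -/
/-! ## Row T3: at slope `1` the leading form is a pure power

`K = 1`: `K.den = K.num = 1`, `d = 4 - 3 = 1`. `P' = T0 1 _ 1 P`: `LowB P' (-(a*1))`,
`p = lev (-(a * 1)) P'` has degree `3 a` (`lowB_T0`, `lev_T0_natDegree`, `lev_T0_top` with `K = 1`);
the same for `Q` with `3 b`. Bracket (`brB_T0_single`): `E = 3 - 1 = 2`. `comm_facts` (`d = 1`, `E = 2`,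
`2 < (a + b) * 1`): all multiplicities are `a ν`, `b ν`; the sum of the `ν` is `3`.
A root with `ν = 1` would give (`good_of_root`) `Good a b 1 2 1 0` with `x = 2 * 1 - 1 = 1`,
contradicting `2 ≤ x` (`Good.concl`, `Concl.facts`). So every root has `ν ≥ 2`; two different roots
would give `ν₁ + ν₂ ≥ 4 > 3`. So there is one root `r` with `ν = 3` (`p` has a root since its degree
`3 a` is positive and `ℂ` is algebraically closed; `ν = 2` alone would leave degree `a` for other roots),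
`p = C κ * (X - C r)^(3a)`, `q = C κ' * (X - C r)^(3b)`.
Conclusion with corners of the shifted pair: `shift_corner` (`c₁ = a`, `d = 1`, `N₁ = 3`). -/

namespace Pool.Agent.Lib.MP_2d59ee_ag.J

section ModT3

open Polynomial

/-- a polynomial all of whose roots are equal -/
theorem t3_mult {p : ℂ[X]} {r : ℂ} (h : ∀ μ, p.IsRoot μ → μ = r) :
    p.rootMultiplicity r = p.natDegree := by
  classical
  have h1 : p.roots.card = p.natDegree :=
    (IsAlgClosed.splits p).natDegree_eq_card_roots.symm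
  rw [← count_roots, ← h1]
  have h2 : p.roots = Multiset.replicate p.roots.card r := by
    rw [Multiset.eq_replicate]
    exact ⟨rfl, fun b hb => h b (isRoot_of_mem_roots hb)⟩
  conv_lhs => rw [h2]
  rw [Multiset.count_replicate_self]

theorem t3_two {p : ℂ[X]} (hp : p ≠ 0) {r s : ℂ} (hrs : r ≠ s) :
    p.rootMultiplicity r + p.rootMultiplicity s ≤ p.natDegree := by
  have h1 : IsCoprime ((X - C r) ^ p.rootMultiplicity r) ((X - C s) ^ p.rootMultiplicity s) :=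
    (isCoprime_X_sub_C_of_isUnit_sub (sub_ne_zero.mpr hrs).isUnit).pow
  have h2 := h1.mul_dvd (pow_rootMultiplicity_dvd p r) (pow_rootMultiplicity_dvd p s)
  have h3 := natDegree_le_of_dvd h2 hp
  rw [natDegree_mul (pow_ne_zero _ (X_sub_C_ne_zero r)) (pow_ne_zero _ (X_sub_C_ne_zero s)),
    natDegree_pow, natDegree_pow, natDegree_X_sub_C, natDegree_X_sub_C, mul_one, mul_one] at h3
  exact h3

theorem pure_cube {a b : ℕ} (ha : 2 ≤ a) (hlt : a < b) (hab : Nat.Coprime a b) {P Q : LS[X]}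
    {c : ℂ} (hc : c ≠ 0) (hbr : brB P Q = C (HahnSeries.single (-((3 : ℕ) : ℤ)) c))
    (hP : Corner P a 4 3 0) (hQ : Corner Q b 4 3 0)
    (hP1 : AtLevel P a 4 3 1) (hQ1 : AtLevel Q b 4 3 1) :
    ∃ r : ℂ, Corner (shift r (T0 1 one_pos 1 P)) a 1 3 0 ∧
      Corner (shift r (T0 1 one_pos 1 Q)) b 1 3 0 ∧
      brB (shift r (T0 1 one_pos 1 P)) (shift r (T0 1 one_pos 1 Q))
        = C (HahnSeries.single (-((2 : ℕ) : ℤ)) c) := by
  set P' := T0 1 one_pos 1 P with hP'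
  set Q' := T0 1 one_pos 1 Q with hQ'
  have hT : ∀ R : LS[X], T0 (1 : ℚ).den (1 : ℚ).den_pos (1 : ℚ).num R = T0 1 one_pos 1 R :=
    fun R => T0_congr (by simp) _ _ (by simp) R
  have hδ : (1 : ℤ) = (1 : ℚ).den * 4 - (1 : ℚ).num * (3 : ℕ) := by simp
  have hPl : LowB P' (-((a : ℤ) * ((1 : ℕ) : ℤ))) := by
    have := lowB_T0 hP zero_lt_one hP1 1 hδ
    rw [hT] at this
    exact_mod_cast this
  have hQl : LowB Q' (-((b : ℤ) * ((1 : ℕ) : ℤ))) := by
    have := lowB_T0 hQ zero_lt_one hQ1 1 hδ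
    rw [hT] at this
    exact_mod_cast this
  have hPd : (lev (-((a : ℤ) * ((1 : ℕ) : ℤ))) P').natDegree = a * 3 := by
    have := lev_T0_natDegree hP zero_lt_one 1 hδ
    rw [hT] at this
    exact_mod_cast this
  have hQd : (lev (-((b : ℤ) * ((1 : ℕ) : ℤ))) Q').natDegree = b * 3 := by
    have := lev_T0_natDegree hQ zero_lt_one 1 hδ
    rw [hT] at this
    exact_mod_cast this
  have hP0 : lev (-((a : ℤ) * ((1 : ℕ) : ℤ))) P' ≠ 0 := by
    intro h
    rw [h, natDegree_zero] at hPd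
    omega
  have hQ0 : lev (-((b : ℤ) * ((1 : ℕ) : ℤ))) Q' ≠ 0 := by
    intro h
    rw [h, natDegree_zero] at hQd
    omega
  have hbr' : brB P' Q' = C (HahnSeries.single (-((2 : ℕ) : ℤ)) c) := by
    have := brB_T0_single 1 one_pos 1 P Q ((3 : ℕ) : ℤ) c hbr
    rw [← hP', ← hQ'] at this
    rw [this]
    norm_num
  have haZ : (2 : ℤ) ≤ a := by exact_mod_cast ha
  have hbZ : (3 : ℤ) ≤ b := by exact_mod_cast (by omega : 3 ≤ b)
  have hJ : ((2 : ℕ) : ℤ) < ((a : ℤ) + b) * ((1 : ℕ) : ℤ) := by push_cast; linarith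
  obtain ⟨-, hmult⟩ := comm_facts (d := 1) (E := ((2 : ℕ) : ℤ)) (by omega) (by omega) hab
    one_pos hbr' hPl hQl hP0 hQ0 hJ
  -- every root has `ν ≥ 2`
  have hroot : ∀ μ, (lev (-((a : ℤ) * ((1 : ℕ) : ℤ))) P').IsRoot μ →
      a * 2 ≤ (lev (-((a : ℤ) * ((1 : ℕ) : ℤ))) P').rootMultiplicity μ := by
    intro μ hμ
    obtain ⟨ν, h1, h2⟩ := hmult μ
    rw [h1]
    have hpos : 0 < (lev (-((a : ℤ) * ((1 : ℕ) : ℤ))) P').rootMultiplicity μ :=
      (rootMultiplicity_pos hP0).mpr hμ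
    have hν0 : ν ≠ 0 := by
      rintro rfl
      rw [h1, mul_zero] at hpos
      exact lt_irrefl _ hpos
    have hν1 : ν ≠ 1 := by
      rintro rfl
      have hg : Good a b 1 2 ((1 : ℕ) : ℤ) 0 := good_of_root (d := 1) (E := 2) (by omega)
        (by omega) hab one_pos hc hbr' hPl hQl hP0 hQ0 hJ h1 h2 (by norm_num)
      have h3 := Concl.facts ha hlt (hg.concl (by omega) (by omega) hab)
      have h4 := h3.1
      norm_num at h4
    exact Nat.mul_le_mul_left a (by omega)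
  obtain ⟨r, hr⟩ := IsAlgClosed.exists_root (lev (-((a : ℤ) * ((1 : ℕ) : ℤ))) P') (by
    rw [degree_eq_natDegree hP0, hPd]
    intro h
    have h5 : a * 3 = 0 := by exact_mod_cast h
    omega)
  have huniq : ∀ μ, (lev (-((a : ℤ) * ((1 : ℕ) : ℤ))) P').IsRoot μ → μ = r := by
    intro μ hμ
    by_contra hne
    have h1 := t3_two hP0 hne
    have h2 := hroot μ hμ
    have h3 := hroot r hr
    rw [hPd] at h1
    omega
  have hm := t3_mult huniq
  rw [hPd] at hm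
  have hmQ : (lev (-((b : ℤ) * ((1 : ℕ) : ℤ))) Q').rootMultiplicity r = b * 3 := by
    obtain ⟨ν, h1, h2⟩ := hmult r
    rw [hm] at h1
    have h3 : 3 = ν := Nat.eq_of_mul_eq_mul_left (by omega) h1
    rw [h2, ← h3]
  refine ⟨r, ?_, ?_, brB_shift_single r P' Q' _ c hbr'⟩
  · have := shift_corner (c₁ := a) (d := 1) (N₁ := 3) r hPl hP0 hm
    exact_mod_cast this
  · have := shift_corner (c₁ := b) (d := 1) (N₁ := 3) r hQl hQ0 hmQ
    exact_mod_cast this

end ModT3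

end Pool.Agent.Lib.MP_2d59ee_ag.J

/-! Part T4 -/
/-! ## Row T4: the last slope on the right side

Here `a = 2 j + 1`, `b = 3 j + 1`, `a + b = 5 j + 2`, `j ≥ 1`, corner `(α, N) = (1, 3)`, `E = 2`.
`exists_level hP hQ (0 < j / b)` gives `K ≤ j/b` with `AtLevel` for both and `K = j/b` or `K` attained.
Suppose `K < j/b` attained, `K = s/q`; `K < 1/3`, so `d = q - 3 s > 0` and `q > 3 s ≥ 3`; `e = 2q - s > 0`;
`hJK`: `2 - K < (5 j + 2)(1 - 3 K)` iff `K (15 j + 5) < 5 j` iff `K < j/(3j+1)`. `level_nums`, `level_core`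
(`N = 3`, `E = 2`, `α = 1`, `k = 0`; `1 < 2 * 3`) give `N₀ < 3` with `q ∣ 3 - N₀`, so `q ≤ 3`:
contradiction. -/

namespace Pool.Agent.Lib.MP_2d59ee_ag.J

section ModT4

open Polynomial

theorem last_slope {a b j : ℕ} (hj : 1 ≤ j) (ha : a = 2 * j + 1) (hb : b = 3 * j + 1)
    {P Q : LS[X]}
    {c : ℂ} (hc : c ≠ 0) (hbr : brB P Q = C (HahnSeries.single (-((2 : ℕ) : ℤ)) c))
    (hP : Corner P a 1 3 0) (hQ : Corner Q b 1 3 0) :
    AtLevel P a 1 3 ((j : ℚ) / b) ∧ AtLevel Q b 1 3 ((j : ℚ) / b) := by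
  have hbQ : (b : ℚ) = 3 * j + 1 := by rw [hb]; push_cast; ring
  have haQ : (a : ℚ) = 2 * j + 1 := by rw [ha]; push_cast; ring
  have hjQ : (1 : ℚ) ≤ j := by exact_mod_cast hj
  have hbpos : (0 : ℚ) < b := by rw [hbQ]; linarith
  have hkap : (0 : ℚ) < (j : ℚ) / b := div_pos (by linarith) hbpos
  obtain ⟨K, hkK, hKle, hKP, hKQ, hor⟩ := exists_level hP hQ hkap
  by_cases hKe : K = (j : ℚ) / b
  · rw [← hKe]; exact ⟨hKP, hKQ⟩
  exfalso
  have hatt : Attained P a 1 3 K ∨ Attained Q b 1 3 K := hor.resolve_left hKe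
  have hKlt : K < (j : ℚ) / b := lt_of_le_of_ne hKle hKe
  have hKb : K * (3 * j + 1) < j := by
    rw [lt_div_iff₀ hbpos, hbQ] at hKlt; exact hKlt
  have hK3 : K * 3 < 1 := by
    by_contra hcon
    push Not at hcon
    nlinarith
  have ha0 : 0 < a := by omega
  have hb0 : 0 < b := by omega
  have hab : Nat.Coprime a b := by
    apply Nat.isCoprime_iff_coprime.mp
    refine ⟨3, -2, ?_⟩
    rw [ha, hb]
    push_cast
    ring
  have h2K : (0 : ℚ) < ((2 : ℕ) : ℚ) - K := by push_cast; linarith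
  have h1K : (0 : ℚ) < (((1 : ℤ)) : ℚ) - K * ((3 : ℕ) : ℚ) := by push_cast; linarith
  obtain ⟨d, e₁, hd, he₁, hpkg⟩ := level_nums a b 3 2 1 0 K hkK h2K h1K
  have hJK : (((2 : ℕ) : ℚ)) - K < ((a : ℚ) + b) * ((((1 : ℤ)) : ℚ) - K * ((3 : ℕ) : ℚ)) := by
    rw [haQ, hbQ]; push_cast; nlinarith
  obtain ⟨N₀, hN⟩ := level_core a b ha0 hb0 hab 3 2 1 0 K (by norm_num) P Q c hc hbr hP hQ hkK
    hKP hKQ (by norm_num) hJK hatt d e₁ hd he₁ hpkg
  have hlt := hN.hlt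
  have hdvd := hN.hdvd
  have hle : ((K.den : ℕ) : ℤ) ≤ ((3 : ℕ) : ℤ) - N₀ := Int.le_of_dvd (by push_cast; omega) hdvd
  have hden : K.den ≤ 3 := by push_cast at hle; omega
  have hnum : 0 < K.num := Rat.num_pos.mpr hkK
  have hdenpos : (0 : ℚ) < K.den := by exact_mod_cast K.den_pos
  have hKnum : (K.num : ℚ) = K * K.den := num_cast K
  have h1n : (1 : ℚ) ≤ K.num := by exact_mod_cast hnum
  have hden3 : (K.den : ℚ) ≤ 3 := by exact_mod_cast hden
  nlinarith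

end ModT4

end Pool.Agent.Lib.MP_2d59ee_ag.J

/-! Part T5 -/
/-! ## Row T5: the final substitution on the right side

`ρ`: `z = t^(-4b)`, `w = t^b + r t^(2b) + X t^(2b+j)`. `corner_one`, `slopes_one`, `pure_cube` (gives `r`),
`last_slope`. `K = j/b` is in lowest terms (`b - 3 j = 1`): `K.den = b`, `K.num = j`
(`Rat.num_div_eq_of_coprime`, `Rat.den_div_eq_of_coprime`), and `d = b * 1 - j * 3 = 1`. `lowB_T0`
(`δ = 1`): `LowB (T0 b _ j P₄) (-(a * 1))` with `P₄ = shift r (T0 1 _ 1 (shift 1 (R4 F)))`, and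
`lev_T0_top`: the coefficient of `X^(a*3)` at `t^(-(a * 1))` is nonzero. Compute the composed
substitution with `T0_ev`, `shift_ev`, `T0_X`, `T0_C_tm`, `shift_X`, `shift_C`:
`PhR F = ev cL (C (tm (-1))) X F`; `R4`: `z ↦ tm (-4)`, `w ↦ C (tm 1) * X`;
`shift 1`: `w ↦ C (tm 1) * (X + 1)`; `T0 1 1`: `w ↦ C (tm 1) * (C (tm 1) * X + 1)`; `shift r`:
`w ↦ C (tm 1) * (C (tm 1) * (X + cL r) + 1)`; `T0 b j`: `z ↦ C (tm (-4b))`,
`w ↦ C (tm b) * (C (tm b) * (C (tm j) * X + cL r) + 1) = wρ`. -/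

namespace Pool.Agent.Lib.MP_2d59ee_ag.J

section ModT5

open Polynomial

/-- the image of `w` under the final right substitution -/
noncomputable def wR (b j : ℕ) (r : ℂ) : LS[X] :=
  C (tm b) + cL r * C (tm (2 * b)) + C (tm (2 * b + j)) * X

private theorem t5_tm_mul (x y : ℤ) : (C (tm x) * C (tm y) : LS[X]) = C (tm (x + y)) := by
  rw [← C_mul, tm, tm, HahnSeries.single_mul_single, mul_one]
  rfl

private theorem t5_comp (b j : ℕ) (hb : 0 < b) (r : ℂ) (F : MP) :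
    T0 b hb (j : ℤ) (shift r (T0 1 one_pos 1 (shift 1 (R4 F)))) =
      ev cL (C (tm (-(4 * b)))) (wR b j r) F := by
  have hadd : ∀ (q : ℕ) (hq : 0 < q) (s : ℤ) (P Q : LS[X]),
      T0 q hq s (P + Q) = T0 q hq s P + T0 q hq s Q := fun q hq s P Q => map_add (T0r q hq s) P Q
  have hsadd : ∀ (μ : ℂ) (P Q : LS[X]), shift μ (P + Q) = shift μ P + shift μ Q :=
    fun μ P Q => map_add (shiftr μ) P Q
  have h1 : (cL 1 : LS[X]) = 1 := map_one cL
  have hz : T0 b hb (j : ℤ) (shift r (T0 1 one_pos 1 (shift 1 (T0 4 (by norm_num) 1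
      (C (tm (-1))))))) = C (tm (-(4 * (b : ℤ)))) := by
    rw [T0_C_tm, shift_C, T0_C_tm, shift_C, T0_C_tm]
    have e : (b : ℤ) * (((1 : ℕ) : ℤ) * (((4 : ℕ) : ℤ) * -1)) = -(4 * (b : ℤ)) := by
      push_cast
      ring
    rw [e]
  have hw : T0 b hb (j : ℤ) (shift r (T0 1 one_pos 1 (shift 1 (T0 4 (by norm_num) 1 X)))) =
      wR b j r := by
    rw [T0_X, shift_mul, shift_C, shift_X, T0_mul, T0_C_tm, hadd, T0_X, T0_cL, shift_mul, shift_C,
      hsadd, shift_mul, shift_C, shift_X, shift_cL, T0_mul, T0_C_tm, hadd, T0_mul, T0_C_tm, hadd,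
      T0_X, T0_cL, T0_cL, h1, wR]
    have e1 : (b : ℤ) * (((1 : ℕ) : ℤ) * 1) = b := by
      push_cast
      ring
    have e2 : (b : ℤ) * 1 = b := mul_one _
    have e3 : (C (tm (2 * (b : ℤ))) : LS[X]) = C (tm b) * C (tm b) := by
      rw [t5_tm_mul, two_mul]
    have e4 : (C (tm (2 * (b : ℤ) + j)) : LS[X]) = C (tm b) * C (tm b) * C (tm j) := by
      rw [t5_tm_mul, t5_tm_mul, two_mul]
    rw [e1, e2, e3, e4]
    ring1
  rw [R4, PhR, T0_ev, shift_ev, T0_ev, shift_ev, T0_ev, hz, hw]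

theorem right_final {a b j : ℕ} (hj : 1 ≤ j) (ha : a = 2 * j + 1) (hb : b = 3 * j + 1) {F G : MP}
    (h : Shape3 a b F G) : ∃ r : ℂ,
      LowB (ev cL (C (tm (-(4 * b)))) (wR b j r) F) (-(a : ℤ)) ∧
      ((ev cL (C (tm (-(4 * b)))) (wR b j r) F).coeff (3 * a)).coeff (-(a : ℤ)) ≠ 0 ∧
      LowB (ev cL (C (tm (-(4 * b)))) (wR b j r) G) (-(b : ℤ)) := by
  have ha2 : 2 ≤ a := by omega
  have hlt : a < b := by omega
  have hbpos : 0 < b := by omega
  have hab : Nat.Coprime a b := by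
    have h1 : Nat.gcd a b ∣ 1 := by
      have h2 := Nat.gcd_dvd_left a b
      have h3 := Nat.gcd_dvd_right a b
      have h4 : Nat.gcd a b ∣ 3 * a := Dvd.dvd.mul_left h2 3
      have h5 : Nat.gcd a b ∣ 2 * b := Dvd.dvd.mul_left h3 2
      have h6 : 3 * a - 2 * b = 1 := by omega
      rw [← h6]
      exact Nat.dvd_sub h4 h5
    exact Nat.dvd_one.mp h1
  have hjb : Nat.Coprime j b := by
    have h1 : Nat.gcd j b ∣ 1 := by
      have h2 := Nat.gcd_dvd_left j b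
      have h3 := Nat.gcd_dvd_right j b
      have h4 : Nat.gcd j b ∣ 3 * j := Dvd.dvd.mul_left h2 3
      have h6 : b - 3 * j = 1 := by omega
      rw [← h6]
      exact Nat.dvd_sub h3 h4
    exact Nat.dvd_one.mp h1
  obtain ⟨hP, hQ, c, hc, hbr⟩ := corner_one h
  obtain ⟨hP1, hQ1⟩ := slopes_one ha2 hlt hab hc hbr hP hQ
  obtain ⟨r, hP2, hQ2, hbr2⟩ := pure_cube ha2 hlt hab hc hbr hP hQ hP1 hQ1
  obtain ⟨hP3, hQ3⟩ := last_slope hj ha hb hc hbr2 hP2 hQ2
  have hbZ : (0 : ℤ) < (b : ℤ) := by exact_mod_cast hbpos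
  have hjbZ : Nat.Coprime (Int.natAbs (j : ℤ)) (Int.natAbs (b : ℤ)) := by
    rw [Int.natAbs_natCast, Int.natAbs_natCast]
    exact hjb
  set K : ℚ := (j : ℚ) / b with hK
  have hKn : K.num = (j : ℤ) := by
    have h1 := Rat.num_div_eq_of_coprime (a := (j : ℤ)) (b := (b : ℤ)) hbZ hjbZ
    rw [hK]
    rw [← h1]
    push_cast
    rfl
  have hKd : K.den = b := by
    have h1 := Rat.den_div_eq_of_coprime (a := (j : ℤ)) (b := (b : ℤ)) hbZ hjbZ
    have h2 : ((K.den : ℕ) : ℤ) = (b : ℤ) := by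
      rw [← h1, hK]
      push_cast
      rfl
    exact_mod_cast h2
  have hKpos : (0 : ℚ) < K := by
    rw [hK]
    have h1 : (0 : ℚ) < j := by exact_mod_cast (show 0 < j by omega)
    have h2 : (0 : ℚ) < b := by exact_mod_cast hbpos
    exact div_pos h1 h2
  have hδ : (1 : ℤ) = K.den * 1 - K.num * (3 : ℕ) := by
    rw [hKn, hKd, hb]
    push_cast
    ring
  have hTF : T0 K.den K.den_pos K.num (shift r (T0 1 one_pos 1 (shift 1 (R4 F)))) =
      ev cL (C (tm (-(4 * b)))) (wR b j r) F := by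
    rw [T0_congr hKd K.den_pos hbpos hKn, t5_comp]
  have hTG : T0 K.den K.den_pos K.num (shift r (T0 1 one_pos 1 (shift 1 (R4 G)))) =
      ev cL (C (tm (-(4 * b)))) (wR b j r) G := by
    rw [T0_congr hKd K.den_pos hbpos hKn, t5_comp]
  refine ⟨r, ?_, ?_, ?_⟩
  · have h1 := lowB_T0 hP2 hKpos hP3 1 hδ
    rw [hTF, mul_one] at h1
    exact h1
  · have h1 := lev_T0_top hP2 1 hδ
    rw [hTF, mul_one, lev_coeff, mul_comm a 3] at h1
    exact h1
  · have h1 := lowB_T0 hQ2 hKpos hQ3 1 hδ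
    rw [hTG, mul_one] at h1
    exact h1

end ModT5

end Pool.Agent.Lib.MP_2d59ee_ag.J

/-! Part M5 -/
/-! ## Row M5: the support of `π(U, V)`

`Psi : LS[X] →+* LR` sends `cL c` to `cR c`, `C (tm n)` to `single n 1`, `X` to `HahnSeries.C RatFunc.X`;
so `Psi (ev cL (C (tm (-(4b)))) (wR b j r) F) = ev cR (single (-(4b)) 1) (wRR b j r) F` (`map_ev`). With
`exists_UV` and `Rep` (field `L = LR`, `φ = cR`, `e = 4 r`) this is `ev cR U V π` (rewrite `z` and
`t⁻¹ = (w⁻¹)⁻¹ = w`). `LowB` gives `Low` (`LowB.low`) and `Psi_coeff` gives the coefficient at `-A` as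
`toR (lev (-A) ..)`. Then `weight_bound`, `weight_top`. -/

namespace Pool.Agent.Lib.MP_2d59ee_ag.J

section ModM5

open Polynomial

theorem m5_mapC_single (n : ℤ) (c : ℂ) :
    mapC (HahnSeries.single n c) = HahnSeries.single n (algebraMap ℂ (RatFunc ℂ) c) := by
  ext m
  rw [mapC_coeff, HahnSeries.coeff_single, HahnSeries.coeff_single]
  split_ifs
  · rfl
  · exact map_zero _

theorem m5_Psi_C (x : LS) : Psi (C x) = mapC x := by
  rw [Psi, coe_eval₂RingHom, eval₂_C]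

theorem m5_Psi_X : Psi X = HahnSeries.C RatFunc.X := by
  rw [Psi, coe_eval₂RingHom, eval₂_X, toR, RatFunc.algebraMap_X]

theorem m5_Psi_tm (n : ℤ) : Psi (C (tm n)) = HahnSeries.single n 1 := by
  rw [m5_Psi_C, tm, m5_mapC_single, map_one]

theorem m5_Psi_cL (c : ℂ) : Psi (cL c) = cR c := by
  show Psi (C (HahnSeries.C c)) = HahnSeries.C (algebraMap ℂ (RatFunc ℂ) c)
  rw [m5_Psi_C]
  exact m5_mapC_single 0 c

theorem m5_Psi_wR (b j : ℕ) (r : ℂ) : Psi (wR b j r) = wRR b j r := by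
  rw [wR, wRR, map_add, map_add, map_mul, map_mul, m5_Psi_tm, m5_Psi_tm, m5_Psi_tm, m5_Psi_cL,
    m5_Psi_X]
  congr 1
  show HahnSeries.single _ _ * HahnSeries.single 0 _ = _
  rw [HahnSeries.single_mul_single, add_zero, one_mul]

theorem m5_key (b j : ℕ) (r : ℂ) (F : MP) :
    Psi (ev cL (C (tm (-(4 * b)))) (wR b j r) F)
      = ev cR (HahnSeries.single (-(4 * b) : ℤ) 1) (wRR b j r) F := by
  have h := map_ev (A := LS[X]) (B := LR) Psi cL (C (tm (-(4 * b)))) (wR b j r) F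
  have h2 : (RingHom.comp (Psi : LS[X] →+* LR) cL : ℂ →+* LR) = cR := by
    ext1 c
    exact m5_Psi_cL c
  rw [m5_Psi_tm, m5_Psi_wR, h2] at h
  exact h

/-- `T ≠ 0` over a field (used to fix the instance path) -/
def M5FZ (L : Type) [Field L] (T : L) : Prop := T ≠ 0

theorem m5_ne (T : LR) (h : T ≠ 0) : M5FZ LR T := h

/-- `x = y⁻¹` over a field (used to fix the instance path) -/
def M5EI (L : Type) [Field L] (x y : L) : Prop := x = y⁻¹

theorem m5_inv (x y : LR) (h : x = y⁻¹) : M5EI LR x y := h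

theorem m5_rep {s₁ l e : ℂ} {F π : MP} (hrep : Rep s₁ l e F π)
    (L : Type) [Field L] (φ : ℂ →+* L) (U V : L) (hV : M5FZ L V)
    (ht : M5FZ L (tF φ (s₁ + e * l) l e U V)) (Z W : L)
    (hZ : zF φ s₁ l (uF φ (s₁ + e * l) l U V) (tF φ (s₁ + e * l) l e U V) = Z)
    (hW : M5EI L (tF φ (s₁ + e * l) l e U V) W) :
    ev φ Z W F = ev φ U V π := by
  have h := hrep L φ U V hV ht
  have hW' : tF φ (s₁ + e * l) l e U V = W⁻¹ := hW
  rw [hZ, hW', inv_inv] at h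
  exact h

theorem m5_exists {b j : ℕ} (hb : b = 3 * j + 1) {s₁ l r : ℂ} {F π : MP}
    (hrep : Rep s₁ l (4 * r) F π) :
    ∃ U V : LR, Low U (-1) ∧ U.coeff (-1) = 64 * RatFunc.X ^ 3 ∧
      Low V (-(j : ℤ)) ∧ V.coeff (-(j : ℤ)) = (4 * RatFunc.X)⁻¹ ∧
      ev cR U V π = Psi (ev cL (C (tm (-(4 * b)))) (wR b j r) F) := by
  obtain ⟨U, V, hV0, hU, hU1, hV, hV1, ht, ht0, hz⟩ := exists_UV (b := b) (j := j) hb s₁ l r
  refine ⟨U, V, hU, hU1, hV, hV1, ?_⟩
  have h1 := m5_rep hrep LR cR U V (m5_ne _ hV0)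
  have h2 := h1 (m5_ne _ ht0)
  have h := h2 _ _ hz (m5_inv _ _ ht)
  rw [m5_key]
  exact h.symm

theorem pi_bound {b j A : ℕ} (hb : b = 3 * j + 1) {s₁ l r : ℂ} {F π : MP}
    (hrep : Rep s₁ l (4 * r) F π)
    (hF : LowB (ev cL (C (tm (-(4 * b)))) (wR b j r) F) (-(A : ℤ))) :
    ∀ i k, π.coeff (pt i k) ≠ 0 → i + j * k ≤ A := by
  obtain ⟨U, V, hU, hU1, hV, hV1, he⟩ := m5_exists hb hrep
  refine weight_bound hU hU1 hV hV1 ?_
  rw [he]
  exact hF.low

theorem pi_top {b j A : ℕ} (hb : b = 3 * j + 1) {s₁ l r : ℂ} {F π : MP}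
    (hrep : Rep s₁ l (4 * r) F π)
    (hF : LowB (ev cL (C (tm (-(4 * b)))) (wR b j r) F) (-(A : ℤ)))
    (ht : ((ev cL (C (tm (-(4 * b)))) (wR b j r) F).coeff (3 * A)).coeff (-(A : ℤ)) ≠ 0) :
    π.coeff (pt A 0) ≠ 0 := by
  have hπ := pi_bound hb hrep hF
  obtain ⟨U, V, hU, hU1, hV, hV1, he⟩ := m5_exists hb hrep
  refine weight_top hU hU1 hV hV1 hπ
    (p := lev (-(A : ℤ)) (ev cL (C (tm (-(4 * b)))) (wR b j r) F)) ?_ ?_
  · rw [he, Psi_coeff]
  · rw [lev_coeff]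
    exact ht

end ModM5

end Pool.Agent.Lib.MP_2d59ee_ag.J
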