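import Mathlib
import Pool.Agent.Lib.MP_2d59ee_ag.JKill
import Pool.Agent.Lib.MP_2d59ee_ag.JSysC
import Pool.Agent.Lib.MP_2d59ee_ag.JTop
import Pool.Agent.Lib.MP_2d59ee_ag.JRight

set_option autoImplicit false

/-! Part Z -/
/-! ## Final assembly: no pair of shape `(4a, 12a)` for `a ≡ 1 mod 6` -/

namespace Pool.Agent.Lib.MP_2d59ee_ag.J

section ModZ

open Polynomial

theorem no_shape {a b : ℕ} (ha : 2 ≤ a) (hlt : a < b) (hab : Nat.Coprime a b) (h6 : a % 6 = 1)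
    {F G : MP} (h : Shape a b F G) : False := by
  obtain ⟨hb, F', G', h3⟩ := exists_shape3 ha hlt hab h
  obtain ⟨j, hj⟩ : ∃ j, a = 2 * j + 1 := ⟨a / 2, by omega⟩
  have hbj : b = 3 * j + 1 := by omega
  have hj3 : j % 3 = 0 := by omega
  have hj1 : 2 ≤ j := by omega
  obtain ⟨r, hr1, hr2, hr3⟩ := right_final (by omega) hj hbj h3
  obtain ⟨s₁, l, hl1, hl2⟩ := left_final ha hlt hab h3
  obtain ⟨W₁, hW₁⟩ := exists_W hl1
  obtain ⟨W₂, hW₂⟩ := exists_W hl2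
  obtain ⟨π₁, hπ₁⟩ := exists_pi (4 * r) hW₁
  obtain ⟨π₂, hπ₂⟩ := exists_pi (4 * r) hW₂
  have b₁ := pi_bound hbj hπ₁ hr1
  have b₂ := pi_bound hbj hπ₂ hr3
  have ht := pi_top hbj hπ₁ hr1 hr2
  rw [hj] at b₁ ht
  rw [hbj] at b₂
  obtain ⟨c, hc, hJ⟩ := h3.hJ
  have hjac := jac_pi hπ₁ hπ₂ hJ
  have c₁ := const_rel hW₁ hπ₁ (k₀ := 2) le_rfl (by
    intro i k hik
    have h1 := b₁ i k hik
    constructor
    · by_contra hk
      have : j * 3 ≤ j * k := Nat.mul_le_mul_left j (by omega)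
      omega
    · rintro rfl
      omega)
  have c₂ := const_rel hW₂ hπ₂ (k₀ := 3) (by norm_num) (by
    intro i k hik
    have h1 := b₂ i k hik
    constructor
    · by_contra hk
      have : j * 4 ≤ j * k := Nat.mul_le_mul_left j (by omega)
      omega
    · rintro rfl
      omega)
  obtain ⟨f, g, q0, q1, q2, hsys⟩ := sys_of hj1 hc b₁ b₂ c₁.1 c₁.2 c₂.1 c₂.2 ht hjac
  obtain ⟨Y, H, c', hst⟩ := star_of_sys hj1 hsys
  exact kill (by omega) (by omega) hst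

end ModZ

end Pool.Agent.Lib.MP_2d59ee_ag.J
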